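import Mathlib

/-! Rank two systems: the twisted pull back, and the two statements on its stable modules. -/

namespace Pool.Agent.DS.Pst

open MvPolynomial

/-- The semilinear map `Y (l,0) ↦ Y (l,1)`, `Y (l,1) ↦ e Y (l,0) + g Y (l,1) + x l`. -/
noncomputable def Sg {ι A : Type} [CommRing A] (s : A →+* A) (e g : A) (x : ι → A) :
    MvPolynomial (ι × Fin 2) A →+* MvPolynomial (ι × Fin 2) A :=
  eval₂Hom (C.comp s) fun v =>
    if v.2 = 0 then X (v.1, 1) else C e * X (v.1, 0) + C g * X (v.1, 1) + C (x v.1)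

/-- The twisted pull back over `F[t]`. -/
noncomputable def SD {ι F : Type} [Field F] (σ : F →+* F) (A c G : F) (ξ : ι → F) :
    MvPolynomial (ι × Fin 2) (Polynomial F) →+* MvPolynomial (ι × Fin 2) (Polynomial F) :=
  Sg (Polynomial.mapRingHom σ) (Polynomial.C A * (Polynomial.X - Polynomial.C c)) (Polynomial.C G)
    fun l => Polynomial.C (ξ l)

/-- An affine polynomial. -/
noncomputable def aff {ι A : Type} [Fintype ι] [CommRing A] (a b : ι → A) (h : A) :
    MvPolynomial (ι × Fin 2) A :=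
  ∑ l, (C (a l) * X (l, 0) + C (b l) * X (l, 1)) + C h

/-- An affine solution of the homogeneous equation, of degree at most `E`, free of `Sp`. -/
def Out {ι F : Type} [Fintype ι] [Field F] (σ : F →+* F) (A c G : F) (ξ : ι → F) (Sp : Set ι)
    (E : ℕ) : Prop :=
  ∃ (a b : ι → Polynomial F) (h : Polynomial F),
    (∀ l, (a l).natDegree ≤ E ∧ (b l).natDegree ≤ E) ∧ (∀ l ∈ Sp, a l = 0 ∧ b l = 0) ∧
    (∃ l, a l ≠ 0) ∧ SD σ A c G ξ (SD σ A c G ξ (aff a b h)) =
      C (Polynomial.C A * (Polynomial.X - Polynomial.C c)) * aff a b h +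
        C (Polynomial.C G) * SD σ A c G ξ (aff a b h)

/-- From an affine polynomial whose orbit spans no constant to a solution. -/
def TorS : Prop :=
  ∀ n : ℕ, ∃ κ : ℕ, ∀ (ι F : Type) [Fintype ι] [Field F] (σ : F →+* F) (A c G : F) (ξ : ι → F)
    (Sp : Set ι) (D : ℕ) (f : MvPolynomial (ι × Fin 2) (Polynomial F)), Fintype.card ι ≤ n →
    Function.Bijective σ → A ≠ 0 → f ≠ 0 → f.totalDegree ≤ 1 →
    (∀ α, (f.coeff α).natDegree ≤ D) → (∀ v ∈ f.vars, v.1 ∉ Sp) →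
    (∀ h : Polynomial F, C h ∈ Submodule.span (Polynomial F)
      (Set.range fun s : ℕ => (SD σ A c G ξ)^[s] f) → h = 0) →
    Out σ A c G ξ Sp (κ * (D + 1))

/-- A stable module contains a polynomial in the special variables, or there is a solution. -/
def PstS : Prop :=
  ∀ n δ : ℕ, ∃ κ : ℕ, ∀ (ι F : Type) [Fintype ι] [Field F] [IsAlgClosed F] (p : ℕ) [Fact p.Prime]
    [CharP F p] (σ : F →+* F) (A c G : F) (ξ : ι → F) (Sp : Set ι) (D : ℕ)
    (f : MvPolynomial (ι × Fin 2) (Polynomial F))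
    (Mo : Submodule (Polynomial F) (MvPolynomial (ι × Fin 2) (Polynomial F))),
    Fintype.card ι ≤ n → Function.Bijective σ → A ≠ 0 → (∀ l ∈ Sp, ξ l = 0) →
    (∀ g ∈ Mo, SD σ A c G ξ g ∈ Mo) → f ∈ Mo → f ≠ 0 → f.totalDegree ≤ δ →
    (∀ α, (f.coeff α).natDegree ≤ D) →
    (∃ w ∈ Mo, w ≠ 0 ∧ ∀ v ∈ w.vars, v.1 ∈ Sp) ∨ Out σ A c G ξ Sp (κ * (D + 1))

section
variable {ι A : Type} [CommRing A] (s : A →+* A) (e g : A) (x : ι → A)

@[simp] lemma Sg_C (a : A) : Sg s e g x (C a) = C (s a) := by simp [Sg]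

@[simp] lemma Sg_X0 (l : ι) : Sg s e g x (X (l, 0)) = X (l, 1) := by simp [Sg]

@[simp] lemma Sg_X1 (l : ι) :
    Sg s e g x (X (l, 1)) = C e * X (l, 0) + C g * X (l, 1) + C (x l) := by simp [Sg]

end

end Pool.Agent.DS.Pst
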