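import Pool.Agent.Lib.MP_0c15f2_nt.DS.Defs
import Pool.Agent.Lib.MP_0c15f2_nt.DS.Pst0
import Pool.Agent.Lib.MP_0370b2_nt.SA.Bas

/-! Non-degeneracy in rank two: a common zero of a stable module gives an affine solution. -/

namespace Pool.Agent.DS13

open Polynomial Finset Pool.Agent.CSU.SA Pool.Agent.CSU.SA.DS

variable {ι τ F : Type} [Field F] (σ : F →+* F) (A G c : F) (ξ : ι → F)

@[simp] lemma SD_C (a : F[X]) : SD σ A G c ξ (MvPolynomial.C a) = MvPolynomial.C (a.map σ) := by
  simp [SD]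

@[simp] lemma SD_X0 (l : ι) : SD σ A G c ξ (MvPolynomial.X (l, 0)) = MvPolynomial.X (l, 1) := by
  simp [SD, LL]

@[simp] lemma SD_X1 (l : ι) : SD σ A G c ξ (MvPolynomial.X (l, 1)) =
    MvPolynomial.C (C A * (X - C c)) * MvPolynomial.X (l, 0) +
      MvPolynomial.C (C G) * MvPolynomial.X (l, 1) + MvPolynomial.C (C (ξ l)) := by
  simp [SD, LL]

lemma SD_eq : DS.Pst.SD σ A c G ξ = SD σ A G c ξ := by
  refine MvPolynomial.ringHom_ext (fun a => ?_) ?_
  · rw [SD_C, DS.Pst.SD, DS.Pst.Sg_C, coe_mapRingHom]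
  · rintro ⟨l, b⟩
    fin_cases b
    · exact (DS.Pst.Sg_X0 _ _ _ _ l).trans (SD_X0 σ A G c ξ l).symm
    · exact (DS.Pst.Sg_X1 _ _ _ _ l).trans (SD_X1 σ A G c ξ l).symm

/-- A change of variables commutes with the pull back. -/
lemma sb_SD (ξ' : ι → F) (u h : ι → F[X]) (hu : ∀ l, (u l).map σ = u l)
    (he : ∀ l, u l * C (ξ l) + ((h l).map σ).map σ =
      C A * (X - C c) * h l + C G * (h l).map σ + C (ξ' l)) (f : PP (ι × Fin 2) F) :
    sb (fun p => u p.1) (fun p => if p.2 = 0 then h p.1 else (h p.1).map σ) (SD σ A G c ξ' f) =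
      SD σ A G c ξ
        (sb (fun p => u p.1) (fun p => if p.2 = 0 then h p.1 else (h p.1).map σ) f) := by
  induction f using MvPolynomial.induction_on with
  | C a => simp
  | add p q hp hq => simp only [map_add, hp, hq]
  | mul_X p v hp =>
    obtain ⟨l, b⟩ := v
    rw [map_mul, map_mul, map_mul, map_mul, hp]
    refine congrArg _ ?_
    fin_cases b
    · simp [hu]
    · have := congrArg (MvPolynomial.C (σ := ι × Fin 2)) (he l)
      simp only [map_add, map_mul] at this
      simp only [Fin.mk_one, SD_X1, map_add, map_mul, sb_C, sb_X, SD_C, hu, SD_X0, if_pos,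
        one_ne_zero, if_false]
      linear_combination -this

lemma rename_SD (j : τ → ι) (hξ : ∀ i, ξ (j i) = 0) (f : PP (τ × Fin 2) F) :
    SD σ A G c ξ (MvPolynomial.rename (Prod.map j id) f) =
      MvPolynomial.rename (Prod.map j id) (SD σ A G c 0 f) := by
  induction f using MvPolynomial.induction_on with
  | C a => simp
  | add p q hp hq => simp only [map_add, hp, hq]
  | mul_X p v hp =>
    obtain ⟨l, b⟩ := v
    rw [map_mul, map_mul, map_mul, map_mul, hp]
    refine congrArg _ ?_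
    fin_cases b <;> simp [hξ]

/-- Clearing the denominators of an affine change of variables. -/
lemma clear {κ : Type} [Fintype κ] (u u' h : κ → F[X]) (s δ D : ℕ) (hu : ∀ p, u' p * u p = X ^ s)
    (hd : ∀ p, (u' p).natDegree ≤ s ∧ (-(u' p * h p)).natDegree ≤ s) (f : PP κ F)
    (h1 : f.totalDegree ≤ δ) (h2 : ∀ α, (f.coeff α).natDegree ≤ D) :
    ∃ g : PP κ F, sb u h g = MvPolynomial.C (X ^ (s * δ)) * f ∧ g.totalDegree ≤ δ ∧
      ∀ α, (g.coeff α).natDegree ≤ D + s * δ := by
  classical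
  have dg : ∀ α ∈ f.support, α.degree ≤ δ := fun α hα =>
    (MvPolynomial.le_totalDegree hα).trans h1
  have key : ∀ α : κ →₀ ℕ, sb u h (sb u' (fun p => -(u' p * h p)) (MvPolynomial.monomial α 1)) =
      MvPolynomial.C (X ^ (s * α.degree)) * MvPolynomial.monomial α 1 := fun α => by
    induction α using Finsupp.induction_linear with
    | zero => simp
    | add α β h1 h2 =>
      rw [← one_mul (1 : F[X]), ← MvPolynomial.monomial_mul, map_mul, map_mul, h1, h2, map_add,
        mul_add, pow_add, map_mul]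
      ring
    | single p m =>
      rw [← MvPolynomial.X_pow_eq_monomial, map_pow, map_pow, Finsupp.degree_single, pow_mul, ← hu p,
        map_pow, ← mul_pow]
      congr 1
      simp only [sb_X, map_add, map_mul, sb_C, map_neg]
      ring
  refine ⟨∑ α ∈ f.support, MvPolynomial.C (f.coeff α * X ^ (s * (δ - α.degree))) *
    sb u' (fun p => -(u' p * h p)) (MvPolynomial.monomial α 1), ?_, ?_, fun β => ?_⟩
  · conv_rhs => rw [f.as_sum, mul_sum]
    rw [map_sum]
    refine sum_congr rfl fun α hα => ?_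
    rw [map_mul, key, sb_C, ← mul_assoc, ← map_mul, mul_assoc, ← pow_add, ← mul_add,
      Nat.sub_add_cancel (dg α hα), MvPolynomial.C_mul_monomial, MvPolynomial.C_mul_monomial,
      mul_one, mul_comm]
  · refine MvPolynomial.totalDegree_finsetSum_le fun α hα => ?_
    refine Finset.sup_le fun β hβ => ?_
    have h3 := MvPolynomial.mem_support_iff.1 hβ
    rw [MvPolynomial.coeff_C_mul] at h3
    have h4 : β ≤ α := by_contra fun h4 =>
      right_ne_zero_of_mul h3 (((sb_mono _ _ hd α).2 β).2 h4)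
    obtain ⟨γ, rfl⟩ := exists_add_of_le h4
    have := dg _ hα
    rw [map_add] at this
    exact (Nat.le_add_right _ _).trans this
  · rw [MvPolynomial.coeff_sum]
    refine natDegree_sum_le_of_forall_le _ _ fun α hα => ?_
    rw [MvPolynomial.coeff_C_mul]
    refine natDegree_mul_le.trans ((add_le_add (natDegree_mul_le.trans (add_le_add (h2 α)
      (natDegree_X_pow_le _))) ((sb_mono _ _ hd α).2 β).1).trans ?_)
    rw [add_assoc, mul_comm α.degree, ← mul_add, Nat.sub_add_cancel (dg α hα)]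

/-- With no special variable the backward orbits are dense. -/
lemma den0 [IsEmpty τ] (hσ : Function.Surjective σ) : Den σ A G c (1 : PP (τ × Fin 2) F) := by
  refine ⟨⟨1, 0, one_ne_zero, by simp⟩, fun x V _ hx _ f hf => ?_⟩
  obtain ⟨a, rfl⟩ : ∃ a, f = MvPolynomial.C a := ⟨_, f.eq_C_of_isEmpty⟩
  by_contra hn
  push Not at hn
  choose r hr using fun n => hσ.iterate n x
  have e : ∀ n (b : F[X]) y, evp (σ^[n] y) V ((SD σ A G c (0 : τ → F))^[n] (MvPolynomial.C b)) =
      σ^[n] (b.eval y) := fun n => by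
    induction n with
    | zero => simp
    | succ n ih =>
      intro b y
      rw [Function.iterate_succ_apply, Function.iterate_succ_apply, SD_C, ih,
        Function.iterate_succ_apply, eval_map, eval₂_hom]
  refine hf (congrArg _ (a.eq_zero_of_infinite_isRoot (Set.infinite_of_injective_forall_mem
    (f := r) (fun m n h => ?_) fun n => ?_)) |>.trans (map_zero _))
  · by_contra hne
    wlog hlt : m < n generalizing m n
    · exact this n m h.symm (Ne.symm hne) (by omega)
    refine hx (n - m) (by omega) ?_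
    conv_lhs => rw [← hr m, ← Function.iterate_add_apply, Nat.sub_add_cancel hlt.le, h, hr n]
  · have := e n a (r n)
    rw [hr, hn] at this
    exact (σ.injective.iterate n) (this.symm.trans (iterate_map_zero σ n).symm)

/-- A common zero with `Pi ≠ 0` of a stable module gives an affine solution. -/
theorem ndG (hP : DS.Pst.PstS) (n δ s : ℕ) : ∃ κ : ℕ, ∀ (ι τ F : Type) [Fintype ι] [Field F]
    [IsAlgClosed F] (p : ℕ) [Fact p.Prime] [CharP F p] (σ : F →+* F) (A G c : F) (ξ : ι → F)
    (j : τ → ι) (h : τ → F[X]) (Pi : PP (τ × Fin 2) F) (D : ℕ) (f : PP (ι × Fin 2) F)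
    (Mo : Submodule F[X] (PP (ι × Fin 2) F)) (x : F) (V : ι × Fin 2 → F), Fintype.card ι ≤ n →
    Function.Bijective σ → A ≠ 0 → Function.Injective j → (∀ i, (h i).natDegree ≤ s ∧
      X ^ s * C (ξ (j i)) + ((h i).map σ).map σ = C A * (X - C c) * h i + C G * (h i).map σ) →
    Den σ A G c Pi → (∀ i, σ^[i] c ≠ x) → (∀ i, 0 < i → σ^[i] x ≠ x) →
    evp x (Zv σ s j h x V) Pi ≠ 0 → (∀ g ∈ Mo, SD σ A G c ξ g ∈ Mo) → f ∈ Mo → f ≠ 0 →
    f.totalDegree ≤ δ → (∀ α, (f.coeff α).natDegree ≤ D) → (∀ w ∈ Mo, evp x V w = 0) →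
    DS.Pst.Out σ A c G ξ (Set.range j) (κ * (D + 1)) := by
  obtain ⟨κ, hκ⟩ := hP n δ
  refine ⟨κ * (s * δ + 1), ?_⟩
  intro ι τ F _ _ _ p _ _ σ A G c ξ j h Pi D f Mo x V hn hσ hA hj hh hD x1 x2 hV hS hf h0 d1 d2 hz
  classical
  let ξ' : ι → F := fun l => if l ∈ Set.range j then 0 else ξ l
  let u : ι → F[X] := fun l => if l ∈ Set.range j then X ^ s else 1
  let u' : ι → F[X] := fun l => if l ∈ Set.range j then 1 else X ^ s
  let H : ι → F[X] := Function.extend j h 0
  have H1 : ∀ i, H (j i) = h i := fun i => hj.extend_apply _ _ i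
  have H2 : ∀ l ∉ Set.range j, H l = 0 := fun l hl => Function.extend_apply' _ _ _ hl
  have H3 : ∀ l ∉ Set.range j, u l = 1 ∧ u' l = X ^ s ∧ ξ' l = ξ l := fun l hl =>
    ⟨if_neg hl, if_neg hl, if_neg hl⟩
  have cm := sb_SD σ A G c ξ ξ' u H (fun l => by simp only [u]; split_ifs <;> simp) fun l => by
    by_cases hl : l ∈ Set.range j
    · simp only [u, ξ', if_pos hl]
      obtain ⟨i, rfl⟩ := hl
      rw [H1, (hh i).2, C_0, add_zero]
    · simp [H3 l hl, H2 l hl]
  set ψ := sb (fun p : ι × Fin 2 => u p.1) (fun p => if p.2 = 0 then H p.1 else (H p.1).map σ)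
    with hψ
  obtain ⟨g, g1, g2, g3⟩ := clear (fun p : ι × Fin 2 => u p.1) (fun p => u' p.1)
    (fun p => if p.2 = 0 then H p.1 else (H p.1).map σ) s δ D
    (fun p => by simp only [u, u']; split_ifs <;> simp) (fun p => by
      by_cases hl : p.1 ∈ Set.range j
      · simp only [u', if_pos hl]
        obtain ⟨i, e⟩ := hl
        rw [← e, H1]
        have := (hh i).1
        split_ifs <;> simpa
      · simp [H3 _ hl, H2 _ hl]) f d1 d2
  have mem : ∀ g, g ∈ Mo.comap ψ.toLinearMap ↔ ψ g ∈ Mo := fun g => Iff.rfl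
  have st : ∀ g ∈ Mo.comap ψ.toLinearMap, SD σ A G c ξ' g ∈ Mo.comap ψ.toLinearMap :=
    fun g hg => by rw [mem, cm]; exact hS _ hg
  rcases hκ ι F p σ A c G ξ' (Set.range j) _ g (Mo.comap ψ.toLinearMap) hn hσ hA
    (fun l hl => if_pos hl) (by rw [SD_eq]; exact st)
    (by rw [mem, g1, ← MvPolynomial.smul_eq_C_mul]; exact Mo.smul_mem _ hf)
    (fun e => mul_ne_zero (MvPolynomial.C_ne_zero.2 (pow_ne_zero _ X_ne_zero)) h0
      (by rw [← g1, e, map_zero])) g2 g3 with ⟨w, w1, w2, w3⟩ | ⟨a, b, r, o1, o2, o3, o4⟩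
  · obtain ⟨w0, rfl⟩ := MvPolynomial.exists_rename_eq_of_vars_subset_range w (Prod.map j id)
      (hj.prodMap Function.injective_id) fun v hv => by
        obtain ⟨i, e⟩ := w3 v hv
        exact ⟨(i, v.2), Prod.ext e rfl⟩
    obtain ⟨m, hm⟩ := hD.2 x _ x1 x2 hV w0 fun e => w2 (by rw [e, map_zero])
    have e1 : ∀ m, MvPolynomial.rename (Prod.map j id) ((SD σ A G c 0)^[m] w0) ∈
        Mo.comap ψ.toLinearMap := fun m => by
      induction m with
      | zero => exact w1
      | succ m ih =>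
        rw [Function.iterate_succ_apply', ← rename_SD σ A G c ξ' j fun i => if_pos ⟨i, rfl⟩]
        exact st _ ih
    have e2 : ∀ g, evp x V (ψ (MvPolynomial.rename (Prod.map j id) g)) =
        evp x (Zv σ s j h x V) g := fun g => by
      induction g using MvPolynomial.induction_on with
      | C a => simp [hψ]
      | add p q hp hq => simp only [map_add, hp, hq]
      | mul_X p v hp =>
        rw [map_mul, map_mul, map_mul, map_mul, hp]
        refine congrArg _ ?_
        simp [hψ, Zv, u, H1, Prod.map]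
    exact absurd ((e2 _).symm.trans (hz _ (e1 m))) hm
  · refine ⟨a, b, r, fun l => ?_, o2, o3, ?_⟩
    · have : κ * (D + s * δ + 1) ≤ κ * (s * δ + 1) * (D + 1) := by
        rw [mul_assoc]; exact Nat.mul_le_mul_left _ (by nlinarith [Nat.zero_le (s * δ * D)])
      exact ⟨(o1 l).1.trans this, (o1 l).2.trans this⟩
    · have e : ψ (DS.Pst.aff a b r) = DS.Pst.aff a b r := by
        simp only [DS.Pst.aff, map_add, map_sum, map_mul, hψ, sb_C, sb_X]
        refine congrArg (· + _) (sum_congr rfl fun l _ => ?_)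
        by_cases hl : l ∈ Set.range j
        · simp [o2 l hl]
        · simp [H3 l hl, H2 l hl]
      have := congrArg ψ o4
      rw [SD_eq] at this ⊢
      rw [cm, cm, map_add ψ, map_mul ψ, map_mul ψ, cm, e] at this
      simpa only [hψ, sb_C] using this

end Pool.Agent.DS13
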