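import Pool.Agent.Lib.MP_0370b2_nt.SA.Ht

/-! Systems given by affine maps: rows of bounded total degree, formal jets, heights. -/

namespace Pool.Agent.DS

open Polynomial Finset Pool.Agent.CSU.SA

variable {ι R R' : Type} [CommRing R] [CommRing R']

/-- Total degree at most `δ` in `Y` and degree less than `d` in `t`. -/
def TRow (δ d : ℕ) (f : PP ι R) : Prop := f.totalDegree ≤ δ ∧ ∀ α, (f.coeff α).degree < d

/-- The formal jet `f(c + ε, V)`. -/
noncomputable def jet (c : R) (V : ι → PP ι R) : PP ι R →ₐ[R] PP ι R :=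
  MvPolynomial.aevalTower ((IsScalarTower.toAlgHom R R[X] (PP ι R)).comp (taylorAlgHom c)) V

/-- The twisted pull back `f ↦ (σ f)(t, A)`. -/
noncomputable def TS (σ : R →+* R) (A : ι → PP ι R) : PP ι R →+* PP ι R :=
  (MvPolynomial.aeval A : PP ι R →ₐ[R[X]] PP ι R).toRingHom.comp (tw σ)

/-- The data of a system: `y` are the values at level `0` and point `θ`, `A` expresses the
variables of level `1` by those of level `0`, `Q` is the relation. -/
structure Sy (ι R : Type) [CommRing R] where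
  q : ℕ
  μ : ℕ
  σ : R →+* R
  θ : R
  y : ι → R
  A : ι → PP ι R
  Q : PP ι R

namespace Sy

/-- Image of a system. -/
noncomputable def map (s : Sy ι R) (φ : R →+* R') (σ' : R' →+* R') : Sy ι R' :=
  ⟨s.q, s.μ, σ', φ s.θ, fun l => φ (s.y l), fun l => tw φ (s.A l), tw φ s.Q⟩

/-- The affine maps of level `m`. -/
noncomputable def L (s : Sy ι R) (m : ℕ) (l : ι) : PP ι R := (tw s.σ)^[m] (s.A l)

/-- The formal values at the point `θ ^ q ^ i`, level `i + m`. -/
noncomputable def VV (s : Sy ι R) (i m : ℕ) : ι → PP ι R :=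
  Nat.rec (fun l => MvPolynomial.C (C (s.y l ^ s.q ^ i)) + MvPolynomial.X l)
    (fun m V l => jet (s.θ ^ s.q ^ i) V (s.L (i + m) l)) m

/-- The formal jet `f(θ ^ q ^ i + ε, VV i m)`. -/
noncomputable def JJ (s : Sy ι R) (i m : ℕ) : PP ι R →ₐ[R] PP ι R :=
  jet (s.θ ^ s.q ^ i) (s.VV i m)

/-- The pull back from level `m + 1` to level `m`. -/
noncomputable def sub (s : Sy ι R) (m : ℕ) : PP ι R →ₐ[R[X]] PP ι R := MvPolynomial.aeval (s.L m)

/-- The condition at one point. -/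
def Cond (s : Sy ι R) (i m : ℕ) (f : PP ι R) : Prop :=
  ∃ g, Box s.μ (s.JJ i m f - g * (tw s.σ)^[i] s.Q)

/-- The value at one point. -/
noncomputable def ev (s : Sy ι R) (i m : ℕ) (f : PP ι R) : R := ((s.JJ i m f).coeff 0).coeff 0

/-- The values of the variables. -/
noncomputable def vv (s : Sy ι R) (i m : ℕ) (l : ι) : R := ((s.VV i m l).coeff 0).coeff 0

end Sy

@[simp] lemma jet_C (c : R) (V : ι → PP ι R) (a : R[X]) :
    jet c V (MvPolynomial.C a) = MvPolynomial.C (taylor c a) := MvPolynomial.aevalTower_C _ _ _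

@[simp] lemma jet_X (c : R) (V : ι → PP ι R) (l : ι) : jet c V (MvPolynomial.X l) = V l :=
  MvPolynomial.aevalTower_X _ _ _

lemma jet_aeval (c : R) (V A : ι → PP ι R) (f : PP ι R) :
    jet c V (MvPolynomial.aeval A f) = jet c (fun l => jet c V (A l)) f := by
  induction f using MvPolynomial.induction_on with
  | C a => simp
  | add p q hp hq => simp only [map_add, hp, hq]
  | mul_X p l hp => simp only [map_mul, hp, MvPolynomial.aeval_X, jet_X]

lemma tw_jet (φ : R →+* R') (c : R) (V : ι → PP ι R) (f : PP ι R) :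
    tw φ (jet c V f) = jet (φ c) (fun l => tw φ (V l)) (tw φ f) := by
  induction f using MvPolynomial.induction_on with
  | C a => simp [map_taylor]
  | add p q hp hq => simp only [map_add, hp, hq]
  | mul_X p l hp => simp only [map_mul, hp, jet_X, tw_X]

lemma tw_aeval (φ : R →+* R') (A : ι → PP ι R) (f : PP ι R) :
    tw φ (MvPolynomial.aeval A f) = MvPolynomial.aeval (fun l => tw φ (A l)) (tw φ f) := by
  induction f using MvPolynomial.induction_on with
  | C a => simp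
  | add p q hp hq => simp only [map_add, hp, hq]
  | mul_X p l hp => simp only [map_mul, hp, MvPolynomial.aeval_X, tw_X]

lemma TS_apply (σ : R →+* R) (A : ι → PP ι R) (f : PP ι R) :
    TS σ A f = MvPolynomial.aeval A (tw σ f) := rfl

@[simp] lemma TS_C (σ : R →+* R) (A : ι → PP ι R) (a : R[X]) :
    TS σ A (MvPolynomial.C a) = MvPolynomial.C (a.map σ) := by simp [TS_apply]

@[simp] lemma TS_X (σ : R →+* R) (A : ι → PP ι R) (l : ι) : TS σ A (MvPolynomial.X l) = A l := by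
  simp [TS_apply]

lemma evp_aeval (c : R) (V : ι → R) (A : ι → PP ι R) (f : PP ι R) :
    evp c V (MvPolynomial.aeval A f) = evp c (fun l => evp c V (A l)) f := by
  induction f using MvPolynomial.induction_on with
  | C a => simp
  | add p q hp hq => simp only [map_add, hp, hq]
  | mul_X p l hp => simp only [map_mul, hp, MvPolynomial.aeval_X, evp_X]

lemma evp_tw (φ : R →+* R') (c : R) (V : ι → R) (f : PP ι R) :
    evp (φ c) (fun l => φ (V l)) (tw φ f) = φ (evp c V f) := by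
  induction f using MvPolynomial.induction_on with
  | C a => simp [eval_map, eval₂_at_apply]
  | add p q hp hq => simp only [map_add, hp, hq]
  | mul_X p l hp => simp only [map_mul, hp, tw_X, evp_X]

lemma ev_jet (c : R) (V : ι → PP ι R) (f : PP ι R) : ((jet c V f).coeff 0).coeff 0 =
    evp c (fun l => ((V l).coeff 0).coeff 0) f := by
  have e : ∀ g : PP ι R, (g.coeff 0).coeff 0 =
      (constantCoeff.comp MvPolynomial.constantCoeff : PP ι R →+* R) g := fun _ => rfl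
  rw [e]
  induction f using MvPolynomial.induction_on with
  | C a => simp
  | add p q hp hq => simp only [map_add, hp, hq]
  | mul_X p l hp => rw [map_mul, map_mul, map_mul, hp, jet_X, evp_X, e]

namespace TRow

variable {δ d δ' d' : ℕ} {f g : PP ι R}

lemma zero : TRow δ d (0 : PP ι R) := ⟨by simp, fun _ => WithBot.bot_lt_coe _⟩

lemma mono (hf : TRow δ d f) (h' : δ ≤ δ') (h : d ≤ d') : TRow δ' d' f :=
  ⟨hf.1.trans h', fun α => (hf.2 α).trans_le (by exact_mod_cast h)⟩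

lemma add (hf : TRow δ d f) (hg : TRow δ d g) : TRow δ d (f + g) :=
  ⟨(MvPolynomial.totalDegree_add _ _).trans (max_le hf.1 hg.1), fun α => by
    rw [MvPolynomial.coeff_add]; exact (degree_add_le _ _).trans_lt (max_lt (hf.2 α) (hg.2 α))⟩

lemma sum {κ : Type} {s : Finset κ} {f : κ → PP ι R} (h : ∀ i ∈ s, TRow δ d (f i)) :
    TRow δ d (∑ i ∈ s, f i) := sum_induction _ _ (fun _ _ => add) zero h

lemma mul (hf : TRow δ d f) (hg : TRow δ' (d' + 1) g) : TRow (δ + δ') (d + d') (f * g) := by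
  classical
  refine ⟨(MvPolynomial.totalDegree_mul _ _).trans (add_le_add hf.1 hg.1), fun α => ?_⟩
  rw [MvPolynomial.coeff_mul]
  refine (degree_sum_le _ _).trans_lt ((Finset.sup_lt_iff (WithBot.bot_lt_coe _)).2 fun β _ => ?_)
  exact deg_mul_lt (hf.2 _) (natDegree_le_iff_degree_le.2 (Order.le_of_lt_succ (hg.2 _)))

lemma C {a : R[X]} (ha : a.degree < d) : TRow 0 d (MvPolynomial.C a : PP ι R) := by
  classical
  refine ⟨(MvPolynomial.totalDegree_C _).le, fun α => ?_⟩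
  rw [MvPolynomial.coeff_C]
  split_ifs
  exacts [ha, WithBot.bot_lt_coe _]

lemma one : TRow 0 1 (1 : PP ι R) := C (a := 1) (degree_one_le.trans_lt (by simp))

lemma X (l : ι) : TRow 1 1 (MvPolynomial.X l : PP ι R) := by
  classical
  refine ⟨(MvPolynomial.totalDegree_monomial_le _ _).trans (by simp), fun α => ?_⟩
  rw [MvPolynomial.coeff_X]
  split_ifs
  exacts [degree_one_le.trans_lt (by simp), WithBot.bot_lt_coe _]

lemma pow (hf : TRow δ (d + 1) f) (n : ℕ) : TRow (n * δ) (n * d + 1) (f ^ n) := by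
  induction n with
  | zero => simpa using one
  | succ n ih =>
    rw [pow_succ]
    exact (ih.mul hf).mono (le_of_eq (by ring)) (le_of_eq (by ring))

lemma prod {κ : Type} {s : Finset κ} {f : κ → PP ι R} {δ d : κ → ℕ}
    (h : ∀ i ∈ s, TRow (δ i) (d i + 1) (f i)) :
    TRow (∑ i ∈ s, δ i) (∑ i ∈ s, d i + 1) (∏ i ∈ s, f i) := by
  classical
  induction s using Finset.induction_on with
  | empty => simpa using one
  | insert i s hi ih =>
    rw [prod_insert hi, sum_insert hi, sum_insert hi]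
    exact ((h i (mem_insert_self _ _)).mul (ih fun j hj => h j (mem_insert_of_mem hj))).mono le_rfl
      (by omega)

lemma tw (hf : TRow δ d f) (σ : R →+* R') : TRow δ d (tw σ f) :=
  ⟨(Finset.sup_mono (MvPolynomial.support_map_subset _ _)).trans hf.1, fun α => by
    rw [coeff_tw]; exact degree_map_le.trans_lt (hf.2 α)⟩

lemma tw_iter (hf : TRow δ d f) (σ : R →+* R) (i : ℕ) : TRow δ d ((CSU.SA.tw σ)^[i] f) := by
  induction i with
  | zero => exact hf
  | succ i ih => rw [Function.iterate_succ_apply']; exact ih.tw σ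

lemma le (hf : TRow δ d f) {α : ι →₀ ℕ} (hα : α ∈ f.support) : ∑ l ∈ α.support, α l ≤ δ :=
  (MvPolynomial.le_totalDegree hα).trans hf.1

lemma aeval (hf : TRow δ d f) {A : ι → PP ι R} (hA : ∀ l, TRow 1 2 (A l)) :
    TRow δ (d + δ) (MvPolynomial.aeval A f) := by
  rw [f.as_sum, map_sum]
  refine sum fun α hα => ?_
  rw [MvPolynomial.aeval_monomial]
  have := hf.le hα
  refine ((C (hf.2 α)).mul (prod (s := α.support) fun l _ => (hA l).pow (α l))).mono ?_ ?_ <;>
    simp only [mul_one] <;> omega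

lemma row (hf : TRow δ d f) : Row δ d f := fun α => ⟨hf.2 α, fun h l =>
  (MvPolynomial.monomial_le_degreeOf l (MvPolynomial.mem_support_iff.2 h)).trans
    ((MvPolynomial.degreeOf_le_totalDegree _ _).trans hf.1)⟩

lemma of_row [Fintype ι] (hf : Row δ d f) : TRow (Fintype.card ι * δ) d f :=
  ⟨Finset.sup_le fun α hα => by
    rw [Finsupp.sum_fintype _ _ fun _ => rfl]
    exact (sum_le_card_nsmul _ _ δ fun l _ =>
      (hf α).2 (MvPolynomial.mem_support_iff.1 hα) l).trans_eq (by simp), fun α => (hf α).1⟩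

end TRow

section Ht

variable {k : Type} [Field k] [Algebra k R] {U : Submodule k R}

lemma jet_ht (h1 : 1 ∈ U) {a b v δ d : ℕ} {f : PP ι R} (hf : HtP U a f) (hr : TRow δ d f) {c : R}
    (hc : c ∈ U ^ b) {V : ι → PP ι R} (hV : ∀ l, HtP U v (V l)) :
    HtP U (a + d * b + δ * v) (jet c V f) := by
  rw [f.as_sum, map_sum]
  refine HtP.sum fun α hα => ?_
  rw [MvPolynomial.monomial_eq, map_mul, jet_C, Finsupp.prod, map_prod]
  refine ((HtP.C ((hf.coeff α).taylor h1 hc (hr.2 α))).mul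
    (HtP.prod (d := fun l => α l * v) fun l _ => ?_)).mono h1 ?_
  · rw [map_pow, jet_X]
    exact (hV l).pow _
  · rw [← sum_mul]
    exact Nat.add_le_add_left (Nat.mul_le_mul_right _ (hr.le hα)) _

end Ht

namespace Sy

variable (s : Sy ι R)

lemma VV_zero (i : ℕ) (l : ι) :
    s.VV i 0 l = MvPolynomial.C (C (s.y l ^ s.q ^ i)) + MvPolynomial.X l := rfl

lemma VV_succ (i m : ℕ) (l : ι) : s.VV i (m + 1) l = s.JJ i m (s.L (i + m) l) := rfl

lemma L_succ (m : ℕ) (l : ι) : s.L (m + 1) l = tw s.σ (s.L m l) :=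
  Function.iterate_succ_apply' _ _ _

@[simp] lemma JJ_C (i m : ℕ) (a : R[X]) :
    s.JJ i m (MvPolynomial.C a) = MvPolynomial.C (taylor (s.θ ^ s.q ^ i) a) := jet_C _ _ _

@[simp] lemma JJ_X (i m : ℕ) (l : ι) : s.JJ i m (MvPolynomial.X l) = s.VV i m l := jet_X _ _ _

lemma JJ_sub (i m : ℕ) (f : PP ι R) : s.JJ i m (s.sub (i + m) f) = s.JJ i (m + 1) f :=
  jet_aeval _ _ _ _

lemma L_map {φ : R →+* R'} {σ' : R' →+* R'} (h : ∀ a, φ (s.σ a) = σ' (φ a)) (m : ℕ) (l : ι) :
    tw φ (s.L m l) = (s.map φ σ').L m l := tw_iter_map h _ _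

lemma VV_map {φ : R →+* R'} {σ' : R' →+* R'} (h : ∀ a, φ (s.σ a) = σ' (φ a)) (i m : ℕ) (l : ι) :
    tw φ (s.VV i m l) = (s.map φ σ').VV i m l := by
  induction m generalizing l with
  | zero => simp [VV_zero, map]
  | succ m ih => rw [VV_succ, VV_succ, JJ, tw_jet, funext ih, s.L_map h, map_pow]; rfl

lemma JJ_map {φ : R →+* R'} {σ' : R' →+* R'} (h : ∀ a, φ (s.σ a) = σ' (φ a)) (i m : ℕ)
    (f : PP ι R) : tw φ (s.JJ i m f) = (s.map φ σ').JJ i m (tw φ f) := by
  rw [JJ, tw_jet, funext (s.VV_map h i m), map_pow]; rfl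

lemma ev_map {φ : R →+* R'} {σ' : R' →+* R'} (h : ∀ a, φ (s.σ a) = σ' (φ a)) (i m : ℕ)
    (f : PP ι R) : φ (s.ev i m f) = (s.map φ σ').ev i m (tw φ f) := by
  rw [ev, ev, ← s.JJ_map h, coeff_tw, coeff_map]

lemma ev_sub (i m : ℕ) (f : PP ι R) : s.ev i m (s.sub (i + m) f) = s.ev i (m + 1) f := by
  rw [ev, ev, JJ_sub]

lemma ev_eq (i m : ℕ) (f : PP ι R) : s.ev i m f = evp (s.θ ^ s.q ^ i) (s.vv i m) f := ev_jet _ _ _

lemma vv_zero (i : ℕ) (l : ι) : s.vv i 0 l = s.y l ^ s.q ^ i := by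
  simp [vv, VV_zero, -map_pow, MvPolynomial.coeff_zero_X]

lemma vv_succ (i m : ℕ) (l : ι) :
    s.vv i (m + 1) l = evp (s.θ ^ s.q ^ i) (s.vv i m) (s.L (i + m) l) := s.ev_eq _ _ _

lemma TS_eq (m : ℕ) (f : PP ι R) : TS s.σ (s.L m) f = s.sub m (tw s.σ f) := rfl

lemma tw_sub (m : ℕ) (f : PP ι R) : tw s.σ (s.sub m f) = s.sub (m + 1) (tw s.σ f) := by
  rw [sub, sub, tw_aeval, funext (s.L_succ m)]

variable {s}

lemma sig_pow (hσ : ∀ a, s.σ a = a ^ s.q) (a : R) (i : ℕ) :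
    s.σ (a ^ s.q ^ i) = a ^ s.q ^ (i + 1) := by rw [hσ, ← pow_mul, ← pow_succ]

lemma VV_tw (hσ : ∀ a, s.σ a = a ^ s.q) (i m : ℕ) (l : ι) :
    s.VV (i + 1) m l = tw s.σ (s.VV i m l) := by
  induction m generalizing l with
  | zero => simp only [VV_zero, map_add, tw_C, tw_X, map_C, sig_pow hσ]
  | succ m ih =>
    rw [VV_succ, VV_succ, JJ, JJ, tw_jet, funext ih, sig_pow hσ, add_right_comm, L_succ]

lemma JJ_tw (hσ : ∀ a, s.σ a = a ^ s.q) (i m : ℕ) (f : PP ι R) :
    s.JJ (i + 1) m (tw s.σ f) = tw s.σ (s.JJ i m f) := by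
  rw [JJ, JJ, tw_jet, funext (VV_tw hσ i m), sig_pow hσ]

lemma ev_tw (hσ : ∀ a, s.σ a = a ^ s.q) (i m : ℕ) (f : PP ι R) :
    s.ev (i + 1) m (tw s.σ f) = s.σ (s.ev i m f) := by
  rw [ev, ev, JJ_tw hσ, coeff_tw, coeff_map]

lemma L_row (hA : ∀ l, TRow 1 2 (s.A l)) (m : ℕ) (l : ι) : TRow 1 2 (s.L m l) :=
  (hA l).tw_iter _ _

section Ht

variable {k : Type} [Field k] [Algebra k R] {U : Submodule k R} {hA : ℕ}

lemma VV_ht (h1 : 1 ∈ U) (hθ : s.θ ∈ U) (hy : ∀ l, s.y l ∈ U ∧ HtP U hA (s.A l) ∧ TRow 1 2 (s.A l))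
    (hq : 2 ≤ s.q) (hσ : ∀ a, s.σ a = a ^ s.q) (i m : ℕ) (l : ι) :
    HtP U ((hA + 2) * s.q ^ (i + m)) (s.VV i m l) := by
  induction m generalizing l with
  | zero =>
    exact ((HtP.C (HtQ.C (up_gen (hy l).1 _))).mono h1 (Nat.le_mul_of_pos_left _ (by omega))).add
      (HtP.X h1 _ l)
  | succ m ih =>
    refine (jet_ht h1 ((hy l).2.1.tw_iter hσ (i + m)) (L_row (fun l => (hy l).2.2) _ l)
      (up_gen hθ _) ih).mono h1 ?_
    have a1 : s.q ^ i ≤ s.q ^ (i + m) := Nat.pow_le_pow_right (by omega) (by omega)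
    rw [← add_assoc, pow_succ]
    generalize s.q ^ (i + m) = T at *
    nlinarith [Nat.mul_le_mul_left ((hA + 2) * T) hq, Nat.zero_le (hA * T)]

lemma JJ_ht (h1 : 1 ∈ U) (hθ : s.θ ∈ U) (hy : ∀ l, s.y l ∈ U ∧ HtP U hA (s.A l) ∧ TRow 1 2 (s.A l))
    (hq : 2 ≤ s.q) (hσ : ∀ a, s.σ a = a ^ s.q) {H δ d : ℕ} {f : PP ι R} (hf : HtP U H f)
    (hr : TRow δ d f) (i m : ℕ) :
    HtP U (H + d * s.q ^ i + δ * ((hA + 2) * s.q ^ (i + m))) (s.JJ i m f) :=
  jet_ht h1 hf hr (up_gen hθ _) (VV_ht h1 hθ hy hq hσ i m)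

end Ht

end Sy

end Pool.Agent.DS
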