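import Pool.Agent.Lib.MP_0c15f2_nt.DS.St
import Pool.Agent.Lib.MP_0c15f2_nt.DS.NdG
import Pool.Agent.Lib.MP_0c15f2_nt.DS.Sy

/-! The algebraic part at the second point. -/

namespace Pool.Agent.CSU.SA.DS

open Polynomial Finset Pool.Agent.DS13

namespace Alg

variable {ι F : Type} [Field F]

lemma SD_aff [Fintype ι] (σ : F →+* F) (A G c : F) (ξ : ι → F) (a b : ι → F[X]) (h : F[X]) :
    SD σ A G c ξ (DS.Pst.aff a b h) = DS.Pst.aff (fun l => C A * (X - C c) * (b l).map σ)
      (fun l => (a l).map σ + C G * (b l).map σ) (h.map σ + ∑ l, (b l).map σ * C (ξ l)) := by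
  simp only [DS.Pst.aff, map_add, map_sum, map_mul, DS13.SD_C, SD_X0, SD_X1]
  rw [add_comm (MvPolynomial.C (h.map σ)), ← add_assoc, ← sum_add_distrib]
  refine congrArg (· + _) (sum_congr rfl fun l _ => ?_)
  ring

lemma cc_aff [Fintype ι] (a b : ι → F[X]) (h : F[X]) :
    MvPolynomial.constantCoeff (DS.Pst.aff a b h) = h := by
  simp [DS.Pst.aff]

lemma co_aff [Fintype ι] (a b : ι → F[X]) (h : F[X]) (l : ι) :
    (DS.Pst.aff a b h).coeff (Finsupp.single (l, 0) 1) = a l := by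
  classical
  simp only [DS.Pst.aff, MvPolynomial.coeff_add, MvPolynomial.coeff_sum, MvPolynomial.coeff_C_mul,
    MvPolynomial.coeff_X, MvPolynomial.coeff_C]
  rw [if_neg (Finsupp.single_ne_zero.2 one_ne_zero).symm, add_zero, sum_eq_single l]
  · simp [Finsupp.single_left_inj]
  · intro l' _ hl
    simp [Finsupp.single_left_inj, hl]
  · simp

/-- The output as a row. -/
lemma out [Fintype ι] {σ : F →+* F} {A G c : F} {ξ : ι → F} {Sp : Set ι} {E : ℕ} (hA : A ≠ 0)
    (h : DS.Pst.Out σ A c G ξ Sp E) : ∃ f : PP (ι × Fin 2) F, RowT 1 (E + 1) f ∧ Eq2 σ A G c ξ f ∧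
      ∃ l ∉ Sp, ∃ b, f.coeff (Finsupp.single (l, b) 1) ≠ 0 := by
  obtain ⟨a, b, h, o1, o2, ⟨l, o3⟩, o4⟩ := h
  rw [SD_eq] at o4
  have lt : ∀ p : F[X], p.natDegree ≤ E → p.degree < (E + 1 : ℕ) := fun p hp =>
    degree_le_natDegree.trans_lt (by exact_mod_cast Nat.lt_succ_of_le hp)
  have hh : h.natDegree ≤ E := by
    by_contra hn
    push Not at hn
    have h0 : h ≠ 0 := by rintro rfl; simp at hn
    have e := congrArg MvPolynomial.constantCoeff o4
    rw [SD_aff, SD_aff, map_add MvPolynomial.constantCoeff, map_mul MvPolynomial.constantCoeff,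
      map_mul MvPolynomial.constantCoeff, cc_aff, cc_aff, cc_aff,
      MvPolynomial.constantCoeff_C, MvPolynomial.constantCoeff_C] at e
    have m1 : ∀ p : F[X], (p.map σ).natDegree ≤ p.natDegree := fun p => natDegree_map_le
    have m2 : ∀ u : ι → F[X], (∀ l, (u l).natDegree ≤ h.natDegree) →
        (∑ l, (u l).map σ * C (ξ l)).natDegree ≤ h.natDegree := fun u hu =>
      natDegree_sum_le_of_forall_le _ _ fun l _ =>
        (natDegree_mul_C_le _ _).trans ((m1 _).trans (hu l))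
    have m3 := natDegree_add_le_of_degree_le (m1 h) (m2 b fun l => (o1 l).2.trans hn.le)
    have := (natDegree_sub_le _ _).trans (max_le (natDegree_add_le_of_degree_le ((m1 _).trans m3)
      (m2 (fun l => (a l).map σ + C G * (b l).map σ) fun l => natDegree_add_le_of_degree_le
        ((m1 _).trans ((o1 l).1.trans hn.le)) ((natDegree_C_mul_le _ _).trans
          ((m1 _).trans ((o1 l).2.trans hn.le))))) ((natDegree_C_mul_le G _).trans m3))
    rw [e, add_sub_cancel_right, mul_assoc, natDegree_C_mul hA, natDegree_mul (X_sub_C_ne_zero c) h0,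
      natDegree_X_sub_C] at this
    omega
  refine ⟨_, ?_, o4, l, fun hl => o3 (o2 l hl).1, 0, by rwa [co_aff]⟩
  exact (DS.TRow.sum fun l _ => ((DS.TRow.C (lt _ (o1 l).1)).mul (DS.TRow.X _)).add
    ((DS.TRow.C (lt _ (o1 l).2)).mul (DS.TRow.X _))).add
      ((DS.TRow.C (lt _ hh)).mono zero_le_one le_rfl)

lemma tw_it {κ : Type} (σ : F →+* F) (m : ℕ) (f : PP κ F) : (tw σ)^[m] f = tw (σ ^ m) f := by
  induction m with
  | zero => simp [tw, RingHom.one_def, mapRingHom_id, MvPolynomial.map_id]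
  | succ m ih =>
    rw [Function.iterate_succ_apply', ih, pow_succ', tw, tw, tw, MvPolynomial.map_map,
      mapRingHom_comp]
    rfl

lemma pw {σ : F →+* F} {q : ℕ} (hσ : ∀ a, σ a = a ^ q) (m : ℕ) (a : F) :
    (σ ^ m) a = a ^ q ^ m := by
  induction m with
  | zero => simp
  | succ m ih => rw [pow_succ', RingHom.coe_mul, Function.comp_apply, ih, hσ, ← pow_mul, pow_succ]

lemma mm (σ : F →+* F) (m : ℕ) (p : F[X]) :
    p.map (σ ^ (m + 1)) = (p.map (σ ^ m)).map σ ∧ (p.map σ).map (σ ^ m) = (p.map (σ ^ m)).map σ := by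
  rw [Polynomial.map_map, Polynomial.map_map]
  exact ⟨by rw [pow_succ']; rfl, congrArg (p.map ·) ((pow_succ σ m).symm.trans (pow_succ' σ m))⟩

end Alg

open Alg in
theorem alg (hP : DS.Pst.PstS) (hT : TwS) : AlgS := by
  intro q n δ s
  obtain ⟨κ, hκ⟩ := ndG hP n δ s
  refine ⟨κ + 1, ?_⟩
  intro k ι τ F _ _ _ _ _ _ _ _ σ θ A G ξ y j h Pi E P a d B Mo hk hn hσ hi hA hE hj hh hD hV b0 hB
    hM hS _ hz
  obtain ⟨p, hp, r, hpp, hr⟩ := FiniteField.card' k
  have : Fact p.Prime := ⟨hpp⟩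
  have : CharP F p := charP_of_injective_algebraMap (algebraMap k F).injective p
  have hs : Function.Surjective σ := fun x => by
    obtain ⟨b, e⟩ := IsAlgClosed.exists_pow_nat_eq x (n := q) (hk ▸ Fintype.card_pos)
    exact ⟨b, by rw [hσ, e]⟩
  have hsa : Function.Surjective (σ ^ a) := by rw [RingHom.coe_pow]; exact hs.iterate a
  set c := θ ^ q ^ E with hc
  have cm : ∀ m, c ^ q ^ m = θ ^ q ^ (E + m) := fun m => by rw [hc, ← pow_mul, ← pow_add]
  have he : ∀ m i, X ^ s * C (ξ (j i) ^ q ^ m) + (((h i).map (σ ^ m)).map σ).map σ =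
      C (A ^ q ^ m) * (X - C (c ^ q ^ m)) * (h i).map (σ ^ m) +
        C (G ^ q ^ m) * ((h i).map (σ ^ m)).map σ := fun m i => by
    have := congrArg (Polynomial.map (σ ^ m)) (hh i).2
    simp only [Polynomial.map_add, Polynomial.map_mul, Polynomial.map_sub, Polynomial.map_pow,
      map_C, map_X, (mm σ m _).2, pw hσ] at this
    rw [mul_comm, this]
  have nz : ∀ m, evp θ (Zv σ s j (fun i => (h i).map (σ ^ m)) θ (vals σ θ y (LL A G c ξ) m))
      ((tw σ)^[m] Pi) ≠ 0 := fun m => by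
    induction m with
    | zero => simpa [vals, RingHom.one_def] using hV
    | succ m ih =>
      obtain ⟨γ, e, hγ, h1⟩ := ((hT F τ q σ A G c m hσ).2.2.2 hs Pi hD).1
      have h2 := congrArg (evp θ (Zv σ s j (fun i => (h i).map (σ ^ m)) θ
        (vals σ θ y (LL A G c ξ) m))) h1
      rw [map_mul, evp_C] at h2
      have h3 : (C γ * (X - C (c ^ q ^ m)) ^ e).eval θ ≠ 0 := by
        simp only [eval_mul, eval_C, eval_pow, eval_sub, eval_X]
        refine mul_ne_zero hγ (pow_ne_zero _ (sub_ne_zero.2 fun e => ?_))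
        have := hi (a₁ := 0) (a₂ := E + m) (by simpa [cm] using e)
        omega
      refine fun e => mul_ne_zero h3 ih (h2.symm.trans ?_)
      rw [Function.iterate_succ_apply'] at e
      rw [show ∀ f, SD σ (A ^ q ^ m) (G ^ q ^ m) (c ^ q ^ m) (0 : τ → F) f =
        MvPolynomial.aeval (LL (A ^ q ^ m) (G ^ q ^ m) (c ^ q ^ m) 0) (tw σ f) from fun _ => rfl,
        DS.evp_aeval, ← e]
      refine congrArg (fun W => evp θ W (tw σ ((tw σ)^[m] Pi))) (funext ?_)
      rintro ⟨i, b⟩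
      have h4 := congrArg (eval θ) (he m i)
      simp only [eval_add, eval_mul, eval_C, eval_pow, eval_sub, eval_X] at h4
      simp only [Zv, vals, (hT F ι q σ A G c m hσ).1, (mm σ m _).1]
      fin_cases b
      · simp [LL, Zv]
      · simp [LL, Zv]
        linear_combination -h4
  obtain ⟨x, hx⟩ := hsa θ
  choose V hV' using fun v => hsa (vals σ θ y (LL A G c ξ) (P + a) v)
  have tr : ∀ {κ : Type} (W : κ → F) (f : PP κ F), evp θ (fun v => (σ ^ a) (W v)) ((tw σ)^[a] f) =
      (σ ^ a) (evp x W f) := fun W f => by rw [tw_it, ← DS.evp_tw, hx]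
  have it : ∀ i z, σ^[i] z = z ^ q ^ i := fun i z => by rw [← RingHom.coe_pow, pw hσ]
  obtain ⟨f, f1, f2⟩ := out (pow_ne_zero _ hA) (hκ ι τ F p σ (A ^ q ^ P) (G ^ q ^ P) (c ^ q ^ P)
    (fun l => ξ l ^ q ^ P) j (fun i => (h i).map (σ ^ P)) ((tw σ)^[P] Pi) d B Mo x V hn
    ⟨σ.injective, hs⟩ (pow_ne_zero _ hA) hj
    (fun i => ⟨natDegree_map_le.trans (natDegree_le_of_degree_le (hh i).1.le), he P i⟩)
    ((hT F τ q σ A G c P hσ).2.2.2 hs Pi hD)
    (fun i e => by
      have := hi (a₁ := E + P + i + a) (a₂ := 0) (by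
        simp only [pow_zero, pow_one]
        conv_rhs => rw [← hx, ← e, it, cm, pw hσ, ← pow_mul, ← pow_mul, ← pow_add, ← pow_add,
          ← add_assoc])
      omega)
    (fun i h0 e => by
      have := hi (a₁ := i) (a₂ := 0) (by
        simp only [pow_zero, pow_one]
        conv_rhs => rw [← hx, ← e, it, pw hσ, ← pow_mul, mul_comm, pow_mul, ← pw hσ a, hx])
      omega)
    (fun e => nz (P + a) (by
      have := tr (Zv σ s j (fun i => (h i).map (σ ^ P)) x V) ((tw σ)^[P] Pi)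
      rw [e, map_zero, ← Function.iterate_add_apply, add_comm a] at this
      rw [← this]
      refine congrArg (fun W => evp θ W ((tw σ)^[P + a] Pi)) (funext fun v => ?_)
      have e1 : ∀ u : F[X], (σ ^ a) (u.eval x) = (u.map (σ ^ a)).eval θ := fun u => by
        rw [← hx, eval_map, eval₂_hom]
      have e2 : ∀ u : F[X], (u.map (σ ^ P)).map (σ ^ a) = u.map (σ ^ (P + a)) := fun u => by
        rw [Polynomial.map_map, add_comm, pow_add]; rfl
      simp only [Zv, map_add, map_mul, map_pow, hx, hV', e1]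
      split_ifs
      · rw [e2]
      · rw [(mm σ a _).2, e2]))
    (fun g hg => (hT F ι q σ A G c P hσ).2.1 ξ g ▸ hS g hg) hM b0 hB.1
    (fun α => natDegree_le_of_degree_le (hB.2 α).le)
    (fun w hw => (map_eq_zero (σ ^ a)).1 (by
      rw [← tr, ← hz w hw, funext hV'])))
  exact ⟨f, ⟨f1.1, fun α => (f1.2 α).trans_le (by
    exact_mod_cast (by nlinarith : κ * (d + 1) + 1 ≤ (κ + 1) * (d + 1)))⟩, f2⟩

end Pool.Agent.CSU.SA.DS
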