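import Pool.Agent.Lib.MP_0c15f2_nt.DS.St
import Pool.Agent.Lib.MP_0370b2_nt.SA.All

/-! Drinfeld modules of rank two: reduction to the normalised case. -/

namespace Pool.Agent.CSU.SA.DS

open Polynomial Finset

namespace All

/-- Two independent families extend to bases of the same size of their common span. -/
theorem exch {E F : Type} [Field E] [AddCommGroup F] [Module E F] {n r : ℕ} {u : Fin n → F}
    {ω : Fin r → F} (hu : LinearIndependent E u) (hω : LinearIndependent E ω) :
    ∃ (m : ℕ) (I : Finset F) (v : Fin m → F) (j : Fin r → Fin m), n + I.card = m ∧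
      (∀ x ∈ I, x ∈ Set.range ω) ∧ LinearIndependent E v ∧ Function.Injective j ∧
      (∀ i, v (j i) = ω i) ∧ ∀ l, v l ∈ Set.range u ∪ Set.range ω ∧
        v l ∈ Submodule.span E (Set.range u ∪ I) := by
  classical
  obtain ⟨b1, h1, h2, h3, h4⟩ := exists_linearIndepOn_id_extension hu.linearIndepOn_id
    (Set.subset_union_left (t := Set.range ω))
  obtain ⟨b2, g1, g2, g3, g4⟩ := exists_linearIndepOn_id_extension hω.linearIndepOn_id
    (Set.subset_union_right (s := Set.range u))
  have hf := (Set.finite_range u).union (Set.finite_range ω)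
  obtain ⟨B1, rfl⟩ := (hf.subset h1).exists_finset_coe
  obtain ⟨B2, rfl⟩ := (hf.subset g1).exists_finset_coe
  have e : Submodule.span E (B1 : Set F) = Submodule.span E B2 :=
    le_antisymm (Submodule.span_le.2 (h1.trans g3)) (Submodule.span_le.2 (g1.trans h3))
  have c : B1.card = B2.card := by
    rw [← finrank_span_finset_eq_card h4, e, finrank_span_finset_eq_card g4]
  refine ⟨B2.card, B1 \ univ.image u, fun l => B2.equivFin.symm l,
    fun i => B2.equivFin ⟨ω i, g2 ⟨i, rfl⟩⟩, ?_, fun x hx => ?_,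
    g4.linearIndependent.comp _ B2.equivFin.symm.injective,
    fun a b h => hω.injective (congrArg Subtype.val (B2.equivFin.injective h)),
    fun i => by simp, fun l => ⟨g1 (B2.equivFin.symm l).2,
      Submodule.span_mono (fun x hx => ?_) (h3 (g1 (B2.equivFin.symm l).2))⟩⟩
  · have := card_sdiff_add_card_eq_card (s := univ.image u) (t := B1) fun x hx =>
      h2 (by simpa using hx)
    rw [card_image_of_injective _ hu.injective, card_fin] at this
    omega
  · exact (h1 (mem_sdiff.1 hx).1).resolve_left fun h => (mem_sdiff.1 hx).2 (by simpa using h)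
  · by_cases h : x ∈ Set.range u
    · exact Or.inl h
    · exact Or.inr (mem_sdiff.2 ⟨hx, by simpa using h⟩)

theorem cover {F : Type} [Zero F] (A : Finset F) {m : ℕ} (h : A.card ≤ m) :
    ∃ w : Fin m → F, ∀ a ∈ A, a ∈ Set.range w := by
  obtain ⟨e⟩ := Function.Embedding.nonempty_of_card_le (α := A) (β := Fin m) (by simpa using h)
  exact ⟨Function.extend e Subtype.val fun _ => 0,
    fun a ha => ⟨e ⟨a, ha⟩, e.injective.extend_apply _ _ _⟩⟩

variable {k F : Type} [Field k] [Field F] [Algebra k F]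

theorem den (O : Subalgebra k F) {c : F} (h : c ∈ Subfield.closure (O : Set F)) :
    ∃ z, z ∈ O ∧ z ≠ 0 ∧ z * c ∈ O := by
  obtain ⟨y, hy, z, hz, rfl⟩ := Subfield.mem_closure_iff.1 h
  have e : Subring.closure (O : Set F) = O.toSubring := Subring.closure_eq O.toSubring
  rw [e] at hy hz
  by_cases h0 : z = 0
  · exact ⟨1, O.one_mem, one_ne_zero, by simp [h0]⟩
  · exact ⟨z, hz, h0, by rwa [mul_div_cancel₀ _ h0]⟩

theorem li (O : Subalgebra k F) {m : ℕ} (u : Fin m → F)
    (h : ∀ β : Fin m → F, (∀ i, β i ∈ O) → ∑ i, β i * u i = 0 → β = 0) :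
    LinearIndependent (Subfield.closure (O : Set F)) u := by
  refine Fintype.linearIndependent_iff.2 fun g hg i => ?_
  choose z h1 h2 h3 using fun i => den O (g i).2
  have := congrFun (h (fun i => (∏ l, z l) * g i) (fun i => by
    rw [← prod_erase_mul _ _ (mem_univ i), mul_assoc]
    exact O.mul_mem (O.prod_mem fun l _ => h1 l) (h3 i)) (by
    simp only [mul_assoc, ← mul_sum]
    exact mul_eq_zero_of_right _ hg)) i
  exact Subtype.ext ((mul_eq_zero.1 this).resolve_left (prod_ne_zero_iff.2 fun l _ => h2 l))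

end All

open All in
theorem all (hL : LatS) (hO : OrdS) (hD : DaS) (hS : SpcS) (hC : C1S) : AllS := by
  intro k F _ _ _ _ _ _ _ D n u hk hg hΔ hal hi
  classical
  by_contra hc
  obtain ⟨w, hw, hT⟩ := all_basis (k := k) (θ := D.θ) (2 * n) (((Set.finite_range u).union
    (Set.finite_range fun i => D.ex (u i))).union (Set.finite_range fun i => D.qs (u i)))
    fun s h1 h2 => hc ⟨s, h1, h2⟩
  have hσ : ∀ y, (FiniteField.frobeniusAlgHom k F).toRingHom y = y ^ D.q := fun y => by
    rw [hk.1]; rfl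
  obtain ⟨r, s, c, ω, Pi, hr, hn, hI, hP, hQ⟩ := hS k F D _ hk hσ
  obtain ⟨O, o1, o2, -⟩ := hO k F D hk
  obtain ⟨m, I, v, j, hm, hI2, hv, hj, hvj, hl⟩ :=
    exch (li O u fun β hβ => hi β fun i => (o1 _).1 (hβ i))
      (li O ω fun β hβ => hI β fun i => (o1 _).1 (hβ i))
  obtain ⟨w', hw'⟩ := cover (univ.image w ∪ I ∪ I.image D.qs) (m := 2 * m) (by
    have h1 := card_union_le (univ.image w ∪ I) (I.image D.qs)
    have h2 := card_union_le (univ.image w) I
    have h3 := card_image_le (s := univ) (f := w)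
    have h4 := card_image_le (s := I) (f := D.qs)
    rw [card_fin] at h3
    omega)
  have sub : Set.range w ⊆ Set.range w' := fun x hx =>
    hw' x (mem_union_left _ (mem_union_left _ (by simpa using hx)))
  have s1 : ({D.θ} : Set F) ⊆ Set.range w' := Set.singleton_subset_iff.2 (sub hw)
  obtain ⟨d1, d2, d3, -⟩ := hD k F D (Set.range w') hk (all_mem (sub hw)) (all_mono s1 hg)
    (all_mono s1 hΔ)
  have hθ := hk.2.1
  have hθ0 : D.θ ≠ 0 := norm_pos_iff.1 (by positivity)
  have hq : D.q ≠ 0 := hk.1 ▸ Fintype.card_ne_zero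
  have dsp : ∀ x ∈ Submodule.span (Subfield.closure (O : Set F)) (Set.range u ∪ I),
      D.DA k (Set.range w') x := fun x hx => by
    induction hx using Submodule.span_induction with
    | mem x hx =>
      rcases hx with ⟨i, rfl⟩ | hx
      · exact ⟨all_mono sub (hT _ (Or.inl (Or.inl ⟨i, rfl⟩))),
          all_mono sub (hT _ (Or.inl (Or.inr ⟨i, rfl⟩))), all_mono sub (hT _ (Or.inr ⟨i, rfl⟩))⟩
      · obtain ⟨i, rfl⟩ := hI2 x hx
        exact ⟨all_mem (hw' _ (mem_union_left _ (mem_union_right _ hx))),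
          by rw [hQ.1 i]; exact isAlgebraic_zero,
          all_mem (hw' _ (mem_union_right _ (mem_image_of_mem _ hx)))⟩
    | zero =>
      refine ⟨isAlgebraic_zero, ?_, ?_⟩
      · simpa [DM.ex, hq] using isAlgebraic_zero
      · simpa [DM.qs, hq] using isAlgebraic_zero
    | add x y _ _ hx hy => exact d1 x y hx hy
    | smul a x _ hx =>
      obtain ⟨z, z1, z2, z3⟩ := den O a.2
      refine d3 z _ ((o1 z).1 z1) z2 ?_
      have := d2 _ x ((o1 _).1 z3) hx
      rwa [mul_assoc] at this
  have hW : D.θ ∈ Kinf k D.θ :=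
    Subfield.le_topologicalClosure _ (Subfield.subset_closure (Or.inr rfl))
  have hK : IsAlgebraic (Kinf k D.θ) D.θ := isAlgebraic_algebraMap (⟨D.θ, hW⟩ : Kinf k D.θ)
  have up : ∀ x : F, IsAlgebraic (Algebra.adjoin k {D.θ}) x → IsAlgebraic (Kinf k D.θ) x := by
    intro x hx
    have h1 : (Algebra.adjoin k {D.θ}).toSubring ≤ (Kinf k D.θ).toSubring := by
      rw [Algebra.adjoin_eq_ring_closure, Subring.closure_le]
      exact fun y hy => Subfield.le_topologicalClosure _ (Subfield.subset_closure hy)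
    exact hx.ringHom_of_comp_eq (Subring.inclusion h1) (RingHom.id F)
      (Subring.inclusion_injective h1) rfl
  have hω := fun i => (hL k F D hk).2.2 (up _ hg) (up _ hΔ) (ω i) (hQ.1 i)
  have h1 : ∀ l, ∃ N, ‖v l‖ ≤ ‖D.θ‖ ^ N ∧ (l ∈ Set.range j → N = s) := fun l => by
    by_cases h : l ∈ Set.range j
    · obtain ⟨i, rfl⟩ := h
      exact ⟨s, hvj i ▸ (hn i).2, fun _ => rfl⟩
    · obtain ⟨N, hN⟩ := Fr.ex_pow hθ (v l)
      exact ⟨_, hN, fun e => absurd e h⟩
  choose N hN using h1
  refine hC k F D _ m r s c (fun l => v l / D.θ ^ N l) w' ω Pi j hk hσ (j ⟨0, hr⟩).pos hg hΔ hQ hP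
    hj (fun i => ?_) (fun β hβ h3 => funext fun l => ?_) (sub hw) fun l => ⟨?_, ?_, ?_⟩
  · rw [(hN _).2 ⟨i, rfl⟩, hvj, norm_div, norm_pow, div_mul_eq_mul_div,
      one_lt_div (by positivity)]
    exact ⟨rfl, (hn i).1⟩
  · have h4 := congrArg Subtype.val (Fintype.linearIndependent_iff.1 hv
      (fun l => ⟨β l / D.θ ^ N l, div_mem (Subfield.subset_closure ((o1 _).2 (hβ l)))
        (Subfield.subset_closure (O.pow_mem o2 _))⟩) (by
          rw [← h3]
          exact sum_congr rfl fun i _ => by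
            change _ / _ * _ = _
            ring) l)
    exact (div_eq_zero_iff.1 h4).resolve_right (pow_ne_zero _ hθ0)
  · rw [norm_div, norm_pow, div_le_one (by positivity)]
    exact (hN l).1
  · rw [div_eq_mul_inv]
    refine IsAlgebraic.mul ?_ (hK.pow _).inv
    rcases (hl l).1 with ⟨i, e⟩ | ⟨i, e⟩
    exacts [e ▸ hal i, e ▸ hω i]
  · refine d3 (D.θ ^ N l) _ ((o1 _).1 (O.pow_mem o2 _)) (pow_ne_zero _ hθ0) ?_
    rw [mul_div_cancel₀ _ (pow_ne_zero _ hθ0)]
    exact dsp _ (hl l).2

end Pool.Agent.CSU.SA.DS
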