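import Pool.Agent.Lib.MP_0c15f2_nt.DS.Lat0

/-! The ring of multipliers of the exponential of a rank two Drinfeld module. -/

namespace Pool.Agent.DS0

open Polynomial Pool.Agent.CSU Filter Topology

section Lin

variable {F : Type} [Field F] {q : ℕ}

/-- The `q`-polynomial with the coefficients of `P`. -/
noncomputable def lin (q : ℕ) (P : F[X]) (x : F) : F := P.sum fun i a => a * x ^ q ^ i

theorem lin_add (P Q : F[X]) (x : F) : lin q (P + Q) x = lin q P x + lin q Q x :=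
  sum_add_index _ _ _ (by simp) fun _ _ _ => add_mul _ _ _

theorem lin_monomial (i : ℕ) (a x : F) : lin q (monomial i a) x = a * x ^ q ^ i :=
  sum_monomial_index _ _ (by simp)

theorem lin_C (a x : F) : lin q (C a) x = a * x := by
  rw [← monomial_zero_left, lin_monomial, pow_zero, pow_one]

theorem lin_pow (h : Fr q F) (m : ℕ) (P : F[X]) (x : F) :
    lin q P x ^ q ^ m = P.sum fun i a => a ^ q ^ m * x ^ q ^ (m + i) := by
  obtain ⟨σ, hσ⟩ := h.exm m
  rw [← hσ, lin, Polynomial.sum, Polynomial.sum, map_sum]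
  refine Finset.sum_congr rfl fun i _ => ?_
  rw [hσ, mul_pow, ← pow_mul, ← pow_add, add_comm]

theorem lin_comp (h : Fr q F) (P Q : F[X]) : ∃ R : F[X], ∀ x, lin q P (lin q Q x) = lin q R x := by
  induction P using Polynomial.induction_on' with
  | add P P' hP hP' =>
    obtain ⟨R, hR⟩ := hP
    obtain ⟨R', hR'⟩ := hP'
    exact ⟨R + R', fun x => by rw [lin_add, lin_add, hR, hR']⟩
  | monomial m c =>
    simp only [lin_monomial]
    induction Q using Polynomial.induction_on' with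
    | add Q Q' hQ hQ' =>
      obtain ⟨R, hR⟩ := hQ
      obtain ⟨R', hR'⟩ := hQ'
      exact ⟨R + R', fun x => by rw [lin_add, lin_add, h.add_pow, mul_add, hR, hR']⟩
    | monomial i a =>
      exact ⟨monomial (i + m) (c * a ^ q ^ m), fun x => by
        rw [lin_monomial, lin_monomial, mul_pow, ← pow_mul, ← pow_add, mul_assoc]⟩

theorem lin_eval (hq : 1 < q) (P : F[X]) :
    ∃ R : F[X], (∀ x, R.eval x = lin q P x) ∧ ∀ i, R.coeff (q ^ i) = P.coeff i := by
  induction P using Polynomial.induction_on' with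
  | add P P' hP hP' =>
    obtain ⟨R, hR, hc⟩ := hP
    obtain ⟨R', hR', hc'⟩ := hP'
    exact ⟨R + R', fun x => by rw [lin_add, eval_add, hR, hR'],
      fun i => by rw [coeff_add, coeff_add, hc, hc']⟩
  | monomial m c =>
    refine ⟨monomial (q ^ m) c, fun x => by rw [lin_monomial, eval_monomial], fun i => ?_⟩
    simp only [coeff_monomial, (Nat.pow_right_injective hq).eq_iff]

/-- A polynomial mapping infinitely many points of a subfield into it has coefficients in it. -/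
theorem coeff_mem (L : Subfield F) (R : F[X]) {S : Set F} (hS : S.Infinite)
    (h : ∀ x ∈ S, x ∈ L ∧ R.eval x ∈ L) (i : ℕ) : R.coeff i ∈ L := by
  classical
  obtain ⟨T, hT, hc⟩ := hS.exists_subset_card_eq (R.natDegree + 1)
  have hd : R.degree < T.card := by
    rw [hc]; exact degree_le_natDegree.trans_lt (by exact_mod_cast Nat.lt_succ_self _)
  have hm : R ∈ lifts L.subtype := by
    rw [Lagrange.eq_interpolate (v := id) (Set.injOn_id _) hd, Lagrange.interpolate_apply]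
    have hC : ∀ x ∈ L, C x ∈ lifts L.subtype := fun x hx => C_mem_lifts L.subtype ⟨x, hx⟩
    refine sum_mem fun x hx => mul_mem (hC _ (h x (hT hx)).2) (prod_mem fun y hy => ?_)
    have hy' := (h y (hT (Finset.mem_of_mem_erase hy))).1
    refine mul_mem (hC _ (inv_mem (sub_mem (h x (hT hx)).1 hy'))) ?_
    rw [sub_eq_add_neg, ← C_neg]
    exact add_mem (X_mem_lifts _) (hC _ (neg_mem hy'))
  obtain ⟨y, hy⟩ := (lifts_iff_coeff_lifts _).1 hm i
  exact hy ▸ y.2

end Lin

variable {k F : Type} [Field k] [Fintype k] [NormedField F] [Algebra k F]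

namespace ExH

variable {θ g Δ : F} {ex : F → F} (h : ExH k θ g Δ ex)

/-- The ring of multipliers. -/
def O : Subalgebra k F where
  carrier := {b | ∃ P : F[X], ∀ z, ex (b * z) = lin (Fintype.card k) P (ex z)}
  add_mem' := fun ⟨P, hP⟩ ⟨Q, hQ⟩ => ⟨P + Q, fun z => by rw [add_mul, h.add, hP, hQ, lin_add]⟩
  mul_mem' := fun ⟨P, hP⟩ ⟨Q, hQ⟩ => by
    obtain ⟨R, hR⟩ := lin_comp (fr k F) P Q
    exact ⟨R, fun z => by rw [mul_assoc, hP, hQ, hR]⟩
  algebraMap_mem' c := ⟨C (algebraMap k F c), fun z => by rw [h.smul, lin_C]⟩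

theorem mem_O {b : F} :
    b ∈ h.O ↔ ∃ P : F[X], ∀ z, ex (b * z) = lin (Fintype.card k) P (ex z) := Iff.rfl

theorem θ_mem : θ ∈ h.O :=
  ⟨C θ + monomial 1 g + monomial 2 Δ, fun z => by
    rw [lin_add, lin_add, lin_C, lin_monomial, lin_monomial, pow_one, h.fe]⟩

theorem aev_mem (a : k[X]) : aeval θ a ∈ h.O := by
  have : Algebra.adjoin k {θ} ≤ h.O := Algebra.adjoin_le (by simpa using h.θ_mem)
  exact this (aeval_mem_adjoin_singleton k θ)

theorem O_ker {b z : F} (hb : b ∈ h.O) (hz : ex z = 0) : ex (b * z) = 0 := by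
  obtain ⟨P, hP⟩ := hb
  rw [hP, hz, lin, Polynomial.sum]
  simp

include h in
/-- A multiplier is an endomorphism: its `q`-polynomial commutes with `ρ`. -/
theorem comm {b : F} {P : F[X]} (hP : ∀ z, ex (b * z) = lin (Fintype.card k) P (ex z)) (x : F) :
    lin (Fintype.card k) P (θ * x + g * x ^ Fintype.card k + Δ * x ^ Fintype.card k ^ 2) =
      θ * lin (Fintype.card k) P x + g * lin (Fintype.card k) P x ^ Fintype.card k +
        Δ * lin (Fintype.card k) P x ^ Fintype.card k ^ 2 := by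
  obtain ⟨z, rfl⟩ := h.onto x
  rw [← h.fe, ← hP, ← hP, ← h.fe, mul_left_comm]

include h in
/-- The linear coefficient is the multiplier. -/
theorem coeff_zero (near : ∀ z, ‖z‖ ≤ 1 → ‖ex z - z‖ ≤ ‖z‖ ^ 2) {b : F} {P : F[X]}
    (hP : ∀ z, ex (b * z) = lin (Fintype.card k) P (ex z)) : P.coeff 0 = b := by
  let _ : NontriviallyNormedField F := ⟨θ, h.hθ⟩
  have hd : HasDerivAt ex 1 0 := by
    rw [hasDerivAt_iff_isLittleO_nhds_zero]
    refine Asymptotics.IsBigO.trans_isLittleO (g := fun z : F => z ^ 2) ?_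
      (Asymptotics.isLittleO_pow_id one_lt_two)
    refine Asymptotics.IsBigO.of_bound 1 ?_
    filter_upwards [Metric.closedBall_mem_nhds (0 : F) one_pos] with z hz
    simpa [h.zero] using near z (by simpa using hz)
  obtain ⟨R, hR, hc⟩ := lin_eval (Fintype.one_lt_card (α := k)) P
  have h1 : HasDerivAt (fun z => ex (b * z)) (1 * b) 0 := by
    refine HasDerivAt.comp (0 : F) (h₂ := ex) (by simpa using hd) ?_
    simpa using (hasDerivAt_id (0 : F)).const_mul b
  have h2 : HasDerivAt (fun z => R.eval (ex z)) (R.derivative.eval (ex 0) * 1) 0 :=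
    (R.hasDerivAt _).comp (0 : F) hd
  simp only [hR, ← hP] at h2
  have := h1.unique h2
  rw [h.zero, ← coeff_zero_eq_eval_zero, coeff_derivative] at this
  rw [← hc 0]
  simpa using this.symm

include h in
/-- Torsion points lie in every relatively algebraically closed subfield containing the data. -/
theorem tors_mem (L : Subfield F) (hL : ∀ x, IsAlgebraic L x → x ∈ L) (hθ : θ ∈ L) (hg : g ∈ L)
    (hΔ : Δ ∈ L) {z : F} (hz : ex z ∈ L) (s : ℕ) : ex (z / θ ^ s) ∈ L := by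
  induction s with
  | zero => simpa using hz
  | succ s ih =>
    have hq := Fintype.one_lt_card (α := k)
    refine hL _ ⟨C ⟨θ, hθ⟩ * X + C ⟨g, hg⟩ * X ^ Fintype.card k +
      C ⟨Δ, hΔ⟩ * X ^ Fintype.card k ^ 2 - C ⟨_, ih⟩, fun h0 => ?_, ?_⟩
    · have := congrArg (coeff · 1) h0
      have h1 : 1 ≠ Fintype.card k := hq.ne
      have h2 : 1 ≠ Fintype.card k ^ 2 := by nlinarith
      simp [coeff_X_pow, coeff_C, h1, h2] at this
      exact h.θ0 (congrArg Subtype.val this)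
    · have e : z / θ ^ s = θ * (z / θ ^ (s + 1)) := by have := h.θ0; field_simp; ring
      simp only [map_sub, map_add, map_mul, map_pow, aeval_C, aeval_X, sub_eq_zero]
      exact (h.fe _).symm.trans (congrArg ex e.symm)

include h in
/-- The coefficients of an endomorphism are algebraic. -/
theorem psi_mem [IsAlgClosed F] (L : Subfield F) (hL : ∀ x, IsAlgebraic L x → x ∈ L) (hθ : θ ∈ L)
    (hg : g ∈ L) (hΔ : Δ ∈ L) {b : F} {P : F[X]}
    (hP : ∀ z, ex (b * z) = lin (Fintype.card k) P (ex z)) (i : ℕ) : P.coeff i ∈ L := by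
  obtain ⟨w, hw, hw'⟩ := h.exists_out h.zero
  have hw0 : w ≠ 0 := by simpa using hw' 0
  obtain ⟨R, hR, hc⟩ := lin_eval (Fintype.one_lt_card (α := k)) P
  obtain ⟨s, hs⟩ := pow_unbounded_of_one_lt ‖w‖ h.hθ
  have tp : 0 < ‖θ‖ := one_pos.trans h.hθ
  have hn : ∀ n, ‖ex (w / θ ^ (n + s))‖ = ‖w‖ / ‖θ‖ ^ (n + s) := fun n => by
    rw [h.iso, norm_div, norm_pow]
    rw [norm_div, norm_pow]
    exact (div_le_one_of_le₀ (hs.le.trans (pow_le_pow_right₀ h.hθ.le (by omega)))
      (pow_pos tp _).le).trans h.hθ.le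
  rw [← hc]
  refine coeff_mem L R (Set.infinite_range_of_injective
    (f := fun n => ex (w / θ ^ (n + s))) fun n m hnm => ?_) ?_ _
  · have := congrArg norm hnm
    simp only [hn] at this
    rw [div_eq_div_iff (pow_pos tp _).ne' (pow_pos tp _).ne',
      mul_right_inj' (norm_ne_zero_iff.2 hw0)] at this
    have := pow_right_injective₀ tp h.hθ.ne' this
    omega
  · rintro _ ⟨n, rfl⟩
    refine ⟨h.tors_mem L hL hθ hg hΔ (hw ▸ L.zero_mem) _, ?_⟩
    rw [hR, ← hP, ← mul_div_assoc]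
    exact h.tors_mem L hL hθ hg hΔ (h.O_ker ⟨P, hP⟩ hw ▸ L.zero_mem) _

/-- The generating sums of `b z` in terms of those of `z`. -/
theorem hasSum_mul {b : F} {P : F[X]} (hP : ∀ z, ex (b * z) = lin (Fintype.card k) P (ex z))
    (c z : ℕ → F) (m : ℕ) (y : ℕ → F)
    (hy : ∀ j, HasSum (fun i => c i * ex (z i) ^ Fintype.card k ^ (m + j)) (y j)) :
    HasSum (fun i => c i * ex (b * z i) ^ Fintype.card k ^ m)
      (P.sum fun j a => a ^ Fintype.card k ^ m * y j) := by
  simp only [hP, lin_pow (fr k F), Polynomial.sum, Finset.mul_sum]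
  refine hasSum_sum fun j _ => ?_
  simpa only [mul_left_comm] using (hy j).mul_left (P.coeff j ^ Fintype.card k ^ m)

variable [IsUltrametricDist F] {om1 om2 : F}
  (hk : ∀ z, ex z = 0 ↔ ∃ a1 a2 : k[X], z = aeval θ a1 * om1 + aeval θ a2 * om2)
  (hn : ∀ a1 a2 : k[X], ‖aeval θ a1 * om1 + aeval θ a2 * om2‖ =
    max ‖aeval θ a1 * om1‖ ‖aeval θ a2 * om2‖) (h1 : om1 ≠ 0)

omit [IsUltrametricDist F] in
include hk hn h1 in
theorem ostr : ∃ α ∈ h.O, ∃ b2 : k[X], α * om1 = aeval θ b2 * om2 ∧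
    (∀ b ∈ h.O, ∃ a1 a2 : k[X], b = aeval θ a1 + aeval θ a2 * α) ∧
    ∀ a1 a2 : k[X], ‖aeval θ a1 + aeval θ a2 * α‖ = max ‖aeval θ a1‖ ‖aeval θ a2 * α‖ := by
  let I : Ideal k[X] :=
    { carrier := {a | ∃ b ∈ h.O, b * om1 = aeval θ a * om2}
      add_mem' := fun ⟨b, hb, e⟩ ⟨b', hb', e'⟩ =>
        ⟨b + b', add_mem hb hb', by rw [map_add, add_mul, add_mul, e, e']⟩
      zero_mem' := ⟨0, zero_mem _, by simp⟩
      smul_mem' := fun c a ⟨b, hb, e⟩ => ⟨aeval θ c * b, mul_mem (h.aev_mem c) hb, by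
        rw [smul_eq_mul, map_mul, mul_assoc, mul_assoc, e]⟩ }
  obtain ⟨b2, hb2⟩ := (IsPrincipalIdealRing.principal I).principal
  obtain ⟨α, hα, e⟩ : b2 ∈ I := hb2 ▸ Ideal.mem_span_singleton_self b2
  refine ⟨α, hα, b2, e, fun b hb => ?_, fun a1 a2 => ?_⟩
  · obtain ⟨a1, a2, ha⟩ := (hk _).1 (h.O_ker hb ((hk om1).2 ⟨1, 0, by simp⟩))
    have : a2 ∈ I := ⟨b - aeval θ a1, sub_mem hb (h.aev_mem _), by linear_combination ha⟩
    rw [hb2] at this
    obtain ⟨c, rfl⟩ := Ideal.mem_span_singleton'.1 this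
    refine ⟨a1, c, mul_right_cancel₀ h1 ?_⟩
    rw [map_mul] at ha
    linear_combination ha - aeval θ c * e
  · have := hn a1 (a2 * b2)
    rw [map_mul, mul_assoc, ← e, ← mul_assoc, ← add_mul, norm_mul, norm_mul, norm_mul _ om1,
      ← max_mul_of_nonneg _ _ (norm_nonneg _)] at this
    exact mul_right_cancel₀ (norm_ne_zero_iff.2 h1) this

theorem one_le [IsAlgClosed F] {b : F} (hb : b ∈ h.O) (h0 : b ≠ 0) : 1 ≤ ‖b‖ := by
  obtain ⟨w, hw, hw'⟩ := h.exists_out h.zero
  obtain ⟨m, ⟨em, nm⟩, mm⟩ := h.exists_min (· ≠ 0) hw (by simpa using hw' 0)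
  have := mm _ (h.O_ker hb em) (mul_ne_zero h0 nm)
  rwa [norm_mul, le_mul_iff_one_le_left (norm_pos_iff.2 nm)] at this

/-- Every non-zero multiplier divides a non-zero element of `A`. -/
theorem dvd_aev [IsAlgClosed F] {b : F} (hb : b ∈ h.O) (h0 : b ≠ 0) :
    ∃ b' ∈ h.O, ∃ a : k[X], a ≠ 0 ∧ b * b' = aeval θ a := by
  obtain ⟨om1, om2, hk, hn, -, h1, -⟩ := h.lat0
  obtain ⟨α, hα, b2, -, hO, hm⟩ := h.ostr hk hn
    (norm_pos_iff.1 ((one_pos.trans h.hθ).trans h1))
  obtain ⟨a1, a2, rfl⟩ := hO b hb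
  obtain ⟨c1, c2, hc⟩ := hO _ (mul_mem hα hα)
  by_cases ha : aeval θ a2 * α = 0
  · rw [ha, add_zero] at h0
    exact ⟨1, one_mem _, a1, fun e => h0 (by simp [e]), by rw [ha, add_zero, mul_one]⟩
  have hb' : aeval θ (a1 + a2 * c2) + aeval θ (-a2) * α ≠ 0 := fun e => by
    have := (le_max_right _ _).trans_eq (hm (a1 + a2 * c2) (-a2)).symm
    rw [e, norm_zero, norm_le_zero_iff, map_neg, neg_mul, neg_eq_zero] at this
    exact ha this
  have e : (aeval θ a1 + aeval θ a2 * α) * (aeval θ (a1 + a2 * c2) + aeval θ (-a2) * α) =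
      aeval θ (a1 * a1 + a1 * a2 * c2 - a2 * a2 * c1) := by
    simp only [map_add, map_mul, map_neg, map_sub]
    linear_combination (-(aeval θ a2) ^ 2) * hc
  exact ⟨_, add_mem (h.aev_mem _) (mul_mem (h.aev_mem _) hα), _,
    fun e0 => mul_ne_zero h0 hb' (by rw [e, e0, map_zero]), e⟩

end ExH

end Pool.Agent.DS0
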