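import Pool.Agent.Lib.MP_0c15f2_nt.DS.Defs
import Pool.Agent.Lib.MP_0c15f2_nt.DS.O0

/-! Analysis of the exponential of a normalised Drinfeld module of rank two. -/

namespace Pool.Agent.CSU.SA.DS

open Polynomial Finset Filter Topology Pool.Agent.DS0

variable {k F : Type} [Field k] [Fintype k] [NormedField F] [Algebra k F] {D : DM F}

/-- The twisted terms of the exponential series. -/
noncomputable def DM.dT (D : DM F) (u : F) (m i : ℕ) : F := D.al i ^ D.q ^ m * u ^ D.q ^ (i + m)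

theorem DM.dT_eq (D : DM F) (u : F) (m i : ℕ) :
    D.dT u m i = (D.al i * u ^ D.q ^ i) ^ D.q ^ m := by
  rw [DM.dT, mul_pow, ← pow_mul, ← pow_add]

theorem DM.dT_mul (D : DM F) (c u : F) (m i : ℕ) :
    D.dT (c * u) m i = c ^ D.q ^ (i + m) * D.dT u m i := by
  rw [DM.dT, DM.dT, mul_pow, mul_left_comm]

theorem small_root [IsUltrametricDist F] [IsAlgClosed F] (P : F[X]) {t : ℝ} (ht : 0 ≤ t)
    (h0 : P ≠ 0) (h : ‖P.coeff 0‖ ≤ ‖P.coeff 1‖ * t) : ∃ r, P.eval r = 0 ∧ ‖r‖ ≤ t := by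
  by_contra hc
  push Not at hc
  have key : ∀ s : Multiset F, (∀ r ∈ s, t < ‖r‖) →
      ‖(s.map fun a => X - C a).prod.coeff 1‖ * t < ‖(s.map fun a => X - C a).prod.coeff 0‖ := by
    intro s
    induction s using Multiset.induction_on with
    | empty => simp [coeff_one]
    | cons a s ih =>
      intro hs
      have i1 := ih fun r hr => hs r (Multiset.mem_cons_of_mem hr)
      have ha := hs a (Multiset.mem_cons_self _ _)
      rw [Multiset.map_cons, Multiset.prod_cons]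
      generalize (s.map fun a => X - C a).prod = Q at i1
      have hQ : 0 < ‖Q.coeff 0‖ := (mul_nonneg (norm_nonneg _) ht).trans_lt i1
      rw [sub_mul, coeff_sub, coeff_sub, coeff_X_mul, coeff_C_mul, coeff_C_mul, coeff_X_mul_zero,
        zero_sub, norm_neg, norm_mul, sub_eq_add_neg]
      refine (mul_le_mul_of_nonneg_right (IsUltrametricDist.norm_add_le_max _ _) ht).trans_lt ?_
      rw [max_mul_of_nonneg _ _ ht, norm_neg, norm_mul, mul_assoc]
      exact max_lt (by nlinarith) (mul_lt_mul_of_pos_left i1 (ht.trans_lt ha))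
  have := key P.roots fun r hr => hc r ((mem_roots h0).1 hr)
  rw [(IsAlgClosed.splits P).eq_prod_roots, coeff_C_mul, coeff_C_mul, norm_mul, norm_mul,
    mul_assoc] at h
  exact absurd (le_of_mul_le_mul_left h (norm_pos_iff.2 (leadingCoeff_ne_zero.2 h0)))
    (not_le.2 this)

/-- `Ok` without the condition on the rank. -/
def DM.Ok0 (D : DM F) (k : Type) [Fintype k] : Prop :=
  D.q = Fintype.card k ∧ 1 < ‖D.θ‖ ∧ ‖D.g‖ ≤ 1 ∧ ‖D.Δ‖ ≤ 1

omit [Field k] [Algebra k F] in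
theorem DM.Ok.w (h : D.Ok k) : D.Ok0 k := ⟨h.1, h.2.1, h.2.2.1, h.2.2.2.1⟩

namespace DM.Ok0

variable (h : D.Ok0 k)
include h

theorem fr : Fr D.q F := h.1 ▸ CSU.fr k F

omit [Field k] [Algebra k F] in
theorem θpos : 0 < ‖D.θ‖ := one_pos.trans h.2.1

omit [Field k] [Algebra k F] in
theorem θ0 : D.θ ≠ 0 := norm_pos_iff.1 h.θpos

theorem dT_add (u v : F) (m i : ℕ) : D.dT (u + v) m i = D.dT u m i + D.dT v m i := by
  rw [DM.dT, DM.dT, DM.dT, h.fr.add_pow, mul_add]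

theorem fix (c : k) (m : ℕ) : algebraMap k F c ^ D.q ^ m = algebraMap k F c :=
  Fr.fix_pow (h.1 ▸ fix_k c) m

variable [IsUltrametricDist F]

theorem sub1 (i : ℕ) : ‖D.θ ^ D.q ^ (i + 1) - D.θ‖ = ‖D.θ‖ ^ D.q ^ (i + 1) := by
  simpa using h.fr.norm_sub h.2.1 (Nat.succ_pos i)

theorem sub1_ne (i : ℕ) : D.θ ^ D.q ^ (i + 1) - D.θ ≠ 0 :=
  norm_pos_iff.1 (by rw [h.sub1]; exact pow_pos h.θpos _)

theorem norm_al (i : ℕ) : ‖D.al i‖ ≤ ‖D.θ‖⁻¹ ^ ((i + 1) / 2 * D.q ^ i) := by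
  have r0 : 0 ≤ ‖D.θ‖⁻¹ := inv_nonneg.2 (norm_nonneg _)
  have r1 : ‖D.θ‖⁻¹ ≤ 1 := inv_le_one_of_one_le₀ h.2.1.le
  induction i using Nat.twoStepInduction with
  | zero => simp [DM.al]
  | one =>
    have := h.sub1 0
    rw [zero_add, pow_one] at this
    rw [DM.al, norm_div, this, div_eq_mul_inv, ← inv_pow]
    simpa using mul_le_of_le_one_left (pow_nonneg r0 _) h.2.2.1
  | more i h0 h1 =>
    rw [DM.al, norm_div, h.sub1 (i + 1), div_eq_mul_inv, ← inv_pow,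
      show (i + 2 + 1) / 2 = (i + 1) / 2 + 1 by omega, add_mul, one_mul, pow_add ‖D.θ‖⁻¹]
    refine mul_le_mul_of_nonneg_right ?_ (pow_nonneg r0 _)
    refine (IsUltrametricDist.norm_add_le_max _ _).trans (max_le ?_ ?_)
    · rw [norm_mul, norm_pow]
      refine (mul_le_of_le_one_left (by positivity) h.2.2.1).trans
        ((pow_le_pow_left₀ (norm_nonneg _) h1 _).trans ?_)
      rw [← pow_mul, mul_assoc, ← pow_succ]
      exact pow_le_pow_of_le_one r0 r1 (Nat.mul_le_mul_right _ (by omega))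
    · rw [norm_mul, norm_pow]
      refine (mul_le_of_le_one_left (by positivity) h.2.2.2).trans
        ((pow_le_pow_left₀ (norm_nonneg _) h0 _).trans ?_)
      rw [← pow_mul, mul_assoc, ← pow_add]

theorem norm_dT (u : F) (m i : ℕ) :
    ‖D.dT u m i‖ ≤ (‖u‖ * ‖D.θ‖⁻¹ ^ ((i + 1) / 2)) ^ D.q ^ (i + m) := by
  rw [DM.dT, norm_mul, norm_pow, norm_pow, mul_pow, mul_comm]
  refine mul_le_mul_of_nonneg_left ((pow_le_pow_left₀ (norm_nonneg _) (h.norm_al i) _).trans_eq ?_)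
    (by positivity)
  rw [← pow_mul, ← pow_mul, mul_assoc, ← pow_add]

/-- The recursion of the coefficients, twisted. -/
theorem dT_one (u : F) (m : ℕ) : (D.θ ^ D.q ^ (1 + m) - D.θ ^ D.q ^ m) * D.dT u m 1 =
    D.g ^ D.q ^ m * D.dT u (m + 1) 0 := by
  have e : (D.θ ^ D.q ^ 1 - D.θ) * D.al 1 = D.g := by
    have := h.sub1_ne 0
    rw [zero_add] at this
    rw [DM.al, pow_one] at *
    field_simp
  have := congrArg (· ^ D.q ^ m) e
  simp only [mul_pow, h.fr.sub_pow, ← pow_mul, ← pow_add] at this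
  rw [DM.dT, DM.dT, ← mul_assoc, this, DM.al, one_pow, one_mul, zero_add, add_comm]

theorem dT_two (u : F) (m i : ℕ) :
    (D.θ ^ D.q ^ (i + 2 + m) - D.θ ^ D.q ^ m) * D.dT u m (i + 2) =
      D.g ^ D.q ^ m * D.dT u (m + 1) (i + 1) + D.Δ ^ D.q ^ m * D.dT u (m + 2) i := by
  have e : (D.θ ^ D.q ^ (i + 2) - D.θ) * D.al (i + 2) =
      D.g * D.al (i + 1) ^ D.q ^ 1 + D.Δ * D.al i ^ D.q ^ 2 := by
    have := h.sub1_ne (i + 1)
    rw [DM.al, pow_one]
    field_simp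
  have := congrArg (· ^ D.q ^ m) e
  simp only [mul_pow, h.fr.sub_pow, h.fr.add_pow, ← pow_mul, ← pow_add] at this
  rw [DM.dT, DM.dT, DM.dT, ← mul_assoc, this, show i + 1 + (m + 1) = i + 2 + m by ring,
    show i + (m + 2) = i + 2 + m by ring, add_comm 1 m, add_comm 2 m]
  ring

/-- The recursion summed against weights. -/
theorem rec_sum (u : F) (m : ℕ) (b : ℕ → F) {A B : F}
    (hA : HasSum (fun i => D.dT u (m + 1) i / b (i + 1)) A)
    (hB : HasSum (fun i => D.dT u (m + 2) i / b (i + 2)) B) :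
    HasSum (fun i => (D.θ ^ D.q ^ (i + m) - D.θ ^ D.q ^ m) * D.dT u m i / b i)
      (D.g ^ D.q ^ m * A + D.Δ ^ D.q ^ m * B) := by
  rw [← hasSum_nat_add_iff' 2]
  have := (((hasSum_nat_add_iff' 1).2 hA).mul_left (D.g ^ D.q ^ m)).add
    (hB.mul_left (D.Δ ^ D.q ^ m))
  simp only [h.dT_two, sum_range_succ, sum_range_zero, h.dT_one, zero_add, sub_self, zero_mul,
    zero_div] at this ⊢
  refine (congrArg₂ (fun f a => HasSum f a) (funext fun i => ?_) ?_).mpr this <;> ring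

theorem norm_dT_le {u : F} (hu : ‖u‖ ≤ 1) (m i : ℕ) : ‖D.dT u m i‖ ≤ ‖u‖ ^ D.q ^ m := by
  refine (h.norm_dT u m i).trans ((pow_le_pow_left₀ (by positivity) (mul_le_of_le_one_right
    (norm_nonneg _) (pow_le_one₀ (by positivity) (inv_le_one_of_one_le₀ h.2.1.le))) _).trans ?_)
  exact pow_le_pow_of_le_one (norm_nonneg _) hu
    (Nat.pow_le_pow_right h.fr.lt.le (Nat.le_add_left _ _))

theorem norm_ph_le {u : F} (hu : ‖u‖ ≤ 1) (l : ℕ) {m j : ℕ} (hj : j < m) :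
    ‖D.ph u l m j‖ ≤ ‖u‖ ^ D.q ^ m := by
  refine IsUltrametricDist.norm_tsum_le_of_forall_le_of_nonneg (by positivity) fun i => ?_
  rw [norm_div, norm_pow]
  exact (div_le_self (norm_nonneg _) (one_le_pow₀ (h.fr.one_le_sub h.2.1 (by omega)))).trans
    (h.norm_dT_le hu m i)

variable [CompleteSpace F]

theorem summ (u : F) (m : ℕ) (b : ℕ → F) (hb : ∀ i, 1 ≤ ‖b i‖) :
    Summable fun i => D.dT u m i / b i := by
  refine NonarchimedeanAddGroup.summable_of_tendsto_cofinite_zero ?_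
  rw [Nat.cofinite_eq_atTop]
  have h0 : Tendsto (fun i : ℕ => ‖u‖ * ‖D.θ‖⁻¹ ^ ((i + 1) / 2)) atTop (𝓝 0) := by
    have := ((tendsto_pow_atTop_nhds_zero_of_lt_one (by positivity)
      (inv_lt_one_of_one_lt₀ h.2.1)).comp (((Nat.tendsto_div_const_atTop two_ne_zero)).comp
        (tendsto_add_atTop_nat 1))).const_mul ‖u‖
    simpa [Function.comp_def] using this
  refine squeeze_zero_norm' ?_ h0
  filter_upwards [h0.eventually_le_const one_pos] with i hi
  rw [norm_div]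
  refine (div_le_self (norm_nonneg _) (hb i)).trans ((h.norm_dT u m i).trans ?_)
  exact pow_le_of_le_one (by positivity) hi (pow_pos (one_pos.trans h.fr.lt) _).ne'

theorem hs_ex (u : F) (m : ℕ) : HasSum (D.dT u m) (D.ex u ^ D.q ^ m) := by
  have h1 : Summable fun i => D.al i * u ^ D.q ^ i := by
    simpa [DM.dT] using h.summ u 0 (fun _ => 1) (by simp)
  exact (funext (D.dT_eq u m) : D.dT u m = _) ▸ h.fr.hasSum_pow m h1.hasSum

theorem hs_ex0 (u : F) : HasSum (D.dT u 0) (D.ex u) := by simpa using h.hs_ex u 0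

theorem hs_ph (u : F) (l : ℕ) {m j : ℕ} (hj : j < m) :
    HasSum (fun i => D.dT u m i / (D.θ ^ D.q ^ (i + m) - D.θ ^ D.q ^ j) ^ (l + 1))
      (D.ph u l m j) :=
  (h.summ u m _ fun i => by
    rw [norm_pow]; exact one_le_pow₀ (h.fr.one_le_sub h.2.1 (by omega))).hasSum

theorem ex_add (u v : F) : D.ex (u + v) = D.ex u + D.ex v :=
  Fr.uniq (h.hs_ex0 _) ((h.hs_ex0 u).add (h.hs_ex0 v)) fun _ => h.dT_add ..

theorem ex_smul (c : k) (u : F) : D.ex (algebraMap k F c * u) = algebraMap k F c * D.ex u :=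
  Fr.uniq (h.hs_ex0 _) ((h.hs_ex0 u).mul_left _) fun i => by rw [DM.dT_mul, h.fix]

theorem ex_th (u : F) : D.ex (D.θ * u) = rh D.q D.θ D.g D.Δ (D.ex u) := by
  have h1 := h.rec_sum u 0 (fun _ => 1) (by simpa using h.hs_ex u 1) (by simpa using h.hs_ex u 2)
  have h2 := Fr.uniq ((h.hs_ex0 (D.θ * u)).sub ((h.hs_ex0 u).mul_left D.θ)) h1 fun i => by
    rw [DM.dT_mul]; simp only [pow_zero, pow_one]; ring
  simp only [pow_zero, pow_one] at h2
  rw [rh]; linear_combination h2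

theorem ph_add (u v : F) (l : ℕ) {m j : ℕ} (hj : j < m) :
    D.ph (u + v) l m j = D.ph u l m j + D.ph v l m j :=
  Fr.uniq (h.hs_ph _ l hj) ((h.hs_ph u l hj).add (h.hs_ph v l hj)) fun _ => by
    rw [h.dT_add, add_div]

theorem ph_smul (c : k) (u : F) (l : ℕ) {m j : ℕ} (hj : j < m) :
    D.ph (algebraMap k F c * u) l m j = algebraMap k F c * D.ph u l m j :=
  Fr.uniq (h.hs_ph _ l hj) ((h.hs_ph u l hj).mul_left _) fun i => by
    rw [DM.dT_mul, h.fix, mul_div_assoc]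

theorem ph_th (u : F) {m j : ℕ} (hj : j < m) :
    D.ph (D.θ * u) 0 m j = D.ex u ^ D.q ^ m + D.θ ^ D.q ^ j * D.ph u 0 m j := by
  refine Fr.uniq (h.hs_ph _ 0 hj) ((h.hs_ex u m).add ((h.hs_ph u 0 hj).mul_left _)) fun i => ?_
  have := h.fr.sub_ne h.2.1 (show j < i + m by omega)
  rw [DM.dT_mul]; field_simp; ring

theorem ph_th' (u : F) (l : ℕ) {m j : ℕ} (hj : j < m) :
    D.ph (D.θ * u) (l + 1) m j = D.ph u l m j + D.θ ^ D.q ^ j * D.ph u (l + 1) m j := by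
  refine Fr.uniq (h.hs_ph _ _ hj) ((h.hs_ph u l hj).add ((h.hs_ph u _ hj).mul_left _)) fun i => ?_
  have := h.fr.sub_ne h.2.1 (show j < i + m by omega)
  rw [DM.dT_mul]; field_simp; ring

theorem rec_ph (u : F) (l : ℕ) {m j : ℕ} (hj : j < m + 1) :
    HasSum (fun i => (D.θ ^ D.q ^ (i + m) - D.θ ^ D.q ^ m) * D.dT u m i /
        (D.θ ^ D.q ^ (i + m) - D.θ ^ D.q ^ j) ^ (l + 1))
      (D.g ^ D.q ^ m * D.ph u l (m + 1) j + D.Δ ^ D.q ^ m * D.ph u l (m + 2) j) := by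
  refine h.rec_sum u m (fun i => (D.θ ^ D.q ^ (i + m) - D.θ ^ D.q ^ j) ^ (l + 1)) ?_ ?_
  · simpa only [add_assoc, add_comm 1 m] using h.hs_ph u l hj
  · simpa only [add_assoc, add_comm 2 m] using h.hs_ph u l (show j < m + 2 by omega)

/-- The difference equation, order zero. -/
theorem ph_rec (u : F) {m j : ℕ} (hj : j < m) :
    D.g ^ D.q ^ m * D.ph u 0 (m + 1) j + D.Δ ^ D.q ^ m * D.ph u 0 (m + 2) j =
      D.ex u ^ D.q ^ m + (D.θ ^ D.q ^ j - D.θ ^ D.q ^ m) * D.ph u 0 m j := by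
  refine Fr.uniq (h.rec_ph u 0 (by omega)) ((h.hs_ex u m).add ((h.hs_ph u 0 hj).mul_left _))
    fun i => ?_
  have := h.fr.sub_ne h.2.1 (show j < i + m by omega)
  field_simp; ring

/-- The difference equation, higher orders. -/
theorem ph_rec' (u : F) (l : ℕ) {m j : ℕ} (hj : j < m) :
    D.g ^ D.q ^ m * D.ph u (l + 1) (m + 1) j + D.Δ ^ D.q ^ m * D.ph u (l + 1) (m + 2) j =
      D.ph u l m j + (D.θ ^ D.q ^ j - D.θ ^ D.q ^ m) * D.ph u (l + 1) m j := by
  refine Fr.uniq (h.rec_ph u _ (by omega)) ((h.hs_ph u l hj).add ((h.hs_ph u _ hj).mul_left _))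
    fun i => ?_
  have := h.fr.sub_ne h.2.1 (show j < i + m by omega)
  field_simp; ring

/-- The difference equation at the pole. -/
theorem ph_pole (u : F) (m : ℕ) :
    D.g ^ D.q ^ m * D.ph u 0 (m + 1) m + D.Δ ^ D.q ^ m * D.ph u 0 (m + 2) m =
      D.ex u ^ D.q ^ m - u ^ D.q ^ m := by
  have h1 := (hasSum_nat_add_iff' 1).2 (h.rec_ph u 0 (Nat.lt_succ_self m))
  have h2 := (hasSum_nat_add_iff' 1).2 (h.hs_ex u m)
  have := Fr.uniq h1 h2 fun i => by
    have := h.fr.sub_ne h.2.1 (show m < i + 1 + m by omega)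
    rw [zero_add, pow_one, mul_div_cancel_left₀ _ this]
  simpa [DM.dT, DM.al] using this

omit h [IsUltrametricDist F] [CompleteSpace F] in
theorem _root_.Pool.Agent.CSU.SA.DS.DM.qs_eq (D : DM F) (u : F) : D.qs u = D.ph u 0 1 0 := by
  simp [DM.qs, DM.ph]

theorem near' {z : F} {c : ℝ} (hc : 0 ≤ c) (hz : ∀ i, ‖D.dT z 0 (i + 1)‖ ≤ c) :
    ‖D.ex z - z‖ ≤ c := by
  have h2 := (hasSum_nat_add_iff' 1).2 (h.hs_ex0 z)
  have e : D.dT z 0 0 = z := by simp [DM.dT, DM.al]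
  rw [sum_range_one, e] at h2
  rw [← h2.tsum_eq]
  exact IsUltrametricDist.norm_tsum_le_of_forall_le_of_nonneg hc hz

theorem near (z : F) (hz : ‖z‖ ≤ 1) : ‖D.ex z - z‖ ≤ ‖z‖ ^ 2 := by
  refine h.near' (by positivity) fun i => ?_
  refine (h.norm_dT z 0 _).trans ((pow_le_pow_left₀ (by positivity) (mul_le_of_le_one_right
    (norm_nonneg _) (pow_le_one₀ (by positivity) (inv_le_one_of_one_le₀ h.2.1.le))) _).trans ?_)
  exact pow_le_pow_of_le_one (norm_nonneg _) hz (Nat.one_lt_pow (by omega) h.fr.lt)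

theorem near_th (z : F) (hz : ‖z‖ ≤ ‖D.θ‖) : ‖D.ex z - z‖ ≤ ‖z‖ * ‖D.θ‖⁻¹ := by
  refine h.near' (by positivity) fun i => (h.norm_dT z 0 _).trans ?_
  have h1 : ‖z‖ * ‖D.θ‖⁻¹ ^ ((i + 1 + 1) / 2) ≤ ‖z‖ * ‖D.θ‖⁻¹ :=
    mul_le_mul_of_nonneg_left (pow_le_of_le_one (by positivity)
      (inv_le_one_of_one_le₀ h.2.1.le) (by omega)) (norm_nonneg _)
  exact (pow_le_pow_left₀ (by positivity) h1 _).trans (pow_le_of_le_one (by positivity)
    (by rw [← div_eq_mul_inv]; exact div_le_one_of_le₀ hz (norm_nonneg _))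
    (pow_pos (one_pos.trans h.fr.lt) _).ne')

theorem iso (z : F) (hz : ‖z‖ ≤ ‖D.θ‖) : ‖D.ex z‖ = ‖z‖ := by
  rcases eq_or_ne z 0 with rfl | h0
  · simpa using h.near_th 0 hz
  have h1 : ‖D.ex z - z‖ < ‖z‖ := (h.near_th z hz).trans_lt
    (mul_lt_of_lt_one_right (norm_pos_iff.2 h0) (inv_lt_one_of_one_lt₀ h.2.1))
  rw [← sub_add_cancel (D.ex z) z, IsUltrametricDist.norm_add_eq_max_of_norm_ne_norm h1.ne,
    max_eq_right h1.le]

/-- The exponential maps the ball of every closed stable subgroup onto itself. -/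
theorem ball_onto (W : AddSubgroup F) (hW : IsClosed (W : Set F)) (hex : ∀ z ∈ W, D.ex z ∈ W)
    {x : F} (hx : x ∈ W) (hn : ‖x‖ ≤ ‖D.θ‖) : ∃ z ∈ W, ‖z‖ ≤ ‖x‖ ∧ D.ex z = x := by
  let r : ℕ → F := fun n => (fun y => y - D.ex y)^[n] x
  have rs : ∀ n, r (n + 1) = r n - D.ex (r n) := fun n => Function.iterate_succ_apply' _ _ _
  have r1 : ‖D.θ‖⁻¹ < 1 := inv_lt_one_of_one_lt₀ h.2.1
  have le1 : ∀ n, ‖x‖ * ‖D.θ‖⁻¹ ^ n ≤ ‖x‖ := fun n =>
    mul_le_of_le_one_right (norm_nonneg _) (pow_le_one₀ (by positivity) r1.le)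
  have hr : ∀ n, r n ∈ W ∧ ‖r n‖ ≤ ‖x‖ * ‖D.θ‖⁻¹ ^ n := by
    intro n
    induction n with
    | zero => exact ⟨hx, by simp [r]⟩
    | succ n ih =>
      rw [rs, norm_sub_rev, pow_succ, ← mul_assoc]
      exact ⟨sub_mem ih.1 (hex _ ih.1), (h.near_th _ (ih.2.trans ((le1 n).trans hn))).trans
        (mul_le_mul_of_nonneg_right ih.2 (by positivity))⟩
  have hs : Summable r := Summable.of_norm_bounded
    ((summable_geometric_of_lt_one (by positivity) r1).mul_left ‖x‖) fun n => (hr n).2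
  let e : F →+ F := AddMonoidHom.mk' D.ex h.ex_add
  have hc : Continuous e := by
    refine continuous_of_continuousAt_zero e ?_
    rw [ContinuousAt, map_zero]
    refine squeeze_zero_norm' ?_ tendsto_norm_zero
    filter_upwards [Metric.closedBall_mem_nhds (0 : F) h.θpos] with z hz
    exact (h.iso z (by simpa using hz)).le
  refine ⟨∑' n, r n, hW.mem_of_tendsto hs.hasSum.tendsto_sum_nat
    (Eventually.of_forall fun n => sum_mem fun i _ => (hr i).1),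
    IsUltrametricDist.norm_tsum_le_of_forall_le_of_nonneg (norm_nonneg _)
      fun n => (hr n).2.trans (le1 n), ?_⟩
  have h1 := (hs.hasSum.map e hc).tendsto_sum_nat
  have h2 : ∀ n, ∑ i ∈ range n, (e ∘ r) i = x - r n := fun n => by
    have : e ∘ r = fun i => r i - r (i + 1) := funext fun i => by rw [rs, sub_sub_cancel]; rfl
    rw [this, sum_range_sub']; rfl
  simp only [h2] at h1
  exact (tendsto_nhds_unique h1 (hs.tendsto_atTop_zero.const_sub x)).trans (sub_zero x)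

theorem onto [IsAlgClosed F] : Function.Surjective D.ex := by
  have key : ∀ (s : ℕ) (x : F), ‖x‖ ≤ ‖D.θ‖ ^ (s + 1) → ∃ z, D.ex z = x := by
    intro s
    induction s with
    | zero =>
      intro x hx
      obtain ⟨z, -, -, hz⟩ := h.ball_onto ⊤ (by simp) (by simp) trivial (by simpa using hx)
      exact ⟨z, hz⟩
    | succ s ih =>
      intro x hx
      have hq := h.fr.lt
      have h1 : 1 ≠ D.q := hq.ne
      have h2 : 1 ≠ D.q ^ 2 := by nlinarith
      have h3 : 0 ≠ D.q := by omega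
      have h4 : 0 ≠ D.q ^ 2 := by positivity
      have c1 : (rP D.q D.θ D.g D.Δ - C x).coeff 1 = D.θ := by
        simp [rP, coeff_X_pow, coeff_C, h1, h2]
      have c0 : (rP D.q D.θ D.g D.Δ - C x).coeff 0 = -x := by simp [rP, coeff_X_pow, h3, h4]
      obtain ⟨y, hy, hn⟩ := small_root (rP D.q D.θ D.g D.Δ - C x) (pow_pos h.θpos (s + 1)).le
        (fun e => h.θ0 (by rw [← c1, e, coeff_zero])) (by rwa [c0, c1, norm_neg, ← pow_succ'])
      obtain ⟨z, rfl⟩ := ih y hn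
      exact ⟨D.θ * z, by rw [h.ex_th, rh, ← rP_eval, ← sub_eq_zero]; simpa using hy⟩
  intro x
  obtain ⟨s, hs⟩ := pow_unbounded_of_one_lt ‖x‖ h.2.1
  exact key s x (hs.le.trans (pow_le_pow_right₀ h.2.1.le (by omega)))

theorem qs_th (u : F) : D.qs (D.θ * u) = D.θ * D.qs u + D.ex u ^ D.q := by
  simpa [DM.qs_eq, add_comm] using h.ph_th u one_pos

theorem hs_qs (u : F) : HasSum (fun i => D.al i ^ D.q * u ^ D.q ^ (i + 1) /
    (D.θ ^ D.q ^ (i + 1) - D.θ)) (D.qs u) := by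
  simpa [DM.qs_eq, DM.dT] using h.hs_ph u 0 one_pos

theorem hs_al (u : F) : HasSum (fun i => D.al i * u ^ D.q ^ i) (D.ex u) := by
  have := h.hs_ex0 u
  rwa [show D.dT u 0 = fun i => D.al i * u ^ D.q ^ i from funext fun i => by simp [DM.dT]] at this

/-- The generating function as a power series in the node. -/
theorem tower (u : F) {m j : ℕ} (hj : j < m) :
    HasSum (fun i => (D.θ ^ D.q ^ j) ^ i * D.ex (u / D.θ ^ (i + 1)) ^ D.q ^ m) (D.ph u 0 m j) := by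
  have t0 := h.θ0
  have st : ∀ i, (D.θ ^ D.q ^ j) ^ i * D.ex (u / D.θ ^ (i + 1)) ^ D.q ^ m =
      (D.θ ^ D.q ^ j) ^ i * D.ph (u / D.θ ^ i) 0 m j -
        (D.θ ^ D.q ^ j) ^ (i + 1) * D.ph (u / D.θ ^ (i + 1)) 0 m j := fun i => by
    rw [show u / D.θ ^ i = D.θ * (u / D.θ ^ (i + 1)) by field_simp; ring, h.ph_th _ hj]; ring
  have r1 := tendsto_pow_atTop_nhds_zero_of_lt_one (by positivity) (inv_lt_one_of_one_lt₀ h.2.1)
  have ht : Tendsto (fun i => (D.θ ^ D.q ^ j) ^ i * D.ph (u / D.θ ^ i) 0 m j) atTop (𝓝 0) := by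
    refine squeeze_zero_norm' ?_ (by simpa only [mul_zero] using r1.const_mul (‖u‖ ^ D.q ^ m))
    filter_upwards [(by simpa only [mul_zero] using r1.const_mul ‖u‖ :
      Tendsto _ _ (𝓝 (0 : ℝ))).eventually_le_const one_pos] with i hi
    have e : ‖u / D.θ ^ i‖ = ‖u‖ * ‖D.θ‖⁻¹ ^ i := by rw [norm_div, norm_pow, inv_pow, div_eq_mul_inv]
    rw [norm_mul, norm_pow, norm_pow]
    refine (mul_le_mul_of_nonneg_left (h.norm_ph_le (e ▸ hi) 0 hj) (by positivity)).trans ?_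
    rw [e, mul_pow, mul_left_comm, ← pow_mul ‖D.θ‖⁻¹, mul_comm i, pow_mul, ← mul_pow]
    refine mul_le_mul_of_nonneg_left (pow_le_pow_left₀ (by positivity) ?_ _) (by positivity)
    rw [inv_pow, ← div_eq_mul_inv, div_le_iff₀ (pow_pos h.θpos _), ← div_eq_inv_mul,
      le_div_iff₀ h.θpos, ← pow_succ]
    exact pow_le_pow_right₀ h.2.1.le (Nat.pow_lt_pow_right h.fr.lt hj)
  simp only [st]
  rw [Summable.hasSum_iff_tendsto_nat]
  · simp only [sum_range_sub' fun i => (D.θ ^ D.q ^ j) ^ i * D.ph (u / D.θ ^ i) 0 m j]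
    simpa using ht.const_sub (D.ph u 0 m j)
  · refine NonarchimedeanAddGroup.summable_of_tendsto_cofinite_zero ?_
    rw [Nat.cofinite_eq_atTop]
    simpa using ht.sub (ht.comp (tendsto_add_atTop_nat 1))

end DM.Ok0

theorem DM.Ok.exH [IsUltrametricDist F] [CompleteSpace F] [IsAlgClosed F] (h : D.Ok k) :
    ExH k D.θ D.g D.Δ D.ex :=
  ⟨h.2.1, h.2.2.2.2, h.w.ex_add, h.w.ex_smul, fun z => h.1 ▸ h.w.ex_th z, h.w.iso, h.w.onto⟩

end Pool.Agent.CSU.SA.DS
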