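import Pool.Agent.Lib.MP_0c15f2_nt.DS.St
import Pool.Agent.Lib.MP_0c15f2_nt.DS.An0
import Pool.Agent.Lib.MP_0370b2_nt.SA.WN0

/-! The statements on the exponential and on the values of the generating functions. -/

namespace Pool.Agent.CSU.SA.DS

open Polynomial Finset Filter Topology Pool.Agent.DS0

variable {k F : Type} [Field k] [Fintype k] [NormedField F] [Algebra k F] {D : DM F}

theorem tsum_mem_closed {W : Subfield F} (hW : IsClosed (W : Set F)) {f : ℕ → F}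
    (hf : ∀ i, f i ∈ W) : ∑' i, f i ∈ W := by
  by_cases hs : Summable f
  · exact hW.mem_of_tendsto hs.hasSum.tendsto_sum_nat
      (Eventually.of_forall fun _ => sum_mem fun i _ => hf i)
  · rw [tsum_eq_zero_of_not_summable hs]; exact zero_mem _

theorem pow_mem_of_le {W : Subfield F} {q e m : ℕ} {x : F} (hx : x ^ q ^ e ∈ W) (h : e ≤ m) :
    x ^ q ^ m ∈ W := by
  obtain ⟨d, rfl⟩ := Nat.exists_eq_add_of_le h
  rw [pow_add, pow_mul]; exact pow_mem hx _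

namespace DM.Ok0

variable [IsUltrametricDist F] (h : D.Ok0 k)
include h

theorem dT_mem {W : Subfield F} {e : ℕ} {u : F} (hθ : D.θ ∈ W) (hg : D.g ^ D.q ^ e ∈ W)
    (hΔ : D.Δ ^ D.q ^ e ∈ W) (hu : u ^ D.q ^ e ∈ W) (i : ℕ) : ∀ m, e ≤ m → D.dT u m i ∈ W := by
  have h0 : ∀ m, e ≤ m → D.dT u m 0 ∈ W := fun m hm => by
    simpa [DM.dT, DM.al] using pow_mem_of_le hu hm
  induction i using Nat.twoStepInduction with
  | zero => exact h0
  | one =>
    intro m hm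
    rw [eq_div_of_mul_eq (h.fr.sub_ne h.2.1 (by omega)) ((mul_comm _ _).trans (h.dT_one u m))]
    exact div_mem (mul_mem (pow_mem_of_le hg hm) (h0 _ (by omega)))
      (sub_mem (pow_mem hθ _) (pow_mem hθ _))
  | more i i0 i1 =>
    intro m hm
    rw [eq_div_of_mul_eq (h.fr.sub_ne h.2.1 (by omega)) ((mul_comm _ _).trans (h.dT_two u m i))]
    exact div_mem (add_mem (mul_mem (pow_mem_of_le hg hm) (i1 _ (by omega)))
      (mul_mem (pow_mem_of_le hΔ hm) (i0 _ (by omega)))) (sub_mem (pow_mem hθ _) (pow_mem hθ _))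

theorem ph_mem {W : Subfield F} (hW : IsClosed (W : Set F)) {e : ℕ} {u : F} (hθ : D.θ ∈ W)
    (hg : D.g ^ D.q ^ e ∈ W) (hΔ : D.Δ ^ D.q ^ e ∈ W) (hu : u ^ D.q ^ e ∈ W) (l j : ℕ) {m : ℕ}
    (hm : e ≤ m) : D.ph u l m j ∈ W :=
  tsum_mem_closed hW fun i => div_mem (h.dT_mem hθ hg hΔ hu i m hm)
    (pow_mem (sub_mem (pow_mem hθ _) (pow_mem hθ _)) _)

theorem norm_al_le (i : ℕ) : ‖D.al i‖ ≤ 1 :=
  (h.norm_al i).trans (pow_le_one₀ (by positivity) (inv_le_one_of_one_le₀ h.2.1.le))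

theorem norm_ph {u : F} (hu : ‖u‖ ≤ ‖D.θ‖) (l : ℕ) {m j : ℕ} (hj : j < m) :
    ‖D.ph u l m j‖ ≤ (‖u‖ / ‖D.θ‖) ^ D.q ^ m := by
  refine IsUltrametricDist.norm_tsum_le_of_forall_le_of_nonneg (by positivity) fun i => ?_
  have tp := h.θpos
  rw [norm_div, norm_pow, h.fr.norm_sub h.2.1 (by omega), norm_mul, norm_pow, norm_pow]
  refine le_trans ?_ (pow_le_pow_of_le_one (by positivity) (div_le_one_of_le₀ hu tp.le)
    (Nat.pow_le_pow_right h.fr.lt.le (Nat.le_add_left m i)))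
  rw [div_pow]
  exact div_le_div₀ (by positivity) (mul_le_of_le_one_left (by positivity)
    (pow_le_one₀ (norm_nonneg _) (h.norm_al_le i))) (by positivity)
    (le_self_pow₀ (one_le_pow₀ h.2.1.le) (by omega))

variable [CompleteSpace F]

theorem ex_mem {W : Subfield F} (hW : IsClosed (W : Set F)) {e : ℕ} {u : F} (hθ : D.θ ∈ W)
    (hg : D.g ^ D.q ^ e ∈ W) (hΔ : D.Δ ^ D.q ^ e ∈ W) (hu : u ^ D.q ^ e ∈ W) :
    D.ex u ^ D.q ^ e ∈ W := by
  rw [← (h.hs_ex u e).tsum_eq]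
  exact tsum_mem_closed hW fun i => h.dT_mem hθ hg hΔ hu i e le_rfl

theorem near_q (z : F) (hz : ‖z‖ ≤ 1) : ‖D.ex z - z‖ ≤ ‖z‖ ^ D.q := by
  refine h.near' (by positivity) fun i => ?_
  refine (h.norm_dT z 0 _).trans ((pow_le_pow_left₀ (by positivity) (mul_le_of_le_one_right
    (norm_nonneg _) (pow_le_one₀ (by positivity) (inv_le_one_of_one_le₀ h.2.1.le))) _).trans ?_)
  exact pow_le_pow_of_le_one (norm_nonneg _) hz (Nat.le_self_pow (by omega) _)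

theorem field_onto {W : Subfield F} (hW : IsClosed (W : Set F)) (hθ : D.θ ∈ W) (hg : D.g ∈ W)
    (hΔ : D.Δ ∈ W) {x : F} (hx : x ∈ W) (hn : ‖x‖ ≤ ‖D.θ‖) : ∃ z ∈ W, ‖z‖ = ‖x‖ ∧ D.ex z = x := by
  obtain ⟨z, hz, h1, h2⟩ := h.ball_onto W.toAddSubgroup hW (fun z hz => by
    simpa using h.ex_mem (e := 0) (u := z) hW hθ (by simpa) (by simpa) (by simpa using hz)) hx hn
  exact ⟨z, hz, by rw [← h2, h.iso z (h1.trans hn)], h2⟩

theorem unc : Uncountable F := by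
  refine not_countable_iff.1 fun _ => ?_
  exact WN.unc (hk := hk_fin (k := k)) (w := D.θ⁻¹)
    (by rw [norm_inv]; exact inv_lt_one_of_one_lt₀ h.2.1) (inv_ne_zero h.θ0) ⊤ (by simp) trivial
    (fun _ => trivial) (Set.to_countable _)

end DM.Ok0

theorem DM.Ok.ph_two [IsUltrametricDist F] [CompleteSpace F] (h : D.Ok k) (u : F) {m j : ℕ}
    (hj : j < m) : D.ph u 0 (m + 2) j = D.A m * (D.θ ^ D.q ^ j - D.θ ^ D.q ^ m) * D.ph u 0 m j +
      D.G m * D.ph u 0 (m + 1) j + D.A m * D.ex u ^ D.q ^ m := by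
  have := h.w.ph_rec u hj
  have h0 : D.Δ ^ D.q ^ m ≠ 0 := pow_ne_zero _ h.2.2.2.2
  rw [DM.A, DM.G]
  field_simp
  linear_combination this

theorem an1 : An1S := fun _ _ _ _ _ _ _ _ _ h =>
  ⟨h.w.unc, h.w.norm_al_le, h.w.hs_al, h.w.ex_add, h.w.ex_smul, h.w.ex_th, h.w.iso, h.w.near_q,
    fun _ hW hθ hg hΔ _ hx hn => h.w.field_onto hW hθ hg hΔ hx hn⟩

theorem an2 : An2S := fun _ _ _ _ _ _ _ _ D h =>
  ⟨fun _ hm => ⟨fun u v => h.w.ph_add u v 0 hm, fun c u => h.w.ph_smul c u 0 hm, fun u =>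
      ⟨by simpa [add_comm] using h.w.ph_th u hm, by simpa using h.ph_two u hm,
        by simpa using h.w.tower u hm⟩⟩,
    fun u => ⟨(D.qs_eq u).symm, by
      have := h.w.ph_pole u 0
      simp only [pow_zero, pow_one, zero_add] at this
      rw [D.qs_eq]; linear_combination this⟩,
    fun _ l _ _ hj hu => h.w.norm_ph hu l hj,
    fun _ _ _ hW hθ hg hΔ hu => ⟨h.w.ex_mem hW hθ hg hΔ hu,
      fun _ hm => h.w.ph_mem hW hθ hg hΔ hu 0 0 hm⟩⟩

end Pool.Agent.CSU.SA.DS
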