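import Pool.Agent.Lib.MP_0c15f2_nt.DS.St
import Pool.Agent.Lib.MP_0c15f2_nt.DS.An0
import Pool.Agent.Lib.MP_0370b2_nt.SA.Ap1

/-! Drinfeld modules of rank two: the jets and the finite approximations. -/

namespace Pool.Agent.CSU.SA.DS

open Polynomial Finset

namespace Anm

variable {k F : Type} [Field k] [Fintype k] [NormedField F] [Algebra k F] {D : DM F}

theorem cf (D : DM F) (μ : ℕ) (u : F) (m j l : ℕ) :
    (D.Jm μ u m j).coeff l = if l < μ then D.ph u l m j else 0 := by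
  simp only [DM.Jm, finsetSum_coeff, coeff_C_mul_X_pow, sum_ite_eq, mem_range]

theorem cf_lt (D : DM F) {μ : ℕ} (u : F) (m j : ℕ) {l : ℕ} (hl : l < μ) :
    (D.Jm μ u m j).coeff l = D.ph u l m j := by
  rw [cf, if_pos hl]

variable [IsUltrametricDist F]

theorem term_le (h : D.Ok0 k) {u : F} (hu : ‖u‖ ≤ ‖D.θ‖) (l : ℕ) {m i j n : ℕ} (hj : j < i + m)
    (hn : n ≤ i + m) : ‖D.dT u m i / (D.θ ^ D.q ^ (i + m) - D.θ ^ D.q ^ j) ^ (l + 1)‖ ≤
      (‖u‖ / ‖D.θ‖) ^ D.q ^ n := by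
  have h0 := h.θpos
  have h1 : ‖u‖ * ‖D.θ‖⁻¹ ^ ((i + 1) / 2) ≤ ‖u‖ := mul_le_of_le_one_right (norm_nonneg u)
    (pow_le_one₀ (by positivity) (inv_le_one_of_one_le₀ h.2.1.le))
  rw [norm_div, norm_pow, h.fr.norm_sub h.2.1 hj]
  refine (div_le_div₀ (by positivity)
    ((h.norm_dT u m i).trans (pow_le_pow_left₀ (by positivity) h1 _)) (by positivity)
    (le_self_pow₀ (one_le_pow₀ h.2.1.le) l.succ_ne_zero)).trans ?_
  rw [← div_pow]
  exact pow_le_pow_of_le_one (by positivity) ((div_le_one h0).2 hu)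
    (Nat.pow_le_pow_right h.fr.lt.le hn)

theorem ph_le (h : D.Ok0 k) {u : F} (hu : ‖u‖ ≤ ‖D.θ‖) (l : ℕ) {m j : ℕ} (hj : j < m) :
    ‖D.ph u l m j‖ ≤ (‖u‖ / ‖D.θ‖) ^ D.q ^ m :=
  IsUltrametricDist.norm_tsum_le_of_forall_le_of_nonneg (by positivity) fun _ =>
    term_le h hu l (by omega) (by omega)

theorem ph_tw [CompleteSpace F] (h : D.Ok0 k) (u : F) (l : ℕ) {m j : ℕ} (hj : j < m) :
    D.ph u l (m + 1) (j + 1) = D.ph u l m j ^ D.q := by
  have e := h.fr.hasSum_pow 1 (h.hs_ph u l hj)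
  rw [pow_one] at e
  refine Fr.uniq (h.hs_ph u l (Nat.succ_lt_succ hj)) e fun i => ?_
  have s := h.fr.sub_pow 1 (D.θ ^ D.q ^ (i + m)) (D.θ ^ D.q ^ j)
  rw [pow_one] at s
  rw [div_pow, pow_right_comm _ (l + 1), s, DM.dT_eq, DM.dT_eq, ← pow_mul, ← pow_mul, ← pow_mul,
    ← pow_succ, ← pow_succ, ← pow_succ, add_assoc]

end Anm

open Anm in
theorem anm : AnmS := by
  intro k F _ _ _ _ _ _ D u σ μ hD hσ m j hj
  have h := hD.w
  have hΔ : D.Δ ^ D.q ^ m ≠ 0 := pow_ne_zero _ hD.2.2.2.2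
  refine ⟨fun hμ => cf_lt D u m j hμ, ?_, ?_, fun hu l hl => ?_⟩
  · rw [X_pow_dvd_iff]
    intro d hd
    rw [add_sub_assoc, ← C_sub, mul_assoc, add_mul]
    rcases d with _ | d
    · simp only [coeff_sub, coeff_add, coeff_X_mul_zero, coeff_C_mul, coeff_C_zero,
        cf_lt D _ _ _ hd, DM.A, DM.G]
      field_simp
      linear_combination h.ph_rec u hj
    · simp only [coeff_sub, coeff_add, coeff_X_mul, coeff_C_mul, coeff_C_succ,
        cf_lt D _ _ _ hd, cf_lt D _ _ _ (show d < μ by omega), DM.A, DM.G]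
      field_simp
      linear_combination h.ph_rec' u d hj
  · ext l
    rw [coeff_map, cf, cf]
    split_ifs
    · rw [hσ, ph_tw h u l hj]
    · rw [map_zero]
  · rw [cf_lt D _ _ _ hl]
    exact ph_le h hu l hj

open Anm in
theorem ap : ApS := by
  intro k F _ _ _ _ _ _ D u m a K hD hu hm
  have h := hD.w
  have hθ := h.2.1
  have hg : ∀ (A : F) l, l < D.q ^ a →
      ((C A - X) ^ (D.q ^ a - 1)).coeff l = A ^ (D.q ^ a - 1 - l) := fun A l => by
    rw [h.1]; exact ap_geom k a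
  have key : Nb (D.q ^ a) ((‖u‖ / ‖D.θ‖) ^ D.q ^ (K + m))
      (D.Jm (D.q ^ a) u m 0 - taylor D.θ (D.pK (D.q ^ a) u m K)) := fun l hl => by
    have hs := h.hs_ph u l (show 0 < m from hm)
    have e1 : (taylor D.θ (D.pK (D.q ^ a) u m K)).coeff l =
        ∑ i ∈ range K, D.dT u m i / (D.θ ^ D.q ^ (i + m) - D.θ ^ D.q ^ 0) ^ (l + 1) := by
      rw [DM.pK, map_sum, finsetSum_coeff]
      refine sum_congr rfl fun i _ => ?_
      have hn := h.fr.sub_ne hθ (show 0 < i + m by omega)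
      rw [pow_zero, pow_one] at hn ⊢
      rw [taylor_mul, taylor_C, taylor_pow, map_sub, taylor_C, taylor_X, coeff_C_mul,
        add_comm X, ← sub_sub, ← C_sub, hg _ l hl, DM.dT]
      obtain ⟨n, hn'⟩ : ∃ n, D.q ^ a = n + (l + 1) := ⟨D.q ^ a - (l + 1), by omega⟩
      rw [hn', show n + (l + 1) - 1 - l = n by omega, pow_add _ n]
      field_simp
    rw [coeff_sub, cf_lt D _ _ _ hl, e1, ← hs.tsum_eq, ← hs.summable.sum_add_tsum_nat_add K,
      add_sub_cancel_left]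
    exact IsUltrametricDist.norm_tsum_le_of_forall_le_of_nonneg (by positivity) fun i =>
      term_le h (hu.trans hθ.le) l (by omega) (by omega)
  have h0 : 0 < D.q ^ a := pow_pos (one_pos.trans h.fr.lt) a
  refine ⟨(h.norm_ph_le hu 0 hm).trans (pow_le_one₀ (norm_nonneg u) hu), ?_, key⟩
  have := key 0 h0
  rwa [coeff_sub, cf_lt D _ _ _ h0, taylor_coeff_zero] at this

end Pool.Agent.CSU.SA.DS
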