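import Pool.Agent.Lib.MP_0c15f2_nt.DS.St
import Pool.Agent.Lib.MP_0370b2_nt.SA.ApH

/-! Drinfeld modules of rank two: heights of the finite approximations. -/

namespace Pool.Agent.CSU.SA.DS

open Polynomial Finset

namespace ApH

theorem prodI {k R ι : Type} [Field k] [CommRing R] [Algebra k R] {U : Submodule k R}
    [DecidableEq ι] {a : ℕ} (s : Finset ι) {f : ι → R} (h : ∀ i ∈ s, f i ∈ U ^ a) :
    ∏ i ∈ s, f i ∈ U ^ (#s * a) := by
  induction s using Finset.induction_on with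
  | empty => simpa using ⟨1, map_one _⟩
  | insert i s hi ih =>
    rw [prod_insert hi, card_insert_of_notMem hi, add_comm, add_mul, one_mul]
    exact SA.ApH.mul (h i (mem_insert_self _ _)) (ih fun j hj => h j (mem_insert_of_mem hj))

variable {F : Type} [NormedField F] [IsUltrametricDist F]

theorem one (D : DM F) (h : Fr D.q F) (hθ : 1 < ‖D.θ‖) : D.al 1 * cD D.q D.θ 1 = D.g := by
  have h1 := h.sub_ne hθ (show 0 < 1 by omega)
  rw [pow_zero, pow_one, pow_one] at h1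
  rw [DM.al, cD, prod_range_one, pow_zero, pow_one, pow_one]
  field_simp

theorem two (D : DM F) (h : Fr D.q F) (hθ : 1 < ‖D.θ‖) (i : ℕ) :
    D.al (i + 2) * cD D.q D.θ (i + 2) = D.g * (D.al (i + 1) * cD D.q D.θ (i + 1)) ^ D.q ^ 1 +
      D.Δ * (D.θ ^ D.q ^ (i + 2) - D.θ ^ D.q ^ 1) * (D.al i * cD D.q D.θ i) ^ D.q ^ 2 := by
  have h1 := h.sub_ne hθ (show 0 < i + 2 by omega)
  have e1 := h.cD_succ D.θ (i + 1) 0
  have e2 := h.cD_succ D.θ i 1
  rw [pow_zero, pow_one] at h1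
  rw [pow_zero, pow_one, pow_one, zero_add, add_zero] at e1
  rw [DM.al, show i + 2 = i + 1 + 1 from rfl, e1, mul_pow, mul_pow, e2, pow_one]
  change _ / (D.θ ^ D.q ^ (i + 2) - D.θ) * ((D.θ ^ D.q ^ (i + 2) - D.θ) * _) = _
  field_simp

theorem num {k : Type} [Field k] [Algebra k F] (D : DM F) {U : Submodule k F} {e : ℕ}
    (h : Fr D.q F) (hθ : 1 < ‖D.θ‖) (hP : D.Par U e) (i : ℕ) :
    (D.al i * cD D.q D.θ i) ^ D.q ^ e ∈ U ^ (i * D.q ^ (i + e)) := by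
  obtain ⟨h1, hU, hg, hΔ, -⟩ := hP
  have q1 : 1 ≤ D.q := h.lt.le
  have hp : ∀ {i j : ℕ}, i ≤ j → D.q ^ i ≤ D.q ^ j := fun hij => Nat.pow_le_pow_right q1 hij
  have hs : ∀ {i j : ℕ}, j ≤ i → D.θ ^ D.q ^ i - D.θ ^ D.q ^ j ∈ U ^ D.q ^ i := fun hij =>
    sub_mem (Submodule.pow_mem_pow _ hU _)
      (SA.ApH.mono h1 (hp hij) (Submodule.pow_mem_pow _ hU _))
  induction i using Nat.twoStepInduction with
  | zero =>
    rw [DM.al, cD, prod_range_zero, one_mul, one_pow, zero_mul, pow_zero]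
    exact Submodule.one_le.1 le_rfl
  | one =>
    rw [one D h hθ]
    exact SA.ApH.mono h1 (by simpa using Nat.one_le_pow _ _ q1) (pow_one U ▸ hg)
  | more i a1 a2 =>
    have sw : ∀ (x : F) (j : ℕ), (x ^ D.q ^ j) ^ D.q ^ e = (x ^ D.q ^ e) ^ D.q ^ j := fun x j => by
      rw [← pow_mul, ← pow_mul, mul_comm]
    have Q1 : 1 ≤ D.q ^ (i + 2 + e) := Nat.one_le_pow _ _ q1
    rw [two D h hθ, h.add_pow, mul_pow D.g, mul_pow (_ * _), mul_pow D.Δ, sw, sw]
    refine add_mem (SA.ApH.mono h1 ?_ (SA.ApH.mul (pow_one U ▸ hg) (SA.ApH.pow a2 _)))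
      (SA.ApH.mono h1 ?_ (SA.ApH.mul (SA.ApH.mul (pow_one U ▸ hΔ)
        (SA.ApH.pow (hs (show 1 ≤ i + 2 by omega)) _)) (SA.ApH.pow a1 _)))
    · rw [mul_assoc, ← pow_add, show i + 1 + e + 1 = i + 2 + e by ring]
      nlinarith
    · rw [mul_assoc, ← pow_add, ← pow_add, show i + e + 2 = i + 2 + e by ring]
      nlinarith

end ApH

open SA.ApH in
theorem aph : ApHS := by
  intro k F _ _ _ _ _ D U e a K H hD _ hP
  obtain ⟨hq, hθ, -⟩ := hD
  have h : Fr D.q F := hq ▸ fr k F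
  have hcc : ∀ (n : ℕ) (w : F), w ∈ U ^ n → C (w ^ D.q ^ a) ∈ CC (D.q ^ a) U ^ n := fun n w =>
    hq ▸ cc (U := U) a (D := n) (w := w)
  have hN := ApH.num D h hθ hP
  obtain ⟨h1, hU, -⟩ := hP
  have q1 : 1 ≤ D.q := h.lt.le
  have c1 : (1 : F[X]) ∈ CC (D.q ^ a) U := Submodule.subset_span (Or.inl rfl)
  have cX : (X : F[X]) ∈ CC (D.q ^ a) U := Submodule.subset_span (Or.inr (Or.inl rfl))
  have hp : ∀ {i j : ℕ}, i ≤ j → D.q ^ i ≤ D.q ^ j := fun hij => Nat.pow_le_pow_right q1 hij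
  have hs : ∀ {i j : ℕ}, j ≤ i → D.θ ^ D.q ^ i - D.θ ^ D.q ^ j ∈ U ^ D.q ^ i := fun hij =>
    sub_mem (Submodule.pow_mem_pow _ hU _) (mono h1 (hp hij) (Submodule.pow_mem_pow _ hU _))
  obtain ⟨f, hf⟩ : ∃ f : ℕ × Fin 2 → F, ∀ p, f p = cD D.q D.θ p.1 ^ D.q ^ (e + p.2) *
      (D.θ ^ D.q ^ (p.1 + (e + a + p.2)) - D.θ) := ⟨_, fun _ => rfl⟩
  have hn : ∀ p, f p ≠ 0 := fun p => hf p ▸
    mul_ne_zero (pow_ne_zero _ (h.cD_ne hθ p.1)) (by
      simpa using h.sub_ne hθ (show 0 < p.1 + (e + a + p.2) by omega))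
  have hd : ∀ p ∈ range K ×ˢ (univ : Finset (Fin 2)),
      f p ∈ U ^ ((K + 1) * D.q ^ (K + e + a + 1)) := fun p hi => by
    have hi' := mem_range.1 (mem_product.1 hi).1
    have hb := p.2.2
    have a1 := pow (prod (range p.1) fun l hl => hs (mem_range.1 hl).le) (D.q ^ (e + p.2))
    have a2 := hs (show 0 ≤ p.1 + (e + a + p.2) by omega)
    rw [pow_zero, pow_one] at a2
    rw [hf]
    refine mono h1 ?_ (mul a1 a2)
    rw [card_range, mul_assoc, ← pow_add, add_mul, one_mul]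
    exact add_le_add (Nat.mul_le_mul hi'.le (hp (by omega))) (hp (by omega))
  have hc : #(range K ×ˢ (univ : Finset (Fin 2))) = K * 2 := by simp
  refine ⟨(∏ p ∈ range K ×ˢ (univ : Finset (Fin 2)), f p) ^ D.q ^ a,
    pow_ne_zero _ (prod_ne_zero_iff.2 fun p _ => hn p), mono c1 ?_
    (hcc _ _ (ApH.prodI _ hd)), fun v b hv => ?_⟩
  · rw [hc, ← mul_assoc]
    exact Nat.mul_le_mul_right _ (by nlinarith)
  · rw [DM.pK, mul_sum]
    refine sum_mem fun i hi => ?_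
    have hi' := mem_range.1 hi
    have hb := b.2
    have hm : (i, b) ∈ range K ×ˢ (univ : Finset (Fin 2)) := mem_product.2 ⟨hi, mem_univ _⟩
    have a1 := hcc _ _ (mul (mul (ApH.prodI (erase _ (i, b)) fun j hj =>
      hd j (mem_of_mem_erase hj)) (pow (hN i) (D.q ^ (b : ℕ)))) (pow hv (D.q ^ (i + b))))
    have a2 := hcc _ _ (Submodule.pow_mem_pow _ hU (D.q ^ (i + e + b)))
    rw [← pow_mul, ← pow_add, show i + e + b + a = i + (e + a + b) by ring] at a2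
    have a3 := pow (sub_mem a2 (mono c1 (Nat.one_le_pow _ _ q1)
      (pow_one (CC (D.q ^ a) U) ▸ cX))) (D.q ^ a - 1)
    rw [← mul_assoc, ← C_mul]
    convert mono c1 ?_ (mul a1 a3) using 3
    · have h2 := pow_ne_zero (D.q ^ a) (hn (i, b))
      have e1 : ∀ x : F, ((x ^ D.q ^ e) ^ D.q ^ (b : ℕ)) ^ D.q ^ a = x ^ D.q ^ (e + a + b) :=
        fun x => by rw [← pow_mul, ← pow_mul, ← pow_add, ← pow_add]; congr 2; ring
      have e2 : ((v ^ D.q ^ e) ^ D.q ^ (i + b)) ^ D.q ^ a = v ^ D.q ^ (i + (e + a + b)) := by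
        rw [← pow_mul, ← pow_mul, ← pow_add, ← pow_add]; congr 2; ring
      have e3 : f (i, b) ^ D.q ^ a = cD D.q D.θ i ^ D.q ^ (e + a + b) *
          (D.θ ^ D.q ^ (i + (e + a + b)) - D.θ) ^ D.q ^ a := by
        rw [hf, mul_pow, ← pow_mul, ← pow_add]; congr 3; ring
      rw [e3] at h2
      have h3 := right_ne_zero_of_mul h2
      rw [← mul_prod_erase _ _ hm, mul_pow, mul_pow, mul_pow, e1, e2, e3, mul_pow]
      field_simp
    · have b1 : #((range K ×ˢ (univ : Finset (Fin 2))).erase (i, b)) ≤ K * 2 :=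
        hc ▸ card_erase_le
      have b2 : D.q ^ (i + e + b) * (D.q ^ a - 1) ≤ D.q ^ (K + e + a + 1) :=
        (Nat.mul_le_mul_left _ (Nat.sub_le _ _)).trans (by rw [← pow_add]; exact hp (by omega))
      have b3 := Nat.mul_le_mul_left H (hp (show i + b ≤ K + e + a + 1 by omega))
      have b4 := Nat.mul_le_mul_right ((K + 1) * D.q ^ (K + e + a + 1)) b1
      have b5 : i * D.q ^ (i + e) * D.q ^ (b : ℕ) ≤ K * D.q ^ (K + e + a + 1) := by
        rw [mul_assoc, ← pow_add]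
        exact Nat.mul_le_mul hi'.le (hp (by omega))
      generalize D.q ^ (K + e + a + 1) = Q at *
      nlinarith [Nat.zero_le (K * Q), Nat.zero_le (K * K * Q)]

end Pool.Agent.CSU.SA.DS
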