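import Pool.Agent.Lib.MP_0c15f2_nt.DS.St
import Pool.Agent.Lib.MP_0370b2_nt.SA.C1

/-! Drinfeld modules of rank two: the normalised case. -/

namespace Pool.Agent.CSU.SA.DS

open Polynomial Finset Module

namespace C1

variable {k F : Type} [Field k] [NormedField F] [Algebra k F]

theorem kinf {θ x : F} (h : IsAlgebraic (Algebra.adjoin k {θ}) x) : IsAlgebraic (Kinf k θ) x := by
  have hW : ∀ y ∈ Algebra.adjoin k {θ}, y ∈ Kinf k θ := fun y hy =>
    Algebra.adjoin_induction (p := fun y _ => y ∈ Kinf k θ)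
      (fun y hy => Subfield.le_topologicalClosure _ (Subfield.subset_closure (Or.inr hy)))
      (fun c => Subfield.le_topologicalClosure _ (Subfield.subset_closure (Or.inl ⟨c, rfl⟩)))
      (fun _ _ _ _ => add_mem) (fun _ _ _ _ => mul_mem) hy
  exact h.ringHom_of_comp_eq
    (((Algebra.adjoin k {θ}).val.toRingHom).codRestrict (Kinf k θ) fun y => hW y y.2)
    (RingHom.id F) (fun a b e => Subtype.ext (congrArg (fun t : Kinf k θ => (t : F)) e)) rfl

/-- The distance to the periods. -/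
theorem np [IsUltrametricDist F] {ι τ : Type} [Fintype ι] [Fintype τ] {D : DM F}
    {O : Subalgebra k F} {v : ι → F} {ω : τ → F} {j : τ → ι} {c s N M : ℕ} {T T' : ι → ℕ}
    (hθ : 1 < ‖D.θ‖) (hO : ∀ β, β ∈ O ↔ D.End β) (hθO : D.θ ∈ O) (hper : D.Per ω c)
    (hj : Function.Injective j) (hω : ∀ i, v (j i) = ω i / D.θ ^ s) (hv : ∀ l, ‖v l‖ ≤ 1)
    (hM : N + c + s ≤ M) (hT : ∀ l, 1 ≤ T' l ∧ c + T l ≤ T' l)
    (h : ∀ γ : ι → F, (∀ l, γ l ∈ O ∧ ‖γ l‖ ≤ ‖D.θ‖ ^ M) → ∀ l ∉ Set.range j, γ l ≠ 0 →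
      1 < ‖∑ i, γ i * v i‖ * ‖D.θ‖ ^ T l) : D.NP v (Set.range j) N T' := by
  classical
  intro β hβ l hl hβl lam hlam
  have θ0 : D.θ ≠ 0 := norm_pos_iff.1 (by linarith)
  rcases lt_or_ge (‖D.θ‖ ^ N) ‖lam‖ with h2 | h2
  · have h1 : ‖∑ i, β i * v i‖ ≤ ‖D.θ‖ ^ N :=
      IsUltrametricDist.norm_sum_le_of_forall_le_of_nonneg (by positivity) fun i _ => by
        rw [norm_mul]
        exact (mul_le_of_le_one_right (norm_nonneg _) (hv _)).trans (hβ i).2
    rw [← norm_neg lam] at h2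
    rw [sub_eq_add_neg, IsUltrametricDist.norm_add_eq_max_of_norm_ne_norm (h1.trans_lt h2).ne,
      max_eq_right (h1.trans h2.le)]
    exact one_lt_mul_of_le_of_lt ((one_le_pow₀ hθ.le).trans h2.le)
      (one_lt_pow₀ hθ (by have := (hT l).1; omega))
  obtain ⟨b, hb, b0, hbn, hp⟩ := hper
  obtain ⟨γ, hγ, e⟩ := hp lam hlam
  have key := h (fun i => b * β i - Function.extend j (fun i => γ i * D.θ ^ s) 0 i) (fun i => by
    have a1 : ‖b * β i‖ ≤ ‖D.θ‖ ^ M := by
      rw [norm_mul]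
      refine (mul_le_mul hbn (hβ i).2 (norm_nonneg _) (by positivity)).trans ?_
      rw [← pow_add]
      exact pow_le_pow_right₀ hθ.le (by omega)
    have a2 := O.mul_mem ((hO _).2 hb) ((hO _).2 (hβ i).1)
    by_cases hi : ∃ t, j t = i
    · obtain ⟨t, rfl⟩ := hi
      rw [hj.extend_apply, sub_eq_add_neg]
      refine ⟨add_mem a2 (neg_mem (mul_mem ((hO _).2 (hγ t).1) (pow_mem hθO s))),
        (IsUltrametricDist.norm_add_le_max _ _).trans (max_le a1 ?_)⟩
      rw [norm_neg, norm_mul, norm_pow]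
      refine (mul_le_mul_of_nonneg_right ((hγ t).2.trans
        (mul_le_mul_of_nonneg_right h2 (by positivity))) (by positivity)).trans ?_
      rw [← pow_add, ← pow_add]
      exact pow_le_pow_right₀ hθ.le hM
    · rw [Function.extend_apply' _ _ _ hi, Pi.zero_apply, sub_zero]
      exact ⟨a2, a1⟩) l hl (by
    rw [Function.extend_apply' _ _ _ hl, Pi.zero_apply, sub_zero]
    exact mul_ne_zero b0 hβl)
  have e2 : ∑ i, (b * β i - Function.extend j (fun i => γ i * D.θ ^ s) 0 i) * v i =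
      b * (∑ i, β i * v i - lam) := by
    simp only [sub_mul, sum_sub_distrib, mul_sub, e, mul_sum, mul_assoc]
    congr 1
    rw [← sum_subset (subset_univ (univ.map ⟨j, hj⟩)), sum_map]
    · refine sum_congr rfl fun i _ => ?_
      rw [Function.Embedding.coeFn_mk, hj.extend_apply, hω]
      field_simp
    · intro i _ hi
      rw [Function.extend_apply' _ _ _ (by simpa using hi), Pi.zero_apply, zero_mul]
  rw [e2, norm_mul] at key
  refine key.trans_le ?_
  rw [mul_comm ‖b‖, mul_assoc]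
  refine mul_le_mul_of_nonneg_left ((mul_le_mul_of_nonneg_right hbn (by positivity)).trans ?_)
    (norm_nonneg _)
  rw [← pow_add]
  exact pow_le_pow_right₀ hθ.le (hT l).2

end C1

theorem c1 (tau : TauS) (cnt : CntS) (grow : GrowS) (an2 : An2S) (dat : DatS) (flag : FlagS)
    (ord : OrdS) (eal : EalS) (da : DaS) (ml : MlS) (mult : MultS) : C1S := by
  intro k F _ _ _ _ _ _ _ D σ n r s c0 u w ω Pj j hD hσ hn hg hΔ hsq hper hj huj hind hθw hu
  classical
  have hk : Fintype.card k = D.q := hD.1.symm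
  have hθ := hD.2.1
  have hq : 2 ≤ D.q := hk ▸ Fintype.one_lt_card
  obtain ⟨c, a, ν, hc, ha, hν, ml⟩ := ml k (2 * n) (by omega)
  obtain ⟨O, hO, hθO, hO1, α, hα, c1, hdec⟩ := ord k F D hD
  have aθ : ∀ T : Set F, D.θ ∈ T → IsAlgebraic (Algebra.adjoin k T) D.θ := fun T h =>
    isAlgebraic_algebraMap (⟨D.θ, Algebra.subset_adjoin h⟩ : Algebra.adjoin k T)
  have hαa : IsAlgebraic (Kinf k D.θ) α := by
    obtain ⟨ψ, rfl, h⟩ := (hO α).1 hα
    exact C1.kinf (eal k F D ψ {D.θ} hD h (aθ _ rfl) hg hΔ 0)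
  let y : Fin n × Fin 2 → F := fun p => α ^ (p.2 : ℕ) * u p.1
  obtain ⟨e, W, hW, hθW, hkW, hS, hT⟩ := tau k F D.θ (insert D.g (insert D.Δ (univ.image y))) hθ (by
    simp only [mem_insert, mem_image, mem_univ, true_and]
    rintro _ (rfl | rfl | ⟨p, rfl⟩)
    exacts [C1.kinf hg, C1.kinf hΔ, (hαa.pow _).mul (hu _).2.1])
  obtain ⟨CT, hT⟩ := hT a
  have hgW := hS _ (mem_insert_self _ _)
  have hΔW := hS _ (mem_insert_of_mem (mem_insert_self _ _))
  have huW := fun p => hS (y p)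
    (mem_insert_of_mem (mem_insert_of_mem (mem_image_of_mem _ (mem_univ p))))
  rw [hk] at hgW hΔW huW
  let z : Fin 4 ⊕ (Fin n × Fin 2) ⊕ (Fin n × Fin 2) ⊕ (Fin n × Fin 2) × Fin 2 → F :=
    Sum.elim ![D.θ, D.g ^ D.q ^ e, D.Δ ^ D.q ^ e, (D.Δ ^ D.q ^ e)⁻¹] (Sum.elim
      (fun p => y p ^ D.q ^ e) (Sum.elim (fun p => D.ex (y p) ^ D.q ^ e)
        fun p => D.ph (y p.1) 0 (e + a + p.2) 0))
  have hz : ∀ g, z g ∈ U1 k z := fun g => Submodule.subset_span (Set.mem_insert_of_mem _ ⟨g, rfl⟩)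
  have hU1 : (1 : F) ∈ U1 k z := Submodule.subset_span (Set.mem_insert _ _)
  have hpar : D.Par (U1 k z) e := ⟨hU1, hz (.inl 0), hz (.inl 1), hz (.inl 2), hz (.inl 3)⟩
  have hfg : (U1 k z).FG := Submodule.fg_span ((Set.finite_range z).insert 1)
  have hex := fun p => (an2 k F D hD).2.2.2 W e (y p) hW hθW hgW hΔW (huW p)
  have hUW : ∀ x ∈ U1 k z, x ∈ W := fun x hx => by
    refine Submodule.span_induction (p := fun x _ => x ∈ W) ?_ (zero_mem _)
      (fun _ _ _ _ => add_mem) (fun c x _ h => by rw [Algebra.smul_def]; exact mul_mem (hkW c) h) hx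
    rintro _ (rfl | ⟨i | p | p | p, rfl⟩)
    · exact one_mem _
    · fin_cases i
      exacts [hθW, hgW, hΔW, inv_mem hΔW]
    · exact huW p
    · exact (hex p).1
    · exact (hex p.1).2 _ (by omega)
  have hle : Algebra.adjoin k {D.θ} ≤ Algebra.adjoin k (Set.range w) :=
    Algebra.adjoin_mono (Set.singleton_subset_iff.2 hθw)
  have hg' := hg.tower_top_of_subalgebra_le hle
  have hΔ' := hΔ.tower_top_of_subalgebra_le hle
  obtain ⟨-, da1, -, da2, -⟩ := da k F D (Set.range w) hD (aθ _ hθw) hg' hΔ'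
  have hy : ∀ p, D.DA k (Set.range w) (y p) := fun p =>
    da1 _ _ ((hO _).1 (pow_mem hα _)) (hu _).2.2
  obtain ⟨B1, hC1⟩ := grow k F _ (2 * n) w z (by
    rintro (i | p | p | p)
    · fin_cases i
      exacts [aθ _ hθw, hg'.pow _, hΔ'.pow _, (hΔ'.pow _).inv]
    · exact (hy p).1.pow _
    · exact (hy p).2.1.pow _
    · exact da2 _ _ (by omega) (hy p.1))
  obtain ⟨κ, P1, hML⟩ := ml F D σ r s ω Pj (U1 k z) W e B1 CT hD hσ hg hΔ hsq hfg hpar hC1 hUW hkW
    (hk ▸ hT)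
  obtain ⟨P2, mult⟩ := mult k F D (U1 k z) r _ (2 * n) e a ν c κ P1 hD hpar hc ha hML
  obtain ⟨K, hK⟩ : ∃ K, K = 2 * n * ν + 1 + (a + 1 + (e + 2 * c1 + 1)) := ⟨_, rfl⟩
  obtain ⟨A, hA⟩ : ∃ A, A = (4 * a * n + 3) * (c + 3) ^ (2 * n) := ⟨_, rfl⟩
  obtain ⟨P0, β, v, L, hP0, hv0, hv, hLL, hNP⟩ := flag k F (Fin n) O D.θ u (Set.range j)
    ((c + κ) * A + 1) (P2 + c0 + s + (2 + K + a * (B1 + 2 * n * (K + 1)))) hθ
    (fun β h h0 => (hO1 β h h0).1) (fun i => (hu i).1) (by rintro _ ⟨i, rfl⟩; exact (huj i).2)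
    fun β h => hind β fun i => (hO _).1 (h i)
  have hdat : ∀ l, D.Dat (U1 k z) e a (D.q ^ (e + 2 * (P0 + c1) + 1)) (v l) := fun l => by
    choose b1 b2 h1 h2 h3 using fun i => hdec _ ((hv l).1 i).1 P0 ((hv l).1 i).2
    have := dat k F (Fin n × Fin 2) D (U1 k z) y e a (P0 + c1) (fun p => ![b1 p.1, b2 p.1] p.2) hD ha
      hpar (fun p => ⟨by rw [pow_one]; exact hz (.inr (.inl p)),
        by rw [pow_one]; exact hz (.inr (.inr (.inl p))), fun b =>
        Gr.pw_mono hU1 (show 1 ≤ _ by rw [mul_one]; exact Nat.one_le_pow _ _ (by omega))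
          (by rw [pow_one]; exact hz (.inr (.inr (.inr (p, b)))))⟩) (by
        rintro ⟨i, b⟩
        fin_cases b
        exacts [h1 i, h2 i])
    rw [(hv l).2.1]
    convert this using 1
    rw [Fintype.sum_prod_type]
    refine sum_congr rfl fun i _ => ?_
    rw [Fin.sum_univ_two, h3 i]
    simp only [y, Matrix.cons_val_zero, Matrix.cons_val_one, Fin.val_zero, Fin.val_one]
    ring
  have hlt : ∀ m, m < D.q ^ m := fun m => Nat.lt_pow_self hq
  have hcard : Fintype.card (Fin n × Fin 2) = 2 * n := by simp [mul_comm]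
  obtain ⟨G, hG0, hGv, hG⟩ := cnt k F (Fin n × Fin 2) (U1 k z) D.θ
    (fun p => D.ph (v p.1) 0 (e + a + p.2) 0) (2 * n) a ν B1 _ (D.q ^ (K + 2 * P0))
    (B1 + (K + 2 * P0 + 1) * (2 * n)) hfg hU1 hpar.2.1 ha hC1 (fun p => (hdat p.1).2.2 p.2)
    (by rwa [hcard]) (by
      rw [hk, hcard, ← pow_add, show K + 2 * P0 =
        2 * n * ν + 1 + (a + 1 + (e + 2 * (P0 + c1) + 1)) by omega, pow_add _ (2 * n * ν + 1)]
      refine le_trans ?_ (Nat.mul_le_mul_right _ (hlt (2 * n * ν + 1)).le)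
      rw [add_mul, one_mul, add_comm]
      exact Nat.add_le_add_left (Nat.pow_le_pow_right (by omega) (by omega)) _) (by
      rw [hk, pow_add _ B1, pow_mul D.q (K + 2 * P0 + 1), pow_succ' D.q (K + 2 * P0)]
      exact Nat.mul_lt_mul_of_lt_of_le (hlt B1)
        (Nat.pow_le_pow_left (Nat.mul_le_mul_right _ hq) _) (by positivity))
  obtain ⟨α0, hne⟩ : ∃ α0, (G α0).eval D.θ ≠ 0 := by
    by_contra! h0
    refine hG0 (funext fun α => ?_)
    have h3 := hT _ (c1_cc hUW hkW (hG α).2)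
    rw [h0, norm_zero, mul_zero] at h3
    refine taylor_injective D.θ ?_
    rw [Pi.zero_apply, map_zero]
    ext l
    rcases lt_or_ge l (Fintype.card k ^ a) with hl | hl
    · exact norm_le_zero_iff.1 (h3 l hl)
    · exact coeff_eq_zero_of_degree_lt
        ((degree_taylor _ _).trans_lt ((hG α).1.trans_le (by exact_mod_cast hl)))
  have hv1 : ∀ l, ‖v l‖ ≤ 1 := fun l => by
    have := (mul_le_mul_of_nonneg_left (le_self_pow₀ hθ.le (by have := (hv l).2.2.1; omega))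
      (norm_nonneg (v l))).trans (hv l).2.2.2
    exact (mul_le_iff_le_one_left (by linarith)).1 this
  rw [hk] at hLL hNP hG
  have a1 : (4 * a * n + 3) * P0 = 4 * a * n * P0 + 3 * P0 := by ring
  have a2 : ((c + κ) * A + 1) * P0 = c * (A * P0) + κ * (A * P0) + P0 := by ring
  have hvj : ∀ i, v (j i) = ω i / D.θ ^ s := fun i => (hv0 _ ⟨i, rfl⟩).1.trans (huj i).1
  refine mult ((4 * a * n + 3) * P0) (e + 2 * (P0 + c1) + 1) (A * P0)
    (1 + ∑ l, 2 * L l * D.q ^ (c * ((4 * a * n + 3) * P0))) (Fin n) v L j G α0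
    (by omega) (by omega) (by simp) (by rw [hA]; exact le_of_eq (by ring))
    (fun l => ⟨(hv l).2.2.1, hdat l, (hv l).2.2.2, le_add_left (single_le_sum
      (f := fun l => 2 * L l * D.q ^ (c * ((4 * a * n + 3) * P0)))
      (fun _ _ => Nat.zero_le _) (mem_univ l))⟩)
    (fun l l' h => le_trans (Nat.mul_le_mul_left _ (Nat.pow_le_pow_right (by omega) (by omega)))
      (hLL l l' h)) hj (fun i => ⟨hvj i, (hv0 _ ⟨i, rfl⟩).2⟩)
    (C1.np hθ hO hθO hper hj hvj hv1 (by omega) (fun l => ?_) hNP) (fun α => Gr.pw_mono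
      (Submodule.subset_span (Set.mem_insert _ _)) ?_ (hG α).2) hne (by omega) (by rw [hGv]; simp)
  · have b1 : L l * (D.q ^ P0 * 2) ≤ L l * D.q ^ (e + 2 * (P0 + c1) + 1) :=
      Nat.mul_le_mul_left _ ((Nat.mul_le_mul_left _ hq).trans
        (by rw [← pow_succ]; exact Nat.pow_le_pow_right (by omega) (by omega)))
    have b2 : D.q ^ P0 ≤ L l * D.q ^ P0 := Nat.le_mul_of_pos_left _ (hv l).2.2.1
    have b3 := hlt P0
    rw [← mul_assoc] at b1
    constructor <;> omega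
  · refine le_trans ?_ (Nat.pow_le_pow_right (by omega)
      (show 2 + (K + 2 * P0) + a * (B1 + (K + 2 * P0 + 1) * (2 * n)) ≤ _ by nlinarith))
    rw [pow_add _ (2 + _), pow_add _ 2, pow_mul]
    exact Nat.mul_le_mul_right _ (Nat.mul_le_mul_right _ (by nlinarith))

end Pool.Agent.CSU.SA.DS
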