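import Mathlib

/-! The Casoratian of a finite stable family under commuting linear substitutions. -/

namespace Pool.Agent.DS.DN

open MvPolynomial Finset

theorem det_ex {R β : Type} [CommRing R] [IsDomain R] : ∀ (r : ℕ) (w : β → Fin r → R),
    (∀ u : Fin r → R, (∀ b, ∑ s, w b s * u s = 0) → u = 0) →
    ∃ B : Fin r → β, (Matrix.of fun j => w (B j)).det ≠ 0 := by
  intro r
  induction r with
  | zero => intro w _; exact ⟨Fin.elim0, by simp⟩
  | succ r ih =>
    intro w hw
    obtain ⟨B, hB⟩ := ih (fun b s => w b s.succ) (fun u hu => by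
      have := hw (Fin.cons 0 u) (fun b => by simpa [Fin.sum_univ_succ] using hu b)
      funext s
      simpa using congrFun this s.succ)
    by_contra hc
    push Not at hc
    have := hw (fun s => (-1) ^ (s : ℕ) * (Matrix.of fun j t => w (B j) (s.succAbove t)).det)
      (fun b => by
        have h := hc (Fin.cons b B)
        rw [Matrix.det_succ_row_zero] at h
        rw [← h]
        refine sum_congr rfl fun s _ => ?_
        have : ((Matrix.of fun j => w ((Fin.cons b B : Fin (r + 1) → β) j)).submatrix Fin.succ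
            s.succAbove) = Matrix.of fun j t => w (B j) (s.succAbove t) := by
          ext j t; simp
        rw [this]
        simp
        ring)
    apply hB
    simpa using congrFun this 0

theorem det_ex' {R β : Type} [CommRing R] [IsDomain R] (r : ℕ) (w : β → Fin r → R) (b0 : β)
    (hw : ∀ u : Fin r → R, (∀ b, ∑ s, w b s * u s = 0) → u = 0) (h0 : w b0 ≠ 0) :
    ∃ (B : Fin r → β) (j : Fin r), B j = b0 ∧ (Matrix.of fun j => w (B j)).det ≠ 0 := by
  obtain ⟨B, hB⟩ := det_ex r w hw
  by_contra hc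
  push Not at hc
  have h1 : Matrix.cramer (Matrix.of fun j => w (B j)).transpose (w b0) = 0 := by
    funext j
    rw [Matrix.cramer_transpose_apply]
    have := hc (Function.update B j b0) j (by simp)
    rw [Pi.zero_apply, ← this]
    congr 1
    ext i s
    by_cases h : i = j
    · subst h; simp
    · simp [Matrix.updateRow_ne h, Function.update_of_ne h]
  have h2 := Matrix.mulVec_cramer (Matrix.of fun j => w (B j)).transpose (w b0)
  rw [h1, Matrix.mulVec_zero, Matrix.det_transpose] at h2
  exact h0 ((smul_eq_zero.mp h2.symm).resolve_left hB)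

variable {D ι : Type} [CommRing D] [IsDomain D] [Fintype ι] [DecidableEq ι]

/-- The substitution `Y ↦ Ψ B`. -/
noncomputable def tau (Ψ : Matrix ι ι (MvPolynomial ι D)) (B : ι → D) :
    MvPolynomial ι D →ₐ[D] MvPolynomial ι D := aeval fun v => ∑ κ, Ψ v κ * C (B κ)

theorem tau_ind (Ψ : Matrix ι ι (MvPolynomial ι D)) (hΨ : Ψ.det ≠ 0) (Λ : Set D)
    (hΛ : Λ.Infinite) (r : ℕ) (ρ : Fin r → MvPolynomial ι D) (hρ : LinearIndependent D ρ)
    (u : Fin r → MvPolynomial ι D)
    (hu : ∀ B : ι → D, (∀ v, B v ∈ Λ) → ∑ s, tau Ψ B (ρ s) * u s = 0) : u = 0 := by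
  let T : MvPolynomial ι D →ₐ[D] MvPolynomial ι (MvPolynomial ι D) :=
    aeval fun v => ∑ κ, C (Ψ v κ) * X κ
  have hH : ∑ s, T (ρ s) * C (u s) = 0 := by
    refine funext_set (fun _ => (C : D → MvPolynomial ι D) '' Λ)
      (fun _ => hΛ.image (C_injective ι D).injOn) fun x hx => ?_
    choose B hB using fun v => hx v (Set.mem_univ v)
    have e : (eval x).comp T.toRingHom = (tau Ψ B).toRingHom := by
      refine ringHom_ext (fun a => ?_) fun v => ?_
      · simp [T, tau]
      · simp [T, tau, (hB _).2]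
    rw [map_zero, ← hu B fun v => (hB v).1, map_sum]
    refine sum_congr rfl fun s _ => ?_
    rw [map_mul, eval_C]
    exact congrArg (· * u s) (RingHom.congr_fun e (ρ s))
  let K := FractionRing (MvPolynomial ι D)
  let φ : MvPolynomial ι D →+* K := algebraMap _ K
  have hφ : Function.Injective φ := IsFractionRing.injective _ K
  have hu' : IsUnit (Ψ.map φ).det := by
    rw [← RingHom.mapMatrix_apply, ← RingHom.map_det]
    exact isUnit_iff_ne_zero.mpr ((map_ne_zero_iff φ hφ).mpr hΨ)
  let g : MvPolynomial ι (MvPolynomial ι D) →+* MvPolynomial ι K :=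
    eval₂Hom (C.comp φ) fun κ => ∑ w, C ((Ψ.map φ)⁻¹ κ w) * X w
  have e : g.comp T.toRingHom = MvPolynomial.map (φ.comp C) := by
    refine ringHom_ext (fun a => ?_) fun v => ?_
    · simp [T, g]
    · have h1 := Matrix.mul_nonsing_inv _ hu'
      simp only [T, g, RingHom.comp_apply, AlgHom.toRingHom_eq_coe, RingHom.coe_coe, aeval_X,
        map_sum, map_mul, eval₂Hom_C, eval₂Hom_X', map_X, mul_sum]
      rw [sum_comm]
      have h2 : ∀ w, ∑ κ, C (φ (Ψ v κ)) * (C ((Ψ.map φ)⁻¹ κ w) * X w) =
          (C ((1 : Matrix ι ι K) v w) * X w : MvPolynomial ι K) := fun w => by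
        rw [← h1, Matrix.mul_apply, map_sum, sum_mul]
        exact sum_congr rfl fun κ _ => by rw [map_mul, mul_assoc]; rfl
      simp [h2, Matrix.one_apply]
  have h3 : ∑ s, MvPolynomial.map (φ.comp C) (ρ s) * C (φ (u s)) = 0 := by
    have := congrArg g hH
    rw [map_sum, map_zero] at this
    rw [← this]
    refine sum_congr rfl fun s _ => ?_
    rw [map_mul, ← e]
    simp [g]
  have h4 : ∀ α, ∑ s, C (coeff α (ρ s)) * u s = 0 := fun α => by
    apply hφ
    have := congrArg (coeff α) h3
    rw [coeff_sum] at this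
    rw [map_sum, map_zero, ← coeff_zero α, ← this]
    refine sum_congr rfl fun s _ => ?_
    rw [mul_comm (MvPolynomial.map _ _), coeff_C_mul, coeff_map, map_mul, mul_comm]
    rfl
  funext s
  ext γ
  have h5 : ∑ s, coeff γ (u s) • ρ s = 0 := by
    ext α
    have := congrArg (coeff γ) (h4 α)
    rw [coeff_sum] at this ⊢
    rw [coeff_zero] at this ⊢
    rw [← this]
    exact sum_congr rfl fun s _ => by rw [coeff_C_mul, coeff_smul, smul_eq_mul, mul_comm]
  simpa using Fintype.linearIndependent_iff.mp hρ _ h5 s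

/-- The first dependence among the iterates. -/
theorem first_dep (S : MvPolynomial ι D → MvPolynomial ι D)
    (hd : ∀ f, (S f).totalDegree ≤ f.totalDegree) (f : MvPolynomial ι D) (hf : f ≠ 0) :
    ∃ r : ℕ, LinearIndependent D (fun s : Fin (r + 1) => S^[s] f) ∧
      ∃ (a : D) (m : Fin (r + 1) → D), a ≠ 0 ∧ a • S^[r + 1] f = ∑ s, m s • S^[s] f := by
  classical
  have hdeg : ∀ s, (S^[s] f).totalDegree ≤ f.totalDegree := fun s => by
    induction s with
    | zero => exact le_rfl
    | succ s ih => rw [Function.iterate_succ_apply']; exact (hd _).trans ih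
  have hex : ∃ r, ¬ LinearIndependent D (fun s : Fin (r + 1) => S^[s] f) := by
    by_contra hc
    push Not at hc
    set W := restrictTotalDegree ι D f.totalDegree
    have h := hc (Module.finrank D W)
    have h' : LinearIndependent D (fun s : Fin (Module.finrank D W + 1) =>
        (⟨S^[s] f, (mem_restrictTotalDegree _ _ _).mpr (hdeg s)⟩ : W)) :=
      LinearIndependent.of_comp W.subtype h
    simpa using h'.fintype_card_le_finrank
  have h0 : Nat.find hex ≠ 0 := fun h => by
    have := Nat.find_spec hex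
    rw [h] at this
    exact this ((linearIndependent_unique_iff (ι := Fin 1)).mpr (by simpa using hf))
  obtain ⟨r, hr⟩ := Nat.exists_eq_succ_of_ne_zero h0
  have h1 : LinearIndependent D (fun s : Fin (r + 1) => S^[s] f) := by
    by_contra h
    exact Nat.find_min hex (by omega : r < Nat.find hex) h
  have h2 := Nat.find_spec hex
  rw [hr, Fintype.not_linearIndependent_iff] at h2
  obtain ⟨g, hg, i, hi⟩ := h2
  rw [Fin.sum_univ_castSucc] at hg
  refine ⟨r, h1, g (Fin.last _), fun s => -g s.castSucc, fun h => ?_, ?_⟩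
  · rw [h, zero_smul, add_zero] at hg
    have := Fintype.linearIndependent_iff.mp h1 (fun s => g s.castSucc) hg
    exact hi (Fin.lastCases h this i)
  · simp only [neg_smul, sum_neg_distrib]
    exact eq_neg_of_add_eq_zero_right hg

/-- An eigen-polynomial in the ideal of the iterates. -/
theorem cas (S : MvPolynomial ι D →+* MvPolynomial ι D)
    (hd : ∀ f, (S f).totalDegree ≤ f.totalDegree) (Ψ : Matrix ι ι (MvPolynomial ι D))
    (hΨ : Ψ.det ≠ 0) (Λ : Set D) (hΛ : Λ.Infinite)
    (hc : ∀ B : ι → D, (∀ v, B v ∈ Λ) → ∀ f, S (tau Ψ B f) = tau Ψ B (S f)) (B0 : ι → D)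
    (h0 : ∀ v, B0 v ∈ Λ) (h1 : ∀ f, tau Ψ B0 f = f) (f : MvPolynomial ι D) (hf : f ≠ 0) :
    ∃ g : MvPolynomial ι D, g ≠ 0 ∧ (∃ a b : D, a ≠ 0 ∧ C a * S g = C b * g) ∧
      ∀ (K : Type) [CommRing K] (φ : MvPolynomial ι D →+* K), (∀ s, φ (S^[s] f) = 0) → φ g = 0 := by
  obtain ⟨r, hi, a, m, ha, hm⟩ := first_dep S hd f hf
  obtain ⟨B, j, hj, hB⟩ := det_ex' (r + 1)
    (fun (B : {B : ι → D // ∀ v, B v ∈ Λ}) (s : Fin (r + 1)) => tau Ψ B.1 (S^[s] f)) ⟨B0, h0⟩
    (fun u hu => tau_ind Ψ hΨ Λ hΛ _ _ hi u fun B hB => hu ⟨B, hB⟩)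
    (fun h => hf (by simpa [h1] using congrFun h 0))
  let N : Matrix (Fin (r + 1)) (Fin (r + 1)) D := Matrix.of fun t s =>
    Fin.lastCases (m t) (fun s' => if t = s'.succ then a else 0) s
  have hN : ∀ s : Fin (r + 1), a • S^[s + 1] f = ∑ t, N t s • S^[t] f := fun s => by
    refine Fin.lastCases ?_ (fun s' => ?_) s
    · simpa [N] using hm
    · simp [N]
  refine ⟨_, hB, ⟨a ^ (r + 1), N.det, pow_ne_zero _ ha, ?_⟩, fun K _ φ hφ => ?_⟩
  · set M := Matrix.of fun j (s : Fin (r + 1)) => tau Ψ (B j).1 (S^[s] f)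
    have e : (C a : MvPolynomial ι D) • S.mapMatrix M = M * (C : D →+* _).mapMatrix N := by
      ext1 i s
      have := congrArg (tau Ψ (B i).1) (hN s)
      rw [map_smul, map_sum, Function.iterate_succ_apply', ← hc _ (B i).2] at this
      simp only [Matrix.smul_apply, smul_eq_mul, RingHom.mapMatrix_apply, Matrix.map_apply, M,
        Matrix.of_apply, Matrix.mul_apply]
      rw [← smul_eq_C_mul, this]
      exact sum_congr rfl fun t _ => by rw [map_smul, smul_eq_C_mul, mul_comm]
    have := congrArg Matrix.det e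
    rw [Matrix.det_smul, Matrix.det_mul, ← RingHom.map_det, ← RingHom.map_det] at this
    rw [mul_comm (C N.det), ← this]
    simp
  · rw [RingHom.map_det]
    refine Matrix.det_eq_zero_of_row_eq_zero j fun s => ?_
    simp [hj, h1, hφ]

end Pool.Agent.DS.DN
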