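import Pool.Agent.Lib.MP_0c15f2_nt.DS.An0

/-! Endomorphisms and multipliers of the exponential. -/

namespace Pool.Agent.CSU.SA.DS

open Polynomial Finset Filter Topology Pool.Agent.DS0

variable {k F : Type} [Field k] [Fintype k] [NormedField F] [Algebra k F] {D : DM F}

namespace DM.Ok0

variable (h : D.Ok0 k)
include h

theorem rh_sub (x y : F) :
    rh D.q D.θ D.g D.Δ (x - y) = rh D.q D.θ D.g D.Δ x - rh D.q D.θ D.g D.Δ y := by
  have := h.fr.sub_pow 1 x y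
  simp only [pow_one] at this
  rw [rh, rh, rh, this, h.fr.sub_pow]; ring

variable [IsUltrametricDist F]

theorem norm_rh {x : F} (hx : ‖x‖ ≤ 1) : ‖rh D.q D.θ D.g D.Δ x‖ ≤ ‖D.θ‖ * ‖x‖ := by
  have hq := h.fr.lt
  have e : ∀ (c : F) (n : ℕ), ‖c‖ ≤ 1 → n ≠ 0 → ‖c * x ^ n‖ ≤ ‖D.θ‖ * ‖x‖ := fun c n hc hn => by
    rw [norm_mul, norm_pow]
    exact mul_le_mul (hc.trans h.2.1.le) (pow_le_of_le_one (norm_nonneg _) hx hn) (by positivity)
      (norm_nonneg _)
  refine (IsUltrametricDist.norm_add_le_max _ _).trans (max_le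
    ((IsUltrametricDist.norm_add_le_max _ _).trans (max_le (norm_mul _ _).le ?_)) ?_)
  · exact e _ _ h.2.2.1 (by omega)
  · exact e _ _ h.2.2.2 (by positivity)

/-- A division tower which decreases faster than `θ ^ (-m)` vanishes. -/
theorem tower_zero (x : ℕ → F) (hx : ∀ m, rh D.q D.θ D.g D.Δ (x (m + 1)) = x m)
    (ht : Tendsto (fun m => D.θ ^ m * x m) atTop (𝓝 0)) : x 0 = 0 := by
  have key : ∀ m, ‖D.θ ^ m * x m‖ ≤ 1 → ‖x 0‖ ≤ ‖D.θ ^ m * x m‖ := by
    intro m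
    induction m with
    | zero => simp
    | succ m ih =>
      intro hm
      have h1 : ‖x (m + 1)‖ ≤ 1 := by
        refine le_trans ?_ hm
        rw [norm_mul, norm_pow]
        exact le_mul_of_one_le_left (norm_nonneg _) (one_le_pow₀ h.2.1.le)
      have h2 : ‖D.θ ^ m * x m‖ ≤ ‖D.θ ^ (m + 1) * x (m + 1)‖ := by
        rw [← hx m, pow_succ, mul_assoc, norm_mul, norm_mul, norm_mul]
        exact mul_le_mul_of_nonneg_left (h.norm_rh h1) (norm_nonneg _)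
      exact (ih (h2.trans hm)).trans h2
  have hn := tendsto_zero_iff_norm_tendsto_zero.1 ht
  exact norm_le_zero_iff.1 (ge_of_tendsto hn ((hn.eventually_le_const one_pos).mono key))

variable [CompleteSpace F]

/-- An endomorphism acts on the exponential through its tangent map. -/
theorem com_ex {ψ : F[X]} (hψ : D.Com ψ) (z : F) :
    D.ex (ψ.coeff 0 * z) = ql D.q ψ (D.ex z) := by
  let _ : NontriviallyNormedField F := ⟨D.θ, h.2.1⟩
  have e0 : D.ex 0 = 0 := by simpa using h.ex_add 0 0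
  have hd : HasDerivAt D.ex 1 0 := by
    rw [hasDerivAt_iff_isLittleO_nhds_zero]
    refine Asymptotics.IsBigO.trans_isLittleO (g := fun z : F => z ^ 2) ?_
      (Asymptotics.isLittleO_pow_id one_lt_two)
    refine Asymptotics.IsBigO.of_bound 1 ?_
    filter_upwards [Metric.closedBall_mem_nhds (0 : F) one_pos] with z hz
    simpa [e0] using h.near z (by simpa using hz)
  obtain ⟨R, hR, hc⟩ := lin_eval h.fr.lt ψ
  have h1 : HasDerivAt (fun z => D.ex (ψ.coeff 0 * z)) (1 * ψ.coeff 0) 0 := by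
    refine HasDerivAt.comp (0 : F) (h₂ := D.ex) (by simpa using hd) ?_
    simpa using (hasDerivAt_id (0 : F)).const_mul (ψ.coeff 0)
  have h2 : HasDerivAt (fun z => R.eval (D.ex z)) (R.derivative.eval (D.ex 0) * 1) 0 :=
    (R.hasDerivAt _).comp (0 : F) hd
  have h3 := h1.sub h2
  have c1 : R.coeff 1 = ψ.coeff 0 := by simpa using hc 0
  have r0 : R.eval 0 = 0 := by
    rw [hR, DS0.lin, Polynomial.sum]
    exact sum_eq_zero fun i _ => by rw [zero_pow (pow_pos (one_pos.trans h.fr.lt) _).ne', mul_zero]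
  rw [e0, ← coeff_zero_eq_eval_zero, coeff_derivative, hasDerivAt_iff_isLittleO_nhds_zero] at h3
  simp only [zero_add, c1, Pi.sub_apply, mul_zero, e0, r0, Nat.cast_zero, mul_one, one_mul,
    sub_self, smul_zero, sub_zero] at h3
  have t0 := h.θ0
  have hz : Tendsto (fun m : ℕ => z / D.θ ^ m) atTop (𝓝 0) := by
    have := (tendsto_pow_atTop_nhds_zero_of_norm_lt_one (x := D.θ⁻¹)
      (by rw [norm_inv]; exact inv_lt_one_of_one_lt₀ h.2.1)).const_mul z
    simpa [div_eq_mul_inv] using this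
  have := h.tower_zero (fun m => D.ex (ψ.coeff 0 * (z / D.θ ^ m)) - R.eval (D.ex (z / D.θ ^ m)))
    (fun m => ?_) ?_
  · rw [pow_zero, div_one, sub_eq_zero, hR] at this
    exact this
  · have e : z / D.θ ^ m = D.θ * (z / D.θ ^ (m + 1)) := by field_simp; ring
    rw [h.rh_sub, ← h.ex_th, hR, hR, e, h.ex_th (z / _), mul_left_comm]
    exact congrArg _ (hψ _).symm
  · have := (Asymptotics.isBigO_refl (fun m : ℕ => D.θ ^ m) atTop).mul_isLittleO
      (h3.comp_tendsto hz)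
    refine (this.trans_isBigO (k := fun _ => (1 : F)) ?_).tendsto_div_nhds_zero.congr (by simp)
    refine (Asymptotics.isBigO_const_const z one_ne_zero atTop).congr_left fun m => ?_
    simp only [Function.comp]
    field_simp

end DM.Ok0

variable [IsUltrametricDist F] [CompleteSpace F] [IsAlgClosed F]

theorem DM.Ok.mem_O (h : D.Ok k) {β : F} :
    β ∈ h.exH.O ↔ ∃ ψ : F[X], ∀ z, D.ex (β * z) = ql D.q ψ (D.ex z) := by
  rw [h.1]; rfl

theorem DM.Ok.end_of (h : D.Ok k) {β : F} {ψ : F[X]} (hψ : ∀ z, D.ex (β * z) = ql D.q ψ (D.ex z)) :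
    ψ.coeff 0 = β ∧ D.Com ψ := by
  rw [h.1] at hψ
  refine ⟨h.exH.coeff_zero h.w.near hψ, fun x => ?_⟩
  rw [h.1]
  exact h.exH.comm hψ x

theorem DM.Ok.end_iff (h : D.Ok k) {β : F} : D.End β ↔ β ∈ h.exH.O := by
  rw [h.mem_O]
  exact ⟨fun ⟨ψ, e, c⟩ => ⟨ψ, e ▸ h.w.com_ex c⟩, fun ⟨ψ, e⟩ => ⟨ψ, h.end_of e⟩⟩

theorem DM.Ok.bas (h : D.Ok k) : ∃ ω₁ ω₂, D.Bas k ω₁ ω₂ ∧
    D.ex (ω₁ / D.θ) * D.ex (ω₂ / D.θ) ^ D.q - D.ex (ω₂ / D.θ) * D.ex (ω₁ / D.θ) ^ D.q ≠ 0 := by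
  obtain ⟨o1, o2, hk, hn, hM, h1, h2⟩ := h.exH.lat0
  exact ⟨o1, o2, ⟨(hk _).2 ⟨1, 0, by simp⟩, (hk _).2 ⟨0, 1, by simp⟩, h1, h2,
    fun a b => by rw [hn]; exact ⟨le_max_left _ _, le_max_right _ _⟩, fun v => (hk v).1⟩,
    h.1 ▸ hM⟩

end Pool.Agent.CSU.SA.DS
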