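import Pool.Agent.Lib.MP_0c15f2_nt.DS.St
import Pool.Agent.Lib.MP_0c15f2_nt.DS.End0

/-! Endomorphisms and the exponential. -/

namespace Pool.Agent.CSU.SA.DS

open Polynomial Finset Pool.Agent.DS0

variable {k F : Type} [Field k] [Fintype k] [NormedField F] [Algebra k F] {D : DM F}
  [IsUltrametricDist F] [CompleteSpace F] [IsAlgClosed F]

theorem DM.Ok.norm_end (h : D.Ok k) {β : F} {ψ : F[X]}
    (hψ : ∀ z, D.ex (β * z) = ql D.q ψ (D.ex z)) : ‖β‖ ≤ ‖D.θ‖ ^ ψ.natDegree := by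
  classical
  by_contra hc
  rw [not_le] at hc
  have tp := h.w.θpos
  have hβ : β ≠ 0 := norm_pos_iff.1 ((pow_pos tp _).trans hc)
  obtain ⟨w, hw, hw'⟩ := h.exH.exists_out h.exH.zero
  obtain ⟨o, ⟨eo, no⟩, mo⟩ := h.exH.exists_min (· ≠ 0) hw (by simpa using hw' 0)
  let R : F[X] := ∑ i ∈ ψ.support, monomial (D.q ^ i) (ψ.coeff i)
  have hR : ∀ x, R.eval x = ql D.q ψ x := fun x => by
    simp [R, ql, eval_finsetSum, Polynomial.sum]
  have hd : R.natDegree ≤ D.q ^ ψ.natDegree := natDegree_sum_le_of_forall_le _ _ fun i hi =>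
    (natDegree_monomial_le _).trans
      (Nat.pow_le_pow_right h.w.fr.lt.le (le_natDegree_of_mem_supp i hi))
  have h0 : R ≠ 0 := fun e => by
    have := hψ (D.θ / β)
    rw [← hR, e, eval_zero, mul_div_cancel₀ _ hβ] at this
    exact absurd (h.exH.big this h.w.θ0) (lt_irrefl _)
  let a : (Fin (ψ.natDegree + 1) → k) → k[X] := fun c => (degreeLTEquiv k _).symm c
  have := Finset.card_le_card_of_injOn (s := univ) (t := R.roots.toFinset)
    (fun c => D.ex (aeval D.θ (a c) * o / β)) (fun c _ => ?_) fun c _ c' _ e => ?_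
  · have := (this.trans ((Multiset.toFinset_card_le _).trans (card_roots' R))).trans hd
    rw [card_univ, Fintype.card_fun, Fintype.card_fin, ← h.1] at this
    exact absurd this (not_le.2 (Nat.pow_lt_pow_right h.w.fr.lt (Nat.lt_succ_self _)))
  · rw [mem_coe, Multiset.mem_toFinset, mem_roots h0, IsRoot, hR, ← hψ, mul_div_cancel₀ _ hβ]
    exact h.exH.ker_aev eo _
  · by_contra hne
    have hne' : a c - a c' ≠ 0 := sub_ne_zero.2 fun e =>
      hne ((degreeLTEquiv k _).symm.injective (Subtype.ext e))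
    have hdeg : (a c - a c').natDegree ≤ ψ.natDegree := Nat.lt_succ_iff.1
      ((natDegree_lt_iff_degree_lt hne').2 (mem_degreeLT.1 (sub_mem (Subtype.prop _) (Subtype.prop _))))
    have hn := norm_aeval hk_fin h.2.1 hne'
    have e1 : D.ex (aeval D.θ (a c - a c') * o / β) = 0 := by
      rw [map_sub, sub_mul, sub_div, h.exH.sub]; exact sub_eq_zero.2 e
    have := mo _ e1 (div_ne_zero (mul_ne_zero (norm_pos_iff.1 (hn ▸ pow_pos tp _)) no) hβ)
    rw [norm_div, norm_mul, hn, le_div_iff₀ (norm_pos_iff.2 hβ), mul_comm] at this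
    exact absurd (le_of_mul_le_mul_right this (norm_pos_iff.2 no))
      (not_le.2 ((pow_le_pow_right₀ h.2.1.le hdeg).trans_lt hc))

omit [IsAlgClosed F] in
theorem DM.Ok.ph_end (h : D.Ok k) {β : F} {ψ : F[X]}
    (hψ : ∀ z, D.ex (β * z) = ql D.q ψ (D.ex z)) (z : F) {m j : ℕ} (hj : j < m) :
    D.ph (β * z) 0 m j = ψ.sum fun i a => a ^ D.q ^ m * D.ph z 0 (m + i) j := by
  have h1 := h.w.tower (β * z) hj
  simp only [mul_div_assoc] at h1
  have h2 := ExH.hasSum_mul (k := k) (ex := D.ex) (b := β) (P := ψ) (h.1 ▸ hψ)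
    (fun i => (D.θ ^ D.q ^ j) ^ i) (fun i => z / D.θ ^ (i + 1)) m (fun i => D.ph z 0 (m + i) j)
    fun i => h.1 ▸ h.w.tower z (by omega)
  rw [← h.1] at h2
  exact h1.unique h2

theorem ends : EndS := fun _ _ _ _ _ _ _ _ _ _ _ h hψ =>
  ⟨h.w.com_ex hψ, h.norm_end (h.w.com_ex hψ), fun z _ hm => h.ph_end (h.w.com_ex hψ) z hm⟩

end Pool.Agent.CSU.SA.DS
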