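import Pool.Agent.Lib.MP_0c15f2_nt.DS.Lat
import Pool.Agent.Lib.MP_0c15f2_nt.DS.End

/-! Points with algebraic data. -/

namespace Pool.Agent.CSU.SA.DS

open Polynomial Finset Filter Topology Pool.Agent.DS0

namespace Da

section Alg

variable {F : Type} [Field F] {q : ℕ}

/-- The polynomial `∑ ψ i * X ^ q ^ i`. -/
noncomputable def qP (q : ℕ) (ψ : F[X]) : F[X] := ∑ i ∈ ψ.support, monomial (q ^ i) (ψ.coeff i)

theorem qP_eval (ψ : F[X]) (x : F) : (qP q ψ).eval x = ql q ψ x := by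
  simp [qP, ql, Polynomial.sum, eval_finsetSum]

theorem qP_one (hq : 1 < q) (ψ : F[X]) : (qP q ψ).coeff 1 = ψ.coeff 0 := by
  rw [qP, finsetSum_coeff, sum_eq_single 0]
  · simp
  · intro i _ hi
    rw [coeff_monomial, if_neg (Nat.one_lt_pow hi hq).ne']
  · intro h0
    simp [notMem_support_iff.1 h0]

theorem qP_mem (L : Subfield F) {ψ : F[X]} (h : ∀ i, ψ.coeff i ∈ L) (n : ℕ) :
    (qP q ψ).coeff n ∈ L := by
  rw [qP, finsetSum_coeff]
  refine sum_mem fun i _ => ?_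
  rw [coeff_monomial]
  split_ifs
  exacts [h i, zero_mem _]

theorem root_mem (L : Subfield F) (hL : ∀ x, IsAlgebraic L x → x ∈ L) {P : F[X]}
    (hP : ∀ n, P.coeff n ∈ L) (h0 : P ≠ 0) {x : F} (hx : P.eval x = 0) : x ∈ L := by
  obtain ⟨Q, rfl⟩ := (mem_lifts _).1 ((lifts_iff_coeff_lifts (f := algebraMap L F) P).2
    fun n => ⟨⟨_, hP n⟩, rfl⟩)
  exact hL _ ⟨Q, fun e => h0 (by rw [e, Polynomial.map_zero]), by rwa [aeval_def, ← eval_map]⟩

theorem ql_root (hq : 1 < q) (L : Subfield F) (hL : ∀ x, IsAlgebraic L x → x ∈ L) {ψ : F[X]}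
    (h : ∀ i, ψ.coeff i ∈ L) (h0 : ψ.coeff 0 ≠ 0) {x : F} (hx : ql q ψ x ∈ L) : x ∈ L := by
  refine root_mem L hL (P := qP q ψ - C (ql q ψ x)) (fun n => ?_) (fun e => h0 ?_) ?_
  · rw [coeff_sub, coeff_C]
    refine sub_mem (qP_mem L h n) ?_
    split_ifs
    exacts [hx, zero_mem _]
  · have := congrArg (coeff · 1) e
    simpa [qP_one hq, coeff_C] using this
  · rw [eval_sub, qP_eval, eval_C, sub_self]

/-- The elements that are algebraic over `k[T]`. -/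
noncomputable def aL (k : Type) [Field k] [Algebra k F] (T : Set F) : Subfield F :=
  { (Subalgebra.algebraicClosure (Algebra.adjoin k T) F).toSubring with
    inv_mem' := fun _ h => IsAlgebraic.inv h }

theorem alg_alg (R : Type) [CommRing R] [IsDomain R] [Algebra R F] {x : F}
    (h : IsAlgebraic (Subalgebra.algebraicClosure R F) x) : IsAlgebraic R x :=
  h.restrictScalars R

theorem aL_closed {k : Type} [Field k] [Algebra k F] (T : Set F) (x : F)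
    (h : IsAlgebraic (aL k T) x) : x ∈ aL k T :=
  alg_alg (Algebra.adjoin k T) h

theorem aL_k {k : Type} [Field k] [Algebra k F] (T : Set F) (c : k) :
    algebraMap k F c ∈ aL k T :=
  isAlgebraic_algebraMap (R := Algebra.adjoin k T) (A := F) (algebraMap k _ c)

end Alg

variable {k F : Type} [Field k] [Fintype k] [NormedField F] [Algebra k F] {D : DM F}

variable [IsUltrametricDist F] [CompleteSpace F]

theorem ph_mem (h : D.Ok k) (L : Subfield F) (hθ : D.θ ∈ L) (hg : D.g ∈ L) (hΔ : D.Δ ∈ L)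
    (h2 : An2S) {u : F} (hu : u ∈ L) (he : D.ex u ∈ L) (hs : D.qs u ∈ L) (m : ℕ) :
    D.ph u 0 (m + 1) 0 ∈ L ∧ D.ph u 0 (m + 2) 0 ∈ L := by
  obtain ⟨a1, a2, -⟩ := h2 k F D h
  induction m with
  | zero =>
    refine ⟨(a2 u).1 ▸ hs, ?_⟩
    rw [(eq_inv_mul_iff_mul_eq₀ h.2.2.2.2).2 (a2 u).2]
    exact mul_mem (inv_mem hΔ) (sub_mem (sub_mem he hu) (mul_mem hg hs))
  | succ m ih =>
    refine ⟨ih.2, ?_⟩
    have hA : D.A (m + 1) ∈ L := inv_mem (pow_mem hΔ _)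
    have hG : D.G (m + 1) ∈ L := neg_mem (mul_mem (pow_mem hg _) hA)
    rw [((a1 (m + 1) (by omega)).2.2 u).2.1]
    exact add_mem (add_mem (mul_mem (mul_mem hA (sub_mem hθ (pow_mem hθ _))) ih.1)
      (mul_mem hG ih.2)) (mul_mem hA (pow_mem he _))

theorem qs_aev (h : D.Ok0 k) (L : Subfield F) (hk : ∀ c, algebraMap k F c ∈ L) (hθ : D.θ ∈ L)
    (hg : D.g ∈ L) (hΔ : D.Δ ∈ L) {u : F} (he : D.ex u ∈ L) (a : k[X]) :
    D.ex (aeval D.θ a * u) ∈ L ∧ D.qs (aeval D.θ a * u) - aeval D.θ a * D.qs u ∈ L := by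
  induction a using Polynomial.induction_on with
  | C c =>
    rw [aeval_C, h.ex_smul, D.qs_eq, D.qs_eq, h.ph_smul _ _ _ one_pos, sub_self]
    exact ⟨mul_mem (hk c) he, zero_mem _⟩
  | add a b ha hb =>
    rw [map_add, add_mul, add_mul, h.ex_add, D.qs_eq, h.ph_add _ _ _ one_pos, ← D.qs_eq,
      ← D.qs_eq, add_sub_add_comm]
    exact ⟨add_mem ha.1 hb.1, add_mem ha.2 hb.2⟩
  | monomial n c ih =>
    rw [pow_succ, ← mul_assoc, map_mul _ _ X, aeval_X, mul_comm _ D.θ, mul_assoc, mul_assoc,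
      h.ex_th, h.qs_th, add_sub_right_comm, ← mul_sub]
    exact ⟨add_mem (add_mem (mul_mem hθ ih.1) (mul_mem hg (pow_mem ih.1 _)))
      (mul_mem hΔ (pow_mem ih.1 _)), add_mem (mul_mem hθ ih.2) (pow_mem ih.1 _)⟩

end Da

open Da

theorem da : DaS := by
  intro k F _ _ _ _ _ _ _ D T h hθ hg hΔ
  have hL := aL_closed (k := k) T
  change D.θ ∈ aL k T at hθ
  change D.g ∈ aL k T at hg
  change D.Δ ∈ aL k T at hΔ
  have hc : ∀ ψ, D.Com ψ → ∀ i, ψ.coeff i ∈ aL k T := fun ψ hψ i =>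
    h.exH.psi_mem _ hL hθ hg hΔ (b := ψ.coeff 0) (fun z => h.1 ▸ (ends k F D ψ h hψ).1 z) i
  have hp : ∀ u m, 1 ≤ m → D.DA k T u → D.ph u 0 m 0 ∈ aL k T := fun u m hm hu => by
    obtain ⟨m, rfl⟩ := Nat.exists_eq_add_of_le' hm
    exact (ph_mem h (aL k T) hθ hg hΔ an2 hu.1 hu.2.1 hu.2.2 m).1
  have hm : ∀ β u, D.End β → D.DA k T u → D.DA k T (β * u) := by
    rintro _ u ⟨ψ, rfl, hψ⟩ hu
    refine ⟨(aL k T).mul_mem (hc ψ hψ 0) hu.1, ?_, ?_⟩
    · rw [(ends k F D ψ h hψ).1]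
      exact (aL k T).sum_mem fun i _ => mul_mem (hc ψ hψ i) ((aL k T).pow_mem hu.2.1 _)
    · rw [D.qs_eq, (ends k F D ψ h hψ).2.2 u 1 le_rfl]
      exact (aL k T).sum_mem fun i _ => mul_mem (pow_mem (hc ψ hψ i) _) (hp u _ (by omega) hu)
  refine ⟨fun u v hu hv => ⟨hu.1.add hv.1, ?_, ?_⟩, hm, fun β u hβ h0 hu => ?_, hp,
    fun u s hu => ?_⟩
  · rw [h.w.ex_add]
    exact hu.2.1.add hv.2.1
  · rw [D.qs_eq, h.w.ph_add _ _ _ one_pos, ← D.qs_eq, ← D.qs_eq]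
    exact hu.2.2.add hv.2.2
  · obtain ⟨O, hO, -, hd, -⟩ := ord k F D h
    obtain ⟨-, β', hβ', a, ha, e⟩ := hd β ((hO β).2 hβ) h0
    have h3 := hm β' _ ((hO β').1 hβ') hu
    rw [← mul_assoc, e] at h3
    obtain ⟨ψ, rfl, hψ⟩ := hβ
    have he : D.ex u ∈ aL k T :=
      ql_root h.w.fr.lt _ hL (hc ψ hψ) h0 (by rw [← (ends k F D ψ h hψ).1]; exact hu.2.1)
    have ha0 : aeval D.θ a ≠ 0 :=
      norm_pos_iff.1 (norm_aeval norm_fin h.2.1 ha ▸ pow_pos h.w.θpos _)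
    have haL : aeval D.θ a ∈ aL k T := by
      rw [aeval_eq_sum_range]
      exact sum_mem fun i _ => by
        rw [Algebra.smul_def]; exact mul_mem (aL_k T _) (pow_mem hθ _)
    have h4 := (aL k T).sub_mem h3.2.2 (qs_aev h.w _ (aL_k T) hθ hg hΔ he a).2
    rw [sub_sub_cancel] at h4
    refine ⟨?_, he, ?_⟩
    · have := (aL k T).mul_mem (inv_mem haL) h3.1
      rwa [inv_mul_cancel_left₀ ha0] at this
    · have := (aL k T).mul_mem (inv_mem haL) h4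
      rwa [inv_mul_cancel_left₀ ha0] at this
  · have := h.exH.tors_mem _ hL hθ hg hΔ hu s
    rwa [mul_div_cancel_left₀ _ (pow_ne_zero _ h.w.θ0)] at this

end Pool.Agent.CSU.SA.DS
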