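import Pool.Agent.Lib.MP_0c15f2_nt.DS.Defs

/-! Drinfeld modules of rank two: block statements. -/

namespace Pool.Agent.CSU.SA.DS

open Polynomial Finset Module

/-- The exponential. -/
def An1S : Prop :=
  ∀ (k F : Type) [Field k] [Fintype k] [NormedField F] [IsUltrametricDist F] [CompleteSpace F]
    [Algebra k F] (D : DM F), D.Ok k → Uncountable F ∧ (∀ i, ‖D.al i‖ ≤ 1) ∧
    (∀ z, HasSum (fun i => D.al i * z ^ D.q ^ i) (D.ex z)) ∧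
    (∀ y z, D.ex (y + z) = D.ex y + D.ex z) ∧
    (∀ (c : k) z, D.ex (algebraMap k F c * z) = algebraMap k F c * D.ex z) ∧
    (∀ z, D.ex (D.θ * z) = rh D.q D.θ D.g D.Δ (D.ex z)) ∧
    (∀ z, ‖z‖ ≤ ‖D.θ‖ → ‖D.ex z‖ = ‖z‖) ∧ (∀ z, ‖z‖ ≤ 1 → ‖D.ex z - z‖ ≤ ‖z‖ ^ D.q) ∧
    ∀ W : Subfield F, IsClosed (W : Set F) → D.θ ∈ W → D.g ∈ W → D.Δ ∈ W → ∀ x ∈ W,
      ‖x‖ ≤ ‖D.θ‖ → ∃ z ∈ W, ‖z‖ = ‖x‖ ∧ D.ex z = x

/-- The values of the generating functions. -/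
def An2S : Prop :=
  ∀ (k F : Type) [Field k] [Fintype k] [NormedField F] [IsUltrametricDist F] [CompleteSpace F]
    [Algebra k F] (D : DM F), D.Ok k →
    (∀ m, 1 ≤ m → (∀ u v, D.ph (u + v) 0 m 0 = D.ph u 0 m 0 + D.ph v 0 m 0) ∧
      (∀ (c : k) u, D.ph (algebraMap k F c * u) 0 m 0 = algebraMap k F c * D.ph u 0 m 0) ∧
      ∀ u, D.ph (D.θ * u) 0 m 0 = D.θ * D.ph u 0 m 0 + D.ex u ^ D.q ^ m ∧
        D.ph u 0 (m + 2) 0 = D.A m * (D.θ - D.θ ^ D.q ^ m) * D.ph u 0 m 0 +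
          D.G m * D.ph u 0 (m + 1) 0 + D.A m * D.ex u ^ D.q ^ m ∧
        HasSum (fun n => D.θ ^ n * D.ex (u / D.θ ^ (n + 1)) ^ D.q ^ m) (D.ph u 0 m 0)) ∧
    (∀ u, D.ph u 0 1 0 = D.qs u ∧ D.Δ * D.ph u 0 2 0 = D.ex u - u - D.g * D.qs u) ∧
    (∀ u l m j, j < m → ‖u‖ ≤ ‖D.θ‖ → ‖D.ph u l m j‖ ≤ (‖u‖ / ‖D.θ‖) ^ D.q ^ m) ∧
    ∀ (W : Subfield F) (e : ℕ) (u : F), IsClosed (W : Set F) → D.θ ∈ W → D.g ^ D.q ^ e ∈ W →
      D.Δ ^ D.q ^ e ∈ W → u ^ D.q ^ e ∈ W →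
      D.ex u ^ D.q ^ e ∈ W ∧ ∀ m, e ≤ m → D.ph u 0 m 0 ∈ W

/-- The jets. -/
def AnmS : Prop :=
  ∀ (k F : Type) [Field k] [Fintype k] [NormedField F] [IsUltrametricDist F] [CompleteSpace F]
    [Algebra k F] (D : DM F) (u : F) (σ : F →+* F) (μ : ℕ), D.Ok k → (∀ y, σ y = y ^ D.q) →
    ∀ m j, j < m → (1 ≤ μ → (D.Jm μ u m j).coeff 0 = D.ph u 0 m j) ∧
      X ^ μ ∣ D.Jm μ u (m + 2) j -
        (C (D.A m) * (X + C (D.θ ^ D.q ^ j) - C (D.θ ^ D.q ^ m)) * D.Jm μ u m j +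
          C (D.G m) * D.Jm μ u (m + 1) j + C (D.A m * D.ex u ^ D.q ^ m)) ∧
      D.Jm μ u (m + 1) (j + 1) = (D.Jm μ u m j).map σ ∧
      (‖u‖ ≤ ‖D.θ‖ → Nb μ ((‖u‖ / ‖D.θ‖) ^ D.q ^ m) (D.Jm μ u m j))

/-- The forward and the backward rule for the jets. -/
def FbS : Prop :=
  ∀ (k F ι : Type) [Field k] [Fintype k] [NormedField F] [IsUltrametricDist F] [CompleteSpace F]
    [Algebra k F] (D : DM F) (v : ι → F) (σ : F →+* F) (μ E : ℕ) (ρ : ℝ), D.Ok k →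
    (∀ y, σ y = y ^ D.q) → 1 ≤ E → ρ ≤ 1 → (∀ l, ‖v l‖ / ‖D.θ‖ ≤ ρ) →
    (∀ m i (p : ι × Fin 2), i ≤ m → X ^ μ ∣ D.Jm μ (v p.1) (E + (m + 1) + p.2) i -
        Sm.eJ (D.θ ^ D.q ^ i) (fun p : ι × Fin 2 => D.Jm μ (v p.1) (E + m + p.2) i)
          ((tw σ)^[m] (LL (D.A E) (D.G E) (D.θ ^ D.q ^ E)
            (fun l => D.A E * D.ex (v l) ^ D.q ^ E) p)) ∧
      D.Jm μ (v p.1) (E + (m + 1) + p.2) (i + 1) = (D.Jm μ (v p.1) (E + m + p.2) i).map σ ∧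
      Nb μ 1 (D.Jm μ (v p.1) (E + m + p.2) i)) ∧
    ∀ M t, Apx D.q μ D.θ (fun j (p : ι × Fin 2) => D.Jm μ (v p.1) (E + M + p.2) j) M t
      (ρ ^ D.q ^ (M + t))

/-- The finite approximations converge. -/
def ApS : Prop :=
  ∀ (k F : Type) [Field k] [Fintype k] [NormedField F] [IsUltrametricDist F] [CompleteSpace F]
    [Algebra k F] (D : DM F) (u : F) (m a K : ℕ), D.Ok k → ‖u‖ ≤ 1 → 1 ≤ m →
    ‖D.ph u 0 m 0‖ ≤ 1 ∧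
    ‖D.ph u 0 m 0 - (D.pK (D.q ^ a) u m K).eval D.θ‖ ≤ (‖u‖ / ‖D.θ‖) ^ D.q ^ (K + m) ∧
    Nb (D.q ^ a) ((‖u‖ / ‖D.θ‖) ^ D.q ^ (K + m))
      (D.Jm (D.q ^ a) u m 0 - taylor D.θ (D.pK (D.q ^ a) u m K))

/-- Heights of the finite approximations. -/
def ApHS : Prop :=
  ∀ (k F : Type) [Field k] [Fintype k] [NormedField F] [IsUltrametricDist F] [Algebra k F]
    (D : DM F) (U : Submodule k F) (e a K H : ℕ), D.Ok k → 1 ≤ a → D.Par U e →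
    ∃ d : F, d ≠ 0 ∧ C d ∈ CC (D.q ^ a) U ^ ((H + 4 * (K + 1) ^ 2) * D.q ^ (K + e + a + 1)) ∧
      ∀ (v : F) (b : Fin 2), v ^ D.q ^ e ∈ U ^ H → C d * D.pK (D.q ^ a) v (e + a + b) K ∈
        CC (D.q ^ a) U ^ ((H + 4 * (K + 1) ^ 2) * D.q ^ (K + e + a + 1))

/-- A small relation between the values gives a small relation between the jets. -/
def TjS : Prop :=
  ∀ (k F ι : Type) [Field k] [Fintype k] [NormedField F] [IsUltrametricDist F] [CompleteSpace F]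
    [Algebra k F] [Fintype ι] [DecidableEq ι] (D : DM F) (W : Subfield F) (CT : ℝ) (e a ν : ℕ)
    (v : ι → F) (m : ι → ℕ) (G : (ι → Fin ν) → F[X]), D.Ok k → 1 ≤ a → D.θ ∈ W →
    D.g ^ D.q ^ e ∈ W → D.Δ ^ D.q ^ e ∈ W → Tau (D.q ^ a) D.θ W CT →
    (∀ l, ‖v l‖ ≤ 1 ∧ v l ^ D.q ^ e ∈ W ∧ e + a ≤ m l) →
    (∀ α i, ∃ w ∈ W, (G α).coeff i = w ^ D.q ^ a) →
    Nb (D.q ^ a) (CT * ‖val (fun α => (G α).eval D.θ) fun l => D.ph (v l) 0 (m l) 0‖)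
      (val (fun α => taylor D.θ (G α)) fun l => D.Jm (D.q ^ a) (v l) (m l) 0)

/-- Heights of the data of a combination. -/
def DatS : Prop :=
  ∀ (k F ι : Type) [Field k] [Fintype k] [NormedField F] [IsUltrametricDist F] [CompleteSpace F]
    [Algebra k F] [Fintype ι] (D : DM F) (U : Submodule k F) (u : ι → F) (e a P : ℕ)
    (β : ι → k[X]), D.Ok k → 1 ≤ a → D.Par U e → (∀ i, D.Dat U e a 1 (u i)) →
    (∀ i, (β i).natDegree ≤ P) →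
    D.Dat U e a (D.q ^ (e + 2 * P + 1)) (∑ i, aeval D.θ (β i) * u i)

/-- The lattice of periods and the Legendre determinant. -/
def LatS : Prop :=
  ∀ (k F : Type) [Field k] [Fintype k] [NormedField F] [IsUltrametricDist F] [CompleteSpace F]
    [IsAlgClosed F] [Algebra k F] (D : DM F), D.Ok k → Function.Surjective D.ex ∧
    (∃ ω₁ ω₂, D.Bas k ω₁ ω₂ ∧ ∀ m, 1 ≤ m →
      D.ph ω₁ 0 m 0 * D.ph ω₂ 0 (m + 1) 0 - D.ph ω₂ 0 m 0 * D.ph ω₁ 0 (m + 1) 0 ≠ 0) ∧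
    (IsAlgebraic (Kinf k D.θ) D.g → IsAlgebraic (Kinf k D.θ) D.Δ →
      ∀ v, D.ex v = 0 → IsAlgebraic (Kinf k D.θ) v)

/-- Linear forms and additive polynomials. -/
def PsiS : Prop :=
  ∀ (k F : Type) [Field k] [Fintype k] [NormedField F] [Algebra k F] (D : DM F) (σ : F →+* F),
    D.Ok k → (∀ y, σ y = y ^ D.q) →
    (∀ (a b : F[X]) (N : ℕ), a.degree < N → b.degree < N →
      ∃ ψ : F[X], ψ.natDegree ≤ 2 * N ∧ ∀ x, ql D.q ψ x = Psi D.q D.θ D.g D.Δ a b x) ∧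
    (∀ ψ : F[X], ∃ a b : F[X], ∀ x, ql D.q ψ x = Psi D.q D.θ D.g D.Δ a b x) ∧
    ∀ a b : F[X], ((∀ x, Psi D.q D.θ D.g D.Δ a b x = 0) → a = 0 ∧ b = 0) ∧
      (Eq2 σ (D.A 0) (D.G 0) D.θ 0 (lin a b) ↔ ∀ x, Psi D.q D.θ D.g D.Δ a b
        (rh D.q D.θ D.g D.Δ x) = rh D.q D.θ D.g D.Δ (Psi D.q D.θ D.g D.Δ a b x)) ∧
      (PiC σ (D.A 0) (D.G 0) D.θ (lin a b) = 0 ↔ b = 0 ∧ a.map σ = a)

/-- The coefficients of an endomorphism are algebraic. -/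
def EalS : Prop :=
  ∀ (k F : Type) [Field k] [Fintype k] [NormedField F] [Algebra k F] (D : DM F) (ψ : F[X])
    (T : Set F), D.Ok k → D.Com ψ → IsAlgebraic (Algebra.adjoin k T) D.θ →
    IsAlgebraic (Algebra.adjoin k T) D.g → IsAlgebraic (Algebra.adjoin k T) D.Δ →
    ∀ i, IsAlgebraic (Algebra.adjoin k T) (ψ.coeff i)

/-- Endomorphisms and the exponential. -/
def EndS : Prop :=
  ∀ (k F : Type) [Field k] [Fintype k] [NormedField F] [IsUltrametricDist F] [CompleteSpace F]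
    [IsAlgClosed F] [Algebra k F] (D : DM F) (ψ : F[X]), D.Ok k → D.Com ψ →
    (∀ z, D.ex (ψ.coeff 0 * z) = ql D.q ψ (D.ex z)) ∧ ‖ψ.coeff 0‖ ≤ ‖D.θ‖ ^ ψ.natDegree ∧
    ∀ z m, 1 ≤ m →
      D.ph (ψ.coeff 0 * z) 0 m 0 = ψ.sum fun i a => a ^ D.q ^ m * D.ph z 0 (m + i) 0

/-- The endomorphism ring. -/
def OrdS : Prop :=
  ∀ (k F : Type) [Field k] [Fintype k] [NormedField F] [IsUltrametricDist F] [CompleteSpace F]
    [IsAlgClosed F] [Algebra k F] (D : DM F), D.Ok k →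
    ∃ O : Subalgebra k F, (∀ β, β ∈ O ↔ D.End β) ∧ D.θ ∈ O ∧
      (∀ β ∈ O, β ≠ 0 → 1 ≤ ‖β‖ ∧ ∃ β' ∈ O, ∃ a : k[X], a ≠ 0 ∧ β' * β = aeval D.θ a) ∧
      ∃ α ∈ O, ∃ c : ℕ, ∀ β ∈ O, ∀ N : ℕ, ‖β‖ ≤ ‖D.θ‖ ^ N → ∃ a b : k[X],
        a.natDegree ≤ N + c ∧ b.natDegree ≤ N + c ∧ β = aeval D.θ a + aeval D.θ b * α

/-- Points with algebraic data form a saturated module over the endomorphism ring. -/
def DaS : Prop :=
  ∀ (k F : Type) [Field k] [Fintype k] [NormedField F] [IsUltrametricDist F] [CompleteSpace F]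
    [IsAlgClosed F] [Algebra k F] (D : DM F) (T : Set F), D.Ok k →
    IsAlgebraic (Algebra.adjoin k T) D.θ → IsAlgebraic (Algebra.adjoin k T) D.g →
    IsAlgebraic (Algebra.adjoin k T) D.Δ →
    (∀ u v, D.DA k T u → D.DA k T v → D.DA k T (u + v)) ∧
    (∀ β u, D.End β → D.DA k T u → D.DA k T (β * u)) ∧
    (∀ β u, D.End β → β ≠ 0 → D.DA k T (β * u) → D.DA k T u) ∧
    (∀ u m, 1 ≤ m → D.DA k T u → IsAlgebraic (Algebra.adjoin k T) (D.ph u 0 m 0)) ∧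
    ∀ u (s : ℕ), IsAlgebraic (Algebra.adjoin k T) (D.ex (D.θ ^ s * u)) →
      IsAlgebraic (Algebra.adjoin k T) (D.ex u)

/-- An eigenform gives an endomorphism. -/
def EigS : Prop :=
  ∀ (k F : Type) [Field k] [Fintype k] [Field F] [IsAlgClosed F] [Uncountable F] [Algebra k F]
    (σ : F →+* F) (A G c : F), (∀ y, σ y = y ^ Fintype.card k) → A ≠ 0 →
    (∀ i, 0 < i → σ^[i] c ≠ c) → EigF σ A G c →
    ∃ a b, Eq2 σ A G c 0 (lin a b) ∧ PiC σ A G c (lin a b) ≠ 0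

/-- Density without eigenform. -/
def DenNS : Prop :=
  ∀ (k F : Type) [Field k] [Fintype k] [Field F] [IsAlgClosed F] [Uncountable F] [Algebra k F]
    (σ : F →+* F) (A G c : F), (∀ y, σ y = y ^ Fintype.card k) → A ≠ 0 →
    (∀ i, 0 < i → σ^[i] c ≠ c) → ¬ EigF σ A G c → Den σ A G c PiN

/-- Density with an endomorphism. -/
def DenCS : Prop :=
  ∀ (k F : Type) [Field k] [Fintype k] [Field F] [IsAlgClosed F] [Uncountable F] [Algebra k F]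
    (σ : F →+* F) (A G c : F) (a b : F[X]), (∀ y, σ y = y ^ Fintype.card k) → A ≠ 0 →
    (∀ i, 0 < i → σ^[i] c ≠ c) → Eq2 σ A G c 0 (lin a b) → PiC σ A G c (lin a b) ≠ 0 →
    Den σ A G c (PiC σ A G c (lin a b))

/-- Twisting. -/
def TwS : Prop :=
  ∀ (F κ : Type) [Field F] (q : ℕ) (σ : F →+* F) (A G c : F) (m : ℕ), (∀ y, σ y = y ^ q) →
    (∀ (ξ : κ → F) p, (tw σ)^[m] (LL A G c ξ p) =
      LL (A ^ q ^ m) (G ^ q ^ m) (c ^ q ^ m) (fun l => ξ l ^ q ^ m) p) ∧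
    (∀ (ξ : κ → F) f, pb σ (LL A G c ξ) m f =
      SD σ (A ^ q ^ m) (G ^ q ^ m) (c ^ q ^ m) (fun l => ξ l ^ q ^ m) f) ∧
    (∀ (ξ : κ → F) f, (tw σ)^[m] (SD σ A G c ξ f) =
      SD σ (A ^ q ^ m) (G ^ q ^ m) (c ^ q ^ m) (fun l => ξ l ^ q ^ m) ((tw σ)^[m] f)) ∧
    (Function.Surjective σ → ∀ Pi : PP (κ × Fin 2) F, Den σ A G c Pi →
      Den σ (A ^ q ^ m) (G ^ q ^ m) (c ^ q ^ m) ((tw σ)^[m] Pi))

/-- The special periods. -/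
def SpcS : Prop :=
  ∀ (k F : Type) [Field k] [Fintype k] [NormedField F] [IsUltrametricDist F] [CompleteSpace F]
    [IsAlgClosed F] [Algebra k F] (D : DM F) (σ : F →+* F), D.Ok k → (∀ y, σ y = y ^ D.q) →
    ∃ (r s c : ℕ) (ω : Fin r → F) (Pi : PP (Fin r × Fin 2) F), 1 ≤ r ∧
      (∀ i, ‖D.θ‖ ^ s < ‖ω i‖ * ‖D.θ‖ ∧ ‖ω i‖ ≤ ‖D.θ‖ ^ s) ∧ D.Ind ω ∧ D.Per ω c ∧ D.Sq σ ω Pi

/-- The polynomial part of the generating function of a division point of a period. -/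
def HhS : Prop :=
  ∀ (k F : Type) [Field k] [Fintype k] [NormedField F] [IsUltrametricDist F] [CompleteSpace F]
    [Algebra k F] (D : DM F) (σ : F →+* F) (w : F) (s m : ℕ), D.Ok k → (∀ y, σ y = y ^ D.q) →
    1 ≤ m → D.ex (D.θ ^ s * w) = 0 → ∃ h : F[X], h.degree < s ∧
      C (D.A m * D.ex w ^ D.q ^ m) * X ^ s + (h.map σ).map σ =
        C (D.A m) * (X - C (D.θ ^ D.q ^ m)) * h + C (D.G m) * h.map σ ∧
      D.ph (D.θ ^ s * w) 0 m 0 = D.θ ^ s * D.ph w 0 m 0 + h.eval D.θ ∧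
      D.ph (D.θ ^ s * w) 0 (m + 1) 0 = D.θ ^ s * D.ph w 0 (m + 1) 0 + (h.map σ).eval D.θ

/-- An algebraic coordinate is not moved. -/
def FixS : Prop :=
  ∀ (k F : Type) [Field k] [NormedField F] [Algebra k F] (θ z : F),
    IsAlgebraic (Algebra.adjoin k {θ}) z → ∃ (h : ℕ) (η : ℝ), 0 < η ∧
      ∀ (U : Submodule k (F × F)) (z' : F), 1 ∈ U → (θ, θ) ∈ U → (z, z') ∈ U →
        (∀ p ∈ U ^ h, p.1 = 0 → p.2 = 0) → ‖z - z'‖ < η → z' = z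

/-- The flag basis. -/
def FlagS : Prop :=
  ∀ (k F ι : Type) [Field k] [Fintype k] [NormedField F] [IsUltrametricDist F] [Algebra k F]
    [Fintype ι] (O : Subalgebra k F) (θ : F) (u : ι → F) (Sp : Set ι) (C P1 : ℕ), 1 < ‖θ‖ →
    (∀ β ∈ O, β ≠ 0 → 1 ≤ ‖β‖) → (∀ i, ‖u i‖ ≤ 1) → (∀ l ∈ Sp, 1 < ‖u l‖ * ‖θ‖) →
    (∀ β : ι → F, (∀ i, β i ∈ O) → ∑ i, β i * u i = 0 → β = 0) →
    ∃ (P0 : ℕ) (β : ι → ι → F) (v : ι → F) (L : ι → ℕ), P1 ≤ P0 ∧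
      (∀ l ∈ Sp, v l = u l ∧ L l = 1) ∧
      (∀ l, (∀ i, β l i ∈ O ∧ ‖β l i‖ ≤ ‖θ‖ ^ P0) ∧ v l = ∑ i, β l i * u i ∧ 1 ≤ L l ∧
        ‖v l‖ * ‖θ‖ ^ L l ≤ ‖θ‖) ∧
      (∀ l l', L l < L l' → L l * Fintype.card k ^ (C * P0) ≤ L l') ∧
      ∀ γ : ι → F, (∀ l, γ l ∈ O ∧ ‖γ l‖ ≤ ‖θ‖ ^ (C * P0)) → ∀ l ∉ Sp, γ l ≠ 0 →
        1 < ‖∑ i, γ i * v i‖ * ‖θ‖ ^ (L l * Fintype.card k ^ P0)

/-- The engine: from a pair of points to a stable module that vanishes at the second point. -/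
def GenS : Prop :=
  ∀ (k ι F : Type) [Field k] [Fintype ι] [NormedField F] [IsUltrametricDist F] [IsAlgClosed F]
    [Algebra k F] (q μ : ℕ) (σ : F →+* F) (θ : F) (y : ι → F × F) (L : ι → PP ι (F × F))
    (Q : PP ι (F × F)) (U : Submodule k (F × F)) (J : ℕ → ℕ → ι → F[X])
    (ν δ d P t h0 hq H h lam S : ℕ) (η r r' Z : ℝ), 2 ≤ q → 1 < ‖θ‖ → 1 ≤ μ →
    (∀ a, σ a = a ^ q) → 1 ∈ U → (θ, θ) ∈ U →
    (∀ l, y l ∈ U ∧ RowT 1 2 (L l) ∧ HtP U h0 (L l)) → HtP U hq Q →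
    (∀ p ∈ U ^ h, (‖p.1‖ * ‖θ‖ ^ S ≤ 1 → p.2 = 0) ∧ ‖p.1‖ ≤ Z ∧ ‖p.1 - p.2‖ ≤ r) →
    ν ≤ μ → (∃ α, ((Q.coeff α).coeff 0).2 ≠ 0) → (∀ α, Q.coeff α ≠ 0 → ∀ l, α l < ν) →
    P * μ ^ (Fintype.card ι + 1) <
      (δ + 1) ^ Fintype.card ι * d + P * (μ * (μ - ν) ^ Fintype.card ι) →
    d + Fintype.card ι * δ * t ≤ μ * P →
    ((Fintype.card ι * δ + 1) ^ Fintype.card ι * d + P * μ ^ (Fintype.card ι + 1) + 1) *
      ((d + Fintype.card ι * δ * (h0 + 2) + hq) * q ^ P) ≤ H →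
    ((Fintype.card ι * δ + 1) ^ Fintype.card ι) ^ 2 * (Fintype.card ι * δ + μ) +
      (Fintype.card ι * δ + 1) ^ Fintype.card ι + 1 ≤ lam →
    q ^ lam * H + d + Fintype.card ι * δ * (h0 + 2) * q ^ (P + lam) ≤ h →
    (∀ l, (J 0 0 l).coeff 0 = (y l).1) →
    (∀ m i l, i ≤ m → X ^ μ ∣ J (m + 1) i l -
        Sm.eJ (θ ^ q ^ i) (J m i) ((tw σ)^[m] (tw (RingHom.fst F F) (L l))) ∧
      J (m + 1) (i + 1) l = (J m i l).map σ ∧ Nb μ 1 (J m i l)) →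
    (∀ a ≤ lam, Apx q μ θ (J (P + a)) (P + a) t η) →
    0 ≤ η → η ≤ 1 → 0 ≤ r' → 1 ≤ Z → Z * r' ≤ r → r ≤ 1 →
    Nb μ r' (MvPolynomial.eval (fun l => J 0 0 l - C (y l).1) (tw (RingHom.fst F F) Q)) →
    max r (Z ^ q ^ lam * ‖θ‖ ^ (d * q ^ (lam + P)) * η) * ‖θ‖ ^ (μ * P * q ^ (lam + P)) *
      ‖θ‖ ^ S ≤ 1 →
    ∃ (B : PP ι F) (Mo : Submodule F[X] (PP ι F)) (a : ℕ), B ≠ 0 ∧
      RowT (Fintype.card ι * δ) d B ∧ B ∈ Mo ∧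
      (∀ f ∈ Mo, pb σ (fun l => tw (RingHom.snd F F) (L l)) P f ∈ Mo) ∧
      (∀ (g : F[X]) f, g ≠ 0 → MvPolynomial.C g * f ∈ Mo → f ∈ Mo) ∧
      ∀ w ∈ Mo, evp θ (vals σ θ (fun l => (y l).2) (fun l => tw (RingHom.snd F F) (L l)) (P + a))
        ((tw σ)^[a] w) = 0

/-- The algebraic part at the second point: a linear solution of bounded degree. -/
def AlgS : Prop :=
  ∀ q n δ s : ℕ, ∃ κ : ℕ, ∀ (k ι τ F : Type) [Field k] [Fintype k] [Fintype ι] [Fintype τ]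
    [Field F] [IsAlgClosed F] [Uncountable F] [Algebra k F] (σ : F →+* F) (θ A G : F) (ξ : ι → F)
    (y : ι × Fin 2 → F) (j : τ → ι) (h : τ → F[X]) (Pi : PP (τ × Fin 2) F) (E P a d : ℕ)
    (B : PP (ι × Fin 2) F) (Mo : Submodule F[X] (PP (ι × Fin 2) F)), Fintype.card k = q →
    Fintype.card ι ≤ n → (∀ x, σ x = x ^ q) → Function.Injective (fun i : ℕ => θ ^ q ^ i) →
    A ≠ 0 → 1 ≤ E → Function.Injective j →
    (∀ i, (h i).degree < s ∧ C (ξ (j i)) * X ^ s + ((h i).map σ).map σ =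
      C A * (X - C (θ ^ q ^ E)) * h i + C G * (h i).map σ) →
    Den σ A G (θ ^ q ^ E) Pi → evp θ (Zv σ s j h θ y) Pi ≠ 0 → B ≠ 0 → RowT δ d B → B ∈ Mo →
    (∀ f ∈ Mo, pb σ (LL A G (θ ^ q ^ E) ξ) P f ∈ Mo) →
    (∀ (g : F[X]) f, g ≠ 0 → MvPolynomial.C g * f ∈ Mo → f ∈ Mo) →
    (∀ w ∈ Mo, evp θ (vals σ θ y (LL A G (θ ^ q ^ E) ξ) (P + a)) ((tw σ)^[a] w) = 0) →
    ∃ f : PP (ι × Fin 2) F, RowT 1 (κ * (d + 1)) f ∧
      Eq2 σ (A ^ q ^ P) (G ^ q ^ P) ((θ ^ q ^ E) ^ q ^ P) (fun l => ξ l ^ q ^ P) f ∧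
      ∃ l ∉ Set.range j, ∃ b, f.coeff (Finsupp.single (l, b) 1) ≠ 0

/-- A linear solution at a close point gives a combination close to a period. -/
def NearS : Prop :=
  ∀ (k F ι : Type) [Field k] [Fintype k] [NormedField F] [IsUltrametricDist F] [CompleteSpace F]
    [IsAlgClosed F] [Algebra k F] [Fintype ι] (D : DM F) (σ : F →+* F) (v x : ι → F) (m N : ℕ)
    (f : PP (ι × Fin 2) F) (ε : ℝ), D.Ok k → (∀ y, σ y = y ^ D.q) → 0 ≤ ε → ε ≤ 1 →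
    (∀ l, ‖D.ex (v l) ^ D.q ^ m - x l‖ ≤ ε ^ D.q ^ m) → RowT 1 N f →
    Eq2 σ (D.A m) (D.G m) (D.θ ^ D.q ^ m) (fun l => D.A m * x l) f →
    ∃ (β : ι → F) (lam : F), (∀ l, D.End (β l) ∧ ‖β l‖ ≤ ‖D.θ‖ ^ (2 * N) ∧
      ∀ b, f.coeff (Finsupp.single (l, b) 1) ≠ 0 → β l ≠ 0) ∧ D.ex lam = 0 ∧
      ‖∑ l, β l * v l - lam‖ ≤ ‖D.θ‖ ^ (2 * N) * ε

/-- The measure for one level, with the order of the constants. -/
def MlS : Prop :=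
  ∀ (k : Type) [Field k] [Fintype k] (N : ℕ), 1 ≤ N → ∃ c a ν : ℕ, 1 ≤ c ∧ 1 ≤ a ∧
    Fintype.card k * (Fintype.card k ^ a) ^ N ≤ Fintype.card k ^ a * ν ^ N ∧
    ∀ (F : Type) [NormedField F] [IsUltrametricDist F] [CompleteSpace F] [IsAlgClosed F]
      [Algebra k F] (D : DM F) (σ : F →+* F) (r s : ℕ) (ω : Fin r → F)
      (Pi : PP (Fin r × Fin 2) F) (U : Submodule k F) (W : Subfield F) (e C1 : ℕ) (CT : ℝ),
      D.Ok k → (∀ y, σ y = y ^ D.q) → IsAlgebraic (Algebra.adjoin k {D.θ}) D.g →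
      IsAlgebraic (Algebra.adjoin k {D.θ}) D.Δ → D.Sq σ ω Pi → U.FG → D.Par U e →
      (∀ H, 1 ≤ H → finrank k ↥(U ^ H) ≤ C1 * H ^ N) → (∀ w ∈ U, w ∈ W) →
      (∀ c, algebraMap k F c ∈ W) → Tau (D.q ^ a) D.θ W CT →
      ∃ κ P1, D.MLP U (fun i => ω i / D.θ ^ s) N e a ν c κ P1

/-- The levels are removed from the top. -/
def MultS : Prop :=
  ∀ (k F : Type) [Field k] [Fintype k] [NormedField F] [IsUltrametricDist F] [CompleteSpace F]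
    [Algebra k F] (D : DM F) (U : Submodule k F) (r : ℕ) (w : Fin r → F) (N e a ν c κ P1 : ℕ),
    D.Ok k → D.Par U e → 1 ≤ c → 1 ≤ a → D.MLP U w N e a ν c κ P1 →
    ∃ P2, ∀ (P P0 PM Th : ℕ) (ι : Type) [Fintype ι] [DecidableEq ι] (v : ι → F) (L : ι → ℕ)
      (j : Fin r → ι) (G : (ι × Fin 2 → Fin ν) → F[X]) (α0 : ι × Fin 2 → Fin ν), P2 ≤ P → P0 ≤ P →
      2 * Fintype.card ι ≤ N → P * (c + 3) ^ N ≤ PM →
      (∀ l, 1 ≤ L l ∧ D.Dat U e a (D.q ^ P0) (v l) ∧ ‖v l‖ * ‖D.θ‖ ^ L l ≤ ‖D.θ‖ ∧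
        2 * L l * D.q ^ (c * P) ≤ Th) →
      (∀ l l', L l < L l' → L l * D.q ^ (c * PM + 1) ≤ L l') → Function.Injective j →
      (∀ i, v (j i) = w i ∧ L (j i) = 1) →
      D.NP v (Set.range j) (κ * PM) (fun l => L l * D.q ^ P0) →
      (∀ α, G α ∈ CC (D.q ^ a) U ^ D.q ^ P) → (G α0).eval D.θ ≠ 0 → 1 ≤ Th →
      ‖val (fun α => (G α).eval D.θ) fun p : ι × Fin 2 => D.ph (v p.1) 0 (e + a + p.2) 0‖ *
        ‖D.θ‖ ^ Th ≤ ‖(G α0).eval D.θ‖ → False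

/-- The normalised case: the special periods are among the points. -/
def C1S : Prop :=
  ∀ (k F : Type) [Field k] [Fintype k] [NormedField F] [IsUltrametricDist F] [CompleteSpace F]
    [IsAlgClosed F] [Algebra k F] (D : DM F) (σ : F →+* F) (n r s c : ℕ) (u : Fin n → F)
    (w : Fin (2 * n) → F) (ω : Fin r → F) (Pi : PP (Fin r × Fin 2) F) (j : Fin r → Fin n),
    D.Ok k → (∀ y, σ y = y ^ D.q) → 1 ≤ n → IsAlgebraic (Algebra.adjoin k {D.θ}) D.g →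
    IsAlgebraic (Algebra.adjoin k {D.θ}) D.Δ → D.Sq σ ω Pi → D.Per ω c → Function.Injective j →
    (∀ i, u (j i) = ω i / D.θ ^ s ∧ 1 < ‖u (j i)‖ * ‖D.θ‖) → D.Ind u → D.θ ∈ Set.range w →
    (∀ i, ‖u i‖ ≤ 1 ∧ IsAlgebraic (Kinf k D.θ) (u i) ∧ D.DA k (Set.range w) (u i)) → False

/-- The theorem for a normalised module and points algebraic over `K_∞`. -/
def AllS : Prop :=
  ∀ (k F : Type) [Field k] [Fintype k] [NormedField F] [IsUltrametricDist F] [CompleteSpace F]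
    [IsAlgClosed F] [Algebra k F] (D : DM F) (n : ℕ) (u : Fin n → F), D.Ok k →
    IsAlgebraic (Algebra.adjoin k {D.θ}) D.g → IsAlgebraic (Algebra.adjoin k {D.θ}) D.Δ →
    (∀ i, IsAlgebraic (Kinf k D.θ) (u i)) → D.Ind u →
    ∃ s : Fin (2 * n) → F, (∀ j, s j ∈ Set.range u ∪ (Set.range fun i => D.ex (u i)) ∪
      Set.range fun i => D.qs (u i)) ∧ AlgebraicIndependent (IntermediateField.adjoin k {D.θ}) s

/-- The theorem for a normalised module. -/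
def WnS : Prop :=
  ∀ (k F : Type) [Field k] [Fintype k] [NormedField F] [IsUltrametricDist F] [CompleteSpace F]
    [IsAlgClosed F] [Algebra k F] (D : DM F) (n : ℕ) (u : Fin n → F), D.Ok k →
    IsAlgebraic (Algebra.adjoin k {D.θ}) D.g → IsAlgebraic (Algebra.adjoin k {D.θ}) D.Δ →
    D.Ind u →
    ∃ s : Fin (2 * n) → F, (∀ j, s j ∈ Set.range u ∪ (Set.range fun i => D.ex (u i)) ∪
      Set.range fun i => D.qs (u i)) ∧ AlgebraicIndependent (IntermediateField.adjoin k {D.θ}) s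

/-- The theorem. -/
def FullS : Prop :=
  ∀ (k F : Type) [Field k] [Fintype k] [NormedField F] [IsUltrametricDist F] [CompleteSpace F]
    [IsAlgClosed F] [Algebra k F] (D : DM F) (n : ℕ) (u : Fin n → F), D.q = Fintype.card k →
    1 < ‖D.θ‖ → D.Δ ≠ 0 → IsAlgebraic (IntermediateField.adjoin k {D.θ}) D.g →
    IsAlgebraic (IntermediateField.adjoin k {D.θ}) D.Δ → D.Ind u →
    ∃ s : Fin (2 * n) → F, (∀ j, s j ∈ Set.range u ∪ (Set.range fun i => D.ex (u i)) ∪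
      Set.range fun i => D.qs (u i)) ∧ AlgebraicIndependent (IntermediateField.adjoin k {D.θ}) s

end Pool.Agent.CSU.SA.DS
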