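import Pool.Agent.Lib.MP_bf776f_nt.SU.An
import Pool.Agent.Lib.MP_0370b2_nt.SA.Grow
import Pool.Agent.Lib.MP_0c15f2_nt.DS.St

/-! Heights of the data of a combination, the polynomial part, fixed coordinates. -/

namespace Pool.Agent.CSU.SA.DS

open Polynomial Finset

namespace Dt

section

variable {k F : Type} [Field k] [NormedField F] [Algebra k F] {D : DM F} {U : Submodule k F}

lemma mono (h1 : 1 ∈ U) {e a H H' : ℕ} (h : H ≤ H') {v : F} (hv : D.Dat U e a H v) :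
    D.Dat U e a H' v :=
  ⟨Gr.pw_mono h1 h hv.1, Gr.pw_mono h1 h hv.2.1,
    fun b => Gr.pw_mono h1 (Nat.mul_le_mul_left _ h) (hv.2.2 b)⟩

lemma rh_pow [Fintype k] (hq : D.q = Fintype.card k) (m : ℕ) (x : F) :
    rh D.q D.θ D.g D.Δ x ^ D.q ^ m = D.θ ^ D.q ^ m * x ^ D.q ^ m +
      D.g ^ D.q ^ m * (x ^ D.q ^ m) ^ D.q + D.Δ ^ D.q ^ m * (x ^ D.q ^ m) ^ D.q ^ 2 := by
  have h : Fr D.q F := hq ▸ fr k F
  rw [rh, h.add_pow, h.add_pow, mul_pow, mul_pow, mul_pow, pow_right_comm x D.q,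
    pow_right_comm x (D.q ^ 2)]

end

variable {k F : Type} [Field k] [Fintype k] [NormedField F] [IsUltrametricDist F]
  [CompleteSpace F] [Algebra k F] {D : DM F} {U : Submodule k F}

/-- The points whose data have height at most `H`. -/
def Sub (h1 : An1S) (h2 : An2S) (hD : D.Ok k) (U : Submodule k F) (e a H : ℕ) (ha : 1 ≤ a) :
    Submodule k F where
  carrier := {v | D.Dat U e a H v}
  add_mem' := fun {x y} hx hy => by
    have h : Fr D.q F := hD.1 ▸ fr k F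
    refine ⟨?_, ?_, fun b => ?_⟩
    · rw [h.add_pow]; exact add_mem hx.1 hy.1
    · rw [(h1 k F D hD).2.2.2.1, h.add_pow]; exact add_mem hx.2.1 hy.2.1
    · rw [((h2 k F D hD).1 _ (by omega)).1]; exact add_mem (hx.2.2 b) (hy.2.2 b)
  zero_mem' := by
    have h0 : D.q ^ e ≠ 0 := pow_ne_zero _ (hD.1 ▸ Fintype.card_ne_zero)
    refine ⟨by rw [zero_pow h0]; exact zero_mem _, ?_, fun b => ?_⟩
    · have := (h1 k F D hD).2.2.2.2.1 0 0
      rw [map_zero, zero_mul, zero_mul] at this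
      rw [this, zero_pow h0]; exact zero_mem _
    · have := ((h2 k F D hD).1 (e + a + b) (by omega)).2.1 0 0
      rw [map_zero, zero_mul, zero_mul] at this
      rw [this]; exact zero_mem _
  smul_mem' := fun c x hx => by
    have hc : algebraMap k F c ^ D.q ^ e = algebraMap k F c :=
      Fr.fix_pow (by rw [hD.1]; exact fix_k c) e
    refine ⟨?_, ?_, fun b => ?_⟩
    · rw [Algebra.smul_def, mul_pow, hc, ← Algebra.smul_def]
      exact Submodule.smul_mem _ _ hx.1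
    · rw [Algebra.smul_def, (h1 k F D hD).2.2.2.2.1, mul_pow, hc, ← Algebra.smul_def]
      exact Submodule.smul_mem _ _ hx.2.1
    · rw [Algebra.smul_def, ((h2 k F D hD).1 _ (by omega)).2.1, ← Algebra.smul_def]
      exact Submodule.smul_mem _ _ (hx.2.2 b)

lemma step (h1 : An1S) (h2 : An2S) (hD : D.Ok k) {e a H : ℕ} (ha : 1 ≤ a) (hP : D.Par U e)
    {v : F} (hv : D.Dat U e a H v) : D.Dat U e a (D.q ^ 2 * H + D.q ^ e) (D.θ * v) := by
  have hq : 2 ≤ D.q := hD.1 ▸ Fintype.one_lt_card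
  obtain ⟨u1, uθ, ug, uΔ, -⟩ := hP
  have e1 : 1 ≤ D.q ^ e := Nat.one_le_pow _ _ (by omega)
  have e2 : H * D.q ≤ D.q ^ 2 * H := by nlinarith [Nat.zero_le (H * D.q)]
  have e3 : H ≤ H * D.q := Nat.le_mul_of_pos_right _ (by omega)
  have hp : D.θ ^ D.q ^ e ∈ U ^ D.q ^ e := Submodule.pow_mem_pow _ uθ _
  have p1 : ∀ {x : F}, x ∈ U → x ∈ U ^ 1 := fun h => by rwa [pow_one]
  refine ⟨?_, ?_, fun b => ?_⟩
  · rw [mul_pow]
    exact Gr.pw_mono u1 (by omega) (Gr.pw_mul hp hv.1)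
  · rw [(h1 k F D hD).2.2.2.2.2.1, rh_pow hD.1]
    refine add_mem (add_mem ?_ ?_) ?_
    · exact Gr.pw_mono u1 (by omega) (Gr.pw_mul hp hv.2.1)
    · exact Gr.pw_mono u1 (by omega) (Gr.pw_mul (p1 ug) (Gr.pw_pow hv.2.1 _))
    · exact Gr.pw_mono u1 (by rw [mul_comm H]; omega) (Gr.pw_mul (p1 uΔ) (Gr.pw_pow hv.2.1 _))
  · rw [(((h2 k F D hD).1 _ (by omega)).2.2 v).1]
    have e4 : 1 ≤ D.q ^ (a + 1) := Nat.one_le_pow _ _ (by omega)
    have e5 : D.q ^ (a + 1) * (H + 1) ≤ D.q ^ (a + 1) * (D.q ^ 2 * H + D.q ^ e) :=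
      Nat.mul_le_mul_left _ (by omega)
    rw [mul_add_one] at e5
    refine add_mem (Gr.pw_mono u1 (by omega) (Gr.pw_mul (p1 uθ) (hv.2.2 b))) ?_
    rw [add_assoc e, pow_add D.q e, pow_mul (D.ex v)]
    refine Gr.pw_mono u1 ?_ (Gr.pw_pow hv.2.1 _)
    have e6 : H * D.q ^ (a + b) ≤ H * D.q ^ (a + 1) :=
      Nat.mul_le_mul_left _ (Nat.pow_le_pow_right (by omega) (by omega))
    rw [mul_comm H (D.q ^ (a + 1))] at e6
    omega

end Dt

open Dt in
theorem dat (h1 : An1S) (h2 : An2S) : DatS := by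
  intro k F ι _ _ _ _ _ _ _ D U u e a P β hD ha hP hu hβ
  have hq : 2 ≤ D.q := hD.1 ▸ Fintype.one_lt_card
  have e1 : 1 ≤ D.q ^ e := Nat.one_le_pow _ _ (by omega)
  have hj : ∀ i j, ∃ H, H + D.q ^ e ≤ D.q ^ (e + 2 * j + 1) ∧ D.Dat U e a H (D.θ ^ j * u i) := by
    intro i j
    induction j with
    | zero =>
      refine ⟨1, ?_, by rw [pow_zero, one_mul]; exact hu i⟩
      rw [mul_zero, add_zero, pow_succ]
      nlinarith
    | succ j ih =>
      obtain ⟨H, a1, a2⟩ := ih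
      refine ⟨_, ?_, by rw [pow_succ', mul_assoc]; exact step h1 h2 hD ha hP a2⟩
      rw [show e + 2 * (j + 1) + 1 = 2 + (e + 2 * j + 1) by omega, pow_add D.q 2]
      have b1 := Nat.mul_le_mul_left (D.q ^ 2) a1
      have b2 : 2 * D.q ^ e ≤ D.q ^ 2 * D.q ^ e := Nat.mul_le_mul_right _ (by nlinarith)
      rw [mul_add] at b1
      omega
  change _ ∈ Sub h1 h2 hD U e a _ ha
  refine sum_mem fun i _ => ?_
  rw [aeval_eq_sum_range, sum_mul]
  refine sum_mem fun j h => ?_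
  rw [smul_mul_assoc]
  refine Submodule.smul_mem _ _ ?_
  obtain ⟨H, a1, a2⟩ := hj i j
  have : D.q ^ (e + 2 * j + 1) ≤ D.q ^ (e + 2 * P + 1) :=
    Nat.pow_le_pow_right (by omega) (by have := mem_range.1 h; have := hβ i; omega)
  exact mono hP.1 (by omega) a2

open Dt in
theorem hh_gen (h1 : An1S) (h2 : An2S) {k F : Type} [Field k] [Fintype k] [NormedField F]
    [IsUltrametricDist F] [CompleteSpace F] [Algebra k F] (D : DM F) (σ : F →+* F) (w : F)
    (s m : ℕ) (hD : D.Ok k) (hσ : ∀ y, σ y = y ^ D.q) (hm : 1 ≤ m) : ∃ h : F[X], h.degree < s ∧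
      C (D.A m * D.ex w ^ D.q ^ m) * X ^ s + (h.map σ).map σ =
        C (D.A m) * (X - C (D.θ ^ D.q ^ m)) * h + C (D.G m) * h.map σ +
          C (D.A m * D.ex (D.θ ^ s * w) ^ D.q ^ m) ∧
      D.ph (D.θ ^ s * w) 0 m 0 = D.θ ^ s * D.ph w 0 m 0 + h.eval D.θ ∧
      D.ph (D.θ ^ s * w) 0 (m + 1) 0 = D.θ ^ s * D.ph w 0 (m + 1) 0 + (h.map σ).eval D.θ := by
  induction s with
  | zero => exact ⟨0, by simp, by simp, by simp, by simp⟩
  | succ s ih =>
    obtain ⟨h, a1, a2, a3, a4⟩ := ih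
    set x := D.ex (D.θ ^ s * w) ^ D.q ^ m with hx
    have e : D.θ ^ (s + 1) * w = D.θ * (D.θ ^ s * w) := by ring
    have hΔ : D.Δ ^ D.q ^ m ≠ 0 := pow_ne_zero _ hD.2.2.2.2
    have r : σ (σ x) = D.A m * D.ex (D.θ ^ (s + 1) * w) ^ D.q ^ m -
        D.A m * D.θ ^ D.q ^ m * x + D.G m * σ x := by
      rw [e, (h1 k F D hD).2.2.2.2.2.1, rh_pow hD.1, ← hx, hσ, hσ, ← pow_mul x, ← sq, DM.A, DM.G]
      field_simp
      ring
    refine ⟨X * h + C x, ?_, ?_, ?_, ?_⟩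
    · refine (degree_add_le _ _).trans_lt (max_lt ?_ (degree_C_le.trans_lt ?_))
      · rw [mul_comm, degree_mul_X, Nat.cast_succ]
        exact WithBot.add_lt_add_right (by simp) a1
      · exact_mod_cast Nat.succ_pos s
    · simp only [Polynomial.map_add, Polynomial.map_mul, map_X, map_C, r, C_add, C_sub, C_mul]
        at a2 ⊢
      linear_combination X * a2
    · rw [e, (((h2 k F D hD).1 m hm).2.2 _).1, a3, ← hx]
      simp only [eval_add, eval_mul, eval_X, eval_C]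
      ring
    · rw [e, (((h2 k F D hD).1 (m + 1) (by omega)).2.2 _).1, a4, pow_succ D.q m, pow_mul, ← hx,
        ← hσ]
      simp only [Polynomial.map_add, Polynomial.map_mul, map_X, map_C, eval_add, eval_mul, eval_X,
        eval_C]
      ring

theorem hhs (h1 : An1S) (h2 : An2S) : HhS := by
  intro k F _ _ _ _ _ _ D σ w s m hD hσ hm h0
  obtain ⟨h, a1, a2, a3, a4⟩ := hh_gen h1 h2 D σ w s m hD hσ hm
  have hq : D.q ^ m ≠ 0 := pow_ne_zero _ (hD.1 ▸ Fintype.card_ne_zero)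
  rw [h0, zero_pow hq, mul_zero, C_0, add_zero] at a2
  exact ⟨h, a1, a2, a3, a4⟩

theorem fix : FixS := by
  intro k F _ _ _ θ z hz
  obtain ⟨P, hP0, hPz⟩ := hz
  have hc : ∀ i, ∃ c : k[X], aeval θ c = (P.coeff i : F) := fun i => by
    exact (Algebra.adjoin_singleton_eq_range_aeval k θ).le (P.coeff i).2
  choose c hc using hc
  have hinj : Function.Injective (algebraMap (Algebra.adjoin k {θ}) F) := Subtype.val_injective
  have hfin : ({y : F | aeval y P = 0} \ {z}).Finite := by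
    refine Set.Finite.subset (P.rootSet_finite F) fun y hy => ?_
    exact mem_rootSet'.2 ⟨(Polynomial.map_ne_zero_iff hinj).2 hP0, hy.1⟩
  obtain ⟨η, hη, hb⟩ := Metric.isOpen_iff.1 hfin.isClosed.isOpen_compl z (by simp)
  have hev : ∀ y : F, aeval y P = ∑ i ∈ range (P.natDegree + 1), aeval θ (c i) * y ^ i := by
    intro y
    rw [aeval_eq_sum_range]
    exact sum_congr rfl fun i _ => by rw [hc]; rfl
  refine ⟨∑ i ∈ range (P.natDegree + 1), (c i).natDegree + P.natDegree, η, hη,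
    fun U z' u1 uθ uz hU hzz => ?_⟩
  have hp : ∑ i ∈ range (P.natDegree + 1), aeval (θ, θ) (c i) * (z, z') ^ i ∈
      U ^ (∑ i ∈ range (P.natDegree + 1), (c i).natDegree + P.natDegree) := by
    refine sum_mem fun i hi => ?_
    have b1 : aeval (θ, θ) (c i) ∈ U ^ (c i).natDegree := by
      rw [aeval_eq_sum_range]
      exact sum_mem fun j hj => Submodule.smul_mem _ _ (Gr.pw_mono u1
        (Nat.lt_succ_iff.1 (mem_range.1 hj)) (Submodule.pow_mem_pow _ uθ j))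
    exact Gr.pw_mono u1 (add_le_add (single_le_sum (f := fun i => (c i).natDegree)
      (fun _ _ => Nat.zero_le _) hi) (Nat.lt_succ_iff.1 (mem_range.1 hi)))
      (Gr.pw_mul b1 (Submodule.pow_mem_pow _ uz i))
  have f1 : ∀ i, (aeval (θ, θ) (c i)).1 = aeval θ (c i) := fun i =>
    (aeval_algHom_apply (AlgHom.fst k F F) (θ, θ) (c i)).symm
  have f2 : ∀ i, (aeval (θ, θ) (c i)).2 = aeval θ (c i) := fun i =>
    (aeval_algHom_apply (AlgHom.snd k F F) (θ, θ) (c i)).symm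
  have h2 := hU _ hp (by
    simp only [Prod.fst_sum, Prod.fst_mul, Prod.pow_fst, f1]
    rw [← hev, hPz])
  simp only [Prod.snd_sum, Prod.snd_mul, Prod.pow_snd, f2] at h2
  rw [← hev] at h2
  by_contra hne
  exact hb (show z' ∈ Metric.ball z η by rwa [mem_ball_iff_norm']) ⟨h2, hne⟩

end Pool.Agent.CSU.SA.DS
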