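import Pool.Agent.Lib.MP_0370b2_nt.SA.St2
import Pool.Agent.Lib.MP_0370b2_nt.SA.Small

/-! Drinfeld modules of rank two: affine systems, rows, exponential, jets. -/

namespace Pool.Agent.CSU.SA.DS

open Polynomial Finset

section Ring

variable {ι κ R R' : Type} [CommRing R] [CommRing R']

/-- Total degree at most `δ` in `Y` and degree less than `d` in `t`. -/
def RowT (δ d : ℕ) (f : PP ι R) : Prop := f.totalDegree ≤ δ ∧ ∀ α, (f.coeff α).degree < d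

/-- The values at `t = θ` of the variables of relative level `m`; `y` are those of level `0` and
the variable `Y l` of level `1` is `L l` in the variables of level `0`. -/
noncomputable def vals (σ : R →+* R) (θ : R) (y : ι → R) (L : ι → PP ι R) : ℕ → ι → R
  | 0 => y
  | m + 1 => fun l => evp θ (vals σ θ y L m) ((tw σ)^[m] (L l))

/-- The equations of `vals` are generated here, once. -/
theorem vals_once : True := by
  have := @vals.eq_def
  have := @vals.eq_1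
  have := @vals.eq_2
  trivial

/-- The twisted pull back at relative level `m`. -/
noncomputable def pb (σ : R →+* R) (L : ι → PP ι R) (m : ℕ) (f : PP ι R) : PP ι R :=
  MvPolynomial.aeval (fun l => (tw σ)^[m] (L l)) (tw σ f)

/-- The substitution of rank two. -/
noncomputable def LL (A G c : R) (ξ : κ → R) (p : κ × Fin 2) : PP (κ × Fin 2) R :=
  if p.2 = 0 then MvPolynomial.X (p.1, 1) else
    MvPolynomial.C (C A * (X - C c)) * MvPolynomial.X (p.1, 0) +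
      MvPolynomial.C (C G) * MvPolynomial.X (p.1, 1) + MvPolynomial.C (C (ξ p.1))

/-- The twisted pull back of rank two. -/
noncomputable def SD (σ : R →+* R) (A G c : R) (ξ : κ → R) :
    PP (κ × Fin 2) R →+* PP (κ × Fin 2) R :=
  (MvPolynomial.aeval (LL A G c ξ) : PP (κ × Fin 2) R →ₐ[R[X]] PP (κ × Fin 2) R).toRingHom.comp
    (tw σ)

/-- The equation of second order. -/
def Eq2 (σ : R →+* R) (A G c : R) (ξ : κ → R) (f : PP (κ × Fin 2) R) : Prop :=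
  SD σ A G c ξ (SD σ A G c ξ f) =
    MvPolynomial.C (C A * (X - C c)) * f + MvPolynomial.C (C G) * SD σ A G c ξ f

/-- An eigenform of positive degree in two variables. -/
def EigF (σ : R →+* R) (A G c : R) : Prop :=
  ∃ (f : PP (Fin 1 × Fin 2) R) (m : ℕ) (a b : R[X]), f ≠ 0 ∧ f.IsHomogeneous (m + 1) ∧ a ≠ 0 ∧
    MvPolynomial.C a * SD σ A G c 0 f = MvPolynomial.C b * f

/-- The linear form `a Y 0 + b Y 1`. -/
noncomputable def lin (a b : R[X]) : PP (Fin 1 × Fin 2) R :=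
  MvPolynomial.C a * MvPolynomial.X (0, 0) + MvPolynomial.C b * MvPolynomial.X (0, 1)

/-- The determinant of `Y` and its image under the endomorphism given by `f`. -/
noncomputable def PiC (σ : R →+* R) (A G c : R) (f : PP (Fin 1 × Fin 2) R) :
    PP (Fin 1 × Fin 2) R :=
  MvPolynomial.X (0, 0) * SD σ A G c 0 f - MvPolynomial.X (0, 1) * f

/-- The determinant of two columns. -/
noncomputable def PiN : PP (Fin 2 × Fin 2) R :=
  MvPolynomial.X (0, 0) * MvPolynomial.X (1, 1) - MvPolynomial.X (1, 0) * MvPolynomial.X (0, 1)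

/-- `Pi` is an eigen-polynomial, and backward orbits of points with `Pi ≠ 0` are dense. -/
def Den (σ : R →+* R) (A G c : R) (Pi : PP (κ × Fin 2) R) : Prop :=
  (∃ (γ : R) (j : ℕ), γ ≠ 0 ∧ SD σ A G c 0 Pi = MvPolynomial.C (C γ * (X - C c) ^ j) * Pi) ∧
    ∀ (x : R) (V : κ × Fin 2 → R), (∀ i, σ^[i] c ≠ x) → (∀ i, 0 < i → σ^[i] x ≠ x) →
      evp x V Pi ≠ 0 → ∀ f, f ≠ 0 → ∃ n, evp x V ((SD σ A G c 0)^[n] f) ≠ 0

/-- The values `x ^ s * V + h(x)` of the special variables. -/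
noncomputable def Zv (σ : R →+* R) (s : ℕ) (j : κ → ι) (h : κ → R[X]) (x : R)
    (V : ι × Fin 2 → R) (p : κ × Fin 2) : R :=
  x ^ s * V (j p.1, p.2) + (if p.2 = 0 then h p.1 else (h p.1).map σ).eval x

/-- The additive map `∑ ψ i * x ^ q ^ i`. -/
noncomputable def ql (q : ℕ) (ψ : R[X]) (x : R) : R := ψ.sum fun i a => a * x ^ q ^ i

/-- The action of `t`. -/
def rh (q : ℕ) (c g Δ x : R) : R := c * x + g * x ^ q + Δ * x ^ q ^ 2

/-- The polynomial part of the generating function of `θ ^ s * v`. -/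
noncomputable def hh (q : ℕ) (c g Δ : R) (s : ℕ) (x : R) : R[X] :=
  ∑ i ∈ range s, monomial i ((rh q c g Δ)^[s - 1 - i] x)

/-- The additive map attached to `a Y 0 + b Y 1`. -/
noncomputable def Psi (q : ℕ) (c g Δ : R) (a b : R[X]) (x : R) : R :=
  (a.sum fun i u => u * (rh q c g Δ)^[i] x) + b.sum fun i u => u * ((rh q c g Δ)^[i] x) ^ q

end Ring

/-- The Drinfeld module `θ + g τ + Δ τ ^ 2`, `τ x = x ^ q`. -/
structure DM (F : Type) where
  q : ℕ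
  θ : F
  g : F
  Δ : F

section Norm

variable {F : Type} [NormedField F]

/-- The coefficients of the exponential. -/
noncomputable def DM.al (D : DM F) : ℕ → F
  | 0 => 1
  | 1 => D.g / (D.θ ^ D.q - D.θ)
  | i + 2 => (D.g * D.al (i + 1) ^ D.q + D.Δ * D.al i ^ D.q ^ 2) / (D.θ ^ D.q ^ (i + 2) - D.θ)

/-- The equations of `al` are generated here, once. -/
theorem DM.al_once : True := by
  have := @DM.al.eq_def
  have := @DM.al.eq_1
  have := @DM.al.eq_2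
  have := @DM.al.eq_3
  trivial

/-- The exponential. -/
noncomputable def DM.ex (D : DM F) (z : F) : F := ∑' i, D.al i * z ^ D.q ^ i

/-- The quasi-periodic function. -/
noncomputable def DM.qs (D : DM F) (z : F) : F :=
  ∑' i, D.al i ^ D.q * z ^ D.q ^ (i + 1) / (D.θ ^ D.q ^ (i + 1) - D.θ)

/-- The `l`-th Taylor coefficient at `θ ^ q ^ j` of the generating function of level `m`. -/
noncomputable def DM.ph (D : DM F) (u : F) (l m j : ℕ) : F :=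
  ∑' i, D.al i ^ D.q ^ m * u ^ D.q ^ (i + m) / (D.θ ^ D.q ^ (i + m) - D.θ ^ D.q ^ j) ^ (l + 1)

/-- The true jet of order `μ`. -/
noncomputable def DM.Jm (D : DM F) (μ : ℕ) (u : F) (m j : ℕ) : F[X] :=
  ∑ l ∈ range μ, C (D.ph u l m j) * X ^ l

/-- The finite approximation of the generating function. -/
noncomputable def DM.pK (D : DM F) (μ : ℕ) (u : F) (m K : ℕ) : F[X] :=
  ∑ i ∈ range K, C (D.al i ^ D.q ^ m * u ^ D.q ^ (i + m) / (D.θ ^ D.q ^ (i + m) - D.θ) ^ μ) *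
    (C (D.θ ^ D.q ^ (i + m)) - X) ^ (μ - 1)

/-- A normalised module over the finite field `k`. -/
def DM.Ok (D : DM F) (k : Type) [Fintype k] : Prop :=
  D.q = Fintype.card k ∧ 1 < ‖D.θ‖ ∧ ‖D.g‖ ≤ 1 ∧ ‖D.Δ‖ ≤ 1 ∧ D.Δ ≠ 0

/-- The additive polynomial `ψ` commutes with the action of `t`. -/
def DM.Com (D : DM F) (ψ : F[X]) : Prop :=
  ∀ x, ql D.q ψ (rh D.q D.θ D.g D.Δ x) = rh D.q D.θ D.g D.Δ (ql D.q ψ x)

/-- `β` is the tangent map of an endomorphism. -/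
def DM.End (D : DM F) (β : F) : Prop := ∃ ψ : F[X], ψ.coeff 0 = β ∧ D.Com ψ

/-- Independence over the endomorphism ring. -/
def DM.Ind (D : DM F) {ι : Type} [Fintype ι] (u : ι → F) : Prop :=
  ∀ β : ι → F, (∀ i, D.End (β i)) → ∑ i, β i * u i = 0 → β = 0

/-- A reduced basis of the period lattice. -/
def DM.Bas (D : DM F) (k : Type) [Field k] [Algebra k F] (ω₁ ω₂ : F) : Prop :=
  D.ex ω₁ = 0 ∧ D.ex ω₂ = 0 ∧ ‖D.θ‖ < ‖ω₁‖ ∧ ‖ω₁‖ ≤ ‖ω₂‖ ∧
    (∀ a b : k[X], ‖aeval D.θ a * ω₁‖ ≤ ‖aeval D.θ a * ω₁ + aeval D.θ b * ω₂‖ ∧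
      ‖aeval D.θ b * ω₂‖ ≤ ‖aeval D.θ a * ω₁ + aeval D.θ b * ω₂‖) ∧
    ∀ v, D.ex v = 0 → ∃ a b : k[X], v = aeval D.θ a * ω₁ + aeval D.θ b * ω₂

/-- The parameters of level `m`. -/
noncomputable def DM.A (D : DM F) (m : ℕ) : F := (D.Δ ^ D.q ^ m)⁻¹

/-- The parameters of level `m`. -/
noncomputable def DM.G (D : DM F) (m : ℕ) : F := -(D.g ^ D.q ^ m * (D.Δ ^ D.q ^ m)⁻¹)

/-- The point, its exponential and its quasi-periodic value are algebraic over `k[T]`. -/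
def DM.DA (D : DM F) (k : Type) [Field k] [Algebra k F] (T : Set F) (u : F) : Prop :=
  IsAlgebraic (Algebra.adjoin k T) u ∧ IsAlgebraic (Algebra.adjoin k T) (D.ex u) ∧
    IsAlgebraic (Algebra.adjoin k T) (D.qs u)

/-- The parameters lie in `U`. -/
def DM.Par (D : DM F) {k : Type} [Field k] [Algebra k F] (U : Submodule k F) (e : ℕ) : Prop :=
  1 ∈ U ∧ D.θ ∈ U ∧ D.g ^ D.q ^ e ∈ U ∧ D.Δ ^ D.q ^ e ∈ U ∧ (D.Δ ^ D.q ^ e)⁻¹ ∈ U

/-- The special periods `ω` and their eigen-polynomial. -/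
def DM.Sq (D : DM F) (σ : F →+* F) {τ : Type} (ω : τ → F) (Pi : PP (τ × Fin 2) F) : Prop :=
  (∀ i, D.ex (ω i) = 0) ∧ Den σ (D.A 0) (D.G 0) D.θ Pi ∧
    ∀ m, 1 ≤ m → evp D.θ (fun p => D.ph (ω p.1) 0 (m + p.2) 0) ((tw σ)^[m] Pi) ≠ 0

/-- The special periods generate the lattice up to a bounded index. -/
def DM.Per (D : DM F) {τ : Type} [Fintype τ] (ω : τ → F) (c : ℕ) : Prop :=
  ∃ b, D.End b ∧ b ≠ 0 ∧ ‖b‖ ≤ ‖D.θ‖ ^ c ∧ ∀ lam, D.ex lam = 0 → ∃ γ : τ → F,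
    (∀ i, D.End (γ i) ∧ ‖γ i‖ ≤ ‖lam‖ * ‖D.θ‖ ^ c) ∧ b * lam = ∑ i, γ i * ω i

/-- The data of the point `v` have height at most `H`. -/
def DM.Dat (D : DM F) {k : Type} [Field k] [Algebra k F] (U : Submodule k F) (e a H : ℕ) (v : F) :
    Prop :=
  v ^ D.q ^ e ∈ U ^ H ∧ D.ex v ^ D.q ^ e ∈ U ^ H ∧
    ∀ b : Fin 2, D.ph v 0 (e + a + b) 0 ∈ U ^ (D.q ^ (a + 1) * H)

/-- No combination with small coefficients is close to a period. -/
def DM.NP (D : DM F) {ι : Type} [Fintype ι] (v : ι → F) (Sp : Set ι) (N : ℕ) (T : ι → ℕ) : Prop :=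
  ∀ β : ι → F, (∀ l, D.End (β l) ∧ ‖β l‖ ≤ ‖D.θ‖ ^ N) → ∀ l ∉ Sp, β l ≠ 0 → ∀ lam, D.ex lam = 0 →
    1 < ‖∑ i, β i * v i - lam‖ * ‖D.θ‖ ^ T l

/-- Rational approximation of the jets `J j` at the nodes `j ≤ M`. -/
def Apx {ι : Type} (q μ : ℕ) (θ : F) (J : ℕ → ι → F[X]) (M t : ℕ) (η : ℝ) : Prop :=
  ∃ (β : F[X]) (ψ : ι → F[X]), β.natDegree ≤ t ∧ (∀ l, (ψ l).natDegree ≤ t) ∧ β.eval θ ≠ 0 ∧
    ∀ j ≤ M, Nb μ ‖β.eval θ‖ (taylor (θ ^ q ^ j) β) ∧
      ∀ l, Nb μ (η * ‖β.eval θ‖) (taylor (θ ^ q ^ j) β * J j l - taylor (θ ^ q ^ j) (ψ l))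

/-- The measure for one level; `w` are the special points. -/
def DM.MLP (D : DM F) {k : Type} [Field k] [Algebra k F] (U : Submodule k F) {r : ℕ}
    (w : Fin r → F) (N e a ν c κ P1 : ℕ) : Prop :=
  ∀ P, P1 ≤ P → ∀ (ι : Type) [Fintype ι] [DecidableEq ι] (v : ι → F) (L : ℕ) (Sp : Set ι)
    (G : (ι × Fin 2 → Fin ν) → F[X]) (α0 : ι × Fin 2 → Fin ν), 2 * Fintype.card ι ≤ N → 1 ≤ L →
    (∀ l, D.Dat U e a (D.q ^ P) (v l) ∧ ‖v l‖ * ‖D.θ‖ ^ L ≤ ‖D.θ‖) →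
    (Sp = ∅ ∨ ∃ j : Fin r → ι, Function.Injective j ∧ Set.range j = Sp ∧ ∀ i, v (j i) = w i) →
    D.NP v Sp (κ * P) (fun _ => L * D.q ^ P) → (∀ α, G α ∈ CC (D.q ^ a) U ^ D.q ^ P) →
    (G α0).eval D.θ ≠ 0 → (∀ α, ‖(G α).eval D.θ‖ ≤ ‖(G α0).eval D.θ‖) →
    ‖(G α0).eval D.θ‖ <
      ‖val (fun α => (G α).eval D.θ) fun p : ι × Fin 2 => D.ph (v p.1) 0 (e + a + p.2) 0‖ *
        ‖D.θ‖ ^ (L * D.q ^ (c * P))

end Norm

end Pool.Agent.CSU.SA.DS
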