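import Pool.Agent.Lib.MP_0c15f2_nt.DS.E8a

/-! Primitive eigenforms (G3), the orbit lemma (MIN), the chain rule (helper36). -/

open MvPolynomial
open scoped Polynomial

namespace DS.E8

variable {F : Type*} [Field F]

/-- eigen-polynomial -/
def Eig (s : F →+* F) (e : F[X]) (G : F) (f : MvPolynomial (Fin 2) F[X]) : Prop :=
  ∃ a b : F[X], a ≠ 0 ∧ C a * Sop s e G f = C b * f

lemma dvd_of_ev [Infinite F] {f : MvPolynomial (Fin 2) F[X]} {x : F} (h : ∀ V, ev x V f = 0) :
    ∃ g, f = C (Polynomial.X - Polynomial.C x) * g := by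
  have h0 : map (Polynomial.evalRingHom x) f = 0 := by
    refine MvPolynomial.funext fun V => ?_
    rw [eval_map, map_zero]
    exact h V
  refine (C_dvd_iff_dvd_coeff _ _).2 fun α => Polynomial.dvd_iff_isRoot.2 ?_
  have := congrArg (coeff α) h0
  simpa [coeff_map] using this

lemma prim_exists [Infinite F] (s : F →+* F) (e : F[X]) (G : F) {m : ℕ} (n : ℕ) :
    ∀ f : MvPolynomial (Fin 2) F[X], Bd 0 n f → f ≠ 0 → f.IsHomogeneous m → Eig s e G f →
    ∃ (P : MvPolynomial (Fin 2) F[X]) (u : F[X]), f = C u * P ∧ P.IsHomogeneous m ∧ Eig s e G P ∧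
      ∀ x, ∃ V, ev x V P ≠ 0 := by
  induction n using Nat.strong_induction_on with
  | _ n ih =>
    intro f hb h0 hf he
    by_cases hp : ∀ x, ∃ V, ev x V f ≠ 0
    · exact ⟨f, 1, by simp, hf, he, hp⟩
    push Not at hp
    obtain ⟨x, hx⟩ := hp
    obtain ⟨g, rfl⟩ := dvd_of_ev hx
    have hg0 : g ≠ 0 := right_ne_zero_of_mul h0
    obtain ⟨k, hk, hk'⟩ := hb.cancel (Polynomial.X_sub_C_ne_zero x) hg0
    rw [Polynomial.natDegree_X_sub_C] at hk
    obtain ⟨a, b, ha, hab⟩ := he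
    obtain ⟨P, u, hP, h⟩ := ih k (by omega) g hk' hg0
      (hom_of_C_mul (Polynomial.X_sub_C_ne_zero x) hf)
      ⟨a * (Polynomial.X - Polynomial.C (s x)), b * (Polynomial.X - Polynomial.C x),
        mul_ne_zero ha (Polynomial.X_sub_C_ne_zero _), by
          rw [map_mul, Sop_C] at hab
          simp only [Polynomial.map_sub, Polynomial.map_X, Polynomial.map_C] at hab
          rw [map_mul, map_mul, mul_assoc, mul_assoc, hab]⟩
    exact ⟨P, (Polynomial.X - Polynomial.C x) * u, by rw [hP, map_mul, mul_assoc], h⟩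

lemma eig_poly [IsAlgClosed F] {P Q : MvPolynomial (Fin 2) F[X]} (hp : ∀ x, ∃ V, ev x V P ≠ 0)
    (n : ℕ) : ∀ a b : F[X], a.natDegree = n → a ≠ 0 → C a * Q = C b * P → ∃ ρ, Q = C ρ * P := by
  induction n with
  | zero =>
    intro a b hn ha h
    obtain ⟨a0, rfl⟩ := Polynomial.natDegree_eq_zero.1 hn
    have ha0 : a0 ≠ 0 := fun h0 => ha (by simp [h0])
    refine ⟨Polynomial.C a0⁻¹ * b, ?_⟩
    rw [map_mul, mul_assoc, ← h, ← mul_assoc, ← map_mul, ← map_mul, inv_mul_cancel₀ ha0]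
    simp
  | succ n ih =>
    intro a b hn ha h
    obtain ⟨x, hx⟩ := IsAlgClosed.exists_root a (by
      rw [Polynomial.degree_eq_natDegree ha, hn]; exact_mod_cast Nat.succ_ne_zero n)
    obtain ⟨V, hV⟩ := hp x
    have hb : b.IsRoot x := by
      have := congrArg (ev x V) h
      rw [map_mul, map_mul, ev_C, ev_C, hx.eq_zero, zero_mul] at this
      exact (mul_eq_zero.1 this.symm).resolve_right hV
    obtain ⟨a1, rfl⟩ := Polynomial.dvd_iff_isRoot.2 hx
    obtain ⟨b1, rfl⟩ := Polynomial.dvd_iff_isRoot.2 hb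
    have ha1 : a1 ≠ 0 := right_ne_zero_of_mul ha
    rw [Polynomial.natDegree_mul (Polynomial.X_sub_C_ne_zero x) ha1,
      Polynomial.natDegree_X_sub_C] at hn
    refine ih a1 b1 (by omega) ha1 ?_
    rw [map_mul, map_mul, mul_assoc, mul_assoc] at h
    exact mul_left_cancel₀ (C_ne_zero.2 (Polynomial.X_sub_C_ne_zero x)) h

/-- G3: an eigenform is a multiple of a primitive one, whose eigenvalue is `γ (t - c)^j`. -/
theorem G3 [IsAlgClosed F] (s s' : F →+* F) (h1 : ∀ x, s' (s x) = x) {A c : F} (hA : A ≠ 0)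
    (G : F) (w : ℕ) {f : MvPolynomial (Fin 2) F[X]} {m : ℕ} (hf : f.IsHomogeneous m) (h0 : f ≠ 0)
    (he : Eig s (Polynomial.C A * (Polynomial.X - Polynomial.C c) ^ w) G f) :
    ∃ (P : MvPolynomial (Fin 2) F[X]) (u : F[X]) (γ : F) (j : ℕ), f = C u * P ∧ P ≠ 0 ∧
      P.IsHomogeneous m ∧ (∀ x, ∃ V, ev x V P ≠ 0) ∧ γ ≠ 0 ∧ 2 * j = w * m ∧
      Sop s (Polynomial.C A * (Polynomial.X - Polynomial.C c) ^ w) G P
        = C (Polynomial.C γ * (Polynomial.X - Polynomial.C c) ^ j) * P := by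
  set e := Polynomial.C A * (Polynomial.X - Polynomial.C c) ^ w with hedef
  obtain ⟨n, hn⟩ := Bd_exists 0 f
  obtain ⟨P, u, hP, hm, ⟨a, b, ha, hab⟩, hp⟩ := prim_exists s e G n f hn h0 hf he
  have hP0 : P ≠ 0 := by rintro rfl; simp [h0] at hP
  obtain ⟨ρ, hρ⟩ := eig_poly hp _ a b rfl ha hab
  have he0 : e ≠ 0 := mul_ne_zero (by simpa using hA) (pow_ne_zero _ (Polynomial.X_sub_C_ne_zero c))
  have hdeg : e.natDegree = w := by
    rw [hedef, Polynomial.natDegree_C_mul hA, Polynomial.natDegree_pow,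
      Polynomial.natDegree_X_sub_C, mul_one]
  obtain ⟨hρ0, hw⟩ := weight s s' h1 he0 G hm hP0 hρ
  have h2 : ∀ x, s (s' x) = x := by
    intro x
    have hsurj : Function.Surjective s' := fun y => ⟨s y, h1 y⟩
    exact s'.injective (h1 _)
  obtain ⟨ρ1, hρ1, hnd⟩ := Polynomial.exists_eq_pow_rootMultiplicity_mul_and_not_dvd ρ hρ0 c
  have hρ10 : ρ1 ≠ 0 := by rintro rfl; exact hnd (dvd_zero _)
  have hdeg0 : ρ1.degree = 0 := by
    by_contra hne
    obtain ⟨x, hx⟩ := IsAlgClosed.exists_root ρ1 hne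
    have hxc : x ≠ c := by rintro rfl; exact hnd (Polynomial.dvd_iff_isRoot.2 hx)
    have hex : e.eval x ≠ 0 := by simp [hedef, hA, sub_eq_zero, hxc]
    obtain ⟨V', hV'⟩ := hp (s' x)
    have := ev_Sop s e G (x := x) (V := ![(s (V' 1) - G * s (V' 0)) / e.eval x, s (V' 0)])
      (V' := V') (h2 x) (by simp) (by simp; field_simp; ring) P
    rw [hρ, map_mul, ev_C, hρ1, Polynomial.eval_mul, hx.eq_zero, mul_zero, zero_mul] at this
    exact hV' (s.injective (by rw [← this, map_zero]))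
  have hC := Polynomial.eq_C_of_degree_eq_zero hdeg0
  have hγ : ρ1.coeff 0 ≠ 0 := fun h => hρ10 (by rw [hC, h, map_zero])
  have hρ2 : ρ = Polynomial.C (ρ1.coeff 0) * (Polynomial.X - Polynomial.C c) ^ ρ.rootMultiplicity c := by
    rw [← hC, mul_comm]; exact hρ1
  refine ⟨P, u, ρ1.coeff 0, ρ.rootMultiplicity c, hP, hP0, hm, hp, hγ, ?_, by rw [← hρ2, hρ]⟩
  rw [← hdeg, ← hw]
  conv_rhs => rw [hρ2, Polynomial.natDegree_C_mul hγ, Polynomial.natDegree_pow,
      Polynomial.natDegree_X_sub_C, mul_one]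

lemma div_lin {B : Type*} [CommRing B] (z : B) {d : ℕ} {g : MvPolynomial (Fin 2) B}
    (hg : g.IsHomogeneous (d + 1)) : ∃ h : MvPolynomial (Fin 2) B, h.IsHomogeneous d ∧
      g = C (eval ![1, z] g) * X 0 ^ (d + 1) + (X 1 - C z * X 0) * h := by
  have hpow : ∀ b : ℕ, ∃ h : MvPolynomial (Fin 2) B, h.IsHomogeneous b ∧
      X 1 ^ (b + 1) = C (z ^ (b + 1)) * X 0 ^ (b + 1) + (X 1 - C z * X 0) * h := by
    intro b
    induction b with
    | zero => exact ⟨1, isHomogeneous_one _ _, by simp⟩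
    | succ b ih =>
      obtain ⟨h, hh, he⟩ := ih
      refine ⟨C (z ^ (b + 1)) * X 0 ^ (b + 1) + h * X 1,
        (isHomogeneous_C_mul_X_pow _ _ _).add (hh.mul (isHomogeneous_X _ _)), ?_⟩
      rw [pow_succ (X 1) (b + 1), he]
      simp only [map_pow]; ring
  have key : ∃ (u : B) (h : MvPolynomial (Fin 2) B), h.IsHomogeneous d ∧
      g = C u * X 0 ^ (d + 1) + (X 1 - C z * X 0) * h := by
    rw [g.as_sum]
    refine Finset.sum_induction _ (fun g => ∃ (u : B) (h : MvPolynomial (Fin 2) B),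
      h.IsHomogeneous d ∧ g = C u * X 0 ^ (d + 1) + (X 1 - C z * X 0) * h) ?_ ?_ ?_
    · rintro _ _ ⟨u, h, hh, rfl⟩ ⟨u', h', hh', rfl⟩
      exact ⟨u + u', h + h', hh.add hh', by rw [map_add]; ring⟩
    · exact ⟨0, 0, isHomogeneous_zero _ _ _, by simp⟩
    · intro α hα
      rw [mem_support_iff] at hα
      have hd := hom_deg hg hα
      rw [mon_eq]
      rcases hb : α 1 with _ | b
      · exact ⟨coeff α g, 0, isHomogeneous_zero _ _ _, by
          rw [show α 0 = d + 1 by omega]; simp⟩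
      · obtain ⟨h, hh, he⟩ := hpow b
        refine ⟨coeff α g * z ^ (b + 1), C (coeff α g) * X 0 ^ α 0 * h, ?_, ?_⟩
        · have := (isHomogeneous_C_mul_X_pow (coeff α g) 0 (α 0)).mul hh
          rwa [show α 0 + b = d by omega] at this
        · rw [he, show d + 1 = α 0 + (b + 1) by omega, map_mul]; ring
  obtain ⟨u, h, hh, he⟩ := key
  refine ⟨h, hh, ?_⟩
  have : eval ![1, z] g = u := by rw [he]; simp
  rw [this]; exact he

/-- MIN: a non-zero form vanishing on a backward orbit gives an eigenform of smaller degree. -/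
theorem orbit_min [Uncountable F] (s : F →+* F) (e : F[X]) (G : F) (x : ℕ → F)
    (V : ℕ → Fin 2 → F) (hx : Function.Injective x) (hV : ∀ n, V n 0 ≠ 0 ∨ V n 1 ≠ 0)
    (hS : ∀ f n, ev (x n) (V n) (Sop s e G f) = s (ev (x (n + 1)) (V (n + 1)) f)) (d : ℕ) :
    ∀ f : MvPolynomial (Fin 2) F[X], f.IsHomogeneous d → f ≠ 0 → (∀ n, ev (x n) (V n) f = 0) →
    ∃ (g : MvPolynomial (Fin 2) F[X]) (k : ℕ), 0 < k ∧ k ≤ d ∧ g.IsHomogeneous k ∧ g ≠ 0 ∧
      (∀ n, ev (x n) (V n) g = 0) ∧ Eig s e G g := by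
  obtain ⟨z, hz⟩ : ∃ z : F, z ∉ Set.range fun n => V n 1 / V n 0 := by
    by_contra hcon
    push Not at hcon
    exact not_countable (Function.Surjective.countable (f := fun n => V n 1 / V n 0) hcon)
  have hl : ∀ n, ev (x n) (V n) (X 1 - C (Polynomial.C z) * X 0) ≠ 0 := by
    intro n hn
    simp only [map_sub, map_mul, ev_X, ev_C, Polynomial.eval_C, sub_eq_zero] at hn
    by_cases h0 : V n 0 = 0
    · exact (hV n).elim (fun h => h h0) (fun h => h (by rw [hn, h0, mul_zero]))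
    · exact hz ⟨n, by simp only; rw [hn, mul_div_cancel_right₀ _ h0]⟩
  induction d with
  | zero =>
    intro f hf h0 hv
    exfalso
    obtain ⟨a, rfl⟩ : ∃ a, f = C a :=
      ⟨_, totalDegree_eq_zero_iff_eq_C.1 (Nat.le_zero.1 hf.totalDegree_le)⟩
    refine h0 ?_
    rw [Polynomial.eq_zero_of_infinite_isRoot a
      (Set.infinite_of_injective_forall_mem hx fun n => by simpa using hv n), map_zero]
  | succ d ih =>
    intro f hf h0 hv
    have red : ∀ g : MvPolynomial (Fin 2) F[X], g.IsHomogeneous (d + 1) → g ≠ 0 →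
        (∀ n, ev (x n) (V n) g = 0) → eval ![1, Polynomial.C z] g = 0 →
        ∃ (g : MvPolynomial (Fin 2) F[X]) (k : ℕ), 0 < k ∧ k ≤ d + 1 ∧ g.IsHomogeneous k ∧ g ≠ 0 ∧
          (∀ n, ev (x n) (V n) g = 0) ∧ Eig s e G g := by
      intro g hg hg0 hgv hz0
      obtain ⟨h, hh, he⟩ := div_lin (Polynomial.C z) hg
      rw [hz0, map_zero, zero_mul, zero_add] at he
      obtain ⟨g', k, hk, hkd, hr⟩ := ih h hh (by rintro rfl; simp [hg0] at he) (fun n => by
        have := hgv n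
        rw [he, map_mul] at this
        exact (mul_eq_zero.1 this).resolve_left (hl n))
      exact ⟨g', k, hk, by omega, hr⟩
    by_cases hb : eval ![1, Polynomial.C z] f = 0
    · exact red f hf h0 hv hb
    by_cases hg : C (eval ![1, Polynomial.C z] f) * Sop s e G f
        - C (eval ![1, Polynomial.C z] (Sop s e G f)) * f = 0
    · exact ⟨f, d + 1, by omega, le_rfl, hf, h0, hv, _, _, hb, sub_eq_zero.1 hg⟩
    · refine red _ (((Sop_hom s e G hf).C_mul _).sub (hf.C_mul _)) hg (fun n => ?_) ?_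
      · rw [map_sub, map_mul, map_mul, hS, hv, hv]; simp
      · simp [mul_comm]

lemma pderiv_Sop (s : F →+* F) (e : F[X]) (G : F) (f : MvPolynomial (Fin 2) F[X]) :
    pderiv 0 (Sop s e G f) = C e * Sop s e G (pderiv 1 f) ∧
    pderiv 1 (Sop s e G f) = Sop s e G (pderiv 0 f) + C (Polynomial.C G) * Sop s e G (pderiv 1 f) := by
  induction f using MvPolynomial.induction_on with
  | C a => simp
  | add p q hp hq => simp only [map_add, hp.1, hp.2, hq.1, hq.2]; constructor <;> ring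
  | mul_X p i hp =>
    fin_cases i
    · simp [hp.1, hp.2]; constructor <;> ring
    · simp [hp.1, hp.2]; constructor <;> ring

end DS.E8
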