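import Pool.Agent.Lib.MP_0c15f2_nt.DS.Eig
import Pool.Agent.Lib.MP_0c15f2_nt.DS.E8b
import Pool.Agent.Lib.MP_0c15f2_nt.DS.Defs

/-! Backward orbits in the special block are dense. -/

namespace Pool.Agent.DS.DN

open MvPolynomial Finset Pool.Agent.CSU.SA Pool.Agent.CSU.SA.DS
open scoped Polynomial

variable {F κ : Type} [Field F] (σ : F →+* F) (A G c : F)

theorem SD_C (ξ : κ → F) (a : F[X]) : SD σ A G c ξ (C a) = C (a.map σ) := by simp [SD, tw]

theorem SD_X0 (ξ : κ → F) (l : κ) : SD σ A G c ξ (X (l, 0)) = X (l, 1) := by simp [SD, tw, LL]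

theorem SD_X1 (l : κ) : SD σ A G c 0 (X (l, 1)) =
    C (Polynomial.C A * (Polynomial.X - Polynomial.C c)) * X (l, 0) +
      C (Polynomial.C G) * X (l, 1) := by simp [SD, tw, LL]

theorem SD_eq : SD σ A G c (0 : κ → F) = S2 κ (Polynomial.mapRingHom σ)
    (Polynomial.C A * (Polynomial.X - Polynomial.C c)) (Polynomial.C G) := by
  refine ringHom_ext (fun a => ?_) fun ⟨j, i⟩ => ?_
  · simp [SD_C, S2]
  · fin_cases i
    · simp [SD_X0, S2]
    · simp [SD_X1, S2]

theorem SD_hom (f : PP (κ × Fin 2) F) (m : ℕ) (h : f.IsHomogeneous m) :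
    (SD σ A G c 0 f).IsHomogeneous m := by
  rw [SD_eq]; exact S2_hom _ _ _ _ f m h

theorem SD_const (f : PP (κ × Fin 2) F) :
    constantCoeff (SD σ A G c 0 f) = (constantCoeff f).map σ := by
  have : constantCoeff.comp (SD σ A G c (0 : κ → F)) =
      (Polynomial.mapRingHom σ).comp constantCoeff := by
    refine ringHom_ext (fun a => ?_) fun ⟨j, i⟩ => ?_
    · simp [SD_C]
    · fin_cases i
      · simp [SD_X0]
      · simp [SD_X1]
  exact RingHom.congr_fun this f

theorem orbit_inj (s : F → F) (hs : ∀ y, σ (s y) = y) (x : ℕ → F) (h : ∀ n, x (n + 1) = s (x n))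
    (hx : ∀ i, 0 < i → σ^[i] (x 0) ≠ x 0) :
    (∀ n, σ^[n] (x n) = x 0) ∧ Function.Injective x := by
  have h1 : ∀ n, σ^[n] (x n) = x 0 := fun n => by
    induction n with
    | zero => rfl
    | succ n ih => rw [Function.iterate_succ_apply, h, hs, ih]
  have h2 : ∀ n m, n < m → x n ≠ x m := fun n m hnm e => by
    obtain ⟨i, rfl⟩ := Nat.exists_eq_add_of_lt hnm
    refine hx (i + 1) (Nat.succ_pos i) ?_
    have := h1 (n + i + 1)
    rwa [← e, show n + i + 1 = (i + 1) + n by omega, Function.iterate_add_apply, h1] at this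
  exact ⟨h1, fun n m e => by
    rcases lt_trichotomy n m with h | h | h
    exacts [absurd e (h2 _ _ h), h, absurd e.symm (h2 _ _ h)]⟩

theorem den_of [Fintype κ] [DecidableEq κ] (hσ : Function.Surjective σ) (hA0 : A ≠ 0)
    (Pi : PP (κ × Fin 2) F) (hd : 0 < Pi.totalDegree)
    (hS : SD σ A G c 0 Pi = C (Polynomial.C (-A) * (Polynomial.X - Polynomial.C c) ^ 1) * Pi)
    (hA : ∀ (g : PP (κ × Fin 2) F) (a b : F[X]), a ≠ 0 → C a * SD σ A G c 0 g = C b * g →
      constantCoeff g = 0 → ∃ u, u ≠ 0 ∧ Pi ∣ C u * g)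
    (Ψ : Matrix (κ × Fin 2) (κ × Fin 2) (PP (κ × Fin 2) F)) (hΨ : Ψ.det ≠ 0)
    (hc : ∀ B : κ × Fin 2 → F[X], (∀ v, (B v).map σ = B v) → ∀ v,
      SD σ A G c 0 (tau Ψ B (X v)) = tau Ψ B (SD σ A G c 0 (X v)))
    (B0 : κ × Fin 2 → F[X]) (h0 : ∀ v, (B0 v).map σ = B0 v) (h1 : ∀ v, tau Ψ B0 (X v) = X v) :
    Den σ A G c Pi := by
  refine ⟨⟨-A, 1, neg_ne_zero.mpr hA0, hS⟩, fun x V hx1 hx2 hV f hf => ?_⟩
  by_contra hn
  push Not at hn
  obtain ⟨s, hs⟩ := hσ.hasRightInverse
  let o : ℕ → F × (κ × Fin 2 → F) := fun n => Nat.rec (x, V)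
    (fun _ p => (s p.1, fun v => s (evp p.1 p.2 (LL A G c 0 v)))) n
  obtain ⟨o1, o2⟩ := orbit_inj σ s hs (fun n => (o n).1) (fun n => rfl) hx2
  have key : ∀ n g, evp (o n).1 (o n).2 (SD σ A G c 0 g) =
      σ (evp (o (n + 1)).1 (o (n + 1)).2 g) := fun n g => by
    have : (evp (o n).1 (o n).2).comp (SD σ A G c 0) =
        σ.comp (evp (o (n + 1)).1 (o (n + 1)).2) := by
      refine ringHom_ext (fun a => ?_) fun v => ?_
      · have e : (o n).1 = σ (o (n + 1)).1 := (hs _).symm
        simp only [RingHom.comp_apply, SD_C, evp, eval₂Hom_C, Polynomial.coe_evalRingHom]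
        rw [e, Polynomial.eval_map, Polynomial.eval₂_hom]
      · have e : σ ((o (n + 1)).2 v) = evp (o n).1 (o n).2 (LL A G c 0 v) := hs _
        have e2 : SD σ A G c 0 (X v) = LL A G c 0 v := by simp [SD, tw]
        rw [RingHom.comp_apply, RingHom.comp_apply, e2, ← e]
        simp [evp]
    exact RingHom.congr_fun this g
  have k1 : ∀ n t, evp (o n).1 (o n).2 ((SD σ A G c 0)^[t] f) = 0 := fun n => by
    induction n with
    | zero => exact hn
    | succ n ih =>
      intro t
      have := key n ((SD σ A G c 0)^[t] f)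
      rw [← Function.iterate_succ_apply' (SD σ A G c 0), ih] at this
      exact (map_eq_zero σ).mp this.symm
  have k2 : ∀ n, evp (o n).1 (o n).2 Pi ≠ 0 := fun n => by
    induction n with
    | zero => exact hV
    | succ n ih =>
      intro h
      have := key n Pi
      rw [h, map_zero, hS, map_mul, mul_eq_zero, or_iff_left ih] at this
      have e : (o n).1 = c := by
        simpa [evp, hA0, sub_eq_zero] using this
      exact hx1 n (by rw [← e]; exact o1 n)
  have hΛ : {a : F[X] | a.map σ = a}.Infinite :=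
    Set.infinite_of_injective_forall_mem (f := fun n : ℕ => (Polynomial.X : F[X]) ^ n)
      (fun n m h => by simpa using congrArg Polynomial.natDegree h) fun n => by simp
  obtain ⟨g, hg, ⟨a, b, ha, he⟩, hφ⟩ := cas (SD σ A G c 0) (deg_le _ (SD_hom σ A G c)) Ψ hΨ _ hΛ
    (fun B hB g => by
      have : (SD σ A G c 0).comp (tau Ψ B).toRingHom =
          (tau Ψ B).toRingHom.comp (SD σ A G c 0) := by
        refine ringHom_ext (fun a => ?_) fun v => hc B hB v
        simp [SD_C, tau]
      exact RingHom.congr_fun this g) B0 h0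
    (fun g => by
      have : tau Ψ B0 = AlgHom.id _ _ := algHom_ext h1
      rw [this]; rfl) f hf
  obtain ⟨c', u, j, -, hu, h3⟩ := eig_pow σ (SD σ A G c 0) (SD_C σ A G c 0) (SD_const σ A G c) Pi _
    hd (by
      rw [pow_one, Polynomial.natDegree_C_mul (neg_ne_zero.mpr hA0), Polynomial.natDegree_X_sub_C]
      exact one_pos) hS hA _ g a b (Nat.lt_succ_self _) hg ha he
  refine hu (Polynomial.eq_zero_of_infinite_isRoot u
    (Set.infinite_of_injective_forall_mem o2 fun n => ?_))
  have := congrArg (evp (o n).1 (o n).2) h3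
  rw [map_mul, map_mul, hφ F _ (k1 n), mul_zero, map_pow] at this
  simpa [evp] using (mul_eq_zero.mp this.symm).resolve_right (pow_ne_zero _ (k2 n))

/-- One column, indexed by `Fin 2`. -/
noncomputable def rn : PP (Fin 1 × Fin 2) F ≃ₐ[F[X]] MvPolynomial (Fin 2) F[X] :=
  renameEquiv _ (Equiv.uniqueProd (Fin 2) (Fin 1))

theorem rn_X (v : Fin 1 × Fin 2) : (rn (X v) : MvPolynomial (Fin 2) F[X]) = X v.2 := by
  simp [rn]

theorem rn_hom {f : PP (Fin 1 × Fin 2) F} {m : ℕ} : (rn f).IsHomogeneous m ↔ f.IsHomogeneous m :=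
  IsHomogeneous.rename_isHomogeneous_iff (Equiv.uniqueProd (Fin 2) (Fin 1)).injective

theorem rn_SD (f : PP (Fin 1 × Fin 2) F) : rn (SD σ A G c 0 f) =
    DS.E8.Sop σ (Polynomial.C A * (Polynomial.X - Polynomial.C c)) G (rn f) := by
  have : (rn (F := F)).toRingEquiv.toRingHom.comp (SD σ A G c 0) = (DS.E8.Sop σ
      (Polynomial.C A * (Polynomial.X - Polynomial.C c)) G).comp rn.toRingEquiv.toRingHom := by
    refine ringHom_ext (fun a => ?_) fun ⟨j, i⟩ => ?_
    · simp [SD_C, rn]
    · fin_cases i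
      · simp [SD_X0, rn]
      · simp [SD_X1, rn]
  exact RingHom.congr_fun this f

theorem comp_eig {ι : Type} (S : PP ι F →+* PP ι F)
    (h : ∀ (f : PP ι F) (m : ℕ), f.IsHomogeneous m → (S f).IsHomogeneous m) {g : PP ι F}
    {a b : F[X]} (he : C a * S g = C b * g) (N : ℕ) :
    C a * S (homogeneousComponent N g) = C b * homogeneousComponent N g := by
  rw [← comp_comm S h, ← homogeneousComponent_C_mul, he, homogeneousComponent_C_mul]

/-- Density for two columns, when there is no eigenform. -/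
theorem denN (hσ : Function.Surjective σ) (hA0 : A ≠ 0) (hE : ¬ EigF σ A G c) :
    Den σ A G c (PiN : PP (Fin 2 × Fin 2) F) := by
  have hP : (PiN : PP (Fin 2 × Fin 2) F) = dd F[X] := by rw [PiN, dd]; ring
  have hd0 : dd F[X] ≠ 0 := fun h => by
    simpa [dd] using congrArg (eval fun v : Fin 2 × Fin 2 => if v.1 = v.2 then (1 : F[X]) else 0) h
  have hh : (dd F[X]).IsHomogeneous 2 :=
    ((isHomogeneous_X _ _).mul (isHomogeneous_X _ _)).sub
      ((isHomogeneous_X _ _).mul (isHomogeneous_X _ _))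
  rw [hP]
  refine den_of σ A G c hσ hA0 _ (by rw [hh.totalDegree hd0]; exact two_pos)
    (by rw [SD_eq, S2_dd, pow_one, map_neg Polynomial.C, neg_mul]) (fun g a b ha he hg => ⟨1, one_ne_zero, ?_⟩)
    (Matrix.of fun v w => if w.1 = v.1 then X (w.2, v.2) else 0) (fun h => ?_)
    (fun B hB ⟨j, i⟩ => ?_) (fun v => if v.1 = v.2 then 1 else 0) (fun v => by split_ifs <;> simp)
    fun ⟨j, i⟩ => ?_
  · rw [map_one, one_mul]
    refine dd_dvd {a : F[X] | a.map σ = a}
      (Set.infinite_of_injective_forall_mem (f := fun n : ℕ => (Polynomial.X : F[X]) ^ n)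
        (fun n m h => by simpa using congrArg Polynomial.natDegree h) fun n => by simp) g
      fun l hl => ?_
    obtain ⟨w, hw⟩ := (rn (F := F)).surjective (res l g)
    have h1 : C a * SD σ A G c 0 w = C b * w := by
      apply (rn (F := F)).injective
      have := congrArg (res l) he
      rw [map_mul, map_mul, SD_eq, res_S (Polynomial.mapRingHom σ) _ _ l hl] at this
      rw [map_mul, map_mul, rn_SD, hw]
      simpa [res, rn, S1, DS.E8.Sop] using this
    have h2 : constantCoeff w = 0 := by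
      have e1 : constantCoeff (rn w) = constantCoeff w := by simp [rn]
      have e2 : constantCoeff.comp (res l).toRingHom = constantCoeff := by
        refine ringHom_ext (fun a => ?_) fun ⟨j, i⟩ => ?_
        · simp [res]
        · fin_cases j <;> simp [res]
      rw [← e1, hw, ← hg]
      exact RingHom.congr_fun e2 g
    rw [← hw, ← sum_homogeneousComponent w, sum_eq_zero, map_zero]
    intro N _
    cases N with
    | zero => rw [homogeneousComponent_zero, ← constantCoeff_eq, h2, map_zero]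
    | succ N =>
      by_contra h
      exact hE ⟨_, N, a, b, h, homogeneousComponent_isHomogeneous _ _, ha,
        comp_eig _ (SD_hom σ A G c) h1 _⟩
  · have := congrArg (eval fun v : Fin 2 × Fin 2 => if v.1 = v.2 then (1 : F[X]) else 0) h
    rw [RingHom.map_det, map_zero] at this
    have e : (eval fun v : Fin 2 × Fin 2 => if v.1 = v.2 then (1 : F[X]) else 0).mapMatrix
        (Matrix.of fun v w : Fin 2 × Fin 2 => if w.1 = v.1 then X (w.2, v.2) else 0) = 1 := by
      ext1 ⟨j, i⟩ ⟨j', i'⟩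
      fin_cases j <;> fin_cases i <;> fin_cases j' <;> fin_cases i' <;> simp
    rw [e] at this
    simp at this
  · fin_cases j <;> fin_cases i <;>
      simp [tau, Fintype.sum_prod_type, SD_X0, SD_X1, SD_C, hB] <;> ring
  · fin_cases j <;> fin_cases i <;> simp [tau, Fintype.sum_prod_type]

theorem cm_dvd [IsAlgClosed F] [Uncountable F] (hσ : Function.Surjective σ) (hA0 : A ≠ 0)
    (hc : ∀ i, 0 < i → σ^[i] c ≠ c) (Q : MvPolynomial (Fin 2) F[X]) (hQ : Q.IsHomogeneous 2)
    (hQ0 : Q ≠ 0) (hQe : DS.E8.Eig σ (Polynomial.C A * (Polynomial.X - Polynomial.C c)) G Q)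
    (P : MvPolynomial (Fin 2) F[X]) (m : ℕ) (hP : P.IsHomogeneous (m + 1))
    (hPe : DS.E8.Eig σ (Polynomial.C A * (Polynomial.X - Polynomial.C c)) G P) :
    ∃ u : F[X], u ≠ 0 ∧ Q ∣ C u * P := by
  obtain ⟨s, hs⟩ := hσ.hasRightInverse
  let s' : F →+* F := (RingEquiv.ofBijective σ ⟨σ.injective, hσ⟩).symm
  have hs' : ∀ y, s' (σ y) = y := (RingEquiv.ofBijective σ ⟨σ.injective, hσ⟩).symm_apply_apply
  set e : F[X] := Polynomial.C A * (Polynomial.X - Polynomial.C c) with he
  let o : ℕ → F × (Fin 2 → F) := fun n => Nat.rec (c, ![0, 1])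
    (fun _ p => (s p.1, ![s (p.2 1), s (e.eval p.1 * p.2 0 + G * p.2 1)])) n
  obtain ⟨o1, o2⟩ := orbit_inj σ s hs (fun n => (o n).1) (fun n => rfl) hc
  have key : ∀ f n, DS.E8.ev (o n).1 (o n).2 (DS.E8.Sop σ e G f) =
      σ (DS.E8.ev (o (n + 1)).1 (o (n + 1)).2 f) := fun f n =>
    DS.E8.ev_Sop σ e G (hs _) (hs _) (hs _) f
  have hs0 : ∀ y, s y = 0 → y = 0 := fun y h => by rw [← hs y, h, map_zero]
  have hV : ∀ n, (o (n + 1)).2 0 ≠ 0 ∨ (o (n + 1)).2 1 ≠ 0 := fun n => by
    induction n with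
    | zero => exact Or.inl fun h => one_ne_zero (hs0 _ h)
    | succ n ih =>
      by_contra h
      push Not at h
      have h1 : (o (n + 1)).2 1 = 0 := hs0 _ h.1
      have h2 : e.eval (o (n + 1)).1 * (o (n + 1)).2 0 + G * (o (n + 1)).2 1 = 0 := hs0 _ h.2
      rw [h1, mul_zero, add_zero, mul_eq_zero, or_iff_left (ih.resolve_right (not_not.mpr h1))]
        at h2
      have h3 : (o (n + 1)).1 = c := by simpa [he, hA0, sub_eq_zero] using h2
      exact Nat.succ_ne_zero n (o2 h3)
  have g3 : ∀ (f : MvPolynomial (Fin 2) F[X]) (k : ℕ), f.IsHomogeneous (k + 1) → f ≠ 0 →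
      DS.E8.Eig σ e G f → 1 ≤ k ∧ ∀ n, DS.E8.ev (o (n + 1)).1 (o (n + 1)).2 f = 0 := by
    intro f k hf h0 hf'
    obtain ⟨P0, u, γ, j, rfl, -, -, -, -, hj, h⟩ :=
      DS.E8.G3 σ s' hs' (c := c) hA0 G 1 hf h0 (by rwa [pow_one])
    rw [pow_one, ← he] at h
    refine ⟨by omega, fun n => ?_⟩
    rw [map_mul]
    refine mul_eq_zero_of_right _ ?_
    induction n with
    | zero =>
      refine (map_eq_zero σ).mp ?_
      rw [← key P0 0, h, map_mul]
      refine mul_eq_zero_of_left ?_ _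
      have : (o 0).1 = c := rfl
      simp [this, show j ≠ 0 by omega]
    | succ n ih => exact (map_eq_zero σ).mp (by rw [← key P0 (n + 1), h, map_mul, ih, mul_zero])
  have low : ∀ (f : MvPolynomial (Fin 2) F[X]) (k : ℕ), k ≤ 1 → f.IsHomogeneous k →
      (∀ n, DS.E8.ev (o (n + 1)).1 (o (n + 1)).2 f = 0) → f = 0 := by
    intro f k hk hf hv
    by_contra h0
    obtain ⟨g, k', h1, h2, h3, h4, -, h5⟩ := DS.E8.orbit_min σ e G (fun n => (o (n + 1)).1)
      (fun n => (o (n + 1)).2) (fun a b h => Nat.succ_injective (o2 h)) hV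
      (fun f n => key f (n + 1)) k f hf h0 hv
    obtain rfl : k' = 0 + 1 := by omega
    exact absurd (g3 g 0 h3 h4 h5).1 (by omega)
  obtain ⟨z, hz⟩ : ∃ z : F, z ∉ Set.range fun n => (o (n + 1)).2 1 / (o (n + 1)).2 0 := by
    by_contra hcon
    push Not at hcon
    exact not_countable (Function.Surjective.countable
      (f := fun n => (o (n + 1)).2 1 / (o (n + 1)).2 0) hcon)
  have hl : ∀ (h : MvPolynomial (Fin 2) F[X]) n, DS.E8.ev (o (n + 1)).1 (o (n + 1)).2
      ((X 1 - C (Polynomial.C z) * X 0) * h) = 0 → DS.E8.ev (o (n + 1)).1 (o (n + 1)).2 h = 0 := by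
    intro h n hn
    rw [map_mul] at hn
    refine (mul_eq_zero.mp hn).resolve_left fun hn => ?_
    simp only [map_sub, map_mul, DS.E8.ev_X, DS.E8.ev_C, Polynomial.eval_C, sub_eq_zero] at hn
    by_cases h0 : (o (n + 1)).2 0 = 0
    · exact (hV n).elim (fun h => h h0) (fun h => h (by rw [hn, h0, mul_zero]))
    · exact hz ⟨n, by simp only; rw [hn, mul_div_cancel_right₀ _ h0]⟩
  have hQv := (g3 Q 1 hQ hQ0 hQe).2
  have hb : eval ![1, Polynomial.C z] Q ≠ 0 := fun hb => by
    obtain ⟨h, hh, e1⟩ := DS.E8.div_lin (Polynomial.C z) (d := 1) hQ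
    rw [hb, map_zero, zero_mul, zero_add] at e1
    exact hQ0 (by rw [e1, low h 1 le_rfl hh fun n => hl h n (e1 ▸ hQv n), mul_zero])
  have main : ∀ (k : ℕ) (f : MvPolynomial (Fin 2) F[X]), f.IsHomogeneous (k + 1) →
      (∀ n, DS.E8.ev (o (n + 1)).1 (o (n + 1)).2 f = 0) → ∃ u : F[X], u ≠ 0 ∧ Q ∣ C u * f := by
    intro k
    induction k with
    | zero => exact fun f hf hv => ⟨1, one_ne_zero, by rw [low f 1 le_rfl hf hv]; simp⟩
    | succ k ih =>
      intro f hf hv
      have h1 : (C (eval ![1, Polynomial.C z] Q) * f -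
          C (eval ![1, Polynomial.C z] f) * (X 0 ^ k * Q)).IsHomogeneous (k + 1 + 1) :=
        (hf.C_mul _).sub (((isHomogeneous_X_pow _ _).mul hQ).C_mul _)
      obtain ⟨h, hh, e1⟩ := DS.E8.div_lin (Polynomial.C z) h1
      have e2 : eval ![1, Polynomial.C z] (C (eval ![1, Polynomial.C z] Q) * f -
          C (eval ![1, Polynomial.C z] f) * (X 0 ^ k * Q)) = 0 := by simp [mul_comm]
      rw [e2, map_zero, zero_mul, zero_add] at e1
      obtain ⟨u, hu, w, hw⟩ := ih h hh fun n => hl h n (by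
        rw [← e1, map_sub, map_mul, map_mul, map_mul, hv, hQv]; simp)
      refine ⟨u * eval ![1, Polynomial.C z] Q, mul_ne_zero hu hb,
        (X 1 - C (Polynomial.C z) * X 0) * w + C u * C (eval ![1, Polynomial.C z] f) * X 0 ^ k, ?_⟩
      rw [map_mul]
      linear_combination C u * e1 + (X 1 - C (Polynomial.C z) * X 0) * hw
  by_cases h0 : P = 0
  · exact ⟨1, one_ne_zero, by simp [h0]⟩
  · exact main m P hP (g3 P m hP h0 hPe).2

/-- Density for one column with an endomorphism. -/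
theorem denC [IsAlgClosed F] [Uncountable F] (hσ : Function.Surjective σ) (hA0 : A ≠ 0)
    (hc : ∀ i, 0 < i → σ^[i] c ≠ c) (a b : F[X]) (hE : Eq2 σ A G c 0 (lin a b))
    (hP : PiC σ A G c (lin a b) ≠ 0) : Den σ A G c (PiC σ A G c (lin a b)) := by
  have hf : (lin a b).IsHomogeneous 1 :=
    (isHomogeneous_C_mul_X _ _).add (isHomogeneous_C_mul_X _ _)
  generalize lin a b = f at hE hP hf
  rw [Eq2] at hE
  have hh : (PiC σ A G c f).IsHomogeneous 2 :=
    ((isHomogeneous_X _ _).mul (SD_hom σ A G c f 1 hf)).sub ((isHomogeneous_X _ _).mul hf)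
  have hS : SD σ A G c 0 (PiC σ A G c f) =
      C (Polynomial.C (-A) * (Polynomial.X - Polynomial.C c) ^ 1) * PiC σ A G c f := by
    rw [PiC, map_sub, map_mul, map_mul, hE, SD_X0, SD_X1, pow_one, map_neg Polynomial.C, neg_mul,
      map_neg]
    ring
  refine den_of σ A G c hσ hA0 _ (by rw [hh.totalDegree hP]; exact two_pos) hS
    (fun g a b ha he hg => ?_)
    ((!![X (0, 0), f; X (0, 1), SD σ A G c 0 f]).submatrix (Equiv.uniqueProd (Fin 2) (Fin 1))
      (Equiv.uniqueProd (Fin 2) (Fin 1))) (fun h => hP ?_)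
    (fun B hB ⟨j, i⟩ => ?_) (fun v => if v.2 = 0 then 1 else 0) (fun v => by split_ifs <;> simp)
    fun ⟨j, i⟩ => ?_
  · have : ∀ N, ∃ u : F[X], u ≠ 0 ∧ PiC σ A G c f ∣ C u * homogeneousComponent N g := fun N => by
      cases N with
      | zero =>
        exact ⟨1, one_ne_zero, by rw [homogeneousComponent_zero, ← constantCoeff_eq, hg]; simp⟩
      | succ N =>
        obtain ⟨u, hu, h⟩ := cm_dvd σ A G c hσ hA0 hc (rn (PiC σ A G c f)) (rn_hom.mpr hh)
          ((map_ne_zero_iff _ rn.injective).mpr hP)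
          ⟨1, Polynomial.C (-A) * (Polynomial.X - Polynomial.C c) ^ 1, one_ne_zero, by
            rw [← rn_SD, hS, map_mul, map_one, one_mul]; simp [rn]⟩
          (rn (homogeneousComponent (N + 1) g)) N
          (rn_hom.mpr (homogeneousComponent_isHomogeneous _ _)) ⟨a, b, ha, by
            have := congrArg rn (comp_eig _ (SD_hom σ A G c) he (N + 1))
            rw [map_mul, map_mul, rn_SD] at this
            simpa [rn] using this⟩
        refine ⟨u, hu, ?_⟩
        have := map_dvd rn.symm h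
        rw [map_mul, AlgEquiv.symm_apply_apply, AlgEquiv.symm_apply_apply] at this
        simpa [rn] using this
    choose u hu using this
    refine ⟨∏ N ∈ range (g.totalDegree + 1), u N, prod_ne_zero_iff.mpr fun N _ => (hu N).1, ?_⟩
    have e := sum_homogeneousComponent g
    generalize range (g.totalDegree + 1) = T at e
    conv_rhs => rw [← e, mul_sum]
    exact dvd_sum fun N hN => (hu N).2.trans
      (mul_dvd_mul_right (map_dvd C (dvd_prod_of_mem u hN)) _)
  · rw [Matrix.det_submatrix_equiv_self, Matrix.det_fin_two_of] at h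
    rw [PiC, ← h]
    ring
  · fin_cases j
    fin_cases i
    · simp [tau, Fintype.sum_prod_type, SD_X0, SD_C, hB]
    · simp [tau, Fintype.sum_prod_type, SD_X1, SD_C, hB, hE]
      ring
  · fin_cases j
    fin_cases i <;> simp [tau, Fintype.sum_prod_type]

end Pool.Agent.DS.DN
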