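import Pool.Agent.Lib.MP_0c15f2_nt.DS.St
import Pool.Agent.Lib.MP_0c15f2_nt.DS.Den

/-! Density of the backward orbits. -/

namespace Pool.Agent.CSU.SA.DS

theorem Den2.surj {k F : Type} [Fintype k] [Field k] [Field F] [IsAlgClosed F] (σ : F →+* F)
    (h : ∀ y, σ y = y ^ Fintype.card k) : Function.Surjective σ := fun x => by
  obtain ⟨y, hy⟩ := IsAlgClosed.exists_pow_nat_eq x (Fintype.card_pos (α := k))
  exact ⟨y, by rw [h, hy]⟩

theorem denN : DenNS := fun _ _ _ _ _ _ _ _ σ A G c h hA _ hE =>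
  Pool.Agent.DS.DN.denN σ A G c (Den2.surj σ h) hA hE

theorem denC : DenCS := fun _ _ _ _ _ _ _ _ σ A G c a b h hA hc hE hP =>
  Pool.Agent.DS.DN.denC σ A G c (Den2.surj σ h) hA hc a b hE hP

end Pool.Agent.CSU.SA.DS
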