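import Mathlib

/-! Binary eigenforms of the rank 2 system: weights, evaluation, primitive eigenforms (helper36). -/

open MvPolynomial
open scoped Polynomial

namespace DS.E8

variable {F : Type*} [Field F]

/-- The operator `S`: `s` on the constants, `Y0 ↦ Y1`, `Y1 ↦ e Y0 + G Y1`. -/
noncomputable def Sop (s : F →+* F) (e : F[X]) (G : F) :
    MvPolynomial (Fin 2) F[X] →+* MvPolynomial (Fin 2) F[X] :=
  eval₂Hom (C.comp (Polynomial.mapRingHom s)) ![X 1, C e * X 0 + C (Polynomial.C G) * X 1]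

/-- Value at `t = x`, `Y = V`. -/
noncomputable def ev (x : F) (V : Fin 2 → F) : MvPolynomial (Fin 2) F[X] →+* F :=
  eval₂Hom (Polynomial.evalRingHom x) V

@[simp] lemma Sop_C (s : F →+* F) (e : F[X]) (G : F) (a : F[X]) :
    Sop s e G (C a) = C (a.map s) := by simp [Sop]
@[simp] lemma Sop_X0 (s : F →+* F) (e : F[X]) (G : F) : Sop s e G (X 0) = X 1 := by simp [Sop]
@[simp] lemma Sop_X1 (s : F →+* F) (e : F[X]) (G : F) :
    Sop s e G (X 1) = C e * X 0 + C (Polynomial.C G) * X 1 := by simp [Sop]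
@[simp] lemma ev_C (x : F) (V : Fin 2 → F) (a : F[X]) : ev x V (C a) = a.eval x := by simp [ev]
@[simp] lemma ev_X (x : F) (V : Fin 2 → F) (i : Fin 2) : ev x V (X i) = V i := by simp [ev]

lemma ev_Sop (s : F →+* F) (e : F[X]) (G : F) {x x' : F} {V V' : Fin 2 → F} (hx : s x' = x)
    (h0 : s (V' 0) = V 1) (h1 : s (V' 1) = e.eval x * V 0 + G * V 1)
    (f : MvPolynomial (Fin 2) F[X]) : ev x V (Sop s e G f) = s (ev x' V' f) := by
  have : (ev x V).comp (Sop s e G) = s.comp (ev x' V') := by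
    refine MvPolynomial.ringHom_ext (fun a => ?_) (fun i => ?_)
    · simp only [RingHom.comp_apply, Sop_C, ev_C]
      rw [← hx, Polynomial.eval_map, Polynomial.eval₂_hom]
    · fin_cases i
      · simp [h0]
      · simp [h1]
  exact RingHom.congr_fun this f

lemma mon_eq {B : Type*} [CommSemiring B] (α : Fin 2 →₀ ℕ) (a : B) :
    (monomial α a : MvPolynomial (Fin 2) B) = C a * (X 0 ^ α 0 * X 1 ^ α 1) := by
  rw [monomial_eq, Finsupp.prod_fintype _ _ (by simp), Fin.prod_univ_two]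

lemma hom_deg {B : Type*} [CommSemiring B] {f : MvPolynomial (Fin 2) B} {m : ℕ}
    (hf : f.IsHomogeneous m) {α : Fin 2 →₀ ℕ} (h : coeff α f ≠ 0) : α 0 + α 1 = m := by
  by_contra hne
  refine h (hf.coeff_eq_zero ?_)
  rwa [Finsupp.degree_eq_sum, Fin.sum_univ_two]

lemma Sop_hom (s : F →+* F) (e : F[X]) (G : F) {f : MvPolynomial (Fin 2) F[X]} {m : ℕ}
    (hf : f.IsHomogeneous m) : (Sop s e G f).IsHomogeneous m := by
  have := hf.eval₂ (τ := Fin 2) (n := 1) (C.comp (Polynomial.mapRingHom s))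
    ![X 1, C e * X 0 + C (Polynomial.C G) * X 1] (fun r => isHomogeneous_C _ _) (fun i => by
      fin_cases i
      · exact isHomogeneous_X _ _
      · exact (isHomogeneous_C_mul_X _ _).add (isHomogeneous_C_mul_X _ _))
  simpa [Sop] using this

lemma hom_of_C_mul {f : MvPolynomial (Fin 2) F[X]} {m : ℕ} {a : F[X]} (ha : a ≠ 0)
    (hf : (C a * f).IsHomogeneous m) : f.IsHomogeneous m := by
  intro d hd
  exact hf (by rw [coeff_C_mul]; exact mul_ne_zero ha hd)

/-- weight bound: `t` has weight 2, `Y0` weight 0, `Y1` weight `w`. -/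
def Bd (w n : ℕ) (f : MvPolynomial (Fin 2) F[X]) : Prop :=
  ∀ (α : Fin 2 →₀ ℕ) (i : ℕ), (coeff α f).coeff i ≠ 0 → 2 * i + w * α 1 ≤ n

lemma Bd.mono {w n n' : ℕ} {f : MvPolynomial (Fin 2) F[X]} (h : Bd w n f) (hn : n ≤ n') :
    Bd w n' f := fun α i hi => (h α i hi).trans hn

lemma Bd.zero (w n : ℕ) : Bd w n (0 : MvPolynomial (Fin 2) F[X]) := fun α i hi => by simp at hi

lemma Bd.add {w n : ℕ} {f g : MvPolynomial (Fin 2) F[X]} (hf : Bd w n f) (hg : Bd w n g) :
    Bd w n (f + g) := fun α i hi => by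
  rw [coeff_add, Polynomial.coeff_add] at hi
  by_cases h : (coeff α f).coeff i = 0
  · exact hg α i (by simpa [h] using hi)
  · exact hf α i h

lemma Bd.mul {w a b : ℕ} {f g : MvPolynomial (Fin 2) F[X]} (hf : Bd w a f) (hg : Bd w b g) :
    Bd w (a + b) (f * g) := fun α i hi => by
  rw [coeff_mul, Polynomial.finsetSum_coeff] at hi
  obtain ⟨x, hx, hx0⟩ := Finset.exists_ne_zero_of_sum_ne_zero hi
  rw [Polynomial.coeff_mul] at hx0
  obtain ⟨y, hy, hy0⟩ := Finset.exists_ne_zero_of_sum_ne_zero hx0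
  have h1 := hf _ _ (left_ne_zero_of_mul hy0)
  have h2 := hg _ _ (right_ne_zero_of_mul hy0)
  rw [Finset.HasAntidiagonal.mem_antidiagonal] at hx hy
  rw [← hx, ← hy, Finsupp.add_apply]
  nlinarith

lemma Bd_C (w : ℕ) (a : F[X]) : Bd w (2 * a.natDegree) (C a : MvPolynomial (Fin 2) F[X]) :=
  fun α i hi => by
  rw [coeff_C] at hi
  split_ifs at hi with h
  · have := Polynomial.le_natDegree_of_ne_zero hi
    rw [← h]; simp; omega
  · simp at hi

lemma Bd_X (w : ℕ) (j : Fin 2) :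
    Bd w (if j = 1 then w else 0) (X j : MvPolynomial (Fin 2) F[X]) := fun α i hi => by
  rw [coeff_X] at hi
  split_ifs at hi with h
  · have hi0 : i = 0 := by
      by_contra hne
      exact hi (by rw [Polynomial.coeff_one, if_neg hne])
    rw [← h, hi0]
    fin_cases j <;> simp
  · simp at hi

lemma Bd.pow {w a : ℕ} {f : MvPolynomial (Fin 2) F[X]} (hf : Bd w a f) (k : ℕ) :
    Bd w (k * a) (f ^ k) := by
  induction k with
  | zero => simpa using Bd_C (F := F) w 1
  | succ k ih => rw [pow_succ, Nat.succ_mul]; exact ih.mul hf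

lemma Bd_hom (s : F →+* F) {w n m : ℕ} (v : Fin 2 → MvPolynomial (Fin 2) F[X])
    (h0 : Bd w w (v 0)) (h1 : Bd w (2 * w) (v 1)) {f : MvPolynomial (Fin 2) F[X]}
    (hf : f.IsHomogeneous m) (hn : Bd w n f) :
    Bd w (n + w * m) (eval₂Hom (C.comp (Polynomial.mapRingHom s)) v f) := by
  rw [f.as_sum, map_sum]
  refine Finset.sum_induction _ (Bd w (n + w * m)) (fun _ _ => Bd.add) (Bd.zero _ _) ?_
  intro α hα
  rw [mem_support_iff] at hα
  have hd := hom_deg hf hα
  have hl := hn α _ (Polynomial.leadingCoeff_ne_zero.2 hα)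
  rw [mon_eq]
  simp only [map_mul, map_pow, eval₂Hom_C, eval₂Hom_X', RingHom.comp_apply,
    Polynomial.coe_mapRingHom]
  refine ((Bd_C w _).mul ((h0.pow _).mul (h1.pow _))).mono ?_
  have := Polynomial.natDegree_map_le (f := s) (p := coeff α f)
  rw [← hd]; nlinarith

lemma Bd_exists (w : ℕ) (f : MvPolynomial (Fin 2) F[X]) : ∃ n, Bd w n f := by
  induction f using MvPolynomial.induction_on with
  | C a => exact ⟨_, Bd_C w a⟩
  | add p q hp hq =>
    obtain ⟨a, ha⟩ := hp
    obtain ⟨b, hb⟩ := hq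
    exact ⟨a + b, (ha.mono (by omega)).add (hb.mono (by omega))⟩
  | mul_X p i hp =>
    obtain ⟨a, ha⟩ := hp
    exact ⟨_, ha.mul (Bd_X w i)⟩

lemma Bd.cancel {w n : ℕ} {f : MvPolynomial (Fin 2) F[X]} {a : F[X]} (ha : a ≠ 0) (hf : f ≠ 0)
    (h : Bd w n (C a * f)) : ∃ k, n = 2 * a.natDegree + k ∧ Bd w k f := by
  have key : ∀ (α : Fin 2 →₀ ℕ) (i : ℕ), (coeff α f).coeff i ≠ 0 →
      2 * a.natDegree + (2 * i + w * α 1) ≤ n := by
    intro α i hi
    have h0 : coeff α f ≠ 0 := fun h0 => hi (by simp [h0])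
    have h1 := h α (a.natDegree + (coeff α f).natDegree) (by
      rw [coeff_C_mul, Polynomial.coeff_mul_degree_add_degree]
      exact mul_ne_zero (Polynomial.leadingCoeff_ne_zero.2 ha) (Polynomial.leadingCoeff_ne_zero.2 h0))
    have := Polynomial.le_natDegree_of_ne_zero hi
    omega
  obtain ⟨α, hα⟩ := MvPolynomial.ne_zero_iff.1 hf
  have := key α _ (Polynomial.leadingCoeff_ne_zero.2 hα)
  exact ⟨n - 2 * a.natDegree, by omega, fun β i hi => by have := key β i hi; omega⟩

lemma scale_hom {f : MvPolynomial (Fin 2) F[X]} {m : ℕ} (hf : f.IsHomogeneous m) (a : F[X]) :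
    eval₂Hom C (fun i => C a * X i) f = C (a ^ m) * f := by
  conv_lhs => rw [f.as_sum]
  conv_rhs => rw [f.as_sum]
  rw [map_sum, Finset.mul_sum]
  refine Finset.sum_congr rfl fun α hα => ?_
  rw [mem_support_iff] at hα
  rw [mon_eq, ← hom_deg hf hα]
  simp only [map_mul, map_pow, eval₂Hom_C, eval₂Hom_X']
  ring

/-- the eigenvalue of a form of degree `m` has degree `w m / 2`. -/
theorem weight (s s' : F →+* F) (h1 : ∀ x, s' (s x) = x) {e : F[X]} (he : e ≠ 0) (G : F)
    {f : MvPolynomial (Fin 2) F[X]} {m : ℕ} (hf : f.IsHomogeneous m) (h0 : f ≠ 0) {ρ : F[X]}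
    (h : Sop s e G f = C ρ * f) : ρ ≠ 0 ∧ 2 * ρ.natDegree = e.natDegree * m := by
  classical
  set w := e.natDegree with hw
  have hmap : ∀ a : F[X], (a.map s).map s' = a := fun a => by
    rw [Polynomial.map_map, show s'.comp s = RingHom.id F from RingHom.ext h1, Polynomial.map_id]
  set e' := e.map s' with he'
  have he'0 : e' ≠ 0 := (Polynomial.map_ne_zero_iff s'.injective).2 he
  have hd' : e'.natDegree = w := Polynomial.natDegree_map _
  let v : Fin 2 → MvPolynomial (Fin 2) F[X] :=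
    ![X 1 + C (Polynomial.C (- s' G)) * X 0, C e' * X 0]
  have hcomp : (eval₂Hom (C.comp (Polynomial.mapRingHom s')) v).comp (Sop s e G)
      = eval₂Hom C (fun i => C e' * X i) := by
    refine MvPolynomial.ringHom_ext (fun a => ?_) (fun i => ?_)
    · simp [hmap]
    · fin_cases i
      · simp [v]
      · simp [v, ← he']; ring
  have h2 : C (e' ^ m) * f = C (ρ.map s') * eval₂Hom (C.comp (Polynomial.mapRingHom s')) v f := by
    rw [← scale_hom hf, ← hcomp, RingHom.comp_apply, h, map_mul]; simp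
  have hρ : ρ ≠ 0 := by
    rintro rfl
    simp [he'0, h0] at h2
  let n := Nat.find (Bd_exists w f)
  have hn : Bd w n f := Nat.find_spec (Bd_exists w f)
  have hmin : ∀ k, Bd w k f → n ≤ k := fun k hk => Nat.find_min' _ hk
  have hX0 : Bd w 0 (X 0 : MvPolynomial (Fin 2) F[X]) := by simpa using Bd_X (F := F) w 0
  have hX1 : Bd w w (X 1 : MvPolynomial (Fin 2) F[X]) := by simpa using Bd_X (F := F) w 1
  refine ⟨hρ, le_antisymm ?_ ?_⟩
  · have hb : Bd w (n + w * m) (Sop s e G f) :=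
      Bd_hom s _ hX1 ((((Bd_C w e).mul hX0).mono (by omega)).add
        (((Bd_C w _).mul hX1).mono (by simp; omega))) hf hn
    rw [h] at hb
    obtain ⟨k, hk, hk'⟩ := hb.cancel hρ h0
    have := hmin k hk'
    omega
  · have hb := (Bd_C w (ρ.map s')).mul (Bd_hom s' v (hX1.add (((Bd_C w _).mul hX0).mono (by simp)))
      (((Bd_C w e').mul hX0).mono (by omega)) hf hn)
    rw [← h2] at hb
    obtain ⟨k, hk, hk'⟩ := hb.cancel (pow_ne_zero _ he'0) h0
    have := hmin k hk'
    rw [Polynomial.natDegree_pow, Polynomial.natDegree_map, hd', mul_comm m w] at hk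
    omega

end DS.E8
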