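import Pool.Agent.Lib.MP_0c15f2_nt.DS.E8b

/-! Reduction of an eigenform to degree at most two (helper36). -/

open MvPolynomial
open scoped Polynomial

namespace DS.E8

variable {F : Type*} [Field F]

/-- derivative of the coefficients -/
noncomputable def Dc (f : MvPolynomial (Fin 2) F[X]) : MvPolynomial (Fin 2) F[X] :=
  ∑ α ∈ f.support, monomial α (Polynomial.derivative (coeff α f))

lemma coeff_Dc (α : Fin 2 →₀ ℕ) (f : MvPolynomial (Fin 2) F[X]) :
    coeff α (Dc f) = Polynomial.derivative (coeff α f) := by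
  classical
  rw [Dc, coeff_sum]
  simp only [coeff_monomial, Finset.sum_ite_eq', mem_support_iff]
  split_ifs with h
  · rfl
  · rw [not_not.1 h, map_zero]

lemma Dc_mul (f g : MvPolynomial (Fin 2) F[X]) : Dc (f * g) = Dc f * g + f * Dc g := by
  ext1 α
  simp only [coeff_Dc, coeff_add, coeff_mul, Polynomial.derivative_sum, Polynomial.derivative_mul,
    Finset.sum_add_distrib]

lemma Dc_mon (α : Fin 2 →₀ ℕ) (a : F[X]) :
    Dc (monomial α a) = monomial α (Polynomial.derivative a) := by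
  classical
  ext1 β
  rw [coeff_Dc, coeff_monomial, coeff_monomial]
  split_ifs <;> simp

lemma Dc_C (a : F[X]) : Dc (C a) = C (Polynomial.derivative a) := Dc_mon 0 a

lemma Dc_pow (g : MvPolynomial (Fin 2) F[X]) (n : ℕ) :
    Dc (g ^ (n + 1)) = ((n + 1 : ℕ) : MvPolynomial (Fin 2) F[X]) * g ^ n * Dc g := by
  induction n with
  | zero => simp
  | succ n ih => rw [pow_succ, Dc_mul, ih]; push_cast; ring

lemma Dc_sum {ι : Type*} (t : Finset ι) (g : ι → MvPolynomial (Fin 2) F[X]) :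
    Dc (∑ i ∈ t, g i) = ∑ i ∈ t, Dc (g i) := by
  ext1 α
  simp only [coeff_Dc, coeff_sum, Polynomial.derivative_sum]

variable (p : ℕ) [hp : Fact p.Prime] [CharP F p]

lemma Dc_pow_char (g : MvPolynomial (Fin 2) F[X]) : Dc (g ^ p) = 0 := by
  obtain ⟨n, hn⟩ : ∃ n, p = n + 1 := ⟨p - 1, by have := hp.out.pos; omega⟩
  have : Dc (g ^ p) = (p : MvPolynomial (Fin 2) F[X]) * g ^ n * Dc g := by
    conv_lhs => rw [hn]
    rw [Dc_pow, ← hn]
  rw [this, CharP.cast_eq_zero, zero_mul, zero_mul]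

lemma Dc_Sop (s : F →+* F) (e : F[X]) (G : F) {f : MvPolynomial (Fin 2) F[X]}
    (hf : ∀ α, coeff α f ≠ 0 → ∀ i, p ∣ α i) : Dc (Sop s e G f) = Sop s e G (Dc f) := by
  conv_lhs => rw [f.as_sum]
  rw [Dc.eq_1 f, map_sum, map_sum, Dc_sum]
  refine Finset.sum_congr rfl fun α hα => ?_
  rw [mem_support_iff] at hα
  obtain ⟨a, ha⟩ := hf α hα 0
  obtain ⟨b, hb⟩ := hf α hα 1
  have : (X 0 ^ α 0 * X 1 ^ α 1 : MvPolynomial (Fin 2) F[X]) = (X 0 ^ a * X 1 ^ b) ^ p := by
    rw [ha, hb]; ring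
  rw [mon_eq, mon_eq, this, map_mul, map_mul (Sop s e G) (C _), map_pow, Dc_mul, Dc_pow_char,
    Sop_C, Sop_C, Dc_C, Polynomial.derivative_map, mul_zero, add_zero]

lemma pth_root [PerfectRing F p] {f : MvPolynomial (Fin 2) F[X]} {m : ℕ} (hm : f.IsHomogeneous (p * m))
    (hf : ∀ α, coeff α f ≠ 0 → ∀ i, p ∣ α i) (hD : Dc f = 0) :
    ∃ g : MvPolynomial (Fin 2) F[X], g.IsHomogeneous m ∧ g ^ p = f := by
  rw [f.as_sum]
  refine Finset.sum_induction _ (fun f => ∃ g : MvPolynomial (Fin 2) F[X],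
    g.IsHomogeneous m ∧ g ^ p = f) ?_ ⟨0, isHomogeneous_zero _ _ _, zero_pow hp.out.ne_zero⟩ ?_
  · rintro _ _ ⟨g, hg, rfl⟩ ⟨g', hg', rfl⟩
    exact ⟨g + g', hg.add hg', add_pow_char _ _ _⟩
  · intro α hα
    rw [mem_support_iff] at hα
    obtain ⟨a, ha⟩ := hf α hα 0
    obtain ⟨b, hb⟩ := hf α hα 1
    have hd := hom_deg hm hα
    have hab : a + b = m := Nat.eq_of_mul_eq_mul_left hp.out.pos (by rw [mul_add, ← ha, ← hb, hd])
    have h0 : Polynomial.derivative (coeff α f) = 0 := by rw [← coeff_Dc, hD, coeff_zero]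
    have h1 := Polynomial.expand_contract p h0 hp.out.ne_zero
    have h2 : ((Polynomial.contract p (coeff α f)).map (frobeniusEquiv F p).symm) ^ p
        = coeff α f := by
      rw [← Polynomial.map_frobenius_expand, Polynomial.map_expand, Polynomial.map_map,
        frobenius_comp_frobeniusEquiv_symm, Polynomial.map_id, h1]
    refine ⟨C ((Polynomial.contract p (coeff α f)).map (frobeniusEquiv F p).symm)
      * (X 0 ^ a * X 1 ^ b), ?_, ?_⟩
    · rw [← hab]
      exact ((isHomogeneous_X_pow _ _).mul (isHomogeneous_X_pow _ _)).C_mul _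
    · rw [mon_eq, mul_pow, ← map_pow, h2, ha, hb]; ring

/-- an eigenform in `Y0^p, Y1^p` whose eigenvalue is a `p`-th power gives one of degree `m / p`. -/
lemma caseA [PerfectRing F p] (s : F →+* F) (e : F[X]) (G : F) {m : ℕ} (l : F[X]) (n : ℕ) :
    ∀ f : MvPolynomial (Fin 2) F[X], Bd 0 n f → f ≠ 0 → f.IsHomogeneous (p * m) →
    (∀ α, coeff α f ≠ 0 → ∀ i, p ∣ α i) → Sop s e G f = C (l ^ p) * f →
    ∃ g : MvPolynomial (Fin 2) F[X], g.IsHomogeneous m ∧ g ≠ 0 ∧ Eig s e G g := by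
  induction n using Nat.strong_induction_on with
  | _ n ih =>
    intro f hb h0 hm hf hS
    by_cases hD : Dc f = 0
    · obtain ⟨g, hg, rfl⟩ := pth_root p hm hf hD
      refine ⟨g, hg, fun h => h0 (by rw [h, zero_pow hp.out.ne_zero]), 1, l, one_ne_zero, ?_⟩
      rw [map_pow, map_pow, ← mul_pow] at hS
      rw [map_one, one_mul]
      exact frobenius_inj _ p hS
    · have hsup : ∀ α, coeff α (Dc f) ≠ 0 → coeff α f ≠ 0 := fun α h h' =>
        h (by rw [coeff_Dc, h', map_zero])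
      have hb' : ∀ (α : Fin 2 →₀ ℕ) (i : ℕ), (coeff α (Dc f)).coeff i ≠ 0 → 2 * i + 2 ≤ n := by
        intro α i hi
        rw [coeff_Dc, Polynomial.coeff_derivative] at hi
        have := hb α _ (left_ne_zero_of_mul hi)
        omega
      obtain ⟨α, hα⟩ := MvPolynomial.ne_zero_iff.1 hD
      have hn := hb' α _ (Polynomial.leadingCoeff_ne_zero.2 hα)
      refine ih (n - 2) (by omega) (Dc f) (fun β i hi => by have := hb' β i hi; omega) hD
        (fun d hd => hm (hsup d hd)) (fun β hβ => hf β (hsup β hβ)) ?_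
      rw [← Dc_Sop p s e G hf, hS, Dc_mul, map_pow, Dc_pow_char, zero_mul, zero_add]

omit hp in
lemma exp_dvd {f : MvPolynomial (Fin 2) F[X]} (h : ∀ i, pderiv i f = 0) (α : Fin 2 →₀ ℕ)
    (hα : coeff α f ≠ 0) (i : Fin 2) : p ∣ α i := by
  rcases hi : α i with _ | k
  · exact dvd_zero _
  · have hle : Finsupp.single i 1 ≤ α := Finsupp.single_le_iff.2 (by omega)
    have h1 := coeff_pderiv (i := i) f (α - Finsupp.single i 1)
    rw [h, coeff_zero, tsub_add_cancel_of_le hle] at h1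
    have h2 := (mul_eq_zero.1 h1.symm).resolve_left hα
    rw [Finsupp.tsub_apply, hi, Finsupp.single_eq_same, Nat.add_sub_cancel] at h2
    exact (CharP.cast_eq_zero_iff F[X] p _).1 (by exact_mod_cast h2)

/-- the backward orbit of the bad point -/
noncomputable def orb (s' : F →+* F) (e : F[X]) (G c : F) : ℕ → F × (Fin 2 → F)
  | 0 => (c, ![0, 1])
  | n + 1 => (s' (orb s' e G c n).1, ![s' ((orb s' e G c n).2 1),
      s' (e.eval (orb s' e G c n).1 * (orb s' e G c n).2 0 + G * (orb s' e G c n).2 1)])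

omit hp in
lemma orb_spec (s s' : F →+* F) (h2 : ∀ x, s (s' x) = x) (e : F[X]) (G : F) {c : F}
    (hc : ∀ i, 0 < i → s^[i] c ≠ c) (he : ∀ x, x ≠ c → e.eval x ≠ 0) :
    (∀ f n, ev (orb s' e G c n).1 (orb s' e G c n).2 (Sop s e G f)
      = s (ev (orb s' e G c (n + 1)).1 (orb s' e G c (n + 1)).2 f)) ∧
    Function.Injective (fun n => (orb s' e G c n).1) ∧
    ∀ n, (orb s' e G c n).2 0 ≠ 0 ∨ (orb s' e G c n).2 1 ≠ 0 := by
  have hit : ∀ k n, s^[k] (orb s' e G c (n + k)).1 = (orb s' e G c n).1 := by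
    intro k n
    induction k with
    | zero => rfl
    | succ k ih => rw [Function.iterate_succ_apply, ← add_assoc, orb, h2, ih]
  have hlt : ∀ n k, (orb s' e G c n).1 ≠ (orb s' e G c (n + (k + 1))).1 := by
    intro n k h
    have h3 := hit (n + (k + 1)) 0
    rw [zero_add, ← h, add_comm n, Function.iterate_add_apply] at h3
    have h4 := hit n 0
    rw [zero_add] at h4
    rw [h4] at h3
    exact hc _ (Nat.succ_pos k) h3
  have hinj : Function.Injective (fun n => (orb s' e G c n).1) := by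
    intro a b hab
    rcases lt_trichotomy a b with h | h | h
    · exact absurd hab (by
        obtain ⟨k, rfl⟩ := Nat.exists_eq_add_of_lt h; exact hlt a k)
    · exact h
    · exact absurd hab.symm (by
        obtain ⟨k, rfl⟩ := Nat.exists_eq_add_of_lt h; exact hlt b k)
  refine ⟨fun f n => ev_Sop s e G (h2 _) (h2 _) (h2 _) f, hinj, fun n => ?_⟩
  induction n with
  | zero => right; simp [orb]
  | succ n ih =>
    by_contra hcon
    push Not at hcon
    obtain ⟨h0, h1⟩ := hcon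
    have h0' : (orb s' e G c n).2 1 = 0 := (map_eq_zero s').1 h0
    have h1' := (map_eq_zero s').1 h1
    rw [h0', mul_zero, add_zero, mul_eq_zero] at h1'
    rcases n with _ | n
    · simp [orb] at h0'
    · have hne : (orb s' e G c (n + 1)).1 ≠ c := fun h =>
        absurd (hinj (a₁ := n + 1) (a₂ := 0) h) (Nat.succ_ne_zero n)
      exact ih.elim (fun h => h (h1'.resolve_left (he _ hne))) (fun h => h h0')

/-- RED: an eigenform gives one of degree 1 or 2. -/
theorem red [IsAlgClosed F] [Uncountable F] (s s' : F →+* F) (h1 : ∀ x, s' (s x) = x)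
    {A c : F} (hA : A ≠ 0) (G : F) {w : ℕ} (hw : 0 < w) (hc : ∀ i, 0 < i → s^[i] c ≠ c)
    (hpj : ∀ m j, 2 * j = w * m → p ∣ m → p ∣ j) (m : ℕ) :
    ∀ f : MvPolynomial (Fin 2) F[X], 0 < m → f.IsHomogeneous m → f ≠ 0 →
    Eig s (Polynomial.C A * (Polynomial.X - Polynomial.C c) ^ w) G f →
    ∃ (P : MvPolynomial (Fin 2) F[X]) (k : ℕ) (γ : F) (j : ℕ), 0 < k ∧ k ≤ 2 ∧ P ≠ 0 ∧
      P.IsHomogeneous k ∧ γ ≠ 0 ∧ 2 * j = w * k ∧
      Sop s (Polynomial.C A * (Polynomial.X - Polynomial.C c) ^ w) G P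
        = C (Polynomial.C γ * (Polynomial.X - Polynomial.C c) ^ j) * P := by
  have h2 : ∀ x, s (s' x) = x := fun x => s'.injective (h1 _)
  induction m using Nat.strong_induction_on with
  | _ m ih =>
    intro f hm hf h0 he
    obtain ⟨P, -, γ, j, -, hP0, hP, -, hγ, hj, hS⟩ := G3 s s' h1 hA G w hf h0 he
    by_cases hjw : j ≤ w
    · exact ⟨P, m, γ, j, hm, by nlinarith, hP0, hP, hγ, hj, hS⟩
    set e := Polynomial.C A * (Polynomial.X - Polynomial.C c) ^ w with hedef
    by_cases hd : ∀ i, pderiv i P = 0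
    · have hdv := exp_dvd p hd
      obtain ⟨α, hα⟩ := MvPolynomial.ne_zero_iff.1 hP0
      obtain ⟨m', rfl⟩ : p ∣ m := by
        rw [← hom_deg hP hα]; exact dvd_add (hdv α hα 0) (hdv α hα 1)
      obtain ⟨j', rfl⟩ := hpj _ _ hj (dvd_mul_right _ _)
      obtain ⟨γ', rfl⟩ := IsAlgClosed.exists_pow_nat_eq γ hp.out.pos
      obtain ⟨n, hn⟩ := Bd_exists 0 P
      obtain ⟨g, hg, hg0, hge⟩ := caseA p s e G
        (Polynomial.C γ' * (Polynomial.X - Polynomial.C c) ^ j') n P hn hP0 hP hdv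
        (by rw [hS, mul_pow, ← map_pow, ← pow_mul, mul_comm j' p])
      have hm' : 0 < m' := Nat.pos_of_mul_pos_left hm
      exact ih m' (by have := hp.out.two_le; nlinarith) g hm' hg hg0 hge
    push Not at hd
    obtain ⟨i, hi⟩ := hd
    have hev : ∀ x, x ≠ c → e.eval x ≠ 0 := fun x hx => by simp [hedef, hA, sub_eq_zero, hx]
    obtain ⟨hO, hinj, hV⟩ := orb_spec s s' h2 e G hc hev
    obtain ⟨hd0, hd1⟩ := pderiv_Sop s e G P
    rw [hS, pderiv_C_mul] at hd0 hd1
    obtain ⟨k, rfl⟩ := Nat.exists_eq_add_of_lt (not_le.1 hjw)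
    have hd0' : C (Polynomial.C γ * (Polynomial.X - Polynomial.C c) ^ (k + 1)) * pderiv 0 P
        = C (Polynomial.C A) * Sop s e G (pderiv 1 P) := by
      refine mul_left_cancel₀ (C_ne_zero.2 (pow_ne_zero w (Polynomial.X_sub_C_ne_zero c))) ?_
      rw [← mul_assoc, ← mul_assoc, ← map_mul, ← map_mul, mul_comm _ (Polynomial.C A), ← hedef,
        ← hd0]
      congr 2; ring
    have hz : ∀ n, ev (orb s' e G c (n + 1)).1 (orb s' e G c (n + 1)).2 (pderiv 0 P) = 0 ∧
        ev (orb s' e G c (n + 1)).1 (orb s' e G c (n + 1)).2 (pderiv 1 P) = 0 := by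
      have step : ∀ n, ((orb s' e G c n).1 = c ∨
          (ev (orb s' e G c n).1 (orb s' e G c n).2 (pderiv 0 P) = 0 ∧
            ev (orb s' e G c n).1 (orb s' e G c n).2 (pderiv 1 P) = 0)) →
          ev (orb s' e G c (n + 1)).1 (orb s' e G c (n + 1)).2 (pderiv 0 P) = 0 ∧
            ev (orb s' e G c (n + 1)).1 (orb s' e G c (n + 1)).2 (pderiv 1 P) = 0 := by
        intro n hn
        have e0 := congrArg (ev (orb s' e G c n).1 (orb s' e G c n).2) hd0'
        have e1 := congrArg (ev (orb s' e G c n).1 (orb s' e G c n).2) hd1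
        simp only [map_mul, map_add, ev_C, hO, Polynomial.eval_C] at e0 e1
        have f0 : s (ev (orb s' e G c (n + 1)).1 (orb s' e G c (n + 1)).2 (pderiv 1 P)) = 0 := by
          refine (mul_eq_zero.1 (e0.symm.trans ?_)).resolve_left hA
          rcases hn with hn | hn
          · simp [hn]
          · rw [hn.1, mul_zero]
        rw [f0, mul_zero, add_zero] at e1
        refine ⟨(map_eq_zero s).1 (e1.symm.trans ?_), (map_eq_zero s).1 f0⟩
        rcases hn with hn | hn
        · simp [hn]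
        · rw [hn.2, mul_zero]
      intro n
      induction n with
      | zero => exact step 0 (Or.inl rfl)
      | succ n ihn => exact step _ (Or.inr ihn)
    obtain ⟨g, k', hk0, hk, hg, hg0, -, hge⟩ := orbit_min s e G (fun n => (orb s' e G c (n + 1)).1)
      (fun n => (orb s' e G c (n + 1)).2)
      (fun a b hab => Nat.succ_injective (hinj hab)) (fun n => hV _) (fun f n => hO f _) (m - 1)
      (pderiv i P) hP.pderiv hi (fun n => by
        fin_cases i
        · exact (hz n).1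
        · exact (hz n).2)
    exact ih k' (by omega) g hk0 hg hg0 hge

end DS.E8
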