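import Pool.Agent.Lib.MP_0c15f2_nt.DS.E8c

/-! (E): a binary eigenform gives a non scalar endomorphism, every characteristic (helper36). -/

open MvPolynomial
open scoped Polynomial

namespace DS.E8

variable {F : Type*} [Field F]

/-- the three equations of a quadratic eigenform with eigenvalue `γ e` -/
def Tri (s : F →+* F) (e : F[X]) (G γ : F) (a b d : F[X]) : Prop :=
  d.map s * e = Polynomial.C γ * a ∧
  b.map s + 2 * Polynomial.C G * d.map s = Polynomial.C γ * b ∧
  a.map s + Polynomial.C G * b.map s + Polynomial.C G ^ 2 * d.map s = Polynomial.C γ * (e * d)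

lemma quad_eq {B : Type*} [CommRing B] {f : MvPolynomial (Fin 2) B} (hf : f.IsHomogeneous 2) :
    ∃ a b d : B, f = C a * X 0 ^ 2 + C b * (X 0 * X 1) + C d * X 1 ^ 2 := by
  rw [f.as_sum]
  refine Finset.sum_induction _ (fun f : MvPolynomial (Fin 2) B => ∃ a b d : B,
    f = C a * X 0 ^ 2 + C b * (X 0 * X 1) + C d * X 1 ^ 2) ?_ ⟨0, 0, 0, by simp⟩ ?_
  · rintro _ _ ⟨a, b, d, rfl⟩ ⟨a', b', d', rfl⟩
    exact ⟨a + a', b + b', d + d', by simp only [map_add]; ring⟩
  · intro α hα
    rw [mem_support_iff] at hα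
    have hd := hom_deg hf hα
    rw [mon_eq]
    have : (α 0 = 2 ∧ α 1 = 0) ∨ (α 0 = 1 ∧ α 1 = 1) ∨ (α 0 = 0 ∧ α 1 = 2) := by omega
    rcases this with h | h | h
    · exact ⟨coeff α f, 0, 0, by rw [h.1, h.2]; simp⟩
    · exact ⟨0, coeff α f, 0, by rw [h.1, h.2]; simp⟩
    · exact ⟨0, 0, coeff α f, by rw [h.1, h.2]; simp⟩

lemma tri_of_quad (s : F →+* F) {e : F[X]} (he : e ≠ 0) (G γ : F) {f : MvPolynomial (Fin 2) F[X]}
    (hf : f.IsHomogeneous 2) (h0 : f ≠ 0) (h : Sop s e G f = C (Polynomial.C γ * e) * f) :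
    ∃ a b d : F[X], ¬ (a = 0 ∧ b = 0 ∧ d = 0) ∧ Tri s e G γ a b d := by
  obtain ⟨a, b, d, rfl⟩ := quad_eq hf
  refine ⟨a, b, d, fun hz => h0 (by simp [hz.1, hz.2.1, hz.2.2]), ?_⟩
  have e1 := congrArg (eval ![1, 0]) h
  have e2 := congrArg (eval ![0, 1]) h
  have e3 := congrArg (eval ![1, 1]) h
  simp only [map_add, map_mul, map_pow, Sop_C, Sop_X0, Sop_X1, eval_C, eval_X,
    Matrix.cons_val_zero, Matrix.cons_val_one] at e1 e2 e3
  refine ⟨mul_left_cancel₀ he ?_, mul_left_cancel₀ he ?_, ?_⟩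
  · linear_combination e1
  · linear_combination e3 - e1 - e2
  · linear_combination e2

lemma tri_desc (s : F →+* F) (e : F[X]) (G γ : F) {a b d : F[X]} (h0 : ¬ (a = 0 ∧ b = 0 ∧ d = 0))
    (h : Tri s (Polynomial.expand F 2 e) G γ a b d) :
    ∃ a b d : F[X], ¬ (a = 0 ∧ b = 0 ∧ d = 0) ∧ Tri s e G γ a b d := by
  have hadd : ∀ u v : F[X], Polynomial.contract 2 (u + v)
      = Polynomial.contract 2 u + Polynomial.contract 2 v := fun u v => by
    ext n; simp [Polynomial.coeff_contract two_ne_zero]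
  have hmap : ∀ u : F[X], Polynomial.contract 2 (u.map s) = (Polynomial.contract 2 u).map s :=
    fun u => by ext n; simp [Polynomial.coeff_contract two_ne_zero]
  have hC : ∀ (x : F) (u : F[X]), Polynomial.contract 2 (Polynomial.C x * u)
      = Polynomial.C x * Polynomial.contract 2 u := fun x u => by
    ext n; simp [Polynomial.coeff_contract two_ne_zero]
  have key : ∀ a b d : F[X], Tri s (Polynomial.expand F 2 e) G γ a b d →
      Tri s e G γ (Polynomial.contract 2 a) (Polynomial.contract 2 b) (Polynomial.contract 2 d) := by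
    rintro a b d ⟨h1, h2, h3⟩
    refine ⟨?_, ?_, ?_⟩
    · rw [← hmap, ← Polynomial.contract_mul_expand two_ne_zero, h1, hC]
    · have : (2 * Polynomial.C G : F[X]) = Polynomial.C (2 * G) := by rw [map_mul]; rfl
      rw [this] at h2 ⊢
      rw [← hmap, ← hmap, ← hC, ← hadd, h2, hC]
    · rw [← map_pow] at h3 ⊢
      rw [← hmap, ← hmap, ← hmap, ← hC, ← hC, ← hadd, ← hadd, h3, hC, mul_comm _ d,
        Polynomial.contract_mul_expand two_ne_zero, mul_comm e]
  have hX : Tri s (Polynomial.expand F 2 e) G γ (Polynomial.X * a) (Polynomial.X * b)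
      (Polynomial.X * d) := by
    obtain ⟨h1, h2, h3⟩ := h
    simp only [Tri, Polynomial.map_mul, Polynomial.map_X]
    exact ⟨by linear_combination Polynomial.X * h1, by linear_combination Polynomial.X * h2,
      by linear_combination Polynomial.X * h3⟩
  have hz : ∀ u : F[X], Polynomial.contract 2 u = 0 → Polynomial.contract 2 (Polynomial.X * u) = 0 →
      u = 0 := by
    intro u h1 h2
    ext n
    rcases Nat.even_or_odd' n with ⟨k, rfl | rfl⟩
    · have := congrArg (fun v => v.coeff k) h1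
      simpa [Polynomial.coeff_contract two_ne_zero, mul_comm] using this
    · have := congrArg (fun v => v.coeff (k + 1)) h2
      simp only [Polynomial.coeff_contract two_ne_zero] at this
      rw [show (k + 1) * 2 = (2 * k + 1) + 1 by ring, Polynomial.coeff_X_mul] at this
      simpa using this
  by_contra hcon
  have hcon' : ∀ a b d : F[X], Tri s e G γ a b d → a = 0 ∧ b = 0 ∧ d = 0 := fun a b d ht => by
    by_contra hne
    exact hcon ⟨a, b, d, hne, ht⟩
  have e1 := hcon' _ _ _ (key _ _ _ h)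
  have e2 := hcon' _ _ _ (key _ _ _ hX)
  exact h0 ⟨hz a e1.1 e2.1, hz b e1.2.1 e2.2.1, hz d e1.2.2 e2.2.2⟩

lemma artin_schreier [IsAlgClosed F] (s : F →+* F) {q : ℕ} (hq : 1 < q) (hs : ∀ x, s x = x ^ q)
    (z : F[X]) : ∃ y : F[X], y.map s - y = z := by
  induction z using Polynomial.induction_on' with
  | add u v hu hv =>
    obtain ⟨y, hy⟩ := hu
    obtain ⟨y', hy'⟩ := hv
    exact ⟨y + y', by rw [Polynomial.map_add, ← hy, ← hy']; ring⟩
  | monomial n a =>
    have hdeg : (Polynomial.X ^ q - (Polynomial.X + Polynomial.C a) : F[X]).degree = q := by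
      rw [Polynomial.degree_sub_eq_left_of_degree_lt, Polynomial.degree_X_pow]
      rw [Polynomial.degree_X_add_C, Polynomial.degree_X_pow]
      exact_mod_cast hq
    obtain ⟨x, hx⟩ := IsAlgClosed.exists_root
      (Polynomial.X ^ q - (Polynomial.X + Polynomial.C a) : F[X]) (by
        rw [hdeg]; exact_mod_cast (by omega : q ≠ 0))
    refine ⟨Polynomial.monomial n x, ?_⟩
    rw [Polynomial.map_monomial, ← map_sub, hs]
    congr 1
    have : x ^ q - (x + a) = 0 := by simpa using hx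
    linear_combination this

lemma end_of_tri [IsAlgClosed F] (s : F →+* F) {q : ℕ} (hq : 1 < q) (hs : ∀ x, s x = x ^ q)
    (e : F[X]) (G : F) {γ : F} (hγ : γ ≠ 0) {a b d : F[X]} (h0 : ¬ (a = 0 ∧ b = 0 ∧ d = 0))
    (h : Tri s e G γ a b d) : ∃ y al be de : F[X], ¬ (al = 0 ∧ be = 0 ∧ de = 0) ∧
      e * de.map s = - al ∧ y.map s - Polynomial.C G * de.map s = be + y ∧
      e * (be.map s + y.map s) = e * y + Polynomial.C G * al ∧
      al.map s + Polynomial.C G * (be.map s + y.map s) = - (e * de) + Polynomial.C G * (be + y) := by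
  obtain ⟨μ, hμ⟩ := IsAlgClosed.exists_pow_nat_eq (-γ⁻¹) (n := q - 1) (by omega)
  have hμ0 : μ ≠ 0 := by
    rintro rfl
    rw [zero_pow (by omega)] at hμ
    exact inv_ne_zero hγ (neg_eq_zero.1 hμ.symm)
  have hsμ : s μ * γ = -μ := by
    rw [hs, show q = q - 1 + 1 by omega, pow_succ, hμ]; field_simp
  have hC : (Polynomial.C (s μ) * Polynomial.C γ : F[X]) = - Polynomial.C μ := by
    rw [← map_mul, hsμ, map_neg]
  obtain ⟨h1, h2, h3⟩ := h
  obtain ⟨y, hy⟩ := artin_schreier s hq hs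
    (Polynomial.C μ * b + Polynomial.C G * (Polynomial.C (s μ) * d.map s))
  have hCμ : (Polynomial.C μ : F[X]) ≠ 0 := Polynomial.C_ne_zero.2 hμ0
  refine ⟨y, Polynomial.C μ * a, Polynomial.C μ * b, Polynomial.C μ * d, ?_, ?_⟩
  · simpa [hμ0] using h0
  simp only [Polynomial.map_mul, Polynomial.map_C]
  refine ⟨?_, ?_, ?_, ?_⟩
  · linear_combination Polynomial.C (s μ) * h1 + a * hC
  · linear_combination hy
  · linear_combination e * hy + e * Polynomial.C (s μ) * h2 + e * b * hC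
      - Polynomial.C G * Polynomial.C (s μ) * h1 - Polynomial.C G * a * hC
  · linear_combination Polynomial.C G * hy + Polynomial.C (s μ) * h3 + e * d * hC

/-- (E) A binary eigenform of positive degree gives a non scalar matrix
`E = [[y, -de], [al, be + y]]` with `s(E) Phi = Phi E`, `Phi = [[0, 1], [e, G]]`. -/
theorem noEig [IsAlgClosed F] [Uncountable F] (p : ℕ) [hp : Fact p.Prime] [CharP F p]
    (s : F →+* F) {r : ℕ} (hr : 0 < r) (hs : ∀ x, s x = x ^ p ^ r) {A c : F} (hA : A ≠ 0) (G : F)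
    (hc : ∀ i, 0 < i → s^[i] c ≠ c) {P : MvPolynomial (Fin 2) F[X]} {m : ℕ} (hm : 0 < m)
    (hP : P.IsHomogeneous m) (h0 : P ≠ 0) {e : F[X]}
    (he : e = Polynomial.C A * (Polynomial.X - Polynomial.C c)) (hE : Eig s e G P) :
    ∃ y al be de : F[X], ¬ (al = 0 ∧ be = 0 ∧ de = 0) ∧
      e * de.map s = - al ∧ y.map s - Polynomial.C G * de.map s = be + y ∧
      e * (be.map s + y.map s) = e * y + Polynomial.C G * al ∧
      al.map s + Polynomial.C G * (be.map s + y.map s) = - (e * de) + Polynomial.C G * (be + y) := by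
  have hq : 1 < p ^ r := Nat.one_lt_pow hr.ne' hp.out.one_lt
  have hsurj : Function.Surjective s := fun y => by
    obtain ⟨x, hx⟩ := IsAlgClosed.exists_pow_nat_eq y (n := p ^ r) (by omega)
    exact ⟨x, by rw [hs, hx]⟩
  let σ := RingEquiv.ofBijective s ⟨s.injective, hsurj⟩
  have h1 : ∀ x, (σ.symm : F →+* F) (s x) = x := fun x => σ.symm_apply_apply x
  have hCA : (Polynomial.C A : F[X]) * Polynomial.C A⁻¹ = 1 := by
    rw [← map_mul, mul_inv_cancel₀ hA, map_one]
  suffices h : ∃ (γ : F) (a b d : F[X]), γ ≠ 0 ∧ ¬ (a = 0 ∧ b = 0 ∧ d = 0) ∧ Tri s e G γ a b d by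
    obtain ⟨γ, a, b, d, hγ, hz, ht⟩ := h
    exact end_of_tri s hq hs e G hγ hz ht
  rcases hp.out.eq_two_or_odd' with rfl | hodd
  · obtain ⟨c1, rfl⟩ := IsAlgClosed.exists_pow_nat_eq c (n := 2) two_pos
    have hc1 : ∀ i, 0 < i → s^[i] c1 ≠ c1 := fun i hi h => hc i hi (by
      rw [← RingHom.coe_pow, map_pow, RingHom.coe_pow, h])
    have hexp : Polynomial.expand F 2 e
        = Polynomial.C A * (Polynomial.X - Polynomial.C c1) ^ 2 := by
      rw [he, sub_pow_char]; simp
    let φ : F[X] →+* F[X] := (Polynomial.expand F 2).toRingHom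
    have hφ : Function.Injective φ := Polynomial.expand_injective two_pos
    have hnat : (map φ).comp (Sop s e G) = (Sop s (Polynomial.expand F 2 e) G).comp (map φ) := by
      refine MvPolynomial.ringHom_ext (fun a => ?_) (fun i => ?_)
      · simp [φ, Polynomial.map_expand]
      · fin_cases i <;> simp [φ]
    obtain ⟨a, b, ha, hab⟩ := hE
    obtain ⟨Q, k, γ, j, hk0, hk2, hQ0, hQ, hγ, hj, hS⟩ := red 2 s σ.symm h1 hA G two_pos hc1
      (fun m j h hm => by omega) m (map φ P) hm (hP.map φ)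
      (fun h => h0 (map_injective φ hφ (by rw [h, map_zero])))
      ⟨φ a, φ b, fun h => ha (hφ (by rw [h, map_zero])), by
        have := congrArg (map φ) hab
        rw [map_mul, map_mul, map_C, map_C] at this
        rw [← this, ← hexp]
        exact congrArg _ (RingHom.congr_fun hnat P).symm⟩
    have hne : Polynomial.C A * (Polynomial.X - Polynomial.C c1) ^ 2 ≠ 0 :=
      mul_ne_zero (Polynomial.C_ne_zero.2 hA) (pow_ne_zero _ (Polynomial.X_sub_C_ne_zero _))
    have hjk : j = k := by omega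
    subst hjk
    obtain ⟨γ', Q', hγ', hQ0', hQ', hS'⟩ : ∃ (γ' : F) (Q' : MvPolynomial (Fin 2) F[X]), γ' ≠ 0 ∧
        Q' ≠ 0 ∧ Q'.IsHomogeneous 2 ∧
        Sop s (Polynomial.C A * (Polynomial.X - Polynomial.C c1) ^ 2) G Q'
          = C (Polynomial.C γ' * (Polynomial.X - Polynomial.C c1) ^ 2) * Q' := by
      interval_cases j
      · exact ⟨γ ^ 2, Q ^ 2, pow_ne_zero _ hγ, pow_ne_zero _ hQ0, hQ.pow 2, by
          rw [map_pow, hS]; simp only [map_mul, map_pow]; ring⟩
      · exact ⟨γ, Q, hγ, hQ0, hQ, hS⟩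
    obtain ⟨a, b, d, hz, ht⟩ := tri_of_quad s hne G (γ' * A⁻¹) hQ' hQ0' (by
      rw [hS', map_mul Polynomial.C]; congr 2
      linear_combination (-Polynomial.C γ' * (Polynomial.X - Polynomial.C c1) ^ 2) * hCA)
    rw [← hexp] at ht
    obtain ⟨a, b, d, hz, ht⟩ := tri_desc s e G _ hz ht
    exact ⟨_, a, b, d, mul_ne_zero hγ' (inv_ne_zero hA), hz, ht⟩
  · have he1 : e = Polynomial.C A * (Polynomial.X - Polynomial.C c) ^ 1 := by rw [he, pow_one]
    obtain ⟨Q, k, γ, j, hk0, hk2, hQ0, hQ, hγ, hj, hS⟩ := red p s σ.symm h1 hA G one_pos hc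
      (fun m j h hm => (Nat.Coprime.dvd_mul_left (Nat.coprime_two_right.2 hodd)).1
        (by rwa [h, one_mul])) m P hm hP h0 (he1 ▸ hE)
    have hk : k = 2 := by omega
    have hj1 : j = 1 := by omega
    subst hk hj1
    rw [← he1] at hS
    obtain ⟨a, b, d, hz, ht⟩ := tri_of_quad s (e := e) (by
      rw [he]; exact mul_ne_zero (Polynomial.C_ne_zero.2 hA) (Polynomial.X_sub_C_ne_zero _))
      G (γ * A⁻¹) hQ hQ0 (by
      rw [hS, he, map_mul Polynomial.C]; congr 2
      linear_combination (-Polynomial.C γ * (Polynomial.X - Polynomial.C c)) * hCA)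
    exact ⟨_, a, b, d, mul_ne_zero hγ (inv_ne_zero hA), hz, ht⟩

end DS.E8
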