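import Pool.Agent.Lib.MP_0c15f2_nt.DS.E8d
import Pool.Agent.Lib.MP_0c15f2_nt.DS.Defs

/-! (E) in the language of `DS.Defs` (helper36). -/

namespace Pool.Agent.CSU.SA.DS

open Polynomial

variable {F : Type} [Field F]

lemma SD_C' {κ : Type} (σ : F →+* F) (A G c : F) (ξ : κ → F) (a : F[X]) :
    SD σ A G c ξ (MvPolynomial.C a) = MvPolynomial.C (a.map σ) := by
  simp [SD, tw]

lemma SD_X' {κ : Type} (σ : F →+* F) (A G c : F) (ξ : κ → F) (p : κ × Fin 2) :
    SD σ A G c ξ (MvPolynomial.X p) = LL A G c ξ p := by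
  simp [SD, tw]

lemma rename_SD (σ : F →+* F) (A G c : F) (f : PP (Fin 1 × Fin 2) F) :
    MvPolynomial.rename Prod.snd (SD σ A G c 0 f)
      = _root_.DS.E8.Sop σ (C A * (X - C c)) G (MvPolynomial.rename Prod.snd f) := by
  induction f using MvPolynomial.induction_on with
  | C a => rw [SD_C', MvPolynomial.rename_C, MvPolynomial.rename_C, _root_.DS.E8.Sop_C]
  | add f g hf hg => simp only [map_add, hf, hg]
  | mul_X f p hf =>
    obtain ⟨i, b⟩ := p
    rw [map_mul, map_mul, map_mul, map_mul, hf, SD_X', MvPolynomial.rename_X]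
    congr 1
    fin_cases b
    · simp [LL]
    · simp [LL]

lemma SD_lin (σ : F →+* F) (A G c : F) (a b : F[X]) :
    SD σ A G c 0 (lin a b) = lin (C A * (X - C c) * b.map σ) (a.map σ + C G * b.map σ) := by
  simp only [lin, map_add, map_mul (SD σ A G c 0), SD_C', SD_X', LL]
  simp only [map_mul, map_add]
  simp
  ring

/-- An eigenform gives a solution of the second order equation which is not scalar. -/
theorem eig_end [IsAlgClosed F] [Uncountable F] (p : ℕ) [Fact p.Prime] [CharP F p]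
    (σ : F →+* F) {r : ℕ} (hr : 0 < r) (hs : ∀ x, σ x = x ^ p ^ r) {A c : F} (hA : A ≠ 0) (G : F)
    (hc : ∀ i, 0 < i → σ^[i] c ≠ c) (h : EigF σ A G c) :
    ∃ a b : F[X], Eq2 σ A G c 0 (lin a b) ∧ ¬ (b = 0 ∧ a.map σ = a) := by
  obtain ⟨f, m, a, b, h0, hf, ha, hab⟩ := h
  have hinj : Function.Injective (Prod.snd : Fin 1 × Fin 2 → Fin 2) := fun x y hxy =>
    Prod.ext (Subsingleton.elim _ _) hxy
  obtain ⟨y, al, be, de, hz, h1, h2, h3, h4⟩ := _root_.DS.E8.noEig p σ hr hs hA G hc
    (Nat.succ_pos m) (hf.rename_isHomogeneous (f := Prod.snd))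
    (fun h => h0 (MvPolynomial.rename_injective _ hinj (by rw [h, map_zero]))) rfl
    ⟨a, b, ha, by
      have := congrArg (MvPolynomial.rename (Prod.snd : Fin 1 × Fin 2 → Fin 2)) hab
      rwa [map_mul, map_mul, MvPolynomial.rename_C, MvPolynomial.rename_C, rename_SD] at this⟩
  refine ⟨y, -de, ?_, fun ⟨hb, hy⟩ => hz ?_⟩
  · have e1 : SD σ A G c 0 (lin y (-de)) = lin al (be + y) := by
      rw [SD_lin, Polynomial.map_neg]
      congr 1
      · linear_combination -h1
      · linear_combination h2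
    rw [Eq2, e1, SD_lin, Polynomial.map_add, h3, h4]
    simp only [lin, map_add, map_mul, map_neg]
    ring
  · have hde : de = 0 := neg_eq_zero.1 hb
    rw [hde, Polynomial.map_zero, mul_zero] at h1 h2
    exact ⟨neg_eq_zero.1 h1.symm, by linear_combination hy - h2, hde⟩

end Pool.Agent.CSU.SA.DS
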