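import Pool.Agent.Lib.MP_0c15f2_nt.DS.Cas

/-! Eigen-polynomials of the special block are powers of the determinant. -/

namespace Pool.Agent.DS.DN

open MvPolynomial Finset
open scoped Polynomial

section Gen

variable {D ι : Type} [CommRing D]

theorem comp_comm (S : MvPolynomial ι D →+* MvPolynomial ι D)
    (h : ∀ (f : MvPolynomial ι D) (m : ℕ), f.IsHomogeneous m → (S f).IsHomogeneous m)
    (f : MvPolynomial ι D) (N : ℕ) :
    homogeneousComponent N (S f) = S (homogeneousComponent N f) := by
  conv_lhs => rw [← sum_homogeneousComponent f, map_sum, map_sum]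
  rw [sum_congr rfl fun i _ => homogeneousComponent_of_mem (m := N)
    (h _ i (homogeneousComponent_isHomogeneous i f)), sum_ite_eq]
  split_ifs with hN
  · rfl
  · rw [homogeneousComponent_eq_zero _ _ (by simpa using hN), map_zero]

theorem deg_le (S : MvPolynomial ι D →+* MvPolynomial ι D)
    (h : ∀ (f : MvPolynomial ι D) (m : ℕ), f.IsHomogeneous m → (S f).IsHomogeneous m)
    (f : MvPolynomial ι D) : (S f).totalDegree ≤ f.totalDegree := by
  conv_lhs => rw [← sum_homogeneousComponent f, map_sum]
  exact totalDegree_finsetSum_le fun i hi =>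
    (h _ i (homogeneousComponent_isHomogeneous i f)).totalDegree_le.trans
      (by simpa [Nat.lt_succ_iff] using hi)

/-- The twisted pull back on one column. -/
noncomputable def S1 (σ : D →+* D) (e G : D) :
    MvPolynomial (Fin 2) D →+* MvPolynomial (Fin 2) D :=
  eval₂Hom (C.comp σ) ![X 1, C e * X 0 + C G * X 1]

/-- The twisted pull back on several columns. -/
noncomputable def S2 (κ : Type) (σ : D →+* D) (e G : D) :
    MvPolynomial (κ × Fin 2) D →+* MvPolynomial (κ × Fin 2) D :=
  eval₂Hom (C.comp σ) fun v => ![X (v.1, 1), C e * X (v.1, 0) + C G * X (v.1, 1)] v.2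

theorem S1_hom (σ : D →+* D) (e G : D) (f : MvPolynomial (Fin 2) D) (m : ℕ)
    (h : f.IsHomogeneous m) : (S1 σ e G f).IsHomogeneous m := by
  have := h.eval₂ (n := 1) (τ := Fin 2) (C.comp σ) ![X 1, C e * X 0 + C G * X 1]
    (fun r => isHomogeneous_C _ _) (fun i => by
      fin_cases i
      · exact isHomogeneous_X _ _
      · exact (isHomogeneous_C_mul_X _ _).add (isHomogeneous_C_mul_X _ _))
  rw [one_mul] at this
  rw [S1, coe_eval₂Hom]
  exact this

theorem S2_hom (κ : Type) (σ : D →+* D) (e G : D) (f : MvPolynomial (κ × Fin 2) D) (m : ℕ)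
    (h : f.IsHomogeneous m) : (S2 κ σ e G f).IsHomogeneous m := by
  have := h.eval₂ (n := 1) (τ := κ × Fin 2) (C.comp σ)
    (fun v : κ × Fin 2 => ![X (v.1, 1), C e * X (v.1, 0) + C G * X (v.1, 1)] v.2)
    (fun r => isHomogeneous_C _ _) (fun ⟨j, i⟩ => by
      fin_cases i
      · exact isHomogeneous_X _ _
      · exact (isHomogeneous_C_mul_X _ _).add (isHomogeneous_C_mul_X _ _))
  rw [one_mul] at this
  rw [S2, coe_eval₂Hom]
  exact this

/-- The determinant of the two columns. -/
noncomputable def dd (D : Type) [CommRing D] : MvPolynomial (Fin 2 × Fin 2) D :=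
  X (0, 0) * X (1, 1) - X (0, 1) * X (1, 0)

/-- Restriction to proportional columns. -/
noncomputable def res (l : D) : MvPolynomial (Fin 2 × Fin 2) D →ₐ[D] MvPolynomial (Fin 2) D :=
  aeval fun v => ![X v.2, C l * X v.2] v.1

theorem res_S (σ : D →+* D) (e G l : D) (hl : σ l = l) (f : MvPolynomial (Fin 2 × Fin 2) D) :
    res l (S2 (Fin 2) σ e G f) = S1 σ e G (res l f) := by
  have : (res l).toRingHom.comp (S2 (Fin 2) σ e G) = (S1 σ e G).comp (res l).toRingHom := by
    refine ringHom_ext (fun a => ?_) fun ⟨j, i⟩ => ?_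
    · simp [res, S1, S2]
    · fin_cases j <;> fin_cases i <;> simp [res, S1, S2, hl]
      ring
  exact RingHom.congr_fun this f

theorem dd_dvd [IsDomain D] (Λ : Set D) (hΛ : Λ.Infinite) (f : MvPolynomial (Fin 2 × Fin 2) D)
    (h : ∀ l ∈ Λ, res l f = 0) : dd D ∣ f := by
  let U : MvPolynomial (Fin 2 × Fin 2) D →ₐ[D] (MvPolynomial (Fin 2) D)[X] :=
    aeval fun v => ![Polynomial.C (X v.2), Polynomial.X * Polynomial.C (X v.2)] v.1
  have hU : U f = 0 := by
    refine Polynomial.eq_zero_of_infinite_isRoot _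
      ((hΛ.image (C_injective (Fin 2) D).injOn).mono ?_)
    rintro _ ⟨l, hl, rfl⟩
    have : (Polynomial.evalRingHom (C l)).comp U.toRingHom = (res l).toRingHom := by
      refine ringHom_ext (fun a => ?_) fun ⟨j, i⟩ => ?_
      · simp [res, U]
      · fin_cases j <;> simp [res, U]
        ring
    exact (RingHom.congr_fun this f).trans (h l hl)
  let y : MvPolynomial (Fin 2 × Fin 2) D := X (0, 0)
  let L := Localization.Away y
  let a : MvPolynomial (Fin 2 × Fin 2) D →+* L := algebraMap _ L
  let w : L := IsLocalization.Away.invSelf y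
  have hw : a y * w = 1 := IsLocalization.Away.mul_invSelf y
  let φ : (MvPolynomial (Fin 2) D)[X] →+* L := Polynomial.eval₂RingHom
    (a.comp (rename fun i => ((0 : Fin 2), i)).toRingHom) (a (X (1, 0)) * w)
  let J : Ideal L := (Ideal.span {dd D}).map a
  have e : (Ideal.Quotient.mk J).comp a =
      (Ideal.Quotient.mk J).comp (φ.comp U.toRingHom) := by
    refine ringHom_ext (fun c => ?_) fun ⟨j, i⟩ => ?_
    · simp [φ, U]
    · have hd : a (dd D) ∈ J := Ideal.mem_map_of_mem _ (Ideal.mem_span_singleton_self _)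
      rw [RingHom.comp_apply, RingHom.comp_apply, Ideal.Quotient.eq]
      fin_cases j <;> fin_cases i
      · simp [φ, U]
      · simp [φ, U]
      · have : a (X (1, 0)) - φ (U (X (1, 0))) = 0 := by
          simp only [φ, U, aeval_X]
          simp
          linear_combination (-a (X (1, 0))) * hw
        exact this ▸ J.zero_mem
      · have : a (X (1, 1)) - φ (U (X (1, 1))) = w * a (dd D) := by
          simp only [φ, U, aeval_X, dd]
          simp
          linear_combination (-a (X (1, 1))) * hw
        exact this ▸ J.mul_mem_left _ hd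
  have h1 : a f ∈ J := by
    rw [← Ideal.Quotient.eq_zero_iff_mem]
    have := RingHom.congr_fun e f
    simp only [RingHom.comp_apply, AlgHom.toRingHom_eq_coe, RingHom.coe_coe, hU, map_zero] at this
    exact this
  obtain ⟨_, ⟨n, rfl⟩, hn⟩ :=
    (IsLocalization.algebraMap_mem_map_algebraMap_iff (Submonoid.powers y) L _ f).mp h1
  obtain ⟨g, hg⟩ := Ideal.mem_span_singleton.mp hn
  have hy : ¬ y ∣ dd D := fun hy => by
    have := map_dvd (eval fun v : Fin 2 × Fin 2 => if v.1 = v.2 then (0 : D) else 1) hy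
    simp [y, dd] at this
  have hp : Prime y := X_prime
  obtain ⟨g', rfl⟩ := hp.pow_dvd_of_dvd_mul_left n hy ⟨f, hg.symm⟩
  exact ⟨g', mul_left_cancel₀ (pow_ne_zero n hp.ne_zero) (by
    simp only at hg; rw [hg]; ring)⟩

theorem S2_dd (σ : D →+* D) (e G : D) : S2 (Fin 2) σ e G (dd D) = C (-e) * dd D := by
  simp [S2, dd]
  ring

end Gen

variable {F ι : Type} [Field F]

/-- An eigen-polynomial is a power of `d` up to scalars. -/
theorem eig_pow (σ : F →+* F) (S : MvPolynomial ι F[X] →+* MvPolynomial ι F[X])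
    (hC : ∀ a, S (C a) = C (a.map σ))
    (h0 : ∀ f, constantCoeff (S f) = (constantCoeff f).map σ) (d : MvPolynomial ι F[X])
    (ε : F[X]) (hd : 0 < d.totalDegree) (hε : 0 < ε.natDegree) (hS : S d = C ε * d)
    (hA : ∀ (g : MvPolynomial ι F[X]) (a b : F[X]), a ≠ 0 → C a * S g = C b * g →
      constantCoeff g = 0 → ∃ c, c ≠ 0 ∧ d ∣ C c * g) :
    ∀ (N : ℕ) (g : MvPolynomial ι F[X]) (a b : F[X]), g.totalDegree < N → g ≠ 0 → a ≠ 0 →
      C a * S g = C b * g → ∃ (c u : F[X]) (j : ℕ), c ≠ 0 ∧ u ≠ 0 ∧ C c * g = C u * d ^ j := by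
  have hd0 : d ≠ 0 := by rintro rfl; simp at hd
  have hε0 : ε ≠ 0 := by rintro rfl; simp at hε
  have hσ : ∀ a : F[X], a ≠ 0 → a.map σ ≠ 0 := fun a ha => Polynomial.map_ne_zero ha
  intro N
  induction N with
  | zero => intro g a b h; omega
  | succ N ih =>
    intro g a b hN hg ha he
    have h1 : a * (constantCoeff g).map σ = b * constantCoeff g := by
      simpa [h0] using congrArg constantCoeff he
    by_cases hg' : g - C (constantCoeff g) = 0
    · refine ⟨1, constantCoeff g, 0, one_ne_zero, fun h => hg ?_, by simpa using sub_eq_zero.mp hg'⟩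
      simpa [h] using hg'
    have he' : C a * S (g - C (constantCoeff g)) = C b * (g - C (constantCoeff g)) := by
      rw [map_sub, hC, mul_sub, mul_sub, he, ← map_mul, ← map_mul, h1]
    obtain ⟨c, hc, h, hh⟩ := hA _ a b ha he' (by simp)
    have hcg : C c * (g - C (constantCoeff g)) ≠ 0 := mul_ne_zero (by simpa using hc) hg'
    have hh0 : h ≠ 0 := by rintro rfl; exact hcg (by rw [hh, mul_zero])
    have hdeg : h.totalDegree < N := by
      have e1 := totalDegree_mul_of_isDomain hd0 hh0
      have e2 := totalDegree_mul (C c) (g - C (constantCoeff g))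
      have e3 := totalDegree_sub g (C (constantCoeff g))
      rw [totalDegree_C] at e2 e3
      rw [← hh] at e1
      omega
    have h2 : C (a * c * ε) * S h = C (b * c.map σ) * h := by
      have := congrArg S hh
      rw [map_mul, map_mul, hC, hS] at this
      refine mul_left_cancel₀ hd0 ?_
      simp only [map_mul]
      linear_combination (-C a * C c) * this + (C c * C (c.map σ)) * he' +
        (C b * C (c.map σ)) * hh
    obtain ⟨c', u, j, hc', hu, h3⟩ := ih h _ _ hdeg hh0 (mul_ne_zero (mul_ne_zero ha hc) hε0) h2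
    have h4 : C (c' * c) * (g - C (constantCoeff g)) = C u * d ^ (j + 1) := by
      rw [map_mul, mul_assoc, hh, pow_succ]
      linear_combination d * h3
    by_cases hz : constantCoeff g = 0
    · exact ⟨c' * c, u, j + 1, mul_ne_zero hc' hc, hu, by simpa [hz] using h4⟩
    exfalso
    have h5 := congrArg S h4
    rw [map_mul S, map_mul S, map_pow S, hC, hC, hS, mul_pow, ← map_pow] at h5
    have h6 : a * (c' * c) * (u.map σ * ε ^ (j + 1)) = b * (c' * c).map σ * u := by
      apply C_injective ι
      refine mul_right_cancel₀ (pow_ne_zero (j + 1) hd0) ?_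
      generalize c' * c = z at h4 h5 ⊢
      simp only [map_mul]
      linear_combination (-C a * C z) * h5 +
        (C z * C (z.map σ)) * he' + (C b * C (z.map σ)) * h4
    have h7 : (c' * c) * (u.map σ * ε ^ (j + 1)) * constantCoeff g =
        (constantCoeff g).map σ * (c' * c).map σ * u := by
      refine mul_left_cancel₀ ha ?_
      linear_combination (constantCoeff g) * h6 - ((c' * c).map σ * u) * h1
    have hcc := mul_ne_zero hc' hc
    have h8 := congrArg Polynomial.natDegree h7
    rw [Polynomial.natDegree_mul (mul_ne_zero hcc (mul_ne_zero (hσ _ hu) (pow_ne_zero _ hε0))) hz,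
      Polynomial.natDegree_mul hcc (mul_ne_zero (hσ _ hu) (pow_ne_zero _ hε0)),
      Polynomial.natDegree_mul (hσ _ hu) (pow_ne_zero _ hε0),
      Polynomial.natDegree_mul (mul_ne_zero (hσ _ hz) (hσ _ hcc)) hu,
      Polynomial.natDegree_mul (hσ _ hz) (hσ _ hcc), Polynomial.natDegree_pow,
      Polynomial.natDegree_map, Polynomial.natDegree_map, Polynomial.natDegree_map] at h8
    have : 0 < (j + 1) * ε.natDegree := Nat.mul_pos (Nat.succ_pos j) hε
    omega

end Pool.Agent.DS.DN
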