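import Pool.Agent.Lib.MP_0c15f2_nt.DS.E8e
import Pool.Agent.Lib.MP_0c15f2_nt.DS.St

/-! The statement `EigS` (helper36). -/

namespace Pool.Agent.CSU.SA.DS

open Polynomial

lemma PiC_eq_zero {F : Type} [Field F] (σ : F →+* F) {A : F} (hA : A ≠ 0) (G c : F) (a b : F[X]) :
    PiC σ A G c (lin a b) = 0 ↔ b = 0 ∧ a.map σ = a := by
  rw [PiC, SD_lin]
  constructor
  · intro h
    have e1 := congrArg (MvPolynomial.eval fun p : Fin 1 × Fin 2 => if p.2 = 0 then 0 else 1) h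
    have e2 := congrArg (MvPolynomial.eval fun _ : Fin 1 × Fin 2 => 1) h
    simp [lin] at e1
    simp [lin, e1] at e2
    exact ⟨e1, sub_eq_zero.1 e2⟩
  · rintro ⟨rfl, h⟩
    simp [lin, h]; ring

theorem eig : EigS := by
  intro k F _ _ _ _ _ _ σ A G c hσ hA hc h
  obtain ⟨p, hp, r, hpp, hr⟩ := FiniteField.card' k
  have : Fact p.Prime := ⟨hpp⟩
  have : CharP F p := charP_of_injective_algebraMap (algebraMap k F).injective p
  obtain ⟨a, b, h1, h2⟩ := eig_end p σ r.pos (fun x => by rw [hσ, hr]) hA G hc h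
  exact ⟨a, b, h1, fun h0 => h2 ((PiC_eq_zero σ hA G c a b).1 h0)⟩

end Pool.Agent.CSU.SA.DS
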