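import Pool.Agent.Lib.MP_0c15f2_nt.DS.Tw

/-! The forward and the backward rule for the jets. -/

namespace Pool.Agent.CSU.SA.DS

open Polynomial Finset Sm

theorem fb (an : AnmS) : FbS := by
  intro k F ι _ _ _ _ _ _ D v σ μ E ρ hD hσ hE hρ hv
  have hq : 2 ≤ D.q := hD.1 ▸ Fintype.one_lt_card
  obtain ⟨-, hθ, hg, hΔ, hΔ0⟩ := id hD
  have hθ0 : 0 < ‖D.θ‖ := by linarith
  have hv1 : ∀ l, ‖v l‖ ≤ ‖D.θ‖ := fun l => (div_le_one hθ0).1 ((hv l).trans hρ)
  have an' := fun l m j h => an k F D (v l) σ μ hD hσ m j h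
  have hN : ∀ l m j n, j < m → n ≤ m → GN μ (ρ ^ D.q ^ n) (D.Jm μ (v l) m j) :=
    fun l m j n h hn => GN.mono ((an' l m j h).2.2.2 (hv1 l))
      ((pow_le_pow_left₀ (by positivity) (hv l) _).trans (pow_le_pow_of_le_one
        (le_trans (by positivity) (hv l)) hρ (Nat.pow_le_pow_right (by omega) hn)))
  have eA : ∀ m, D.A E ^ D.q ^ m = D.A (E + m) := fun m => by
    rw [DM.A, DM.A, inv_pow, ← pow_mul, ← pow_add]
  have eG : ∀ m, D.G E ^ D.q ^ m = D.G (E + m) := fun m => by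
    have : ∀ x : F, (-x) ^ D.q ^ m = -x ^ D.q ^ m := fun x => by
      induction m with
      | zero => simp
      | succ m ih => rw [pow_succ, pow_mul, ih, ← hσ, map_neg, hσ, ← pow_mul]
    rw [DM.G, DM.G, this, mul_pow, inv_pow, ← pow_mul, ← pow_mul, ← pow_add]
  refine ⟨fun m i p hi => ⟨?_, ?_, GN.mono (hN _ _ _ 0 (by omega) (by omega))
    (pow_le_one₀ (le_trans (by positivity) (hv p.1)) hρ)⟩, fun M t => ?_⟩
  · rw [(tws F ι D.q σ _ _ _ m hσ).1, eA, eG, ← pow_mul, ← pow_add]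
    obtain ⟨l, b⟩ := p
    fin_cases b
    · simp [LL, add_assoc]
    · have := (an' l (E + m) i (by omega)).2.1
      convert this using 2
      · rfl
      simp [LL, mul_pow, eA, ← pow_mul, ← pow_add]
  · rw [show E + (m + 1) + p.2 = E + m + p.2 + 1 by omega]
    exact (an' _ _ _ (by omega)).2.2.1
  let β : ℕ → F[X] := fun t => ∏ n ∈ range t, (X - C (D.θ ^ D.q ^ (E + M + n)))
  have b1 : ∀ n j, j ≤ M → GN μ ‖D.θ - D.θ ^ D.q ^ (E + M + n)‖
      (taylor (D.θ ^ D.q ^ j) (X - C (D.θ ^ D.q ^ (E + M + n)))) ∧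
      1 ≤ ‖D.θ - D.θ ^ D.q ^ (E + M + n)‖ := fun n j hj => by
    have e := norm_c_sub hθ hq (show 0 < E + M + n by omega)
    rw [pow_zero, pow_one, norm_sub_rev] at e
    rw [e, map_sub, taylor_X, taylor_C, add_sub_assoc, ← C_sub]
    refine ⟨(GN.var.mono (one_le_pow₀ hθ.le)).add (GN.const ?_), one_le_pow₀ hθ.le⟩
    rw [norm_sub_rev, norm_c_sub hθ hq (by omega)]
  have b2 : ∀ t, ‖(β (t + 1)).eval D.θ‖ =
      ‖(β t).eval D.θ‖ * ‖D.θ - D.θ ^ D.q ^ (E + M + t)‖ := fun t => by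
    simp only [β, prod_range_succ, eval_mul, norm_mul, eval_sub, eval_X, eval_C]
  have key : ∀ t, (β t).natDegree ≤ t ∧ 1 ≤ ‖(β t).eval D.θ‖ ∧
      (∀ j ≤ M, GN μ ‖(β t).eval D.θ‖ (taylor (D.θ ^ D.q ^ j) (β t))) ∧
      ∃ (ψ a b : ι × Fin 2 → F[X]), (∀ p, (ψ p).natDegree ≤ t ∧ (a p).natDegree ≤ t ∧
        (b p).natDegree ≤ t) ∧
        ∀ j ≤ M, ∀ p, GN μ ‖(β t).eval D.θ‖ (taylor (D.θ ^ D.q ^ j) (a p)) ∧
          GN μ ‖(β t).eval D.θ‖ (taylor (D.θ ^ D.q ^ j) (b p)) ∧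
          X ^ μ ∣ taylor (D.θ ^ D.q ^ j) (β t) * D.Jm μ (v p.1) (E + M + p.2) j -
            taylor (D.θ ^ D.q ^ j) (ψ p) -
            (taylor (D.θ ^ D.q ^ j) (a p) * D.Jm μ (v p.1) (E + M + t) j +
              taylor (D.θ ^ D.q ^ j) (b p) * D.Jm μ (v p.1) (E + M + t + 1) j) := by
    intro t
    induction t with
    | zero =>
      have o : ∀ j, GN μ 1 (taylor (D.θ ^ D.q ^ j) (1 : F[X])) := fun j => by
        simpa using GN.one
      refine ⟨by simp [β], by simp [β], fun j _ => by simpa [β] using GN.one, 0,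
        fun p => if p.2 = 0 then 1 else 0, fun p => if p.2 = 0 then 0 else 1,
        fun p => ⟨by simp, by dsimp only; split_ifs <;> simp, by dsimp only; split_ifs <;> simp⟩, fun j _ ⟨l, b⟩ => ?_⟩
      fin_cases b <;> simp [β, GN.one, GN.zero]
    | succ t ih =>
      obtain ⟨i1, i2, i3, ψ, a, b, i4, i5⟩ := ih
      set c := D.θ ^ D.q ^ (E + M + t) with hc
      have n1 := (b1 t 0 (by omega)).2
      have up : ∀ {f : F[X]} {x : F}, ‖x‖ ≤ 1 → GN μ ‖(β t).eval D.θ‖ f →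
          GN μ ‖(β (t + 1)).eval D.θ‖ (C x * f) := fun hx hf =>
        ((GN.const hx).mul hf).mono (by
          rw [b2, one_mul]; exact le_mul_of_one_le_right (norm_nonneg _) n1)
      have up' : ∀ j ≤ M, ∀ {f : F[X]}, GN μ ‖(β t).eval D.θ‖ (taylor (D.θ ^ D.q ^ j) f) →
          GN μ ‖(β (t + 1)).eval D.θ‖ (taylor (D.θ ^ D.q ^ j) (f * (X - C c))) :=
        fun j hj f hf => by
          rw [taylor_mul, b2]
          exact hf.mul (b1 t j hj).1
      have dg : ∀ {f : F[X]} {n : ℕ}, f.natDegree ≤ n → (f * (X - C c)).natDegree ≤ n + 1 :=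
        fun h => natDegree_mul_le.trans (by rw [natDegree_X_sub_C]; omega)
      refine ⟨by simpa only [β, prod_range_succ] using dg i1,
        by rw [b2]; exact one_le_mul_of_one_le_of_one_le i2 n1,
        fun j hj => by simpa only [β, prod_range_succ] using up' j hj (i3 j hj),
        fun p => ψ p * (X - C c) - C (D.ex (v p.1) ^ D.q ^ (E + M + t)) * a p,
        fun p => C (D.g ^ D.q ^ (E + M + t)) * a p + b p * (X - C c),
        fun p => C (D.Δ ^ D.q ^ (E + M + t)) * a p, fun p => ⟨?_, ?_, ?_⟩, fun j hj p => ?_⟩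
      · exact (natDegree_sub_le _ _).trans (max_le (dg (i4 p).1)
          ((natDegree_C_mul_le _ _).trans ((i4 p).2.1.trans (by omega))))
      · exact (natDegree_add_le _ _).trans (max_le
          ((natDegree_C_mul_le _ _).trans ((i4 p).2.1.trans (by omega))) (dg (i4 p).2.2))
      · exact (natDegree_C_mul_le _ _).trans ((i4 p).2.1.trans (by omega))
      · obtain ⟨j1, j2, j3⟩ := i5 j hj p
        have pw : ∀ {x : F}, ‖x‖ ≤ 1 → ‖x ^ D.q ^ (E + M + t)‖ ≤ 1 := fun h => by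
          rw [norm_pow]; exact pow_le_one₀ (norm_nonneg _) h
        refine ⟨?_, ?_, ?_⟩
        · rw [map_add, taylor_mul, taylor_C]
          exact (up (pw hg) j1).add (up' j hj j2)
        · rw [taylor_mul, taylor_C]
          exact up (pw hΔ) j1
        · have r1 := (an' p.1 (E + M + t) j (by omega)).2.1
          have r2 := dvd_sub (j3.mul_left (X + C (D.θ ^ D.q ^ j) - C c))
            (r1.mul_left (taylor (D.θ ^ D.q ^ j) (a p) * C (D.Δ ^ D.q ^ (E + M + t))))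
          convert r2 using 1
          have u : (C (D.Δ ^ D.q ^ (E + M + t)) : F[X]) * C (D.Δ ^ D.q ^ (E + M + t))⁻¹ = 1 := by
            rw [← C_mul, mul_inv_cancel₀ (pow_ne_zero _ hΔ0), C_1]
          simp only [β, prod_range_succ, taylor_mul, map_sub, map_add, taylor_C, taylor_X, DM.A,
            DM.G, C_mul, C_neg, ← hc, ← add_assoc (E + M) t 1]
          linear_combination (exp := 1) (-(taylor (D.θ ^ D.q ^ j) (a p)) *
            ((X + C (D.θ ^ D.q ^ j) - C c) * D.Jm μ (v p.1) (E + M + t) j -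
              C (D.g ^ D.q ^ (E + M + t)) * D.Jm μ (v p.1) (E + M + t + 1) j +
              C (D.ex (v p.1) ^ D.q ^ (E + M + t)))) * u
  obtain ⟨k1, k2, k3, ψ, a, b, k4, k5⟩ := key t
  refine ⟨β t, ψ, k1, fun p => (k4 p).1, norm_pos_iff.1 (by linarith), fun j hj =>
    ⟨k3 j hj, fun p => ?_⟩⟩
  obtain ⟨j1, j2, j3⟩ := k5 j hj p
  rw [mul_comm]
  exact ((j1.mul (hN p.1 _ j (M + t) (by omega) (by omega))).add
    (j2.mul (hN p.1 _ j (M + t) (by omega) (by omega)))).of_dvd j3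

end Pool.Agent.CSU.SA.DS
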