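import Pool.Agent.Lib.MP_0c15f2_nt.DS.St
import Pool.Agent.Lib.MP_0370b2_nt.SA.Flag0
import Pool.Agent.Lib.MP_0370b2_nt.SA.Cram

/-! The flag basis over an order. -/

namespace Pool.Agent.CSU.SA.DS

open Finset

namespace Flg

variable {k F ι : Type} [Field k] [Fintype ι] [NormedField F] [IsUltrametricDist F] [Algebra k F]

/-- The elements of the order of bounded norm. -/
def Bn (O : Subalgebra k F) (θ : F) (D : ℕ) : Submodule ℤ F where
  carrier := {b | b ∈ O ∧ ‖b‖ ≤ ‖θ‖ ^ D}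
  add_mem' := fun ha hb => ⟨add_mem ha.1 hb.1,
    (IsUltrametricDist.norm_add_le_max _ _).trans (max_le ha.2 hb.2)⟩
  zero_mem' := ⟨zero_mem _, by simp⟩
  smul_mem' := fun c _ h => ⟨zsmul_mem h.1 c, (IsUltrametricDist.norm_zsmul_le _ _).trans h.2⟩

variable {O : Subalgebra k F} {θ : F} {u v : ι → F}

theorem Bn.mono (hθ : 1 < ‖θ‖) {D D' : ℕ} {b : F} (h : b ∈ Bn O θ D) (hD : D ≤ D') :
    b ∈ Bn O θ D' := ⟨h.1, h.2.trans (pow_le_pow_right₀ hθ.le hD)⟩

theorem Bn.mul {D D' : ℕ} {a b : F} (h : a ∈ Bn O θ D) (h' : b ∈ Bn O θ D') :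
    a * b ∈ Bn O θ (D + D') := ⟨mul_mem h.1 h'.1, by
  rw [norm_mul, pow_add]
  exact mul_le_mul h.2 h'.2 (norm_nonneg _) (by positivity)⟩

theorem Bn.one (hθ : 1 < ‖θ‖) (D : ℕ) : (1 : F) ∈ Bn O θ D :=
  ⟨one_mem _, by rw [norm_one]; exact one_le_pow₀ hθ.le⟩

theorem Bn.pw (hθ : 1 < ‖θ‖) (D m : ℕ) : Bn O θ D ^ m ≤ Bn O θ (m * D) := by
  induction m with
  | zero => rw [pow_zero]; exact Submodule.one_le.2 (Bn.one hθ _)
  | succ m ih =>
    rw [pow_succ, Nat.succ_mul]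
    exact Submodule.mul_le.2 fun a ha b hb => Bn.mul (ih ha) hb

theorem count (hθ : 1 < ‖θ‖) {n : ℕ} (hn : n = Fintype.card ι) (D : ℕ) (w : Fin (n + 1) → ι → F)
    (hw : ∀ j i, w j i ∈ Bn O θ D) :
    ∃ a : Fin (n + 1) → F, a ≠ 0 ∧ (∀ j, a j ∈ Bn O θ ((n + 1) * D)) ∧
      ∀ i, ∑ j, a j * w j i = 0 := by
  have h : ¬ LinearIndependent F w := fun h => by
    have := h.fintype_card_le_finrank
    rw [Module.finrank_fintype_fun_eq_card, Fintype.card_fin] at this
    omega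
  obtain ⟨c, hc, j0, h0⟩ := Fintype.not_linearIndependent_iff.1 h
  obtain ⟨a, a1, a2, -, a3⟩ := cram (RingHom.id F) (Bn O θ D) (fun i j => w j i) c j0 (Bn.one hθ D)
    (fun i j => hw j i) (fun i => by simpa [mul_comm] using congrFun hc i) h0
  refine ⟨a, fun e => a1 (by simp [e]), fun j => Bn.pw hθ _ _ (by simpa using a2 j), fun i => ?_⟩
  simpa [mul_comm] using a3 i

/-- Lattice vectors of size at most `D`. -/
def Lt (O : Subalgebra k F) (θ : F) (u : ι → F) (D : ℕ) (x : F) : Prop :=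
  ∃ b : ι → F, (∀ i, b i ∈ Bn O θ D) ∧ x = ∑ i, b i * u i

theorem Lt.mono (hθ : 1 < ‖θ‖) {D D' : ℕ} {x : F} (h : Lt O θ u D x) (hD : D ≤ D') :
    Lt O θ u D' x := by
  obtain ⟨b, hb, rfl⟩ := h
  exact ⟨b, fun i => Bn.mono hθ (hb i) hD, rfl⟩

theorem Lt.comb {D D' : ℕ} (h : ∀ l, Lt O θ u D (v l)) {g : ι → F}
    (hg : ∀ l, g l ∈ Bn O θ D') : Lt O θ u (D' + D) (∑ l, g l * v l) := by
  choose b hb hv using h
  refine ⟨fun i => ∑ l, g l * b l i, fun i => Submodule.sum_mem _ fun l _ =>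
    Bn.mul (hg l) (hb l i), ?_⟩
  simp only [hv, mul_sum, sum_mul, mul_assoc]
  exact sum_comm

/-- A chain of length `m` that ends in `x`. -/
def Ch (O : Subalgebra k F) (θ : F) (u : ι → F) (D m : ℕ) (x : F) : Prop :=
  ∃ w : ℕ → F, (∀ j ≤ m, Lt O θ u D (w j)) ∧
    (∀ j < m, ‖w (j + 1)‖ * ‖θ‖ ^ ((Fintype.card ι + 1) * D + 1) ≤ ‖w j‖) ∧ w m = x

theorem Ch.ext {D m : ℕ} {x y : F} (h : Ch O θ u D m x) (hy : Lt O θ u D y)
    (hxy : ‖y‖ * ‖θ‖ ^ ((Fintype.card ι + 1) * D + 1) ≤ ‖x‖) : Ch O θ u D (m + 1) y := by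
  obtain ⟨w, h1, h2, rfl⟩ := h
  refine ⟨fun j => if j ≤ m then w j else y, fun j _ => ?_, fun j hj => ?_, by simp⟩
  · by_cases hj : j ≤ m
    · simpa [hj] using h1 j hj
    · simpa [hj] using hy
  · have hj' : j ≤ m := by omega
    by_cases hj2 : j + 1 ≤ m
    · simpa [hj', hj2] using h2 j (by omega)
    · obtain rfl : j = m := by omega
      simpa using hxy

theorem Ch.lt (hO : ∀ β ∈ O, β ≠ 0 → 1 ≤ ‖β‖) (hθ : 1 < ‖θ‖) {D m : ℕ}
    {x : F} (h : Ch O θ u D m x) (hx : x ≠ 0) : m < Fintype.card ι := by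
  classical
  by_contra hm
  obtain ⟨w, h1, h2, rfl⟩ := h
  set n := Fintype.card ι with hn
  have hT : ∀ e, (1 : ℝ) ≤ ‖θ‖ ^ e := fun e => one_le_pow₀ hθ.le
  have mono : ∀ i j, i ≤ j → j ≤ m → ‖w j‖ ≤ ‖w i‖ := by
    intro i j hij
    induction j, hij using Nat.le_induction with
    | base => exact fun _ => le_rfl
    | succ j _ ih =>
      exact fun hj => ((le_mul_of_one_le_right (norm_nonneg _) (hT _)).trans
        (h2 j (by omega))).trans (ih (by omega))
  choose b hb hw using fun j : Fin (n + 1) => h1 j (by omega)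
  obtain ⟨a, a0, ha, hr⟩ := count hθ hn D b hb
  have hs : ∑ j, a j * w j = 0 := by
    simp only [hw, mul_sum, ← mul_assoc]
    rw [sum_comm]
    simp only [← sum_mul, hr, zero_mul, sum_const_zero]
  obtain ⟨j0, hj0, hmin⟩ := exists_min_image (univ.filter fun j => a j ≠ 0) id
    (by obtain ⟨j, hj⟩ := Function.ne_iff.1 a0; exact ⟨j, by simpa using hj⟩)
  have ha0 : a j0 ≠ 0 := (mem_filter.1 hj0).2
  have hp : 0 < ‖w j0‖ := (norm_pos_iff.2 hx).trans_le (mono _ _ (by omega) le_rfl)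
  rw [← add_sum_erase _ _ (mem_univ j0), add_eq_zero_iff_eq_neg] at hs
  have h3 : ‖∑ j ∈ univ.erase j0, a j * w j‖ ≤ ‖w j0‖ / ‖θ‖ := by
    refine IsUltrametricDist.norm_sum_le_of_forall_le_of_nonneg (by positivity) fun j hj => ?_
    by_cases haj : a j = 0
    · simp only [haj, zero_mul, norm_zero]; positivity
    have hlt : (j0 : ℕ) < j := lt_of_le_of_ne (hmin j (by simpa using haj))
      fun h => (mem_erase.1 hj).1 (Fin.ext h.symm)
    obtain ⟨i, hi⟩ : ∃ i, (j : ℕ) = i + 1 := ⟨j - 1, by omega⟩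
    have h4 := (h2 i (by omega)).trans (mono j0 i (by omega) (by omega))
    rw [norm_mul, le_div_iff₀ (by positivity), hi]
    refine le_trans ?_ h4
    rw [mul_comm _ ‖w (i + 1)‖, mul_assoc, pow_succ]
    have := (ha j).2
    gcongr
  rw [← norm_neg, ← hs, norm_mul] at h3
  have h5 := (le_mul_of_one_le_left hp.le (hO _ (ha j0).1 ha0)).trans h3
  exact absurd h5 (not_le.2 (div_lt_self hp hθ))

/-- Independence over the order. -/
def In (O : Subalgebra k F) (v : ι → F) : Prop :=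
  ∀ g : ι → F, (∀ i, g i ∈ O) → ∑ i, g i * v i = 0 → g = 0

omit [IsUltrametricDist F] in
theorem In.ne (h : In O v) (l : ι) : v l ≠ 0 := by
  classical
  intro h0
  have := h (Pi.single l 1) (fun i => by by_cases hi : i = l <;> simp [hi])
    (sum_eq_zero fun i _ => by
      by_cases hi : i = l
      · rw [hi, h0, mul_zero]
      · simp [hi])
  simpa using congrFun this l

omit [IsUltrametricDist F] in
theorem In.upd [DecidableEq ι] (h : In O v) {g : ι → F} (hg : ∀ i, g i ∈ O) {l : ι}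
    (hl : g l ≠ 0) : In O (Function.update v l (∑ i, g i * v i)) := by
  intro d hdO hd
  have h1 := h (fun i => d l * g i + if i = l then 0 else d i)
    (fun i => add_mem (mul_mem (hdO l) (hg i)) (by split_ifs; exacts [zero_mem _, hdO i])) (by
    refine Eq.trans ?_ hd
    rw [← add_sum_erase _ (fun i => d i * Function.update v l _ i) (mem_univ l)]
    simp only [add_mul, sum_add_distrib, Function.update_self, mul_sum, mul_assoc]
    congr 1
    rw [← add_sum_erase _ _ (mem_univ l), if_pos rfl, zero_mul, zero_add]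
    exact sum_congr rfl fun i hi => by
      rw [if_neg (mem_erase.1 hi).1, Function.update_of_ne (mem_erase.1 hi).1])
  have h2 : d l = 0 := by simpa [hl] using congrFun h1 l
  funext i
  by_cases hi : i = l
  · rw [hi, h2]; rfl
  · simpa [hi, h2] using congrFun h1 i

theorem basis (hO : ∀ β ∈ O, β ≠ 0 → 1 ≤ ‖β‖) (hθ : 1 < ‖θ‖) (Sp : Set ι)
    (hu : In O u) (h1 : ∀ i, ‖u i‖ ≤ 1) (C P : ℕ) :
    ∃ D, P ≤ D ∧ ∃ v : ι → F, (∀ l, Lt O θ u D (v l)) ∧ (∀ l ∈ Sp, v l = u l) ∧ (∀ l, ‖v l‖ ≤ 1) ∧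
      (∀ l, v l ≠ 0) ∧ ∀ g : ι → F, (∀ i, g i ∈ Bn O θ (C * D)) → ∀ l ∉ Sp, g l ≠ 0 →
        ‖v l‖ < ‖∑ i, g i * v i‖ *
          ‖θ‖ ^ ((Fintype.card ι + 1) * ((C + 1) ^ (Fintype.card ι ^ 2 + 1) * P) + 1) := by
  classical
  set n := Fintype.card ι with hn
  set Dm := (C + 1) ^ (n ^ 2 + 1) * P with hDm
  have hD : ∀ i ≤ n ^ 2 + 1, (C + 1) ^ i * P ≤ Dm := fun i hi =>
    Nat.mul_le_mul_right _ (Nat.pow_le_pow_right (by omega) hi)
  by_contra hcon
  have key : ∀ i ≤ n ^ 2 + 1, ∃ (v : ι → F) (c : ι → ℕ), ∑ l, c l = i ∧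
      (∀ l, Lt O θ u ((C + 1) ^ i * P) (v l)) ∧ (∀ l ∈ Sp, v l = u l) ∧ (∀ l, ‖v l‖ ≤ 1) ∧
      In O v ∧ ∀ l, Ch O θ u Dm (c l) (v l) := by
    intro i
    induction i with
    | zero =>
      have h0 : ∀ l D, Lt O θ u D (u l) := fun l D => ⟨Pi.single l 1, fun i => by
        by_cases hi : i = l
        · rw [hi, Pi.single_eq_same]; exact Bn.one hθ D
        · rw [Pi.single_eq_of_ne hi]; exact zero_mem _, by
        rw [sum_eq_single l (fun i _ hi => by simp [hi]) (by simp)]; simp⟩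
      exact fun _ => ⟨u, 0, by simp, fun l => h0 l _, fun _ _ => rfl, h1, hu,
        fun l => ⟨fun _ => u l, fun _ _ => h0 l _, fun j hj => absurd hj (by simp), rfl⟩⟩
    | succ i ih =>
      intro hi
      obtain ⟨v, c, hc, hL, ho, hv1, hI, hC⟩ := ih (by omega)
      by_contra hno
      refine hcon ⟨(C + 1) ^ i * P, Nat.le_mul_of_pos_left _ (by positivity), v, hL, ho, hv1,
        hI.ne, fun g hg l hl hgl => ?_⟩
      by_contra hle
      rw [not_lt] at hle
      have hy : Lt O θ u ((C + 1) ^ (i + 1) * P) (∑ i, g i * v i) :=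
        (Lt.comb hL hg).mono hθ (le_of_eq (by ring))
      refine hno ⟨Function.update v l (∑ i, g i * v i), Function.update c l (c l + 1),
        ?_, fun m => ?_, fun o h => by rw [Function.update_of_ne fun e : o = l => hl (e ▸ h), ho o h],
        fun m => ?_, hI.upd (fun i => (hg i).1) hgl, fun m => ?_⟩
      · rw [sum_update_of_mem (mem_univ l), ← hc, ← add_sum_erase _ c (mem_univ l),
          sdiff_singleton_eq_erase]
        ring
      · by_cases hm : m = l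
        · rw [hm, Function.update_self]; exact hy
        · rw [Function.update_of_ne hm]
          exact (hL m).mono hθ
            (Nat.mul_le_mul_right _ (Nat.pow_le_pow_right (by omega) (by omega)))
      · by_cases hm : m = l
        · rw [hm, Function.update_self]
          exact ((le_mul_of_one_le_right (norm_nonneg _) (one_le_pow₀ hθ.le)).trans hle).trans
            (hv1 l)
        · rw [Function.update_of_ne hm]; exact hv1 m
      · by_cases hm : m = l
        · rw [hm, Function.update_self, Function.update_self]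
          exact (hC l).ext (hy.mono hθ (hD _ hi)) hle
        · rw [Function.update_of_ne hm, Function.update_of_ne hm]; exact hC m
  obtain ⟨v, c, hc, -, -, -, hI, hC⟩ := key _ le_rfl
  have h2 : ∑ l, c l ≤ ∑ _l : ι, n := sum_le_sum fun l _ => ((hC l).lt hO hθ (hI.ne l)).le
  rw [hc, sum_const, card_univ, smul_eq_mul, ← hn] at h2
  nlinarith

end Flg

open Flg in
theorem flag : FlagS := by
  intro k F ι _ _ _ _ _ _ O θ u Sp C P hθ hO h1 hSp hu
  classical
  set n := Fintype.card ι with hn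
  set q := Fintype.card k with hq
  have hq2 : 2 ≤ q := Fintype.one_lt_card
  set C' := 2 * C * (C + 2) ^ (n ^ 2) with hC'
  set A := (n + 1) * (C' + 1) ^ (n ^ 2 + 1) with hA
  set m := 2 * A + 1 + C + P with hm
  obtain ⟨D, hD, v, hL, ho, hv1, hv0, hNP⟩ := basis hO hθ Sp hu h1 C' (2 * m)
  have hE : (n + 1) * ((C' + 1) ^ (n ^ 2 + 1) * (2 * m)) + 1 ≤ q ^ (2 * m) := by
    have h2 : m < q ^ m := Nat.lt_pow_self (by omega)
    have h3 : 2 * A + 1 ≤ m := by omega
    rw [← mul_assoc, ← hA, mul_comm 2 m, pow_mul]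
    nlinarith
  have hex : ∀ l, ∃ s : ℕ, 1 < ‖v l‖ * ‖θ‖ ^ s := fun l => by
    have hp := norm_pos_iff.2 (hv0 l)
    obtain ⟨s, hs⟩ := pow_unbounded_of_one_lt (‖v l‖⁻¹) hθ
    exact ⟨s, by rwa [inv_lt_iff_one_lt_mul₀' hp] at hs⟩
  have hs1 : ∀ l, 1 ≤ Nat.find (hex l) := fun l => by
    by_contra h
    have h2 := Nat.find_spec (hex l)
    rw [show Nat.find (hex l) = 0 by omega, pow_zero, mul_one] at h2
    exact absurd (hv1 l) (not_le.2 h2)
  obtain ⟨P', hP1, hP2, L, hL1, hL2, hL3, hL4⟩ :=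
    fl_levels hq2 (fun l => Nat.find (hex l)) hs1 C D (by omega)
  rw [← hn] at hP2
  choose β hβ hv using fun l => (hL l).mono hθ (show D ≤ P' + 1 by omega)
  refine ⟨P' + 1, β, v, L, by omega, fun l hl => ⟨ho l hl, ?_⟩,
    fun l => ⟨fun i => hβ l i, hv l, hL1 l, ?_⟩, hL4, fun g hg l hl hgl => ?_⟩
  · have h2 := Nat.find_min' (hex l) (m := 1) (by rw [pow_one, ho l hl]; exact hSp l hl)
    have := hL1 l
    have := hL2 l
    omega
  · obtain ⟨t, ht⟩ : ∃ t, L l = t + 1 := ⟨L l - 1, by have := hL1 l; omega⟩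
    have h2 := Nat.find_min (hex l) (m := t) (by have := hL2 l; omega)
    rw [ht, pow_succ, ← mul_assoc]
    exact mul_le_of_le_one_left (norm_nonneg _) (not_lt.1 h2)
  · have h2 := hNP g (fun i => Bn.mono hθ (D := C * (P' + 1)) (hg i) (by
      calc C * (P' + 1) ≤ C * (2 * ((C + 2) ^ (n ^ 2) * D)) := Nat.mul_le_mul_left _ (by omega)
        _ = C' * D := by rw [hC']; ring)) l hl hgl
    have h3 := Nat.find_spec (hex l)
    refine (h3.trans_le (mul_le_mul_of_nonneg_right h2.le (by positivity))).trans_le ?_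
    rw [mul_assoc, ← pow_add]
    refine mul_le_mul_of_nonneg_left (pow_le_pow_right₀ hθ.le ?_) (norm_nonneg _)
    have h4 : q ^ (2 * m) ≤ q ^ P' := Nat.pow_le_pow_right (by omega) (by omega)
    have h5 := hL3 l
    have h6 : q ^ P' ≤ L l * q ^ P' := Nat.le_mul_of_pos_left _ (hL1 l)
    have h7 : L l * q ^ P' * 2 ≤ L l * q ^ P' * q := Nat.mul_le_mul_left _ hq2
    rw [pow_succ q P', ← mul_assoc (L l), ← hn]
    omega

end Pool.Agent.CSU.SA.DS
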