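import Pool.Agent.Lib.MP_0370b2_nt.SA.Lift
import Pool.Agent.Lib.MP_0c15f2_nt.DS.Sy

/-! Existence and lifting of the auxiliary row. -/

namespace Pool.Agent.DS

open Polynomial Finset Pool.Agent.CSU.SA Pool.Agent.CSU.SA.AX

/-- Existence of a row, by counting. -/
theorem exi {ι F : Type} [Fintype ι] [Field F] (s : Sy ι F) (ν δ d P : ℕ) (hν : ν ≤ s.μ)
    (h0 : ∃ α, (s.Q.coeff α).coeff 0 ≠ 0) (hQ : ∀ α, s.Q.coeff α ≠ 0 → ∀ l, α l < ν)
    (hc : P * s.μ ^ (Fintype.card ι + 1) <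
      (δ + 1) ^ Fintype.card ι * d + P * (s.μ * (s.μ - ν) ^ Fintype.card ι)) :
    ∃ f, f ≠ 0 ∧ TRow (Fintype.card ι * δ) d f ∧ ∀ i < P, s.Cond i (P - i) f := by
  classical
  have hi : ∀ (i : ℕ) (a : F), s.σ^[i] a = 0 ↔ a = 0 := fun i a => by
    induction i with
    | zero => rfl
    | succ i ih => rw [Function.iterate_succ_apply', map_eq_zero, ih]
  obtain ⟨f, hf0, hf, hg⟩ := exist (m := δ + 1) (d := d) (μ := s.μ) (m' := s.μ - ν) (ν := ν)
    (P := P) (fun i => (s.JJ i (P - i)).toLinearMap) (fun i => (tw s.σ)^[i] s.Q) (by omega)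
    (fun i _ α a h => hQ α fun h1 => h (by rw [co_iter, hi, co, h1, coeff_zero]))
    (fun i _ => h0.imp fun α h h1 => h ((hi i _).1 ((co_iter _ _ _ _ i).symm.trans h1)))
    (by rw [mul_comm ((s.μ - ν) ^ _), ← pow_succ]; exact hc)
  exact ⟨f, hf0, TRow.of_row (row_iff.2 hf), fun i hi => (hg i hi).imp fun g h => box_iff.2 h⟩

/-- Lifting of a row. -/
theorem aux {k ι R F : Type} [Field k] [Fintype ι] [CommRing R] [Algebra k R] [Field F]
    (U : Submodule k R) (s : Sy ι R) (φ : R →+* F) (σ' : F →+* F) (δ d P hq hA H : ℕ) (f : PP ι F)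
    (h1 : 1 ∈ U) (hθ : s.θ ∈ U) (hy : ∀ l, s.y l ∈ U ∧ HtP U hA (s.A l) ∧ TRow 1 2 (s.A l))
    (hQ : HtP U hq s.Q) (h2 : 2 ≤ s.q) (hσ : ∀ a, s.σ a = a ^ s.q) (hσ' : ∀ a, σ' a = a ^ s.q)
    (hH : ((δ + 1) ^ Fintype.card ι * d + P * s.μ ^ (Fintype.card ι + 1) + 1) *
      ((d + δ * (hA + 2) + hq) * s.q ^ P) ≤ H)
    (hf0 : f ≠ 0) (hf' : TRow δ d f) (hg : ∀ i < P, (s.map φ σ').Cond i (P - i) f) :
    ∃ (B : PP ι R) (g : ℕ → PP ι R), TRow δ d B ∧ tw φ B ≠ 0 ∧ HtP U H B ∧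
      ∀ i < P, HtP U H (g i) ∧ HtP U H (s.JJ i (P - i) B - g i * (tw s.σ)^[i] s.Q) ∧
        Box s.μ (tw φ (s.JJ i (P - i) B - g i * (tw s.σ)^[i] s.Q)) := by
  have hφ : ∀ a, φ (s.σ a) = σ' (φ a) := fun a => by rw [hσ, hσ', map_pow]
  classical
  set h := (d + δ * (hA + 2) + hq) * s.q ^ P with hh
  have hW : (1 : R) ∈ U ^ h := one_mem_pw h1 h
  have hp : ∀ i < P, s.q ^ i ≤ s.q ^ P := fun i hi => Nat.pow_le_pow_right (by omega) hi.le
  have hJ : ∀ i < P, ∀ x : Ix ι (δ + 1) d, (AX.ex x).degree ≤ δ →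
      HtP U h (s.JJ i (P - i) (mo x)) := fun i hi x hx => by
    refine (Sy.JJ_ht h1 hθ hy h2 hσ (H := 0) (δ := δ) (d := d) (h_mon (one_mem_pw h1 0) _ _)
      ⟨(MvPolynomial.totalDegree_monomial_le _ _).trans hx,
        fun α => (row_iff.2 (fun α a h0 => ?_ : Bx (δ + 1) d (mo x)) α).1⟩ i (P - i)).mono h1 ?_
    · rw [co_mo] at h0
      split_ifs at h0 with h3
      exacts [⟨fun l => h3.1 ▸ (x.1 l).2, h3.2 ▸ x.2.2⟩, absurd rfl h0]
    rw [hh, show i + (P - i) = P by omega]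
    nlinarith [Nat.mul_le_mul_left d (hp i hi), Nat.zero_le (hq * s.q ^ P)]
  have hz : ∀ x : Ix ι (δ + 1) d, ¬ (AX.ex x).degree ≤ δ → co f (AX.ex x) x.2 = 0 := fun x hx => by
    by_contra h3
    exact hx (hf'.le (MvPolynomial.mem_support_iff.2 fun h4 => h3 (by simp [co, h4])))
  have hQW : ∀ i < P, ∀ α a, co ((tw s.σ)^[i] s.Q) α a ∈ U ^ h := fun i hi α a => by
    rw [co_iter, iter_eq hσ]
    refine Cm.pw_mono h1 ?_ (pw_pow (hQ α a) _)
    exact Nat.mul_le_mul (by omega) (hp i hi)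
  have hQm : ∀ i, tw φ ((tw s.σ)^[i] s.Q) = (tw σ')^[i] (tw φ s.Q) := fun i =>
    co_ext fun α a => by rw [co_map, co_iter, co_iter, co_map, iter_eq hσ, iter_eq hσ', map_pow]
  have hf := row_iff.1 hf'.row
  choose g hg using hg
  obtain ⟨x0, hx0⟩ : ∃ x : Ix ι (δ + 1) d, co f (AX.ex x) x.2 ≠ 0 := by
    by_contra hn
    push Not at hn
    exact hf0 (hf.eq_mk.trans (by simp [AX.mk, hn]))
  have hM : ∀ (i : Fin P) (α a) (y : Ix ι (δ + 1) d ⊕ Fin P × Ix ι s.μ s.μ),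
      Sum.elim (fun x => if (AX.ex x).degree ≤ δ then co (s.JJ i (P - i) (mo x)) α a else 0)
        (fun x : Fin P × Ix ι s.μ s.μ =>
          if x.1 = i then -co (mo x.2 * (tw s.σ)^[i] s.Q) α a else 0) y ∈ U ^ h := by
    rintro i α a (y | ⟨j, y⟩)
    · simp only [Sum.elim_inl]
      split_ifs with h3
      exacts [hJ i i.2 y h3 _ _, zero_mem _]
    · simp only [Sum.elim_inr]
      split_ifs
      · exact neg_mem (mo_mul_mem _ _ (hQW i i.2) _ _)
      · exact zero_mem _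
  obtain ⟨w, hw0, hw, hwz, hs⟩ := cram (κ := Fin P × Ix ι s.μ s.μ) φ (U ^ h)
    (fun z (y : Ix ι (δ + 1) d ⊕ Fin P × Ix ι s.μ s.μ) =>
      Sum.elim (fun x => if (AX.ex x).degree ≤ δ then
          co (s.JJ z.1 (P - z.1) (mo x)) (AX.ex z.2) z.2.2 else 0)
        (fun x : Fin P × Ix ι s.μ s.μ =>
          if x.1 = z.1 then -co (mo x.2 * (tw s.σ)^[z.1] s.Q) (AX.ex z.2) z.2.2 else 0) y)
    (Sum.elim (fun x => co f (AX.ex x) x.2) fun x => co (g x.1 x.1.2) (AX.ex x.2) x.2.2) (Sum.inl x0) hW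
    (fun z y => hM z.1 _ _ y)
    (by
      rintro ⟨i, x⟩
      have h2 : Ob s.μ (g i i.2 - AX.mk fun x : Ix ι s.μ s.μ => co (g i i.2) (AX.ex x) x.2) :=
        fun α a h2 h3 => by rw [co_sub, co_mk' _ h2 h3, sub_self]
      have h3 := (h2.mul ((tw σ')^[i] (tw φ s.Q))) (AX.ex x) x.2 (fun l => (x.1 l).2) x.2.2
      have h4 : co ((s.map φ σ').JJ i (P - i) f - g i i.2 * (tw σ')^[i] (tw φ s.Q)) (AX.ex x) x.2 = 0 :=
        box_iff.1 (hg i i.2) (AX.ex x) x.2 (fun l => (x.1 l).2) x.2.2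
      have h5 := sys (fun i => ((s.map φ σ').JJ i (P - i)).toLinearMap)
        (fun i => (tw σ')^[i] (tw φ s.Q))
        (Sum.elim (fun x : Ix ι (δ + 1) d => co f (AX.ex x) x.2)
          fun x : Fin P × Ix ι s.μ s.μ => co (g x.1 x.1.2) (AX.ex x.2) x.2.2) i (AX.ex x) x.2
      simp only [Sum.elim_inl, Sum.elim_inr, AlgHom.toLinearMap_apply] at h5
      rw [← hf.eq_mk] at h5
      rw [sub_mul, co_sub] at h3
      rw [co_sub] at h4 h5
      refine Eq.trans (sum_congr rfl fun y _ => ?_) (h5.symm.trans (by linear_combination h3 + h4))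
      rcases y with y | ⟨j, y⟩
      · simp only [Sum.elim_inl]
        split_ifs with h6
        · rw [← co_map, s.JJ_map hφ, map_mo]
        · rw [hz y h6, mul_zero, mul_zero]
      · simp only [Sum.elim_inr]
        congr 1
        split_ifs
        · rw [map_neg, ← co_map, map_mul, map_mo, hQm]
        · exact map_zero φ) hx0
  have hN : Fintype.card (Ix ι (δ + 1) d ⊕ Fin P × Ix ι s.μ s.μ) =
      (δ + 1) ^ Fintype.card ι * d + P * s.μ ^ (Fintype.card ι + 1) := by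
    simp [pow_succ]
  rw [hN] at hw
  generalize (δ + 1) ^ Fintype.card ι * d + P * s.μ ^ (Fintype.card ι + 1) = N at hw hH
  have hle : (U ^ h) ^ (N + 1) ≤ U ^ H := by
    rw [← pow_mul]; exact Cm.pw_mono h1 (by rw [mul_comm]; exact hH)
  have hw' : ∀ y, w y ∈ U ^ H := fun y => hle (Cm.pw_mono hW N.le_succ (hw y))
  refine ⟨AX.mk fun x => w (Sum.inl x),
    fun i => if hi : i < P then AX.mk fun x => w (Sum.inr (⟨i, hi⟩, x)) else 0,
    ⟨le_trans (Finset.sup_mono fun α hα => ?_) hf'.1, fun α => (row_iff.2 (bx_mk _) α).1⟩,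
    fun hB => hw0 ?_, mk_mem _ fun x => hw' _, fun i hi => ?_⟩
  · rw [MvPolynomial.mem_support_iff] at hα ⊢
    obtain ⟨a, ha⟩ := Polynomial.support_nonempty.2 hα
    have h3 : co (AX.mk fun x => w (Sum.inl x)) α a ≠ 0 := mem_support_iff.1 ha
    obtain ⟨x, rfl, rfl⟩ := ex_surj (bx_mk _ α a h3).1 (bx_mk _ α a h3).2
    rw [co_mk] at h3
    exact fun h4 => h3 (hwz _ (by simp [co, h4]))
  · rw [← co_mk (fun x => w (Sum.inl x)) x0, ← co_map, hB]; simp [co]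
  · dsimp only
    rw [dif_pos hi]
    have h5 := fun α a => (sys (fun i => (s.JJ i (P - i)).toLinearMap)
      (fun i => (tw s.σ)^[i] s.Q) w ⟨i, hi⟩ α a).trans (sum_congr rfl fun y _ => (by
        rcases y with y | y
        · simp only [Sum.elim_inl]
          split_ifs with h6
          · rfl
          · rw [hwz (Sum.inl y) (hz y h6), mul_zero, mul_zero]
        · rfl : _ = Sum.elim (fun x => if (AX.ex x).degree ≤ δ then
          co (s.JJ i (P - i) (mo x)) α a else 0) (fun x : Fin P × Ix ι s.μ s.μ =>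
          if x.1 = ⟨i, hi⟩ then -co (mo x.2 * (tw s.σ)^[i] s.Q) α a else 0) y * w y))
    refine ⟨mk_mem _ fun x => hw' _, fun α a => hle ?_, box_iff.2 fun α a h2 h3 => ?_⟩
    · rw [pow_succ']
      exact Set.mem_of_eq_of_mem (h5 α a) (Submodule.sum_mem _ fun y _ =>
        Submodule.mul_mem_mul (hM ⟨i, hi⟩ α a y) (hw y))
    · obtain ⟨x, rfl, rfl⟩ := ex_surj h2 h3
      rw [co_map]
      exact (congrArg φ (h5 _ _)).trans (hs (⟨i, hi⟩, x))

end Pool.Agent.DS
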