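import Pool.Agent.Lib.MP_0c15f2_nt.DS.Defs
import Pool.Agent.Lib.MP_0c15f2_nt.DS.Sy

/-! Smallness of the values of the twisted rows. -/

namespace Pool.Agent.DS

open Polynomial Finset Pool.Agent.CSU Pool.Agent.CSU.SA Pool.Agent.CSU.SA.Sm

variable {ι F : Type} [NormedField F]

lemma ev_jet2 (c : F) (V : ι → PP ι F) (η : ι → F[X]) (f : PP ι F) :
    MvPolynomial.eval η (jet c V f) = eJ c (fun l => MvPolynomial.eval η (V l)) f := by
  induction f using MvPolynomial.induction_on with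
  | C x => simp [taylor_apply, comp_eq_aeval]
  | add f g hf hg => simp only [map_add, hf, hg]
  | mul_X f l hf =>
    rw [map_mul, map_mul, map_mul, hf]
    simp

lemma ev_JJ2 (s : Sy ι F) (i m : ℕ) (η : ι → F[X]) (f : PP ι F) :
    MvPolynomial.eval η (s.JJ i m f) =
      eJ (s.θ ^ s.q ^ i) (fun l => MvPolynomial.eval η (s.VV i m l)) f := ev_jet2 _ _ _ _

lemma VV_cong2 (s : Sy ι F) (J : ℕ → ℕ → ι → F[X])
    (hJ : ∀ m i l, i ≤ m → X ^ s.μ ∣ J (m + 1) i l - eJ (s.θ ^ s.q ^ i) (J m i) (s.L m l))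
    (i m : ℕ) (l : ι) : X ^ s.μ ∣
      MvPolynomial.eval (fun l => J i i l - C (s.y l ^ s.q ^ i)) (s.VV i m l) - J (i + m) i l := by
  induction m generalizing l with
  | zero => simp [Sy.VV_zero]
  | succ m ih =>
    rw [Sy.VV_succ, ev_JJ2]
    have := dvd_sub (dvd_ev (aeval (X + C (s.θ ^ s.q ^ i)) : F[X] →ₐ[F] F[X]).toRingHom ih
      (s.L (i + m) l)) (hJ (i + m) i l (by omega))
    rwa [sub_sub_sub_cancel_right] at this

/-- Smallness of the values. -/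
theorem small [Fintype ι] [IsUltrametricDist F] (s : Sy ι F) (J : ℕ → ℕ → ι → F[X]) (B : PP ι F)
    (g : ℕ → PP ι F) (δ d P a t : ℕ) (η0 r r' Z : ℝ) (hθ : 1 < ‖s.θ‖) (hq : 2 ≤ s.q)
    (hμ : 1 ≤ s.μ) (hσ : ∀ a, s.σ a = a ^ s.q) (h0 : ∀ l, (J 0 0 l).coeff 0 = s.y l)
    (hJ : ∀ m i l, i ≤ m → X ^ s.μ ∣ J (m + 1) i l - eJ (s.θ ^ s.q ^ i) (J m i) (s.L m l) ∧
      J (m + 1) (i + 1) l = (J m i l).map s.σ ∧ Nb s.μ 1 (J m i l))
    (hA : DS.Apx s.q s.μ s.θ (J (P + a)) (P + a) t η0) (hη0 : 0 ≤ η0) (hη1 : η0 ≤ 1)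
    (hr0 : 0 ≤ r') (hZ : 1 ≤ Z) (hZr : Z * r' ≤ r) (hr1 : r ≤ 1) (hB : TRow δ d B)
    (hdeg : d + δ * t ≤ s.μ * P) (hBZ : ∀ α n, ‖(B.coeff α).coeff n‖ ≤ Z)
    (hg : ∀ i < P, (∀ α n, ‖((g i).coeff α).coeff n‖ ≤ Z) ∧ ∀ α : ι →₀ ℕ, (∀ l, α l < s.μ) →
      Nb s.μ r ((s.JJ i (P - i) B - g i * (SA.tw s.σ)^[i] s.Q).coeff α))
    (hQ : Nb s.μ r' (MvPolynomial.eval (fun l => J 0 0 l - C (s.y l)) s.Q)) :
    ‖s.ev 0 (P + a) ((SA.tw s.σ)^[a] B)‖ ≤
      max r (Z ^ s.q ^ a * ‖s.θ‖ ^ (d * s.q ^ (a + P)) * η0) *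
        ‖s.θ‖ ^ (s.μ * P * s.q ^ (a + P)) := by
  have hr : 0 ≤ r := le_trans (by positivity) hZr
  have hr'1 : r' ≤ 1 := (le_mul_of_one_le_left hr0 hZ).trans (hZr.trans hr1)
  have hJ1 : ∀ m i l, i ≤ m → GN s.μ 1 (J m i l) := fun m i l h => (hJ m i l h).2.2
  have hJa := fun m i l h => (hJ m i l h).1
  let η : ℕ → ι → F[X] := fun i l => J i i l - C (s.y l ^ s.q ^ i)
  have e1 : ∀ i l, η (i + 1) l = (η i l).map s.σ := fun i l => by
    simp only [η, Polynomial.map_sub, map_C, (hJ i i l le_rfl).2.1, hσ, ← pow_mul, pow_succ]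
  have e2 : ∀ i l, X ∣ η i l ∧ GN s.μ 1 (η i l) := fun i l => by
    induction i with
    | zero =>
      refine ⟨X_dvd_iff.2 (by simp [η, h0]), (hJ1 0 0 l le_rfl).sub (GN.const ?_)⟩
      rw [pow_zero, pow_one, ← h0]
      exact hJ1 0 0 l le_rfl 0 hμ
    | succ i ih =>
      rw [e1]
      exact ⟨by simpa using Polynomial.map_dvd s.σ ih.1, ih.2.map _ hσ (by omega) le_rfl⟩
  have e3 : ∀ i, GN s.μ r' (MvPolynomial.eval (η i) ((SA.tw s.σ)^[i] s.Q)) := fun i => by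
    induction i with
    | zero =>
      simp only [η, pow_zero, pow_one]
      exact hQ
    | succ i ih =>
      have := ev_map s.σ (RingHom.id _) (RingHom.id _) (fun _ => rfl) (η i) ((SA.tw s.σ)^[i] s.Q)
      rw [Function.iterate_succ_apply', funext (e1 i)]
      exact this ▸ ih.map _ hσ (by omega) hr'1
  have e4 : ∀ i m f, X ^ s.μ ∣ eJ (s.θ ^ s.q ^ i) (J (i + m) i) f -
      MvPolynomial.eval (η i) (s.JJ i m f) := fun i m f => by
    rw [ev_JJ2]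
    exact dvd_ev _ (fun l => dvd_sub_comm.1 (VV_cong2 s J hJa i m l)) f
  have e5 : ∀ i < P, ∀ b, GN s.μ r (eJ (s.θ ^ s.q ^ (i + b)) (J (P + b) (i + b))
      ((SA.tw s.σ)^[b] B)) := fun i hi b => by
    induction b with
    | zero =>
      have a1 := box_ev hr (e2 i) (hg i hi).2
      have a2 := (box_ev (by positivity) (e2 i) fun α _ n _ => (hg i hi).1 α n).mul (e3 i)
      have a3 := a1.add (a2.mono hZr)
      rw [map_sub, map_mul, sub_add_cancel] at a3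
      have a4 := a3.of_dvd (e4 i (P - i) B)
      rwa [Nat.add_sub_cancel' hi.le] at a4
    | succ b ih =>
      have := ih.map _ hσ (by omega) hr1
      rw [eJ_map, hσ, ← pow_mul, ← pow_succ] at this
      rw [Function.iterate_succ_apply', ← add_assoc, ← add_assoc,
        funext fun l => (hJ (P + b) (i + b) l (by omega)).2.1]
      exact this
  have hR := hB.tw_iter s.σ a
  have hRZ := (row_tw s.σ hσ hB.row hBZ a).2
  set R := (SA.tw s.σ)^[a] B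
  have e6 : s.ev 0 (P + a) R = MvPolynomial.eval₂Hom (aeval s.θ : F[X] →ₐ[F] F).toRingHom
      (fun l => (J (P + a) 0 l).coeff 0) R := by
    have a1 := (dvd_pow_self X (by omega)).trans (e4 0 (P + a) R)
    have a2 := dvd_ev (RingHom.id _) (a := η 0) (b := 0) (fun l => by simpa using (e2 0 l).1)
      (s.JJ 0 (P + a) R)
    rw [MvPolynomial.eval₂Hom_zero_apply] at a2
    have a3 := X_dvd_iff.1 (dvd_add a1 a2)
    rw [show MvPolynomial.eval (η 0) = MvPolynomial.eval₂Hom (RingHom.id _) (η 0) from rfl,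
      sub_add_sub_cancel, coeff_sub, sub_eq_zero] at a3
    refine a3.symm.trans ?_
    have a4 := MvPolynomial.map_eval₂Hom (aeval (X + C (s.θ ^ s.q ^ 0)) : F[X] →ₐ[F] F[X]).toRingHom
      (J (0 + (P + a)) 0) constantCoeff R
    refine a4.trans ?_
    rw [zero_add]
    congr 2
    ext <;> simp
  obtain ⟨β, w, hβ, hw1, b3, b5⟩ := hA
  have b6 : ∀ j ≤ P + a, ‖s.θ ^ s.q ^ j‖ ≤ ‖s.θ‖ ^ s.q ^ (a + P) := fun j hj => by
    rw [norm_pow]
    exact pow_le_pow_right₀ hθ.le (Nat.pow_le_pow_right (by omega) (by omega))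
  have b7 : ∀ j ≤ P + a, ∀ α, GN s.μ (Z ^ s.q ^ a * (‖s.θ‖ ^ s.q ^ (a + P)) ^ d)
      (taylor (s.θ ^ s.q ^ j) (R.coeff α)) := fun j hj α =>
    GN.tay (hRZ α) (hR.2 α) (one_le_pow₀ hθ.le) (b6 j hj)
  have c0 : s.θ ^ s.q ^ 0 = s.θ := by rw [pow_zero, pow_one]
  have key := sml (fun j => s.θ ^ s.q ^ j) (Ico a (a + P)) s.θ R β w (J (P + a))
    (fun l => (J (P + a) 0 l).coeff 0) (K := δ) (d := d) (t := t) (m := s.μ)
    (H := Z ^ s.q ^ a * (‖s.θ‖ ^ s.q ^ (a + P)) ^ d) (B := 1) (Bs := ‖β.eval s.θ‖)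
    (η := η0) (ε := r) (r := ‖s.θ‖ ^ s.q ^ (a + P)) (by positivity) le_rfl
    (norm_pos_iff.2 b3) hη0 hη1 hr (one_le_pow₀ hθ.le)
    (fun i _ j _ h => one_le_c_sub hθ hq h)
    (fun j hj => nsub_le (by simpa using b6 0 (by omega)) (b6 j (by have := (mem_Ico.1 hj).2; omega)))
    hR.1 hR.2 hβ hw1
    (by rwa [Nat.card_Ico, Nat.add_sub_cancel_left])
    (fun j hj => by
      obtain ⟨j1, j2⟩ := mem_Ico.1 hj
      refine ⟨b7 j (by omega), (b5 j (by omega)).1,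
        fun l => ⟨hJ1 _ _ l (by omega), (b5 j (by omega)).2 l⟩, ?_⟩
      have := e5 (j - a) (by omega) a
      rwa [Nat.sub_add_cancel j1] at this)
    (fun α => by
      have := b7 0 (by omega) α 0 hμ
      rwa [taylor_coeff_zero, c0] at this) rfl
    (fun l => ⟨hJ1 _ _ l (by omega) 0 hμ, by
      have := (b5 0 (by omega)).2 l 0 hμ
      rwa [coeff_sub, mul_coeff_zero, taylor_coeff_zero, taylor_coeff_zero, c0] at this⟩)
  rw [Nat.card_Ico, Nat.add_sub_cancel_left, one_pow, mul_one, ← pow_mul, ← pow_mul,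
    mul_comm _ d, mul_comm _ (s.μ * P)] at key
  rw [e6]
  exact key

end Pool.Agent.DS
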