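import Pool.Agent.Lib.MP_0370b2_nt.SA.Dsc

/-! Descent of degrees when the witness depends on the point. -/

namespace Pool.Agent.DS

open Polynomial Finset Pool.Agent.CSU.SA

variable {F M κ : Type} [Field F] [AddCommGroup M] [Module F[X] M]

/-- Each point of vanishing lowers the sum of the degrees. -/
theorem desc2 (co : κ → M →ₗ[F[X]] F[X]) (hinj : ∀ v, (∀ o, co o v = 0) → v = 0)
    (hdiv : ∀ (c : F) v, (∀ o, (co o v).eval c = 0) → ∃ v', v = (X - C c) • v')
    (Z : Submodule F[X] M) (c : ℕ → F) (hc : Function.Injective c) (val : ℕ → M →+ F)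
    (hval : ∀ i (g : F[X]) v, val i (g • v) = g.eval (c i) * val i v) {r : ℕ} (a : ℕ)
    (hZ : ∀ i < a, ∀ v, (X - C (c i)) • v ∈ Z → v ∈ Z)
    (ρ : Fin r → M) (D : Fin r → ℕ) (hi : LinearIndependent F[X] ρ) (hρ : ∀ s, ρ s ∈ Z)
    (hd : ∀ s o, (co o (ρ s)).degree < D s) (h0 : ∀ i < a, ∀ s, val i (ρ s) = 0)
    (hs : ∀ i < a, ∃ (w : M) (g : F[X]), val i w ≠ 0 ∧ g ≠ 0 ∧
      g • w ∈ Submodule.span F[X] (Set.range ρ)) :
    ∃ (ρ' : Fin r → M) (D' : Fin r → ℕ), LinearIndependent F[X] ρ' ∧ (∀ s, ρ' s ∈ Z) ∧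
      (∀ s o, (co o (ρ' s)).degree < D' s) ∧ ∑ s, D' s + a ≤ ∑ s, D s := by
  classical
  induction a generalizing ρ D with
  | zero => exact ⟨ρ, D, hi, hρ, hd, le_rfl⟩
  | succ a ih =>
  obtain ⟨w, g, hw, hg, hs'⟩ := hs a (by omega)
  obtain ⟨γ, hγ, h1⟩ := red_dep co hinj (c a) (val a) (hval a) hw ρ
    (h0 a (by omega)) g hg hs'
  obtain ⟨v, hv⟩ := hdiv _ _ h1
  obtain ⟨s0, hs0, hm⟩ := exists_max_image (univ.filter fun s => γ s ≠ 0) D (by
    obtain ⟨s, hs⟩ := Function.ne_iff.1 hγ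
    exact ⟨s, mem_filter.2 ⟨mem_univ _, hs⟩⟩)
  have hs0 := (mem_filter.1 hs0).2
  have hX := X_sub_C_ne_zero (c a)
  have hD : 1 ≤ D s0 := Nat.pos_of_ne_zero fun e => hi.ne_zero s0 (hinj _ fun o => by
    simpa [e] using hd s0 o)
  have hdv : ∀ o, (co o v).degree < (D s0 - 1 : ℕ) := fun o => by
    have h2 : (co o ((X - C (c a)) • v)).degree < D s0 := by
      rw [← hv, map_sum]
      refine (degree_sum_le _ _).trans_lt ((Finset.sup_lt_iff (WithBot.bot_lt_coe _)).2
        fun s _ => ?_)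
      by_cases h : γ s = 0
      · simp [h]
      · rw [map_smul, smul_eq_mul, degree_C_mul h]
        exact (hd s o).trans_le (by exact_mod_cast hm s (mem_filter.2 ⟨mem_univ _, h⟩))
    by_cases h : co o v = 0
    · rw [h]; exact WithBot.bot_lt_coe _
    rw [map_smul, smul_eq_mul, degree_mul, degree_X_sub_C, degree_eq_natDegree h] at h2
    rw [degree_eq_natDegree h]
    have : 1 + (co o v).natDegree < D s0 := by exact_mod_cast h2
    exact_mod_cast (by omega : (co o v).natDegree < D s0 - 1)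
  have hup : ∀ s, s ≠ s0 → Function.update ρ s0 v s = ρ s := fun s h => Function.update_of_ne h _ _
  have hall : ∀ p : M → Prop, p v → (∀ s, p (ρ s)) → ∀ s, p (Function.update ρ s0 v s) :=
    fun p h1 h2 s => by
      by_cases h : s = s0
      · subst h; rwa [Function.update_self]
      · rw [hup s h]; exact h2 s
  obtain ⟨ρ', D', b1, b2, b3, b4⟩ := ih (fun i h => hZ i (by omega))
    (Function.update ρ s0 v) (Function.update D s0 (D s0 - 1))
    (Fintype.linearIndependent_iff.2 fun b hb => by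
      have h2 := Fintype.linearIndependent_iff.1 hi
        (fun s => (if s = s0 then 0 else (X - C (c a)) * b s) + b s0 * C (γ s)) (by
          have h3 := congrArg ((X - C (c a)) • ·) hb
          simp only [smul_zero] at h3
          rw [← add_sum_erase _ _ (mem_univ s0), Function.update_self, smul_add, smul_comm, ← hv,
            smul_sum, smul_sum] at h3
          simp only [add_smul, sum_add_distrib, mul_smul]
          rw [← h3, add_comm]
          congr 1
          rw [← add_sum_erase _ _ (mem_univ s0), if_pos rfl, zero_smul, zero_add]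
          refine sum_congr rfl fun s hs => ?_
          rw [if_neg (mem_erase.1 hs).1, hup s (mem_erase.1 hs).1, mul_smul])
      have h4 : b s0 = 0 := by simpa [hs0] using h2 s0
      intro s
      by_cases h : s = s0
      · rw [h, h4]
      · simpa [h, h4, hX] using h2 s)
    (hall _ (hZ a (by omega) v (hv ▸ sum_mem fun s _ => Z.smul_mem _ (hρ s))) hρ)
    (fun s o => by
      by_cases h : s = s0
      · subst h; rw [Function.update_self, Function.update_self]; exact hdv o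
      · rw [hup s h, Function.update_of_ne h]; exact hd s o)
    (fun i hi => hall (fun v => val i v = 0) (by
      have h2 := congrArg (val i) hv
      simp only [map_sum, hval, h0 i (by omega), mul_zero, sum_const_zero, eval_sub, eval_X,
        eval_C] at h2
      exact (mul_eq_zero.1 h2.symm).resolve_left
        (sub_ne_zero.2 fun e => hi.ne (hc e))) (h0 i (by omega)))
    (fun i hi => (hs i (by omega)).imp fun w => Exists.imp fun g h => ⟨h.1, h.2.1,
     Submodule.span_le.2 (by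
      rintro _ ⟨s, rfl⟩
      have h2 : ∀ s, s ≠ s0 → ρ s ∈ Submodule.span F[X] (Set.range (Function.update ρ s0 v)) :=
        fun s h => Submodule.subset_span ⟨s, hup s h⟩
      by_cases h : s = s0
      · subst h
        have h3 : ρ s = C (γ s)⁻¹ • ((X - C (c a)) • v - ∑ s' ∈ univ.erase s, C (γ s') • ρ s') := by
          rw [← hv, ← add_sum_erase _ _ (mem_univ s), add_sub_cancel_right, ← mul_smul, ← C_mul,
            inv_mul_cancel₀ hs0, C_1, one_smul]
        rw [h3]
        exact Submodule.smul_mem _ _ (sub_mem (Submodule.smul_mem _ _ (Submodule.subset_span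
          ⟨s, Function.update_self _ _ _⟩)) (sum_mem fun s' hs' =>
            Submodule.smul_mem _ _ (h2 s' (mem_erase.1 hs').1)))
      · exact h2 s h) h.2.2⟩)
  refine ⟨ρ', D', b1, b2, b3, ?_⟩
  rw [sum_update_of_mem (mem_univ s0), sdiff_singleton_eq_erase] at b4
  rw [← add_sum_erase _ D (mem_univ s0)]
  omega

/-- The zero estimate in abstract form. -/
theorem zeB (co : κ → M →ₗ[F[X]] F[X]) (hinj : ∀ v, (∀ o, co o v = 0) → v = 0)
    (hdiv : ∀ (c : F) v, (∀ o, (co o v).eval c = 0) → ∃ v', v = (X - C c) • v')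
    (σ : F →+* F) (hσ : Function.Surjective σ) (tw : M →+ M) (hsur : Function.Surjective tw)
    (hco : ∀ o v, co o (tw v) = (co o v).map σ) (c : ℕ → F) (hc : Function.Injective c)
    (sub : ℕ → M →ₗ[F[X]] M) (hsub : ∀ m v, tw (sub m v) = sub (m + 1) (tw v))
    (Bx : Submodule F[X] M) (N γ μ : ℕ) (x1 : ∀ v, tw v ∈ Bx ↔ v ∈ Bx)
    (x2 : ∀ m, ∀ v ∈ Bx, sub m v ∈ Bx ∧ ∀ d : ℕ, (∀ o, (co o v).degree < d) →
      ∀ o, (co o (sub m v)).degree < (d + γ : ℕ))
    (x3 : ∀ c v, (X - C c : F[X]) • v ∈ Bx → v ∈ Bx)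
    (x4 : ∀ ρ : Fin (N + 1) → M, (∀ s, ρ s ∈ Bx) → ¬ LinearIndependent F[X] ρ)
    (I : ℕ → ℕ → Submodule F[X] M) (i1 : ∀ i s v, tw v ∈ I (i + 1) s ↔ v ∈ I i s)
    (i2 : ∀ i s, ∀ v ∈ I i (s + 1), sub (i + s) v ∈ I i s)
    (i3 : ∀ i s v, (X - C (c i)) ^ μ • v ∈ I i s)
    (i4 : ∀ i j s v, j ≠ i → (X - C (c j)) • v ∈ I i s → v ∈ I i s)
    (val : ℕ → ℕ → M →+ F) (v1 : ∀ i s (g : F[X]) v, val i s (g • v) = g.eval (c i) * val i s v)
    (v2 : ∀ i s v, val (i + 1) s (tw v) = σ (val i s v))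
    (v3 : ∀ s v, val 0 s (sub s v) = val 0 (s + 1) v)
    (P d : ℕ) (B : M) (hB : B ≠ 0) (b1 : B ∈ Bx) (b2 : ∀ o, (co o B).degree < d)
    (b3 : ∀ i < P, B ∈ I i (P - i))
    (hmin : ∀ (f : M) (d' : ℕ), f ≠ 0 → f ∈ Bx → (∀ o, (co o f).degree < d') →
      (∀ i < P, f ∈ I i (P - i)) → d ≤ d')
    (hev : ∀ a, 1 ≤ a → a ≤ N ^ 2 * (γ + μ) + N + 1 → val 0 (P + a) (tw^[a] B) = 0) :
    ∃ Mo : Submodule F[X] M, B ∈ Mo ∧ (∀ v ∈ Mo, sub P (tw v) ∈ Mo) ∧
      (∀ (g : F[X]) v, g ≠ 0 → g • v ∈ Mo → v ∈ Mo) ∧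
      ∃ a, 1 ≤ a ∧ ∀ w ∈ Mo, val 0 (P + a) (tw^[a] w) = 0 := by
  classical
  have hT : ∀ (g : F[X]) (v : M), g ≠ 0 → g • v = 0 → v = 0 := fun g v hg => tfree co hinj hg
  have htw : ∀ (g : F[X]) v, tw (g • v) = g.map σ • tw v := fun g v => by
    rw [← sub_eq_zero]
    refine hinj _ fun o => ?_
    simp only [map_sub, hco, map_smul, smul_eq_mul, Polynomial.map_mul, sub_self]
  have tinj : ∀ v, tw v = 0 → v = 0 := fun v h => hinj v fun o => by
    have := hco o v
    rw [h, map_zero] at this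
    exact (Polynomial.map_eq_zero σ).1 this.symm
  let S : M →+ M := (sub P).toAddMonoidHom.comp tw
  have hS : ∀ v, S v = sub P (tw v) := fun _ => rfl
  have s1 : ∀ s, S^[s] B ∈ Bx ∧ ∀ o, (co o (S^[s] B)).degree < (d + s * γ : ℕ) := fun s => by
    induction s with
    | zero => exact ⟨b1, by simpa using b2⟩
    | succ s ih =>
      rw [Function.iterate_succ_apply', hS, add_mul, one_mul, ← add_assoc]
      have := x2 P _ ((x1 _).2 ih.1)
      exact ⟨this.1, this.2 _ fun o => by rw [hco, degree_map]; exact ih.2 o⟩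
  obtain ⟨r, r1, rN, hi, Mo, m1, m2, m3, m4⟩ := stab hT σ S
    (fun g v => by rw [hS, hS, htw, map_smul]) B hB N (x4 _ fun s => (s1 s).1)
  refine ⟨Mo, m1, m2, m3, ?_⟩
  by_contra hn
  push Not at hn
  have f1 : ∀ a v, tw^[a] (S v) = sub (P + a) (tw^[a + 1] v) := fun a v => by
    induction a with
    | zero => rfl
    | succ a ih =>
      rw [Function.iterate_succ_apply', ih, hsub, Function.iterate_succ_apply' tw (a + 1)]; rfl
  have f2 : ∀ s a, val 0 (P + a) (tw^[a] (S^[s] B)) = val 0 (P + (a + s)) (tw^[a + s] B) := by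
    intro s
    induction s with
    | zero => intro a; rfl
    | succ s ih =>
      intro a
      rw [Function.iterate_succ_apply', f1, v3, add_assoc, ih, add_assoc, add_comm 1 s]
  have f3 : ∀ s i, s ≤ i → i < P → S^[s] B ∈ I i (P - i) := by
    intro s
    induction s with
    | zero => exact fun i _ => b3 i
    | succ s ih =>
      intro i h1 h2
      obtain ⟨i, rfl⟩ : ∃ j, i = j + 1 := ⟨i - 1, by omega⟩
      have := i2 (i + 1) (P - (i + 1)) (tw (S^[s] B)) ((i1 _ _ _).2 (by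
        rw [show P - (i + 1) + 1 = P - i by omega]; exact ih i (by omega) (by omega)))
      rw [show i + 1 + (P - (i + 1)) = P by omega] at this
      rwa [Function.iterate_succ_apply', hS]
  have f4 : ∀ a v, (∀ i s, tw^[a] v ∈ I (i + a) s ↔ v ∈ I i s) ∧ (tw^[a] v ∈ Bx ↔ v ∈ Bx) ∧
      (∀ o, (co o (tw^[a] v)).degree = (co o v).degree) ∧
      ∀ s, val a s (tw^[a] v) = 0 ↔ val 0 s v = 0 := fun a v => by
    induction a with
    | zero => simp
    | succ a ih =>
      rw [Function.iterate_succ_apply']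
      exact ⟨fun i s => by rw [← add_assoc, i1, ih.1], by rw [x1, ih.2.1],
        fun o => by rw [hco, degree_map, ih.2.2.1], fun s => by rw [v2, map_eq_zero, ih.2.2.2]⟩
  have f5 : ∀ a, (LinearIndependent F[X] fun s : Fin r => tw^[a] (S^[s] B)) ∧ ∀ w ∈ Mo,
      ∃ g : F[X], g ≠ 0 ∧ g • tw^[a] w ∈ Submodule.span F[X] (Set.range fun s : Fin r => tw^[a] (S^[s] B)) := by
    intro a
    induction a with
    | zero => exact ⟨hi, m4⟩
    | succ a ih =>
      obtain ⟨h1, h2⟩ := ih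
      simp only [Function.iterate_succ_apply' tw]
      refine ⟨Fintype.linearIndependent_iff.2 fun b hb s => ?_, fun w hw => ?_⟩
      · choose b' hb' using fun s => Polynomial.map_surjective σ hσ (b s)
        rw [← hb', Fintype.linearIndependent_iff.1 h1 b' (tinj _ (by
          simpa only [map_sum, htw, hb'] using hb)) s, Polynomial.map_zero]
      · obtain ⟨g, hg, h2⟩ := h2 w hw
        obtain ⟨b, hb⟩ := (Submodule.mem_span_range_iff_exists_fun _).1 h2
        exact ⟨g.map σ, Polynomial.map_ne_zero hg,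
          (Submodule.mem_span_range_iff_exists_fun _).2 ⟨fun s => (b s).map σ, by
            rw [← htw, ← hb, map_sum]; simp only [htw]⟩⟩
  obtain ⟨a, ha⟩ : ∃ a, a = N ^ 2 * (γ + μ) + 1 := ⟨_, rfl⟩
  have f6 : ∀ i < a, ∀ v, val i (P + (a - i)) (tw^[a] v) = 0 ↔
      val 0 (P + (a - i)) (tw^[a - i] v) = 0 := fun i hi v => by
    rw [← (f4 i _).2.2.2, ← Function.iterate_add_apply, show i + (a - i) = a by omega]
  obtain ⟨h1, h2⟩ := f5 a
  let π : F[X] := ∏ l ∈ range N, (X - C (c (l + a))) ^ μ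
  have hπ : π.Monic := monic_prod_of_monic _ _ fun l _ => (monic_X_sub_C _).pow _
  have dπ : π.degree = (N * μ : ℕ) := by
    rw [degree_eq_natDegree hπ.ne_zero, natDegree_prod_of_monic _ _ fun l _ =>
      (monic_X_sub_C _).pow _]
    simp
  let Z : Submodule F[X] M := Bx ⊓ ⨅ i : Fin P, I (i + a) (P - i)
  have hZ : ∀ v, v ∈ Z ↔ v ∈ Bx ∧ ∀ i < P, v ∈ I (i + a) (P - i) := fun v => by
    simp only [Z, Submodule.mem_inf, Submodule.mem_iInf, Fin.forall_iff]
  obtain ⟨ρ, D, c1, c2, c3, c4⟩ := desc2 co hinj hdiv Z c hc (fun i => val i (P + (a - i)))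
    (fun i => v1 i _) a
    (fun j hj v h => (hZ _).2 ⟨x3 _ _ ((hZ _).1 h).1, fun i hi =>
      i4 _ j _ _ (by omega) (((hZ _).1 h).2 i hi)⟩)
    (fun s : Fin r => π • tw^[a] (S^[s] B)) (fun _ => d + N * (γ + μ))
    (Fintype.linearIndependent_iff.2 fun b hb s => (mul_eq_zero.1
      (Fintype.linearIndependent_iff.1 h1 (fun s => b s * π) (by
        simpa only [mul_smul] using hb) s)).resolve_right hπ.ne_zero)
    (fun s => (hZ _).2 ⟨Bx.smul_mem _ ((f4 a _).2.1.2 (s1 s).1), fun i hi => by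
      by_cases h : i < N
      · obtain ⟨π', e⟩ := dvd_prod_of_mem (fun l => (X - C (c (l + a))) ^ μ) (mem_range.2 h)
        rw [show π = _ from e, mul_smul]
        exact i3 _ _ _
      · exact Submodule.smul_mem _ _ (((f4 a _).1 _ _).2 (f3 s i (by omega) hi))⟩)
    (fun s o => by
      rw [map_smul, smul_eq_mul, degree_mul, dπ, (f4 a _).2.2.1]
      refine (WithBot.add_lt_add_left (WithBot.coe_ne_bot) ((s1 s).2 o)).trans_le ?_
      have : (s : ℕ) * γ ≤ N * γ := Nat.mul_le_mul_right _ (by omega)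
      have h : N * μ + (d + s * γ) ≤ d + N * (γ + μ) := by rw [mul_add]; omega
      exact (WithBot.coe_add _ _).symm.le.trans (WithBot.coe_le_coe.2 h))
    (fun i hi s => by
      rw [v1, (f6 i hi _).2 (by rw [f2]; exact hev _ (by omega) (by omega)), mul_zero])
    (fun i hi => by
      obtain ⟨w, hw, hw0⟩ := hn (a - i) (by omega)
      obtain ⟨g, hg, h2⟩ := h2 w hw
      obtain ⟨b, hb⟩ := (Submodule.mem_span_range_iff_exists_fun _).1 h2
      exact ⟨tw^[a] w, π * g, fun h => hw0 ((f6 i hi w).1 h), mul_ne_zero hπ.ne_zero hg,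
        (Submodule.mem_span_range_iff_exists_fun _).2 ⟨b, by
          rw [mul_smul, ← hb, smul_sum]; exact sum_congr rfl fun s _ => smul_comm _ _ _⟩⟩)
  obtain ⟨s, -, hs⟩ : ∃ s ∈ univ, D s < d := exists_lt_of_sum_lt (by
    rw [sum_const, card_univ, Fintype.card_fin, smul_eq_mul] at c4 ⊢
    have : r * (N * (γ + μ)) ≤ N ^ 2 * (γ + μ) := by
      rw [pow_two, mul_assoc]; exact Nat.mul_le_mul_right _ rN
    rw [mul_add] at c4
    omega)
  obtain ⟨f, hf⟩ := hsur.iterate a (ρ s)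
  have h3 := (hZ _).1 (c2 s)
  rw [← hf] at h3
  refine (hmin f (D s) (fun e => c1.ne_zero s ?_) ((f4 a f).2.1.1 h3.1)
    (fun o => by rw [← (f4 a f).2.2.1, hf]; exact c3 s o)
    fun i hi => ((f4 a f).1 _ _).1 (h3.2 i hi)).not_gt hs
  rw [← hf, e, iterate_map_zero]

end Pool.Agent.DS
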