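import Pool.Agent.Lib.MP_0370b2_nt.SA.ZB
import Pool.Agent.Lib.MP_0c15f2_nt.DS.Sy
import Pool.Agent.Lib.MP_0c15f2_nt.DS.SyD

/-! The zero estimate for affine systems. -/

namespace Pool.Agent.DS

open Polynomial Finset Pool.Agent.CSU.SA

namespace Sy

variable {ι R : Type} [CommRing R] (s : Sy ι R)

/-- The rows that satisfy the condition at one point. -/
def CondI (i m : ℕ) : Ideal (PP ι R) where
  carrier := {f | s.Cond i m f}
  add_mem' := fun ⟨g, h⟩ ⟨g', h'⟩ => ⟨g + g', by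
    have := h.add h'
    rw [map_add, add_mul, add_sub_add_comm]
    exact this⟩
  zero_mem' := ⟨0, by rw [map_zero, zero_mul, sub_zero]; exact Box.zero⟩
  smul_mem' := fun c f ⟨g, h⟩ => ⟨s.JJ i m c * g, by
    have := h.mul_left (s.JJ i m c)
    rw [smul_eq_mul, map_mul, mul_assoc, ← mul_sub]
    exact this⟩

lemma cond_tw (hσ : ∀ a, s.σ a = a ^ s.q) {i m : ℕ} {f : PP ι R} (h : s.Cond i m f) :
    s.Cond (i + 1) m (tw s.σ f) := by
  obtain ⟨g, h⟩ := h
  refine ⟨tw s.σ g, ?_⟩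
  rw [JJ_tw hσ, Function.iterate_succ_apply', ← map_mul, ← map_sub]
  exact h.tw _

lemma cond_of_tw (hσ : ∀ a, s.σ a = a ^ s.q) (hb : Function.Bijective s.σ) {i m : ℕ} {f : PP ι R}
    (h : s.Cond (i + 1) m (tw s.σ f)) : s.Cond i m f := by
  obtain ⟨g, h⟩ := h
  obtain ⟨g, rfl⟩ := tw_surj hb.2 g
  rw [JJ_tw hσ, Function.iterate_succ_apply', ← map_mul, ← map_sub] at h
  exact ⟨g, h.of_tw hb.1⟩

lemma cond_sub (i m : ℕ) (f : PP ι R) : s.Cond i m (s.sub (i + m) f) ↔ s.Cond i (m + 1) f := by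
  simp only [Cond, JJ_sub]

lemma cond_pow (i m : ℕ) (f : PP ι R) :
    s.Cond i m (MvPolynomial.C ((X - C (s.θ ^ s.q ^ i)) ^ s.μ) * f) := ⟨0, by
  rw [zero_mul, sub_zero, map_mul, JJ_C]
  exact Box.of_dvd (by simp [taylor_pow]) _⟩

lemma cond_unit {F : Type} [Field F] (s : Sy ι F) {i m : ℕ} {c : F} (hc : s.θ ^ s.q ^ i ≠ c)
    {f : PP ι F} (h : s.Cond i m (MvPolynomial.C (X - C c) * f)) : s.Cond i m f := by
  obtain ⟨u, v, e⟩ := (isCoprime_X_sub_C_of_isUnit_sub (sub_ne_zero.2 hc).isUnit).pow_left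
    (m := s.μ)
  have h1 := (s.CondI i m).add_mem ((s.CondI i m).mul_mem_left (MvPolynomial.C u)
    (s.cond_pow i m f)) ((s.CondI i m).mul_mem_left (MvPolynomial.C v) h)
  rwa [← mul_assoc, ← mul_assoc, ← add_mul, ← map_mul, ← map_mul, ← map_add, e, map_one,
    one_mul] at h1

end Sy

/-- The zero estimate: the saturated module generated by the orbit vanishes at one point. -/
theorem ze {ι F : Type} [Fintype ι] [Field F] (s : Sy ι F) (δ d P : ℕ) (B : PP ι F)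
    (hσ : ∀ a, s.σ a = a ^ s.q) (hs : Function.Surjective s.σ)
    (hc : Function.Injective fun i : ℕ => s.θ ^ s.q ^ i) (hA : ∀ l, TRow 1 2 (s.A l)) (hB : B ≠ 0)
    (b1 : TRow δ (d + 1) B) (b3 : ∀ i < P, s.Cond i (P - i) B)
    (hmin : ∀ f, TRow δ d f → (∀ i < P, s.Cond i (P - i) f) → f = 0)
    (hev : ∀ a, 1 ≤ a → a ≤ ((δ + 1) ^ Fintype.card ι) ^ 2 * (δ + s.μ) +
      (δ + 1) ^ Fintype.card ι + 1 → s.ev 0 (P + a) ((tw s.σ)^[a] B) = 0) :
    ∃ Mo : Submodule F[X] (PP ι F), B ∈ Mo ∧ (∀ f ∈ Mo, s.sub P (tw s.σ f) ∈ Mo) ∧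
      (∀ (g : F[X]) f, g ≠ 0 → MvPolynomial.C g * f ∈ Mo → f ∈ Mo) ∧
      ∃ a, 1 ≤ a ∧ ∀ w ∈ Mo, s.ev 0 (P + a) ((tw s.σ)^[a] w) = 0 := by
  have sm : ∀ (g : F[X]) (f : PP ι F), g • f = MvPolynomial.C g * f := fun g f =>
    MvPolynomial.smul_eq_C_mul f g
  have mem : ∀ v : PP ι F, v ∈ MvPolynomial.restrictTotalDegree ι F[X] δ ↔ v.totalDegree ≤ δ :=
    fun v => MvPolynomial.mem_restrictTotalDegree _ _ v
  have dg : ∀ v : PP ι F, ∃ d : ℕ, ∀ α, (v.coeff α).degree < d := fun v =>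
    ⟨v.support.sup (fun α => (v.coeff α).natDegree) + 1, fun α => by
      by_cases h : v.coeff α = 0
      · rw [h]; exact WithBot.bot_lt_coe _
      · rw [degree_eq_natDegree h]
        exact_mod_cast Nat.lt_succ_of_le (le_sup (f := fun α => (v.coeff α).natDegree)
          (MvPolynomial.mem_support_iff.2 h))⟩
  obtain ⟨Mo, m1, m2, m3, a, a1, m4⟩ := zeB (fun α => MvPolynomial.lcoeff F[X] α)
    (fun v h => MvPolynomial.ext _ _ h)
    (fun c v h => by
      obtain ⟨v', e⟩ := (MvPolynomial.C_dvd_iff_dvd_coeff (X - C c) v).2 fun α =>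
        dvd_iff_isRoot.2 (h α)
      exact ⟨v', by rw [sm, e]⟩)
    s.σ hs (tw s.σ).toAddMonoidHom (tw_surj hs) (fun α v => coeff_tw _ v α) _ hc
    (fun m => (s.sub m).toLinearMap) s.tw_sub (MvPolynomial.restrictTotalDegree ι F[X] δ)
    ((δ + 1) ^ Fintype.card ι) δ s.μ
    (fun v => by
      rw [mem, mem, MvPolynomial.totalDegree, MvPolynomial.totalDegree,
        show ((tw s.σ).toAddMonoidHom v).support = _ from
          MvPolynomial.support_map_of_injective v (map_injective s.σ s.σ.injective)])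
    (fun m v hv => ⟨(dg v).elim fun d hd => (mem _).2
        (TRow.aeval ⟨(mem v).1 hv, hd⟩ (Sy.L_row hA m)).1,
      fun d hd => (TRow.aeval ⟨(mem v).1 hv, hd⟩ (Sy.L_row hA m)).2⟩)
    (fun c v h => (mem v).2 (le_trans (Finset.sup_mono fun α hα => by
      rw [MvPolynomial.mem_support_iff] at hα ⊢
      rw [MvPolynomial.coeff_smul, smul_eq_mul]
      exact mul_ne_zero (X_sub_C_ne_zero c) hα) ((mem _).1 h)))
    (fun ρ h => Z.bx_dep ρ fun i α => (dg (ρ i)).elim fun d hd =>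
      (TRow.row ⟨(mem _).1 (h i), hd⟩ α).2)
    (fun i m => (s.CondI i m).restrictScalars F[X])
    (fun i m v => ⟨s.cond_of_tw hσ ⟨s.σ.injective, hs⟩, s.cond_tw hσ⟩)
    (fun i m v h => (s.cond_sub i m v).2 h) (fun i m v => by rw [sm]; exact s.cond_pow i m v)
    (fun i j m v h e => s.cond_unit (fun e => h (hc e).symm) (by rw [← sm]; exact e))
    (fun i m => (evp (s.θ ^ s.q ^ i) (s.vv i m)).toAddMonoidHom)
    (fun i m g v => by
      rw [sm, ← evp_C _ (s.vv i m)]; exact map_mul (evp _ _) _ _)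
    (fun i m v => (s.ev_eq _ _ _).symm.trans ((Sy.ev_tw hσ i m v).trans
      (congrArg _ (s.ev_eq _ _ _))))
    (fun m v => (s.ev_eq _ _ _).symm.trans
      (Eq.trans (by simpa using s.ev_sub 0 m v) (s.ev_eq _ _ _))) P (d + 1) B hB
    ((mem _).2 b1.1) b1.2 b3
    (fun f d' h0 h1 h2 h3 => by
      by_contra h
      exact h0 (hmin f (TRow.mono ⟨(mem _).1 h1, h2⟩ le_rfl (by omega)) h3))
    (fun a h1 h2 => (s.ev_eq _ _ _).symm.trans (hev a h1 h2))
  exact ⟨Mo, m1, m2, fun g f hg h => m3 g f hg (by rwa [sm]), a, a1,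
    fun w hw => (s.ev_eq _ _ _).trans (m4 w hw)⟩

end Pool.Agent.DS
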