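import Pool.Agent.Lib.MP_0370b2_nt.SA.Ml0
import Pool.Agent.Lib.MP_0c15f2_nt.DS.SyE
import Pool.Agent.Lib.MP_0c15f2_nt.DS.SyS
import Pool.Agent.Lib.MP_0c15f2_nt.DS.SyZ
import Pool.Agent.Lib.MP_0c15f2_nt.DS.St

/-! From a pair of points to a stable module of rows that vanishes at one point. -/

namespace Pool.Agent.DS

open Polynomial Finset Pool.Agent.CSU.SA Pool.Agent.CSU.SA.DS

lemma vv_vals {ι R : Type} [CommRing R] (s : Sy ι R) (m : ℕ) : s.vv 0 m = vals s.σ s.θ s.y s.A m := by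
  induction m with
  | zero => exact funext fun l => by rw [s.vv_zero, pow_zero, pow_one, vals]
  | succ m ih => exact funext fun l => by rw [s.vv_succ, ih, pow_zero, pow_one, zero_add, vals]; rfl

/-- The engine. -/
theorem gen0 {k ι F : Type} [Field k] [Fintype ι] [NormedField F] [IsUltrametricDist F]
    [IsAlgClosed F] [Algebra k F] (q μ : ℕ) (σ : F →+* F) (θ : F) (y : ι → F × F)
    (A : ι → PP ι (F × F)) (Q : PP ι (F × F)) (U : Submodule k (F × F)) (J : ℕ → ℕ → ι → F[X])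
    (ν δ d P t hq hA H h lam S : ℕ) (η r r' Z : ℝ) (q2 : 2 ≤ q) (hθ : 1 < ‖θ‖) (hμ : 1 ≤ μ)
    (hσ : ∀ a, σ a = a ^ q) (h1 : 1 ∈ U) (hθU : (θ, θ) ∈ U)
    (hy : ∀ l, y l ∈ U ∧ HtP U hA (A l) ∧ RowT 1 2 (A l)) (hQ : HtP U hq Q)
    (hp : ∀ p ∈ U ^ h, (‖p.1‖ * ‖θ‖ ^ S ≤ 1 → p.2 = 0) ∧ ‖p.1‖ ≤ Z ∧ ‖p.1 - p.2‖ ≤ r)
    (hν : ν ≤ μ) (hQ0 : ∃ α, ((Q.coeff α).coeff 0).2 ≠ 0) (hQs : ∀ α, Q.coeff α ≠ 0 → ∀ l, α l < ν)
    (hcnt : P * μ ^ (Fintype.card ι + 1) <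
      (δ + 1) ^ Fintype.card ι * d + P * (μ * (μ - ν) ^ Fintype.card ι))
    (hdeg : d + Fintype.card ι * δ * t ≤ μ * P)
    (hH : ((Fintype.card ι * δ + 1) ^ Fintype.card ι * d + P * μ ^ (Fintype.card ι + 1) + 1) *
      ((d + Fintype.card ι * δ * (hA + 2) + hq) * q ^ P) ≤ H)
    (hlam : ((Fintype.card ι * δ + 1) ^ Fintype.card ι) ^ 2 * (Fintype.card ι * δ + μ) +
      (Fintype.card ι * δ + 1) ^ Fintype.card ι + 1 ≤ lam)
    (hh : q ^ lam * H + d + Fintype.card ι * δ * (hA + 2) * q ^ (P + lam) ≤ h)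
    (hJ0 : ∀ l, (J 0 0 l).coeff 0 = (y l).1)
    (hJ : ∀ m i l, i ≤ m → X ^ μ ∣ J (m + 1) i l -
        Sm.eJ (θ ^ q ^ i) (J m i) ((tw σ)^[m] (tw (RingHom.fst F F) (A l))) ∧
      J (m + 1) (i + 1) l = (J m i l).map σ ∧ Nb μ 1 (J m i l))
    (hap : ∀ a ≤ lam, Apx q μ θ (J (P + a)) (P + a) t η) (η0 : 0 ≤ η) (η1 : η ≤ 1) (r0 : 0 ≤ r')
    (Z1 : 1 ≤ Z) (hZr : Z * r' ≤ r) (r1 : r ≤ 1)
    (hQs' : Nb μ r' (MvPolynomial.eval (fun l => J 0 0 l - C (y l).1) (tw (RingHom.fst F F) Q)))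
    (hsm : max r (Z ^ q ^ lam * ‖θ‖ ^ (d * q ^ (lam + P)) * η) *
      ‖θ‖ ^ (μ * P * q ^ (lam + P)) * ‖θ‖ ^ S ≤ 1) :
    ∃ (B : PP ι F) (Mo : Submodule F[X] (PP ι F)) (a : ℕ), B ≠ 0 ∧
      RowT (Fintype.card ι * δ) d B ∧ B ∈ Mo ∧
      (∀ f ∈ Mo, pb σ (fun l => tw (RingHom.snd F F) (A l)) P f ∈ Mo) ∧
      (∀ (g : F[X]) f, g ≠ 0 → MvPolynomial.C g * f ∈ Mo → f ∈ Mo) ∧ 1 ≤ a ∧
      ∀ w ∈ Mo, evp θ (vals σ θ (fun l => (y l).2) (fun l => tw (RingHom.snd F F) (A l)) (P + a))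
        ((tw σ)^[a] w) = 0 := by
  classical
  let s : Sy ι (F × F) := ⟨q, μ, σ.prodMap σ, (θ, θ), y, A, Q⟩
  have hsσ : ∀ a, s.σ a = a ^ s.q := fun x => Prod.ext (hσ _) (hσ _)
  set s1 := s.map (RingHom.fst F F) σ with hs1
  set s2 := s.map (RingHom.snd F F) σ with hs2
  have c1 : ∀ a, RingHom.fst F F (s.σ a) = σ (RingHom.fst F F a) := fun a => rfl
  have c2 : ∀ a, RingHom.snd F F (s.σ a) = σ (RingHom.snd F F a) := fun a => rfl
  set D := Fintype.card ι * δ with hD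
  have he0 := exi s2 ν δ d P hν (hQ0.imp fun α h => by simpa [hs2, Sy.map] using h)
    (fun α h => hQs α fun h0 => h (by
      rw [show s2.Q = tw (RingHom.snd F F) Q from rfl, coeff_tw, h0, Polynomial.map_zero])) hcnt
  have hex : ∃ d, ∃ f, f ≠ 0 ∧ TRow D d f ∧ ∀ i < P, s2.Cond i (P - i) f := ⟨d, he0⟩
  have hle : Nat.find hex ≤ d := Nat.find_min' hex he0
  obtain ⟨f, f0, fR, fC⟩ := Nat.find_spec hex
  obtain ⟨d1, hd1⟩ : ∃ d1, Nat.find hex = d1 + 1 := Nat.exists_eq_add_one_of_ne_zero fun h0 =>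
    f0 (MvPolynomial.ext _ _ fun α => by
      have := fR.2 α
      rw [h0] at this
      simpa using this)
  have hmin : ∀ f, TRow D d1 f → (∀ i < P, s2.Cond i (P - i) f) → f = 0 := fun f a b =>
    by_contra fun c => Nat.find_min hex (by omega : d1 < Nat.find hex) ⟨f, c, a, b⟩
  rw [hd1] at fR hle
  obtain ⟨B, g, BR, B0, BH, hg⟩ := aux U s (RingHom.snd F F) σ D (d1 + 1) P hq hA H f h1
    hθU hy hQ q2 hsσ hσ (le_trans (by gcongr) hH) f0 fR fC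
  have Hh : U ^ H ≤ U ^ h := up_mono h1 (by
    have := Nat.le_mul_of_pos_left H (pow_pos (show 0 < q by omega) lam)
    omega)
  have hev : ∀ a ≤ lam, s2.ev 0 (P + a) ((tw s2.σ)^[a] (tw (RingHom.snd F F) B)) = 0 := by
    intro a ha
    have q1 : 1 ≤ q := by omega
    have hm : s.ev 0 (P + a) ((tw s.σ)^[a] B) ∈ U ^ h := up_mono h1 (le_trans (by
        change q ^ a * H + d * q ^ 0 + D * ((hA + 2) * q ^ (0 + (P + a))) ≤ _
        rw [pow_zero, mul_one, zero_add, ← mul_assoc]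
        gcongr) hh)
      (Sy.JJ_ht h1 hθU hy q2 hsσ (BH.tw_iter hsσ a) ((BR.mono le_rfl hle).tw_iter _ a) 0 (P + a) 0 0)
    have e2 := s.ev_map c2 0 (P + a) ((tw s.σ)^[a] B)
    have e1 := s.ev_map c1 0 (P + a) ((tw s.σ)^[a] B)
    rw [tw_iter_map c2] at e2
    rw [tw_iter_map c1] at e1
    refine e2.symm.trans ((hp _ hm).1 (le_trans ?_ hsm))
    refine mul_le_mul_of_nonneg_right ?_ (by positivity)
    have hs := small s1 J (tw (RingHom.fst F F) B) (fun i => tw (RingHom.fst F F) (g i)) D d P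
      a t η r r' Z hθ q2 hμ hσ hJ0 hJ (hap a ha) η0 η1 r0 Z1 hZr r1
      ((BR.mono le_rfl hle).tw _) hdeg (fun α n => by
        rw [coeff_tw, coeff_map]; exact (hp _ (Hh (BH α n))).2.1)
      (fun i hi => ⟨fun α n => by
        rw [coeff_tw, coeff_map]; exact (hp _ (Hh ((hg i hi).1 α n))).2.1, fun α hα n hn => by
        have a1 := X_pow_dvd_iff.1 ((hg i hi).2.2 α hα) n hn
        have a2 := (hp _ (Hh ((hg i hi).2.1 α n))).2.2
        rw [coeff_tw, coeff_map] at a1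
        rw [show (_ : F × F).2 = 0 from a1, sub_zero] at a2
        have a3 : tw (RingHom.fst F F) (s.JJ i (P - i) B - g i * (tw s.σ)^[i] s.Q) =
            s1.JJ i (P - i) (tw (RingHom.fst F F) B) -
              tw (RingHom.fst F F) (g i) * (tw s1.σ)^[i] s1.Q := by
          rw [map_sub, map_mul, s.JJ_map c1, tw_iter_map c1]
          rfl
        rw [← a3, coeff_tw, coeff_map]
        exact a2⟩) hQs'
    refine le_trans (le_of_eq (congrArg norm e1)) (hs.trans ?_)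
    change max r (Z ^ q ^ a * ‖θ‖ ^ (d * q ^ (a + P)) * η) * ‖θ‖ ^ (μ * P * q ^ (a + P)) ≤ _
    have hθ1 := hθ.le
    exact mul_le_mul (max_le_max le_rfl (by gcongr)) (by gcongr) (by positivity)
      (le_max_of_le_right (by positivity))
  obtain ⟨Mo, m1, m2, m3, a, a1, m4⟩ := ze s2 D d1 P (tw (RingHom.snd F F) B) hσ
    (fun a => (IsAlgClosed.exists_pow_nat_eq a (n := q) (by omega)).imp fun b e => (hσ b).trans e)
    (pow_inj hθ q2) (fun l => TRow.tw (hy l).2.2 _) B0 (BR.tw _)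
    (fun i hi => ⟨tw (RingHom.snd F F) (g i), by
      have := (hg i hi).2.2
      rwa [map_sub, map_mul, s.JJ_map c2, tw_iter_map c2] at this⟩) hmin
    fun a _ ha => hev a (ha.trans hlam)
  refine ⟨_, Mo, a, B0, (BR.mono le_rfl hle).tw _, m1, m2, m3, a1, fun w hw => ?_⟩
  have := m4 w hw
  rwa [Sy.ev_eq, vv_vals, pow_zero, pow_one] at this

end Pool.Agent.DS

namespace Pool.Agent.CSU.SA.DS

theorem gen : GenS := by
  intro k ι F _ _ _ _ _ _ q μ σ θ y L Q U J ν δ d P t h0 hq H h lam S η r r' Z a1 a2 a3 a4 a5 a6 a7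
    a8 a9 b1 b2 b3 b4 b5 b6 b7 b8 b9 c1 c2 c3 c4 c5 c6 c7 c8 c9 d1
  obtain ⟨B, Mo, a, e1, e2, e3, e4, e5, -, e6⟩ := Pool.Agent.DS.gen0 q μ σ θ y L Q U J ν δ d P t hq
    h0 H h lam S η r r' Z a1 a2 a3 a4 a5 a6 (fun l => ⟨(a7 l).1, (a7 l).2.2, (a7 l).2.1⟩) a8 a9 b1
    b2 b3 b4 b5 b6 b7 b8 b9 c1 c2 c3 c4 c5 c6 c7 c8 c9 d1
  exact ⟨B, Mo, a, e1, e2, e3, e4, e5, e6⟩

end Pool.Agent.CSU.SA.DS
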