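import Pool.Agent.Lib.MP_bf776f_nt.SU.An

/-! Non-vanishing of the Legendre determinant of a rank two Drinfeld module. -/

namespace Pool.Agent.DS0

open Finset Filter Topology Pool.Agent.CSU

variable {F : Type} [NormedField F] [IsUltrametricDist F]

theorem cauchy {f g : ℕ → F} {a b : F} (hf : HasSum f a) (hg : HasSum g b) :
    HasSum (fun m => ∑ p ∈ antidiagonal m, f p.1 * g p.2) (a * b) := by
  let _ : NonarchimedeanRing F := ⟨NonarchimedeanAddGroup.is_nonarchimedean⟩
  have h := (HasAntidiagonal.sigmaAntidiagonalEquivProd.hasSum_iff).2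
    (hf.mul_of_nonarchimedean hg)
  refine h.sigma fun m => ?_
  rw [← sum_coe_sort]
  exact hasSum_fintype _

/-- the scalar recursion -/
theorem leg_rec {q : ℕ} (hq : 1 < q) {θ Δ : F} (hθ : 1 < ‖θ‖) (d : ℕ → F) (h0 : d 0 ≠ 0)
    (r0 : Δ * d 0 ^ q = θ * d 0) (r : ∀ m, Δ * d (m + 1) ^ q = θ * d (m + 1) - d m) {L : F}
    (hL : HasSum (fun m => θ ^ m * d m ^ q) L) : L ≠ 0 := by
  rintro rfl
  have hne : ∀ m, d m ≠ 0 := by
    intro m
    induction m with
    | zero => exact h0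
    | succ m ih =>
      intro hm
      have := r m
      rw [hm, zero_pow (by omega)] at this
      exact ih (by simpa using this)
  have hs : ∀ N, Δ * ∑ m ∈ range (N + 1), θ ^ m * d m ^ q = θ ^ (N + 1) * d N := by
    intro N
    induction N with
    | zero => simpa using r0
    | succ N ih => rw [sum_range_succ, mul_add, ih]; linear_combination θ ^ (N + 1) * r N
  have ht : Tendsto (fun N => θ ^ (N + 1) * d N) atTop (𝓝 0) := by
    have := (hL.tendsto_sum_nat.comp (tendsto_add_atTop_nat 1)).const_mul Δ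
    simpa only [Function.comp_def, hs, mul_zero] using this
  have htn := tendsto_zero_iff_norm_tendsto_zero.1 ht
  have hd : Tendsto d atTop (𝓝 0) := by
    refine squeeze_zero_norm (fun N => ?_) htn
    rw [norm_mul, norm_pow]
    exact le_mul_of_one_le_left (norm_nonneg _) (one_le_pow₀ hθ.le)
  have hd2 : Tendsto (fun m => ‖Δ * d m ^ (q - 1)‖) atTop (𝓝 0) := by
    have := ((hd.pow (q - 1)).const_mul Δ).norm
    rwa [zero_pow (by omega), mul_zero, norm_zero] at this
  obtain ⟨M, hM⟩ := eventually_atTop.1 (hd2.eventually (gt_mem_nhds one_pos))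
  have hmono : ∀ m, M ≤ m → ‖θ ^ (M + 1) * d M‖ ≤ ‖θ ^ (m + 1) * d m‖ := by
    intro m hm
    induction m, hm using Nat.le_induction with
    | base => exact le_rfl
    | succ m hm ih =>
      refine ih.trans ?_
      have e : θ ^ (m + 1) * d m = θ ^ (m + 1 + 1) * d (m + 1) +
          -(θ ^ (m + 1) * d (m + 1) * (Δ * d (m + 1) ^ (q - 1))) := by
        have e2 : d (m + 1) ^ q = d (m + 1) * d (m + 1) ^ (q - 1) := by
          rw [← pow_succ']; congr 1; omega
        have := r m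
        rw [e2] at this
        linear_combination θ ^ (m + 1) * this
      rw [e]
      refine IsUltrametricDist.norm_add_le_max _ _ |>.trans (max_le le_rfl ?_)
      rw [norm_neg, norm_mul _ (Δ * _)]
      refine (mul_le_of_le_one_right (norm_nonneg _) (hM _ (by omega)).le).trans ?_
      simp only [norm_mul, norm_pow]
      exact mul_le_mul_of_nonneg_right (pow_le_pow_right₀ hθ.le (by omega)) (norm_nonneg _)
  have hpos : 0 < ‖θ ^ (M + 1) * d M‖ :=
    norm_pos_iff.2 (mul_ne_zero (pow_ne_zero _ (norm_pos_iff.1 (one_pos.trans hθ))) (hne M))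
  exact absurd (ge_of_tendsto htn (eventually_atTop.2 ⟨M, hmono⟩)) (not_le.2 hpos)

theorem leg0 {q : ℕ} (h : Fr q F) {θ g Δ : F} (hθ : 1 < ‖θ‖) (x1 x2 : ℕ → F)
    (h10 : θ * x1 0 + g * x1 0 ^ q + Δ * x1 0 ^ q ^ 2 = 0)
    (h1 : ∀ i, θ * x1 (i + 1) + g * x1 (i + 1) ^ q + Δ * x1 (i + 1) ^ q ^ 2 = x1 i)
    (h20 : θ * x2 0 + g * x2 0 ^ q + Δ * x2 0 ^ q ^ 2 = 0)
    (h2 : ∀ i, θ * x2 (i + 1) + g * x2 (i + 1) ^ q + Δ * x2 (i + 1) ^ q ^ 2 = x2 i)
    (hM : x1 0 * x2 0 ^ q - x2 0 * x1 0 ^ q ≠ 0) {A1 A2 B1 B2 : F}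
    (hA1 : HasSum (fun i => θ ^ i * x1 i ^ q) A1) (hA2 : HasSum (fun i => θ ^ i * x2 i ^ q) A2)
    (hB1 : HasSum (fun i => θ ^ i * x1 i ^ q ^ 2) B1)
    (hB2 : HasSum (fun i => θ ^ i * x2 i ^ q ^ 2) B2) : A1 * B2 - A2 * B1 ≠ 0 := by
  obtain ⟨σ, hσ⟩ := h.ex
  have hσ2 : ∀ z, z ^ q ^ 2 = σ (σ z) := fun z => by rw [hσ, hσ, ← pow_mul, sq]
  simp only [hσ2] at h10 h1 h20 h2 hB1 hB2
  simp only [← hσ] at h10 h1 h20 h2 hA1 hA2 hM
  have key : ∀ x : ℕ → F, θ * x 0 + g * σ (x 0) + Δ * σ (σ (x 0)) = 0 →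
      (∀ i, θ * x (i + 1) + g * σ (x (i + 1)) + Δ * σ (σ (x (i + 1))) = x i) →
      PowerSeries.C θ * PowerSeries.mk x + PowerSeries.C g * (PowerSeries.mk x).map σ +
        PowerSeries.C Δ * ((PowerSeries.mk x).map σ).map σ = PowerSeries.X * PowerSeries.mk x := by
    intro x a b
    ext m
    cases m with
    | zero =>
      simpa only [map_add, PowerSeries.coeff_C_mul, PowerSeries.coeff_map, PowerSeries.coeff_mk,
        PowerSeries.coeff_zero_X_mul] using a
    | succ m => simpa [PowerSeries.coeff_succ_X_mul] using b m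
  have k1 := key x1 h10 h1
  have k2 := key x2 h20 h2
  set Y1 := PowerSeries.mk x1 with hY1
  set Y2 := PowerSeries.mk x2 with hY2
  set D := Y1 * Y2.map σ - Y2 * Y1.map σ with hD
  have hsD : D.map σ = Y1.map σ * (Y2.map σ).map σ - Y2.map σ * (Y1.map σ).map σ := by
    simp [hD]
  have kD : PowerSeries.C Δ * D.map σ = PowerSeries.C θ * D - PowerSeries.X * D := by
    rw [hsD, hD]
    linear_combination Y1.map σ * k2 - Y2.map σ * k1
  refine leg_rec (Δ := Δ) h.lt hθ (fun m => PowerSeries.coeff m D) ?_ ?_ (fun m => ?_) ?_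
  · simpa only [hD, hY1, hY2, map_sub, PowerSeries.coeff_mul, Finset.Nat.antidiagonal_zero, sum_singleton,
      PowerSeries.coeff_map, PowerSeries.coeff_mk] using hM
  · have := congrArg (PowerSeries.coeff 0) kD
    simpa [← hσ] using this
  · have := congrArg (PowerSeries.coeff (m + 1)) kD
    simpa [← hσ, PowerSeries.coeff_succ_X_mul] using this
  · have hc := (cauchy hA1 hB2).sub (cauchy hA2 hB1)
    refine (congrArg (fun f => HasSum f (A1 * B2 - A2 * B1)) (funext fun m => ?_)).mpr hc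
    rw [← hσ, ← PowerSeries.coeff_map, hsD, map_sub, PowerSeries.coeff_mul, PowerSeries.coeff_mul,
      mul_sub, mul_sum, mul_sum]
    congr 1 <;> refine sum_congr rfl fun p hp => ?_ <;>
      simp only [hY1, hY2, PowerSeries.coeff_map, PowerSeries.coeff_mk,
        ← mem_antidiagonal.1 hp, pow_add] <;> ring

end Pool.Agent.DS0
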