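import Pool.Agent.Lib.MP_0c15f2_nt.DS.An1
import Pool.Agent.Lib.MP_0c15f2_nt.DS.End0
import Pool.Agent.Lib.MP_0c15f2_nt.DS.Leg0

/-! The lattice of periods, the Legendre determinant and the endomorphism ring. -/

namespace Pool.Agent.CSU.SA.DS

open Polynomial Finset Filter Topology Pool.Agent.DS0

variable {k F : Type} [Field k] [Fintype k] [NormedField F] [Algebra k F] {D : DM F}
  [IsUltrametricDist F] [CompleteSpace F]

theorem DM.Ok.leg (h : D.Ok k) {ω₁ ω₂ : F} (h1 : D.ex ω₁ = 0) (h2 : D.ex ω₂ = 0)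
    (hM : D.ex (ω₁ / D.θ) * D.ex (ω₂ / D.θ) ^ D.q - D.ex (ω₂ / D.θ) * D.ex (ω₁ / D.θ) ^ D.q ≠ 0)
    (m : ℕ) (hm : 1 ≤ m) :
    D.ph ω₁ 0 m 0 * D.ph ω₂ 0 (m + 1) 0 - D.ph ω₂ 0 m 0 * D.ph ω₁ 0 (m + 1) 0 ≠ 0 := by
  have t0 := h.w.θ0
  induction m, hm using Nat.le_induction with
  | base =>
    have st : ∀ (w : F) (i : ℕ), D.θ * D.ex (w / D.θ ^ (i + 1)) +
        D.g * D.ex (w / D.θ ^ (i + 1)) ^ D.q + D.Δ * D.ex (w / D.θ ^ (i + 1)) ^ D.q ^ 2 =
        D.ex (w / D.θ ^ i) := fun w i =>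
      (h.w.ex_th _).symm.trans (congrArg D.ex (by field_simp; ring))
    exact leg0 h.w.fr h.2.1 (fun i => D.ex (ω₁ / D.θ ^ (i + 1))) (fun i => D.ex (ω₂ / D.θ ^ (i + 1)))
      (by simpa [h1] using st ω₁ 0) (fun i => st ω₁ _) (by simpa [h2] using st ω₂ 0)
      (fun i => st ω₂ _) (by simpa using hM) (by simpa using h.w.tower ω₁ one_pos)
      (by simpa using h.w.tower ω₂ one_pos) (by simpa using h.w.tower ω₁ two_pos)
      (by simpa using h.w.tower ω₂ two_pos)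
  | succ m hm ih =>
    have z : (0 : F) ^ D.q ^ m = 0 := zero_pow (pow_pos (one_pos.trans h.w.fr.lt) _).ne'
    have hA : D.A m * (D.θ ^ D.q ^ m - D.θ ^ D.q ^ 0) ≠ 0 :=
      mul_ne_zero (inv_ne_zero (pow_ne_zero _ h.2.2.2.2)) (h.w.fr.sub_ne h.2.1 hm)
    rw [h.ph_two ω₁ hm, h.ph_two ω₂ hm, h1, h2, z]
    intro e
    exact mul_ne_zero hA ih (by linear_combination e)

/-- If the exponential of `v` is algebraic over `K_∞`, so is `v`. -/
theorem DM.Ok.alg_of_ex [IsAlgClosed F] (h : D.Ok k) (hg : IsAlgebraic (Kinf k D.θ) D.g)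
    (hΔ : IsAlgebraic (Kinf k D.θ) D.Δ) {v : F} (hv : IsAlgebraic (Kinf k D.θ) (D.ex v)) :
    IsAlgebraic (Kinf k D.θ) v := by
  have hK : D.θ ∈ Kinf k D.θ :=
    Subfield.le_topologicalClosure _ (Subfield.subset_closure (Or.inr rfl))
  have hθ : IsAlgebraic (Kinf k D.θ) D.θ := isAlgebraic_algebraMap (⟨_, hK⟩ : Kinf k D.θ)
  obtain ⟨s, hs⟩ := pow_unbounded_of_one_lt ‖v‖ h.2.1
  have tp := h.w.θpos
  have hn : ‖v / D.θ ^ s‖ ≤ ‖D.θ‖ := by
    rw [norm_div, norm_pow]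
    exact (div_le_one_of_le₀ hs.le (pow_pos tp _).le).trans h.2.1.le
  have hx : IsAlgebraic (Kinf k D.θ) (D.ex (v / D.θ ^ s)) :=
    mem_algebraicClosure_iff.1 (h.exH.tors_mem (algebraicClosure (Kinf k D.θ) F).toSubfield
      (fun x hx => mem_algebraicClosure_iff.2 (IsAlgebraic.restrictScalars (Kinf k D.θ)
        (show IsAlgebraic (algebraicClosure (Kinf k D.θ) F) x from hx)))
      (mem_algebraicClosure_iff.2 hθ) (mem_algebraicClosure_iff.2 hg)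
      (mem_algebraicClosure_iff.2 hΔ) (mem_algebraicClosure_iff.2 hv) s)
  let M := IntermediateField.adjoin (Kinf k D.θ) {D.g, D.Δ, D.ex (v / D.θ ^ s)}
  have : FiniteDimensional (Kinf k D.θ) M := IntermediateField.finiteDimensional_adjoin (by
    rintro x (rfl | rfl | rfl)
    exacts [hg.isIntegral, hΔ.isIntegral, hx.isIntegral])
  obtain ⟨z, hz, h1, h2⟩ := h.w.field_onto (W := M.toSubfield)
    (fd_closed (Kinf k D.θ) (Subfield.isClosed_topologicalClosure _) hK h.2.1 M.toSubmodule).1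
    (M.algebraMap_mem ⟨_, hK⟩) (IntermediateField.subset_adjoin _ _ (by simp))
    (IntermediateField.subset_adjoin _ _ (by simp))
    (x := D.ex (v / D.θ ^ s)) (IntermediateField.subset_adjoin _ _ (by simp))
    ((h.w.iso _ hn).trans_le hn)
  have h3 : z = v / D.θ ^ s := by
    by_contra hne
    refine absurd (h.exH.big (by rw [h.exH.sub, h2, sub_self]) (sub_ne_zero.2 hne)) (not_lt.2 ?_)
    rw [sub_eq_add_neg]
    exact (IsUltrametricDist.norm_add_le_max _ _).trans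
      (max_le (h1.trans_le ((h.w.iso _ hn).trans_le hn)) (by rwa [norm_neg]))
  have h4 : IsAlgebraic (Kinf k D.θ) z :=
    IntermediateField.isAlgebraic_iff.1 (Algebra.IsAlgebraic.isAlgebraic (⟨z, hz⟩ : M))
  have := (hθ.pow s).mul h4
  rwa [h3, mul_div_cancel₀ _ (pow_ne_zero _ h.w.θ0)] at this

theorem lat : LatS := by
  intro k F _ _ _ _ _ _ _ D h
  obtain ⟨ω₁, ω₂, hB, hM⟩ := h.bas
  exact ⟨h.w.onto, ⟨ω₁, ω₂, hB, h.leg hB.1 hB.2.1 hM⟩,
    fun hg hΔ v hv => h.alg_of_ex hg hΔ (hv ▸ isAlgebraic_zero)⟩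

theorem ord : OrdS := by
  intro k F _ _ _ _ _ _ _ D h
  obtain ⟨o1, o2, hk, hn, -, h1, -⟩ := h.exH.lat0
  obtain ⟨α, hα, b2, -, hO, hm⟩ := h.exH.ostr hk hn (norm_pos_iff.1 (h.w.θpos.trans h1))
  have dg : ∀ (a : k[X]) (N : ℕ), ‖aeval D.θ a‖ ≤ ‖D.θ‖ ^ N → a.natDegree ≤ N + 0 := by
    intro a N ha
    rcases eq_or_ne a 0 with rfl | h0
    · simp
    · rw [norm_aeval hk_fin h.2.1 h0] at ha
      exact (pow_le_pow_iff_right₀ h.2.1).1 ha
  refine ⟨h.exH.O, fun β => h.end_iff.symm, h.exH.θ_mem, fun β hβ h0 => ⟨h.exH.one_le hβ h0, ?_⟩,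
    α, hα, 0, fun β hβ N hN => ?_⟩
  · obtain ⟨b, hb, a, ha, e⟩ := h.exH.dvd_aev hβ h0
    exact ⟨b, hb, a, ha, (mul_comm _ _).trans e⟩
  · obtain ⟨a, b, rfl⟩ := hO β hβ
    rw [hm, max_le_iff] at hN
    rcases eq_or_ne α 0 with rfl | h0
    · exact ⟨a, 0, dg a N hN.1, by simp, by simp⟩
    · refine ⟨a, b, dg a N hN.1, dg b N (le_trans ?_ hN.2), rfl⟩
      rw [norm_mul]
      exact le_mul_of_one_le_right (norm_nonneg _) (h.exH.one_le hα h0)

end Pool.Agent.CSU.SA.DS
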