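import Pool.Agent.Lib.MP_0c15f2_nt.DS.St
import Pool.Agent.Lib.MP_0370b2_nt.SA.Mult

/-! Drinfeld modules of rank two: removal of the variables level by level. -/

namespace Pool.Agent.CSU.SA.DS

open Polynomial Finset

namespace Mult

theorem end_zero {F : Type} [NormedField F] (D : DM F) (hq : D.q ≠ 0) : D.End 0 :=
  ⟨0, by simp, fun x => by simp [ql, rh, hq]⟩

/-- Exponents are padded by zero. -/
theorem pad {k F ι κ : Type} [Field k] [NormedField F] [Algebra k F] [Fintype ι] [DecidableEq ι]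
    [Fintype κ] [DecidableEq κ] {ν : ℕ} (θ : F) (W : Submodule k F[X]) (g : ι → κ)
    (hg : Function.Injective g) (z : Fin ν) (hz : (z : ℕ) = 0) (G : (ι → Fin ν) → F[X])
    (α : ι → Fin ν) (hG : ∀ a, G a ∈ W) (hmax : ∀ a, ‖(G a).eval θ‖ ≤ ‖(G α).eval θ‖) :
    ∃ (G' : (κ → Fin ν) → F[X]) (α' : κ → Fin ν), G' α' = G α ∧ (∀ b, G' b ∈ W) ∧
      (∀ b, ‖(G' b).eval θ‖ ≤ ‖(G' α').eval θ‖) ∧
      ∀ y : κ → F, val (fun b => (G' b).eval θ) y =
        ∑ a, (G a).eval θ * ∏ l, y (g l) ^ (a l : ℕ) := by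
  set p : (ι → Fin ν) → κ → Fin ν := fun a => Function.extend g a fun _ => z with hp
  have hpi : Function.Injective p := fun a b h => funext fun l => by
    have := congrFun h (g l)
    simpa only [hp, hg.extend_apply] using this
  have e1 : ∀ a, Function.extend p G 0 (p a) = G a := fun a => hpi.extend_apply _ _ _
  have e2 : ∀ b, (¬ ∃ a, p a = b) → Function.extend p G 0 b = 0 := fun b hb =>
    Function.extend_apply' _ _ _ hb
  refine ⟨Function.extend p G 0, p α, e1 α, fun b => ?_, fun b => ?_, fun y => ?_⟩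
  · by_cases hb : ∃ a, p a = b
    · obtain ⟨a, rfl⟩ := hb
      rw [e1]; exact hG a
    · rw [e2 b hb]; exact W.zero_mem
  · by_cases hb : ∃ a, p a = b
    · obtain ⟨a, rfl⟩ := hb
      rw [e1, e1]; exact hmax a
    · rw [e2 b hb]; simp
  · refine (Fintype.sum_of_injective p hpi _ _ (fun b hb => ?_) fun a => ?_).symm
    · beta_reduce
      rw [e2 b hb]; simp
    · beta_reduce
      rw [e1]
      congr 1
      refine Fintype.prod_of_injective g hg _ _ (fun i hi => ?_) fun i => ?_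
      · rw [hp]
        simp only
        rw [Function.extend_apply' _ _ _ hi, hz, pow_zero]
      · rw [hp]
        simp only
        rw [hg.extend_apply]

theorem num (q n N ν c e a P0 P : ℕ) (hq : 2 ≤ q) (hN : N ≤ n) (h0 : P0 ≤ P)
    (hP : 1 + 4 * n * ν * (1 + (c + 2) ^ 2) * q ^ (1 + e + (a + 1)) ≤ P) :
    q ^ P + N * (ν * ((q ^ P0 + 4 * (c * P + 1 + 1) ^ 2) * q ^ (c * P + 1 + e + a + 1))) ≤
      q ^ ((c + 3) * P) := by
  refine le_trans ?_ (mult_num q (4 * n) (4 * N) ν c e (a + 1) P0 P hq (by omega) h0 hP)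
  refine Nat.add_le_add_left ?_ _
  calc _ ≤ N * (ν * ((4 * q ^ P0 + 4 * (c * P + 1 + 1) ^ 2) * q ^ (c * P + 1 + e + a + 1))) := by
        gcongr
        omega
    _ = _ := by ring

end Mult

/-- The levels are removed from the top. -/
theorem mult (hap : ApS) (haph : ApHS) : MultS := by
  intro k F _ _ _ _ _ _ D U r w n e a ν c κ P1 hD hU hc ha hml
  have hq : 2 ≤ D.q := hD.1 ▸ Fintype.one_lt_card
  have hθ : 1 < ‖D.θ‖ := hD.2.1
  have h1 : (1 : F) ∈ U := hU.1
  refine ⟨P1 + (1 + 4 * n * ν * (1 + (c + 2) ^ 2) * D.q ^ (1 + e + (a + 1))), ?_⟩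
  intro P P0 PM Th ι _ _ v L j G α0 hP2 hP0 hn hPM hv hsep hj hjv hNP hG hG0 hTh h
  have hθ0 : 0 < ‖D.θ‖ := by linarith
  have hv1 : ∀ l, ‖v l‖ ≤ 1 := fun l => by
    have h2 := (hv l).2.2.1
    have h3 : ‖D.θ‖ ≤ ‖D.θ‖ ^ L l := le_self_pow₀ hθ.le (by have := (hv l).1; omega)
    have h4 := mul_le_mul_of_nonneg_left h3 (norm_nonneg (v l))
    nlinarith
  have hn' : Fintype.card (ι × Fin 2) ≤ n := by
    rw [Fintype.card_prod, Fintype.card_fin]; omega
  refine mult_aux D.θ hθ D.q ν c (c + 3) (c * PM + 1) P PM (Fintype.card (ι × Fin 2)) hq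
    (by omega) (CC (D.q ^ a) U) (Submodule.subset_span (Set.mem_insert _ _))
    (fun p : ι × Fin 2 => D.ph (v p.1) 0 (e + a + p.2) 0)
    (fun p => (hap k F D (v p.1) (e + a + p.2) a 0 hD (hv1 p.1) (by omega)).1) (fun p => L p.1)
    (fun p => (hv p.1).1) (fun p p' => hsep p.1 p'.1)
    le_rfl ?_ ?_ (Fintype.card (ι × Fin 2)) (ι × Fin 2) id P Th G α0 le_rfl le_rfl
    Function.injective_id le_rfl
    ((Nat.mul_le_mul_left _ (Nat.pow_le_pow_right (by omega) hn')).trans hPM) hG hTh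
    (fun p => (hv p.1).2.2.2) hG0 h
  · intro ι' _ _ f L0 P' G' α hf hne hL hP' hPM' hG' hα hmax
    obtain ⟨l0⟩ := hne
    have hqq : D.q ^ P0 ≤ D.q ^ P' := Nat.pow_le_pow_right (by omega) (hP0.trans hP')
    obtain ⟨G2, α2, g1, g2, g3, g4⟩ := Mult.pad (κ := {l // L l = L0} × Fin 2) D.θ _
      (fun l => (⟨(f l).1, hL l⟩, (f l).2))
      (fun l l' hl => hf (Prod.ext (congrArg (fun p => p.1.1) hl) (congrArg (fun p => p.2) hl)))
      ⟨0, (α l0).pos⟩ rfl G' α hG' hmax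
    have := hml P' (by omega) {l // L l = L0} (fun l => v l) L0 {l | l.1 ∈ Set.range j} G2 α2
      ((Nat.mul_le_mul_left 2 (Fintype.card_subtype_le _)).trans hn) (hL l0 ▸ (hv _).1)
      (fun l => ⟨?_, ?_⟩) ?_ ?_ g2 (g1 ▸ hα) g3
    · rw [g4, g1] at this
      exact this.le
    · obtain ⟨d1, d2, d3⟩ := (hv l).2.1
      exact ⟨mult_mono h1 hqq d1, mult_mono h1 hqq d2,
        fun b => mult_mono h1 (Nat.mul_le_mul_left _ hqq) (d3 b)⟩
    · have := (hv l).2.2.1
      rwa [l.2] at this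
    · by_cases h0 : L0 = 1
      · refine Or.inr ⟨fun i => ⟨j i, (hjv i).2.trans h0.symm⟩,
          fun i i' hi => hj (congrArg Subtype.val hi), Set.ext fun l => ⟨?_, ?_⟩,
          fun i => (hjv i).1⟩
        · rintro ⟨i, rfl⟩
          exact ⟨i, rfl⟩
        · rintro ⟨i, hi⟩
          exact ⟨i, Subtype.ext hi⟩
      · refine Or.inl (Set.eq_empty_of_forall_notMem ?_)
        rintro l ⟨i, hi⟩
        exact h0 (l.2.symm.trans (hi ▸ (hjv i).2))
    · intro β hβ l hl hβl lam hlam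
      have hs : Function.Injective (Subtype.val : {l // L l = L0} → ι) := Subtype.val_injective
      have h5 := hNP (Function.extend Subtype.val β 0) (fun i => ?_) l.1 hl
        (by rwa [hs.extend_apply]) lam hlam
      · have h6 : ∑ i, Function.extend Subtype.val β 0 i * v i = ∑ i, β i * v i := by
          refine (Fintype.sum_of_injective _ hs _ _ (fun i hi => ?_) fun i => ?_).symm
          · rw [Function.extend_apply' _ _ _ hi]; simp
          · rw [hs.extend_apply]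
        rw [h6] at h5
        refine h5.trans_le (mul_le_mul_of_nonneg_left (pow_le_pow_right₀ hθ.le ?_) (norm_nonneg _))
        show L l * D.q ^ P0 ≤ L0 * D.q ^ P'
        rw [l.2]
        exact Nat.mul_le_mul_left _ hqq
      · by_cases hi : ∃ j : {l // L l = L0}, j.1 = i
        · obtain ⟨j, rfl⟩ := hi
          rw [hs.extend_apply]
          exact ⟨(hβ j).1, (hβ j).2.trans
            (pow_le_pow_right₀ hθ.le (Nat.mul_le_mul_left _ hPM'))⟩
        · rw [Function.extend_apply' _ _ _ hi]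
          exact ⟨Mult.end_zero D (by omega), by simp⟩
  · intro P' hP' _
    obtain ⟨d, d1, d2, d3⟩ := haph k F D U e a (c * P' + 1) (D.q ^ P0) hD ha hU
    refine ⟨d, _, fun p => C d * D.pK (D.q ^ a) (v p.1) (e + a + p.2) (c * P' + 1), d1, d2,
      Mult.num _ n _ ν c e a P0 P' hq hn' (hP0.trans hP') (by omega),
      fun p => ⟨d3 (v p.1) p.2 (hv p.1).2.1.1, ?_⟩⟩
    rw [eval_mul, eval_C, ← mul_sub, norm_mul, mul_assoc, norm_sub_rev]
    refine mul_le_of_le_one_right (norm_nonneg _) ?_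
    have h7 := (hap k F D (v p.1) (e + a + p.2) a (c * P' + 1) hD (hv1 p.1) (by omega)).2.1
    have h8 : ‖v p.1‖ / ‖D.θ‖ * ‖D.θ‖ ^ L p.1 ≤ 1 := by
      rw [div_mul_eq_mul_div, div_le_one hθ0]; exact (hv p.1).2.2.1
    have h9 : 2 * L p.1 * D.q ^ (c * P') ≤ L p.1 * D.q ^ (c * P' + 1 + (e + a + p.2)) := by
      calc _ = L p.1 * (2 * D.q ^ (c * P')) := by ring
        _ ≤ L p.1 * (D.q * D.q ^ (c * P')) := by gcongr
        _ = L p.1 * D.q ^ (c * P' + 1) := by ring
        _ ≤ _ := Nat.mul_le_mul_left _ (Nat.pow_le_pow_right (by omega) (by omega))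
    calc _ ≤ (‖v p.1‖ / ‖D.θ‖) ^ D.q ^ (c * P' + 1 + (e + a + p.2)) *
          ‖D.θ‖ ^ (L p.1 * D.q ^ (c * P' + 1 + (e + a + p.2))) :=
          mul_le_mul h7 (pow_le_pow_right₀ hθ.le h9) (by positivity) (by positivity)
      _ = (‖v p.1‖ / ‖D.θ‖ * ‖D.θ‖ ^ L p.1) ^ D.q ^ (c * P' + 1 + (e + a + p.2)) := by
          rw [mul_pow, ← pow_mul]
      _ ≤ 1 := pow_le_one₀ (by positivity) h8

end Pool.Agent.CSU.SA.DS
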