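import Pool.Agent.Lib.MP_0c15f2_nt.DS.E8e
import Pool.Agent.Lib.MP_0c15f2_nt.DS.St

/-! A linear solution at a close point gives a combination close to a period (helper36). -/

namespace Pool.Agent.CSU.SA.DS

open Polynomial

namespace Nr

variable {F ι : Type} [Field F] [Fintype ι]

/-- An affine polynomial. -/
noncomputable def af (a b : ι → F[X]) (h : F[X]) : PP (ι × Fin 2) F :=
  ∑ l, (MvPolynomial.C (a l) * MvPolynomial.X (l, 0) + MvPolynomial.C (b l) * MvPolynomial.X (l, 1))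
    + MvPolynomial.C h

lemma af_add (a b a' b' : ι → F[X]) (h h' : F[X]) :
    af a b h + af a' b' h' = af (a + a') (b + b') (h + h') := by
  simp only [af, Pi.add_apply, map_add, add_mul, Finset.sum_add_distrib]; ring

lemma C_mul_af (u : F[X]) (a b : ι → F[X]) (h : F[X]) :
    MvPolynomial.C u * af a b h = af (fun l => u * a l) (fun l => u * b l) (u * h) := by
  simp only [af, map_mul, mul_add, Finset.mul_sum, mul_assoc]

lemma coeff_af (a b : ι → F[X]) (h : F[X]) (l : ι) :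
    (af a b h).coeff (Finsupp.single (l, 0) 1) = a l ∧
    (af a b h).coeff (Finsupp.single (l, 1) 1) = b l ∧ (af a b h).coeff 0 = h := by
  classical
  have h0 : ∀ p : ι × Fin 2, (0 : ι × Fin 2 →₀ ℕ) ≠ Finsupp.single p 1 := fun p h =>
    one_ne_zero (Finsupp.single_eq_zero.1 h.symm)
  simp [af, MvPolynomial.coeff_sum, MvPolynomial.coeff_C_mul, MvPolynomial.coeff_X,
    MvPolynomial.coeff_C, Finsupp.single_left_inj, h0]

lemma exists_af {f : PP (ι × Fin 2) F} (hf : f.totalDegree ≤ 1) : ∃ a b h, f = af a b h := by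
  classical
  rw [f.as_sum]
  refine Finset.sum_induction _ (fun f => ∃ a b h, f = af a b h) ?_ ⟨0, 0, 0, by simp [af]⟩ ?_
  · rintro _ _ ⟨a, b, h, rfl⟩ ⟨a', b', h', rfl⟩
    exact ⟨_, _, _, af_add ..⟩
  · intro α hα
    have hd : α.degree ≤ 1 := (MvPolynomial.le_totalDegree hα).trans hf
    rcases Nat.le_one_iff_eq_zero_or_eq_one.1 hd with h | h
    · rw [(Finsupp.degree_eq_zero_iff α).1 h]
      exact ⟨0, 0, f.coeff 0, by simp [af]⟩
    · have : α ∈ Set.range fun p : ι × Fin 2 => Finsupp.single p 1 := by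
        rw [Finsupp.range_single_one]; exact h
      obtain ⟨⟨l, j⟩, rfl⟩ := this
      rw [← MvPolynomial.C_mul_X_eq_monomial]
      fin_cases j
      · exact ⟨Pi.single l _, 0, 0, by
          simp [af, Pi.single_apply, apply_ite MvPolynomial.C, ite_mul]; rfl⟩
      · exact ⟨0, Pi.single l _, 0, by
          simp [af, Pi.single_apply, apply_ite MvPolynomial.C, ite_mul]; rfl⟩

lemma SD_af (σ : F →+* F) (A G c : F) (ξ : ι → F) (a b : ι → F[X]) (h : F[X]) :
    SD σ A G c ξ (af a b h) = af (fun l => C A * (X - C c) * (b l).map σ)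
      (fun l => (a l).map σ + C G * (b l).map σ) (h.map σ + ∑ l, (b l).map σ * C (ξ l)) := by
  simp only [af, map_add, map_sum, map_mul (SD σ A G c ξ), SD_C', SD_X', LL]
  rw [add_comm (MvPolynomial.C (h.map σ)), ← add_assoc, ← Finset.sum_add_distrib]
  congr 1
  refine Finset.sum_congr rfl fun l _ => ?_
  simp only [map_mul]
  simp
  ring

lemma col (σ : F →+* F) (A G c : F) (ξ : ι → F) (a b : ι → F[X]) (h : F[X])
    (H : Eq2 σ A G c ξ (af a b h)) (l : ι) : Eq2 σ A G c 0 (lin (a l) (b l)) := by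
  rw [Eq2, SD_af, SD_af, C_mul_af, C_mul_af, af_add] at H
  have h1 := congrArg (MvPolynomial.coeff (Finsupp.single (l, 0) 1)) H
  have h2 := congrArg (MvPolynomial.coeff (Finsupp.single (l, 1) 1)) H
  rw [(coeff_af _ _ _ l).1, (coeff_af _ _ _ l).1] at h1
  rw [(coeff_af _ _ _ l).2.1, (coeff_af _ _ _ l).2.1] at h2
  rw [Eq2, SD_lin, SD_lin, h1, h2]
  simp only [lin, Pi.add_apply, map_add, map_mul]
  ring

omit [Fintype ι] in
lemma tw_SD (σ τ : F →+* F) (hc : ∀ x, τ (σ x) = σ (τ x)) (A G c : F) (ξ : ι → F)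
    (f : PP (ι × Fin 2) F) :
    tw τ (SD σ A G c ξ f) = SD σ (τ A) (τ G) (τ c) (fun l => τ (ξ l)) (tw τ f) := by
  induction f using MvPolynomial.induction_on with
  | C a =>
    simp only [SD_C', tw, MvPolynomial.map_C, coe_mapRingHom, Polynomial.map_map]
    rw [show τ.comp σ = σ.comp τ from RingHom.ext hc]
  | add f g hf hg => simp only [map_add, hf, hg]
  | mul_X f p hf =>
    rw [map_mul, map_mul, map_mul, map_mul, hf, SD_X']
    congr 1
    rw [tw, MvPolynomial.map_X, SD_X', LL, LL]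
    split_ifs <;> simp

omit [Fintype ι] in
lemma tw_Eq2 (σ τ : F →+* F) (hc : ∀ x, τ (σ x) = σ (τ x)) {A G c : F} {ξ : ι → F}
    {f : PP (ι × Fin 2) F} (H : Eq2 σ A G c ξ f) :
    Eq2 σ (τ A) (τ G) (τ c) (fun l => τ (ξ l)) (tw τ f) := by
  have := congrArg (tw τ) H
  rw [tw_SD σ τ hc, tw_SD σ τ hc, map_add, map_mul (tw τ), map_mul (tw τ), tw_SD σ τ hc] at this
  rw [Eq2, this]
  simp [tw]

/-- A tower of division points kills the additive map of an affine solution. -/
lemma tower (σ : F →+* F) {q : ℕ} (hσ : ∀ y, σ y = y ^ q) (θ g : F) {Δ : F} (hΔ : Δ ≠ 0)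
    (x : ι → F) (z : ι → ℕ → F) (hz0 : ∀ l, rh q θ g Δ (z l 0) = x l)
    (hz : ∀ l n, rh q θ g Δ (z l (n + 1)) = z l n) (a b : ι → F[X]) (h : F[X]) (N : ℕ)
    (ha : ∀ l, (a l).degree < N) (hb : ∀ l, (b l).degree < N) (hh : h.degree < N)
    (H : Eq2 σ Δ⁻¹ (-(g * Δ⁻¹)) θ (fun l => Δ⁻¹ * x l) (af a b h)) :
    (rh q θ g Δ)^[N + 1] (∑ l, Psi q θ g Δ (a l) (b l) (z l N)) = 0 := by
  have hrh : ∀ y, rh q θ g Δ y = θ * y + g * σ y + Δ * σ (σ y) := fun y => by
    rw [rh, hσ, hσ, ← pow_mul, sq]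
  let y : ι → PowerSeries F := fun l => PowerSeries.mk (z l)
  let S : PowerSeries F →+* PowerSeries F := PowerSeries.map σ
  let Φ : PP (ι × Fin 2) F →+* PowerSeries F :=
    MvPolynomial.eval₂Hom coeToPowerSeries.ringHom fun p => if p.2 = 0 then y p.1 else S (y p.1)
  have hΦC : ∀ u : F[X], Φ (MvPolynomial.C u) = (u : PowerSeries F) := fun u => by simp [Φ]
  have hΦ0 : ∀ l, Φ (MvPolynomial.X (l, 0)) = y l := fun l => by simp [Φ]
  have hΦ1 : ∀ l, Φ (MvPolynomial.X (l, 1)) = S (y l) := fun l => by simp [Φ]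
  have hco : ∀ (w : PowerSeries F) n, PowerSeries.coeff n
      (((C Δ⁻¹ * (X - C θ) : F[X]) : PowerSeries F) * w
        + ((C (-(g * Δ⁻¹)) : F[X]) : PowerSeries F) * S w)
      = Δ⁻¹ * (PowerSeries.coeff n (PowerSeries.X * w) - θ * PowerSeries.coeff n w
        - g * σ (PowerSeries.coeff n w)) := by
    intro w n
    simp only [coe_mul, coe_sub, coe_C, coe_X, map_add, mul_assoc, sub_mul, map_sub,
      PowerSeries.coeff_C_mul, S, PowerSeries.coeff_map]
    ring
  have hy : ∀ l, S (S (y l)) = ((C Δ⁻¹ * (X - C θ) : F[X]) : PowerSeries F) * y l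
      + ((C (-(g * Δ⁻¹)) : F[X]) : PowerSeries F) * S (y l)
      + ((C (Δ⁻¹ * x l) : F[X]) : PowerSeries F) := by
    intro l
    ext n
    rw [map_add, hco, coe_C, PowerSeries.coeff_C]
    rcases n with _ | n
    · simp only [S, y, PowerSeries.coeff_map, PowerSeries.coeff_mk, PowerSeries.coeff_zero_X_mul,
        if_true, ← hz0 l, hrh]
      field_simp; ring
    · simp only [S, y, PowerSeries.coeff_map, PowerSeries.coeff_mk, PowerSeries.coeff_succ_X_mul,
        Nat.succ_ne_zero, if_false, ← hz l n, hrh]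
      field_simp; ring
  have hΦS : ∀ f, Φ (SD σ Δ⁻¹ (-(g * Δ⁻¹)) θ (fun l => Δ⁻¹ * x l) f) = S (Φ f) := by
    intro f
    induction f using MvPolynomial.induction_on with
    | C u => rw [SD_C', hΦC, hΦC]; ext n; simp [S]
    | add f g hf hg => simp only [map_add, hf, hg]
    | mul_X f p hf =>
      obtain ⟨l, j⟩ := p
      rw [map_mul, map_mul, map_mul, map_mul, hf, SD_X', LL]
      congr 1
      fin_cases j
      · simp only [Fin.zero_eta, if_true, hΦ0, hΦ1]
      · simp only [Fin.mk_one, one_ne_zero, if_false, map_add Φ, map_mul Φ, hΦC, hΦ0, hΦ1, hy]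
  set w := Φ (af a b h) with hw
  have hE : S (S w) = ((C Δ⁻¹ * (X - C θ) : F[X]) : PowerSeries F) * w
      + ((C (-(g * Δ⁻¹)) : F[X]) : PowerSeries F) * S w := by
    have := congrArg Φ H
    rwa [hΦS, hΦS, map_add, map_mul Φ, map_mul Φ, hΦC, hΦC, hΦS] at this
  have hstep : ∀ n, rh q θ g Δ (PowerSeries.coeff n w) = PowerSeries.coeff n (PowerSeries.X * w) := by
    intro n
    have := congrArg (PowerSeries.coeff n) hE
    rw [hco] at this
    simp only [S, PowerSeries.coeff_map] at this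
    rw [hrh, this]; field_simp; ring
  have hkill : ∀ n, (rh q θ g Δ)^[n + 1] (PowerSeries.coeff n w) = 0 := by
    intro n
    induction n with
    | zero => rw [zero_add, Function.iterate_one, hstep, PowerSeries.coeff_zero_X_mul]
    | succ n ih => rw [Function.iterate_succ_apply, hstep, PowerSeries.coeff_succ_X_mul, ih]
  have hit : ∀ l i n, (rh q θ g Δ)^[i] (z l (n + i)) = z l n := by
    intro l i n
    induction i with
    | zero => rfl
    | succ i ih => rw [Function.iterate_succ_apply, ← add_assoc, hz, ih]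
  have hcoef : ∀ (u : F[X]) (s : PowerSeries F) (r : ℕ → F), u.degree < N →
      (∀ i j, i + j = N → PowerSeries.coeff j s = r i) →
      PowerSeries.coeff N ((u : PowerSeries F) * s) = u.sum fun i c => c * r i := by
    intro u s r hu hr
    rw [PowerSeries.coeff_mul, Finset.Nat.sum_antidiagonal_eq_sum_range_succ
      (fun i j => PowerSeries.coeff i (u : PowerSeries F) * PowerSeries.coeff j s),
      Polynomial.sum_over_range' u (by simp) (N + 1) (by
        rcases eq_or_ne u 0 with rfl | h0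
        · simp
        · have := (natDegree_lt_iff_degree_lt h0).2 hu; omega)]
    refine Finset.sum_congr rfl fun i hi => ?_
    rw [Finset.mem_range] at hi
    rw [coeff_coe, hr i (N - i) (by omega)]
  have hN : PowerSeries.coeff N w = ∑ l, Psi q θ g Δ (a l) (b l) (z l N) := by
    rw [hw, af, map_add, map_sum, map_add, map_sum, hΦC, coeff_coe, coeff_eq_zero_of_degree_lt hh,
      add_zero]
    refine Finset.sum_congr rfl fun l _ => ?_
    rw [map_add, map_mul, map_mul, hΦC, hΦC, hΦ0, hΦ1, map_add, Psi,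
      hcoef _ _ (fun i => (rh q θ g Δ)^[i] (z l N)) (ha l) (fun i j hij => by
        rw [PowerSeries.coeff_mk, ← hij, add_comm, hit]),
      hcoef _ _ (fun i => (rh q θ g Δ)^[i] (z l N) ^ q) (hb l) (fun i j hij => by
        simp only [S, y, PowerSeries.coeff_map]
        rw [PowerSeries.coeff_mk, ← hij, add_comm, hit, hσ])]
  rw [← hN, hkill]

end Nr

theorem near (h1 : An1S) (h2 : LatS) (h3 : PsiS) (h4 : EndS) : NearS := by
  intro k F ι _ _ _ _ _ _ _ _ D σ v x m N f ε hD hσ hε0 hε1 hx hf hE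
  obtain ⟨-, -, -, hadd, -, hth, -, -, honto⟩ := h1 k F D hD
  obtain ⟨hsurj, -, -⟩ := h2 k F D hD
  obtain ⟨hψ, -, hab⟩ := h3 k F D σ hD hσ
  have hq : 0 < D.q := by rw [hD.1]; exact Fintype.card_pos
  have hθ : 1 < ‖D.θ‖ := hD.2.1
  have hθ0 : D.θ ≠ 0 := norm_pos_iff.1 (one_pos.trans hθ)
  have hΔ : D.Δ ≠ 0 := hD.2.2.2.2
  have hpow : ∀ y, (σ ^ m) y = y ^ D.q ^ m := by
    intro y
    have : ∀ n : ℕ, (σ ^ n) y = y ^ D.q ^ n := fun n => by
      induction n with
      | zero => simp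
      | succ n ih => rw [pow_succ', RingHom.mul_def, RingHom.comp_apply, ih, hσ, ← pow_mul, pow_succ]
    exact this m
  have hsj : Function.Surjective (σ ^ m) := fun y => by
    obtain ⟨z, hz⟩ := IsAlgClosed.exists_pow_nat_eq y (pow_pos hq m)
    exact ⟨z, by rw [hpow, hz]⟩
  let e := RingEquiv.ofBijective (σ ^ m) ⟨(σ ^ m).injective, hsj⟩
  let τ : F →+* F := e.symm
  have hτ : ∀ y, τ (y ^ D.q ^ m) = y := fun y => by rw [← hpow]; exact e.symm_apply_apply y
  have hτ' : ∀ y, τ y ^ D.q ^ m = y := fun y => by rw [← hpow]; exact e.apply_symm_apply y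
  have hE0 := Nr.tw_Eq2 σ τ (fun y => by rw [hσ, hσ, map_pow]) hE
  have hA0 : D.A 0 = D.Δ⁻¹ := by simp [DM.A]
  have hG0 : D.G 0 = -(D.g * D.Δ⁻¹) := by simp [DM.G]
  simp only [DM.A, DM.G, map_mul, map_neg, map_inv₀, hτ] at hE0
  obtain ⟨a, b, h, hf0⟩ := Nr.exists_af (f := tw τ f)
    ((Finset.sup_mono (MvPolynomial.support_map_subset _ _)).trans hf.1)
  have hdeg : ∀ α, ((tw τ f).coeff α).degree < N := fun α => by
    rw [tw, MvPolynomial.coeff_map]
    exact (degree_map_le (f := τ)).trans_lt (hf.2 α)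
  rw [hf0] at hE0 hdeg
  have ha : ∀ l, (a l).degree < N := fun l => (Nr.coeff_af a b h l).1 ▸ hdeg _
  have hb : ∀ l, (b l).degree < N := fun l => (Nr.coeff_af a b h l).2.1 ▸ hdeg _
  have hh : h.degree < N := by
    have := hdeg 0
    simpa [Nr.af, MvPolynomial.coeff_sum] using this
  choose ψ hψ1 hψ2 using fun l => hψ (a l) (b l) N (ha l) (hb l)
  have hcom : ∀ l, D.Com (ψ l) := fun l y => by
    rw [hψ2, hψ2]
    refine (hab (a l) (b l)).2.1.1 ?_ y
    rw [hA0, hG0]
    exact Nr.col σ _ _ _ _ a b h hE0 l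
  have hclose : ∀ l, ‖D.ex (v l) - τ (x l)‖ ≤ ε := fun l => by
    refine (pow_le_pow_iff_left₀ (norm_nonneg _) hε0 (pow_pos hq m).ne').1 ?_
    rw [← norm_pow, ← hpow, map_sub, hpow, hpow, hτ']
    exact hx l
  choose s _hs hs1 hs2 using fun l => honto ⊤ (by simp) trivial trivial trivial
    (D.ex (v l) - τ (x l)) trivial ((hclose l).trans (hε1.trans hθ.le))
  have hex0 : D.ex 0 = 0 := by simpa using hadd 0 0
  have hv' : ∀ l, D.ex (v l - s l) = τ (x l) := fun l => by
    have := hadd (v l - s l) (s l)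
    rw [sub_add_cancel, hs2] at this
    linear_combination -this
  have hsum : ∀ (t : Finset ι) (w : ι → F), D.ex (∑ l ∈ t, w l) = ∑ l ∈ t, D.ex (w l) := by
    intro t w
    exact map_sum (AddMonoidHom.mk' D.ex hadd) w t
  have hit : ∀ n z, (rh D.q D.θ D.g D.Δ)^[n] (D.ex z) = D.ex (D.θ ^ n * z) := by
    intro n z
    induction n with
    | zero => simp
    | succ n ih => rw [Function.iterate_succ_apply', ih, ← hth, pow_succ', mul_assoc]
  have hbn : ∀ l, ‖(ψ l).coeff 0‖ ≤ ‖D.θ‖ ^ (2 * N) := fun l =>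
    (h4 k F D (ψ l) hD (hcom l)).2.1.trans (pow_le_pow_right₀ hθ.le (hψ1 l))
  refine ⟨fun l => (ψ l).coeff 0, ∑ l, (ψ l).coeff 0 * (v l - s l),
    fun l => ⟨⟨ψ l, rfl, hcom l⟩, hbn l, fun j hj h0 => hj ?_⟩, ?_, ?_⟩
  · obtain ⟨ha0, hb0⟩ := (hab (a l) (b l)).1 fun y => by
      obtain ⟨z, rfl⟩ := hsurj y
      rw [← hψ2, ← (h4 k F D (ψ l) hD (hcom l)).1, show (ψ l).coeff 0 = 0 from h0, zero_mul, hex0]
    have : (tw τ f).coeff (Finsupp.single (l, j) 1) = 0 := by
      rw [hf0]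
      fin_cases j
      · exact (Nr.coeff_af a b h l).1.trans ha0
      · exact (Nr.coeff_af a b h l).2.1.trans hb0
    rw [tw, MvPolynomial.coeff_map] at this
    exact (Polynomial.map_eq_zero_iff τ.injective).1 this
  · have := Nr.tower σ hσ D.θ D.g hΔ (fun l => τ (x l))
      (fun l n => D.ex ((v l - s l) / D.θ ^ (n + 1)))
      (fun l => by rw [← hth, ← hv']; congr 1; field_simp; ring)
      (fun l n => by rw [← hth]; congr 1; field_simp; ring) a b h N ha hb hh hE0
    simp only [← hψ2, ← (h4 k F D (ψ _) hD (hcom _)).1] at this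
    rw [← hsum, hit, Finset.mul_sum] at this
    rw [← this]
    congr 1
    refine Finset.sum_congr rfl fun l _ => ?_
    field_simp
  · rw [← Finset.sum_sub_distrib]
    refine IsUltrametricDist.norm_sum_le_of_forall_le_of_nonneg (by positivity) fun l _ => ?_
    rw [← mul_sub, sub_sub_cancel, norm_mul, hs1]
    exact mul_le_mul (hbn l) (hclose l) (norm_nonneg _) (by positivity)

end Pool.Agent.CSU.SA.DS
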