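import Pool.Agent.Lib.MP_0c15f2_nt.DS.WN
import Pool.Agent.Lib.MP_0c15f2_nt.DS.St

/-! Convergence, functional equations and normalisation for Drinfeld modules of rank two. -/

namespace Pool.Agent.CSU.SA.DS

open Polynomial Finset Filter

variable {F : Type} [NormedField F]

/-- The module conjugated by the scalar `c`. -/
noncomputable def DM.sc (D : DM F) (c : F) : DM F :=
  ⟨D.q, D.θ, c⁻¹ * D.g * c ^ D.q, c⁻¹ * D.Δ * c ^ D.q ^ 2⟩

namespace NrmL

theorem ql_sc (q : ℕ) (a b : F) (ψ : F[X]) : ∃ φ : F[X], φ.coeff 0 = a * ψ.coeff 0 * b ∧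
    ∀ x, ql q φ x = a * ql q ψ (b * x) := by
  have h : ∀ j, (ψ.sum fun j u => monomial j (a * u * b ^ q ^ j)).coeff j =
      a * ψ.coeff j * b ^ q ^ j := fun j => by
    simp only [Polynomial.sum_def, finsetSum_coeff, coeff_monomial, sum_ite_eq']
    split_ifs with h
    · rfl
    · rw [notMem_support_iff.1 h, mul_zero, zero_mul]
  refine ⟨_, by rw [h, pow_zero, pow_one], fun x => ?_⟩
  rw [ql, ql, sum_eq_of_subset _ (fun _ => zero_mul _) (s := ψ.support) fun j hj => by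
    rw [mem_support_iff] at hj ⊢
    exact fun e => hj (by rw [h, e, mul_zero, zero_mul]), Polynomial.sum_def (p := ψ)
      (f := fun i a => a * (b * x) ^ q ^ i), mul_sum]
  exact sum_congr rfl fun j _ => by rw [h, mul_pow]; ring

variable (D : DM F) {c : F} (hc : c ≠ 0)
include hc

theorem al_sc (i : ℕ) : (D.sc c).al i = c⁻¹ * D.al i * c ^ D.q ^ i := by
  induction i using Nat.twoStepInduction with
  | zero => simp [DM.al, hc]
  | one => simp only [DM.al, DM.sc, pow_one]; ring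
  | more i h0 h1 =>
    rw [DM.al, DM.al, h0, h1]
    simp only [DM.sc, mul_pow, inv_pow, ← pow_mul, ← pow_succ, ← pow_add]
    field_simp

theorem t_ex (x : F) (i : ℕ) :
    (D.sc c).al i * x ^ (D.sc c).q ^ i = c⁻¹ * (D.al i * (c * x) ^ D.q ^ i) := by
  rw [al_sc D hc, mul_pow]
  simp only [DM.sc]
  ring

theorem t_qs (x : F) (i : ℕ) : (D.sc c).al i ^ (D.sc c).q * x ^ (D.sc c).q ^ (i + 1) /
      ((D.sc c).θ ^ (D.sc c).q ^ (i + 1) - (D.sc c).θ) = c⁻¹ ^ D.q *
    (D.al i ^ D.q * (c * x) ^ D.q ^ (i + 1) / (D.θ ^ D.q ^ (i + 1) - D.θ)) := by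
  rw [al_sc D hc]
  simp only [DM.sc, mul_pow, ← pow_mul, ← pow_succ]
  ring

theorem ex_sc (x : F) : (D.sc c).ex x = c⁻¹ * D.ex (c * x) := by
  simp only [DM.ex, t_ex D hc, tsum_mul_left]

theorem qs_sc (x : F) : (D.sc c).qs x = c⁻¹ ^ D.q * D.qs (c * x) := by
  simp only [DM.qs, t_qs D hc, tsum_mul_left]

theorem rh_sc (x : F) : rh D.q D.θ (D.sc c).g (D.sc c).Δ x = c⁻¹ * rh D.q D.θ D.g D.Δ (c * x) := by
  simp only [rh, DM.sc, mul_pow]
  field_simp

theorem end_sc {β : F} (h : (D.sc c).End β) : D.End β := by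
  obtain ⟨ψ, h0, h1⟩ := h
  obtain ⟨φ, e0, e1⟩ := ql_sc D.q c c⁻¹ ψ
  refine ⟨φ, by rw [e0, h0]; field_simp, fun x => ?_⟩
  have := h1 (c⁻¹ * x)
  change ql D.q ψ (rh D.q D.θ _ _ _) = rh D.q D.θ _ _ (ql D.q ψ _) at this
  rw [rh_sc D hc, rh_sc D hc, mul_inv_cancel_left₀ hc] at this
  rw [e1, e1, this, mul_inv_cancel_left₀ hc]

theorem fe_sc (h : (D.sc c).Fe) : D.Fe := by
  obtain ⟨h1, h2, h3, h4⟩ := h
  have c1 := inv_ne_zero hc
  have c2 := pow_ne_zero D.q c1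
  refine ⟨fun x => ?_, fun x => ?_, fun x => ?_, fun x => ?_⟩
  · have := h1 (c⁻¹ * x)
    simp only [t_ex D hc, ex_sc D hc, mul_inv_cancel_left₀ hc] at this
    exact (hasSum_mul_left_iff c1).1 this
  · have := h2 (c⁻¹ * x)
    simp only [t_qs D hc, qs_sc D hc, mul_inv_cancel_left₀ hc] at this
    exact (hasSum_mul_left_iff c2).1 this
  · have := h3 (c⁻¹ * x)
    change (D.sc c).ex (D.θ * _) = rh D.q D.θ _ _ _ at this
    rw [rh_sc D hc, ex_sc D hc, ex_sc D hc, mul_left_comm c, mul_inv_cancel_left₀ hc,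
      mul_inv_cancel_left₀ hc] at this
    exact mul_left_cancel₀ c1 this
  · have := h4 (c⁻¹ * x)
    change (D.sc c).qs (D.θ * _) = D.θ * _ + _ ^ D.q at this
    rw [qs_sc D hc, qs_sc D hc, ex_sc D hc, mul_left_comm c, mul_inv_cancel_left₀ hc,
      mul_pow, mul_left_comm D.θ, ← mul_add] at this
    exact mul_left_cancel₀ c2 this

omit hc

theorem small (hq : 1 < D.q) (hθ : 1 < ‖D.θ‖) : ∃ s : ℕ, ‖(D.sc (D.θ ^ s)⁻¹).g‖ ≤ 1 ∧
    ‖(D.sc (D.θ ^ s)⁻¹).Δ‖ ≤ 1 := by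
  obtain ⟨s, hs⟩ := pow_unbounded_of_one_lt (‖D.g‖ + ‖D.Δ‖) hθ
  have h1 : 1 ≤ ‖D.θ‖ ^ s := one_le_pow₀ hθ.le
  have key : ∀ (a : F) (n : ℕ), ‖a‖ ≤ ‖D.θ‖ ^ s → 2 ≤ n →
      ‖(D.θ ^ s)⁻¹⁻¹ * a * (D.θ ^ s)⁻¹ ^ n‖ ≤ 1 := fun a n ha hn => by
    rw [inv_inv, inv_pow, norm_mul, norm_mul, norm_inv, norm_pow (_ ^ s), norm_pow, ← div_eq_mul_inv,
      div_le_one (pow_pos (one_pos.trans_le h1) _)]
    exact (mul_le_mul_of_nonneg_left ha (by positivity)).trans
      ((sq _).ge.trans (pow_le_pow_right₀ h1 hn))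
  exact ⟨s, key _ _ (by linarith [norm_nonneg D.Δ]) hq,
    key _ _ (by linarith [norm_nonneg D.g]) (by nlinarith)⟩

variable [IsUltrametricDist F]

theorem norm_al (h : Fr D.q F) (hθ : 1 < ‖D.θ‖) (hg : ‖D.g‖ ≤ 1) (hΔ : ‖D.Δ‖ ≤ 1) (i : ℕ) :
    ‖D.al i‖ ≤ (‖D.θ‖⁻¹ ^ ((i + 1) / 2)) ^ D.q ^ i := by
  have hs : ∀ a, ‖D.θ ^ D.q ^ (a + 1) - D.θ‖ = ‖D.θ‖ ^ D.q ^ (a + 1) := fun a => by
    simpa using h.norm_sub hθ (Nat.succ_pos a)
  have r1 : ‖D.θ‖⁻¹ ≤ 1 := inv_le_one_of_one_le₀ hθ.le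
  induction i using Nat.twoStepInduction with
  | zero => simp [DM.al]
  | one =>
    have := hs 0
    rw [zero_add, pow_one] at this
    rw [DM.al, norm_div, this, div_eq_mul_inv]
    simpa using mul_le_of_le_one_left (by positivity) hg
  | more i h0 h1 =>
    rw [DM.al, norm_div, hs, show (i + 2 + 1) / 2 = (i + 1) / 2 + 1 by omega, pow_succ _ (_ / 2),
      mul_pow, div_eq_mul_inv, inv_pow ‖D.θ‖ (D.q ^ _)]
    refine mul_le_mul_of_nonneg_right ((IsUltrametricDist.norm_add_le_max _ _).trans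
      (max_le ?_ ?_)) (by positivity)
    · rw [norm_mul, norm_pow, pow_succ D.q (i + 1), pow_mul]
      refine (mul_le_of_le_one_left (by positivity) hg).trans (pow_le_pow_left₀ (norm_nonneg _)
        (h1.trans (pow_le_pow_left₀ (by positivity) ?_ _)) _)
      exact pow_le_pow_of_le_one (by positivity) r1 (by omega)
    · rw [norm_mul, norm_pow, pow_add D.q i, pow_mul]
      exact (mul_le_of_le_one_left (by positivity) hΔ).trans
        (pow_le_pow_left₀ (norm_nonneg _) h0 _)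

variable [CompleteSpace F]

theorem fe0 (h : Fr D.q F) (hθ : 1 < ‖D.θ‖) (hg : ‖D.g‖ ≤ 1) (hΔ : ‖D.Δ‖ ≤ 1) : D.Fe := by
  have hb : ∀ x : F, ∀ᶠ i in atTop, ‖D.al i * x ^ D.q ^ i‖ ≤ (1 / 2) ^ i := fun x => by
    obtain ⟨s, hs⟩ := pow_unbounded_of_one_lt (2 * ‖x‖) hθ
    filter_upwards [eventually_ge_atTop (2 * s)] with i hi
    rw [norm_mul, norm_pow]
    refine (mul_le_mul_of_nonneg_right (norm_al D h hθ hg hΔ i) (by positivity)).trans ?_
    rw [← mul_pow]
    refine (pow_le_pow_left₀ (by positivity) ?_ _).trans (pow_le_pow_of_le_one (by norm_num)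
      (by norm_num) (Nat.lt_pow_self h.lt).le)
    rw [inv_pow, inv_mul_le_iff₀ (by positivity)]
    linarith [pow_le_pow_right₀ hθ.le (show s ≤ (i + 1) / 2 by omega)]
  have h1 : ∀ x, HasSum (fun i => D.al i * x ^ D.q ^ i) (D.ex x) := fun x =>
    (Summable.of_norm_bounded_eventually_nat summable_geometric_two (hb x)).hasSum
  have ne : ∀ a, D.θ ^ D.q ^ (a + 1) - D.θ ≠ 0 := fun a => by
    simpa using h.sub_ne hθ (Nat.succ_pos a)
  have e : ∀ (x : F) i, D.al i ^ D.q * x ^ D.q ^ (i + 1) = (D.al i * x ^ D.q ^ i) ^ D.q :=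
    fun x i => by rw [mul_pow, ← pow_mul, ← pow_succ]
  have h2 : ∀ x, HasSum (fun i => D.al i ^ D.q * x ^ D.q ^ (i + 1) / (D.θ ^ D.q ^ (i + 1) - D.θ))
      (D.qs x) := fun x => by
    refine (Summable.of_norm_bounded_eventually_nat summable_geometric_two ?_).hasSum
    filter_upwards [hb x] with i hi
    rw [e, norm_div, norm_pow]
    refine (div_le_self (by positivity) (by simpa using h.one_le_sub hθ (Nat.succ_pos i))).trans
      ((pow_le_of_le_one (norm_nonneg _) (hi.trans (pow_le_one₀ (by norm_num) (by norm_num)))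
        (by linarith [h.lt])).trans hi)
  refine ⟨h1, h2, fun x => ?_, fun x => ?_⟩
  · have a1 := h.hasSum_pow 1 (h1 x)
    simp only [pow_one] at a1
    have a2 := (((hasSum_nat_add_iff' 1).2 a1).mul_left D.g).add
      ((h.hasSum_pow 2 (h1 x)).mul_left D.Δ)
    have a3 := (hasSum_nat_add_iff' 2).2 ((h1 (D.θ * x)).sub ((h1 x).mul_left D.θ))
    have a4 := a3.unique (a2.congr_fun fun i => ?_)
    · have := ne 0
      simp only [sum_range_succ, range_zero, sum_empty, DM.al, pow_zero, pow_one, mul_pow,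
        zero_add, one_mul, one_pow] at a4 this
      rw [rh]
      field_simp at a4
      linear_combination a4
    · have := ne (i + 1)
      simp only [DM.al, mul_pow, ← pow_mul, ← pow_succ, ← pow_add]
      field_simp
  · have a1 := h.hasSum_pow 1 (h1 x)
    simp only [pow_one] at a1
    have a2 := ((h2 (D.θ * x)).sub ((h2 x).mul_left D.θ)).unique (a1.congr_fun fun i => ?_)
    · linear_combination a2
    · have := ne i
      rw [← e, mul_pow]
      field_simp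

omit [IsUltrametricDist F] [CompleteSpace F] in
theorem con_sc {k κ ι : Type} [Field k] [Algebra k F] {c : F} (hc : c ≠ 0)
    (hK : c ∈ IntermediateField.adjoin k {D.θ}) {u : ι → F}
    (h : (D.sc c).Con k κ fun i => c⁻¹ * u i) : D.Con k κ u := by
  obtain ⟨s, hs, hi⟩ := h
  have : ∀ j, ∃ n : ℕ, c ^ n * s j ∈ Set.range u ∪ Set.range (fun i => D.ex (u i)) ∪
      Set.range fun i => D.qs (u i) := fun j => by
    rcases hs j with (⟨i, e⟩ | ⟨i, e⟩) | ⟨i, e⟩
    all_goals rw [← e]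
    · exact ⟨1, Or.inl (Or.inl ⟨i, by simp [hc]⟩)⟩
    · exact ⟨1, Or.inl (Or.inr ⟨i, by simp [hc, ex_sc D hc]⟩)⟩
    · exact ⟨D.q, Or.inr ⟨i, by simp [hc, qs_sc D hc]⟩⟩
  choose n hn using this
  refine ⟨_, hn, ?_⟩
  have h0 : ∀ j, (⟨c, hK⟩ : IntermediateField.adjoin k {D.θ}) ^ n j ≠ 0 := fun j =>
    pow_ne_zero _ fun e => hc (congrArg Subtype.val e)
  change AlgebraicIndependent (IntermediateField.adjoin k {D.θ}) s at hi
  have := hi.polynomial_aeval_of_transcendental (f := fun j => C (⟨c, hK⟩ ^ n j) * X) fun j =>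
    Polynomial.transcendental _ (by rw [natDegree_C_mul_X _ (h0 j)]; exact one_ne_zero)
      (by rw [leadingCoeff_C_mul_X]; exact mem_nonZeroDivisors_of_ne_zero (h0 j))
  simp only [map_mul, aeval_C, aeval_X, map_pow] at this
  exact this

end NrmL

open NrmL

variable [IsUltrametricDist F] [CompleteSpace F]

/-- The series converge and satisfy their functional equations, for all parameters. -/
theorem DM.fe (D : DM F) (h : Fr D.q F) (hθ : 1 < ‖D.θ‖) : D.Fe := by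
  obtain ⟨s, h1, h2⟩ := NrmL.small D h.lt hθ
  exact fe_sc D (inv_ne_zero (pow_ne_zero s (norm_pos_iff.1 (one_pos.trans hθ))))
    (fe0 (D.sc _) h hθ h1 h2)

/-- From normalised modules and points algebraic over the completion to the general case. -/
theorem wnN (k F ι κ : Type) [Field k] [Fintype k] [NormedField F] [IsUltrametricDist F]
    [CompleteSpace F] [IsAlgClosed F] [Algebra k F] [Fintype ι]
    (H : ∀ (D : DM F) (u : ι → F), D.Ok k → IsAlgebraic (IntermediateField.adjoin k {D.θ}) D.g →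
      IsAlgebraic (IntermediateField.adjoin k {D.θ}) D.Δ → (∀ i, IsAlgebraic (Kinf k D.θ) (u i)) →
      D.Ind u → D.Con k κ u)
    (D : DM F) (hq : D.q = Fintype.card k) (hθ : 1 < ‖D.θ‖) (h0 : D.Δ ≠ 0)
    (hg : IsAlgebraic (IntermediateField.adjoin k {D.θ}) D.g)
    (hΔ : IsAlgebraic (IntermediateField.adjoin k {D.θ}) D.Δ) (u : ι → F) (hu : D.Ind u) :
    D.Con k κ u := by
  have h : Fr D.q F := hq ▸ fr k F
  obtain ⟨s, h1, h2⟩ := NrmL.small D h.lt hθ
  have hc := inv_ne_zero (pow_ne_zero s (norm_pos_iff.1 (one_pos.trans hθ)))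
  have hK := inv_mem (pow_mem (IntermediateField.mem_adjoin_simple_self k D.θ) s)
  generalize (D.θ ^ s)⁻¹ = c at h1 h2 hc hK
  have ca : IsAlgebraic (IntermediateField.adjoin k {D.θ}) c :=
    isAlgebraic_algebraMap (⟨c, hK⟩ : IntermediateField.adjoin k {D.θ})
  refine con_sc D hc hK (wn k F ι κ (D.sc c)
    ⟨hq, hθ, h1, h2, mul_ne_zero (mul_ne_zero (inv_ne_zero hc) h0) (pow_ne_zero _ hc)⟩
    (fun g Δ _ _ => DM.fe _ h hθ) (fun g Δ u => H _ u) ((ca.inv.mul hg).mul (ca.pow _))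
    ((ca.inv.mul hΔ).mul (ca.pow _)) _ fun β hβ hs => hu β (fun i => end_sc D hc (hβ i)) ?_)
  refine mul_left_cancel₀ (inv_ne_zero hc) ?_
  rw [mul_zero, ← hs, mul_sum]
  exact sum_congr rfl fun i _ => mul_left_comm _ _ _

theorem full : AllS → FullS := fun H k F _ _ _ _ _ _ _ D n u =>
  fun hq hθ h0 hg hΔ => wnN k F (Fin n) (Fin (2 * n)) (fun D u h hg hΔ => H k F D n u h
    (IntermediateField.isAlgebraic_adjoin_iff.1 hg)
    (IntermediateField.isAlgebraic_adjoin_iff.1 hΔ)) D hq hθ h0 hg hΔ u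

end Pool.Agent.CSU.SA.DS
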