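import Pool.Agent.Lib.MP_0c15f2_nt.DS.St

/-! Linear forms and additive polynomials; coefficients of endomorphisms. -/

namespace Pool.Agent.CSU.SA.DS

open Polynomial Finset

namespace Ps

variable {F M M' : Type} [Field F] [AddCommGroup M] [Module F M] [AddCommGroup M'] [Module F M']

/-- The combination of a sequence with the coefficients of a polynomial. -/
noncomputable def sm (e : ℕ → M) : F[X] →ₗ[F] M :=
  lsum fun i => LinearMap.toSpanSingleton F M (e i)

theorem sm_eq (e : ℕ → M) (a : F[X]) : sm e a = a.sum fun i u => u • e i := rfl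

theorem sm_mono (e : ℕ → M) (i : ℕ) (u : F) : sm e (monomial i u) = u • e i :=
  sum_monomial_index _ _ (zero_smul _ _)

theorem sm_X (e : ℕ → M) (a : F[X]) : sm e (X * a) = sm (fun i => e (i + 1)) a := by
  induction a using Polynomial.induction_on' with
  | add a b ha hb => rw [mul_add, map_add, map_add, ha, hb]
  | monomial i u => rw [X_mul_monomial, sm_mono, sm_mono]

theorem sm_C (e : ℕ → F) (u : F) (a : F[X]) : sm e (C u * a) = u * sm e a := by
  rw [C_mul', map_smul, smul_eq_mul]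

theorem sm_p (e : ℕ → F) (A c : F) (a : F[X]) :
    sm e (C A * (X - C c) * a) = A * (sm (fun i => e (i + 1)) a - c * sm e a) := by
  rw [mul_assoc, sm_C, sub_mul, map_sub, sm_X, sm_C]

theorem sm_lin (φ : M →ₗ[F] M') (e : ℕ → M) (a : F[X]) :
    φ (sm e a) = sm (fun i => φ (e i)) a := by
  induction a using Polynomial.induction_on' with
  | add a b ha hb => rw [map_add, map_add, map_add, ha, hb]
  | monomial i u => rw [sm_mono, sm_mono, map_smul]

theorem sm_map (σ : F →+* F) (e : ℕ → F) (a : F[X]) :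
    σ (sm e a) = sm (fun i => σ (e i)) (a.map σ) := by
  induction a using Polynomial.induction_on' with
  | add a b ha hb => rw [map_add, map_add, Polynomial.map_add, map_add, ha, hb]
  | monomial i u => rw [map_monomial, sm_mono, sm_mono, smul_eq_mul, smul_eq_mul, map_mul]

theorem sm_comb {e e' e'' : ℕ → F} {A c G : F}
    (h : ∀ i, e i = A * (e' (i + 1) - c * e' i) + G * e'' i) (a : F[X]) :
    sm e a = sm e' (C A * (X - C c) * a) + sm e'' (C G * a) := by
  rw [sm_p, sm_C]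
  induction a using Polynomial.induction_on' with
  | add a b ha hb => simp only [map_add, ha, hb]; ring
  | monomial i u => simp only [sm_mono, smul_eq_mul, h]; ring

theorem deg_lt {e : ℕ → F[X]} {a : F[X]} {N : ℕ} (h : ∀ i, a.coeff i ≠ 0 → (e i).degree < N) :
    (sm e a).degree < N :=
  (degree_sum_le _ _).trans_lt ((Finset.sup_lt_iff (WithBot.bot_lt_coe _)).2 fun i hi =>
    (degree_smul_le _ _).trans_lt (h i (mem_support_iff.1 hi)))

theorem deg_eq {e : ℕ → F[X]} {f : ℕ → ℕ} (hf : StrictMono f) (he : ∀ i, (e i).degree = f i)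
    {a : F[X]} (ha : a ≠ 0) : (sm e a).degree = f a.natDegree := by
  have l := leadingCoeff_ne_zero.2 ha
  have d : (a.leadingCoeff • e a.natDegree).degree = f a.natDegree := by
    rw [← C_mul', degree_C_mul l, he]
  conv_lhs => rw [← a.eraseLead_add_monomial_natDegree_leadingCoeff, map_add, sm_mono]
  rw [degree_add_eq_right_of_degree_lt, d]
  rw [d]
  refine deg_lt fun i hi => ?_
  rw [he]
  exact Nat.cast_lt.2 (hf (lt_natDegree_of_mem_eraseLead_support (mem_support_iff.2 hi)))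

theorem step {ψ p : F[X]} {n : ℕ} (h : ψ.degree < (n + 1 : ℕ)) (hp : p.degree = n) :
    ∃ u : F, (ψ - u • p).degree < n := by
  refine ⟨ψ.coeff n / p.coeff n, (degree_lt_iff_coeff_zero _ _).2 fun m hm => ?_⟩
  rw [coeff_sub, coeff_smul, smul_eq_mul]
  rcases hm.eq_or_lt with rfl | hm
  · rw [div_mul_cancel₀ _ (coeff_ne_zero_of_eq_degree hp), sub_self]
  · rw [(degree_lt_iff_coeff_zero _ _).1 h m hm,
      coeff_eq_zero_of_degree_lt (hp.trans_lt (Nat.cast_lt.2 hm)), mul_zero, sub_zero]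

theorem onto {r s : ℕ → F[X]} (hr : ∀ i, (r i).degree = (2 * i : ℕ))
    (hs : ∀ i, (s i).degree = (2 * i + 1 : ℕ)) (n : ℕ) :
    ∀ ψ : F[X], ψ.degree < n → ∃ a b : F[X], ψ = sm r a + sm s b := by
  induction n with
  | zero =>
    intro ψ h
    exact ⟨0, 0, by rw [degree_eq_bot.1 (Nat.WithBot.lt_zero_iff.1 h), map_zero, map_zero, add_zero]⟩
  | succ n ih =>
    intro ψ h
    obtain ⟨i, rfl | rfl⟩ := Nat.even_or_odd' n
    · obtain ⟨u, hu⟩ := step h (hr i)
      obtain ⟨a, b, e⟩ := ih _ hu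
      exact ⟨a + monomial i u, b, by rw [map_add, sm_mono, add_right_comm, ← e, sub_add_cancel]⟩
    · obtain ⟨u, hu⟩ := step h (hs i)
      obtain ⟨a, b, e⟩ := ih _ hu
      exact ⟨a, b + monomial i u, by rw [map_add, sm_mono, ← add_assoc, ← e, sub_add_cancel]⟩

theorem uniq {r s : ℕ → F[X]} (hr : ∀ i, (r i).degree = (2 * i : ℕ))
    (hs : ∀ i, (s i).degree = (2 * i + 1 : ℕ)) {a b : F[X]} (h : sm r a + sm s b = 0) :
    a = 0 ∧ b = 0 := by
  have d : (sm r a).degree = (sm s b).degree := by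
    rw [eq_neg_of_add_eq_zero_left h, degree_neg]
  have d1 := fun ha : a ≠ 0 => deg_eq (f := fun i => 2 * i) (fun _ _ k => by simpa) hr ha
  have d2 := fun hb : b ≠ 0 => deg_eq (f := fun i => 2 * i + 1) (fun _ _ k => by simpa) hs hb
  by_cases ha : a = 0 <;> by_cases hb : b = 0
  · exact ⟨ha, hb⟩
  · rw [d2 hb, ha, map_zero, degree_zero] at d
    exact absurd d (WithBot.bot_ne_coe)
  · rw [d1 ha, hb, map_zero, degree_zero] at d
    exact absurd d.symm (WithBot.bot_ne_coe)
  · rw [d1 ha, d2 hb, Nat.cast_inj] at d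
    omega

variable {q : ℕ} {σ : F →+* F}

theorem ql_eq (q : ℕ) (ψ : F[X]) (x : F) : ql q ψ x = sm (fun i => x ^ q ^ i) ψ := rfl

theorem ql_inj [Infinite F] (hq : 1 < q) {ψ φ : F[X]} (h : ∀ x, ql q ψ x = ql q φ x) : ψ = φ := by
  by_contra k
  have d := deg_eq (e := fun i => (X : F[X]) ^ q ^ i) (pow_right_strictMono₀ hq)
    (fun i => degree_X_pow _) (sub_ne_zero.2 k)
  rw [Polynomial.funext (q := 0) (p := sm _ (ψ - φ)) fun x => ?_, degree_zero] at d
  · exact WithBot.bot_ne_coe d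
  · rw [← leval_apply, sm_lin, map_sub, eval_zero]
    simp only [leval_apply, eval_pow, eval_X]
    exact sub_eq_zero.2 (h x)

theorem ql_S (hσ : ∀ y, σ y = y ^ q) (ψ : F[X]) (x : F) :
    ql q (X * ψ.map σ) x = ql q ψ x ^ q := by
  rw [← hσ, ql_eq, ql_eq, sm_X, sm_map]
  simp only [hσ, pow_succ, pow_mul]

theorem deg_S (σ : F →+* F) {ψ : F[X]} {n : ℕ} (h : ψ.degree = n) :
    (X * ψ.map σ).degree = ((n + 1 : ℕ) : WithBot ℕ) := by
  rw [degree_mul, degree_map, degree_X, h, add_comm, Nat.cast_succ]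

theorem ql_rh (hσ : ∀ y, σ y = y ^ q) (c g Δ : F) (ψ : F[X]) (x : F) :
    ql q (C c * ψ + C g * (X * ψ.map σ) + C Δ * (X * (X * ψ.map σ).map σ)) x =
      rh q c g Δ (ql q ψ x) := by
  rw [ql_eq, map_add, map_add, sm_C, sm_C, sm_C, ← ql_eq, ← ql_eq, ← ql_eq, ql_S hσ, ql_S hσ,
    ql_S hσ, rh, ← pow_mul, sq]

theorem ex_r (hσ : ∀ y, σ y = y ^ q) (c g : F) {Δ : F} (hΔ : Δ ≠ 0) (i : ℕ) :
    ∃ r : F[X], r.degree = (2 * i : ℕ) ∧ ∀ x, ql q r x = (rh q c g Δ)^[i] x := by
  induction i with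
  | zero => exact ⟨monomial 0 1, by simp, fun x => by rw [ql_eq, sm_mono]; simp⟩
  | succ i ih =>
    obtain ⟨r, d, e⟩ := ih
    refine ⟨_, ?_, fun x => by rw [ql_rh hσ, e, Function.iterate_succ_apply']⟩
    have d1 := deg_S σ d
    have d2 : (C Δ * (X * (X * r.map σ).map σ)).degree = ((2 * (i + 1) : ℕ) : WithBot ℕ) := by
      rw [degree_C_mul hΔ, deg_S σ d1]; rfl
    rw [degree_add_eq_right_of_degree_lt, d2]
    rw [d2, C_mul', C_mul']
    refine (degree_add_le _ _).trans_lt (max_lt ((degree_smul_le _ _).trans_lt ?_)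
      ((degree_smul_le _ _).trans_lt ?_))
    · rw [d]; exact Nat.cast_lt.2 (by omega)
    · rw [d1]; exact Nat.cast_lt.2 (by omega)

theorem psi_eq (q : ℕ) (c g Δ : F) (a b : F[X]) (x : F) : Psi q c g Δ a b x =
    sm (fun i => (rh q c g Δ)^[i] x) a + sm (fun i => (rh q c g Δ)^[i] x ^ q) b := rfl

theorem lin_inj {a b a' b' : F[X]} : lin a b = lin a' b' ↔ a = a' ∧ b = b' := by
  refine ⟨fun h => ⟨?_, ?_⟩, fun h => by rw [h.1, h.2]⟩
  · simpa [lin] using congrArg (MvPolynomial.eval fun p => if p.2 = 0 then 1 else 0) h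
  · simpa [lin] using congrArg (MvPolynomial.eval fun p => if p.2 = 0 then 0 else 1) h

theorem SD_lin (σ : F →+* F) (A G c : F) (a b : F[X]) : SD σ A G c 0 (lin a b) =
    lin (C A * (X - C c) * b.map σ) (a.map σ + C G * b.map σ) := by
  simp [SD, lin, tw, LL]
  ring

theorem lin_comb (p p' a b a' b' : F[X]) :
    MvPolynomial.C p * lin a b + MvPolynomial.C p' * lin a' b' =
      lin (p * a + p' * a') (p * b + p' * b') := by
  simp only [lin, map_add, map_mul]
  ring

theorem inf {F : Type} [NormedField F] {θ : F} (h : 1 < ‖θ‖) :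
    Function.Injective fun n : ℕ => θ ^ n := fun m n e =>
  (pow_right_strictMono₀ h).injective (by simpa using congrArg norm e)

/-- The coefficients multiplied by the twists of `c`. -/
theorem ex_D (q : ℕ) (c : F) (ψ : F[X]) : ∃ φ : F[X], (∀ i, φ.coeff i = ψ.coeff i * c ^ q ^ i) ∧
    ∀ e : ℕ → F, sm e φ = sm (fun i => c ^ q ^ i * e i) ψ := by
  induction ψ using Polynomial.induction_on' with
  | add a b ha hb =>
    obtain ⟨φ, h1, h2⟩ := ha
    obtain ⟨φ', h3, h4⟩ := hb
    exact ⟨φ + φ', fun i => by rw [coeff_add, coeff_add, h1, h3, add_mul],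
      fun e => by rw [map_add, map_add, h2, h4]⟩
  | monomial i u =>
    refine ⟨monomial i (u * c ^ q ^ i), fun j => ?_, fun e => ?_⟩
    · rw [coeff_monomial, coeff_monomial]
      split_ifs with k
      · rw [k]
      · rw [zero_mul]
    · rw [sm_mono, sm_mono, smul_eq_mul, smul_eq_mul, mul_assoc]

theorem sm_add3 {e e1 e2 e3 : ℕ → F} (h : ∀ i, e i = e1 i + e2 i + e3 i) (a : F[X]) :
    sm e a = sm e1 a + sm e2 a + sm e3 a := by
  induction a using Polynomial.induction_on' with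
  | add a b ha hb => simp only [map_add, ha, hb]; ring
  | monomial i u => simp only [sm_mono, smul_eq_mul, h]; ring

theorem pw_add (hσ : ∀ y, σ y = y ^ q) (i : ℕ) (x y : F) :
    (x + y) ^ q ^ i = x ^ q ^ i + y ^ q ^ i := by
  induction i with
  | zero => simp
  | succ i ih => rw [pow_succ, pow_mul, pow_mul, pow_mul, ih, ← hσ, map_add, hσ, hσ]

end Ps

open Ps

theorem psi : PsiS := by
  intro k F _ _ _ _ D σ h hσ
  have hq : 1 < D.q := h.1 ▸ Fintype.one_lt_card
  have hΔ := h.2.2.2.2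
  have : Infinite F := Infinite.of_injective _ (inf h.2.1)
  choose r d e using ex_r hσ D.θ D.g hΔ
  have d' := fun i => deg_S σ (d i)
  have key : ∀ a b x, ql D.q (sm r a + sm (fun i => X * (r i).map σ) b) x =
      Psi D.q D.θ D.g D.Δ a b x := fun a b x => by
    rw [ql_eq, map_add, sm_lin, sm_lin, psi_eq]
    simp only [← ql_eq, ql_S hσ, e]
  have inj : ∀ a b a' b' : F[X], (a = a' ∧ b = b') ↔
      ∀ x, Psi D.q D.θ D.g D.Δ a b x = Psi D.q D.θ D.g D.Δ a' b' x := fun a b a' b' => by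
    refine ⟨fun k x => by rw [k.1, k.2], fun k => ?_⟩
    simp only [← key] at k
    have := uniq d d' (a := a - a') (b := b - b') (by
      rw [map_sub, map_sub, sub_add_sub_comm, ql_inj hq k, sub_self])
    rwa [sub_eq_zero, sub_eq_zero] at this
  have hr : ∀ y, (y ^ D.q) ^ D.q = D.A 0 * (rh D.q D.θ D.g D.Δ y - D.θ * y) + D.G 0 * y ^ D.q :=
    fun y => by
      rw [DM.A, DM.G, rh, pow_zero, pow_one, pow_one, ← pow_mul, sq]
      field_simp
      ring
  have hS : ∀ a b x, Psi D.q D.θ D.g D.Δ (C (D.A 0) * (X - C D.θ) * Polynomial.map σ b)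
      (Polynomial.map σ a + C (D.G 0) * Polynomial.map σ b) x = Psi D.q D.θ D.g D.Δ a b x ^ D.q :=
    fun a b x => by
      rw [← hσ, psi_eq, psi_eq, map_add, map_add, sm_map, sm_map]
      simp only [hσ]
      rw [sm_comb (e := fun i => ((rh D.q D.θ D.g D.Δ)^[i] x ^ D.q) ^ D.q)
        (e' := fun i => (rh D.q D.θ D.g D.Δ)^[i] x)
        (e'' := fun i => (rh D.q D.θ D.g D.Δ)^[i] x ^ D.q) fun i => by
          rw [Function.iterate_succ_apply']; exact hr _]
      ring
  refine ⟨fun a b N ha hb => ⟨_, ?_, key a b⟩, fun ψ => ?_, fun a b => ⟨fun k => ?_, ?_, ?_⟩⟩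
  · refine natDegree_le_of_degree_le ((degree_add_le _ _).trans (max_le (deg_lt fun i hi => ?_).le
      (deg_lt fun i hi => ?_).le))
    · have := Nat.cast_lt.1 ((le_degree_of_ne_zero hi).trans_lt ha)
      rw [d]; exact Nat.cast_lt.2 (by omega)
    · have := Nat.cast_lt.1 ((le_degree_of_ne_zero hi).trans_lt hb)
      rw [d']; exact Nat.cast_lt.2 (by omega)
  · obtain ⟨a, b, rfl⟩ := onto d d' (ψ.natDegree + 1) ψ
      (degree_le_natDegree.trans_lt (Nat.cast_lt.2 (Nat.lt_succ_self _)))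
    exact ⟨a, b, key a b⟩
  · exact (inj a b 0 0).2 fun x => by rw [k, psi_eq, map_zero, map_zero, add_zero]
  · rw [Eq2, SD_lin, SD_lin, lin_comb, lin_inj, inj]
    refine forall_congr' fun x => ?_
    have a0 : D.A 0 ≠ 0 := inv_ne_zero (pow_ne_zero _ hΔ)
    have t : ∀ a b a' b' : F[X], Psi D.q D.θ D.g D.Δ
        (C (D.A 0) * (X - C D.θ) * a + C (D.G 0) * a') (C (D.A 0) * (X - C D.θ) * b + C (D.G 0) * b')
        x = D.A 0 * (Psi D.q D.θ D.g D.Δ a b (rh D.q D.θ D.g D.Δ x) -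
          D.θ * Psi D.q D.θ D.g D.Δ a b x) + D.G 0 * Psi D.q D.θ D.g D.Δ a' b' x := by
      intro a b a' b'
      simp only [psi_eq, map_add, sm_p, sm_C, Function.iterate_succ_apply]
      ring
    rw [hS, t, hS, hr]
    exact ⟨fun k => mul_left_cancel₀ a0 (by linear_combination -k), fun k => by rw [k]⟩
  · rw [PiC, SD_lin]
    refine ⟨fun k => ?_, fun k => ?_⟩
    · have k1 : b = 0 := by
        simpa [lin] using congrArg (MvPolynomial.eval fun p => if p.2 = 0 then 0 else 1) k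
      subst k1
      exact ⟨rfl, by simpa [lin, sub_eq_zero] using congrArg (MvPolynomial.eval fun _ => 1) k⟩
    · simp only [lin, k.1, k.2, Polynomial.map_zero, mul_zero, map_zero, zero_mul, add_zero,
        zero_add]
      ring

theorem eal : EalS := by
  intro k F _ _ _ _ D ψ T h hc a1 a2 a3
  have hq : 1 < D.q := h.1 ▸ Fintype.one_lt_card
  have hΔ := h.2.2.2.2
  have : Infinite F := Infinite.of_injective _ (inf h.2.1)
  obtain ⟨σ, hσ⟩ : ∃ σ : F →+* F, ∀ y, σ y = y ^ D.q :=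
    ⟨(FiniteField.frobeniusAlgHom k F).toRingHom, fun _ => h.1 ▸ rfl⟩
  obtain ⟨φ1, c1, e1⟩ := ex_D D.q D.θ ψ
  obtain ⟨φ2, c2, e2⟩ := ex_D D.q D.g ψ
  obtain ⟨φ3, c3, e3⟩ := ex_D D.q D.Δ ψ
  have E := ql_inj hq (ψ := φ1 + X * φ2 + X * (X * φ3)) fun x => by
    rw [ql_rh hσ D.θ D.g D.Δ ψ, ← hc, ql_eq, ql_eq, map_add, map_add, sm_X, sm_X, sm_X, e1, e2, e3]
    refine (sm_add3 (fun i => ?_) ψ).symm
    simp only [rh, pw_add hσ, mul_pow, ← pow_mul]
    congr 3 <;> ring
  have R := fun j => congrArg (coeff · (j + 1 + 1)) E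
  simp only [coeff_add, coeff_X_mul, coeff_C_mul, c1, c2, c3, Polynomial.map_mul, map_X, coeff_map,
    hσ] at R
  have main : ∀ n j, ψ.natDegree < j + n → IsAlgebraic (Algebra.adjoin k T) (ψ.coeff j) := by
    intro n
    induction n with
    | zero => exact fun j hj => by rw [coeff_eq_zero_of_natDegree_lt (n := j) hj]; exact isAlgebraic_zero
    | succ n ih =>
      intro j hj
      have b1 := ih (j + 1) (by omega)
      have b2 := ih (j + 1 + 1) (by omega)
      let L := Subalgebra.algebraicClosure (Algebra.adjoin k T) F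
      refine IsAlgebraic.restrictScalars (S := L) _ ⟨C ⟨D.Δ, a3⟩ * X ^ (D.q * D.q) +
        (C ⟨_, (a3.pow (D.q ^ j)).neg⟩ * X + C ⟨_, ((a1.mul b2).add (a2.mul (b1.pow D.q))).sub
          ((b2.mul (a1.pow (D.q ^ (j + 1 + 1)))).add (b1.mul (a2.pow (D.q ^ (j + 1)))))⟩),
        fun z => hΔ ?_, ?_⟩
      · have n1 : 1 < D.q * D.q := one_lt_mul'' hq hq
        have := congrArg (fun p => ((coeff p (D.q * D.q) : L) : F)) z
        simpa [coeff_X, coeff_C, n1.ne, (one_pos.trans n1).ne'] using this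
      · simp only [map_add, map_mul, aeval_C, map_pow, aeval_X, Subalgebra.algebraMap_def,
          Algebra.algebraMap_self, RingHom.id_apply, pow_mul]
        linear_combination -R j
  exact fun i => main (ψ.natDegree + 1) i (by omega)

end Pool.Agent.CSU.SA.DS
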