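import Pool.Agent.Lib.MP_0c15f2_nt.DS.Pst0

/-! From an affine polynomial whose orbit spans no constant to a solution of the homogeneous
equation: descent on the support, then untwisting of the denominator. -/

namespace Pool.Agent.DS.Pst

open Polynomial

namespace Tor

variable {ι F : Type} [Fintype ι] [Field F]

/-- Coefficient vectors of affine polynomials. -/
abbrev V (ι F : Type) [Field F] : Type := (ι → F[X]) × (ι → F[X]) × F[X]

/-- The twisted pull back on coefficient vectors. -/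
noncomputable def T (σ : F →+* F) (e : F[X]) (G : F) (ξ : ι → F) :
    V ι F →ₛₗ[mapRingHom σ] V ι F where
  toFun u := (fun l => e * (u.2.1 l).map σ, fun l => (u.1 l).map σ + C G * (u.2.1 l).map σ,
    u.2.2.map σ + ∑ l, C (ξ l) * (u.2.1 l).map σ)
  map_add' u v := by
    refine Prod.ext (funext fun l => ?_) (Prod.ext (funext fun l => ?_) ?_)
    · simp [mul_add]
    · simp only [Prod.fst_add, Prod.snd_add, Pi.add_apply, Polynomial.map_add]; ring
    · simp only [Prod.fst_add, Prod.snd_add, Pi.add_apply, Polynomial.map_add, mul_add,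
        Finset.sum_add_distrib]; ring
  map_smul' a u := by
    refine Prod.ext (funext fun l => ?_) (Prod.ext (funext fun l => ?_) ?_)
    · simp only [Prod.smul_fst, Prod.smul_snd, Pi.smul_apply, smul_eq_mul, Polynomial.map_mul,
        coe_mapRingHom]; ring
    · simp only [Prod.smul_fst, Prod.smul_snd, Pi.smul_apply, smul_eq_mul, Polynomial.map_mul,
        coe_mapRingHom]; ring
    · simp only [Prod.smul_fst, Prod.smul_snd, Pi.smul_apply, smul_eq_mul, Polynomial.map_mul,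
        coe_mapRingHom, mul_add, Finset.mul_sum]
      congr 1
      exact Finset.sum_congr rfl fun l _ => by ring

variable (σ : F →+* F) (e : F[X]) (G : F) (ξ : ι → F)

lemma T1 (u : V ι F) (l : ι) : (T σ e G ξ u).1 l = e * (u.2.1 l).map σ := rfl

lemma T2 (u : V ι F) (l : ι) :
    (T σ e G ξ u).2.1 l = (u.1 l).map σ + C G * (u.2.1 l).map σ := rfl

lemma T3 (u : V ι F) :
    (T σ e G ξ u).2.2 = u.2.2.map σ + ∑ l, C (ξ l) * (u.2.1 l).map σ := rfl

lemma Tsm (a : F[X]) (u : V ι F) : T σ e G ξ (a • u) = a.map σ • T σ e G ξ u := by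
  rw [map_smulₛₗ]; rfl

lemma Tinj (he : e ≠ 0) (u : V ι F) (h : T σ e G ξ u = 0) : u = 0 := by
  have hb : ∀ l, u.2.1 l = 0 := fun l => by
    have h1 := T1 σ e G ξ u l
    rw [h] at h1
    exact (Polynomial.map_eq_zero σ).1 ((mul_eq_zero.1 h1.symm).resolve_left he)
  refine Prod.ext (funext fun l => ?_) (Prod.ext (funext hb) ?_)
  · have h2 := T2 σ e G ξ u l
    rw [h, hb l] at h2
    simpa using h2.symm
  · have h3 := T3 σ e G ξ u
    rw [h] at h3
    simpa [hb] using h3.symm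

lemma Tback (hσ : Function.Surjective σ) (u : V ι F) : ∃ w, T σ e G ξ w = e • u := by
  choose r hr using Polynomial.map_surjective σ hσ
  refine ⟨(fun l => r (e * u.2.1 l - C G * u.1 l), fun l => r (u.1 l),
    r (e * u.2.2 - ∑ l, C (ξ l) * u.1 l)), ?_⟩
  refine Prod.ext (funext fun l => ?_) (Prod.ext (funext fun l => ?_) ?_)
  · simp [T1, hr]
  · simp [T2, hr]
  · simp [T3, hr]

lemma det_ne (he : e.natDegree = 1) (x y : F[X]) (h : ¬(x = 0 ∧ y = 0)) :
    x * (x.map σ + C G * y.map σ) - y * (e * y.map σ) ≠ 0 := by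
  intro h0
  rw [sub_eq_zero] at h0
  have he0 : e ≠ 0 := by rintro rfl; simp at he
  by_cases hy : y = 0
  · subst hy
    simp at h0
    exact h ⟨h0, rfl⟩
  have hy' : y.map σ ≠ 0 := by simpa using hy
  have hr : y * (e * y.map σ) ≠ 0 := mul_ne_zero hy (mul_ne_zero he0 hy')
  have hd := congrArg natDegree h0
  rw [← h0] at hr
  rw [natDegree_mul (left_ne_zero_of_mul hr) (right_ne_zero_of_mul hr),
    natDegree_mul hy (mul_ne_zero he0 hy'), natDegree_mul he0 hy', natDegree_map, he] at hd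
  have h1 : (C G * y.map σ).natDegree ≤ y.natDegree :=
    (natDegree_C_mul_le _ _).trans (natDegree_map σ).le
  by_cases hxy : x.natDegree ≤ y.natDegree
  · have h2 : (x.map σ + C G * y.map σ).natDegree ≤ y.natDegree :=
      natDegree_add_le_of_degree_le ((natDegree_map σ).le.trans hxy) h1
    omega
  · rw [natDegree_add_eq_left_of_natDegree_lt (by rw [natDegree_map]; omega), natDegree_map] at hd
    omega

lemma untw (c : F) (a : F[X]) (ha : a.Monic) (h1 : a ∣ (X - C c) * a.map σ)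
    (h2 : a.map σ ∣ (X - C c) * a) : a.map σ = a := by
  obtain ⟨u, hu⟩ := h1
  obtain ⟨v, hv⟩ := h2
  have hm : ((X - C c) * a.map σ).Monic := (monic_X_sub_C c).mul (ha.map σ)
  have hum : u.Monic := ha.of_mul_monic_left (hu ▸ hm)
  have hd := congrArg natDegree hu
  rw [(monic_X_sub_C c).natDegree_mul (ha.map σ), ha.natDegree_mul hum, natDegree_map,
    natDegree_X_sub_C] at hd
  have hu1 := hum.eq_X_add_C (by omega)
  have huv : (X - C c) ^ 2 = u * v := by
    apply mul_left_cancel₀ (mul_ne_zero ha.ne_zero (ha.map σ).ne_zero)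
    calc a * a.map σ * (X - C c) ^ 2 = ((X - C c) * a.map σ) * ((X - C c) * a) := by ring
      _ = a * a.map σ * (u * v) := by rw [hu, hv]; ring
  have h3 := congrArg (eval (-u.coeff 0)) huv
  rw [eval_mul, hu1] at h3
  simp only [eval_pow, eval_sub, eval_X, eval_C, eval_add, coeff_add, coeff_X_zero, coeff_C_zero,
    zero_add, neg_add_cancel, zero_mul] at h3
  have h4 : u.coeff 0 = -c := by
    have := pow_eq_zero_iff (two_ne_zero) |>.1 h3
    linear_combination -this
  rw [h4, C_neg, ← sub_eq_add_neg] at hu1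
  rw [hu1, mul_comm a] at hu
  exact mul_left_cancel₀ (monic_X_sub_C c).ne_zero hu

lemma fix (hσ : Function.Surjective σ) (A c : F) (hA : A ≠ 0) (he : e = C A * (X - C c))
    (P : Submodule F[X] (F[X] × F[X]))
    (h1 : ∀ x y, (x, y) ∈ P → (e * y.map σ, x.map σ + C G * y.map σ) ∈ P)
    (h2 : ∀ x y, (x, y) ∈ P → ∃ x' y' : F[X], y'.map σ = x ∧ x'.map σ = e * y - C G * x ∧
      (x', y') ∈ P) (d : F[X]) (hd : d ≠ 0) (hd1 : (d, 0) ∈ P) (hd2 : (0, d) ∈ P) :
    ∃ a : F[X], a ≠ 0 ∧ a.natDegree ≤ d.natDegree ∧ a.map σ = a ∧ (a, 0) ∈ P := by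
  let J : Ideal F[X] := P.comap (LinearMap.inl F[X] F[X] F[X]) ⊓
    P.comap (LinearMap.inr F[X] F[X] F[X])
  have hJ : ∀ b, b ∈ J ↔ (b, 0) ∈ P ∧ (0, b) ∈ P := fun b => Iff.rfl
  obtain ⟨g, hg⟩ := (IsPrincipalIdealRing.principal J).principal
  have hg' : ∀ b, b ∈ J ↔ g ∣ b := fun b => by
    rw [hg]; exact Ideal.mem_span_singleton
  have hg0 : g ≠ 0 := by
    rintro rfl
    exact hd (zero_dvd_iff.1 ((hg' d).1 ((hJ d).2 ⟨hd1, hd2⟩)))
  set a := g * C g.leadingCoeff⁻¹ with ha
  have hm : a.Monic := monic_mul_leadingCoeff_inv hg0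
  have haJ : a ∈ J := (hg' a).2 (dvd_mul_right _ _)
  have hu : ∀ z : F, z ≠ 0 → IsUnit (C z : F[X]) := fun z hz => isUnit_C.2 (Ne.isUnit hz)
  have hdv : ∀ b ∈ J, a ∣ b := fun b hb =>
    ((hu _ (inv_ne_zero (leadingCoeff_ne_zero.2 hg0))).mul_right_dvd).2 ((hg' b).1 hb)
  obtain ⟨ha1, ha2⟩ := (hJ a).1 haJ
  refine ⟨a, hm.ne_zero, natDegree_le_of_dvd (hdv d ((hJ d).2 ⟨hd1, hd2⟩)) hd, ?_, ha1⟩
  apply untw σ c a hm
  · have k1 := h1 _ _ ha1
    have k2 := h1 _ _ ha2
    simp only [Polynomial.map_zero, mul_zero, add_zero, zero_add] at k1 k2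
    have k3 : e * a.map σ ∈ J := by
      rw [hJ]
      constructor
      · have := P.sub_mem k2 (P.smul_mem (C G) k1)
        simpa using this
      · have := P.smul_mem e k1
        simpa using this
    have k4 := hdv _ k3
    rw [he, mul_assoc] at k4
    exact ((hu A hA).dvd_mul_left).1 k4
  · obtain ⟨x1, y1, e1, e2, k1⟩ := h2 _ _ ha1
    obtain ⟨x2, y2, e3, e4, k2⟩ := h2 _ _ ha2
    obtain ⟨e', he'⟩ := Polynomial.map_surjective σ hσ e
    obtain ⟨G', hG'⟩ := hσ G
    have hinj := Polynomial.map_injective σ σ.injective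
    have f1 : y2 = 0 := by simpa using e3
    have f2 : x2 = e' * y1 := hinj (by simp [e4, he', e1])
    have f3 : x1 = -(C G' * y1) := hinj (by simp [e2, e1, hG'])
    subst f1
    have k3 : x2 ∈ J := by
      rw [hJ]
      refine ⟨k2, ?_⟩
      have := P.add_mem (P.smul_mem e' k1) (P.smul_mem (C G') k2)
      have h5 : e' • (x1, y1) + (C G' : F[X]) • (x2, (0 : F[X])) = (0, x2) := by
        rw [f3, f2]
        refine Prod.ext ?_ ?_
        · simp only [Prod.smul_mk, smul_eq_mul, Prod.mk_add_mk]; ring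
        · simp
      rwa [h5] at this
    have k4 := Polynomial.map_dvd σ (hdv _ k3)
    rw [e4, mul_zero, sub_zero, he, mul_assoc] at k4
    exact ((hu A hA).dvd_mul_left).1 k4

/-- The two coefficients of one column. -/
def pr (l : ι) : V ι F →ₗ[F[X]] F[X] × F[X] where
  toFun u := (u.1 l, u.2.1 l)
  map_add' _ _ := rfl
  map_smul' _ _ := rfl

omit [Fintype ι] in
lemma prv (l : ι) (u : V ι F) : pr l u = (u.1 l, u.2.1 l) := rfl

lemma pr_T (l : ι) (u : V ι F) (x y : F[X]) (h : pr l u = (x, y)) :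
    pr l (T σ e G ξ u) = (e * y.map σ, x.map σ + C G * y.map σ) := by
  obtain ⟨rfl, rfl⟩ := Prod.mk.inj h
  rfl

lemma core (hσ : Function.Surjective σ) (A c : F) (hA : A ≠ 0) (he : e = C A * (X - C c))
    (N : Submodule F[X] (V ι F)) (l : ι) (hT : ∀ u ∈ N, T σ e G ξ u ∈ N)
    (hi : ∀ u ∈ N, pr l u = 0 → u = 0) (hs : ∀ a : F[X], a ≠ 0 → ∀ u, a • u ∈ N → u ∈ N)
    (d : F[X]) (hd : d ≠ 0) (p r : V ι F) (hp : p ∈ N) (hr : r ∈ N) (hp' : pr l p = (d, 0))
    (hr' : pr l r = (0, d)) :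
    ∃ (z : V ι F) (a : F[X]), a ≠ 0 ∧ a.natDegree ≤ d.natDegree ∧ z.1 l = a ∧ d • z = a • p ∧
      T σ e G ξ (T σ e G ξ z) = e • z + (C G : F[X]) • T σ e G ξ z := by
  have he0 : e ≠ 0 := by
    rw [he]; exact mul_ne_zero (C_ne_zero.2 hA) (monic_X_sub_C c).ne_zero
  have hb : ∀ u ∈ N, ∀ w, T σ e G ξ w = e • u → w ∈ N := by
    intro u hu w hw
    have h1 : w.1 l • p + w.2.1 l • r ∈ N := N.add_mem (N.smul_mem _ hp) (N.smul_mem _ hr)
    have h2 : pr l (w.1 l • p + w.2.1 l • r - d • w) = (0, 0) := by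
      rw [map_sub, map_add, map_smul, map_smul, map_smul, hp', hr']
      refine Prod.ext ?_ ?_ <;> simp [pr, mul_comm]
    have h3 := pr_T σ e G ξ l _ _ _ h2
    have h4 : T σ e G ξ (w.1 l • p + w.2.1 l • r - d • w) ∈ N := by
      rw [map_sub, Tsm σ e G ξ d, hw]
      exact N.sub_mem (hT _ h1) (N.smul_mem _ (N.smul_mem _ hu))
    have h5 := Tinj σ e G ξ he0 _ (hi _ h4 (by rw [h3]; simp))
    exact hs d hd w (by rw [← sub_eq_zero.1 h5]; exact h1)
  obtain ⟨a, ha0, had, hfix, z, hz, hz'⟩ := fix σ e G hσ A c hA he (N.map (pr l))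
    (by
      rintro x y ⟨u, hu, hu'⟩
      exact ⟨_, hT u hu, pr_T σ e G ξ l u x y hu'⟩)
    (by
      rintro x y ⟨u, hu, hu'⟩
      obtain ⟨w, hw⟩ := Tback σ e G ξ hσ u
      have h1 := pr_T σ e G ξ l w (w.1 l) (w.2.1 l) rfl
      rw [hw, map_smul, hu'] at h1
      obtain ⟨h2, h3⟩ := Prod.mk.inj h1
      have h4 : (w.2.1 l).map σ = x := (mul_left_cancel₀ he0 h2).symm
      refine ⟨w.1 l, w.2.1 l, h4, ?_, w, hb u hu w hw, rfl⟩
      rw [h4, smul_eq_mul] at h3
      linear_combination -h3)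
    d hd ⟨p, hp, hp'⟩ ⟨r, hr, hr'⟩
  refine ⟨z, a, ha0, had, (Prod.mk.inj hz').1, ?_, ?_⟩
  · rw [← sub_eq_zero]
    refine hi _ (N.sub_mem (N.smul_mem _ hz) (N.smul_mem _ hp)) ?_
    rw [map_sub, map_smul, map_smul, hz', hp']
    simp [mul_comm]
  · rw [← sub_eq_zero]
    refine hi _ (N.sub_mem (hT _ (hT _ hz)) (N.add_mem (N.smul_mem _ hz)
      (N.smul_mem _ (hT _ hz)))) ?_
    have h1 := pr_T σ e G ξ l z _ _ hz'
    have h2 := pr_T σ e G ξ l _ _ _ h1
    rw [map_sub, map_add, map_smul, map_smul, h2, h1, hz']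
    simp [hfix]

/-- Degree bound on the linear coefficients. -/
def Bd (D : ℕ) (u : V ι F) : Prop := ∀ l, (u.1 l).natDegree ≤ D ∧ (u.2.1 l).natDegree ≤ D

omit [Fintype ι] in
lemma Bd.smul {D k : ℕ} {u : V ι F} (h : Bd D u) {a : F[X]} (ha : a.natDegree ≤ k) :
    Bd (k + D) (a • u) := fun l =>
  ⟨natDegree_mul_le_of_le ha (h l).1, natDegree_mul_le_of_le ha (h l).2⟩

omit [Fintype ι] in
lemma Bd.mono {D k : ℕ} {u : V ι F} (h : Bd D u) (hk : D ≤ k) : Bd k u := fun l =>
  ⟨(h l).1.trans hk, (h l).2.trans hk⟩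

omit [Fintype ι] in
lemma Bd.add {D : ℕ} {u v : V ι F} (h : Bd D u) (k : Bd D v) : Bd D (u + v) := fun l =>
  ⟨natDegree_add_le_of_degree_le (h l).1 (k l).1, natDegree_add_le_of_degree_le (h l).2 (k l).2⟩

omit [Fintype ι] in
lemma Bd.sub {D : ℕ} {u v : V ι F} (h : Bd D u) (k : Bd D v) : Bd D (u - v) := fun l =>
  ⟨(natDegree_sub_le_of_le (h l).1 (k l).1).trans (max_self _).le,
    (natDegree_sub_le_of_le (h l).2 (k l).2).trans (max_self _).le⟩

lemma Bd.T (he : e.natDegree = 1) {D : ℕ} {u : V ι F} (h : Bd D u) :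
    Bd (D + 1) (T σ e G ξ u) := fun l => by
  have h1 := (h l).1
  have h2 := (h l).2
  rw [T1, T2]
  constructor
  · have := natDegree_mul_le_of_le he.le ((natDegree_map σ).le.trans h2)
    omega
  · exact natDegree_add_le_of_degree_le (by rw [natDegree_map]; omega)
      ((natDegree_C_mul_le _ _).trans (by rw [natDegree_map]; omega))

lemma pr_T0 (l : ι) (u : V ι F) (h : pr l u = 0) : pr l (T σ e G ξ u) = 0 := by
  rw [pr_T σ e G ξ l u 0 0 h]; simp

lemma deg_div {d a x y : F[X]} {D : ℕ} (hd : d ≠ 0) (ha : a.natDegree ≤ d.natDegree)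
    (h : d * x = a * y) (hy : y.natDegree ≤ D) : x.natDegree ≤ D := by
  by_cases hx : x = 0
  · simp [hx]
  have h1 := natDegree_mul hd hx
  have h2 := natDegree_mul_le_of_le ha hy
  rw [← h] at h2
  omega

lemma two (hσ : Function.Surjective σ) (A c : F) (hA : A ≠ 0) (he : e = C A * (X - C c))
    (f : V ι F) (l : ι) (hl : pr l f ≠ 0) (d α β : F[X])
    (hd : d = f.1 l * (T σ e G ξ f).2.1 l - f.2.1 l * (T σ e G ξ f).1 l)
    (hrel : d • T σ e G ξ (T σ e G ξ f) = α • f + β • T σ e G ξ f) (D : ℕ) (hD : Bd D f) :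
    ∃ z : V ι F, Bd (2 * D + 1) z ∧ (∀ k, pr k f = 0 → pr k z = 0) ∧ z.1 l ≠ 0 ∧
      T σ e G ξ (T σ e G ξ z) = e • z + (C G : F[X]) • T σ e G ξ z := by
  have he1 : e.natDegree = 1 := by rw [he, natDegree_C_mul hA, natDegree_X_sub_C]
  have hd0 : d ≠ 0 := by
    rw [hd, T1, T2]
    exact det_ne σ e G he1 _ _ fun h => hl (Prod.ext h.1 h.2)
  set g := T σ e G ξ f with hg
  let N : Submodule F[X] (V ι F) :=
    { carrier := {u | ∃ a x y : F[X], a ≠ 0 ∧ a • u = x • f + y • g}
      add_mem' := by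
        rintro u v ⟨a, x, y, ha, hu⟩ ⟨b, x', y', hb, hv⟩
        refine ⟨a * b, b * x + a * x', b * y + a * y', mul_ne_zero ha hb, ?_⟩
        linear_combination (norm := module) b • hu + a • hv
      zero_mem' := ⟨1, 0, 0, one_ne_zero, by simp⟩
      smul_mem' := by
        rintro b u ⟨a, x, y, ha, hu⟩
        refine ⟨a, b * x, b * y, ha, ?_⟩
        linear_combination (norm := module) b • hu }
  obtain ⟨z, a, ha0, had, hz1, hz, hT⟩ := core σ e G ξ hσ A c hA he N l
    (by
      rintro u ⟨a, x, y, ha, hu⟩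
      have h1 := congrArg (T σ e G ξ) hu
      rw [map_add, Tsm, Tsm, Tsm, ← hg] at h1
      refine ⟨d * a.map σ, y.map σ * α, d * x.map σ + y.map σ * β,
        mul_ne_zero hd0 (by simpa using ha), ?_⟩
      linear_combination (norm := module) d • h1 + y.map σ • hrel)
    (by
      rintro u ⟨a, x, y, ha, hu⟩ h0
      have h1 := congrArg (pr l) hu
      rw [map_smul, h0, smul_zero, map_add, map_smul, map_smul] at h1
      have h2 : 0 = x * f.1 l + y * g.1 l := congrArg Prod.fst h1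
      have h3 : 0 = x * f.2.1 l + y * g.2.1 l := congrArg Prod.snd h1
      have hx : x = 0 := (mul_eq_zero.1 (show x * d = 0 by
        rw [hd]; linear_combination g.1 l * h3 - g.2.1 l * h2)).resolve_right hd0
      have hy : y = 0 := (mul_eq_zero.1 (show y * d = 0 by
        rw [hd]; linear_combination f.2.1 l * h2 - f.1 l * h3)).resolve_right hd0
      rw [hx, hy, zero_smul, zero_smul, add_zero] at hu
      exact (smul_eq_zero.1 hu).resolve_left ha)
    (by
      rintro b hb u ⟨a, x, y, ha, hu⟩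
      exact ⟨a * b, x, y, mul_ne_zero ha hb, by rw [mul_smul, hu]⟩)
    d hd0 (g.2.1 l • f - f.2.1 l • g) (f.1 l • g - g.1 l • f)
    ⟨1, g.2.1 l, -f.2.1 l, one_ne_zero, by module⟩
    ⟨1, -g.1 l, f.1 l, one_ne_zero, by module⟩
    (by
      refine Prod.ext ?_ ?_
      · show g.2.1 l * f.1 l - f.2.1 l * g.1 l = d
        rw [hd]; ring
      · show g.2.1 l * f.2.1 l - f.2.1 l * g.2.1 l = 0
        ring)
    (by
      refine Prod.ext ?_ ?_
      · show f.1 l * g.1 l - g.1 l * f.1 l = 0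
        ring
      · show f.1 l * g.2.1 l - g.1 l * f.2.1 l = d
        rw [hd]; ring)
  have hG : Bd (D + 1) g := hD.T σ e G ξ he1
  have hp : Bd (2 * D + 1) (g.2.1 l • f - f.2.1 l • g) :=
    ((hD.smul (hG l).2).mono (by omega)).sub ((hG.smul (hD l).2).mono (by omega))
  refine ⟨z, fun k => ⟨deg_div hd0 had (congrFun (congrArg Prod.fst hz) k) (hp k).1,
    deg_div hd0 had (congrFun (congrArg (fun u => u.2.1) hz) k) (hp k).2⟩, fun k hk => ?_,
    hz1 ▸ ha0, hT⟩
  have h1 := congrArg (pr k) hz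
  rw [map_smul, map_smul, map_sub, map_smul, map_smul, hk, pr_T0 σ e G ξ k f hk] at h1
  simp only [smul_zero, sub_zero] at h1
  exact (smul_eq_zero.1 h1).resolve_left hd0

lemma desc (hσ : Function.Surjective σ) (A c : F) (hA : A ≠ 0) (he : e = C A * (X - C c))
    (Mo : Submodule F[X] (V ι F)) (hT : ∀ u ∈ Mo, T σ e G ξ u ∈ Mo)
    (h0 : ∀ u ∈ Mo, (∀ l, pr l u = 0) → u = 0) (n : ℕ) :
    ∀ (D : ℕ) (I : Finset ι) (f : V ι F), I.card ≤ n → f ∈ Mo → f ≠ 0 → Bd D f →
      (∀ l, l ∉ I → pr l f = 0) →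
      ∃ z : V ι F, Bd (4 ^ n * (D + 1)) z ∧ (∀ k, pr k f = 0 → pr k z = 0) ∧ (∃ l, z.1 l ≠ 0) ∧
        T σ e G ξ (T σ e G ξ z) = e • z + (C G : F[X]) • T σ e G ξ z := by
  classical
  have he1 : e.natDegree = 1 := by rw [he, natDegree_C_mul hA, natDegree_X_sub_C]
  induction n with
  | zero =>
    intro D I f hI hf hf0 _ hZ
    rw [Nat.le_zero, Finset.card_eq_zero] at hI
    exact absurd (h0 f hf fun l => hZ l (by simp [hI])) hf0
  | succ n ih =>
    intro D I f hI hf hf0 hD hZ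
    obtain ⟨l, hl⟩ : ∃ l, pr l f ≠ 0 := by
      by_contra h
      exact hf0 (h0 f hf fun l => not_not.1 fun k => h ⟨l, k⟩)
    have hlI : l ∈ I := not_not.1 fun k => hl (hZ l k)
    set g := T σ e G ξ f with hg
    set k := T σ e G ξ g with hk
    have hG : Bd (D + 1) g := hD.T σ e G ξ he1
    have hK : Bd (D + 1 + 1) k := hG.T σ e G ξ he1
    have det : ∀ {u v : V ι F} {a b : ℕ}, Bd a u → Bd b v →
        (u.1 l * v.2.1 l - u.2.1 l * v.1 l).natDegree ≤ a + b := fun hu hv =>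
      (natDegree_sub_le_of_le (natDegree_mul_le_of_le (hu l).1 (hv l).2)
        (natDegree_mul_le_of_le (hu l).2 (hv l).1)).trans (max_self _).le
    have h4 : 1 ≤ 4 ^ n := Nat.one_le_pow _ _ (by norm_num)
    by_cases hw : (f.1 l * g.2.1 l - f.2.1 l * g.1 l) • k + (g.1 l * k.2.1 l - g.2.1 l * k.1 l) • f
        - (f.1 l * k.2.1 l - f.2.1 l * k.1 l) • g = 0
    · obtain ⟨z, h1, h2, h3, h5⟩ := two σ e G ξ hσ A c hA he f l hl _
        (-(g.1 l * k.2.1 l - g.2.1 l * k.1 l)) (f.1 l * k.2.1 l - f.2.1 l * k.1 l) rfl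
        (by linear_combination (norm := module) hw) D hD
      exact ⟨z, h1.mono (by rw [pow_succ]; nlinarith), h2, ⟨l, h3⟩, h5⟩
    · have hz : ∀ j, pr j f = 0 → pr j ((f.1 l * g.2.1 l - f.2.1 l * g.1 l) • k +
          (g.1 l * k.2.1 l - g.2.1 l * k.1 l) • f - (f.1 l * k.2.1 l - f.2.1 l * k.1 l) • g) = 0 := by
        intro j hj
        have h1 := pr_T0 σ e G ξ j f hj
        have h2 := pr_T0 σ e G ξ j g h1
        rw [map_sub, map_add, map_smul, map_smul, map_smul, hj, h1, h2]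
        simp
      obtain ⟨z, h1, h2, h3, h5⟩ := ih (3 * D + 3) (I.erase l) _
        (by rw [Finset.card_erase_of_mem hlI]; omega)
        (Mo.sub_mem (Mo.add_mem (Mo.smul_mem _ (hT _ (hT _ hf))) (Mo.smul_mem _ hf))
          (Mo.smul_mem _ (hT _ hf))) hw
        ((((hK.smul (det hD hG)).mono (by omega)).add ((hD.smul (det hG hK)).mono (by omega))).sub
          ((hG.smul (det hD hK)).mono (by omega)))
        (by
          intro j hj
          by_cases hjl : j = l
          · subst hjl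
            rw [map_sub, map_add, map_smul, map_smul, map_smul, prv, prv, prv]
            refine Prod.ext ?_ ?_ <;>
              simp only [Prod.smul_mk, Prod.mk_add_mk, Prod.mk_sub_mk, smul_eq_mul, Prod.fst_zero,
                Prod.snd_zero] <;> ring
          · exact hz j (hZ j fun h => hj (Finset.mem_erase.2 ⟨hjl, h⟩)))
      exact ⟨z, h1.mono (by rw [pow_succ]; nlinarith), fun j hj => h2 j (hz j hj), h3, h5⟩

/-- The affine polynomial of a coefficient vector. -/
noncomputable def af : V ι F →ₗ[F[X]] MvPolynomial (ι × Fin 2) F[X] where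
  toFun u := aff u.1 u.2.1 u.2.2
  map_add' u v := by
    simp only [aff, Prod.fst_add, Prod.snd_add, Pi.add_apply, map_add, add_mul,
      Finset.sum_add_distrib]
    ring
  map_smul' a u := by
    simp only [aff, Prod.smul_fst, Prod.smul_snd, Pi.smul_apply, smul_eq_mul, map_mul,
      RingHom.id_apply, MvPolynomial.smul_eq_C_mul, mul_add, Finset.mul_sum, mul_assoc]

lemma afv (u : V ι F) : af u = aff u.1 u.2.1 u.2.2 := rfl

lemma SD_af (A c : F) (u : V ι F) :
    SD σ A c G ξ (af u) = af (T σ (C A * (X - C c)) G ξ u) := by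
  rw [afv, afv]
  simp only [aff, SD, map_add, map_sum, map_mul, Sg_C, Sg_X0, Sg_X1, T1, T2, T3, coe_mapRingHom]
  have key : ∀ (a b c' : ι → MvPolynomial (ι × Fin 2) F[X]) (h : MvPolynomial (ι × Fin 2) F[X]),
      (∀ l, a l = b l + c' l) → ∑ l, a l + h = ∑ l, b l + (h + ∑ l, c' l) := by
    intro a b c' h hh
    rw [Finset.sum_congr rfl fun l _ => hh l, Finset.sum_add_distrib]
    ring
  exact key _ _ _ _ fun l => by ring

lemma eq_af (f : MvPolynomial (ι × Fin 2) F[X]) (hf : f.totalDegree ≤ 1) :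
    f = af (fun l => f.coeff (Finsupp.single (l, 0) 1), fun l => f.coeff (Finsupp.single (l, 1) 1),
      f.coeff 0) := by
  classical
  have h1 : f = ∑ v, MvPolynomial.C (f.coeff (Finsupp.single v 1)) * MvPolynomial.X v +
      MvPolynomial.C (f.coeff 0) := by
    ext1 m
    simp only [MvPolynomial.coeff_add, MvPolynomial.coeff_sum, MvPolynomial.coeff_C_mul,
      MvPolynomial.coeff_X, MvPolynomial.coeff_C]
    by_cases h0 : 0 = m
    · subst h0
      simp
    by_cases h1 : ∃ v, Finsupp.single v 1 = m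
    · obtain ⟨v, rfl⟩ := h1
      rw [if_neg h0, add_zero, Finset.sum_eq_single v (fun w _ hw => by
        rw [if_neg fun h => hw (Finsupp.single_left_injective one_ne_zero h), mul_zero]) (by simp)]
      simp
    · rw [if_neg h0, add_zero, Finset.sum_eq_zero fun v _ => by
        rw [if_neg fun h => h1 ⟨v, h⟩, mul_zero]]
      apply MvPolynomial.coeff_eq_zero_of_totalDegree_lt
      have h2 : m.degree ≠ 0 := fun h => h0 ((Finsupp.degree_eq_zero_iff m).1 h).symm
      have h3 : m.degree ≠ 1 := fun h => by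
        have : m ∈ {d : (ι × Fin 2) →₀ ℕ | d.degree = 1} := h
        rw [← Finsupp.range_single_one] at this
        exact h1 this
      have h4 : m.degree = ∑ i ∈ m.support, m i := rfl
      omega
  conv_lhs => rw [h1]
  rw [afv]
  simp only [aff, Fintype.sum_prod_type, Fin.sum_univ_two]

end Tor

open Tor in
theorem tor : TorS := by
  intro n
  refine ⟨4 ^ n, ?_⟩
  intro ι F _ _ σ A c G ξ Sp D f hn hσ hA hf0 hf1 hD hSp hc
  set Mo := Submodule.span F[X] (Set.range fun s : ℕ => (SD σ A c G ξ)^[s] f) with hMo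
  have hS : ∀ g ∈ Mo, SD σ A c G ξ g ∈ Mo := by
    intro g hg
    induction hg using Submodule.span_induction with
    | mem x hx =>
      obtain ⟨s, rfl⟩ := hx
      exact Submodule.subset_span ⟨s + 1, Function.iterate_succ_apply' _ _ _⟩
    | zero => simp
    | add x y _ _ hx hy => rw [map_add]; exact Mo.add_mem hx hy
    | smul a x _ hx =>
      rw [MvPolynomial.smul_eq_C_mul, map_mul, SD, Sg_C, ← MvPolynomial.smul_eq_C_mul]
      exact Mo.smul_mem _ hx
  have hf := eq_af f hf1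
  obtain ⟨z, h1, h2, h3, h4⟩ := desc σ _ G ξ hσ.2 A c hA rfl (Mo.comap af)
    (fun u hu => by
      rw [Submodule.mem_comap, ← SD_af]
      exact hS _ hu)
    (fun u hu h => by
      have k1 : u.1 = 0 := funext fun l => congrArg Prod.fst (h l)
      have k2 : u.2.1 = 0 := funext fun l => congrArg Prod.snd (h l)
      have k3 : af u = MvPolynomial.C u.2.2 := by
        rw [afv]
        simp [aff, k1, k2]
      exact Prod.ext k1 (Prod.ext k2 (hc _ (k3 ▸ hu))))
    n D Finset.univ _ hn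
    (by
      rw [Submodule.mem_comap, ← hf]
      exact Submodule.subset_span ⟨0, rfl⟩)
    (fun h => hf0 (by rw [hf, h, map_zero])) (fun l => ⟨hD _, hD _⟩) (by simp)
  refine ⟨z.1, z.2.1, z.2.2, h1, fun l hl => ?_, h3, ?_⟩
  · have k : ∀ b : Fin 2, f.coeff (Finsupp.single (l, b) 1) = 0 := fun b => by
      by_contra h
      exact hSp (l, b) ((MvPolynomial.mem_vars_iff_mem_support _).2
        ⟨_, MvPolynomial.mem_support_iff.2 h, by simp⟩) hl
    exact Prod.mk.inj (h2 l (Prod.ext (k 0) (k 1)))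
  · rw [← afv, SD_af, SD_af, h4, map_add, map_smul, map_smul, MvPolynomial.smul_eq_C_mul,
      MvPolynomial.smul_eq_C_mul]

end Pool.Agent.DS.Pst
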