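import Pool.Agent.Lib.MP_0c15f2_nt.DS.Pst4
import Pool.Agent.Lib.MP_0c15f2_nt.DS.Tor

/-! A stable module contains a polynomial in the special variables, or there is a solution. -/

namespace Pool.Agent.DS.Pst

open MvPolynomial Finset Pool.Agent.CSU.SA.ND Dt

variable {ι F : Type} [Field F]

lemma wt_split (Sp : Set ι) (δ : ℕ) (α : ι × Fin 2 →₀ ℕ) :
    Finsupp.weight (fun v : ι × Fin 2 => zz Sp v.1 + (δ + 1) * (1 - zz Sp v.1)) α =
      Finsupp.weight (fun v : ι × Fin 2 => zz Sp v.1) α +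
        (δ + 1) * Finsupp.weight (fun v : ι × Fin 2 => 1 - zz Sp v.1) α ∧
    Finsupp.weight (fun _ => 1) α = Finsupp.weight (fun v : ι × Fin 2 => zz Sp v.1) α +
      Finsupp.weight (fun v : ι × Fin 2 => 1 - zz Sp v.1) α := by
  simp only [Finsupp.weight_apply, Finsupp.sum, smul_eq_mul, mul_sum, ← sum_add_distrib]
  refine ⟨sum_congr rfl fun v _ => by ring, sum_congr rfl fun v _ => ?_⟩
  unfold zz
  split_ifs <;> simp

lemma wt_zero {V : Type} {u : V → ℕ} {α : V →₀ ℕ} :
    Finsupp.weight u α = 0 ↔ ∀ v ∈ α.support, u v = 0 := by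
  simp only [Finsupp.weight_apply, Finsupp.sum, sum_eq_zero_iff, smul_eq_mul, mul_eq_zero]
  exact forall₂_congr fun v hv => or_iff_right (Finsupp.mem_support_iff.1 hv)

/-- The polynomials of weight less than `ν`. -/
def BS (u : ι × Fin 2 → ℕ) (ν : ℕ) : Submodule (RatFunc F) (RK ι F) where
  carrier := {y | Bl u ν y}
  add_mem' := Bl.add
  zero_mem' := bl_zero
  smul_mem' c y h := by rw [smul_eq_C_mul]; exact Bl.cmul h c

lemma start [Fintype ι] {D : Dt ι F} {Sp : Set ι} (hx : ∀ l ∈ Sp, D.x l = 0) {δ r E : ℕ}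
    (hr : (δ + 1) ^ (Fintype.card ι * 2) ≤ r) {u : ℕ → MvPolynomial (ι × Fin 2) (Polynomial F)}
    (hu : ∀ s, iK (u s) = D.S^[s] (iK (u 0))) (h0 : u 0 ≠ 0) (hb : Bl (fun _ => 1) (δ + 1) (u 0))
    (hd : ∀ s < r, Td E (u s)) :
    (∃ w : Fin r → Polynomial F, ∑ i, C (w i) * u i ≠ 0 ∧
      ∀ v ∈ (∑ i, C (w i) * u i).vars, v.1 ∈ Sp) ∨
    ∃ m g, 0 < m ∧ g ≠ 0 ∧ Td ((r + 1) * E + E) g ∧ Bl (fun _ => 1) (m + 1) g ∧ NoS Sp g ∧
      D.Pure m (iK g) := by
  classical
  set f := iK (u 0) with hf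
  have hS : ∀ s, Bl (fun _ => 1) (δ + 1) (D.S^[s] f) := fun s => by
    induction s with
    | zero => exact fun α h => hb α (iK_ne.1 h)
    | succ s ih =>
      rw [Function.iterate_succ_apply']
      exact D.S_top (u := fun _ => 1) (fun _ => one_pos) ih
  obtain ⟨k1, k2⟩ := kry D hr hS
  set M := Submodule.span (RatFunc F) (Set.range fun s : ℕ => D.S^[s] f) with hM
  have hMT : ∀ y ∈ M, D.T y ∈ M := fun y hy => stab D.T_C (by
    rintro _ ⟨s, rfl⟩
    cases s with
    | zero => exact k1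
    | succ s =>
      simp only [Function.iterate_succ_apply', TS]
      exact Submodule.subset_span ⟨s, rfl⟩) hy
  have hMb : ∀ y ∈ M, Bl (fun _ => 1) (δ + 1) y := fun y hy =>
    bl_span (by rintro _ ⟨s, rfl⟩; exact hS s) hy
  let U : ι → ℕ := fun l => zz Sp l + (δ + 1) * (1 - zz Sp l)
  have hU : ∀ l, 0 < U l := fun l => by
    simp only [U, zz]
    split_ifs <;> simp
  have hex : ∃ ν, ∃ y ∈ M, y ≠ 0 ∧ Bl (fun v => U v.1) (ν + 1) y :=
    ⟨_, f, Submodule.subset_span ⟨0, rfl⟩, fun h => h0 (map_injective _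
      (RatFunc.algebraMap_injective F) (h.trans (map_zero _).symm)), fun α h =>
      Nat.lt_succ_of_le (le_weightedTotalDegree _ (mem_support_iff.2 h))⟩
  obtain ⟨y, hy, y0, yb⟩ := Nat.find_spec hex
  have hmin := fun μ => Nat.find_min hex (m := μ)
  generalize Nat.find hex = ν at yb hmin
  let N : Submodule (RatFunc F) (RK ι F) := M ⊓ BS (fun v => U v.1) (ν + 1)
  have top : ∀ y ∈ N, y ≠ 0 → ∃ α, coeff α y ≠ 0 ∧ Finsupp.weight (fun v => U v.1) α = ν :=
    fun y hy y0 => by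
      by_contra! h
      have h1 : Bl (fun v => U v.1) ν y := fun α hα =>
        lt_of_le_of_ne (Nat.le_of_lt_succ (hy.2 α hα)) (h α hα)
      obtain ⟨α, hα⟩ := ne_zero_iff.1 y0
      have := h1 α hα
      exact hmin (ν - 1) (by omega) ⟨y, hy.1, y0, h1.mono (by omega)⟩
  obtain ⟨α0, a0, a1⟩ := top y ⟨hy, yb⟩ y0
  set kk := Finsupp.weight (fun v : ι × Fin 2 => zz Sp v.1) α0 with hkk
  set m := Finsupp.weight (fun v : ι × Fin 2 => 1 - zz Sp v.1) α0 with hm
  have bi : ∀ y ∈ N, ∀ α, coeff α y ≠ 0 →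
      Finsupp.weight (fun v : ι × Fin 2 => 1 - zz Sp v.1) α ≤ m ∧
        (Finsupp.weight (fun v => U v.1) α = ν → Finsupp.weight (fun _ => 1) α = m + kk) :=
    fun z hz α hα => by
      have h1 := hz.2 α hα
      have h2 := hMb z hz.1 α hα
      have h3 := hMb y hy α0 a0
      obtain ⟨h4, h5⟩ := wt_split Sp δ α
      obtain ⟨h6, h7⟩ := wt_split Sp δ α0
      rw [← hkk, ← hm] at h6 h7
      simp only [U] at h1 a1 ⊢
      rw [h4] at h1 ⊢
      rw [h5] at h2 ⊢
      generalize Finsupp.weight (fun v : ι × Fin 2 => zz Sp v.1) α = a at *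
      generalize Finsupp.weight (fun v : ι × Fin 2 => 1 - zz Sp v.1) α = b at *
      have h8 : b ≤ m := by
        by_contra h
        have := Nat.mul_le_mul_left (δ + 1) (Nat.succ_le_of_lt (not_le.1 h))
        rw [Nat.mul_succ] at this
        omega
      refine ⟨h8, fun h => ?_⟩
      have h9 : m ≤ b := by
        by_contra h
        have := Nat.mul_le_mul_left (δ + 1) (Nat.succ_le_of_lt (not_le.1 h))
        rw [Nat.mul_succ] at this
        omega
      rw [le_antisymm h8 h9] at h ⊢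
      omega
  obtain ⟨w, w1, w2, w3⟩ := cr (u := fun i : Fin r => u i) (fun i => hd i i.2) (y := y)
    (by simp only [hu]; exact Submodule.span_le.2 (by rintro _ ⟨s, rfl⟩; exact k2 s) hy) a0
  set g0 := ∑ i, C (w i) * u i with hg0
  have gN : iK g0 ∈ N := ⟨by
    rw [hg0, map_sum]
    refine Submodule.sum_mem _ fun i _ => ?_
    rw [map_mul, map_C, hu, ← smul_eq_C_mul]
    exact M.smul_mem _ (Submodule.subset_span ⟨i, rfl⟩),
    fun α hα => yb α (mt (w3 α) (iK_ne.1 hα))⟩
  rcases Nat.eq_zero_or_pos m with m0 | m0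
  · refine Or.inl ⟨w, fun h => w2 (by rw [hg0, h, coeff_zero]), fun v hv => ?_⟩
    obtain ⟨α, hα, hv⟩ := (mem_vars_iff_mem_support _).1 hv
    have := wt_zero.1 (Nat.le_zero.1 (m0 ▸ (bi _ gN α (iK_ne.2 (mem_support_iff.1 hα))).1)) v hv
    by_contra h
    simp [zz, h] at this
  have hp : D.Pure (m + kk) (iK g0) := pure_of_stable hU N
    (fun y hy => ⟨hMT y hy.1, (D.T_top hU hy.2).1⟩) (fun y hy => hy.2) (fun y hy h => by
      by_contra y0
      obtain ⟨α, h1, h2⟩ := top y hy y0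
      have := congrArg (coeff α) h
      rw [coeff_weightedHomogeneousComponent, if_pos h2] at this
      exact h1 this) (fun y hy α hα => by
      rw [coeff_weightedHomogeneousComponent] at hα
      split_ifs at hα with h
      · exact (bi y hy α hα).2 h
      · exact absurd rfl hα) gN
  have hp' : D.Pure (m + kk)
      (weightedHomogeneousComponent (fun v : ι × Fin 2 => zz Sp v.1) kk (iK g0)) := by
    obtain ⟨c, hc⟩ := hp
    refine ⟨c, fun s => ?_⟩
    have : D.T^[s] (weightedHomogeneousComponent (fun v : ι × Fin 2 => zz Sp v.1) kk (iK g0)) =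
        weightedHomogeneousComponent (fun v : ι × Fin 2 => zz Sp v.1) kk (D.T^[s] (iK g0)) := by
      induction s with
      | zero => simp only [Function.iterate_zero_apply]
      | succ s ih => simp only [Function.iterate_succ_apply', ih,
          comp_hom D.T_C (D.T_hom (zz_x hx))]
    rw [this]
    exact (hc s).comp _ _
  let γ := α0.filter fun v => v.1 ∈ Sp
  have hγ : ∀ v ∈ γ.support, v.1 ∈ Sp := fun v hv => by
    rw [Finsupp.support_filter] at hv
    exact (mem_filter.1 hv).2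
  have nz : ∀ β : ι × Fin 2 →₀ ℕ, Finsupp.weight (fun v : ι × Fin 2 => zz Sp v.1) β = 0 ↔
      ∀ v ∈ β.support, v.1 ∉ Sp := fun β => by simp [wt_zero, zz]
  have e0 : γ + α0.filter (fun v => v.1 ∉ Sp) = α0 := Finsupp.filter_add_filter_not _ _
  have e1 : Finsupp.weight (fun v : ι × Fin 2 => zz Sp v.1) (α0.filter fun v => v.1 ∉ Sp) = 0 :=
    (nz _).2 fun v hv => by
      rw [Finsupp.support_filter] at hv
      exact (mem_filter.1 hv).2
  have e2 : Finsupp.weight (fun v : ι × Fin 2 => zz Sp v.1) γ = kk := by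
    rw [hkk, ← e0, map_add, e1, add_zero]
  let g := weightedHomogeneousComponent (fun v : ι × Fin 2 => zz Sp v.1) 0 (g0.divMonomial γ)
  have hg : ∀ β, coeff β g = if Finsupp.weight (fun v : ι × Fin 2 => zz Sp v.1) β = 0 then
      coeff (γ + β) g0 else 0 := fun β => by
    rw [coeff_weightedHomogeneousComponent, coeff_divMonomial]
  have hg' : ∀ β, coeff β g ≠ 0 → Finsupp.weight (fun v : ι × Fin 2 => zz Sp v.1) β = 0 ∧
      coeff (γ + β) g0 ≠ 0 := fun β h => by
    rw [hg] at h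
    split_ifs at h with e
    · exact ⟨e, h⟩
    · exact absurd rfl h
  refine Or.inr ⟨m, g, m0, ne_zero_iff.2 ⟨_, by rwa [hg, if_pos e1, e0]⟩, fun β => ?_,
    fun β h => ?_, fun β h => (nz β).1 (hg' β h).1, hp'.ext hx
      (weightedHomogeneousComponent_isWeightedHomogeneous _ _) hγ
      (fun β h => (nz β).1 (hg' β (iK_ne.1 h)).1) fun β h => ?_⟩
  · rw [hg]
    split_ifs
    · exact w1 _
    · simp
  · have := (bi _ gN _ (iK_ne.2 (hg' β h).2)).1
    rw [map_add] at this
    rw [(wt_split Sp δ β).2, (hg' β h).1]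
    omega
  · rw [coeff_weightedHomogeneousComponent, map_add, e2, (nz β).2 h, if_pos (add_zero _),
      coeff_map, coeff_map, hg, if_pos ((nz β).2 h)]

lemma bl_iff {A V : Type} [CommRing A] {f : MvPolynomial V A} {δ : ℕ} :
    Bl (fun _ => 1) (δ + 1) f ↔ f.totalDegree ≤ δ := by
  simp only [Bl, totalDegree, Finset.sup_le_iff, mem_support_iff, Finsupp.weight_apply,
    smul_eq_mul, mul_one, Nat.lt_succ_iff]

theorem pst : PstS := fun n δ => by
  obtain ⟨κ, hκ⟩ := tor n
  refine ⟨κ * (((δ + 1) ^ (n * 2) + 2) * ((δ + 1) ^ (n * 2) * δ + 1)), ?_⟩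
  intro ι F _ _ _ p _ _ σ A c G ξ Sp E f Mo hn hσ hA hξ hS hf h0 hδ hE
  have hr : (δ + 1) ^ (Fintype.card ι * 2) ≤ (δ + 1) ^ (n * 2) :=
    Nat.pow_le_pow_right (by omega) (by omega)
  generalize (δ + 1) ^ (n * 2) = r at hr ⊢
  obtain ⟨D, hD, hx⟩ := mkD hσ hA c G ξ
  have hi : ∀ (s : ℕ) (y : MvPolynomial (ι × Fin 2) (Polynomial F)),
      iK ((SD σ A c G ξ)^[s] y) = D.S^[s] (iK y) := fun s y => by
    induction s with
    | zero => simp only [Function.iterate_zero_apply]
    | succ s ih => rw [Function.iterate_succ_apply', Function.iterate_succ_apply', hD, ih]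
  have h1 : ∀ s : ℕ, (SD σ A c G ξ)^[s] f ∈ Mo ∧ Bl (fun _ => 1) (δ + 1) ((SD σ A c G ξ)^[s] f) ∧
      Td (E + s * δ) ((SD σ A c G ξ)^[s] f) := fun s => by
    induction s with
    | zero => exact ⟨hf, bl_iff.2 hδ, fun α => (hE α).trans (Nat.le_add_right _ _)⟩
    | succ s ih =>
      rw [Function.iterate_succ_apply']
      refine ⟨hS _ ih.1, fun α h => ?_, (td_SD σ A c G ξ ih.2.1 ih.2.2).mono (by nlinarith)⟩
      rw [← iK_ne, hD] at h
      exact D.S_top (u := fun _ => 1) (fun _ => one_pos) (fun β h => ih.2.1 β (iK_ne.1 h)) α h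
  rcases start (u := fun s => (SD σ A c G ξ)^[s] f) (fun l h => hx l (hξ l h)) hr
    (fun s => hi s f) h0 (h1 0).2.1 (E := E + r * δ)
    (fun s hs => (h1 s).2.2.mono (by nlinarith)) with ⟨w, w0, w1⟩ | ⟨m, g, m0, g0, g1, g2, g3, g4⟩
  · exact Or.inl ⟨_, Submodule.sum_mem _ fun i _ => by
      rw [← smul_eq_C_mul]; exact Mo.smul_mem _ (h1 i).1, w0, w1⟩
  obtain ⟨y, y0, y1, y2, y3, y4⟩ := descent p m g m0 g0 g1 g2 g3 g4
  obtain ⟨a, b, h, h2, h3⟩ := hκ ι F σ A c G ξ Sp _ y hn hσ hA y0 (bl_iff.1 y2) y1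
    (fun v hv => by
      obtain ⟨α, hα, hv⟩ := (mem_vars_iff_mem_support _).1 hv
      exact y3 α (mem_support_iff.1 hα) v hv) fun h hh => by
      have : ∀ z ∈ Submodule.span (Polynomial F) (Set.range fun s : ℕ => (SD σ A c G ξ)^[s] y),
          D.Pure 1 (iK z) := fun z hz => by
        induction hz using Submodule.span_induction with
        | mem z hz =>
          obtain ⟨s, rfl⟩ := hz
          beta_reduce
          rw [hi]
          induction s with
          | zero => exact y4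
          | succ s ih => rw [Function.iterate_succ_apply']; exact ih.map
        | zero => rw [map_zero]; exact pure_zero
        | add a b _ _ ha hb => rw [map_add]; exact ha.add hb
        | smul a z _ hz => rw [smul_eq_C_mul, map_mul, map_C]; exact hz.cmul _
      have h4 := this _ hh
      rw [map_C] at h4
      simpa using h4.eq_zero (bl_of_hom (isWeightedHomogeneous_C _ _))
  have h4 : κ * ((r + 1) * (E + r * δ) + (E + r * δ) + 1) ≤ κ * ((r + 2) * (r * δ + 1)) * (E + 1) := by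
    rw [mul_assoc]
    refine Nat.mul_le_mul_left _ ?_
    generalize r * δ = z
    nlinarith [Nat.zero_le (r * z * E), Nat.zero_le (z * E)]
  exact Or.inr ⟨a, b, h, fun l => ⟨(h2 l).1.trans h4, (h2 l).2.trans h4⟩, h3⟩

end Pool.Agent.DS.Pst
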