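import Pool.Agent.Lib.MP_0c15f2_nt.DS.End
import Pool.Agent.Lib.MP_0c15f2_nt.DS.Lat
import Pool.Agent.Lib.MP_bf776f_nt.SU.Der

/-! The quasi-periodic function at algebraic multiples of a point. -/

namespace Pool.Agent.CSU.SA.DS

open Polynomial Finset

/-- The question of the problem for Drinfeld modules of rank two. -/
def Q1S : Prop :=
  ∀ (k F : Type) [Field k] [Fintype k] [NormedField F] [IsUltrametricDist F] [CompleteSpace F]
    [IsAlgClosed F] [Algebra k F] (D : DM F) (α p : F), D.q = Fintype.card k →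
    1 < ‖D.θ‖ → D.Δ ≠ 0 → IsAlgebraic (IntermediateField.adjoin k {D.θ}) D.g →
    IsAlgebraic (IntermediateField.adjoin k {D.θ}) D.Δ →
    IsAlgebraic (IntermediateField.adjoin k {D.θ}) α → α ^ D.q ≠ α →
    (D.g = 0 → α ^ D.q ^ 2 ≠ α) → p ≠ 0 →
    IsAlgebraic (IntermediateField.adjoin k {D.θ}) (D.qs p) →
    D.ex (α * p) ≠ 0 ∧ Transcendental (IntermediateField.adjoin k {D.θ}) (D.qs (α * p))

namespace Q1

section Alg

variable (K : Type) {F : Type} [Field K] [Field F] [Algebra K F]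

/-- The elements algebraic over `K[T]`. -/
def W (T : Set F) : Subfield F :=
  { (Subalgebra.algebraicClosure (Algebra.adjoin K T) F).toSubring with
    inv_mem' := fun _ h => IsAlgebraic.inv h }

variable {K}

lemma W_gen {T : Set F} {x : F} (h : x ∈ T) : x ∈ W K T :=
  isAlgebraic_algebraMap (⟨x, Algebra.subset_adjoin h⟩ : Algebra.adjoin K T)

lemma W_base (T : Set F) {x : F} (h : IsAlgebraic K x) : x ∈ W K T :=
  h.extendScalars (algebraMap K (Algebra.adjoin K T)).injective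

lemma W_le (T : Set F) : W K ∅ ≤ W K T := fun _ h =>
  IsAlgebraic.tower_top_of_subalgebra_le (Algebra.adjoin_mono (Set.empty_subset T)) h

lemma W_ev (T : Set F) (P : (W K (∅ : Set F))[X]) {x : F} (h : x ∈ W K T) : aeval x P ∈ W K T := by
  rw [aeval_eq_sum_range]
  exact sum_mem fun i _ => mul_mem (W_le T (P.coeff i).2) (pow_mem h i)

lemma W_root (T : Set F) (P : F[X]) (hP : ∀ i, P.coeff i ∈ W K T) (h0 : P.natDegree ≠ 0) {x : F}
    (h : P.eval x ∈ W K T) : x ∈ W K T := by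
  let A := Subalgebra.algebraicClosure (Algebra.adjoin K T) F
  obtain ⟨Q, hQ⟩ : P - C (P.eval x) ∈ lifts (algebraMap A F) :=
    (lifts_iff_coeff_lifts _).2 fun i => ⟨⟨_, (W K T).sub_mem (hP i)
      (show (C (P.eval x)).coeff i ∈ W K T by
        rw [coeff_C]; split_ifs
        exacts [h, zero_mem _])⟩, (coeff_sub _ _ _).symm⟩
  rw [coe_mapRingHom] at hQ
  have h2 : IsAlgebraic A x := ⟨Q, fun e => h0 (by
    rw [← natDegree_sub_C (a := P.eval x), ← hQ, e]; simp), by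
    rw [aeval_def, ← eval_map, hQ]; simp⟩
  exact h2.restrictScalars _

lemma W_dep {m : ℕ} (T : Finset F) (hT : T.card < m) (x : Fin m → F)
    (hx : ∀ i, x i ∈ W K (T : Set F)) : ¬ AlgebraicIndependent K x := fun hi => by
  have h1 : (AlgebraicIndependent.matroid K F).Indep (Set.range x) := hi.to_subtype_range
  have h2 := h1.encard_le_eRk_of_subset (X := (AlgebraicIndependent.matroid K F).closure T) (by
    rintro _ ⟨i, rfl⟩
    rw [AlgebraicIndependent.matroid_closure_eq]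
    exact hx i)
  rw [Matroid.eRk_closure_eq] at h2
  have := hi.injective.encard_range.trans (h2.trans (Matroid.eRk_le_encard _ _))
  rw [Set.encard_coe_eq_coe_finsetCard] at this
  simp at this
  omega

end Alg

section Ok

variable {k F : Type} [Field k] [Fintype k] [NormedField F] [IsUltrametricDist F] [CompleteSpace F]
  [IsAlgClosed F] [Algebra k F] {D : DM F} (h : D.Ok k) (L : Subfield F) (hθ : D.θ ∈ L)
  (hg : D.g ∈ L) (hΔ : D.Δ ∈ L)

/-- Combinations of the three basic functions. -/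
def Rep (D : DM F) (L : Subfield F) (f : F → F) : Prop :=
  ∃ (A B : L) (P : L[X]), ∀ z, f z = A * D.qs z + B * z + aeval (D.ex z) P

omit [IsUltrametricDist F] [CompleteSpace F] [IsAlgClosed F] in
lemma Rep.lin {L : Subfield F} {f g : F → F} (hf : Rep D L f) (hg : Rep D L g) {a : F}
    (ha : a ∈ L) : Rep D L fun z => a * f z + g z := by
  obtain ⟨A, B, P, e⟩ := hf
  obtain ⟨A', B', P', e'⟩ := hg
  refine ⟨⟨a, ha⟩ * A + A', ⟨a, ha⟩ * B + B', C ⟨a, ha⟩ * P + P', fun z => ?_⟩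
  simp only [e, e', map_add, map_mul, aeval_C, Subfield.coe_add, Subfield.coe_mul]
  change _ = _ + _ + (a * _ + _)
  ring

omit [IsAlgClosed F] in
include h hθ hg hΔ in
lemma rep_ph (m : ℕ) : Rep D L (fun z => D.ph z 0 (m + 1) 0) ∧
    Rep D L fun z => D.ph z 0 (m + 2) 0 := by
  obtain ⟨h1, h2, -⟩ := an2 k F D h
  have hq : Rep D L D.qs := ⟨1, 0, 0, fun z => by simp⟩
  have hz : Rep D L id := ⟨0, 1, 0, fun z => by simp⟩
  have he : ∀ n : ℕ, Rep D L fun z => D.ex z ^ n := fun n => ⟨0, 0, X ^ n, fun z => by simp⟩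
  have h0 : Rep D L fun _ => 0 := ⟨0, 0, 0, fun z => by simp⟩
  have hA : ∀ m, D.A m ∈ L := fun m => inv_mem (pow_mem hΔ _)
  have hG : ∀ m, D.G m ∈ L := fun m => neg_mem (mul_mem (pow_mem hg _) (hA m))
  induction m with
  | zero =>
    refine ⟨by simpa only [zero_add, (h2 _).1] using hq, ?_⟩
    convert ((he 1).lin (hz.lin (hq.lin h0 (neg_mem (mul_mem (inv_mem hΔ) hg)))
      (neg_mem (inv_mem hΔ))) (inv_mem hΔ)) using 2 with z
    have := (h2 z).2
    have d0 := h.2.2.2.2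
    simp only [zero_add, id, pow_one, add_zero]
    field_simp
    linear_combination this
  | succ m ih =>
    refine ⟨ih.2, ?_⟩
    convert ih.1.lin (ih.2.lin ((he (D.q ^ (m + 1))).lin h0 (hA (m + 1))) (hG (m + 1)))
      (mul_mem (hA (m + 1)) (sub_mem hθ (pow_mem hθ (D.q ^ (m + 1))))) using 2 with z
    rw [((h1 (m + 1) (by omega)).2.2 z).2.1]
    ring

include h hθ hg hΔ in
lemma rep_end {ψ : F[X]} (hψ : D.Com ψ) (hL : ∀ i, ψ.coeff i ∈ L) :
    Rep D L fun z => D.qs (ψ.coeff 0 * z) := by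
  have h1 := (ends k F D ψ h hψ).2.2
  simp only [D.qs_eq, h1 _ 1 le_rfl, Polynomial.sum_def]
  induction ψ.support using Finset.induction_on with
  | empty => exact ⟨0, 0, 0, fun z => by simp⟩
  | insert a s ha ih =>
    simp only [sum_insert ha, add_comm 1 a]
    exact (rep_ph h L hθ hg hΔ a).1.lin ih (pow_mem (hL a) _)

omit [IsAlgClosed F] in
include h hθ hg hΔ in
lemma rep_poly (hk : ∀ c : k, algebraMap k F c ∈ L) (a : k[X]) :
    ∃ R P : L[X], ∀ z, D.ex (aeval D.θ a * z) = aeval (D.ex z) R ∧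
      D.qs (aeval D.θ a * z) = aeval D.θ a * D.qs z + aeval (D.ex z) P := by
  have w := h.w
  induction a using Polynomial.induction_on with
  | C c =>
    refine ⟨C ⟨_, hk c⟩ * X, 0, fun z => ?_⟩
    rw [aeval_C, w.ex_smul, D.qs_eq, D.qs_eq, w.ph_smul c z 0 one_pos]
    exact ⟨by rw [map_mul, aeval_C, aeval_X]; rfl, by simp⟩
  | add a b ha hb =>
    obtain ⟨R, P, e⟩ := ha
    obtain ⟨R', P', e'⟩ := hb
    refine ⟨R + R', P + P', fun z => ?_⟩
    rw [map_add, add_mul, w.ex_add, D.qs_eq, w.ph_add _ _ 0 one_pos, ← D.qs_eq, ← D.qs_eq,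
      (e z).1, (e z).2, (e' z).1, (e' z).2, map_add, map_add]
    exact ⟨rfl, by ring⟩
  | monomial n c ih =>
    obtain ⟨R, P, e⟩ := ih
    refine ⟨C ⟨_, hθ⟩ * R + C ⟨_, hg⟩ * R ^ D.q + C ⟨_, hΔ⟩ * R ^ D.q ^ 2,
      C ⟨_, hθ⟩ * P + R ^ D.q, fun z => ?_⟩
    have e1 : aeval D.θ (C c * X ^ (n + 1)) = D.θ * aeval D.θ (C c * X ^ n) := by
      simp only [map_mul, map_pow, aeval_X]; ring
    rw [e1, mul_assoc, w.ex_th, w.qs_th, (e z).1, (e z).2, rh]
    simp only [map_add, map_mul, map_pow, aeval_C]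
    refine ⟨rfl, ?_⟩
    change _ = _ + (D.θ * _ + _)
    ring

include h in
lemma aut {a A α : F} (ha : a ≠ 0) (e : ∀ w, a * D.qs (α * w) = A * D.qs w) :
    α ^ D.q ^ 2 = α ∧ (D.g = 0 ∨ α ^ D.q = α) := by
  have w := h.w
  obtain ⟨q1, σ, hσ⟩ := w.fr
  obtain ⟨c, hc⟩ := IsAlgClosed.exists_pow_nat_eq (A / a) (show 0 < D.q by omega)
  have e1 : ∀ z, D.ex (α * z) = ql D.q (C c) (D.ex z) := fun z => by
    have h1 := e (D.θ * z)
    rw [mul_left_comm α, w.qs_th, w.qs_th] at h1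
    rw [ql, sum_C_index (by simp), pow_zero, pow_one]
    apply σ.injective
    rw [hσ, hσ, mul_pow, hc]
    field_simp
    linear_combination h1 - D.θ * e z
  obtain ⟨e2, e3⟩ := h.end_of e1
  rw [coeff_C_zero] at e2
  subst e2
  have e4 : C (c * D.g - D.g * c ^ D.q) * X ^ D.q + C (c * D.Δ - D.Δ * c ^ D.q ^ 2) * X ^ D.q ^ 2 =
      (0 : F[X]) := Polynomial.funext fun x => by
    have := e3 x
    rw [ql, ql, sum_C_index (by simp), sum_C_index (by simp), pow_zero, pow_one, pow_one, rh, rh,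
      mul_pow, mul_pow] at this
    simp only [eval_add, eval_mul, eval_C, eval_pow, eval_X, eval_zero]
    linear_combination this
  have q2 : D.q ≠ D.q ^ 2 := by nlinarith
  have e5 := congrArg (coeff · D.q) e4
  have e6 := congrArg (coeff · (D.q ^ 2)) e4
  simp only [coeff_add, coeff_C_mul, coeff_X_pow, if_true, if_neg q2, if_neg q2.symm, mul_one,
    mul_zero, add_zero, zero_add, coeff_zero] at e5 e6
  refine ⟨mul_left_cancel₀ h.2.2.2.2 (by linear_combination -e6), ?_⟩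
  by_cases g0 : D.g = 0
  · exact Or.inl g0
  · exact Or.inr (mul_left_cancel₀ g0 (by linear_combination -e5))

end Ok

theorem ok (hE : EalS) (hW : WnS) (k F : Type) [Field k] [Fintype k] [NormedField F]
    [IsUltrametricDist F] [CompleteSpace F] [IsAlgClosed F] [Algebra k F] (D : DM F) (α p : F)
    (h : D.Ok k) (hg : IsAlgebraic (IntermediateField.adjoin k {D.θ}) D.g)
    (hΔ : IsAlgebraic (IntermediateField.adjoin k {D.θ}) D.Δ)
    (hα : IsAlgebraic (IntermediateField.adjoin k {D.θ}) α) (h1 : α ^ D.q ≠ α)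
    (h2 : D.g = 0 → α ^ D.q ^ 2 ≠ α) (hp : p ≠ 0)
    (hq : IsAlgebraic (IntermediateField.adjoin k {D.θ}) (D.qs p))
    (hc : D.ex (α * p) = 0 ∨ IsAlgebraic (IntermediateField.adjoin k {D.θ}) (D.qs (α * p))) :
    False := by
  classical
  have hg' := IntermediateField.isAlgebraic_adjoin_iff.1 hg
  have hΔ' := IntermediateField.isAlgebraic_adjoin_iff.1 hΔ
  set K := IntermediateField.adjoin k {D.θ} with hK
  have q1 := h.w.fr.lt
  have α0 : α ≠ 0 := by rintro rfl; exact h1 (zero_pow (by omega))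
  by_cases hI : D.Ind ![p, α * p]
  · obtain ⟨s, hs, hi⟩ := hW k F D 2 _ h hg' hΔ' hI
    obtain ⟨t, t1, t2⟩ : ∃ t, D.ex (α * p) ∈ W K (({p, D.ex p, t} : Finset F) : Set F) ∧
        D.qs (α * p) ∈ W K (({p, D.ex p, t} : Finset F) : Set F) := by
      rcases hc with e | e
      · exact ⟨D.qs (α * p), e ▸ zero_mem _, W_gen (by simp)⟩
      · exact ⟨D.ex (α * p), W_gen (by simp), W_base _ e⟩
    refine W_dep {p, D.ex p, t} (card_le_three.trans_lt (by norm_num)) s (fun j => ?_) hi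
    have t0 : p ∈ W K (({p, D.ex p, t} : Finset F) : Set F) := W_gen (by simp)
    rcases hs j with (⟨i, e⟩ | ⟨i, e⟩) | ⟨i, e⟩ <;> rw [← e] <;> fin_cases i
    exacts [t0, mul_mem (W_base _ hα) t0, W_gen (by simp), t1, W_base _ hq, t2]
  obtain ⟨O, hO, -, hO1, -⟩ := ord k F D h
  simp only [DM.Ind, not_forall, Fin.sum_univ_two, Matrix.cons_val_zero, Matrix.cons_val_one] at hI
  obtain ⟨β, hβ, hs, β0⟩ := hI
  have hs' : β 0 + β 1 * α = 0 := (mul_eq_zero.1 (show (β 0 + β 1 * α) * p = 0 by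
    linear_combination hs)).resolve_right hp
  have β1 : β 1 ≠ 0 := fun e => β0 (funext fun i => by
    rw [e, zero_mul, add_zero] at hs'
    fin_cases i
    exacts [hs', e])
  obtain ⟨-, β', hβ', a, a0, ha⟩ := hO1 _ ((hO _).2 (hβ 1)) β1
  obtain ⟨ψ, ψ0, hψ⟩ := (hO _).1 (O.neg_mem (O.mul_mem hβ' ((hO _).2 (hβ 0))))
  have a1 : aeval D.θ a ≠ 0 := norm_pos_iff.1 (by
    rw [norm_aeval norm_fin h.2.1 a0]; exact pow_pos h.w.θpos _)
  have ψ1 : ψ.coeff 0 = α * aeval D.θ a := by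
    rw [ψ0, ← ha]; linear_combination -β' * hs'
  have θK : IsAlgebraic K D.θ :=
    isAlgebraic_algebraMap (⟨D.θ, IntermediateField.mem_adjoin_simple_self k _⟩ : K)
  have hL : ∀ i, ψ.coeff i ∈ W K (∅ : Set F) := fun i => W_base _
    (IntermediateField.isAlgebraic_adjoin_iff.2 (hE k F D ψ {D.θ} h hψ
      (IntermediateField.isAlgebraic_adjoin_iff.1 θK) hg' hΔ' i))
  have hk : ∀ c : k, algebraMap k F c ∈ W K (∅ : Set F) := fun c => W_base _
    (isAlgebraic_algebraMap (algebraMap k K c))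
  obtain ⟨A, B, P, e1⟩ := rep_end h _ (W_base ∅ θK) (W_base ∅ hg) (W_base ∅ hΔ) hψ hL
  obtain ⟨R, P', e2⟩ := rep_poly h _ (W_base ∅ θK) (W_base ∅ hg) (W_base ∅ hΔ) hk a
  have aL : aeval D.θ a ∈ W K (∅ : Set F) := by
    have := mul_mem (inv_mem (W_base ∅ hα)) (hL 0)
    rwa [ψ1, inv_mul_cancel_left₀ α0] at this
  obtain ⟨v, rfl⟩ : ∃ v, p = aeval D.θ a * v := ⟨p / aeval D.θ a, by field_simp⟩
  have v0 : v ≠ 0 := right_ne_zero_of_mul hp
  have key : ∀ t : F, v ∈ W K (({t} : Finset F) : Set F) →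
      D.ex v ∈ W K (({t} : Finset F) : Set F) → False := fun t t1 t2 => by
    obtain ⟨s, hs, hi⟩ := hW k F D 1 ![v] h hg' hΔ' fun γ _ e => funext fun i => by
      fin_cases i
      simpa [v0] using e
    refine W_dep {t} (by simp) s (fun j => ?_) hi
    rcases hs j with (⟨i, e⟩ | ⟨i, e⟩) | ⟨i, e⟩ <;> rw [← e] <;> fin_cases i
    · exact t1
    · exact t2
    · have := mul_mem (inv_mem (W_le _ aL)) (sub_mem (W_base _ hq) (W_ev _ P' t2))
      rwa [(e2 v).2, add_sub_cancel_right, inv_mul_cancel_left₀ a1] at this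
  rw [← mul_assoc, ← ψ1] at hc
  rcases hc with e | e
  · refine key v (W_gen (by simp)) (W_root _ (ψ.sum fun j c => monomial (D.q ^ j) c)
      (fun i => ?_) ?_ ?_)
    · rw [Polynomial.sum_def, finsetSum_coeff]
      refine sum_mem fun j _ => ?_
      rw [coeff_monomial]; split_ifs
      exacts [W_le _ (hL j), zero_mem _]
    · have : (ψ.sum fun j c => monomial (D.q ^ j) c).coeff (D.q ^ 0) ≠ 0 := by
        simp only [Polynomial.sum_def, finsetSum_coeff, coeff_monomial,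
          (Nat.pow_right_injective q1).eq_iff, sum_ite_eq']
        have : ψ.coeff 0 ≠ 0 := ψ1 ▸ mul_ne_zero α0 a1
        rwa [if_pos (mem_support_iff.2 this)]
      have := le_natDegree_of_ne_zero this
      rw [pow_zero] at this
      omega
    · rw [(ends k F D ψ h hψ).1, ql] at e
      simp only [Polynomial.sum_def, eval_finsetSum, eval_monomial] at e ⊢
      exact e ▸ zero_mem _
  set Q : (W K (∅ : Set F))[X] := C ⟨_, aL⟩ * P - C A * P' with hQ
  have e3 : ∀ z, aeval D.θ a * D.qs (ψ.coeff 0 * z) - A * D.qs (aeval D.θ a * z) =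
      aeval D.θ a * B * z + aeval (D.ex z) Q := fun z => by
    have := e1 z
    simp only at this
    rw [this, (e2 z).2, hQ, map_sub, map_mul, map_mul, aeval_C, aeval_C]
    change _ = _ + (aeval D.θ a * _ - (A : F) * _)
    ring
  have e4 : ∀ T : Set F, aeval D.θ a * B * v + aeval (D.ex v) Q ∈ W K T := fun T => by
    rw [← e3]
    exact sub_mem (mul_mem (W_le _ aL) (W_base _ e)) (mul_mem (W_le _ A.2) (W_base _ hq))
  by_cases Q0 : Q.natDegree = 0
  · by_cases B0 : (B : F) = 0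
    · have q0 : D.qs 0 = 0 := by
        have := h.w.ph_add 0 0 0 (m := 1) (j := 0) one_pos
        rw [add_zero, ← D.qs_eq] at this
        linear_combination -this
      have e5 : ∀ z, aeval (D.ex z) Q = aeval (D.ex 0) Q := fun z => by
        rw [eq_C_of_natDegree_eq_zero Q0, aeval_C, aeval_C]
      have e6 := e3 0
      simp only [mul_zero, q0, sub_zero, zero_add] at e6
      obtain ⟨r1, r2⟩ := aut h (A := A) (α := α) a1 fun w => by
        have := e3 (w / aeval D.θ a)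
        rw [B0, e5, ← e6, ψ1, mul_assoc α, mul_div_cancel₀ _ a1] at this
        linear_combination this
      exact r2.elim (fun g0 => h2 g0 r1) h1
    · refine key (D.ex v) ?_ (W_gen (by simp))
      have := mul_mem (inv_mem (mul_mem (W_le _ aL) (W_le _ B.2)))
        (sub_mem (e4 (({D.ex v} : Finset F) : Set F)) (W_ev _ Q (W_gen (x := D.ex v) (by simp))))
      rwa [add_sub_cancel_right, inv_mul_cancel_left₀ (mul_ne_zero a1 B0)] at this
  · have t1 : v ∈ W K (({v} : Finset F) : Set F) := W_gen (by simp)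
    refine key v t1 (W_root _ (Q.map (algebraMap _ F)) (fun i => ?_) (by rwa [natDegree_map]) ?_)
    · rw [coeff_map]; exact W_le _ (Q.coeff i).2
    · have := sub_mem (e4 _) (mul_mem (mul_mem (W_le _ aL) (W_le _ B.2)) t1)
      rwa [add_sub_cancel_left, aeval_def, ← eval_map] at this

section Nrm

variable {F : Type} [NormedField F] (D : DM F) {g Δ γ : F}
  (h1 : g * γ = D.g * γ ^ D.q) (h2 : Δ * γ = D.Δ * γ ^ D.q ^ 2)
include h1 h2

lemma al_tw (i : ℕ) : (DM.mk D.q D.θ g Δ).al i * γ = D.al i * γ ^ D.q ^ i ∧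
    (DM.mk D.q D.θ g Δ).al (i + 1) * γ = D.al (i + 1) * γ ^ D.q ^ (i + 1) := by
  induction i with
  | zero => exact ⟨by simp [DM.al], by simp [DM.al, div_mul_eq_mul_div, h1]⟩
  | succ i ih =>
    refine ⟨ih.2, ?_⟩
    have e1 := congrArg (· ^ D.q) ih.2
    have e2 := congrArg (· ^ D.q ^ 2) ih.1
    simp only [mul_pow, ← pow_mul, ← pow_succ, ← pow_add] at e1 e2
    rw [DM.al, DM.al, div_mul_eq_mul_div, div_mul_eq_mul_div]
    congr 1
    linear_combination (DM.mk D.q D.θ g Δ).al (i + 1) ^ D.q * h1 +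
      (DM.mk D.q D.θ g Δ).al i ^ D.q ^ 2 * h2 + D.g * e1 + D.Δ * e2

lemma ex_tw (z : F) : (DM.mk D.q D.θ g Δ).ex z * γ = D.ex (γ * z) := by
  rw [DM.ex, DM.ex, ← tsum_mul_right]
  refine tsum_congr fun i => ?_
  rw [mul_pow]
  linear_combination z ^ D.q ^ i * (al_tw D h1 h2 i).1

lemma qs_tw (z : F) : (DM.mk D.q D.θ g Δ).qs z * γ ^ D.q = D.qs (γ * z) := by
  rw [DM.qs, DM.qs, ← tsum_mul_right]
  refine tsum_congr fun i => ?_
  have e1 := congrArg (· ^ D.q) (al_tw D h1 h2 i).1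
  simp only [mul_pow, ← pow_mul, ← pow_succ] at e1
  rw [mul_pow, div_mul_eq_mul_div]
  congr 1
  linear_combination z ^ D.q ^ (i + 1) * e1

end Nrm

end Q1

open Q1 in
theorem q1 (hE : EalS) (hW : WnS) : Q1S := by
  intro k F _ _ _ _ _ _ _ D α p hq hθ hΔ0 hg hΔ hα h1 h2 hp hz
  have q1 : 1 < D.q := hq ▸ Fintype.one_lt_card
  obtain ⟨N, hN⟩ := pow_unbounded_of_one_lt (‖D.g‖ + ‖D.Δ‖) hθ
  have θ0 : D.θ ≠ 0 := norm_pos_iff.1 (one_pos.trans hθ)
  obtain ⟨γ, γ0, γ1, γ2, γK⟩ : ∃ γ : F, γ ≠ 0 ∧ ‖γ‖ ≤ 1 ∧ (‖D.g‖ + ‖D.Δ‖) * ‖γ‖ ≤ 1 ∧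
      IsAlgebraic (IntermediateField.adjoin k {D.θ}) γ := by
    refine ⟨(D.θ ^ N)⁻¹, inv_ne_zero (pow_ne_zero _ θ0), ?_, ?_,
      ((isAlgebraic_algebraMap (⟨D.θ, IntermediateField.mem_adjoin_simple_self k _⟩ :
        IntermediateField.adjoin k {D.θ})).pow N).inv⟩
    · rw [norm_inv, norm_pow]
      exact inv_le_one_of_one_le₀ (one_le_pow₀ hθ.le)
    · rw [norm_inv, norm_pow, ← div_eq_mul_inv, div_le_one (by positivity)]
      exact hN.le
  have q2 : 1 < D.q ^ 2 := by nlinarith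
  have n1 : ∀ (x : F) (m : ℕ), 1 < m → ‖x‖ ≤ ‖D.g‖ + ‖D.Δ‖ → ‖x * γ ^ (m - 1)‖ ≤ 1 :=
    fun x m hm hx => by
      rw [norm_mul, norm_pow]
      exact (mul_le_mul hx (pow_le_of_le_one (norm_nonneg _) γ1 (by omega)) (by positivity)
        (by positivity)).trans γ2
  have n2 : ∀ (x : F) (m : ℕ), 1 < m → x * γ ^ (m - 1) * γ = x * γ ^ m := fun x m hm => by
    rw [mul_assoc, pow_sub_one_mul (by omega)]
  have e1 := ex_tw D (n2 _ _ q1) (n2 _ _ q2)
  have e2 := qs_tw D (n2 _ _ q1) (n2 _ _ q2)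
  have e3 : γ * (α * (p / γ)) = α * p := by field_simp
  have e4 : ∀ z, IsAlgebraic (IntermediateField.adjoin k {D.θ}) (D.qs (γ * z)) →
      IsAlgebraic (IntermediateField.adjoin k {D.θ})
        ((DM.mk D.q D.θ (D.g * γ ^ (D.q - 1)) (D.Δ * γ ^ (D.q ^ 2 - 1))).qs z) := fun z e => by
    have := e.mul (γK.pow D.q).inv
    rwa [← e2, mul_inv_cancel_right₀ (pow_ne_zero _ γ0)] at this
  have H := ok hE hW k F (DM.mk D.q D.θ (D.g * γ ^ (D.q - 1)) (D.Δ * γ ^ (D.q ^ 2 - 1))) α (p / γ)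
    ⟨hq, hθ, n1 _ _ q1 (by simp), n1 _ _ q2 (by simp), mul_ne_zero hΔ0 (pow_ne_zero _ γ0)⟩
    (hg.mul (γK.pow _)) (hΔ.mul (γK.pow _)) hα h1
    (fun e => h2 ((mul_eq_zero.1 e).resolve_right (pow_ne_zero _ γ0))) (div_ne_zero hp γ0)
    (e4 _ (by rwa [mul_div_cancel₀ _ γ0]))
  refine ⟨fun e => H (Or.inl ?_), fun e => H (Or.inr (e4 _ (by rwa [e3])))⟩
  exact (mul_eq_zero.1 ((e1 _).trans (by rw [e3, e]))).resolve_right γ0

theorem q1F (hE : EalS) (hF : FullS) : Q1S :=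
  q1 hE fun k F _ _ _ _ _ _ _ D n u h hg hΔ hu => hF k F D n u h.1 h.2.1 h.2.2.2.2
    (IntermediateField.isAlgebraic_adjoin_iff.2 hg) (IntermediateField.isAlgebraic_adjoin_iff.2 hΔ) hu

end Pool.Agent.CSU.SA.DS
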