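import Pool.Agent.Lib.MP_0c15f2_nt.DS.St

/-! Drinfeld modules of rank two: the special periods. -/

namespace Pool.Agent.CSU.SA.DS

open Polynomial Finset Module

namespace Spc

section Alg

variable {k F : Type} [Field k] [Fintype k] [Field F] [Algebra k F] {σ : F →+* F}

lemma fix_mem {c : F} (h : c ^ Fintype.card k = c) : c ∈ (algebraMap k F).range := by
  have hs : (X ^ Fintype.card k - X : k[X]).Splits := by
    rw [splits_iff_card_roots, FiniteField.roots_X_pow_card_sub_X,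
      FiniteField.X_pow_card_sub_X_natDegree_eq _ Fintype.one_lt_card]
    rfl
  refine hs.mem_range_of_isRoot (FiniteField.X_pow_card_sub_X_ne_zero k Fintype.one_lt_card) ?_
  simp [h]

lemma fix_poly (hσ : ∀ y, σ y = y ^ Fintype.card k) {p : F[X]} (h : p.map σ = p) :
    ∃ b : k[X], b.map (algebraMap k F) = p := by
  refine (mem_lifts p).1 ((lifts_iff_coeff_lifts p).2 fun n => fix_mem ?_)
  rw [← hσ, ← coeff_map, h]

lemma map_fix (hσ : ∀ y, σ y = y ^ Fintype.card k) (b : k[X]) :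
    (b.map (algebraMap k F)).map σ = b.map (algebraMap k F) := by
  ext n
  rw [coeff_map, coeff_map, hσ, ← map_pow, FiniteField.pow_card]

lemma pow_app {q : ℕ} (hσ : ∀ y, σ y = y ^ q) (m : ℕ) (y : F) : (σ ^ m) y = y ^ q ^ m := by
  induction m generalizing y with
  | zero => simp
  | succ m ih => rw [pow_succ', RingHom.mul_def, RingHom.comp_apply, ih, hσ, ← pow_mul, pow_succ]

lemma tw_iter {ι : Type} (σ : F →+* F) (m : ℕ) (f : PP ι F) :
    (tw σ)^[m] f = tw (σ ^ m) f := by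
  induction m with
  | zero =>
    have : (σ ^ 0) = RingHom.id F := rfl
    rw [this, Function.iterate_zero, id, tw, mapRingHom_id, MvPolynomial.map_id]
  | succ m ih =>
    rw [Function.iterate_succ_apply', ih, pow_succ', RingHom.mul_def, tw, tw, tw,
      MvPolynomial.map_map, mapRingHom_comp]

lemma psi_add (q : ℕ) (c g Δ : F) (a a' b : F[X]) (x : F) :
    Psi q c g Δ (a + a') b x = Psi q c g Δ a b x + Psi q c g Δ a' 0 x := by
  unfold Psi
  rw [sum_add_index _ _ _ (by simp) (fun _ _ _ => add_mul _ _ _), sum_zero_index]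
  ring

lemma sd_lin (σ : F →+* F) (A G c : F) (a b : F[X]) :
    SD σ A G c 0 (lin a b) =
      lin (b.map σ * (C A * (X - C c))) (a.map σ + b.map σ * C G) := by
  simp [SD, lin, tw, LL]
  ring

lemma lin_hom (a b : F[X]) : (lin a b).IsHomogeneous 1 :=
  ((MvPolynomial.isHomogeneous_X _ _).C_mul _).add ((MvPolynomial.isHomogeneous_X _ _).C_mul _)

lemma piC_hom (σ : F →+* F) (A G c : F) (a b : F[X]) :
    (PiC σ A G c (lin a b)).IsHomogeneous (1 + 1) := by
  rw [PiC, sd_lin]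
  exact ((MvPolynomial.isHomogeneous_X _ _).mul (lin_hom _ _)).sub
    ((MvPolynomial.isHomogeneous_X _ _).mul (lin_hom _ _))

lemma evp_piC (σ τ : F →+* F) (A G c x : F) (a b : F[X]) (V : Fin 1 × Fin 2 → F) :
    evp x V (tw τ (PiC σ A G c (lin a b))) =
      V (0, 0) * (((a.map σ).map τ).eval x * V (0, 1) + ((b.map σ).map τ).eval x *
        (τ A * (x - τ c) * V (0, 0) + τ G * V (0, 1))) -
      V (0, 1) * ((a.map τ).eval x * V (0, 0) + (b.map τ).eval x * V (0, 1)) := by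
  rw [PiC, sd_lin]
  simp [evp, tw, lin, -mul_eq_mul_left_iff, -sub_left_inj]
  ring

lemma evp_piN (τ : F →+* F) (x : F) (V : Fin 2 × Fin 2 → F) :
    evp x V (tw τ PiN) = V (0, 0) * V (1, 1) - V (1, 0) * V (0, 1) := by
  simp [evp, tw, PiN]

end Alg

lemma near {x y : ℝ} (hx : 1 ≤ x) (hy : 1 < y) : ∃ s : ℕ, y ^ s < x * y ∧ x ≤ y ^ s := by
  classical
  have h : ∃ s : ℕ, x ≤ y ^ s := (pow_unbounded_of_one_lt x hy).imp fun _ h => h.le
  refine ⟨Nat.find h, ?_, Nat.find_spec h⟩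
  rcases hs : Nat.find h with _ | t
  · rw [pow_zero]
    nlinarith
  · have h1 : ¬ x ≤ y ^ t := Nat.find_min h (by omega)
    rw [pow_succ]
    exact mul_lt_mul_of_pos_right (not_le.1 h1) (by linarith)

section An

variable {k F : Type} [Field k] [NormedField F] [Algebra k F] {D : DM F}

/-- The facts about the exponential that are used. -/
structure H (k : Type) [Field k] [Algebra k F] (D : DM F) : Prop where
  q0 : D.q ≠ 0
  add : ∀ y z, D.ex (y + z) = D.ex y + D.ex z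
  sm : ∀ (c : k) z, D.ex (algebraMap k F c * z) = algebraMap k F c * D.ex z
  th : ∀ z, D.ex (D.θ * z) = rh D.q D.θ D.g D.Δ (D.ex z)
  one : D.ex 1 ≠ 0
  padd : ∀ m, 1 ≤ m → ∀ u v, D.ph (u + v) 0 m 0 = D.ph u 0 m 0 + D.ph v 0 m 0
  psm : ∀ m, 1 ≤ m → ∀ (c : k) u,
    D.ph (algebraMap k F c * u) 0 m 0 = algebraMap k F c * D.ph u 0 m 0
  pth : ∀ m, 1 ≤ m → ∀ u, D.ph (D.θ * u) 0 m 0 = D.θ * D.ph u 0 m 0 + D.ex u ^ D.q ^ m
  psum : ∀ m, 1 ≤ m → ∀ u,
    HasSum (fun n => D.θ ^ n * D.ex (u / D.θ ^ (n + 1)) ^ D.q ^ m) (D.ph u 0 m 0)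

lemma H.ex_pow (h : H k D) (i : ℕ) (z : F) :
    D.ex (D.θ ^ i * z) = (rh D.q D.θ D.g D.Δ)^[i] (D.ex z) := by
  induction i with
  | zero => simp
  | succ i ih => rw [pow_succ', mul_assoc, h.th, ih, Function.iterate_succ_apply']

lemma H.ex_per (h : H k D) {z : F} (hz : D.ex z = 0) (i : ℕ) : D.ex (D.θ ^ i * z) = 0 := by
  induction i with
  | zero => simpa using hz
  | succ i ih => rw [pow_succ', mul_assoc, h.th, ih]; simp [rh, h.q0]

lemma H.ex_aeval (h : H k D) (a : k[X]) (z : F) :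
    D.ex (aeval D.θ a * z) = Psi D.q D.θ D.g D.Δ (a.map (algebraMap k F)) 0 (D.ex z) := by
  induction a using Polynomial.induction_on' with
  | add p q hp hq => rw [map_add, add_mul, h.add, hp, hq, Polynomial.map_add, psi_add]
  | monomial n c =>
    rw [aeval_monomial, mul_assoc, h.sm, h.ex_pow, map_monomial, Psi, sum_zero_index,
      sum_monomial_index _ _ (by simp), add_zero]

lemma H.eq_of_ex (h : H k D) {β γ : F} (e : ∀ z, D.ex (β * z) = D.ex (γ * z)) : β = γ := by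
  by_contra hne
  have h0 : β - γ ≠ 0 := sub_ne_zero.2 hne
  have h1 := h.add 1 (γ * (β - γ)⁻¹)
  rw [show 1 + γ * (β - γ)⁻¹ = β * (β - γ)⁻¹ by field_simp; ring, e] at h1
  exact h.one (by linear_combination -h1)

lemma H.ph_pow (h : H k D) {z : F} (hz : D.ex z = 0) {m : ℕ} (hm : 1 ≤ m) (i : ℕ) :
    D.ph (D.θ ^ i * z) 0 m 0 = D.θ ^ i * D.ph z 0 m 0 := by
  induction i with
  | zero => simp
  | succ i ih =>
    rw [pow_succ', mul_assoc, h.pth m hm, ih, h.ex_per hz, zero_pow (pow_ne_zero _ h.q0)]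
    ring

lemma H.ph_aeval (h : H k D) {z : F} (hz : D.ex z = 0) {m : ℕ} (hm : 1 ≤ m) (a : k[X]) :
    D.ph (aeval D.θ a * z) 0 m 0 = aeval D.θ a * D.ph z 0 m 0 := by
  induction a using Polynomial.induction_on' with
  | add p q hp hq => rw [map_add, add_mul, h.padd m hm, hp, hq, add_mul]
  | monomial n c => rw [aeval_monomial, mul_assoc, h.psm m hm, h.ph_pow hz hm, mul_assoc]

lemma H.sum_one (h : H k D) {z : F} (hz : D.ex z = 0) {m : ℕ} (hm : 1 ≤ m) (τ : F →+* F)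
    (a : F[X]) :
    HasSum (fun n => D.θ ^ n * a.sum fun i u =>
      τ u * (rh D.q D.θ D.g D.Δ)^[i] (D.ex (z / D.θ ^ (n + 1))) ^ D.q ^ m)
      ((a.map τ).eval D.θ * D.ph z 0 m 0) := by
  rw [eval_map, eval₂_eq_sum, Polynomial.sum, Finset.sum_mul]
  simp only [Polynomial.sum, Finset.mul_sum]
  refine hasSum_sum fun i _ => ?_
  have := (h.psum m hm (D.θ ^ i * z)).mul_left (τ (a.coeff i))
  rw [h.ph_pow hz hm, ← mul_assoc] at this
  have e : ∀ n : ℕ, D.θ ^ n * (τ (a.coeff i) *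
      (rh D.q D.θ D.g D.Δ)^[i] (D.ex (z / D.θ ^ (n + 1))) ^ D.q ^ m) =
      τ (a.coeff i) * (D.θ ^ n * D.ex (D.θ ^ i * z / D.θ ^ (n + 1)) ^ D.q ^ m) := fun n => by
    rw [← h.ex_pow, mul_div_assoc]
    ring
  simp only [e]
  exact this

lemma H.ph_end (h : H k D) {σ : F →+* F} (hσ : ∀ y, σ y = y ^ D.q) {β : F} {a b : F[X]}
    (hβ : ∀ z, D.ex (β * z) = Psi D.q D.θ D.g D.Δ a b (D.ex z)) {z : F} (hz : D.ex z = 0)
    {m : ℕ} (hm : 1 ≤ m) :
    D.ph (β * z) 0 m 0 = (a.map (σ ^ m)).eval D.θ * D.ph z 0 m 0 +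
      (b.map (σ ^ m)).eval D.θ * D.ph z 0 (m + 1) 0 := by
  refine (h.psum m hm (β * z)).unique ?_
  have := (h.sum_one hz hm (σ ^ m) a).add (h.sum_one hz (m := m + 1) (by omega) (σ ^ m) b)
  convert this using 2 with n
  rw [mul_div_assoc, hβ, ← mul_add, ← pow_app hσ, Psi, map_add, Polynomial.sum, Polynomial.sum,
    map_sum, map_sum, Polynomial.sum, Polynomial.sum]
  congr 2
  · refine Finset.sum_congr rfl fun i _ => ?_
    rw [map_mul, pow_app hσ m ((rh D.q D.θ D.g D.Δ)^[i] _)]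
  · refine Finset.sum_congr rfl fun i _ => ?_
    rw [map_mul, pow_app hσ m (_ ^ D.q), ← pow_mul, ← pow_succ']

end An

end Spc

open Spc in
theorem spc (h1 : An1S) (h2 : An2S) (hL : LatS) (hP : PsiS) (hE : EndS) (hO : OrdS)
    (hEig : EigS) (hN : DenNS) (hC : DenCS) (_ : TwS) : SpcS := by
  intro k F _ _ _ _ _ _ _ D σ hD hσ
  obtain ⟨hU, -, -, hadd, hsm, hth, hnorm, -, -⟩ := h1 k F D hD
  obtain ⟨hph, -, -, -⟩ := h2 k F D hD
  obtain ⟨hsurj, ⟨ω₁, ω₂, ⟨e1, e2, n1, n2, hred, hgen⟩, hdet⟩, -⟩ := hL k F D hD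
  obtain ⟨hP1, hP2, hP3⟩ := hP k F D σ hD hσ
  obtain ⟨O, hO1, hOθ, -, -⟩ := hO k F D hD
  have hq : D.q = Fintype.card k := hD.1
  have hθ : 1 < ‖D.θ‖ := hD.2.1
  have hθ0 : D.θ ≠ 0 := norm_pos_iff.1 (by linarith)
  have hq2 : 1 < D.q := hq ▸ Fintype.one_lt_card
  have h : H k D := ⟨by omega, hadd, hsm, hth,
    fun h0 => by simpa [h0] using hnorm 1 (by simpa using hθ.le),
    fun m hm => (hph m hm).1, fun m hm => (hph m hm).2.1, fun m hm u => ((hph m hm).2.2 u).1,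
    fun m hm u => ((hph m hm).2.2 u).2.2⟩
  have hσ' : ∀ y, σ y = y ^ Fintype.card k := fun y => hq ▸ hσ y
  have hA : D.A 0 ≠ 0 := inv_ne_zero (pow_ne_zero _ hD.2.2.2.2)
  have hit : ∀ i, 0 < i → σ^[i] D.θ ≠ D.θ := by
    intro i hi h0
    rw [← RingHom.coe_pow, pow_app hσ] at h0
    have h3 := pow_lt_pow_right₀ hθ (Nat.one_lt_pow hi.ne' hq2)
    rw [← norm_pow, ← norm_pow, h0, pow_one] at h3
    exact lt_irrefl _ h3
  have hae : ∀ a : k[X], aeval D.θ a ∈ O := fun a =>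
    Algebra.adjoin_le (Set.singleton_subset_iff.2 hOθ) (aeval_mem_adjoin_singleton k D.θ)
  have m1 : 1 ≤ ‖ω₁‖ := by linarith
  have m2 : 1 ≤ ‖ω₂‖ := by linarith
  have hco : ∀ a b : k[X], ‖aeval D.θ a‖ ≤ ‖aeval D.θ a * ω₁ + aeval D.θ b * ω₂‖ ∧
      ‖aeval D.θ b‖ ≤ ‖aeval D.θ a * ω₁ + aeval D.θ b * ω₂‖ := fun a b =>
    ⟨le_trans (by rw [norm_mul]; exact le_mul_of_one_le_right (norm_nonneg _) m1) (hred a b).1,
      le_trans (by rw [norm_mul]; exact le_mul_of_one_le_right (norm_nonneg _) m2) (hred a b).2⟩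
  obtain ⟨s1, a1, b1⟩ := near m1 hθ
  by_cases hei : EigF σ (D.A 0) (D.G 0) D.θ
  · obtain ⟨a, b, hab, hPi⟩ := hEig k F σ _ _ _ hσ' hA hit hei
    obtain ⟨ψ, -, hψ⟩ := hP1 a b (max a.natDegree b.natDegree + 1)
      (lt_of_le_of_lt degree_le_natDegree (by exact_mod_cast (by omega)))
      (lt_of_le_of_lt degree_le_natDegree (by exact_mod_cast (by omega)))
    have hcom : D.Com ψ := fun x => by rw [hψ, hψ]; exact (hP3 a b).2.1.1 hab x
    have hβ : ∀ z, D.ex (ψ.coeff 0 * z) = Psi D.q D.θ D.g D.Δ a b (D.ex z) := fun z => by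
      rw [(hE k F D ψ hD hcom).1, hψ]
    have hβO : ψ.coeff 0 ∈ O := (hO1 _).2 ⟨ψ, rfl, hcom⟩
    generalize ψ.coeff 0 = β at hβ hβO
    have hβ1 : D.ex (β * ω₁) = 0 := by
      have h0 : D.ex 0 = 0 := by linear_combination -hadd 0 0 + congrArg D.ex (add_zero 0)
      rw [hβ, e1, ← h0, ← hβ, mul_zero]
    obtain ⟨p1, p2, hp⟩ := hgen _ hβ1
    have hp2 : aeval D.θ p2 ≠ 0 := by
      intro h0
      rw [h0, zero_mul, add_zero] at hp
      have hβe : β = aeval D.θ p1 := mul_right_cancel₀ (norm_pos_iff.1 (by linarith)) hp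
      have h3 := (hP3 (a - p1.map (algebraMap k F)) b).1 fun x => by
        obtain ⟨z, rfl⟩ := hsurj x
        have h4 := psi_add D.q D.θ D.g D.Δ (a - p1.map (algebraMap k F))
          (p1.map (algebraMap k F)) b (D.ex z)
        rw [sub_add_cancel, ← hβ, ← h.ex_aeval, hβe] at h4
        linear_combination -h4
      exact hPi ((hP3 a b).2.2.2 ⟨h3.2, by rw [sub_eq_zero.1 h3.1]; exact map_fix hσ' p1⟩)
    obtain ⟨c, hc⟩ := pow_unbounded_of_one_lt (‖aeval D.θ p2‖ + ‖β - aeval D.θ p1‖) hθ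
    refine ⟨1, s1, c, fun _ => ω₁, PiC σ (D.A 0) (D.G 0) D.θ (lin a b), le_rfl,
      fun _ => ⟨a1, b1⟩, ?_, ⟨aeval D.θ p2, (hO1 _).1 (hae _), hp2,
        by linarith [norm_nonneg (β - aeval D.θ p1)], fun lam hlam => ?_⟩,
      fun _ => e1, hC k F σ _ _ _ a b hσ' hA hit hab hPi, fun m hm => ?_⟩
    · intro γ _ h0
      rw [Fin.sum_univ_one] at h0
      funext i
      rw [Subsingleton.elim i 0]
      exact (mul_eq_zero.1 h0).resolve_right (norm_pos_iff.1 (by linarith))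
    · obtain ⟨u, v, huv⟩ := hgen lam hlam
      have h3 := hco u v
      rw [← huv] at h3
      refine ⟨fun _ => aeval D.θ u * aeval D.θ p2 + aeval D.θ v * (β - aeval D.θ p1),
        fun _ => ⟨(hO1 _).1 (O.add_mem (O.mul_mem (hae _) (hae _))
          (O.mul_mem (hae _) (O.sub_mem hβO (hae _)))), ?_⟩, ?_⟩
      · refine (norm_add_le _ _).trans ?_
        rw [norm_mul, norm_mul]
        calc _ ≤ ‖lam‖ * ‖aeval D.θ p2‖ + ‖lam‖ * ‖β - aeval D.θ p1‖ := by
              gcongr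
              exacts [h3.1, h3.2]
          _ ≤ _ := by rw [← mul_add]; exact mul_le_mul_of_nonneg_left hc.le (norm_nonneg _)
      · rw [Fin.sum_univ_one, huv]
        linear_combination -(aeval D.θ v) * hp
    · have hA' : (σ ^ m) (D.A 0) = D.A m := by
        rw [DM.A, DM.A, pow_zero, pow_one, map_inv₀, pow_app hσ]
      have hG' : (σ ^ m) (D.G 0) = D.G m := by
        rw [DM.G, DM.G, pow_zero, pow_one, pow_one, map_neg, map_mul, map_inv₀, pow_app hσ,
          pow_app hσ]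
      have hm1 : 1 ≤ m + 1 := by omega
      have f0 := h.ph_end hσ hβ e1 hm
      have f1 := h.ph_end hσ hβ e1 hm1
      have f2 := ((hph m hm).2.2 ω₁).2.1
      rw [e1, zero_pow (pow_ne_zero _ h.q0), mul_zero, add_zero] at f2
      rw [hp, h.padd _ hm, h.ph_aeval e1 hm, h.ph_aeval e2 hm] at f0
      rw [hp, h.padd _ hm1, h.ph_aeval e1 hm1, h.ph_aeval e2 hm1, f2, pow_succ,
        RingHom.mul_def] at f1
      rw [tw_iter, evp_piC, hA', hG', pow_app hσ, Polynomial.map_map, Polynomial.map_map]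
      simp only [Fin.val_zero, Fin.val_one, add_zero]
      rw [← f0, ← f1]
      intro h0
      exact mul_ne_zero hp2 (hdet m hm) (by linear_combination h0)
  · have hEnd : ∀ β, D.End β → ∃ p : k[X], β = aeval D.θ p := by
      rintro _ ⟨ψ, rfl, hcom⟩
      obtain ⟨a, b, hψ⟩ := hP2 ψ
      have hab : Eq2 σ (D.A 0) (D.G 0) D.θ 0 (lin a b) :=
        (hP3 a b).2.1.2 fun x => by rw [← hψ, ← hψ]; exact hcom x
      have hPi : PiC σ (D.A 0) (D.G 0) D.θ (lin a b) = 0 := by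
        by_contra hne
        obtain ⟨γ, j, -, hγ⟩ := (hC k F σ _ _ _ a b hσ' hA hit hab hne).1
        exact hei ⟨_, 1, 1, C γ * (X - C D.θ) ^ j, hne, piC_hom _ _ _ _ _ _, one_ne_zero, by
          rw [map_one, one_mul]; exact hγ⟩
      obtain ⟨rfl, ha⟩ := (hP3 a b).2.2.1 hPi
      obtain ⟨p, rfl⟩ := fix_poly hσ' ha
      exact ⟨p, h.eq_of_ex fun z => by rw [(hE k F D ψ hD hcom).1, hψ, h.ex_aeval]⟩
    obtain ⟨s2, a2, b2⟩ := near m2 hθ
    have hpw : ∀ i : ℕ, 0 < ‖D.θ‖ ^ i := fun i => pow_pos (by linarith) _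
    have hpO : ∀ i : ℕ, D.θ ^ i ∈ O := fun i => O.pow_mem hOθ i
    refine ⟨2, s1 + s2, s1 + s2, ![D.θ ^ s2 * ω₁, D.θ ^ s1 * ω₂], PiN, by omega, ?_, ?_,
      ⟨D.θ ^ (s1 + s2), (hO1 _).1 (hpO _), pow_ne_zero _ hθ0, (norm_pow _ _).le,
        fun lam hlam => ?_⟩, ?_, hN k F σ _ _ _ hσ' hA hit hei, fun m hm => ?_⟩
    · rw [Fin.forall_fin_two]
      simp only [Matrix.cons_val_zero, Matrix.cons_val_one, norm_mul, norm_pow, pow_add]
      refine ⟨⟨?_, ?_⟩, ?_, ?_⟩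
      · nlinarith [mul_lt_mul_of_pos_left a1 (hpw s2)]
      · nlinarith [mul_le_mul_of_nonneg_left b1 (hpw s2).le]
      · nlinarith [mul_lt_mul_of_pos_left a2 (hpw s1)]
      · exact mul_le_mul_of_nonneg_left b2 (hpw s1).le
    · intro γ hγ h0
      obtain ⟨u, hu⟩ := hEnd _ (hγ 0)
      obtain ⟨v, hv⟩ := hEnd _ (hγ 1)
      have h3 := hco (u * X ^ s2) (v * X ^ s1)
      rw [Fin.sum_univ_two] at h0
      simp only [Matrix.cons_val_zero, Matrix.cons_val_one] at h0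
      simp only [map_mul, map_pow, aeval_X, ← hu, ← hv] at h3
      rw [mul_assoc, mul_assoc, h0, norm_zero, norm_le_zero_iff, norm_le_zero_iff] at h3
      funext i
      revert i
      rw [Fin.forall_fin_two]
      exact ⟨(mul_eq_zero.1 h3.1).resolve_right (pow_ne_zero _ hθ0),
        (mul_eq_zero.1 h3.2).resolve_right (pow_ne_zero _ hθ0)⟩
    · obtain ⟨u, v, huv⟩ := hgen lam hlam
      have h3 := hco u v
      rw [← huv] at h3
      refine ⟨![aeval D.θ u * D.θ ^ s1, aeval D.θ v * D.θ ^ s2], ?_, ?_⟩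
      · rw [Fin.forall_fin_two]
        simp only [Matrix.cons_val_zero, Matrix.cons_val_one, norm_mul, norm_pow]
        exact ⟨⟨(hO1 _).1 (O.mul_mem (hae _) (hpO _)), mul_le_mul h3.1
            (pow_le_pow_right₀ hθ.le (by omega)) (hpw _).le (norm_nonneg _)⟩,
          (hO1 _).1 (O.mul_mem (hae _) (hpO _)), mul_le_mul h3.2
            (pow_le_pow_right₀ hθ.le (by omega)) (hpw _).le (norm_nonneg _)⟩
      · rw [Fin.sum_univ_two, huv]
        simp only [Matrix.cons_val_zero, Matrix.cons_val_one]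
        ring
    · rw [Fin.forall_fin_two]
      exact ⟨h.ex_per e1 _, h.ex_per e2 _⟩
    · have hm1 : 1 ≤ m + 1 := by omega
      rw [tw_iter, evp_piN]
      simp only [Matrix.cons_val_zero, Matrix.cons_val_one, Fin.val_zero, Fin.val_one, add_zero]
      rw [h.ph_pow e1 hm, h.ph_pow e1 hm1, h.ph_pow e2 hm, h.ph_pow e2 hm1]
      intro h0
      exact mul_ne_zero (pow_ne_zero (s1 + s2) hθ0) (hdet m hm) (by linear_combination h0)

end Pool.Agent.CSU.SA.DS
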