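import Pool.Agent.Lib.MP_0c15f2_nt.DS.Anm
import Pool.Agent.Lib.MP_0370b2_nt.SA.Tj

/-! Drinfeld modules of rank two: a small relation between the values gives a small relation
between the jets. -/

namespace Pool.Agent.CSU.SA.DS

open Polynomial Finset Filter Topology

theorem Anm.al_mem {F : Type} [NormedField F] (D : DM F) {W : Subfield F} (h1 : D.θ ∈ W)
    (h2 : D.g ∈ W) (h3 : D.Δ ∈ W) (i : ℕ) : D.al i ∈ W := by
  induction i using Nat.twoStepInduction with
  | zero => rw [DM.al]; exact one_mem _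
  | one => rw [DM.al]; exact div_mem h2 (sub_mem (pow_mem h1 _) h1)
  | more i a b =>
    rw [DM.al]
    exact div_mem (add_mem (mul_mem h2 (pow_mem b _)) (mul_mem h3 (pow_mem a _)))
      (sub_mem (pow_mem h1 _) h1)

open SA.Tj Anm in
theorem tj : TjS := by
  intro k F ι _ _ _ _ _ _ _ _ D W CT e a ν v m G hD ha hθW hg hΔ hT hv hG
  have h := hD.w
  have hθ := h.2.1
  have hm : ∀ l, 1 ≤ m l := fun l => by have := (hv l).2.2; omega
  have hA := fun l K => (ap k F D (v l) (m l) a K hD (hv l).1 (hm l)).2.2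
  have hq1 := h.fr.lt
  have hμ : 0 < D.q ^ a := pow_pos (by omega) _
  obtain ⟨σ, hσ⟩ := h.fr.exm a
  obtain ⟨τ, hτ⟩ := h.fr.exm e
  have hE : ∀ w ∈ W, ∀ n, w ^ D.q ^ (n + a) ∈ W.map σ := fun w hw n =>
    ⟨_, pow_mem hw (D.q ^ n), by rw [hσ, ← pow_mul, ← pow_add]⟩
  have hal : ∀ i, D.al i ^ D.q ^ e ∈ W := fun i => by
    rw [← hτ]
    refine al_mem D (W := W.comap τ) ?_ ?_ ?_ i <;> rw [Subfield.mem_comap, hτ]
    exacts [pow_mem hθW _, hg, hΔ]
  have hp : ∀ l K, D.pK (D.q ^ a) (v l) (m l) K ∈ Cf (W.map σ) := fun l K => by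
    obtain ⟨t, ht⟩ := Nat.exists_eq_add_of_le (hv l).2.2
    refine sum_mem fun i _ => mul_mem (cf_C (div_mem (mul_mem ?_ ?_) ?_))
      (pow_mem (sub_mem (cf_C ?_) (cf_X _)) _)
    · rw [show m l = e + (t + a) by omega, pow_add, pow_mul]
      exact hE _ (hal i) t
    · rw [show i + m l = e + (i + t + a) by omega, pow_add, pow_mul]
      exact hE _ (hv l).2.1 _
    · exact ⟨_, sub_mem (pow_mem hθW _) hθW, hσ _⟩
    · rw [show i + m l = i + e + t + a by omega]
      exact hE _ hθW _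
  have hG' : ∀ α, G α ∈ Cf (W.map σ) := fun α i => by
    obtain ⟨w, hw, h1⟩ := hG α i
    exact ⟨w, hw, by rw [hσ, h1]⟩
  have hb : ∀ K, Nb (D.q ^ a) (CT * ‖(val (fun α => taylor D.θ (G α))
      fun l => taylor D.θ (D.pK (D.q ^ a) (v l) (m l) K)).coeff 0‖)
      (val (fun α => taylor D.θ (G α)) fun l => taylor D.θ (D.pK (D.q ^ a) (v l) (m l) K)) :=
    fun K => by
      have h1 := hT (val G fun l => D.pK (D.q ^ a) (v l) (m l) K) fun i => by
        obtain ⟨w, hw, h1⟩ := (sum_mem fun α _ => mul_mem (hG' α)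
          (prod_mem fun l _ => pow_mem (hp l K) (α l : ℕ)) :
            val G (fun l => D.pK (D.q ^ a) (v l) (m l) K) ∈ Cf (W.map σ)) i
        exact ⟨w, hw, h1.symm.trans (hσ w)⟩
      rw [← taylor_coeff_zero] at h1
      have h2 := map_val (taylorAlgHom D.θ : F[X] →ₐ[F] F[X]).toRingHom G
        fun l => D.pK (D.q ^ a) (v l) (m l) K
      exact h2 ▸ h1
  have hc : ∀ l, Cv (D.q ^ a) (fun K => taylor D.θ (D.pK (D.q ^ a) (v l) (m l) K))
      (D.Jm (D.q ^ a) (v l) (m l) 0) := fun l j hj => by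
    have h0 := h.θpos
    have hr : ‖v l‖ / ‖D.θ‖ < 1 := (div_lt_one h0).2 ((hv l).1.trans_lt hθ)
    rw [tendsto_iff_norm_sub_tendsto_zero]
    refine squeeze_zero (fun _ => norm_nonneg _) (fun K => ?_)
      (tendsto_pow_atTop_nhds_zero_of_lt_one (by positivity) hr)
    rw [norm_sub_rev, ← coeff_sub]
    exact (hA l K j hj).trans (pow_le_pow_of_le_one (by positivity) hr.le
      ((Nat.le_add_right K (m l)).trans (Nat.lt_pow_self hq1).le))
  have hc2 := cv_val (fun α => taylor D.θ (G α)) hc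
  have h0 : (val (fun α => taylor D.θ (G α)) fun l => D.Jm (D.q ^ a) (v l) (m l) 0).coeff 0 =
      val (fun α => (G α).eval D.θ) fun l => D.ph (v l) 0 (m l) 0 := by
    have := map_val (constantCoeff : F[X] →+* F) (fun α => taylor D.θ (G α))
      fun l => D.Jm (D.q ^ a) (v l) (m l) 0
    simpa only [constantCoeff_apply, taylor_coeff_zero, cf_lt D _ _ _ hμ] using this
  intro j hj
  rw [← h0]
  exact le_of_tendsto_of_tendsto' (hc2 j hj).norm ((hc2 0 hμ).norm.const_mul CT)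
    fun K => hb K j hj

end Pool.Agent.CSU.SA.DS
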