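import Pool.Agent.Lib.MP_0370b2_nt.SA.Cnt
import Pool.Agent.Lib.MP_0370b2_nt.SA.Grow
import Pool.Agent.Lib.MP_0370b2_nt.SA.HP
import Pool.Agent.Lib.MP_0370b2_nt.SA.Num
import Pool.Agent.Lib.MP_0370b2_nt.SA.QRel
import Pool.Agent.Lib.MP_0370b2_nt.SA.Tau
import Pool.Agent.Lib.MP_0c15f2_nt.DS.Alg
import Pool.Agent.Lib.MP_0c15f2_nt.DS.All
import Pool.Agent.Lib.MP_0c15f2_nt.DS.An1
import Pool.Agent.Lib.MP_0c15f2_nt.DS.Anm
import Pool.Agent.Lib.MP_0c15f2_nt.DS.ApH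
import Pool.Agent.Lib.MP_0c15f2_nt.DS.C1
import Pool.Agent.Lib.MP_0c15f2_nt.DS.Da
import Pool.Agent.Lib.MP_0c15f2_nt.DS.Dat
import Pool.Agent.Lib.MP_0c15f2_nt.DS.Den2
import Pool.Agent.Lib.MP_0c15f2_nt.DS.EigW
import Pool.Agent.Lib.MP_0c15f2_nt.DS.End
import Pool.Agent.Lib.MP_0c15f2_nt.DS.Fb
import Pool.Agent.Lib.MP_0c15f2_nt.DS.Flag
import Pool.Agent.Lib.MP_0c15f2_nt.DS.Gen
import Pool.Agent.Lib.MP_0c15f2_nt.DS.Lat
import Pool.Agent.Lib.MP_0c15f2_nt.DS.ML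
import Pool.Agent.Lib.MP_0c15f2_nt.DS.Mult
import Pool.Agent.Lib.MP_0c15f2_nt.DS.Near
import Pool.Agent.Lib.MP_0c15f2_nt.DS.Nrm
import Pool.Agent.Lib.MP_0c15f2_nt.DS.Psi
import Pool.Agent.Lib.MP_0c15f2_nt.DS.Pst
import Pool.Agent.Lib.MP_0c15f2_nt.DS.Q1
import Pool.Agent.Lib.MP_0c15f2_nt.DS.Spc
import Pool.Agent.Lib.MP_0c15f2_nt.DS.Tj

/-! All blocks together. -/

namespace Pool.Agent.CSU.SA.DS

theorem fullS : FullS :=
  full (all lat ord da (spc an1 an2 lat psi ends ord eig denN denC tws)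
    (c1 SA.tau SA.cnt SA.grow an2 (dat an1 an2) flag ord eal da
      (ml SA.hp anm (fb anm) tj SA.qq SA.num gen (alg Pool.Agent.DS.Pst.pst tws)
        (near an1 lat psi ends) an1 da (hhs an1 an2) fix tws) (mult ap aph)))

/-- The model of the question follows. -/
theorem q1_all : Q1S := q1F eal fullS

end Pool.Agent.CSU.SA.DS
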