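import Pool.Agent.Lib.MP_0370b2_nt.SA.Flag0

/-! A basis adapted to the norm over a discrete subring, with separated levels. -/

namespace Pool.Agent.DS.FO

open Finset Pool.Agent.CSU.SA

variable {F ι : Type} [NormedField F] [IsUltrametricDist F]

/-- More vectors than coordinates: a relation of bounded norm. -/
lemma rel {J : Type} [DecidableEq J] (O : Subring F) (T : Finset ι) : ∀ (I : Finset J) (R : ℝ)
    (w : J → ι → F), 1 ≤ R → T.card < I.card → (∀ j i, w j i ∈ O ∧ ‖w j i‖ ≤ R) →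
    ∃ a : J → F, (∃ j ∈ I, a j ≠ 0) ∧ (∀ j, a j ∈ O ∧ ‖a j‖ ≤ R ^ 3 ^ T.card) ∧
      ∀ i ∈ T, ∑ j ∈ I, a j * w j i = 0 := by
  classical
  induction T using Finset.induction_on with
  | empty =>
    intro I R w hR hI _
    obtain ⟨j, hj⟩ := card_pos.mp hI
    exact ⟨fun _ => 1, ⟨j, hj, one_ne_zero⟩, fun _ => ⟨O.one_mem, by simpa using hR⟩, by simp⟩
  | insert i T hi ih =>
    intro I R w hR hI hw
    rw [card_insert_of_notMem hi] at hI ⊢
    have hR0 : 0 ≤ R := by linarith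
    by_cases h0 : ∀ j ∈ I, w j i = 0
    · obtain ⟨a, h1, h2, h3⟩ := ih I R w hR (by omega) hw
      refine ⟨a, h1, fun j => ⟨(h2 j).1, (h2 j).2.trans (pow_le_pow_right₀ hR
        (Nat.pow_le_pow_right (by omega) (by omega)))⟩, fun i' hi' => ?_⟩
      rcases mem_insert.mp hi' with rfl | h
      · exact sum_eq_zero fun j hj => by rw [h0 j hj, mul_zero]
      · exact h3 i' h
    push Not at h0
    obtain ⟨j0, hj0, hne⟩ := h0
    have hm : ∀ {x y : F} {r s : ℝ}, ‖x‖ ≤ r → ‖y‖ ≤ s → ‖x * y‖ ≤ r * s := fun hx hy => by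
      rw [norm_mul]
      exact mul_le_mul hx hy (norm_nonneg _) ((norm_nonneg _).trans hx)
    obtain ⟨a, ⟨j1, hj1, h1⟩, h2, h3⟩ := ih (I.erase j0) (R * R)
      (fun j i' => w j0 i * w j i' - w j i * w j0 i') (one_le_mul_of_one_le_of_one_le hR hR)
      (by rw [card_erase_of_mem hj0]; omega) (fun j i' => ⟨O.sub_mem
        (O.mul_mem (hw _ _).1 (hw _ _).1) (O.mul_mem (hw _ _).1 (hw _ _).1), by
          rw [sub_eq_add_neg]
          refine (IsUltrametricDist.norm_add_le_max _ _).trans (max_le (hm (hw _ _).2 (hw _ _).2) ?_)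
          rw [norm_neg]
          exact hm (hw _ _).2 (hw _ _).2⟩)
    have hb : (R * R) ^ 3 ^ T.card * R ≤ R ^ 3 ^ (T.card + 1) := by
      rw [← sq, ← pow_mul, ← pow_succ]
      refine pow_le_pow_right₀ hR ?_
      have : 1 ≤ 3 ^ T.card := Nat.one_le_pow _ _ (by omega)
      rw [pow_succ]
      omega
    refine ⟨fun j => if j = j0 then -∑ j ∈ I.erase j0, a j * w j i else a j * w j0 i,
      ⟨j1, mem_of_mem_erase hj1, by
        simpa [(mem_erase.mp hj1).1] using ⟨h1, hne⟩⟩, fun j => ?_, fun i' hi' => ?_⟩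
    · by_cases hj : j = j0
      · simp only [hj, if_true, norm_neg]
        exact ⟨O.neg_mem (O.sum_mem fun j _ => O.mul_mem (h2 j).1 (hw _ _).1),
          IsUltrametricDist.norm_sum_le_of_forall_le_of_nonneg (by positivity) fun j _ =>
            (hm (h2 j).2 (hw _ _).2).trans hb⟩
      · simp only [hj, if_false]
        exact ⟨O.mul_mem (h2 j).1 (hw _ _).1, (hm (h2 j).2 (hw _ _).2).trans hb⟩
    · have e : ∑ j ∈ I.erase j0, a j * (w j0 i * w j i' - w j i * w j0 i') = 0 := by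
        rcases mem_insert.mp hi' with rfl | h
        · exact sum_eq_zero fun j _ => by ring
        · exact h3 i' h
      rw [← add_sum_erase _ _ hj0]
      simp only [if_true]
      rw [neg_mul, sum_mul, ← sum_neg_distrib, ← sum_add_distrib]
      refine Eq.trans ?_ e
      exact sum_congr rfl fun j hj => by rw [if_neg (mem_erase.mp hj).1]; ring

variable [Fintype ι]

/-- Coefficients in `O` of norm at most `‖θ‖ ^ D`. -/
def Sm (O : Subring F) (θ : F) (D : ℕ) (b : ι → F) : Prop := ∀ i, b i ∈ O ∧ ‖b i‖ ≤ ‖θ‖ ^ D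

/-- Lattice vectors of degree at most `D`. -/
def Lt (O : Subring F) (θ : F) (u : ι → F) (D : ℕ) (x : F) : Prop :=
  ∃ b : ι → F, Sm O θ D b ∧ x = ∑ i, b i * u i

variable {O : Subring F} {θ : F}

omit [IsUltrametricDist F] [Fintype ι] in
lemma Sm.mono (hθ : 1 < ‖θ‖) {D D' : ℕ} {b : ι → F} (h : Sm O θ D b) (hD : D ≤ D') :
    Sm O θ D' b := fun i => ⟨(h i).1, (h i).2.trans (pow_le_pow_right₀ hθ.le hD)⟩

omit [IsUltrametricDist F] in
lemma Lt.mono (hθ : 1 < ‖θ‖) {u : ι → F} {D D' : ℕ} {x : F} (h : Lt O θ u D x) (hD : D ≤ D') :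
    Lt O θ u D' x := by
  obtain ⟨b, hb, rfl⟩ := h
  exact ⟨b, hb.mono hθ hD, rfl⟩

lemma Lt.comb {u v : ι → F} {D D' : ℕ} (h : ∀ l, Lt O θ u D (v l)) {g : ι → F}
    (hg : Sm O θ D' g) : Lt O θ u (D' + D) (∑ l, g l * v l) := by
  choose b hb hv using h
  refine ⟨fun i => ∑ l, g l * b l i, fun i => ⟨O.sum_mem fun l _ => O.mul_mem (hg l).1 (hb l i).1,
    IsUltrametricDist.norm_sum_le_of_forall_le_of_nonneg (by positivity) fun l _ => ?_⟩, ?_⟩
  · rw [norm_mul, pow_add]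
    exact mul_le_mul (hg l).2 (hb l i).2 (norm_nonneg _) (by positivity)
  · simp only [hv, mul_sum, sum_mul, mul_assoc]
    exact sum_comm

/-- A chain of length `m` that ends in `x`. -/
def Ch (O : Subring F) (θ : F) (u : ι → F) (D m : ℕ) (x : F) : Prop :=
  ∃ w : ℕ → F, (∀ j ≤ m, Lt O θ u D (w j)) ∧
    (∀ j < m, ‖w (j + 1)‖ * ‖θ‖ ^ (3 ^ Fintype.card ι * D + 1) ≤ ‖w j‖) ∧ w m = x

omit [IsUltrametricDist F] in
lemma Ch.ext {u : ι → F} {D m : ℕ} {x y : F} (h : Ch O θ u D m x) (hy : Lt O θ u D y)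
    (hxy : ‖y‖ * ‖θ‖ ^ (3 ^ Fintype.card ι * D + 1) ≤ ‖x‖) : Ch O θ u D (m + 1) y := by
  obtain ⟨w, h1, h2, rfl⟩ := h
  refine ⟨fun j => if j ≤ m then w j else y, fun j _ => ?_, fun j hj => ?_, by simp⟩
  · by_cases hj : j ≤ m
    · simpa [hj] using h1 j hj
    · simpa [hj] using hy
  · have hj' : j ≤ m := by omega
    by_cases hj2 : j + 1 ≤ m
    · simpa [hj', hj2] using h2 j (by omega)
    · obtain rfl : j = m := by omega
      simpa using hxy

/-- Chains are short. -/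
lemma Ch.lt (hO : ∀ b ∈ O, b ≠ 0 → 1 ≤ ‖b‖) (hθ : 1 < ‖θ‖) {u : ι → F} {D m : ℕ}
    {x : F} (h : Ch O θ u D m x) (hx : x ≠ 0) : m < Fintype.card ι := by
  classical
  by_contra hm
  obtain ⟨w, h1, h2, rfl⟩ := h
  set n := Fintype.card ι with hn
  have hT : ∀ e, (1 : ℝ) ≤ ‖θ‖ ^ e := fun e => one_le_pow₀ hθ.le
  have mono : ∀ i j, i ≤ j → j ≤ m → ‖w j‖ ≤ ‖w i‖ := by
    intro i j hij
    induction j, hij using Nat.le_induction with
    | base => exact fun _ => le_rfl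
    | succ j _ ih =>
      exact fun hj => ((le_mul_of_one_le_right (norm_nonneg _) (hT _)).trans
        (h2 j (by omega))).trans (ih (by omega))
  choose b hb hw using fun j : Fin (n + 1) => h1 j (by omega)
  obtain ⟨a, ⟨j1, -, a0⟩, ha, hr⟩ := rel O univ univ _ b (hT D) (by simp [hn]) hb
  have hs : ∑ j, a j * w j = 0 := by
    simp only [hw, mul_sum, ← mul_assoc]
    rw [sum_comm]
    simp only [← sum_mul, hr _ (mem_univ _), zero_mul, sum_const_zero]
  obtain ⟨j0, hj0, hmin⟩ := exists_min_image (univ.filter fun j => a j ≠ 0) id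
    ⟨j1, by simpa using a0⟩
  have ha0 : a j0 ≠ 0 := (mem_filter.1 hj0).2
  have hp : 0 < ‖w j0‖ := (norm_pos_iff.2 hx).trans_le (mono _ _ (by omega) le_rfl)
  rw [← add_sum_erase _ _ (mem_univ j0), add_eq_zero_iff_eq_neg] at hs
  have h3 : ‖∑ j ∈ univ.erase j0, a j * w j‖ ≤ ‖w j0‖ / ‖θ‖ := by
    refine IsUltrametricDist.norm_sum_le_of_forall_le_of_nonneg (by positivity) fun j hj => ?_
    by_cases haj : a j = 0
    · simp only [haj, zero_mul, norm_zero]; positivity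
    have hlt : (j0 : ℕ) < j := lt_of_le_of_ne (hmin j (by simpa using haj))
      fun h => (mem_erase.1 hj).1 (Fin.ext h.symm)
    obtain ⟨i, hi⟩ : ∃ i, (j : ℕ) = i + 1 := ⟨j - 1, by omega⟩
    have h4 := (h2 i (by omega)).trans (mono j0 i (by omega) (by omega))
    rw [norm_mul, le_div_iff₀ (by positivity), hi]
    refine le_trans ?_ h4
    rw [mul_comm _ ‖w (i + 1)‖, mul_assoc, pow_succ, mul_comm _ D, pow_mul]
    exact mul_le_mul_of_nonneg_left (mul_le_mul_of_nonneg_right (ha j).2 (norm_nonneg _))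
      (norm_nonneg _)
  rw [← norm_neg, ← hs, norm_mul] at h3
  have h5 := (le_mul_of_one_le_left hp.le (hO _ (ha j0).1 ha0)).trans h3
  exact absurd h5 (not_le.2 (div_lt_self hp hθ))

/-- Independence over `O`. -/
def In (O : Subring F) (v : ι → F) : Prop :=
  ∀ g : ι → F, (∀ i, g i ∈ O) → ∑ i, g i * v i = 0 → g = 0

omit [IsUltrametricDist F] in
lemma In.ne {v : ι → F} (h : In O v) (l : ι) : v l ≠ 0 := by
  classical
  intro h0
  have := h (Pi.single l 1) (fun i => by by_cases hi : i = l <;> simp [hi])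
    (sum_eq_zero fun i _ => by
      by_cases hi : i = l
      · rw [hi, h0, mul_zero]
      · simp [hi])
  simpa using congrFun this l

omit [IsUltrametricDist F] in
lemma In.upd [DecidableEq ι] {v : ι → F} (h : In O v) {g : ι → F} (hg : ∀ i, g i ∈ O) {l : ι}
    (hl : g l ≠ 0) : In O (Function.update v l (∑ i, g i * v i)) := by
  intro d hdO hd
  have h1 := h (fun i => d l * g i + if i = l then 0 else d i)
    (fun i => O.add_mem (O.mul_mem (hdO l) (hg i)) (by split_ifs; exacts [O.zero_mem, hdO i])) (by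
    refine Eq.trans ?_ hd
    rw [← add_sum_erase _ (fun i => d i * Function.update v l _ i) (mem_univ l)]
    simp only [add_mul, sum_add_distrib, Function.update_self, mul_sum, mul_assoc]
    congr 1
    rw [← add_sum_erase _ _ (mem_univ l), if_pos rfl, zero_mul, zero_add]
    exact sum_congr rfl fun i hi => by
      rw [if_neg (mem_erase.1 hi).1, Function.update_of_ne (mem_erase.1 hi).1])
  have h2 : d l = 0 := by simpa [hl] using congrFun h1 l
  funext i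
  by_cases hi : i = l
  · rw [hi, h2]; rfl
  · simpa [hi, h2] using congrFun h1 i

/-- The reduced basis. -/
lemma basis (hO : ∀ b ∈ O, b ≠ 0 → 1 ≤ ‖b‖) (hθ : 1 < ‖θ‖) {u : ι → F} (Sp : Set ι)
    (hu : In O u) (h1 : ∀ i, ‖u i‖ ≤ 1) (C P : ℕ) :
    ∃ D, P ≤ D ∧ ∃ v : ι → F, (∀ l, Lt O θ u D (v l)) ∧ (∀ o ∈ Sp, v o = u o) ∧ (∀ l, ‖v l‖ ≤ 1) ∧
      (∀ l, v l ≠ 0) ∧ ∀ g : ι → F, Sm O θ (C * D) g → ∀ l ∉ Sp, g l ≠ 0 →
        ‖v l‖ < ‖∑ i, g i * v i‖ *
          ‖θ‖ ^ (3 ^ Fintype.card ι * ((C + 1) ^ (Fintype.card ι ^ 2 + 1) * P) + 1) := by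
  classical
  set n := Fintype.card ι with hn
  set Dm := (C + 1) ^ (n ^ 2 + 1) * P with hDm
  have hD : ∀ i ≤ n ^ 2 + 1, (C + 1) ^ i * P ≤ Dm := fun i hi =>
    Nat.mul_le_mul_right _ (Nat.pow_le_pow_right (by omega) hi)
  by_contra hcon
  have key : ∀ i ≤ n ^ 2 + 1, ∃ (v : ι → F) (c : ι → ℕ), ∑ l, c l = i ∧
      (∀ l, Lt O θ u ((C + 1) ^ i * P) (v l)) ∧ (∀ o ∈ Sp, v o = u o) ∧ (∀ l, ‖v l‖ ≤ 1) ∧
      In O v ∧ ∀ l, Ch O θ u Dm (c l) (v l) := by
    intro i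
    induction i with
    | zero =>
      have h0 : ∀ l D, Lt O θ u D (u l) := fun l D => ⟨Pi.single l 1, fun i => by
        by_cases hi : i = l <;> simp [hi, one_le_pow₀ hθ.le], by
        rw [sum_eq_single l (fun i _ hi => by simp [hi]) (by simp)]; simp⟩
      exact fun _ => ⟨u, 0, by simp, fun l => h0 l _, fun _ _ => rfl, h1, hu,
        fun l => ⟨fun _ => u l, fun _ _ => h0 l _, fun j hj => absurd hj (by simp), rfl⟩⟩
    | succ i ih =>
      intro hi
      obtain ⟨v, c, hc, hL, ho, hv1, hI, hC⟩ := ih (by omega)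
      by_contra hno
      refine hcon ⟨(C + 1) ^ i * P, Nat.le_mul_of_pos_left _ (by positivity), v, hL, ho, hv1,
        hI.ne, fun g hg l hl hgl => ?_⟩
      by_contra hle
      rw [not_lt] at hle
      have hy : Lt O θ u ((C + 1) ^ (i + 1) * P) (∑ i, g i * v i) :=
        (Lt.comb hL hg).mono hθ (le_of_eq (by ring))
      refine hno ⟨Function.update v l (∑ i, g i * v i), Function.update c l (c l + 1),
        ?_, fun m => ?_, fun o h => by
          rw [Function.update_of_ne (by rintro rfl; exact hl h), ho o h], fun m => ?_,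
        hI.upd (fun i => (hg i).1) hgl, fun m => ?_⟩
      · rw [sum_update_of_mem (mem_univ l), ← hc, ← add_sum_erase _ c (mem_univ l),
          sdiff_singleton_eq_erase]
        ring
      · by_cases hm : m = l
        · rw [hm, Function.update_self]; exact hy
        · rw [Function.update_of_ne hm]
          exact (hL m).mono hθ
            (Nat.mul_le_mul_right _ (Nat.pow_le_pow_right (by omega) (by omega)))
      · by_cases hm : m = l
        · rw [hm, Function.update_self]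
          exact ((le_mul_of_one_le_right (norm_nonneg _) (one_le_pow₀ hθ.le)).trans hle).trans
            (hv1 l)
        · rw [Function.update_of_ne hm]; exact hv1 m
      · by_cases hm : m = l
        · rw [hm, Function.update_self, Function.update_self]
          exact (hC l).ext (hy.mono hθ (hD _ hi)) hle
        · rw [Function.update_of_ne hm, Function.update_of_ne hm]; exact hC m
  obtain ⟨v, c, hc, -, -, -, hI, hC⟩ := key _ le_rfl
  have h2 : ∑ l, c l ≤ ∑ _l : ι, n := sum_le_sum fun l _ => ((hC l).lt hO hθ (hI.ne l)).le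
  rw [hc, sum_const, card_univ, smul_eq_mul, ← hn] at h2
  nlinarith

lemma flag1 (hO : ∀ b ∈ O, b ≠ 0 → 1 ≤ ‖b‖) (hθ : 1 < ‖θ‖) {q : ℕ} (hq2 : 2 ≤ q) {u : ι → F}
    (Sp : Set ι) (hu : In O u) (h1 : ∀ i, ‖u i‖ ≤ 1) (C P : ℕ) :
    ∃ P0, P ≤ P0 ∧ ∃ (v : ι → F) (L : ι → ℕ), (∀ l, Lt O θ u P0 (v l)) ∧ (∀ o ∈ Sp, v o = u o) ∧
      (∀ l, 1 ≤ L l) ∧ (∀ l, ‖v l‖ * ‖θ‖ ^ L l ≤ ‖θ‖) ∧
      (∀ l m, L l < L m → L l * q ^ (C * P0) ≤ L m) ∧
      ∀ g : ι → F, Sm O θ (C * P0) g → ∀ l ∉ Sp, g l ≠ 0 →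
        1 < ‖∑ i, g i * v i‖ * ‖θ‖ ^ (L l * q ^ P0) := by
  classical
  set n := Fintype.card ι with hn
  set C' := 2 * C * (C + 2) ^ (n ^ 2) with hC'
  set A := 3 ^ n * (C' + 1) ^ (n ^ 2 + 1) with hA
  set m := 2 * A + 1 + C + P with hm
  obtain ⟨D, hD, v, hL, ho, hv1, hv0, hNP⟩ := basis hO hθ Sp hu h1 C' (2 * m)
  have hE : 3 ^ n * ((C' + 1) ^ (n ^ 2 + 1) * (2 * m)) + 1 ≤ q ^ (2 * m) := by
    have h2 : m < q ^ m := Nat.lt_pow_self (by omega)
    have h3 : 2 * A + 1 ≤ m := by omega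
    rw [← mul_assoc, ← hA, mul_comm 2 m, pow_mul]
    nlinarith
  have hex : ∀ l, ∃ s : ℕ, 1 < ‖v l‖ * ‖θ‖ ^ s := fun l => by
    have hp := norm_pos_iff.2 (hv0 l)
    obtain ⟨s, hs⟩ := pow_unbounded_of_one_lt (‖v l‖⁻¹) hθ
    exact ⟨s, by rwa [inv_lt_iff_one_lt_mul₀' hp] at hs⟩
  have hs1 : ∀ l, 1 ≤ Nat.find (hex l) := fun l => by
    by_contra h
    have h2 := Nat.find_spec (hex l)
    rw [show Nat.find (hex l) = 0 by omega, pow_zero, mul_one] at h2
    exact absurd (hv1 l) (not_le.2 h2)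
  obtain ⟨P', hP1, hP2, L, hL1, hL2, hL3, hL4⟩ :=
    fl_levels hq2 (fun l => Nat.find (hex l)) hs1 C D (by omega)
  rw [← hn] at hP2
  refine ⟨P' + 1, by omega, v, L, fun l => (hL l).mono hθ (by omega), ho, hL1, fun l => ?_, hL4,
    fun g hg l hl hgl => ?_⟩
  · obtain ⟨t, ht⟩ : ∃ t, L l = t + 1 := ⟨L l - 1, by have := hL1 l; omega⟩
    have h2 := Nat.find_min (hex l) (m := t) (by have := hL2 l; omega)
    rw [ht, pow_succ, ← mul_assoc]
    exact mul_le_of_le_one_left (norm_nonneg _) (not_lt.1 h2)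
  · have h2 := hNP g (hg.mono hθ (by
      calc C * (P' + 1) ≤ C * (2 * ((C + 2) ^ (n ^ 2) * D)) := Nat.mul_le_mul_left _ (by omega)
        _ = C' * D := by rw [hC']; ring)) l hl hgl
    have h3 := Nat.find_spec (hex l)
    refine (h3.trans_le (mul_le_mul_of_nonneg_right h2.le (by positivity))).trans_le ?_
    rw [mul_assoc, ← pow_add]
    refine mul_le_mul_of_nonneg_left (pow_le_pow_right₀ hθ.le ?_) (norm_nonneg _)
    have h4 : q ^ (2 * m) ≤ q ^ P' := Nat.pow_le_pow_right (by omega) (by omega)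
    have h5 := hL3 l
    have h6 : q ^ P' ≤ L l * q ^ P' := Nat.le_mul_of_pos_left _ (hL1 l)
    have h7 : L l * q ^ P' * 2 ≤ L l * q ^ P' * q := Nat.mul_le_mul_left _ hq2
    rw [pow_succ q P', ← mul_assoc (L l), ← hn]
    omega

/-- The flag over `O`; the fixed indices share one level. -/
theorem flagO (hO : ∀ b ∈ O, b ≠ 0 → 1 ≤ ‖b‖) (hθ : 1 < ‖θ‖) {q : ℕ} (hq2 : 2 ≤ q) {u : ι → F}
    (Sp : Set ι) (hu : In O u) (h1 : ∀ i, ‖u i‖ ≤ 1) (C P : ℕ) :
    ∃ (P0 : ℕ) (β : ι → ι → F) (v : ι → F) (L : ι → ℕ), P ≤ P0 ∧ (∀ o ∈ Sp, v o = u o) ∧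
      (∀ l ∈ Sp, ∀ m ∈ Sp, L l = L m) ∧
      (∀ l, (∀ i, β l i ∈ O ∧ ‖β l i‖ ≤ ‖θ‖ ^ P0) ∧ v l = ∑ i, β l i * u i ∧ 1 ≤ L l ∧
        ‖v l‖ * ‖θ‖ ^ L l ≤ ‖θ‖) ∧
      (∀ l m, L l < L m → L l * q ^ (C * P0) ≤ L m) ∧
      ∀ g : ι → F, (∀ i, g i ∈ O ∧ ‖g i‖ ≤ ‖θ‖ ^ (C * P0)) → ∀ l ∉ Sp, g l ≠ 0 →
        1 < ‖∑ i, g i * v i‖ * ‖θ‖ ^ (L l * q ^ P0) := by
  have hex : ∀ l, ∃ s : ℕ, 1 < ‖u l‖ * ‖θ‖ ^ s := fun l => by
    have hp := norm_pos_iff.2 (hu.ne l)
    obtain ⟨s, hs⟩ := pow_unbounded_of_one_lt (‖u l‖⁻¹) hθ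
    exact ⟨s, by rwa [inv_lt_iff_one_lt_mul₀' hp] at hs⟩
  choose s hs using hex
  obtain ⟨P0, hP, v, L, hL, ho, h2, h3, h4, h5⟩ :=
    flag1 hO hθ hq2 Sp hu h1 (C + 1) (P + ∑ l, s l)
  choose β hβ hv using hL
  have hC : C * P0 ≤ (C + 1) * P0 := Nat.mul_le_mul_right _ (by omega)
  have key : ∀ l, ∀ m ∈ Sp, ¬ L l < L m := fun l m hm hlt => by
    have a1 := h4 l m hlt
    have a2 : s m ≤ ∑ l, s l := single_le_sum (f := s) (fun _ _ => Nat.zero_le _) (mem_univ m)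
    have a3 : P0 < q ^ P0 := Nat.lt_pow_self (by omega)
    have a4 : q ^ P0 ≤ q ^ ((C + 1) * P0) :=
      Nat.pow_le_pow_right (by omega) (Nat.le_mul_of_pos_left _ (by omega))
    have a5 : q ^ ((C + 1) * P0) ≤ L l * q ^ ((C + 1) * P0) := Nat.le_mul_of_pos_left _ (h2 l)
    have a6 := h3 m
    rw [ho m hm] at a6
    have a7 : ‖u m‖ * ‖θ‖ ^ (s m + 1) ≤ ‖θ‖ :=
      (mul_le_mul_of_nonneg_left (pow_le_pow_right₀ hθ.le (by omega)) (norm_nonneg _)).trans a6
    rw [pow_succ, ← mul_assoc] at a7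
    nlinarith [hs m]
  exact ⟨P0, β, v, L, by omega, ho, fun l hl m hm =>
    le_antisymm (not_lt.1 (key m l hl)) (not_lt.1 (key l m hm)),
    fun l => ⟨hβ l, hv l, h2 l, h3 l⟩, fun l m h =>
      (Nat.mul_le_mul_left _ (Nat.pow_le_pow_right (by omega) hC)).trans (h4 l m h),
    fun g hg => h5 g (Sm.mono hθ hg hC)⟩

end Pool.Agent.DS.FO
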