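import Pool.Agent.Lib.MP_bf776f_nt.SU.An
import Pool.Agent.Lib.MP_bf776f_nt.SU.Der
import Pool.Agent.Lib.MP_bf776f_nt.SU.ZE0

/-! The period lattice of a rank two Drinfeld module. -/

namespace Pool.Agent.DS0

open Polynomial Pool.Agent.CSU

variable {k F : Type} [Field k] [Fintype k] [NormedField F] [IsUltrametricDist F] [Algebra k F]

/-- What is used about the exponential. -/
structure ExH (k : Type) [Field k] [Fintype k] [Algebra k F] (θ g Δ : F) (ex : F → F) : Prop where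
  hθ : 1 < ‖θ‖
  hΔ : Δ ≠ 0
  add : ∀ a b, ex (a + b) = ex a + ex b
  smul : ∀ (c : k) (z : F), ex (algebraMap k F c * z) = algebraMap k F c * ex z
  fe : ∀ z, ex (θ * z) = θ * ex z + g * ex z ^ Fintype.card k + Δ * ex z ^ Fintype.card k ^ 2
  iso : ∀ z, ‖z‖ ≤ ‖θ‖ → ‖ex z‖ = ‖z‖
  onto : Function.Surjective ex

omit [IsUltrametricDist F] in
theorem hk_fin (c : k) : ‖algebraMap k F c‖ ≤ 1 := by
  by_contra h
  have := pow_lt_pow_right₀ (not_le.1 h) (Fintype.one_lt_card (α := k))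
  rw [← norm_pow, ← norm_pow, fix_k, pow_one] at this
  exact lt_irrefl _ this

/-- the polynomial `ρ_θ` -/
noncomputable def rP (q : ℕ) (θ g Δ : F) : F[X] := C θ * X + C g * X ^ q + C Δ * X ^ q ^ 2

omit [IsUltrametricDist F] in
theorem rP_eval (q : ℕ) (θ g Δ x : F) : (rP q θ g Δ).eval x = θ * x + g * x ^ q + Δ * x ^ q ^ 2 := by
  simp [rP]

omit [IsUltrametricDist F] in
theorem rP_deg {q : ℕ} (hq : 1 < q) (θ g : F) {Δ : F} (hΔ : Δ ≠ 0) :
    (rP q θ g Δ).natDegree = q ^ 2 := by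
  have h1 : q < q ^ 2 := by nlinarith
  rw [rP, natDegree_add_eq_right_of_natDegree_lt, natDegree_C_mul_X_pow _ _ hΔ]
  rw [natDegree_C_mul_X_pow _ _ hΔ]
  refine (natDegree_add_le _ _).trans_lt (max_lt ?_ ?_)
  · exact ((natDegree_C_mul_le _ _).trans natDegree_X_le).trans_lt (by omega)
  · exact (natDegree_C_mul_X_pow_le _ _).trans_lt h1

namespace ExH

variable {θ g Δ : F} {ex : F → F} (h : ExH k θ g Δ ex)
include h

omit [IsUltrametricDist F]

theorem θ0 : θ ≠ 0 := norm_pos_iff.1 (one_pos.trans h.hθ)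

theorem zero : ex 0 = 0 := by simpa using h.add 0 0

theorem sub (a b : F) : ex (a - b) = ex a - ex b := by
  have := h.add (a - b) b
  rw [sub_add_cancel] at this
  rw [this, add_sub_cancel_right]

theorem iter (s : ℕ) (z : F) :
    ex (θ ^ s * z) = (fun x => (rP (Fintype.card k) θ g Δ).eval x)^[s] (ex z) := by
  induction s with
  | zero => simp
  | succ s ih => rw [pow_succ', mul_assoc, h.fe, Function.iterate_succ_apply', ← ih, rP_eval]

theorem ker_aev {z : F} (hz : ex z = 0) (a : k[X]) : ex (aeval θ a * z) = 0 := by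
  induction a using Polynomial.induction_on with
  | C c => rw [aeval_C, h.smul, hz, mul_zero]
  | add a b ha hb => rw [map_add, add_mul, h.add, ha, hb, add_zero]
  | monomial n c ih =>
    rw [pow_succ, ← mul_assoc, map_mul _ _ X, aeval_X, mul_comm _ θ, mul_assoc, h.fe, ih]
    simp [Fintype.card_ne_zero]

theorem big {z : F} (hz : ex z = 0) (h0 : z ≠ 0) : ‖θ‖ < ‖z‖ := by
  by_contra hc
  have := h.iso z (not_lt.1 hc)
  rw [hz, norm_zero] at this
  exact h0 (norm_eq_zero.1 this.symm)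

theorem tors_fin (s : ℕ) :
    {x : F | (fun x => (rP (Fintype.card k) θ g Δ).eval x)^[s] x = 0}.Finite := by
  induction s with
  | zero => simp
  | succ s ih =>
    refine (ih.preimage' (f := fun x => (rP (Fintype.card k) θ g Δ).eval x)
      fun b _ => ?_).subset fun x hx => hx
    have hne : rP (Fintype.card k) θ g Δ - C b ≠ 0 := by
      intro h0
      have := congrArg natDegree h0
      rw [natDegree_sub_C, rP_deg Fintype.one_lt_card _ _ h.hΔ] at this
      simp at this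
    exact (finite_setOfPred_isRoot hne).subset fun x hx => by simpa [sub_eq_zero] using hx

theorem div_lt {z : F} (h0 : z ≠ 0) : ‖z‖ / ‖θ‖ < ‖z‖ := div_lt_self (norm_pos_iff.2 h0) h.hθ

theorem root {z : F} (hz : ex z = 0) : (rP (Fintype.card k) θ g Δ).eval (ex (z / θ)) = 0 := by
  rw [rP_eval, ← h.fe, mul_div_cancel₀ _ h.θ0, hz]

theorem rP_ne : rP (Fintype.card k) θ g Δ ≠ 0 := by
  intro h0
  have := rP_deg (Fintype.one_lt_card (α := k)) θ g h.hΔ
  rw [h0] at this
  exact absurd this.symm (by simp)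

theorem card_roots [IsAlgClosed F] [DecidableEq F] :
    (rP (Fintype.card k) θ g Δ).roots.toFinset.card = Fintype.card k ^ 2 := by
  have hq : ((Fintype.card k : ℕ) : F) = 0 := by
    rw [← map_natCast (algebraMap k F), FiniteField.cast_card_eq_zero, map_zero]
  have hs : (rP (Fintype.card k) θ g Δ).Separable := by
    refine ⟨0, C θ⁻¹, ?_⟩
    simp [rP, derivative_X_pow, hq, ← C_mul, h.θ0]
  rw [Multiset.toFinset_card_of_nodup (nodup_roots hs), IsAlgClosed.card_roots_eq_natDegree,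
    rP_deg Fintype.one_lt_card _ _ h.hΔ]

theorem exists_out [IsAlgClosed F] {w : F} (hw : ex w = 0) :
    ∃ z, ex z = 0 ∧ ∀ a : k[X], z ≠ aeval θ a * w := by
  classical
  by_contra hc
  push Not at hc
  have hsub : (rP (Fintype.card k) θ g Δ).roots.toFinset ⊆
      Finset.univ.image fun c : k => algebraMap k F c * ex (w / θ) := by
    intro x hx
    obtain ⟨z, rfl⟩ := h.onto x
    rw [Multiset.mem_toFinset, mem_roots h.rP_ne, IsRoot, rP_eval, ← h.fe] at hx
    obtain ⟨a, ha⟩ := hc _ hx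
    refine Finset.mem_image.2 ⟨a.coeff 0, Finset.mem_univ _, ?_⟩
    have e : z = aeval θ a.divX * w + algebraMap k F (a.coeff 0) * (w / θ) := by
      rw [← a.X_mul_divX_add, map_add, map_mul, aeval_X, aeval_C] at ha
      have := h.θ0
      field_simp
      linear_combination ha
    rw [e, h.add, h.ker_aev hw, h.smul, zero_add]
  have := (Finset.card_le_card hsub).trans Finset.card_image_le
  rw [h.card_roots, Finset.card_univ] at this
  have := Fintype.one_lt_card (α := k)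
  nlinarith

end ExH

namespace ExH

variable {θ g Δ : F} {ex : F → F} (h : ExH k θ g Δ ex)
include h

theorem ball_fin (R : ℝ) : {z : F | ex z = 0 ∧ ‖z‖ ≤ R}.Finite := by
  obtain ⟨s, hs⟩ := pow_unbounded_of_one_lt R h.hθ
  have hp : θ ^ s ≠ 0 := pow_ne_zero _ h.θ0
  refine Set.Finite.of_injOn (f := fun z => ex (z / θ ^ s)) (fun z hz => ?_) ?_ (h.tors_fin s)
  · show _ = _
    rw [← h.iter, mul_div_cancel₀ _ hp, hz.1]
  · intro a ha b hb hab
    by_contra hne
    have h1 : ex (a / θ ^ s - b / θ ^ s) = 0 := by rw [h.sub]; exact sub_eq_zero.2 hab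
    rw [← sub_div] at h1
    have h2 := h.big h1 (div_ne_zero (sub_ne_zero.2 hne) hp)
    have h3 : ‖a - b‖ ≤ R := by
      rw [sub_eq_add_neg]
      exact (IsUltrametricDist.norm_add_le_max _ _).trans (max_le ha.2 (by simpa using hb.2))
    rw [norm_div, norm_pow, lt_div_iff₀ (pow_pos (one_pos.trans h.hθ) _)] at h2
    nlinarith [h.hθ, pow_pos (one_pos.trans h.hθ) s]

theorem exists_min (p : F → Prop) {z : F} (hz : ex z = 0) (hp : p z) :
    ∃ m, (ex m = 0 ∧ p m) ∧ ∀ x, ex x = 0 → p x → ‖m‖ ≤ ‖x‖ := by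
  obtain ⟨m, hm, hmin⟩ := Set.exists_min_image {x | (ex x = 0 ∧ ‖x‖ ≤ ‖z‖) ∧ p x} norm
    ((h.ball_fin ‖z‖).subset fun x hx => hx.1) ⟨z, ⟨hz, le_rfl⟩, hp⟩
  refine ⟨m, ⟨hm.1.1, hm.2⟩, fun x hx hpx => ?_⟩
  rcases le_total ‖x‖ ‖z‖ with h1 | h1
  · exact hmin x ⟨⟨hx, h1⟩, hpx⟩
  · exact hm.1.2.trans h1

theorem lat0 [IsAlgClosed F] : ∃ om1 om2 : F,
    (∀ z, ex z = 0 ↔ ∃ a1 a2 : k[X], z = aeval θ a1 * om1 + aeval θ a2 * om2) ∧
    (∀ a1 a2 : k[X], ‖aeval θ a1 * om1 + aeval θ a2 * om2‖ =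
      max ‖aeval θ a1 * om1‖ ‖aeval θ a2 * om2‖) ∧
    ex (om1 / θ) * ex (om2 / θ) ^ Fintype.card k -
      ex (om2 / θ) * ex (om1 / θ) ^ Fintype.card k ≠ 0 ∧ ‖θ‖ < ‖om1‖ ∧ ‖om1‖ ≤ ‖om2‖ := by
  classical
  have hk := hk_fin (k := k) (F := F)
  have um := IsUltrametricDist.norm_add_le_max (S := F)
  have t0 := h.θ0
  have tp : 0 < ‖θ‖ := one_pos.trans h.hθ
  obtain ⟨z1, hz1, hz1'⟩ := h.exists_out h.zero
  obtain ⟨w1, ⟨e1, n1⟩, m1⟩ := h.exists_min (· ≠ 0) hz1 (by simpa using hz1' 0)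
  obtain ⟨z2, hz2, hz2'⟩ := h.exists_out e1
  obtain ⟨w2, ⟨e2, n2⟩, m2⟩ := h.exists_min (fun z => ∀ a : k[X], z ≠ aeval θ a * w1) hz2 hz2'
  have n20 : w2 ≠ 0 := by simpa using n2 0
  have h12 : ‖w1‖ ≤ ‖w2‖ := m1 _ e2 n20
  have hlat : ∀ a1 a2 : k[X], ex (aeval θ a1 * w1 + aeval θ a2 * w2) = 0 := fun a1 a2 => by
    rw [h.add, h.ker_aev e1, h.ker_aev e2, add_zero]
  have hc : ∀ (c : k) (z : F), ‖algebraMap k F c * z‖ ≤ ‖z‖ := fun c z => by
    rw [norm_mul]; exact mul_le_of_le_one_left (norm_nonneg _) (hk c)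
  -- injectivity on `k × k`
  have inj : ∀ c1 c2 : k, ex ((algebraMap k F c1 * w1 + algebraMap k F c2 * w2) / θ) = 0 →
      c1 = 0 ∧ c2 = 0 := by
    intro c1 c2 hz
    have h2 : c2 = 0 := by
      by_contra h2
      have := m2 _ hz fun a ha => n2 (C c2⁻¹ * (X * a - C c1)) (by
        have hc2 : algebraMap k F c2 ≠ 0 := (_root_.map_ne_zero _).2 h2
        rw [div_eq_iff t0] at ha
        simp only [map_mul, map_sub, aeval_C, aeval_X, map_inv₀]
        field_simp
        linear_combination ha)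
      rw [norm_div] at this
      refine absurd (this.trans (div_le_div_of_nonneg_right ?_ tp.le)) (not_le.2 (h.div_lt n20))
      exact (um _ _).trans (max_le ((hc _ _).trans h12) (hc _ _))
    refine ⟨?_, h2⟩
    by_contra h1
    rw [h2, map_zero, zero_mul, add_zero] at hz
    have := m1 _ hz (div_ne_zero (mul_ne_zero ((_root_.map_ne_zero _).2 h1) n1) t0)
    rw [norm_div] at this
    exact absurd (this.trans (div_le_div_of_nonneg_right (hc _ _) tp.le)) (not_le.2 (h.div_lt n1))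
  have surj : ∀ z, ex z = 0 → ∃ c1 c2 : k,
      ex ((z - (algebraMap k F c1 * w1 + algebraMap k F c2 * w2)) / θ) = 0 := by
    intro z hz
    have himg : (Finset.univ.image fun c : k × k =>
        ex ((algebraMap k F c.1 * w1 + algebraMap k F c.2 * w2) / θ)) =
        (rP (Fintype.card k) θ g Δ).roots.toFinset := by
      refine Finset.eq_of_subset_of_card_le (fun x hx => ?_) ?_
      · obtain ⟨c, -, rfl⟩ := Finset.mem_image.1 hx
        rw [Multiset.mem_toFinset, mem_roots h.rP_ne]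
        exact h.root (by simpa using hlat (C c.1) (C c.2))
      · rw [h.card_roots, Finset.card_image_of_injective, Finset.card_univ, Fintype.card_prod, sq]
        intro c d hcd
        have := inj (c.1 - d.1) (c.2 - d.2) (by
          rw [← sub_eq_zero.2 hcd, ← h.sub]; congr 1; simp only [map_sub]; ring)
        exact Prod.ext (sub_eq_zero.1 this.1) (sub_eq_zero.1 this.2)
    have : ex (z / θ) ∈ (rP (Fintype.card k) θ g Δ).roots.toFinset := by
      rw [Multiset.mem_toFinset, mem_roots h.rP_ne]; exact h.root hz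
    rw [← himg] at this
    obtain ⟨c, -, hc⟩ := Finset.mem_image.1 this
    exact ⟨c.1, c.2, by rw [sub_div, h.sub, hc, sub_self]⟩
  refine ⟨w1, w2, fun z => ⟨fun hz => ?_, ?_⟩, fun a1 a2 => ?_, fun hM => ?_, h.big e1 n1, h12⟩
  · by_contra hn
    obtain ⟨m, ⟨em, pm⟩, mm⟩ := h.exists_min
      (fun z => ¬ ∃ a1 a2 : k[X], z = aeval θ a1 * w1 + aeval θ a2 * w2) hz hn
    obtain ⟨c1, c2, hcc⟩ := surj m em
    have hm2 : ‖w2‖ ≤ ‖m‖ := m2 m em fun a ha => pm ⟨a, 0, by simpa using ha⟩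
    have := mm _ hcc fun ⟨a1, a2, ha⟩ => pm ⟨X * a1 + C c1, X * a2 + C c2, by
      rw [div_eq_iff t0] at ha
      simp only [map_mul, map_add, aeval_C, aeval_X]
      linear_combination ha⟩
    rw [norm_div] at this
    refine absurd (this.trans (div_le_div_of_nonneg_right ?_ tp.le))
      (not_le.2 (h.div_lt (z := m) fun h0 => pm ⟨0, 0, by simp [h0]⟩))
    rw [sub_eq_add_neg]
    refine (um _ _).trans (max_le le_rfl ?_)
    rw [norm_neg]
    exact (um _ _).trans (max_le ((hc _ _).trans (h12.trans hm2)) ((hc _ _).trans hm2))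
  · rintro ⟨a1, a2, rfl⟩
    exact hlat a1 a2
  · have h2 : ‖aeval θ a2 * w2‖ ≤ ‖aeval θ a1 * w1 + aeval θ a2 * w2‖ := by
      rcases eq_or_ne a2 0 with rfl | ha2
      · rw [map_zero, zero_mul, norm_zero]; exact norm_nonneg _
      have e : aeval θ a1 * w1 + aeval θ a2 * w2 =
          aeval θ a2 * (aeval θ (a1 / a2) * w1 + w2) + aeval θ (a1 % a2) * w1 := by
        conv_lhs => rw [← EuclideanDomain.div_add_mod a1 a2]
        simp only [map_add, map_mul]; ring
      have hb : ‖w2‖ ≤ ‖aeval θ (a1 / a2) * w1 + w2‖ :=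
        m2 _ (by simpa using hlat (a1 / a2) 1) fun a ha => n2 (a - a1 / a2) (by
          rw [map_sub]; linear_combination ha)
      have hr : ‖aeval θ (a1 % a2)‖ < ‖aeval θ a2‖ := by
        rw [norm_aeval hk h.hθ ha2]
        rcases eq_or_ne (a1 % a2) 0 with h0 | h0
        · rw [h0]; simpa using pow_pos tp _
        · rw [norm_aeval hk h.hθ h0]
          exact pow_lt_pow_right₀ h.hθ (natDegree_lt_natDegree h0 (degree_mod_lt _ ha2))
      have h3 : ‖aeval θ a2 * w2‖ ≤ ‖aeval θ a2 * (aeval θ (a1 / a2) * w1 + w2)‖ := by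
        rw [norm_mul, norm_mul]; exact mul_le_mul_of_nonneg_left hb (norm_nonneg _)
      have h4 : ‖aeval θ (a1 % a2) * w1‖ < ‖aeval θ a2 * w2‖ := by
        rw [norm_mul, norm_mul]
        exact mul_lt_mul hr h12 (norm_pos_iff.2 n1) (norm_nonneg _)
      rw [e, IsUltrametricDist.norm_add_eq_max_of_norm_ne_norm (h4.trans_le h3).ne']
      exact h3.trans (le_max_left _ _)
    refine le_antisymm (um _ _) (max_le ?_ h2)
    have := um (aeval θ a1 * w1 + aeval θ a2 * w2) (-(aeval θ a2 * w2))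
    rwa [add_neg_cancel_right, norm_neg, max_eq_left h2] at this
  · have x1 : ex (w1 / θ) ≠ 0 := fun h0 => one_ne_zero (inj 1 0 (by simpa using h0)).1
    obtain ⟨c, hc⟩ := fix_mem (k := k) (c := ex (w2 / θ) / ex (w1 / θ)) (by
      rw [div_pow, div_eq_div_iff (pow_ne_zero _ x1) x1]; linear_combination hM)
    refine one_ne_zero (inj (-c) 1 ?_).2
    rw [add_div, mul_div_assoc, mul_div_assoc, h.add, h.smul, h.smul, map_neg, hc, map_one]
    field_simp
    ring

end ExH

end Pool.Agent.DS0
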