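import Pool.Agent.Lib.MP_0c15f2_nt.DS.MLa

/-! The measure for one level in rank two. -/

namespace Pool.Agent.CSU.SA.DS

open Polynomial Finset Module

theorem ml (hHP : HPS) (hAn : AnmS) (hFb : FbS) (hTj : TjS) (hQq : QqS) (hNum : NumS)
    (hGen : GenS) (hAlg : AlgS) (hNear : NearS) (hA1 : An1S) (hDa : DaS) (hHh : HhS)
    (hFix : FixS) (hTw : TwS) : MlS := by
  intro k _ _ n hn
  have hq : 2 ≤ Fintype.card k := Fintype.one_lt_card
  obtain ⟨c0, hc0, H0⟩ := hHP n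
  obtain ⟨a, ν, δ, ha, hν, hcnt, hnum⟩ := hNum _ n (3 * c0 + 4) hq hn
  refine ⟨3 * c0 + 4, a, ν, by omega, ha, hcnt, ?_⟩
  intro F _ _ _ _ _ D σ r s ω Pi U W e C1 CT hD hσ hg hΔ hSq hU hPar hgr hUW hkW hTau
  obtain ⟨κ0, M0⟩ := hAlg (Fintype.card k) n (n * δ) s
  obtain ⟨h1, hθU, hgU, hΔU, hiU⟩ := hPar
  have hcc := M7.cc_pw hUW hkW a
  have hθ := hD.2.1
  have hqk := hD.1.symm
  rw [hqk] at hq hν hnum hcc M0
  have hsur : Function.Surjective σ := fun y => by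
    obtain ⟨x, hx⟩ := IsAlgClosed.exists_pow_nat_eq y (show 0 < D.q by omega)
    exact ⟨x, (hσ x).trans hx⟩
  obtain ⟨T, t1, t2, t3, hT⟩ := ML.pre hDa hHh hFix hTw s CT hD hσ hsur
    (show 1 ≤ e + a by omega) hg hΔ hSq
  obtain ⟨hunc, -, -, -, -, -, hex, -⟩ := hA1 k F D hD
  have hAU : D.A (e + a) ∈ U ^ D.q ^ a := by
    rw [← ML.A_pow]; exact Submodule.pow_mem_pow _ hiU _
  have hGU0 : D.G (e + a) ∈ U ^ (2 * D.q ^ a) := by
    rw [← ML.G_pow D hσ]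
    exact M7.pw_pow (neg_mem (sq U ▸ Submodule.mul_mem_mul hgU hiU)) _
  have hA0 : D.A (e + a) ≠ 0 := inv_ne_zero (pow_ne_zero _ hD.2.2.2.2)
  have hAn' := fun u μ => hAn k F D u σ μ hD hσ
  set μ := D.q ^ a with hμ
  set E := e + a with hE
  set lam := ((n * δ + 1) ^ n) ^ 2 * (n * δ + μ) + (n * δ + 1) ^ n + 1 with hlam
  have hμ1 : 1 ≤ μ := Nat.one_le_pow _ _ (by omega)
  have hθ0 : 0 < ‖D.θ‖ := by positivity
  obtain ⟨M, m1, m2, m3, m4, m5, m6, m7, m8, m9, m10⟩ : ∃ M, n + 2 ≤ M ∧ μ ^ (n + 1) ≤ M ∧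
      (n * δ + 1) ^ n ≤ M ∧ δ ≤ M ∧ D.q ^ E + 2 ≤ M ∧ D.q ^ lam ≤ M ∧ T ≤ M ∧ C1 ≤ M ∧
      4 * κ0 * μ ≤ M ∧ D.q + 1 ≤ M :=
    ⟨n + 2 + μ ^ (n + 1) + (n * δ + 1) ^ n + δ + (D.q ^ E + 2) + D.q ^ lam + T + C1 + 4 * κ0 * μ +
      (D.q + 1), by omega⟩
  obtain ⟨P1, hP1⟩ := M7.big hq (20 * M ^ 5)
  refine ⟨4 * κ0 * μ, P1 + 1, ?_⟩
  intro P hP ι _ _ v L Sp G α0 hj0 hL hv hSp hNP hG hG0 hmax
  by_contra hcon
  rw [not_lt] at hcon
  have hj : Fintype.card (ι × Fin 2) ≤ n := by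
    rw [Fintype.card_prod, Fintype.card_fin]; omega
  obtain ⟨d, hd1, hd2⟩ := hnum _ hj P (by omega)
  have hY := hP1 P (by omega)
  rw [mul_assoc, ← mul_pow] at hY
  have hMB : M ≤ M * (P + 1) := Nat.le_mul_of_pos_right _ (by omega)
  have hPB : P + 1 ≤ M * (P + 1) := Nat.le_mul_of_pos_left _ (by omega)
  have hμM : μ ≤ M := (Nat.le_self_pow (by omega) _).trans m2
  have hdμ : d ≤ μ * P := le_trans (Nat.le_add_right _ _) hd1
  have hdB : d ≤ M * (P + 1) := hdμ.trans (Nat.mul_le_mul hμM (by omega))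
  have hκB : 4 * κ0 * μ * P ≤ M * (P + 1) := Nat.mul_le_mul m9 (by omega)
  generalize M * (P + 1) = B at *
  have hB1 : 1 ≤ B := by omega
  have hB5 : B ≤ B ^ 5 := Nat.le_self_pow (by omega) _
  have hμj : μ ^ (Fintype.card (ι × Fin 2) + 1) ≤ B :=
    (Nat.pow_le_pow_right hμ1 (by omega)).trans (m2.trans hMB)
  have hδj : (Fintype.card (ι × Fin 2) * δ + 1) ^ Fintype.card (ι × Fin 2) ≤ (n * δ + 1) ^ n := by
    gcongr; omega
  have hqc : D.q ^ ((3 * c0 + 4) * P) = (D.q ^ P) ^ (3 * c0 + 4) := by rw [mul_comm, pow_mul]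
  rw [hqc] at hcon
  set Y := D.q ^ P with hYd
  have hY3 : Y ≤ Y ^ 3 := Nat.le_self_pow (by omega) _
  set G0 := (G α0).eval D.θ with hG0d
  have hG0' : 0 < ‖G0‖ := norm_pos_iff.2 hG0
  let y : ι × Fin 2 → F := fun p => D.ph (v p.1) 0 (E + p.2) 0
  let x : ι → F := fun l => D.ex (v l) ^ D.q ^ E
  let z : Option (Option (Option ((ι × Fin 2) ⊕ ι ⊕ (ι × Fin 2 → Fin ν) × Fin μ))) → F := fun g =>
    g.elim D.θ fun g => g.elim (D.A E) fun g => g.elim (D.G E)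
      (Sum.elim y (Sum.elim x fun p => (taylor D.θ (G p.1)).coeff p.2 / G0))
  have hρ1 : (‖D.θ‖ ^ L)⁻¹ ≤ 1 := inv_le_one_of_one_le₀ (one_le_pow₀ hθ.le)
  have hvρ : ∀ l, ‖v l‖ / ‖D.θ‖ ≤ (‖D.θ‖ ^ L)⁻¹ := fun l => by
    rw [div_le_iff₀ hθ0, inv_mul_eq_div, le_div_iff₀ (by positivity)]; exact (hv l).2
  have hv1 : ∀ l, ‖v l‖ ≤ 1 := fun l => le_of_mul_le_mul_right
    ((mul_le_mul_of_nonneg_left (le_self_pow₀ hθ.le (by omega)) (norm_nonneg _)).trans
      ((hv l).2.trans_eq (one_mul _).symm)) hθ0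
  have hE1 : 0 < E := by omega
  have hy1 : ∀ p, ‖y p‖ ≤ 1 := fun p => by
    obtain ⟨a1, -, -, a2⟩ := hAn' (v p.1) 1 (E + p.2) 0 (by omega)
    exact (congrArg norm (a1 le_rfl)).symm.trans_le ((a2 ((hv1 _).trans hθ.le) 0 one_pos).trans
      (pow_le_one₀ (by positivity) ((hvρ _).trans hρ1)))
  have hx : ∀ l, ‖x l‖ ≤ 1 := fun l => by
    rw [norm_pow, hex _ ((hv1 l).trans hθ.le)]
    exact pow_le_one₀ (norm_nonneg _) (hv1 l)
  have hGU : ∀ α l, (taylor D.θ (G α)).coeff l ∈ U ^ (μ * Y) := fun α =>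
    M7.cc_ht h1 hθU hμ1 Y _ (hG α)
  have hG0U : G0 ∈ U ^ (μ * Y) := by simpa [taylor_coeff_zero] using hGU α0 0
  have hμY : μ ≤ μ * Y := Nat.le_mul_of_pos_right _ (by omega)
  have hqμ : 2 * (μ * Y) ≤ D.q * (μ * Y) := Nat.mul_le_mul_right _ hq
  have hTY : ‖D.θ‖ ^ T ≤ ‖D.θ‖ ^ Y ^ 3 := pow_le_pow_right₀ hθ.le (by omega)
  have hZ : 1 ≤ ‖D.θ‖ ^ Y ^ 3 := one_le_pow₀ hθ.le
  have hzn : ∀ g, ‖z g‖ ≤ ‖D.θ‖ ^ Y ^ 3 := by
    rintro (_ | _ | _ | l | l | ⟨α, i⟩)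
    · exact le_self_pow₀ hθ.le (by omega)
    · exact t2.trans hTY
    · exact t3.trans hTY
    · exact (hy1 l).trans hZ
    · exact (hx l).trans hZ
    · show ‖(taylor D.θ (G α)).coeff i / G0‖ ≤ ‖D.θ‖ ^ Y ^ 3
      rw [norm_div, div_le_iff₀ hG0']
      exact (hTau _ (hcc _ _ (hG α)) i i.2).trans (mul_le_mul (t1.trans hTY)
        (hmax α) (norm_nonneg _) (by positivity))
  obtain ⟨S, z', hS1, hS2, hz0, hcl, hzero⟩ := H0 k F _ z none (Y ^ 3) L hθ (by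
      have : ν ^ Fintype.card (ι × Fin 2) * μ ≤ μ ^ (Fintype.card (ι × Fin 2) + 1) := by
        rw [pow_succ]; gcongr
      rw [Fintype.card_option, Fintype.card_option, Fintype.card_option, Fintype.card_sum,
        Fintype.card_sum, Fintype.card_prod (ι × Fin 2 → Fin ν), Fintype.card_fun,
        Fintype.card_fin, Fintype.card_fin]
      omega) (by omega) hL hzn (fun N hN => by
      refine (M7.transfer hU hG0 (D0 := μ * Y + D.q * (μ * Y)) (M7.pw_le h1 (by omega) hG0U) z ?_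
        N).trans ((hgr _ (Nat.mul_pos (by omega) hN)).trans ?_)
      · rintro (_ | _ | _ | l | l | ⟨α, i⟩)
        · exact M7.pw_mul hG0U (M7.pw_le h1 (a := 1) (by omega) (by simpa [z] using hθU))
        · exact M7.pw_mul hG0U (M7.pw_le h1 (by omega) hAU)
        · exact M7.pw_mul hG0U (M7.pw_le h1 (by omega) hGU0)
        · exact M7.pw_mul hG0U (M7.pw_le h1 (by rw [pow_succ', mul_assoc]) ((hv l.1).1.2.2 l.2))
        · refine M7.pw_mul hG0U (M7.pw_le h1 (a := Y * μ) (by rw [mul_comm Y]; omega) ?_)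
          show D.ex (v l) ^ D.q ^ (e + a) ∈ _
          rw [pow_add, pow_mul (D.ex (v l))]
          exact M7.pw_pow (hv l).1.2.1 _
        · show G0 * ((taylor D.θ (G α)).coeff i / G0) ∈ _
          rw [mul_div_cancel₀ _ hG0]
          exact M7.pw_le h1 (by omega) (hGU α i)
      · refine (Nat.mul_le_mul_right _ (Nat.le_self_pow (by omega : n ≠ 0) C1)).trans ?_
        rw [← mul_pow, ← mul_assoc]
        gcongr
        have := M7.n3 hB1 hY (m8.trans hMB) (hμM.trans hMB) (m10.trans hMB)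
        have a4 : Y * Y ≤ Y ^ 3 := by
          rw [← sq]; exact Nat.pow_le_pow_right (by omega) (by omega)
        calc _ = C1 * μ * (D.q + 1) * Y := by ring
          _ ≤ Y * Y := Nat.mul_le_mul_right _ (by omega)
          _ ≤ _ := a4)
  simp only [show z none = D.θ from rfl] at hz0 hcl hzero
  have hcl' : ∀ g, ‖z g - z' g‖ ≤ (‖D.θ‖ ^ (S * Y ^ 3))⁻¹ := fun g => by
    rw [← one_div, le_div_iff₀ (by positivity)]; exact hcl g
  have hY4 : 4 ≤ Y := by omega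
  have hS0 : (Y ^ 3) ^ 3 ≤ S := (Nat.le_mul_of_pos_left _ hL).trans hS1
  have hlB : D.q ^ lam ≤ B := m6.trans hMB
  have hx1 : μ * P * (D.q ^ lam * Y) ≤ Y * Y := by
    have := M7.n3 hB1 hY (hμM.trans hMB) (by omega : P ≤ B) hlB
    rw [← mul_assoc]; exact Nat.mul_le_mul_right _ (by omega)
  have hx2 : d * (D.q ^ lam * Y) ≤ Y * Y := by
    have := M7.n3 hB1 hY hdB hlB hB1
    rw [← mul_assoc]; exact Nat.mul_le_mul_right _ (by omega)
  have e4 := M7.n4 hY4 hS0 hx1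
  have e5 := (M7.n5 hY4 hc0 hL hS2 hx1 hx2 (by omega : D.q ^ lam ≤ Y)).1
  have e6 := (M7.n5 hY4 hc0 hL hS2 hx1 hx2 (by omega : T ≤ Y)).2
  have hε1 : (‖D.θ‖ ^ (S * Y ^ 3))⁻¹ < 1 := inv_lt_one_of_one_lt₀ (one_lt_pow₀ hθ (by omega))
  have hcT : ∀ g, ‖z g - z' g‖ ≤ (‖D.θ‖ ^ T)⁻¹ := fun g => (hcl' g).trans (inv_anti₀ (by positivity)
    (hTY.trans (pow_le_pow_right₀ hθ.le (Nat.le_mul_of_pos_left _
      ((pow_pos (pow_pos (by omega) 3) 3).trans_le hS0)))))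
  let zz := fun g => (z g, z' g)
  let γ : (ι × Fin 2 → Fin ν) → (F × F)[X] := fun α =>
    ∑ i : Fin μ, monomial (i : ℕ) (zz (some (some (some (.inr (.inr (α, i)))))))
  let yy : ι × Fin 2 → F × F := fun l => zz (some (some (some (.inl l))))
  let x' : ι → F := fun l => z' (some (some (some (.inr (.inl l)))))
  obtain ⟨q1, -, -, q4, q5⟩ := hQq k (ι × Fin 2) (F × F) ν γ yy
  have hzz : ∀ g, zz g ∈ U1 k zz := HP.sp_mem zz
  have u1 : 1 ∈ U1 k zz := HP.sp_one zz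
  have u2 : (D.θ, D.θ) ∈ U1 k zz := by simpa [zz, hz0, z] using hzz none
  obtain ⟨fA, fG, fS⟩ := hT (U1 k zz) u1 u2 fun p hp e =>
    hzero p (M7.pw_le u1 (by omega) hp) (by simp [e])
  have uA : (D.A E, D.A E) ∈ U1 k zz :=
    (congrArg (fun t => (D.A E, t) ∈ U1 k zz) (fA _ (hzz (some none)) (hcT (some none)))).mp
      (hzz (some none))
  have uG : (D.G E, D.G E) ∈ U1 k zz :=
    (congrArg (fun t => (D.G E, t) ∈ U1 k zz)
      (fG _ (hzz (some (some none))) (hcT (some (some none))))).mp (hzz (some (some none)))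
  obtain ⟨f1, f2⟩ := hFb k F ι D v σ μ E _ hD hσ hE1 hρ1 hvρ
  obtain ⟨B0, Mo, a', g1, g2, g3, g4, g5, g6⟩ := hGen k (ι × Fin 2) F D.q μ σ D.θ yy
    (LL (D.A E, D.A E) (D.G E, D.G E) ((D.θ, D.θ) ^ D.q ^ E) fun l => (D.A E, D.A E) * (x l, x' l))
    (QQ γ yy) (U1 k zz) (fun m i p => D.Jm μ (v p.1) (E + m + p.2) i) ν δ d P ((3 * c0 + 4) * P)
    (D.q ^ E + 2) (1 + Fintype.card (ι × Fin 2) * ν) (Y ^ 2) (Y ^ 3) lam S
    ((‖D.θ‖ ^ L)⁻¹ ^ D.q ^ (P + (3 * c0 + 4) * P))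
    ((‖D.θ‖ ^ (S * Y ^ 3))⁻¹ * (‖D.θ‖ ^ Y ^ 3) ^ Y ^ 3) (‖D.θ‖ ^ (S * Y ^ 3))⁻¹ ((‖D.θ‖ ^ Y ^ 3) ^ Y ^ 3)
    hq hθ hμ1 hσ u1 u2
    (fun l => ⟨hzz _, ML.row_LL _ _ _ _ _, ML.ht_LL u1 uA uG (Submodule.pow_mem_pow _ u2 _)
      (fun l => sq (U1 k zz) ▸ Submodule.mul_mem_mul uA
        (hzz (some (some (some (.inr (.inl l))))))) _⟩)
    (q5 _ u1 (fun l => hzz _) fun α m => by
      rw [M7.cf]; split_ifs; exacts [hzz _, zero_mem _])
    (fun p hp => by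
      have := HP.cl_pow (k := k) norm_fin hZ (by positivity) zz (fun g => ⟨hzn g, ?_, hcl' g⟩) _ p hp
      · exact ⟨hzero p hp, this.1, this.2.2⟩
      have h2 := IsUltrametricDist.norm_add_le_max (z g) (z' g - z g)
      rw [add_sub_cancel, norm_sub_rev] at h2
      exact h2.trans (max_le (hzn g) ((hcl' g).trans (hε1.le.trans hZ))))
    hν (by
      obtain ⟨α, hα⟩ := (hQq k (ι × Fin 2) F ν (fun α => (γ α).map (RingHom.snd F F))
        fun l => (yy l).2).2.1 α0 fun h => by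
          have h2 := hcl' (some (some (some (.inr (.inr (α0, ⟨0, hμ1⟩))))))
          rw [coeff_map, M7.cf, dif_pos (show 0 < μ from hμ1)] at h
          rw [show z' _ = 0 from h, sub_zero, show z _ = (taylor D.θ (G α0)).coeff 0 / G0 from rfl,
            taylor_coeff_zero, div_self hG0, norm_one] at h2
          exact absurd hε1 (not_lt.2 h2)
      refine ⟨α, fun h => hα ?_⟩
      have := congrArg (fun f => (MvPolynomial.coeff α f).coeff 0) (q4 F (RingHom.snd F F))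
      simp only [coeff_tw, coeff_map] at this
      exact this.symm.trans h)
    q1 hd2 hd1
    (ML.n1 hB1 hY (hδj.trans (m3.trans hMB)) hdB (by omega) hμj (by omega) (by omega)
      (m5.trans hMB) (by omega))
    (by show _ ≤ _ + _ + 1; gcongr)
    (by
      rw [pow_add D.q P lam]
      exact ML.n2 hB1 hY hlB hdB (by omega) (by omega) (m5.trans hMB))
    (fun l => (hAn' (v l.1) μ (E + l.2) 0 (by omega)).1 hμ1)
    (fun m i l hi => by rw [ML.tw_LL]; exact f1 m i l hi)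
    (fun b _ => ML.apx (f2 (P + b) _) (pow_le_pow_of_le_one (by positivity) hρ1
      (Nat.pow_le_pow_right (by omega) (by omega))))
    (by positivity) (pow_le_one₀ (by positivity) hρ1) (by positivity) (one_le_pow₀ hZ)
    (mul_comm _ _).le
    (by
      rw [← pow_mul ‖D.θ‖, inv_mul_le_iff₀ (by positivity), mul_one]
      exact pow_le_pow_right₀ hθ.le (by omega))
    (fun j hj => by
      have h2 := (hQq k (ι × Fin 2) F ν (fun α => (γ α).map (RingHom.fst F F))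
        fun l => (yy l).1).2.2.1 fun l => D.Jm μ (v l.1) (E + l.2) 0
      have h3 := hTj k F (ι × Fin 2) D W CT e a ν (fun l => v l.1) (fun l => E + l.2) G hD ha
        (hUW _ hθU) (hUW _ hgU) (hUW _ hΔU) hTau
        (fun l => ⟨hv1 _, Submodule.pow_induction_on_left (C := (· ∈ W)) _ hkW
          (fun _ _ => add_mem) (fun m hm _ hx => mul_mem (hUW m hm) hx) (hv l.1).1.1, by omega⟩)
        (fun α => hcc _ _ (hG α)) j hj
      have h4 : X ^ μ ∣ val (fun α => (γ α).map (RingHom.fst F F))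
          (fun l => D.Jm μ (v l.1) (E + l.2) 0) -
          C G0⁻¹ * val (fun α => taylor D.θ (G α)) fun l => D.Jm μ (v l.1) (E + l.2) 0 := by
        rw [val, val, mul_sum, ← sum_sub_distrib]
        refine dvd_sum fun α _ => ?_
        rw [← mul_assoc, ← sub_mul]
        refine Dvd.dvd.mul_right (X_pow_dvd_iff.2 fun i hi => ?_) _
        rw [coeff_sub, coeff_map, M7.cf, dif_pos hi, coeff_C_mul, inv_mul_eq_div]
        exact sub_self _
      have h5 := X_pow_dvd_iff.1 h4 j hj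
      rw [coeff_sub, sub_eq_zero, coeff_C_mul, ← h2] at h5
      show ‖(MvPolynomial.eval _ (tw _ (QQ γ yy))).coeff j‖ ≤ _
      rw [q4]
      refine (congrArg norm h5).trans_le ?_
      rw [norm_mul, norm_inv, inv_mul_le_iff₀ hG0', ← div_eq_mul_inv, le_div_iff₀ (by positivity)]
      refine le_trans ?_ hcon
      refine (mul_le_mul_of_nonneg_right (h3.trans (mul_le_mul_of_nonneg_right t1
        (norm_nonneg _))) (by positivity)).trans ?_
      rw [mul_comm (_ ^ T), mul_assoc, ← pow_add]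
      exact mul_le_mul_of_nonneg_left (pow_le_pow_right₀ hθ.le e6) (norm_nonneg _))
    (by
      rw [mul_assoc, max_mul_of_nonneg _ _ (by positivity), pow_add D.q lam P, pow_add D.q P, hqc,
        inv_pow]
      simp only [← pow_mul ‖D.θ‖, ← pow_add ‖D.θ‖, ← hYd]
      refine max_le ?_ ?_
      · rw [mul_assoc, ← pow_add]
        exact M7.ex_le hθ (by omega)
      · rw [mul_comm (_ ^ _) _⁻¹, mul_assoc, ← pow_add]
        exact M7.ex_le hθ (by omega))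
  have eL : (fun l => tw (RingHom.snd F F) (LL (D.A E, D.A E) (D.G E, D.G E) ((D.θ, D.θ) ^ D.q ^ E)
      (fun l => (D.A E, D.A E) * (x l, x' l)) l)) =
      LL (D.A E) (D.G E) (D.θ ^ D.q ^ E) fun l => D.A E * x' l := funext fun l => ML.tw_LL _ _ _ _ _ l
  rw [eL] at g4 g6
  obtain ⟨n', j, h, Q, j1, rfl, j3, j4, j5⟩ := fS ι v x' (fun l => (yy l).2) Sp
    (fun l => ⟨hzz (some (some (some (.inr (.inl l))))), hcT (some (some (some (.inr (.inl l)))))⟩)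
    (fun l => hcT (some (some (some (.inl l))))) hSp
  obtain ⟨f, k1, k2, l0, hl0, b0, hb0⟩ := M0 k ι (Fin n') F σ D.θ (D.A E) (D.G E)
    (fun l => D.A E * x' l) (fun l => (yy l).2) j h Q E P a' d B0 Mo hqk (by omega) hσ (fun i i' e => Nat.pow_right_injective hq
      (pow_right_injective₀ hθ0 hθ.ne' (by simpa using congrArg norm e))) hA0 hE1 j1 j3 j4 j5 g1
    ⟨g2.1.trans (Nat.mul_le_mul_right _ hj), g2.2⟩ g3 g4 g5 g6
  have hdeg : 2 * (κ0 * (d + 1)) ≤ 4 * κ0 * μ * P := by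
    have : 1 ≤ μ * P := Nat.mul_pos hμ1 (by omega)
    calc _ ≤ 2 * (κ0 * (2 * (μ * P))) := by gcongr; omega
      _ = _ := by ring
  have hpw := pow_le_pow_right₀ hθ.le hdeg
  obtain ⟨β, w, hβ, hw0, hw⟩ := hNear k F ι D σ v (fun l => x' l ^ D.q ^ P) (E + P) _ f
    (‖D.θ‖ ^ (L * Y + 4 * κ0 * μ * P))⁻¹ hD hσ (by positivity)
    (inv_le_one_of_one_le₀ (one_le_pow₀ hθ.le)) (fun l => by
      rw [pow_add D.q, pow_mul, pow_mul, ← ML.fro hσ P, ← ML.fro hσ P (x' l), ← map_sub,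
        ML.fro hσ, norm_pow]
      refine pow_le_pow_left₀ (norm_nonneg _)
        ((hcl' (some (some (some (.inr (.inl l)))))).trans ?_) _
      rw [inv_pow, ← pow_mul ‖D.θ‖]
      exact inv_anti₀ (by positivity) (pow_le_pow_right₀ hθ.le
        (M7.n6 hY4 hL hS1 (by omega) (by omega : D.q ^ E ≤ Y)))) k1 (by
      rw [← ML.A_pow, ← ML.G_pow D hσ, pow_add D.q, pow_mul]
      simpa only [mul_pow] using k2)
  refine absurd (hNP β (fun l => ⟨(hβ l).1, (hβ l).2.1.trans hpw⟩) l0 hl0 ((hβ l0).2.2 b0 hb0) w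
    hw0) (not_lt.2 ((mul_le_mul_of_nonneg_right (hw.trans (mul_le_mul_of_nonneg_right hpw
      (by positivity))) (by positivity)).trans ?_))
  rw [mul_comm (_ ^ _) _⁻¹, mul_assoc, ← pow_add]
  exact M7.ex_le hθ (add_comm _ _).le

end Pool.Agent.CSU.SA.DS
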