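import Pool.Agent.Lib.MP_0c15f2_nt.DS.St
import Pool.Agent.Lib.MP_0c15f2_nt.DS.NdG
import Pool.Agent.Lib.MP_0370b2_nt.SA.Ht
import Pool.Agent.Lib.MP_0370b2_nt.SA.ML

/-! Tools for the measure of one level in rank two. -/

namespace Pool.Agent.CSU.SA.DS.ML

open Polynomial Finset Filter

section Ring

variable {κ R R' : Type} [CommRing R] [CommRing R']

lemma tw_LL (φ : R →+* R') (A G c : R) (ξ : κ → R) (p : κ × Fin 2) :
    tw φ (LL A G c ξ p) = LL (φ A) (φ G) (φ c) (fun l => φ (ξ l)) p := by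
  unfold LL
  split_ifs <;> simp

lemma row_add {δ d : ℕ} {f g : PP κ R} (hf : RowT δ d f) (hg : RowT δ d g) : RowT δ d (f + g) :=
  ⟨(MvPolynomial.totalDegree_add _ _).trans (max_le hf.1 hg.1), fun α => by
    rw [MvPolynomial.coeff_add]
    exact (degree_add_le _ _).trans_lt (max_lt (hf.2 α) (hg.2 α))⟩

lemma row_mon {a : R[X]} (ha : a.degree ≤ 1) {β : κ →₀ ℕ} (hβ : β.sum (fun _ => id) ≤ 1) :
    RowT 1 2 (MvPolynomial.monomial β a : PP κ R) :=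
  ⟨(MvPolynomial.totalDegree_monomial_le _ _).trans hβ, fun α => by
    classical
    rw [MvPolynomial.coeff_monomial]
    split_ifs
    · exact ha.trans_lt (by norm_num)
    · exact WithBot.bot_lt_coe _⟩

lemma row_LL (A G c : R) (ξ : κ → R) (p : κ × Fin 2) : RowT 1 2 (LL A G c ξ p) := by
  unfold LL
  split_ifs
  · exact row_mon (degree_one_le.trans zero_le_one) (by simp)
  · simp only [MvPolynomial.C_mul_X_eq_monomial]
    exact row_add (row_add (row_mon (by compute_degree) (by simp))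
      (row_mon (degree_C_le.trans zero_le_one) (by simp)))
      (row_mon (degree_C_le.trans zero_le_one) (by simp))

lemma ht_LL {k : Type} [Field k] [Algebra k R] {U : Submodule k R} (h1 : 1 ∈ U) {A G c : R}
    {ξ : κ → R} {n : ℕ} (hA : A ∈ U) (hG : G ∈ U) (hc : c ∈ U ^ n) (hξ : ∀ l, ξ l ∈ U ^ 2)
    (p : κ × Fin 2) : HtP U (n + 2) (LL A G c ξ p) := by
  rw [← pow_one U] at hA hG
  unfold LL
  split_ifs
  · exact HtP.X h1 _ _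
  · exact ((((HtP.C ((HtQ.C hA).mul ((HtQ.X h1 n).sub (HtQ.C hc)))).mul (HtP.X h1 0 _)).mono h1
      (by omega)).add (((HtP.C (HtQ.C hG)).mul (HtP.X h1 0 _)).mono h1 (by omega))).add
      ((HtP.C (HtQ.C (hξ _))).mono h1 (by omega))

lemma fro {σ : R →+* R} {q : ℕ} (hσ : ∀ y, σ y = y ^ q) (m : ℕ) (y : R) :
    (σ ^ m) y = y ^ q ^ m := by
  rw [RingHom.coe_pow, show ⇑σ = fun y => y ^ q from funext hσ, pow_iterate]

end Ring

lemma n1 {B Y N d P m j δ E ν : ℕ} (h1 : 1 ≤ B) (hY : 20 * B ^ 5 ≤ Y) (hN : N ≤ B) (hd : d ≤ B)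
    (hP : P ≤ B) (hm : m ≤ B) (hj : j ≤ B) (hδ : δ ≤ B) (hE : E + 2 ≤ B) (hν : ν ≤ B) :
    (N * d + P * m + 1) * ((d + j * δ * (E + 2 + 2) + (1 + j * ν)) * Y) ≤ Y ^ 2 := by
  have : j * δ * (E + 2 + 2) ≤ 2 * j * δ * (E + 2) := by nlinarith [Nat.zero_le (j * δ * E)]
  refine le_trans ?_ (M7.n1 h1 hY hN hd hP hm hj hδ hE hν)
  gcongr

lemma n2 {B Y l d j δ E : ℕ} (h1 : 1 ≤ B) (hY : 20 * B ^ 5 ≤ Y) (hl : l ≤ B) (hd : d ≤ B)
    (hj : j ≤ B) (hδ : δ ≤ B) (hE : E + 2 ≤ B) :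
    l * Y ^ 2 + d + j * δ * (E + 2 + 2) * (Y * l) ≤ Y ^ 3 := by
  refine le_trans ?_ (M7.n2 h1 hY hl hd hj hδ hE)
  nlinarith [Nat.zero_le (j * δ * E * Y * l)]

variable {k F : Type} [Field k] [NormedField F] [Algebra k F]

lemma apx {ι : Type} {q μ M t : ℕ} {θ : F} {J : ℕ → ι → F[X]} {η η' : ℝ} (h : Apx q μ θ J M t η)
    (e : η ≤ η') : Apx q μ θ J M t η' := by
  obtain ⟨β, ψ, a, b, c, d⟩ := h
  exact ⟨β, ψ, a, b, c, fun j hj => ⟨(d j hj).1, fun l i hi => ((d j hj).2 l i hi).trans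
    (mul_le_mul_of_nonneg_right e (norm_nonneg _))⟩⟩

lemma A_pow (D : DM F) (m n : ℕ) : D.A m ^ D.q ^ n = D.A (m + n) := by
  rw [DM.A, DM.A, inv_pow, ← pow_mul, ← pow_add]

lemma G_pow (D : DM F) {σ : F →+* F} (hσ : ∀ y, σ y = y ^ D.q) (m n : ℕ) :
    D.G m ^ D.q ^ n = D.G (m + n) := by
  rw [DM.G, DM.G, ← fro hσ, map_neg, fro hσ, mul_pow, inv_pow, ← pow_mul, ← pow_mul, ← pow_add]

lemma small {θ : F} (hθ : 1 < ‖θ‖) {η : ℝ} (h : 0 < η) : ∀ᶠ T : ℕ in atTop, (‖θ‖ ^ T)⁻¹ < η :=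
  (tendsto_pow_atTop_atTop_of_one_lt hθ).inv_tendsto_atTop.eventually_lt_const h

lemma fixf (hF : FixS) {θ : F} (hθ : 1 < ‖θ‖) {Γ : Type} [Finite Γ] (z : Γ → F)
    (hz : ∀ g, IsAlgebraic (Algebra.adjoin k {θ}) (z g)) : ∀ᶠ T : ℕ in atTop,
      ∀ g (U : Submodule k (F × F)) (z' : F), 1 ∈ U → (θ, θ) ∈ U → (z g, z') ∈ U →
        (∀ p ∈ U ^ T, p.1 = 0 → p.2 = 0) → ‖z g - z'‖ ≤ (‖θ‖ ^ T)⁻¹ → z' = z g :=
  eventually_all.2 fun g => by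
    obtain ⟨h, η, η0, H⟩ := hF k F θ (z g) (hz g)
    filter_upwards [eventually_ge_atTop h, small hθ η0] with T a b U z' h1 h2 h3 h4 h5
    exact H U z' h1 h2 h3 (fun p hp => h4 p (M7.pw_le h1 a hp)) (h5.trans_lt b)

lemma cont {τ : Type} [Fintype τ] {θ : F} (hθ : 1 < ‖θ‖) (f : PP τ F) (a : F) (b V0 : τ → F)
    (h : evp θ (fun p => a * V0 p + b p) f ≠ 0) : ∀ᶠ T : ℕ in atTop, ∀ V : τ → F,
      (∀ p, ‖V0 p - V p‖ ≤ (‖θ‖ ^ T)⁻¹) → evp θ (fun p => a * V p + b p) f ≠ 0 := by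
  have c : Continuous fun V : τ → F => evp θ (fun p => a * V p + b p) f := by
    simp only [evp, MvPolynomial.coe_eval₂Hom, ← MvPolynomial.eval_map]
    exact (MvPolynomial.continuous_eval _).comp (by fun_prop)
  obtain ⟨η, η0, H⟩ := Metric.eventually_nhds_iff.1 (c.continuousAt.eventually_ne h)
  filter_upwards [small hθ η0] with T b V hV
  exact H ((dist_pi_lt_iff η0).2 fun p => by
    rw [dist_comm, dist_eq_norm]
    exact (hV p).trans_lt b)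

/-- The data that do not depend on the level. -/
lemma pre [Fintype k] [IsUltrametricDist F] [CompleteSpace F] [IsAlgClosed F] (hDa : DaS)
    (hHh : HhS) (hF : FixS) (hTw : TwS) {D : DM F} {σ : F →+* F} {r : ℕ} (s : ℕ) {ω : Fin r → F}
    {Pi : PP (Fin r × Fin 2) F} {E : ℕ} (CT : ℝ) (hD : D.Ok k) (hσ : ∀ y, σ y = y ^ D.q)
    (hs : Function.Surjective σ) (hE : 1 ≤ E) (hg : IsAlgebraic (Algebra.adjoin k {D.θ}) D.g)
    (hΔ : IsAlgebraic (Algebra.adjoin k {D.θ}) D.Δ) (hSq : D.Sq σ ω Pi) :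
    ∃ T : ℕ, CT ≤ ‖D.θ‖ ^ T ∧ ‖D.A E‖ ≤ ‖D.θ‖ ^ T ∧ ‖D.G E‖ ≤ ‖D.θ‖ ^ T ∧
      ∀ U : Submodule k (F × F), 1 ∈ U → (D.θ, D.θ) ∈ U → (∀ p ∈ U ^ T, p.1 = 0 → p.2 = 0) →
        (∀ z', (D.A E, z') ∈ U → ‖D.A E - z'‖ ≤ (‖D.θ‖ ^ T)⁻¹ → z' = D.A E) ∧
        (∀ z', (D.G E, z') ∈ U → ‖D.G E - z'‖ ≤ (‖D.θ‖ ^ T)⁻¹ → z' = D.G E) ∧
        ∀ (ι : Type) (v x' : ι → F) (y' : ι × Fin 2 → F) (Sp : Set ι),
          (∀ l, (D.ex (v l) ^ D.q ^ E, x' l) ∈ U ∧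
            ‖D.ex (v l) ^ D.q ^ E - x' l‖ ≤ (‖D.θ‖ ^ T)⁻¹) →
          (∀ p, ‖D.ph (v p.1) 0 (E + p.2) 0 - y' p‖ ≤ (‖D.θ‖ ^ T)⁻¹) →
          (Sp = ∅ ∨ ∃ j : Fin r → ι, Function.Injective j ∧ Set.range j = Sp ∧
            ∀ i, v (j i) = ω i / D.θ ^ s) →
          ∃ (n : ℕ) (j : Fin n → ι) (h : Fin n → F[X]) (Q : PP (Fin n × Fin 2) F),
            Function.Injective j ∧ Set.range j = Sp ∧
            (∀ i, (h i).degree < s ∧ C (D.A E * x' (j i)) * X ^ s + ((h i).map σ).map σ =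
              C (D.A E) * (X - C (D.θ ^ D.q ^ E)) * h i + C (D.G E) * (h i).map σ) ∧
            Den σ (D.A E) (D.G E) (D.θ ^ D.q ^ E) Q ∧ evp D.θ (Zv σ s j h D.θ y') Q ≠ 0 := by
  have hθ := hD.2.1
  have θ0 : D.θ ^ s ≠ 0 := pow_ne_zero _ (norm_pos_iff.1 (by positivity))
  have e0 : ∀ i, D.θ ^ s * (ω i / D.θ ^ s) = ω i := fun i => mul_div_cancel₀ _ θ0
  have aθ : IsAlgebraic (Algebra.adjoin k {D.θ}) D.θ :=
    isAlgebraic_algebraMap (⟨D.θ, Algebra.self_mem_adjoin_singleton k _⟩ : Algebra.adjoin k {D.θ})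
  choose h h1 h2 h3 h4 using fun i =>
    hHh k F D σ (ω i / D.θ ^ s) s E hD hσ hE (by rw [e0, hSq.1])
  have big := fun c => (tendsto_pow_atTop_atTop_of_one_lt hθ).eventually_ge_atTop c
  obtain ⟨T, t1, t2, t3, tA, tG, tx, tc⟩ := ((big CT).and ((big ‖D.A E‖).and ((big ‖D.G E‖).and
    ((fixf hF hθ (fun _ : Unit => D.A E) fun _ => (hΔ.pow _).inv).and
    ((fixf hF hθ (fun _ : Unit => D.G E) fun _ => ((hg.pow _).mul (hΔ.pow _).inv).neg).and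
    ((fixf hF hθ (fun i => D.ex (ω i / D.θ ^ s) ^ D.q ^ E) fun i =>
      ((hDa k F D {D.θ} hD aθ hg hΔ).2.2.2.2 _ s (by
        rw [e0, hSq.1]; exact isAlgebraic_zero)).pow _).and
    (cont hθ ((tw σ)^[E] Pi) (D.θ ^ s)
      (fun p => (if p.2 = 0 then h p.1 else (h p.1).map σ).eval D.θ)
      (fun p => D.ph (ω p.1 / D.θ ^ s) 0 (E + p.2) 0) (by
        convert hSq.2.2 E hE with ⟨i, b⟩
        fin_cases b
        · simpa [e0] using (h3 i).symm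
        · simpa [e0] using (h4 i).symm)))))))).exists
  refine ⟨T, t1, t2, t3, fun U u1 u2 u3 => ⟨fun z' a b => tA () U z' u1 u2 a u3 b,
    fun z' a b => tG () U z' u1 u2 a u3 b, fun ι v x' y' Sp hx hy hSp => ?_⟩⟩
  obtain rfl | ⟨j, j1, j2, j3⟩ := hSp
  · exact ⟨0, Fin.elim0, Fin.elim0, 1, fun i => i.elim0, Set.range_eq_empty _, fun i => i.elim0,
      DS13.den0 _ _ _ _ hs, by simp⟩
  refine ⟨r, j, h, _, j1, j2, fun i => ⟨h1 i, ?_⟩, ?_,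
    tc (fun p => y' (j p.1, p.2)) fun p => j3 p.1 ▸ hy (j p.1, p.2)⟩
  · rw [tx i U (x' (j i)) u1 u2 (j3 i ▸ (hx _).1) u3 (j3 i ▸ (hx _).2)]
    exact h2 i
  · have := (hTw F (Fin r) D.q σ (D.A 0) (D.G 0) D.θ E hσ).2.2.2 hs Pi hSq.2.1
    rwa [A_pow, G_pow D hσ, zero_add] at this

end Pool.Agent.CSU.SA.DS.ML
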