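import Pool.Agent.Lib.MP_0c15f2_nt.DS.St
import Pool.Agent.Lib.MP_0c15f2_nt.DS.NdG
import Pool.Agent.Lib.MP_0370b2_nt.SA.MLa

/-! The special points in the measure for one level. -/

namespace Pool.Agent.CSU.SA.DS.MLs

open Polynomial Finset Filter Topology

lemma evp_cont {κ F : Type} [NormedField F] (c : F) (f : PP κ F) :
    Continuous fun V : κ → F => evp c V f := by
  induction f using MvPolynomial.induction_on with
  | C a => simpa [evp] using continuous_const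
  | add p q hp hq => simp only [map_add]; exact hp.add hq
  | mul_X p i hp =>
    have : ∀ V : κ → F, evp c V (p * MvPolynomial.X i) = evp c V p * V i := fun V => by
      rw [map_mul]; simp [evp]
    simp only [this]
    exact hp.mul (continuous_apply i)

lemma fixAll (hFix : FixS) (k F Γ : Type) [Field k] [NormedField F] [Algebra k F] [Fintype Γ]
    (θ : F) (z : Γ → F) (hz : ∀ g, IsAlgebraic (Algebra.adjoin k {θ}) (z g)) (ε : ℝ)
    (hε : 0 < ε) : ∃ (h : ℕ) (η : ℝ), 0 < η ∧ η ≤ ε ∧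
      ∀ (U : Submodule k (F × F)) g (z' : F), 1 ∈ U → (θ, θ) ∈ U → (z g, z') ∈ U →
        (∀ p ∈ U ^ h, p.1 = 0 → p.2 = 0) → ‖z g - z'‖ < η → z' = z g := by
  choose h η h0 H using fun g => hFix k F θ (z g) (hz g)
  have a : ∀ δ : ℝ, 0 < δ → ∀ᶠ t in 𝓝[>] (0 : ℝ), t ≤ δ := fun δ hδ =>
    mem_nhdsWithin_of_mem_nhds (Iic_mem_nhds hδ)
  obtain ⟨t, ⟨t1, t2⟩, t3⟩ :=
    (((eventually_all.2 fun g => a _ (h0 g)).and (a ε hε)).and self_mem_nhdsWithin).exists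
  refine ⟨∑ g, h g, t, t3, t2, fun U g z' h1 h2 h3 h4 h5 => H g U z' h1 h2 h3
    (fun p hp => h4 p (M7.pw_le h1 ?_ hp)) (h5.trans_le (t1 g))⟩
  exact single_le_sum (f := h) (fun _ _ => Nat.zero_le _) (mem_univ g)

/-- The parameters and the special points are not moved, and the eigen-polynomial does not
vanish at the second point. -/
theorem spec (hDa : DaS) (hHh : HhS) (hFix : FixS) (hTw : TwS) (k F : Type) [Field k] [Fintype k]
    [NormedField F] [IsUltrametricDist F] [CompleteSpace F] [IsAlgClosed F] [Algebra k F]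
    (D : DM F) (σ : F →+* F) (r s : ℕ) (ω : Fin r → F) (Pi : PP (Fin r × Fin 2) F) (E : ℕ)
    (hD : D.Ok k) (hσ : ∀ y, σ y = y ^ D.q) (hg : IsAlgebraic (Algebra.adjoin k {D.θ}) D.g)
    (hΔ : IsAlgebraic (Algebra.adjoin k {D.θ}) D.Δ) (hSq : D.Sq σ ω Pi) (hE : 1 ≤ E) :
    ∃ (h0 : ℕ) (η : ℝ), 0 < η ∧ ∀ (ι : Type) (v : ι → F) (Sp : Set ι) (U : Submodule k (F × F))
      (A' G' : F) (x' : ι → F) (y' : ι × Fin 2 → F),
      (Sp = ∅ ∨ ∃ j : Fin r → ι, Function.Injective j ∧ Set.range j = Sp ∧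
        ∀ i, v (j i) = ω i / D.θ ^ s) → 1 ∈ U → (D.θ, D.θ) ∈ U → (D.A E, A') ∈ U →
      (D.G E, G') ∈ U → (∀ l, (D.ex (v l) ^ D.q ^ E, x' l) ∈ U) →
      (∀ p ∈ U ^ h0, p.1 = 0 → p.2 = 0) → ‖D.A E - A'‖ < η → ‖D.G E - G'‖ < η →
      (∀ l, ‖D.ex (v l) ^ D.q ^ E - x' l‖ < η) →
      (∀ p : ι × Fin 2, ‖D.ph (v p.1) 0 (E + p.2) 0 - y' p‖ < η) →
      A' = D.A E ∧ G' = D.G E ∧ ∃ (τ : Type) (_ : Fintype τ) (j : τ → ι) (h : τ → F[X])
        (Pi' : PP (τ × Fin 2) F), Function.Injective j ∧ Set.range j = Sp ∧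
        (∀ i, (h i).degree < s ∧ C (D.A E * x' (j i)) * X ^ s + ((h i).map σ).map σ =
          C (D.A E) * (X - C (D.θ ^ D.q ^ E)) * h i + C (D.G E) * (h i).map σ) ∧
        Den σ (D.A E) (D.G E) (D.θ ^ D.q ^ E) Pi' ∧ evp D.θ (Zv σ s j h D.θ y') Pi' ≠ 0 := by
  have hq : 0 < D.q := hD.1 ▸ Fintype.card_pos
  have hsur : Function.Surjective σ := fun y => by
    obtain ⟨w, hw⟩ := IsAlgClosed.exists_pow_nat_eq y hq
    exact ⟨w, (hσ w).trans hw⟩
  have hθ0 : D.θ ≠ 0 := norm_pos_iff.1 (one_pos.trans hD.2.1)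
  have hθa : IsAlgebraic (Algebra.adjoin k {D.θ}) D.θ :=
    isAlgebraic_algebraMap (⟨D.θ, Algebra.self_mem_adjoin_singleton k D.θ⟩ :
      Algebra.adjoin k {D.θ})
  have hw : ∀ i, D.ex (D.θ ^ s * (ω i / D.θ ^ s)) = 0 := fun i => by
    rw [mul_div_cancel₀ _ (pow_ne_zero _ hθ0)]; exact hSq.1 i
  choose h h1 h2 h3 h4 using fun i => hHh k F D σ (ω i / D.θ ^ s) s E hD hσ hE (hw i)
  let cst : Fin r × Fin 2 → F := fun p => (if p.2 = 0 then h p.1 else (h p.1).map σ).eval D.θ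
  let W0 : Fin r × Fin 2 → F := fun p => D.ph (ω p.1 / D.θ ^ s) 0 (E + p.2) 0
  let Φ : (Fin r × Fin 2 → F) → F := fun W =>
    evp D.θ (fun p => D.θ ^ s * W p + cst p) ((tw σ)^[E] Pi)
  have hΦ : Continuous Φ := (evp_cont D.θ _).comp (by fun_prop)
  have hΦ0 : Φ W0 ≠ 0 := by
    have e : (fun p => D.θ ^ s * W0 p + cst p) = fun p => D.ph (ω p.1) 0 (E + p.2) 0 := by
      funext ⟨i, b⟩
      have a3 := h3 i
      have a4 := h4 i
      rw [mul_div_cancel₀ _ (pow_ne_zero _ hθ0)] at a3 a4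
      fin_cases b
      · simpa [W0, cst] using a3.symm
      · simpa [W0, cst] using a4.symm
    show evp _ _ _ ≠ 0
    rw [e]
    exact hSq.2.2 E hE
  obtain ⟨ε, hε, hΦε⟩ := Metric.eventually_nhds_iff.1 (hΦ.continuousAt.eventually_ne hΦ0)
  have hA : IsAlgebraic (Algebra.adjoin k {D.θ}) (D.A E) := (hΔ.pow _).inv
  obtain ⟨h0, η, hη, hηε, H⟩ := fixAll hFix k F (Option (Option (Fin r))) D.θ
    (fun g => g.elim (D.A E) fun g => g.elim (D.G E) fun i => D.ex (ω i / D.θ ^ s) ^ D.q ^ E)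
    (by
      rintro (_ | _ | i)
      · exact hA
      · exact ((hg.pow _).mul hA).neg
      · exact ((hDa k F D {D.θ} hD hθa hg hΔ).2.2.2.2 _ s ((hw i).symm ▸ isAlgebraic_zero)).pow _)
    ε hε
  refine ⟨h0, η, hη, fun ι v Sp U A' G' x' y' hSp u1 u2 u3 u4 u5 u6 n1 n2 n3 n4 =>
    ⟨H U none A' u1 u2 u3 u6 n1, H U (some none) G' u1 u2 u4 u6 n2, ?_⟩⟩
  rcases hSp with rfl | ⟨j, hj, rfl, hv⟩
  · exact ⟨Fin 0, inferInstance, Fin.elim0, Fin.elim0, 1, fun i => i.elim0, by simp,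
      fun i => i.elim0, DS13.den0 σ _ _ _ hsur, by simp⟩
  refine ⟨Fin r, inferInstance, j, h, (tw σ)^[E] Pi, hj, rfl, fun i => ⟨h1 i, ?_⟩, ?_, ?_⟩
  · have a1 := u5 (j i)
    have a2 := n3 (j i)
    rw [hv] at a1 a2
    rw [H U (some (some i)) _ u1 u2 a1 u6 a2]
    exact h2 i
  · have := (hTw F (Fin r) D.q σ (D.A 0) (D.G 0) D.θ E hσ).2.2.2 hsur Pi hSq.2.1
    have e1 : D.A 0 ^ D.q ^ E = D.A E := by simp [DM.A]
    have e2 : D.G 0 ^ D.q ^ E = D.G E := by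
      have : ∀ n (y : F), σ^[n] y = y ^ D.q ^ n := fun n y => by
        rw [show (σ : F → F) = fun y => y ^ D.q from funext hσ, pow_iterate]
      rw [← this, DM.G, iterate_map_neg, iterate_map_mul, this, this]
      simp [DM.G]
    rwa [e1, e2] at this
  · refine hΦε (y := fun p => y' (j p.1, p.2)) ((dist_pi_lt_iff hε).2 fun p => ?_)
    have := n4 (j p.1, p.2)
    rw [dist_comm, dist_eq_norm]
    simp only [hv] at this
    exact this.trans_le hηε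

end Pool.Agent.CSU.SA.DS.MLs
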