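import Pool.Agent.Lib.MP_0c15f2_nt.DS.St

/-! Statement of the second half of the measure for one level. -/

namespace Pool.Agent.CSU.SA.DS

open Polynomial Finset

/-- From the output of the engine at the second point to a combination close to a period. -/
def MlBS : Prop :=
  ∀ (k F : Type) [Field k] [Fintype k] [NormedField F] [IsUltrametricDist F] [CompleteSpace F]
    [IsAlgClosed F] [Algebra k F] (D : DM F) (σ : F →+* F) (n δ r s E : ℕ) (ω : Fin r → F)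
    (Pi : PP (Fin r × Fin 2) F), D.Ok k → (∀ y, σ y = y ^ D.q) →
    IsAlgebraic (Algebra.adjoin k {D.θ}) D.g → IsAlgebraic (Algebra.adjoin k {D.θ}) D.Δ →
    D.Sq σ ω Pi → 1 ≤ E →
    ∃ (κ h0 : ℕ) (η : ℝ), 0 < η ∧ ∀ (ι : Type) [Fintype ι] (v : ι → F) (Sp : Set ι)
      (U : Submodule k (F × F)) (A' G' : F) (x' : ι → F) (y' : ι × Fin 2 → F) (P a d : ℕ)
      (B : PP (ι × Fin 2) F) (Mo : Submodule F[X] (PP (ι × Fin 2) F)) (ε : ℝ),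
      Fintype.card ι ≤ n →
      (Sp = ∅ ∨ ∃ j : Fin r → ι, Function.Injective j ∧ Set.range j = Sp ∧
        ∀ i, v (j i) = ω i / D.θ ^ s) →
      1 ∈ U → (D.θ, D.θ) ∈ U → (D.A E, A') ∈ U → (D.G E, G') ∈ U →
      (∀ l, (D.ex (v l) ^ D.q ^ E, x' l) ∈ U) → (∀ p ∈ U ^ h0, p.1 = 0 → p.2 = 0) →
      0 ≤ ε → ε ≤ 1 → ε < η → ‖D.A E - A'‖ ≤ ε ^ D.q ^ E → ‖D.G E - G'‖ ≤ ε ^ D.q ^ E →
      (∀ l, ‖D.ex (v l) ^ D.q ^ E - x' l‖ ≤ ε ^ D.q ^ E) →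
      (∀ p : ι × Fin 2, ‖D.ph (v p.1) 0 (E + p.2) 0 - y' p‖ ≤ ε ^ D.q ^ E) →
      B ≠ 0 → RowT δ d B → B ∈ Mo →
      (∀ f ∈ Mo, pb σ (LL A' G' (D.θ ^ D.q ^ E) fun l => A' * x' l) P f ∈ Mo) →
      (∀ (g : F[X]) f, g ≠ 0 → MvPolynomial.C g * f ∈ Mo → f ∈ Mo) →
      (∀ w ∈ Mo, evp D.θ (vals σ D.θ y' (LL A' G' (D.θ ^ D.q ^ E) fun l => A' * x' l) (P + a))
        ((tw σ)^[a] w) = 0) →
      ∃ (β : ι → F) (lam : F), (∀ l, D.End (β l) ∧ ‖β l‖ ≤ ‖D.θ‖ ^ (κ * (d + 1))) ∧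
        (∃ l ∉ Sp, β l ≠ 0) ∧ D.ex lam = 0 ∧
        ‖∑ l, β l * v l - lam‖ ≤ ‖D.θ‖ ^ (κ * (d + 1)) * ε

end Pool.Agent.CSU.SA.DS
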