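import Pool.Agent.Lib.MP_0370b2_nt.SA.Ml0
import Pool.Agent.Lib.MP_0370b2_nt.SA.Ht
import Pool.Agent.Lib.MP_0c15f2_nt.DS.MlB0
import Pool.Agent.Lib.MP_0c15f2_nt.DS.NdG

/-! The second half of the measure for one level. -/

namespace Pool.Agent.CSU.SA.DS

open Polynomial Finset

lemma MlB.cont {ι F : Type} [NormedField F] [Fintype ι] (c : F) (f : PP ι F) (V : ι → F)
    (h : evp c V f ≠ 0) : ∃ η : ℝ, 0 < η ∧ ∀ V', (∀ p, ‖V' p - V p‖ < η) → evp c V' f ≠ 0 := by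
  have e : ∀ V, evp c V f = MvPolynomial.eval V (MvPolynomial.map (evalRingHom c) f) := fun V =>
    (MvPolynomial.eval_map _ _ _).symm
  simp only [e] at h ⊢
  obtain ⟨η, h0, h1⟩ := Metric.eventually_nhds_iff.1
    ((MvPolynomial.continuous_eval _).continuousAt.eventually_ne h)
  exact ⟨η, h0, fun V' h2 => h1 ((dist_pi_lt_iff h0).2 fun p => by rw [dist_eq_norm]; exact h2 p)⟩

lemma MlB.A_add {F : Type} [NormedField F] (D : DM F) (m n : ℕ) :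
    D.A (m + n) = D.A m ^ D.q ^ n := by
  rw [DM.A, DM.A, inv_pow, ← pow_mul, pow_add]

lemma MlB.G_add {F : Type} [NormedField F] (D : DM F) {σ : F →+* F} (hσ : ∀ y, σ y = y ^ D.q)
    (m n : ℕ) : D.G (m + n) = D.G m ^ D.q ^ n := by
  rw [← AX.iter_eq hσ, DM.G, DM.G, iterate_map_neg, AX.iter_eq hσ, mul_pow, inv_pow, ← pow_mul,
    ← pow_mul, pow_add]

theorem mlB (hAn : An1S) (hDa : DaS) (hHh : HhS) (hFix : FixS) (hTw : TwS) (hAlg : AlgS)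
    (hNear : NearS) : MlBS := by
  intro k F _ _ _ _ _ _ _ D σ n δ r s E ω Pi hD hσ hg hΔ hSq hE
  have hθ := hD.2.1
  have hθ0 : D.θ ≠ 0 := norm_pos_iff.1 (by positivity)
  have q2 : 2 ≤ D.q := hD.1 ▸ Fintype.one_lt_card
  have : Uncountable F := (hAn k F D hD).1
  have hs : Function.Surjective σ := fun a =>
    (IsAlgClosed.exists_pow_nat_eq a (n := D.q) (by omega)).imp fun b e => (hσ b).trans e
  obtain ⟨κ, hκ⟩ := hAlg D.q n δ s
  have aθ : IsAlgebraic (Algebra.adjoin k {D.θ}) D.θ :=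
    isAlgebraic_algebraMap (⟨D.θ, Algebra.self_mem_adjoin_singleton k _⟩ : Algebra.adjoin k {D.θ})
  have hw : ∀ i, D.θ ^ s * (ω i / D.θ ^ s) = ω i := fun i => mul_div_cancel₀ _ (pow_ne_zero _ hθ0)
  have hw0 : ∀ i, D.ex (D.θ ^ s * (ω i / D.θ ^ s)) = 0 := fun i => by rw [hw, hSq.1]
  have aA : IsAlgebraic (Algebra.adjoin k {D.θ}) (D.A E) := (hΔ.pow _).inv
  obtain ⟨h1, η1, p1, f1⟩ := hFix k F D.θ _ aA
  obtain ⟨h2, η2, p2, f2⟩ := hFix k F D.θ (D.G E) ((hg.pow _).mul aA).neg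
  choose h3 η3 p3 f3 using fun i => hFix k F D.θ (D.ex (ω i / D.θ ^ s) ^ D.q ^ E)
    (((hDa k F D {D.θ} hD aθ hg hΔ).2.2.2.2 _ s (by rw [hw0]; exact isAlgebraic_zero)).pow _)
  choose h hh using fun i => hHh k F D σ (ω i / D.θ ^ s) s E hD hσ hE (hw0 i)
  obtain ⟨η4, p4, f4⟩ := MlB.cont _ _ _ (hSq.2.2 E hE)
  obtain ⟨η, p0, e1, e2, e3, e4⟩ : ∃ η : ℝ, 0 < η ∧ η ≤ η1 ∧ η ≤ η2 ∧ (∀ i, η ≤ η3 i) ∧
      η ≤ η4 / ‖D.θ‖ ^ s := by
    obtain ⟨η, a, b⟩ := _root_.Pi.exists_forall_pos_add_lt (x := fun _ => (0 : ℝ)) p3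
    exact ⟨min (min η1 η2) (min η (η4 / ‖D.θ‖ ^ s)), by positivity,
      (min_le_left _ _).trans (min_le_left _ _), (min_le_left _ _).trans (min_le_right _ _),
      fun i => ((min_le_right _ _).trans (min_le_left _ _)).trans (by simpa using (b i).le),
      (min_le_right _ _).trans (min_le_right _ _)⟩
  refine ⟨2 * κ, h1 + h2 + ∑ i, h3 i, η, p0, ?_⟩
  intro ι _ v Sp U A' G' x' y' P a d B Mo ε hn hSp u1 uθ uA uG ux hz ε0 ε1 εη cA cG cx cy B0 BR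
    BM m1 m2 m3
  have hε : ε ^ D.q ^ E < η := (pow_le_of_le_one ε0 ε1 (by positivity)).trans_lt εη
  have hz' : ∀ m, m ≤ h1 + h2 + ∑ i, h3 i → ∀ p ∈ U ^ m, p.1 = 0 → p.2 = 0 := fun m hm p hp =>
    hz p (up_mono u1 hm hp)
  obtain rfl := f1 U A' u1 uθ uA (hz' _ (by omega)) (cA.trans_lt (hε.trans_le e1))
  obtain rfl := f2 U G' u1 uθ uG (hz' _ (by omega)) (cG.trans_lt (hε.trans_le e2))
  have A0 : D.A E ≠ 0 := inv_ne_zero (pow_ne_zero _ hD.2.2.2.2)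
  obtain ⟨f, fR, fE, l0, hl0, b, hb⟩ : ∃ f : PP (ι × Fin 2) F, RowT 1 (κ * (d + 1)) f ∧
      Eq2 σ (D.A E ^ D.q ^ P) (D.G E ^ D.q ^ P) ((D.θ ^ D.q ^ E) ^ D.q ^ P)
        (fun l => (D.A E * x' l) ^ D.q ^ P) f ∧
      ∃ l ∉ Sp, ∃ b, f.coeff (Finsupp.single (l, b) 1) ≠ 0 := by
    rcases hSp with rfl | ⟨j, hj, rfl, hv⟩
    · obtain ⟨f, a1, a2, l, -, a3⟩ := hκ k ι Empty F σ D.θ _ _ _ y' Empty.elim Empty.elim 1 E P a d B
        Mo hD.1.symm hn hσ (pow_inj hθ q2) A0 hE (fun i => i.elim) (fun i => i.elim)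
        (Pool.Agent.DS13.den0 _ _ _ _ hs) (by rw [map_one]; exact one_ne_zero) B0 BR BM m1 m2 m3
      exact ⟨f, a1, a2, l, Set.notMem_empty l, a3⟩
    · refine hκ k ι (Fin r) F σ D.θ _ _ _ y' j h ((tw σ)^[E] Pi) E P a d B Mo hD.1.symm hn hσ
        (pow_inj hθ q2) A0 hE hj (fun i => ⟨(hh i).1, ?_⟩) ?_ (f4 _ fun p => ?_) B0 BR BM m1 m2 m3
      · rw [f3 i U (x' (j i)) u1 uθ (hv i ▸ ux (j i)) (hz' _ (le_add_left
          (single_le_sum (f := h3) (fun _ _ => Nat.zero_le _) (mem_univ i))))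
          (hv i ▸ (cx (j i)).trans_lt (hε.trans_le (e3 i)))]
        exact (hh i).2.1
      · have := (hTw F (Fin r) D.q σ _ _ _ E hσ).2.2.2 hs Pi hSq.2.1
        rwa [← MlB.A_add, ← MlB.G_add D hσ, zero_add] at this
      · have e : Zv σ s j h D.θ y' p - D.ph (ω p.1) 0 (E + p.2) 0 =
            -(D.θ ^ s * (D.ph (v (j p.1)) 0 (E + p.2) 0 - y' (j p.1, p.2))) := by
          obtain ⟨i, b⟩ := p
          have a1 := (hh i).2.2
          rw [hw] at a1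
          fin_cases b
          · simp only [Zv, hv, Fin.zero_eta, if_true, add_zero, a1.1]; ring
          · simp only [Zv, hv, Fin.mk_one, one_ne_zero, if_false, a1.2]; ring
        rw [e, norm_neg, norm_mul, norm_pow, mul_comm, ← lt_div_iff₀ (by positivity)]
        exact (cy (j p.1, p.2)).trans_lt (hε.trans_le e4)
  obtain ⟨β, lam, b1, b2, b3⟩ := hNear k F ι D σ v (fun l => x' l ^ D.q ^ P) (E + P) _ f ε hD hσ ε0
    ε1 (fun l => by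
      rw [pow_add, pow_mul, pow_mul, ← AX.iter_eq hσ, ← AX.iter_eq hσ P (x' l), ← iterate_map_sub,
        AX.iter_eq hσ, norm_pow]
      exact pow_le_pow_left₀ (norm_nonneg _) (cx l) _) fR (by
      simpa only [MlB.A_add, MlB.G_add D hσ, pow_add, pow_mul, mul_pow] using fE)
  refine ⟨β, lam, fun l => ⟨(b1 l).1, ?_⟩, ⟨l0, hl0, (b1 l0).2.2 b hb⟩, b2, ?_⟩ <;> rw [mul_assoc 2]
  exacts [(b1 l).2.1, b3]

end Pool.Agent.CSU.SA.DS
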