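import Pool.Agent.Lib.MP_0c15f2_nt.DS.Pst0

/-! Gradings and the filtration by weighted degree. -/

namespace Pool.Agent.DS.Pst

open MvPolynomial Finset

section Gen

variable {V A : Type} [CommRing A]

lemma mon_mem {R Γ : Type} [CommMonoid R] [AddCommMonoid Γ] (P : Γ → R → Prop) (h1 : P 0 1)
    (hm : ∀ a b x y, P a x → P b y → P (a + b) (x * y)) (u : V → Γ) (x : V → R)
    (hx : ∀ v, P (u v) (x v)) (α : V →₀ ℕ) :
    P (Finsupp.weight u α) (α.prod fun v n => x v ^ n) := by
  induction α using Finsupp.induction_linear with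
  | zero => simpa using h1
  | add f g hf hg =>
    rw [map_add, Finsupp.prod_add_index' (by simp) (by simp [pow_add])]
    exact hm _ _ _ _ hf hg
  | single v n =>
    rw [Finsupp.prod_single_index (by simp), Finsupp.weight_single]
    induction n with
    | zero => simpa using h1
    | succ n ih => rw [succ_nsmul, pow_succ]; exact hm _ _ _ _ ih (hx v)

lemma hom_mon {R : Type} [CommRing R] (φ : MvPolynomial V A →+* R) (α : V →₀ ℕ) (a : A) :
    φ (monomial α a) = φ (C a) * α.prod fun v n => φ (X v) ^ n := by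
  rw [monomial_eq, map_mul, map_finsuppProd]
  simp

variable {φ φ0 : MvPolynomial V A →+* MvPolynomial V A} {τ : A → A}

section Hom

variable {Γ : Type} [AddCommMonoid Γ] {u : V → Γ}

lemma comp_hom (hC : ∀ a, φ (C a) = C (τ a)) (hX : ∀ v, IsWeightedHomogeneous u (φ (X v)) (u v))
    (ν : Γ) (g : MvPolynomial V A) :
    weightedHomogeneousComponent u ν (φ g) = φ (weightedHomogeneousComponent u ν g) := by
  classical
  induction g using MvPolynomial.induction_on' with
  | monomial α a =>
    have h1 : IsWeightedHomogeneous u (φ (monomial α a)) (Finsupp.weight u α) := by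
      rw [hom_mon, hC]
      exact (mon_mem (fun ν y => IsWeightedHomogeneous u y ν) (isWeightedHomogeneous_one A u)
        (fun _ _ _ _ h h' => h.mul h') u _ hX α).C_mul _
    rw [weightedHomogeneousComponent_of_mem h1, weightedHomogeneousComponent_of_mem
      (isWeightedHomogeneous_monomial u α a rfl)]
    split_ifs <;> simp
  | add p q hp hq => simp only [map_add, hp, hq]

lemma hom_hom (hC : ∀ a, φ (C a) = C (τ a)) (hX : ∀ v, IsWeightedHomogeneous u (φ (X v)) (u v))
    {ν : Γ} {g : MvPolynomial V A} (h : IsWeightedHomogeneous u g ν) :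
    IsWeightedHomogeneous u (φ g) ν := by
  rw [← h.weightedHomogeneousComponent_same, ← comp_hom hC hX]
  exact weightedHomogeneousComponent_isWeightedHomogeneous ν _

end Hom

/-- All monomials have weight less than `ν`. -/
def Bl (u : V → ℕ) (ν : ℕ) (g : MvPolynomial V A) : Prop :=
  ∀ α, coeff α g ≠ 0 → Finsupp.weight u α < ν

variable {u : V → ℕ} {ν ν' : ℕ} {f g : MvPolynomial V A}

lemma Bl.mono (h : Bl u ν g) (e : ν ≤ ν') : Bl u ν' g := fun α hα => (h α hα).trans_le e

lemma bl_zero : Bl u ν (0 : MvPolynomial V A) := fun _ h => absurd (coeff_zero _) h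

lemma Bl.add (h : Bl u ν f) (h' : Bl u ν g) : Bl u ν (f + g) := fun α hα => by
  by_cases e : coeff α f = 0
  · exact h' α (by rwa [coeff_add, e, zero_add] at hα)
  · exact h α e

lemma Bl.mul (h : Bl u (ν + 1) f) (h' : Bl u ν' g) : Bl u (ν + ν') (f * g) := fun α hα => by
  classical
  rw [coeff_mul] at hα
  obtain ⟨x, hx, h0⟩ := exists_ne_zero_of_sum_ne_zero hα
  have h1 := h _ (left_ne_zero_of_mul h0)
  have h2 := h' _ (right_ne_zero_of_mul h0)
  rw [← mem_antidiagonal.1 hx, map_add]
  omega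

lemma Bl.cmul (h : Bl u ν g) (a : A) : Bl u ν (C a * g) := fun α hα =>
  h α (by rw [coeff_C_mul] at hα; exact right_ne_zero_of_mul hα)

lemma bl_sum {κ : Type} {t : Finset κ} {x : κ → MvPolynomial V A} (h : ∀ i ∈ t, Bl u ν (x i)) :
    Bl u ν (∑ i ∈ t, x i) := sum_induction x (Bl u ν) (fun _ _ => Bl.add) bl_zero h

lemma bl_of_hom (h : IsWeightedHomogeneous u g ν) : Bl u (ν + 1) g := fun _ hα =>
  (h hα).trans_lt (Nat.lt_succ_self _)

lemma Bl.comp (h : Bl u ν g) : weightedHomogeneousComponent u ν g = 0 := by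
  ext α
  rw [coeff_weightedHomogeneousComponent, coeff_zero]
  split_ifs with e
  · by_contra h0
    exact (h α h0).ne e
  · rfl

lemma top_hom (hC : ∀ a, φ (C a) = C (τ a)) (hC0 : ∀ a, φ0 (C a) = C (τ a))
    (hX0 : ∀ v, IsWeightedHomogeneous u (φ0 (X v)) (u v))
    (hX : ∀ v, Bl u (u v) (φ (X v) - φ0 (X v))) (h : Bl u (ν + 1) g) :
    Bl u (ν + 1) (φ g) ∧
      weightedHomogeneousComponent u ν (φ g) = φ0 (weightedHomogeneousComponent u ν g) := by
  have key : ∀ α a, Bl u (Finsupp.weight u α + 1) (φ0 (monomial α a)) ∧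
      Bl u (Finsupp.weight u α) (φ (monomial α a) - φ0 (monomial α a)) := fun α a => by
    have := mon_mem (fun ν (y : MvPolynomial V A × MvPolynomial V A) =>
      Bl u (ν + 1) y.2 ∧ Bl u ν (y.1 - y.2))
      ⟨bl_of_hom (isWeightedHomogeneous_one A u), by simpa using bl_zero⟩
      (fun a b x y hx hy => ⟨hx.1.mul hy.1, by
        have e : (x * y).1 - (x * y).2 = (y.1 - y.2 + y.2) * (x.1 - x.2) + x.2 * (y.1 - y.2) := by
          simp only [Prod.fst_mul, Prod.snd_mul]; ring
        rw [e]
        exact (add_comm a b ▸ ((hy.2.mono (Nat.le_succ _)).add hy.1).mul hx.2).add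
          (hx.1.mul hy.2)⟩) u (fun v => (φ (X v), φ0 (X v)))
      (fun v => ⟨bl_of_hom (hX0 v), hX v⟩) α
    simp only [Finsupp.prod, Prod.fst_prod, Prod.snd_prod, Prod.pow_fst, Prod.pow_snd] at this
    rw [hom_mon, hom_mon, hC, hC0, ← mul_sub]
    exact ⟨this.1.cmul _, this.2.cmul _⟩
  have h1 : Bl u ν (φ g - φ0 g) := by
    rw [g.as_sum, map_sum, map_sum, ← sum_sub_distrib]
    exact bl_sum fun α hα => (key α _).2.mono (Nat.le_of_lt_succ (h α (mem_support_iff.1 hα)))
  have h2 : Bl u (ν + 1) (φ0 g) := by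
    rw [g.as_sum, map_sum]
    exact bl_sum fun α hα => (key α _).1.mono (h α (mem_support_iff.1 hα))
  rw [← sub_add_cancel (φ g) (φ0 g)]
  exact ⟨(h1.mono (Nat.le_succ _)).add h2, by rw [map_add, h1.comp, zero_add, comp_hom hC0 hX0]⟩

end Gen

section Fil

variable {V F : Type} [Field F]

/-- Twice the degree is at most `n`. -/
def Lv (a : RatFunc F) (n : ℤ) : Prop := a = 0 ∨ 2 * a.intDegree ≤ n

variable {a b : RatFunc F} {n m : ℤ}

lemma Lv.mono (h : Lv a n) (e : n ≤ m) : Lv a m := h.imp id fun h => h.trans e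

lemma Lv.add (h : Lv a n) (h' : Lv b n) : Lv (a + b) n := by
  by_cases ha : a = 0
  · simpa [ha] using h'
  by_cases hb : b = 0
  · simpa [hb] using h
  by_cases hab : a + b = 0
  · exact Or.inl hab
  have := RatFunc.intDegree_add_le hb hab
  have h1 := h.resolve_left ha
  have h2 := h'.resolve_left hb
  exact Or.inr (by omega)

lemma Lv.mul (h : Lv a n) (h' : Lv b m) : Lv (a * b) (n + m) := by
  by_cases ha : a = 0
  · exact Or.inl (by simp [ha])
  by_cases hb : b = 0
  · exact Or.inl (by simp [hb])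
  have := RatFunc.intDegree_mul ha hb
  have h1 := h.resolve_left ha
  have h2 := h'.resolve_left hb
  exact Or.inr (by omega)

lemma Lv.neg (h : Lv a n) : Lv (-a) n := h.imp (by simp) (by rw [RatFunc.intDegree_neg]; exact id)

lemma lv_one : Lv (1 : RatFunc F) 0 := Or.inr (by simp)

lemma lv_nat (j : ℕ) : Lv (j : RatFunc F) 0 := by
  induction j with
  | zero => exact Or.inl (by simp)
  | succ j ih => rw [Nat.cast_succ]; exact ih.add lv_one

/-- Weighted degree at most `w`, the variable `t` having weight two. -/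
def Fil (wt : V → ℤ) (w : ℤ) (f : MvPolynomial V (RatFunc F)) : Prop :=
  ∀ α, Lv (coeff α f) (w - Finsupp.weight wt α)

variable {wt wt' : V → ℤ} {w w' : ℤ} {f g : MvPolynomial V (RatFunc F)}

lemma Fil.mono (h : Fil wt w f) (e : w ≤ w') : Fil wt w' f := fun α => (h α).mono (by omega)

lemma fil_zero : Fil wt w (0 : MvPolynomial V (RatFunc F)) := fun _ => Or.inl (coeff_zero _)

lemma Fil.add (h : Fil wt w f) (h' : Fil wt w g) : Fil wt w (f + g) := fun α => by
  rw [coeff_add]; exact (h α).add (h' α)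

lemma Fil.neg (h : Fil wt w f) : Fil wt w (-f) := fun α => by rw [coeff_neg]; exact (h α).neg

lemma fil_sum {κ : Type} {t : Finset κ} {x : κ → MvPolynomial V (RatFunc F)}
    (h : ∀ i ∈ t, Fil wt w (x i)) : Fil wt w (∑ i ∈ t, x i) :=
  sum_induction x (Fil wt w) (fun _ _ => Fil.add) fil_zero h

lemma Fil.mul (h : Fil wt w f) (h' : Fil wt w' g) : Fil wt (w + w') (f * g) := fun α => by
  classical
  rw [coeff_mul]
  refine sum_induction _ (fun y => Lv y _) (fun _ _ => Lv.add) (Or.inl rfl) fun x hx => ?_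
  refine ((h x.1).mul (h' x.2)).mono ?_
  rw [← mem_antidiagonal.1 hx, map_add]
  omega

lemma fil_mon (α : V →₀ ℕ) (h : Lv a (w - Finsupp.weight wt α)) : Fil wt w (monomial α a) :=
  fun β => by
    classical
    rw [coeff_monomial]
    split_ifs with e
    · exact e ▸ h
    · exact Or.inl rfl

lemma fil_C (h : Lv a w) : Fil wt w (C a : MvPolynomial V _) := fil_mon 0 (by simpa using h)

lemma fil_X (v : V) : Fil wt (wt v) (X v : MvPolynomial V (RatFunc F)) :=
  fil_mon _ (by simpa [Finsupp.weight_single] using lv_one)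

lemma Fil.cmul (h : Fil wt w f) (h' : Lv a n) : Fil wt (n + w) (C a * f) := (fil_C h').mul h

lemma Fil.comp {Γ : Type} [AddCommMonoid Γ] (h : Fil wt w f) (u : V → Γ) (ν : Γ) :
    Fil wt w (weightedHomogeneousComponent u ν f) := fun α => by
  classical
  rw [coeff_weightedHomogeneousComponent]
  split_ifs
  · exact h α
  · exact Or.inl rfl

lemma exists_fil (wt : V → ℤ) (f : MvPolynomial V (RatFunc F)) : ∃ w, Fil wt w f := by
  induction f using MvPolynomial.induction_on' with
  | monomial α a => exact ⟨2 * a.intDegree + Finsupp.weight wt α, fil_mon α (Or.inr (by omega))⟩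
  | add p q hp hq =>
    obtain ⟨w, h⟩ := hp
    obtain ⟨w', h'⟩ := hq
    exact ⟨max w w', (h.mono (le_max_left _ _)).add (h'.mono (le_max_right _ _))⟩

lemma eq_zero_of_fil (h : ∀ s : ℕ, Fil wt (w - s) f) : f = 0 := by
  ext α
  by_contra e
  have := (h (w - Finsupp.weight wt α - 2 * (coeff α f).intDegree + 1).toNat α).resolve_left e
  omega

lemma Fil.hom {φ : MvPolynomial V (RatFunc F) →+* MvPolynomial V (RatFunc F)}
    {τ : RatFunc F → RatFunc F} (hC : ∀ a, φ (C a) = C (τ a)) (hτ : ∀ a n, Lv a n → Lv (τ a) n)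
    (hX : ∀ v, Fil wt' (wt v) (φ (X v))) (h : Fil wt w f) : Fil wt' w (φ f) := by
  rw [f.as_sum, map_sum]
  refine fil_sum fun α _ => ?_
  rw [hom_mon, hC]
  exact ((mon_mem (Fil wt') (fil_C lv_one) (fun _ _ _ _ => Fil.mul) wt _ hX α).cmul
    (hτ _ _ (h α))).mono (by omega)

lemma fil_shift {u : V → ℕ} {k : ℕ} (h : IsWeightedHomogeneous u f k) :
    Fil (fun v => wt v + u v) (w + k) f ↔ Fil wt w f := by
  refine forall_congr' fun α => ?_
  by_cases e : coeff α f = 0
  · simp [Lv, e]
  have : Finsupp.weight (fun v => wt v + u v) α = Finsupp.weight wt α + k := by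
    rw [← h e]
    simp [Finsupp.weight_apply, Finsupp.sum, mul_add, sum_add_distrib]
  rw [this, add_sub_add_right_eq_sub]

end Fil

end Pool.Agent.DS.Pst
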