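import Pool.Agent.Lib.MP_0c15f2_nt.DS.Pst1

/-! Pure polynomials: the inverse of the pull back lowers their weight at a fixed rate. -/

namespace Pool.Agent.DS.Pst

open MvPolynomial Finset

/-- A rank two system over the field of rational functions. -/
structure Dt (ι F : Type) [Field F] where
  s : RatFunc F ≃+* RatFunc F
  e : RatFunc F
  g : RatFunc F
  x : ι → RatFunc F
  hs : ∀ a, (s a).intDegree = a.intDegree
  hX : s RatFunc.X = RatFunc.X
  e0 : e ≠ 0
  he : e.intDegree = 1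
  hg : Lv g 0

/-- Polynomials in pairs of variables over the rational functions. -/
abbrev RK (ι F : Type) [Field F] := MvPolynomial (ι × Fin 2) (RatFunc F)

/-- The weight of a variable. -/
def w0 {ι : Type} (v : ι × Fin 2) : ℤ := (v.2 : ℕ)

variable {ι F : Type} [Field F] (D : Dt ι F)

namespace Dt

/-- The pull back. -/
noncomputable def S : RK ι F →+* RK ι F := Sg D.s.toRingHom D.e D.g D.x

/-- Its inverse. -/
noncomputable def T : RK ι F →+* RK ι F :=
  eval₂Hom (C.comp D.s.symm.toRingHom) fun v => if v.2 = 0 then C (D.s.symm D.e)⁻¹ *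
    (X (v.1, 1) - C (D.s.symm D.g) * X (v.1, 0) - C (D.s.symm (D.x v.1))) else X (v.1, 0)

/-- The linear part. -/
noncomputable def lin : Dt ι F := { D with x := fun _ => 0 }

lemma S_C (a : RatFunc F) : D.S (C a) = C (D.s a) := by simp [S]

lemma S_X0 (l : ι) : D.S (X (l, 0)) = X (l, 1) := by simp [S]

lemma S_X1 (l : ι) : D.S (X (l, 1)) = C D.e * X (l, 0) + C D.g * X (l, 1) + C (D.x l) := by
  simp [S]

lemma T_C (a : RatFunc F) : D.T (C a) = C (D.s.symm a) := by simp [T]

lemma T_X0 (l : ι) : D.T (X (l, 0)) = C (D.s.symm D.e)⁻¹ *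
    (X (l, 1) - C (D.s.symm D.g) * X (l, 0) - C (D.s.symm (D.x l))) := by simp [T]

lemma T_X1 (l : ι) : D.T (X (l, 1)) = X (l, 0) := by simp [T]

lemma e1 : D.s.symm D.e ≠ 0 := by simpa using D.e0

lemma Ce : (C (D.s.symm D.e) : RK ι F) * C (D.s.symm D.e)⁻¹ = 1 := by
  rw [← C_mul, mul_inv_cancel₀ D.e1, C_1]

lemma TS (f : RK ι F) : D.T (D.S f) = f := by
  refine RingHom.congr_fun (f := D.T.comp D.S) (g := RingHom.id _) (ringHom_ext ?_ ?_) f
  · intro a; simp [S_C, T_C]
  · simp only [Prod.forall, Fin.forall_fin_two, RingHom.comp_apply, RingHom.id_apply, S_X0, S_X1,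
      map_add, map_mul, T_C, T_X0, T_X1, true_and]
    intro l
    rw [← mul_assoc, Ce]; ring

lemma ST (f : RK ι F) : D.S (D.T f) = f := by
  refine RingHom.congr_fun (f := D.S.comp D.T) (g := RingHom.id _) (ringHom_ext ?_ ?_) f
  · intro a; simp [S_C, T_C]
  · simp only [Prod.forall, Fin.forall_fin_two, RingHom.comp_apply, RingHom.id_apply, S_X0, S_X1,
      map_sub, map_mul, S_C, T_X0, T_X1, and_true, map_inv₀, RingEquiv.apply_symm_apply]
    intro l
    have : (C D.e⁻¹ : RK ι F) * C D.e = 1 := by rw [← C_mul, inv_mul_cancel₀ D.e0, C_1]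
    linear_combination (X (l, 0) : RK ι F) * this

lemma lv_s (a : RatFunc F) (n : ℤ) (h : Lv a n) : Lv (D.s a) n :=
  h.imp (fun h => by simp [h]) (by rw [D.hs]; exact id)

lemma lv_t (a : RatFunc F) (n : ℤ) (h : Lv a n) : Lv (D.s.symm a) n :=
  h.imp (fun h => by simp [h]) (by rw [← D.hs (D.s.symm a), RingEquiv.apply_symm_apply]; exact id)

lemma lv_e : Lv D.e 2 := Or.inr (by rw [D.he]; rfl)

lemma lv_ei : Lv (D.s.symm D.e)⁻¹ (-2) := by
  rw [← map_inv₀]
  exact D.lv_t _ _ (Or.inr (by rw [RatFunc.intDegree_inv, D.he]; rfl))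

section Grade

variable {Γ : Type} [AddCommMonoid Γ] {u : ι → Γ}

lemma hx (l : ι) (b : Fin 2) :
    IsWeightedHomogeneous (fun v : ι × Fin 2 => u v.1) (X (l, b) : RK ι F) (u l) :=
  isWeightedHomogeneous_X _ _ _

lemma hc (h : ∀ l, u l ≠ 0 → D.x l = 0) (l : ι) (τ : RatFunc F →+* RatFunc F) :
    IsWeightedHomogeneous (fun v : ι × Fin 2 => u v.1) (C (τ (D.x l)) : RK ι F) (u l) := by
  by_cases e : u l = 0
  · rw [e]; exact isWeightedHomogeneous_C _ _
  · rw [h l e, map_zero, C_0]; exact isWeightedHomogeneous_zero _ _ _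

lemma S_hom (h : ∀ l, u l ≠ 0 → D.x l = 0) (v : ι × Fin 2) :
    IsWeightedHomogeneous (fun v : ι × Fin 2 => u v.1) (D.S (X v)) (u v.1) := by
  revert v
  simp only [Prod.forall, Fin.forall_fin_two, S_X0, S_X1]
  exact fun l => ⟨hx l 1, (((hx l 0).C_mul _).add ((hx l 1).C_mul _)).add
    (D.hc h l (RingHom.id _))⟩

lemma T_hom (h : ∀ l, u l ≠ 0 → D.x l = 0) (v : ι × Fin 2) :
    IsWeightedHomogeneous (fun v : ι × Fin 2 => u v.1) (D.T (X v)) (u v.1) := by
  revert v
  simp only [Prod.forall, Fin.forall_fin_two, T_X0, T_X1]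
  exact fun l => ⟨(((hx l 1).sub ((hx l 0).C_mul _)).sub
    (D.hc h l D.s.symm.toRingHom)).C_mul _, hx l 0⟩

end Grade

lemma bl_C {u : ι → ℕ} (hu : ∀ l, 0 < u l) (l : ι) (a : RatFunc F) :
    Bl (fun v : ι × Fin 2 => u v.1) (u l) (C a : RK ι F) :=
  (bl_of_hom (isWeightedHomogeneous_C _ a)).mono (hu l)

variable {u : ι → ℕ} {ν : ℕ} {f : RK ι F}

lemma S_top (hu : ∀ l, 0 < u l) (h : Bl (fun v : ι × Fin 2 => u v.1) (ν + 1) f) :
    Bl (fun v : ι × Fin 2 => u v.1) (ν + 1) (D.S f) := by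
  refine (top_hom D.S_C D.lin.S_C (D.lin.S_hom fun _ _ => rfl) ?_ h).1
  simp only [Prod.forall, Fin.forall_fin_two, S_X0, S_X1, sub_self]
  exact fun l => ⟨bl_zero, by simpa [lin] using bl_C hu l (D.x l)⟩

lemma T_top (hu : ∀ l, 0 < u l) (h : Bl (fun v : ι × Fin 2 => u v.1) (ν + 1) f) :
    Bl (fun v : ι × Fin 2 => u v.1) (ν + 1) (D.T f) ∧
      weightedHomogeneousComponent (fun v : ι × Fin 2 => u v.1) ν (D.T f) =
        D.lin.T (weightedHomogeneousComponent (fun v : ι × Fin 2 => u v.1) ν f) := by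
  refine top_hom D.T_C D.lin.T_C (D.lin.T_hom fun _ _ => rfl) ?_ h
  simp only [Prod.forall, Fin.forall_fin_two, T_X0, T_X1, sub_self]
  refine fun l => ⟨?_, bl_zero⟩
  convert (bl_C hu l (-D.s.symm (D.x l))).cmul (D.s.symm D.e)⁻¹ using 1
  simp only [lin, map_zero, map_neg]
  ring

lemma Ti_top (hu : ∀ l, 0 < u l) (h : Bl (fun v : ι × Fin 2 => u v.1) (ν + 1) f) (s : ℕ) :
    Bl (fun v : ι × Fin 2 => u v.1) (ν + 1) (D.T^[s] f) ∧
      weightedHomogeneousComponent (fun v : ι × Fin 2 => u v.1) ν (D.T^[s] f) =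
        D.lin.T^[s] (weightedHomogeneousComponent (fun v : ι × Fin 2 => u v.1) ν f) := by
  induction s with
  | zero => exact ⟨h, rfl⟩
  | succ s ih =>
    rw [Function.iterate_succ_apply', Function.iterate_succ_apply', ← ih.2]
    exact D.T_top hu ih.1

lemma S_fil {d : ℕ} {w : ℤ} (hf : IsWeightedHomogeneous (fun _ => 1) f d) (h : Fil w0 w f) :
    Fil w0 (w + d) (D.lin.S f) := by
  refine Fil.hom D.lin.S_C D.lv_s ?_ ((fil_shift hf).2 h)
  simp only [Prod.forall, Fin.forall_fin_two, S_X0, S_X1]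
  refine fun l => ⟨fil_X (l, 1), (((fil_X (l, 0)).cmul D.lv_e).add
    (((fil_X (l, 1)).cmul D.hg).mono (by simp [w0]))).add (fil_C (Or.inl rfl))⟩

lemma T_fil {d : ℕ} {w : ℤ} (hf : IsWeightedHomogeneous (fun _ => 1) f d) (h : Fil w0 w f) :
    Fil w0 (w - d) (D.lin.T f) := by
  rw [← fil_shift (hom_hom D.lin.T_C (D.lin.T_hom (u := fun _ => 1) fun _ _ => rfl) hf),
    sub_add_cancel]
  refine Fil.hom D.lin.T_C D.lv_t ?_ h
  simp only [Prod.forall, Fin.forall_fin_two, T_X0, T_X1]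
  refine fun l => ⟨?_, fil_X (wt := fun v => w0 v + (1 : ℕ)) (l, 0)⟩
  have h1 := fil_X (F := F) (wt := fun v => w0 v + (1 : ℕ)) (l, 1)
  have h0 := (fil_X (wt := fun v => w0 v + (1 : ℕ)) (l, 0)).cmul (D.lv_t _ _ D.hg)
  have := (h1.add (h0.mono (by simp [w0])).neg).cmul D.lv_ei
  simp only [lin, map_zero, sub_eq_add_neg, neg_zero, add_zero]
  exact this.mono (by simp [w0])

/-- The inverse lowers the weight at rate `m`. -/
def Pure (m : ℕ) (f : RK ι F) : Prop := ∃ c : ℤ, ∀ s : ℕ, Fil w0 (c - s * m) (D.T^[s] f)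

variable {D} {m : ℕ} {g : RK ι F}

lemma Pure.add (h : D.Pure m f) (h' : D.Pure m g) : D.Pure m (f + g) := by
  obtain ⟨c, h⟩ := h
  obtain ⟨c', h'⟩ := h'
  refine ⟨max c c', fun s => ?_⟩
  rw [iterate_map_add]
  exact ((h s).mono (by omega)).add ((h' s).mono (by omega))

lemma Ti_C (s : ℕ) {a : RatFunc F} {n : ℤ} (h : Lv a n) :
    ∃ b, Lv b n ∧ ∀ f, D.T^[s] (C a * f) = C b * D.T^[s] f := by
  induction s with
  | zero => exact ⟨a, h, fun _ => rfl⟩
  | succ s ih =>
    obtain ⟨b, hb, e⟩ := ih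
    exact ⟨_, D.lv_t _ _ hb, fun f => by simp only [Function.iterate_succ_apply', e, map_mul, T_C]⟩

lemma Pure.cmul (h : D.Pure m f) (a : RatFunc F) : D.Pure m (C a * f) := by
  obtain ⟨c, h⟩ := h
  refine ⟨2 * a.intDegree + c, fun s => ?_⟩
  obtain ⟨b, hb, e⟩ := Ti_C (D := D) s (a := a) (Or.inr le_rfl)
  rw [e]
  exact ((h s).cmul hb).mono (by omega)

lemma Pure.map (h : D.Pure m f) : D.Pure m (D.S f) := by
  obtain ⟨c, h⟩ := h
  obtain ⟨w, hw⟩ := exists_fil w0 (D.S f)
  refine ⟨max w (c + m), fun s => ?_⟩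
  cases s with
  | zero => exact hw.mono (by omega)
  | succ s =>
    rw [Function.iterate_succ_apply, TS]
    refine (h s).mono ?_
    have := le_max_right w (c + m)
    push_cast
    linarith

lemma pure_zero : D.Pure m 0 := ⟨0, fun s => by rw [iterate_map_zero]; exact fil_zero⟩

/-- A pure polynomial of small degree vanishes. -/
lemma Pure.eq_zero (h : D.Pure m f) (hf : Bl (fun _ => 1) m f) : f = 0 := by
  obtain ⟨c, h⟩ := h
  suffices H : ∀ d ≤ m, Bl (fun _ => 1) d f → f = 0 from H m le_rfl hf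
  intro d
  induction d with
  | zero =>
    refine fun _ h0 => MvPolynomial.ext _ _ fun α => ?_
    by_contra e
    exact Nat.not_lt_zero _ (h0 α e)
  | succ d ih =>
    intro hd h0
    have key : weightedHomogeneousComponent (fun _ => 1) d f = 0 := by
      refine eq_zero_of_fil (wt := w0) (w := c) fun s => ?_
      have h1 := (h s).comp (fun _ => 1) d
      rw [(D.Ti_top (u := fun _ => 1) (fun _ => one_pos) h0 s).2] at h1
      have h2 : ∀ (j : ℕ) (y : RK ι F) (w : ℤ), IsWeightedHomogeneous (fun _ => 1) y d →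
          Fil w0 w (D.lin.T^[j] y) → Fil w0 (w + j * d) y := fun j => by
        induction j with
        | zero => exact fun y w _ h => by simpa using h
        | succ j ih =>
          intro y w hy h
          have hy' := hom_hom D.lin.T_C (D.lin.T_hom (u := fun _ => 1) fun _ _ => rfl) hy
          have := D.S_fil hy' (ih _ w hy' h)
          rw [ST] at this
          exact this.mono (by push_cast; linarith)
      refine (h2 s _ _ (weightedHomogeneousComponent_isWeightedHomogeneous _ _) h1).mono ?_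
      have : (d : ℤ) + 1 ≤ m := by exact_mod_cast hd
      nlinarith [Int.natCast_nonneg s]
    refine ih (by omega) fun α hα => lt_of_le_of_ne (Nat.le_of_lt_succ (h0 α hα)) fun e => hα ?_
    have := congrArg (coeff α) key
    rwa [coeff_weightedHomogeneousComponent, if_pos e] at this

lemma T_d (l : ι) (g : RK ι F) :
    D.T (pderiv (l, 0) g) = C (D.s.symm D.e) * pderiv (l, 1) (D.T g) ∧
    D.T (pderiv (l, 1) g) = pderiv (l, 0) (D.T g) + C (D.s.symm D.g) * pderiv (l, 1) (D.T g) := by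
  classical
  induction g using MvPolynomial.induction_on with
  | C a => simp [T_C]
  | add p q hp hq => simp only [map_add, hp.1, hp.2, hq.1, hq.2]; constructor <;> ring
  | mul_X p v hp =>
    have key : D.T (pderiv (l, 0) (X v)) = C (D.s.symm D.e) * pderiv (l, 1) (D.T (X v)) ∧
        D.T (pderiv (l, 1) (X v)) = pderiv (l, 0) (D.T (X v)) +
          C (D.s.symm D.g) * pderiv (l, 1) (D.T (X v)) := by
      revert v
      simp only [Prod.forall, Fin.forall_fin_two, T_X0, T_X1]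
      intro k
      by_cases e : k = l
      · subst e
        simp [pderiv_X, Ce]
        ring
      · simp [pderiv_X, e]
    simp only [Derivation.leibniz, smul_eq_mul, map_add, map_mul, hp.1, hp.2, key.1, key.2]
    constructor <;> ring

lemma fil_d {w : ℤ} (h : Fil w0 w f) (v : ι × Fin 2) : Fil w0 (w - w0 v) (pderiv v f) := fun α => by
  rw [coeff_pderiv]
  refine ((h _).mul (lv_nat (α v + 1))).mono ?_ |> fun h => by simpa using h
  rw [map_add, Finsupp.weight_single]
  simp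
  omega

lemma Pure.d (h : D.Pure (m + 1) f) (v : ι × Fin 2) : D.Pure m (pderiv v f) := by
  have key : ∀ (l : ι) (s : ℕ) (g : RK ι F) (w : ℤ), Fil w0 w (D.T^[s] g) →
      Fil w0 (w + s) (D.T^[s] (pderiv (l, 0) g)) ∧
        Fil w0 (w + s - 1) (D.T^[s] (pderiv (l, 1) g)) := fun l s => by
    induction s with
    | zero => exact fun g w h => ⟨by simpa [w0] using fil_d h (l, 0),
        by simpa [w0] using fil_d h (l, 1)⟩
    | succ s ih =>
      intro g w h
      obtain ⟨h1, h2⟩ := ih _ w h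
      obtain ⟨b, hb, e⟩ := Ti_C (D := D) s (D.lv_t _ _ D.lv_e)
      obtain ⟨b', hb', e'⟩ := Ti_C (D := D) s (D.lv_t _ _ D.hg)
      rw [Function.iterate_succ_apply, Function.iterate_succ_apply, (T_d l g).1, (T_d l g).2,
        iterate_map_add, e, e']
      exact ⟨(h2.cmul hb).mono (by push_cast; omega),
        (h1.mono (by push_cast; omega)).add ((h2.cmul hb').mono (by push_cast; omega))⟩
  obtain ⟨c, h⟩ := h
  refine ⟨c, fun s => ?_⟩
  revert v
  simp only [Prod.forall, Fin.forall_fin_two]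
  exact fun l => ⟨(key l s _ _ (h s)).1.mono (by push_cast; linarith),
    (key l s _ _ (h s)).2.mono (by push_cast; linarith)⟩

end Dt

end Pool.Agent.DS.Pst
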