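import Pool.Agent.Lib.MP_0c15f2_nt.DS.Pst2

/-! Pure polynomials: roots, stable spaces, and removal of the special variables. -/

namespace Pool.Agent.DS.Pst

open MvPolynomial Finset

variable {ι F : Type} [Field F] {D : Dt ι F} {m : ℕ} {f g : RK ι F}

lemma lv_of_sum {κ : Type} {t : Finset κ} {y : κ → RatFunc F} {n : ℤ}
    (hd : ∀ i ∈ t, ∀ j ∈ t, y i ≠ 0 → y j ≠ 0 → (y i).intDegree = (y j).intDegree → i = j)
    (h : Lv (∑ i ∈ t, y i) n) {i : κ} (hi : i ∈ t) : Lv (y i) n := by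
  classical
  by_cases h0 : y i = 0
  · exact Or.inl h0
  obtain ⟨j, hj, hm⟩ := exists_max_image (t.filter fun i => y i ≠ 0) (fun i => (y i).intDegree)
    ⟨i, mem_filter.2 ⟨hi, h0⟩⟩
  obtain ⟨hj, hj0⟩ := mem_filter.1 hj
  have h1 : Lv (∑ k ∈ t.erase j, y k) (2 * (y j).intDegree - 2) := by
    refine sum_induction _ (fun y => Lv y _) (fun _ _ => Lv.add) (Or.inl rfl) fun k hk => ?_
    by_cases e : y k = 0
    · exact Or.inl e
    have h2 := hm k (mem_filter.2 ⟨mem_of_mem_erase hk, e⟩)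
    have h3 := mt (hd k (mem_of_mem_erase hk) j hj e hj0) (ne_of_mem_erase hk)
    exact Or.inr (by omega)
  have h2 := (h.mono (le_max_left n (2 * (y j).intDegree - 2))).add
    (h1.mono (le_max_right n _)).neg
  rw [← add_sum_erase _ _ hj, add_neg_cancel_right] at h2
  have h3 := h2.resolve_left hj0
  have h4 := hm i (mem_filter.2 ⟨hi, h0⟩)
  exact Or.inr (by omega)

lemma deg_pow {a : RatFunc F} (ha : a ≠ 0) (n : ℕ) : (a ^ n).intDegree = n * a.intDegree := by
  induction n with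
  | zero => simp
  | succ n ih => rw [pow_succ, RatFunc.intDegree_mul (pow_ne_zero _ ha) ha, ih]; push_cast; ring

namespace Dt

lemma Pure.root (p : ℕ) [Fact p.Prime] [CharP F p] {h : ℕ → RK ι F}
    (hp : D.Pure (p * m) (∑ i ∈ range p, C (RatFunc.X ^ i) * h i ^ p)) {i : ℕ} (hi : i < p) :
    D.Pure m (h i) := by
  obtain ⟨c, hc⟩ := hp
  have p0 := (Fact.out : p.Prime).pos
  refine ⟨|c|, fun s β => ?_⟩
  have e : D.T^[s] (∑ i ∈ range p, C (RatFunc.X ^ i) * h i ^ p) =
      ∑ i ∈ range p, C (RatFunc.X ^ i) * (D.T^[s] (h i)) ^ p := by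
    induction s with
    | zero => rfl
    | succ s ih =>
      rw [Function.iterate_succ_apply', ih]
      simp only [Function.iterate_succ_apply', map_sum, map_mul, map_pow, T_C,
        D.s.symm_apply_eq.2 D.hX.symm]
  have h1 := hc s (p • β)
  have hd : ∀ (i : ℕ) (a : RatFunc F), RatFunc.X ^ i * a ^ p ≠ 0 →
      (RatFunc.X ^ i * a ^ p).intDegree = i + p * a.intDegree := fun i a h => by
    have ha : a ≠ 0 := fun e => h (by simp [e, p0.ne'])
    rw [RatFunc.intDegree_mul (left_ne_zero_of_mul h) (right_ne_zero_of_mul h),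
      deg_pow RatFunc.X_ne_zero, deg_pow ha, RatFunc.intDegree_X, mul_one]
  have hk : ∀ y : RK ι F, coeff (p • β) (y ^ p) = coeff β y ^ p := fun y => by
    rw [← map_frobenius_expand, coeff_map, coeff_expand_smul _ p0.ne']
    rfl
  simp only [e, coeff_sum, coeff_C_mul, hk] at h1
  have h2 := lv_of_sum (fun i hi j hj h0 h0' e => by
    rw [hd _ _ h0, hd _ _ h0'] at e
    have := congrArg (· % (p : ℤ)) e
    simp only [Int.add_mul_emod_self_left] at this
    have h3 : i % p = j % p := by exact_mod_cast this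
    rwa [Nat.mod_eq_of_lt (mem_range.1 hi), Nat.mod_eq_of_lt (mem_range.1 hj)] at h3) h1
    (mem_range.2 hi)
  by_cases h0 : coeff β (D.T^[s] (h i)) = 0
  · exact Or.inl h0
  have h3 := mul_ne_zero (pow_ne_zero i (RatFunc.X_ne_zero (K := F))) (pow_ne_zero p h0)
  have h4 := h2.resolve_left h3
  rw [hd _ _ h3, map_nsmul, nsmul_eq_mul] at h4
  right
  have h5 : (p : ℤ) * (2 * (coeff β (D.T^[s] (h i))).intDegree + Finsupp.weight w0 β + s * m)
      ≤ |c| := by
    have := le_abs_self c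
    push_cast at h4
    linarith [Int.natCast_nonneg i]
  have h6 : (1 : ℤ) ≤ p := by exact_mod_cast p0
  by_contra h7
  nlinarith [abs_nonneg c]

/-- All elements of a stable space with injective top part are pure. -/
lemma pure_of_stable [Finite ι] {u : ι → ℕ} (hu : ∀ l, 0 < u l) {ν : ℕ}
    (N : Submodule (RatFunc F) (RK ι F)) (hT : ∀ g ∈ N, D.T g ∈ N)
    (h1 : ∀ g ∈ N, Bl (fun v => u v.1) (ν + 1) g)
    (h2 : ∀ g ∈ N, weightedHomogeneousComponent (fun v => u v.1) ν g = 0 → g = 0)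
    (h3 : ∀ g ∈ N, IsWeightedHomogeneous (fun _ => 1)
      (weightedHomogeneousComponent (fun v => u v.1) ν g) m) (hg : g ∈ N) : D.Pure m g := by
  obtain ⟨ψ, hψ⟩ := LinearMap.exists_leftInverse_of_injective
    ((weightedHomogeneousComponent (fun v : ι × Fin 2 => u v.1) ν).comp N.subtype)
    (LinearMap.ker_eq_bot'.2 fun y hy => Subtype.ext (h2 _ y.2 hy))
  choose r hr using fun α => exists_fil w0 (ψ (monomial α 1) : RK ι F)
  obtain ⟨c, hc⟩ := ((Finsupp.finite_of_nat_weight_le (fun _ : ι × Fin 2 => 1)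
    (fun _ => one_ne_zero) m).image fun α => r α - Finsupp.weight w0 α).bddAbove
  have key : ∀ y ∈ N, ∀ w, Fil w0 w (weightedHomogeneousComponent (fun v => u v.1) ν y) →
      Fil w0 (w + c) y := fun y hy w h => by
    have e : y = N.subtype (ψ (weightedHomogeneousComponent (fun v => u v.1) ν y)) :=
      congrArg Subtype.val (LinearMap.congr_fun hψ ⟨y, hy⟩).symm
    rw [e, (weightedHomogeneousComponent (fun v => u v.1) ν y).as_sum, map_sum, map_sum]
    refine fil_sum fun α hα => ?_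
    rw [← mul_one (coeff α _), ← smul_eq_mul, ← smul_monomial, map_smul, map_smul,
      smul_eq_C_mul]
    have := hc ⟨α, (h3 y hy (mem_support_iff.1 hα)).le, rfl⟩
    exact ((hr α).cmul (h α)).mono (by beta_reduce at this; omega)
  obtain ⟨w, hw⟩ := exists_fil w0 (weightedHomogeneousComponent (fun v => u v.1) ν g)
  have hN : ∀ s : ℕ, D.T^[s] g ∈ N ∧ Fil w0 (w - s * m)
      (weightedHomogeneousComponent (fun v => u v.1) ν (D.T^[s] g)) := fun s => by
    induction s with
    | zero => exact ⟨hg, by simpa using hw⟩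
    | succ s ih =>
      rw [Function.iterate_succ_apply', (D.T_top hu (h1 _ ih.1)).2]
      exact ⟨hT _ ih.1, (D.T_fil (h3 _ ih.1) ih.2).mono (by push_cast; linarith)⟩
  exact ⟨w + c, fun s => (key _ (hN s).1 _ (hN s).2).mono (by linarith)⟩

open Classical in
/-- The indicator of the special pairs. -/
noncomputable def zz (Sp : Set ι) (l : ι) : ℕ := if l ∈ Sp then 1 else 0

open Classical in
/-- The inverse acting on the non special variables only. -/
noncomputable def TY (D : Dt ι F) (Sp : Set ι) : RK ι F →+* RK ι F :=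
  eval₂Hom (C.comp D.s.symm.toRingHom) fun v => if v.1 ∈ Sp then X v else D.T (X v)

open Classical in
/-- A linear substitution in the special variables. -/
noncomputable def LZ (Sp : Set ι) (a b : RatFunc F) : RK ι F →+* RK ι F :=
  eval₂Hom C fun v => if v.1 ∈ Sp then
    (if v.2 = 0 then X (v.1, 1) else C a * X (v.1, 0) + C b * X (v.1, 1)) else X v

variable {Sp : Set ι} {a b : RatFunc F} {l : ι}

lemma TY_C (a : RatFunc F) : D.TY Sp (C a) = C (D.s.symm a) := by simp [TY]

lemma TY_s (h : l ∈ Sp) (j : Fin 2) : D.TY Sp (X (l, j)) = X (l, j) := by simp [TY, h]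

lemma TY_n (h : l ∉ Sp) (j : Fin 2) : D.TY Sp (X (l, j)) = D.T (X (l, j)) := by simp [TY, h]

lemma LZ_C (c : RatFunc F) : LZ Sp a b (C c) = C c := by simp [LZ]

lemma LZ_0 (h : l ∈ Sp) : LZ Sp a b (X (l, 0)) = X (l, 1) := by simp [LZ, h]

lemma LZ_1 (h : l ∈ Sp) : LZ Sp a b (X (l, 1)) = C a * X (l, 0) + C b * X (l, 1) := by
  simp [LZ, h]

lemma LZ_n (h : l ∉ Sp) (j : Fin 2) : LZ Sp a b (X (l, j)) = X (l, j) := by simp [LZ, h]

lemma TY_eq (hx : ∀ l ∈ Sp, D.x l = 0) (f : RK ι F) :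
    D.TY Sp f = LZ Sp (D.s.symm D.e) (D.s.symm D.g) (D.T f) := by
  have : D.TY Sp = (LZ Sp (D.s.symm D.e) (D.s.symm D.g)).comp D.T := ringHom_ext ?_ ?_
  · rw [this, RingHom.comp_apply]
  · intro a; simp [TY_C, T_C, LZ_C]
  · simp only [Prod.forall, Fin.forall_fin_two, RingHom.comp_apply]
    intro l
    by_cases h : l ∈ Sp
    · simp only [TY_s h, T_X0, T_X1, map_mul, map_sub, LZ_C, LZ_0 h, LZ_1 h, hx l h, map_zero,
        and_true]
      linear_combination (-X (l, 0) : RK ι F) * D.Ce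
    · simp [TY_n h, T_X0, T_X1, LZ_C, LZ_n h]

lemma TY_LZ (f : RK ι F) :
    D.TY Sp (LZ Sp a b f) = LZ Sp (D.s.symm a) (D.s.symm b) (D.TY Sp f) := by
  have : (D.TY Sp).comp (LZ Sp a b) = (LZ Sp (D.s.symm a) (D.s.symm b)).comp (D.TY Sp) :=
    ringHom_ext ?_ ?_
  · rw [← RingHom.comp_apply, this, RingHom.comp_apply]
  · intro a; simp [TY_C, LZ_C]
  · simp only [Prod.forall, Fin.forall_fin_two, RingHom.comp_apply]
    intro l
    by_cases h : l ∈ Sp
    · simp [TY_s h, LZ_0 h, LZ_1 h, TY_C]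
    · simp [TY_n h, T_X0, T_X1, LZ_C, LZ_n h]

lemma zz_x (hx : ∀ l ∈ Sp, D.x l = 0) (l : ι) (h : zz Sp l ≠ 0) : D.x l = 0 :=
  hx l (by by_contra e; exact h (if_neg e))

lemma TY_hom (hx : ∀ l ∈ Sp, D.x l = 0) (v : ι × Fin 2) :
    IsWeightedHomogeneous (fun v : ι × Fin 2 => zz Sp v.1) (D.TY Sp (X v)) (zz Sp v.1) := by
  obtain ⟨l, j⟩ := v
  by_cases h : l ∈ Sp
  · rw [TY_s h]; exact Dt.hx l j
  · rw [TY_n h]; exact D.T_hom (zz_x hx) (l, j)

lemma LZ_fil {k : ℕ} {w : ℤ} (ha : Lv a 2) (hb : Lv b 0)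
    (hf : IsWeightedHomogeneous (fun v : ι × Fin 2 => zz Sp v.1) f k) (h : Fil w0 w f) :
    Fil w0 (w + k) (LZ Sp a b f) := by
  refine Fil.hom LZ_C (fun _ _ => id) ?_ ((fil_shift hf).2 h)
  simp only [Prod.forall, Fin.forall_fin_two]
  intro l
  by_cases h : l ∈ Sp
  · rw [LZ_0 h, LZ_1 h]
    exact ⟨(fil_X (l, 1)).mono (by simp [w0, zz, h]),
      (((fil_X (l, 0)).cmul ha).mono (by simp [w0, zz, h])).add
        (((fil_X (l, 1)).cmul hb).mono (by simp [w0, zz, h]))⟩
  · rw [LZ_n h, LZ_n h]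
    exact ⟨(fil_X _).mono (by simp), (fil_X _).mono (by simp)⟩

lemma TY_fil (hx : ∀ l ∈ Sp, D.x l = 0) {k : ℕ} (s : ℕ) : ∀ (f : RK ι F) (w : ℤ),
    IsWeightedHomogeneous (fun v : ι × Fin 2 => zz Sp v.1) f k → Fil w0 w (D.T^[s] f) →
      Fil w0 (w + s * k) ((D.TY Sp)^[s] f) := by
  have h1 : ∀ (s : ℕ) (a b : RatFunc F), Lv a 2 → Lv b 0 → ∃ a' b', Lv a' 2 ∧ Lv b' 0 ∧
      ∀ f, (D.TY Sp)^[s] (LZ Sp a b f) = LZ Sp a' b' ((D.TY Sp)^[s] f) := fun s a b ha hb => by
    induction s with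
    | zero => exact ⟨a, b, ha, hb, fun _ => rfl⟩
    | succ s ih =>
      obtain ⟨a', b', ha', hb', e⟩ := ih
      exact ⟨_, _, D.lv_t _ _ ha', D.lv_t _ _ hb', fun f => by
        simp only [Function.iterate_succ_apply', e, TY_LZ]⟩
  induction s with
  | zero => exact fun f w _ h => by simpa using h
  | succ s ih =>
    intro f w hf h
    have hf' := hom_hom D.T_C (D.T_hom (zz_x hx)) hf
    obtain ⟨a, b, ha, hb, e⟩ := h1 s _ _ (D.lv_t _ _ D.lv_e) (D.lv_t _ _ D.hg)
    rw [Function.iterate_succ_apply, TY_eq hx, e]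
    have h2 : ∀ j : ℕ, IsWeightedHomogeneous (fun v : ι × Fin 2 => zz Sp v.1)
        ((D.TY Sp)^[j] (D.T f)) k := fun j => by
      induction j with
      | zero => exact hf'
      | succ j ih => rw [Function.iterate_succ_apply']; exact hom_hom TY_C (TY_hom hx) ih
    refine (LZ_fil ha hb (h2 s) (ih _ w hf' h)).mono ?_
    push_cast
    linarith

/-- No special variable occurs. -/
def NoS {A : Type} [CommRing A] (Sp : Set ι) (f : MvPolynomial (ι × Fin 2) A) : Prop :=
  ∀ α, coeff α f ≠ 0 → ∀ v ∈ α.support, v.1 ∉ Sp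

lemma nos_iff : NoS Sp f ↔ IsWeightedHomogeneous (fun v : ι × Fin 2 => zz Sp v.1) f 0 := by
  refine forall_congr' fun α => imp_congr_right fun _ => ?_
  simp only [Finsupp.weight_apply, Finsupp.sum, sum_eq_zero_iff, smul_eq_mul, mul_eq_zero]
  refine forall₂_congr fun v hv => ?_
  simp [Finsupp.mem_support_iff.1 hv, zz]

lemma TY_nos (hx : ∀ l ∈ Sp, D.x l = 0) (h : NoS Sp f) (s : ℕ) :
    NoS Sp (D.T^[s] f) ∧ (D.TY Sp)^[s] f = D.T^[s] f := by
  induction s with
  | zero => rw [Function.iterate_zero_apply, Function.iterate_zero_apply]; exact ⟨h, rfl⟩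
  | succ s ih =>
    rw [Function.iterate_succ_apply', Function.iterate_succ_apply', ih.2]
    refine ⟨nos_iff.2 (hom_hom D.T_C (D.T_hom (zz_x hx)) (nos_iff.1 ih.1)), ?_⟩
    refine hom_congr_vars (f₁ := D.TY Sp) (f₂ := D.T) (RingHom.ext fun a => ?_)
      (fun v hv _ => ?_) rfl
    · rw [RingHom.comp_apply, RingHom.comp_apply, TY_C, T_C]
    obtain ⟨α, hα, hv⟩ := (mem_vars_iff_mem_support _).1 hv
    exact TY_n (ih.1 α (mem_support_iff.1 hα) v hv) v.2

/-- The coefficients with respect to the special variables are pure. -/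
lemma Pure.ext (hx : ∀ l ∈ Sp, D.x l = 0) {k : ℕ} (hp : D.Pure (m + k) f)
    (hf : IsWeightedHomogeneous (fun v : ι × Fin 2 => zz Sp v.1) f k) {γ : ι × Fin 2 →₀ ℕ}
    (hγ : ∀ v ∈ γ.support, v.1 ∈ Sp) (hg : NoS Sp g)
    (e : ∀ β, (∀ v ∈ β.support, v.1 ∉ Sp) → coeff β g = coeff (γ + β) f) : D.Pure m g := by
  classical
  let u : ι × Fin 2 → ι × Fin 2 →₀ ℕ := fun v => if v.1 ∈ Sp then Finsupp.single v 1 else 0
  have hu : ∀ α, Finsupp.weight u α = α.filter fun v => v.1 ∈ Sp := fun α => by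
    induction α using Finsupp.induction_linear with
    | zero => rw [map_zero, Finsupp.filter_zero]
    | add a b ha hb => rw [map_add, Finsupp.filter_add, ha, hb]
    | single v n =>
      rw [Finsupp.weight_single]
      by_cases h : v.1 ∈ Sp
      · simp [u, h, Finsupp.filter_single_of_pos]
      · simp [u, h, Finsupp.filter_single_of_neg]
  have h1 : ∀ v, IsWeightedHomogeneous u (D.TY Sp (X v)) (u v) := by
    simp only [Prod.forall, Fin.forall_fin_two]
    intro l
    by_cases h : l ∈ Sp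
    · rw [TY_s h, TY_s h]
      exact ⟨isWeightedHomogeneous_X _ _ _, isWeightedHomogeneous_X _ _ _⟩
    · have h0 : ∀ j, IsWeightedHomogeneous u (X (l, j) : RK ι F) 0 := fun j => by
        simpa [u, h] using isWeightedHomogeneous_X (RatFunc F) u (l, j)
      rw [TY_n h, TY_n h, T_X0, T_X1, show u (l, 0) = 0 from if_neg h,
        show u (l, 1) = 0 from if_neg h]
      exact ⟨(((h0 1).sub ((h0 0).C_mul _)).sub (isWeightedHomogeneous_C _ _)).C_mul _, h0 0⟩
  have h2 : weightedHomogeneousComponent u γ f = monomial γ 1 * g := by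
    ext α
    rw [coeff_weightedHomogeneousComponent, coeff_monomial_mul', hu, one_mul]
    by_cases h : (α.filter fun v => v.1 ∈ Sp) = γ
    · have h3 : α - γ = α.filter fun v => v.1 ∉ Sp := by
        rw [← h]
        exact tsub_eq_of_eq_add_rev (Finsupp.filter_add_filter_not _ _).symm
      have h4 : γ ≤ α := h ▸ le_of_add_le_left (Finsupp.filter_add_filter_not α _).le
      rw [if_pos h, if_pos h4, e _ fun v hv => by
        rw [h3, Finsupp.support_filter] at hv; exact (mem_filter.1 hv).2, add_tsub_cancel_of_le h4]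
    · rw [if_neg h]
      split_ifs with h4
      · by_contra h5
        refine h (Finsupp.ext fun v => ?_)
        rw [Finsupp.filter_apply]
        split_ifs with h6
        · have := mt (hg _ (Ne.symm h5) v) (not_not.2 h6)
          rw [Finsupp.notMem_support_iff, Finsupp.tsub_apply] at this
          have := h4 v
          omega
        · exact (Finsupp.notMem_support_iff.1 (mt (hγ v) h6)).symm
      · rfl
  have h3 : D.TY Sp (monomial γ 1) = monomial γ 1 := by
    rw [hom_mon, TY_C, map_one, monomial_eq]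
    exact congrArg _ (Finsupp.prod_congr fun v hv => by rw [TY_s (hγ v hv)])
  have h4 : ∀ s : ℕ, weightedHomogeneousComponent u γ ((D.TY Sp)^[s] f) =
      monomial γ 1 * (D.TY Sp)^[s] g := fun s => by
    induction s with
    | zero => exact h2
    | succ s ih => simp only [Function.iterate_succ_apply', comp_hom TY_C h1, ih, map_mul, h3]
  obtain ⟨c, hc⟩ := hp
  refine ⟨c - Finsupp.weight w0 γ, fun s β => ?_⟩
  have := (TY_fil hx s f _ hf (hc s)).comp u γ (γ + β)
  rw [h4, coeff_monomial_mul, one_mul, (TY_nos hx hg s).2, map_add] at this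
  exact this.mono (by push_cast; linarith)

end Dt

end Pool.Agent.DS.Pst
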