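import Pool.Agent.Lib.MP_0c15f2_nt.DS.Pst3
import Pool.Agent.Lib.MP_0370b2_nt.SA.Cram
import Pool.Agent.Lib.MP_0370b2_nt.SA.ND0

/-! Descent to degree one, orbits, and elements of bounded degree. -/

namespace Pool.Agent.DS.Pst

open MvPolynomial Finset Pool.Agent.CSU.SA.ND Dt

variable {ι F : Type} [Field F]

/-- Extension of scalars. -/
noncomputable abbrev iK : MvPolynomial (ι × Fin 2) (Polynomial F) →+* RK ι F :=
  map (algebraMap (Polynomial F) (RatFunc F))

lemma iK_ne {f : MvPolynomial (ι × Fin 2) (Polynomial F)} {α : ι × Fin 2 →₀ ℕ} :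
    coeff α (iK f) ≠ 0 ↔ coeff α f ≠ 0 := by
  rw [coeff_map, map_ne_zero_iff _ (RatFunc.algebraMap_injective F)]

lemma mkD {σ : F →+* F} (hσ : Function.Bijective σ) {A : F} (hA : A ≠ 0) (c G : F) (ξ : ι → F) :
    ∃ D : Dt ι F, (∀ f, iK (SD σ A c G ξ f) = D.S (iK f)) ∧ ∀ l, ξ l = 0 → D.x l = 0 := by
  let s : RatFunc F ≃+* RatFunc F := IsFractionRing.ringEquivOfRingEquiv
    (Polynomial.mapEquiv (RingEquiv.ofBijective σ hσ))
  have hs : ∀ a : Polynomial F, s (algebraMap _ _ a) = algebraMap _ _ (a.map σ) := fun a =>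
    IsFractionRing.ringEquivOfRingEquiv_algebraMap _ a
  have he : Polynomial.C A * (Polynomial.X - Polynomial.C c) ≠ 0 :=
    mul_ne_zero (by simpa) (Polynomial.X_sub_C_ne_zero c)
  refine ⟨⟨s, algebraMap _ _ (Polynomial.C A * (Polynomial.X - Polynomial.C c)),
    algebraMap _ _ (Polynomial.C G), fun l => algebraMap _ _ (Polynomial.C (ξ l)), fun a => ?_,
    by rw [← RatFunc.algebraMap_X, hs, Polynomial.map_X],
    (map_ne_zero_iff _ (RatFunc.algebraMap_injective F)).2 he, ?_, Or.inr ?_⟩, fun f => ?_,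
    fun l h => by simp [h]⟩
  · induction a using RatFunc.induction_on with
    | f p q hq =>
      by_cases hp : p = 0
      · simp [hp]
      have h : ∀ a : Polynomial F, a ≠ 0 → algebraMap _ (RatFunc F) a ≠ 0 := fun a =>
        (map_ne_zero_iff _ (RatFunc.algebraMap_injective F)).2
      rw [map_div₀, hs, hs, RatFunc.intDegree_div (h _ hp) (h _ hq),
        RatFunc.intDegree_div (h _ (by simpa)) (h _ (by simpa))]
      simp only [RatFunc.intDegree_polynomial, Polynomial.natDegree_map]
  · rw [RatFunc.intDegree_polynomial, Polynomial.natDegree_C_mul hA, Polynomial.natDegree_X_sub_C]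
    rfl
  · rw [RatFunc.intDegree_polynomial, Polynomial.natDegree_C]
    rfl
  · unfold SD Dt.S
    dsimp only
    generalize Polynomial.C A * (Polynomial.X - Polynomial.C c) = e
    induction f using MvPolynomial.induction_on with
    | C a => simp [hs]
    | add p q hp hq => simp only [map_add, hp, hq]
    | mul_X p v hp =>
      rw [map_mul, map_mul, map_mul, map_mul, hp]
      congr 1
      revert v
      simp [Fin.forall_fin_two]

lemma td_SD (σ : F →+* F) (A c G : F) (ξ : ι → F) {δ E : ℕ}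
    {f : MvPolynomial (ι × Fin 2) (Polynomial F)} (h : Bl (fun _ => 1) (δ + 1) f) (h' : Td E f) :
    Td (E + δ) (SD σ A c G ξ f) := by
  rw [f.as_sum, map_sum]
  refine td_sum fun α hα => ?_
  rw [hom_mon]
  refine Td.mul ?_ ((mon_mem Td (td_C (a := 1) (by simp)) (fun _ _ _ _ => Td.mul) (fun _ => 1) _
    ?_ α).mono (Nat.le_of_lt_succ (h α (mem_support_iff.1 hα))))
  · rw [SD, Sg_C]
    exact td_C (Polynomial.natDegree_map_le.trans (h' α))
  · simp only [Prod.forall, Fin.forall_fin_two, SD, Sg_X0, Sg_X1]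
    exact fun l => ⟨td_X _, (((td_C ((Polynomial.natDegree_C_mul_le _ _).trans
      (Polynomial.natDegree_X_sub_C c).le)).mul (td_X (D := 0) _)).add
      ((td_C (Polynomial.natDegree_C G).le).mul (td_X (D := 1) _))).add (td_C (by simp))⟩

section Cart

variable (p : ℕ) [Fact p.Prime] [CharP F p] [PerfectRing F p]

lemma cart1 {E : ℕ} (a : Polynomial F) (h : a.natDegree ≤ E) : ∃ b : ℕ → Polynomial F,
    a = ∑ i ∈ range p, Polynomial.X ^ i * b i ^ p ∧ ∀ i, (b i).natDegree ≤ E := by
  have p0 := (Fact.out : p.Prime).pos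
  refine Polynomial.induction_with_natDegree_le (fun a => ∃ b : ℕ → Polynomial F,
    a = ∑ i ∈ range p, Polynomial.X ^ i * b i ^ p ∧ ∀ i, (b i).natDegree ≤ E) E
    ⟨0, by simp [p0.ne'], by simp⟩ (fun n r _ hn => ?_) ?_ a h
  · refine ⟨fun i => if i = n % p then
      Polynomial.C ((frobeniusEquiv F p).symm r) * Polynomial.X ^ (n / p) else 0, ?_, fun i => ?_⟩
    · beta_reduce
      rw [sum_eq_single (n % p) (fun i _ h => by simp [h, p0.ne'])
        (fun h => absurd (mem_range.2 (Nat.mod_lt _ p0)) h), if_pos rfl, mul_pow, ← map_pow,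
        frobeniusEquiv_symm_pow_p, ← pow_mul, mul_left_comm, ← pow_add, Nat.mod_add_div']
    · beta_reduce
      split_ifs
      · exact (Polynomial.natDegree_C_mul_X_pow_le _ _).trans ((Nat.div_le_self _ _).trans hn)
      · simp
  · rintro f g - - ⟨b, rfl, hb⟩ ⟨b', rfl, hb'⟩
    exact ⟨fun i => b i + b' i, by simp only [add_pow_char, mul_add, sum_add_distrib],
      fun i => Polynomial.natDegree_add_le_of_degree_le (hb i) (hb' i)⟩

lemma cart {V : Type} {E : ℕ} {f : MvPolynomial V (Polynomial F)} (h : Td E f)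
    (h1 : ∀ γ, coeff γ f ≠ 0 → ∀ v, p ∣ γ v) : ∃ y : ℕ → MvPolynomial V (Polynomial F),
    f = ∑ i ∈ range p, C (Polynomial.X ^ i) * y i ^ p ∧
      ∀ i, Td E (y i) ∧ ∀ β, coeff β (y i) ≠ 0 → coeff (p • β) f ≠ 0 := by
  classical
  choose b hb hd using fun γ => cart1 p _ (h γ)
  have e : ∀ γ ∈ f.support, p • γ.mapRange (· / p) (Nat.zero_div p) = γ := fun γ hγ => by
    ext v
    simpa using Nat.mul_div_cancel' (h1 γ (mem_support_iff.1 hγ) v)
  refine ⟨fun i => ∑ γ ∈ f.support, monomial (γ.mapRange (· / p) (Nat.zero_div p)) (b γ i), ?_,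
    fun i => ⟨td_sum fun γ _ => td_mon _ (hd γ i), fun β hβ => ?_⟩⟩
  · simp only [sum_pow_char, mul_sum]
    rw [sum_comm]
    conv_lhs => rw [f.as_sum]
    refine sum_congr rfl fun γ hγ => ?_
    simp only [monomial_pow, e γ hγ, C_mul_monomial]
    rw [← map_sum, ← hb]
  · rw [coeff_sum] at hβ
    obtain ⟨γ, hγ, h0⟩ := exists_ne_zero_of_sum_ne_zero hβ
    rw [coeff_monomial] at h0
    rw [← (by_contra fun e => h0 (if_neg e) : _ = β), e γ hγ]
    exact mem_support_iff.1 hγ

include p in
lemma descent {D : Dt ι F} {Sp : Set ι} {E : ℕ} (m : ℕ) :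
    ∀ f : MvPolynomial (ι × Fin 2) (Polynomial F), 0 < m → f ≠ 0 → Td E f →
      Bl (fun _ => 1) (m + 1) f → NoS Sp f → D.Pure m (iK f) →
      ∃ g : MvPolynomial (ι × Fin 2) (Polynomial F), g ≠ 0 ∧ Td E g ∧ Bl (fun _ => 1) 2 g ∧
        NoS Sp g ∧ D.Pure 1 (iK g) := by
  classical
  induction m using Nat.strong_induction_on with
  | _ m ih =>
  intro f hm h0 hd hb hn hp
  by_cases h1 : m = 1
  · subst h1; exact ⟨f, h0, hd, hb, hn, hp⟩
  by_cases h2 : ∃ v, pderiv v f ≠ 0
  · obtain ⟨v, hv⟩ := h2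
    obtain ⟨m, rfl⟩ : ∃ k, m = k + 1 := ⟨m - 1, by omega⟩
    have hc : ∀ α, coeff α (pderiv v f) ≠ 0 → coeff (α + Finsupp.single v 1) f ≠ 0 := fun α h =>
      left_ne_zero_of_mul (coeff_pderiv f α ▸ h)
    refine ih m (by omega) _ (by omega) hv (fun α => ?_) (fun α h => ?_) (fun α h w hw => ?_) ?_
    · rw [coeff_pderiv, ← Nat.cast_succ]
      exact Polynomial.natDegree_mul_le.trans (by rw [Polynomial.natDegree_natCast]; exact hd _)
    · have := hb _ (hc α h)
      rw [map_add, Finsupp.weight_single] at this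
      simpa using this
    · exact hn _ (hc α h) w (by
        rw [Finsupp.mem_support_iff, Finsupp.add_apply] at *
        omega)
    · rw [← pderiv_map]
      exact hp.d v
  · have h3 : ∀ γ, coeff γ f ≠ 0 → ∀ v, p ∣ γ v := fun γ hγ v => by
      by_cases e : γ v = 0
      · simp [e]
      have h4 := congrArg (coeff (γ - Finsupp.single v 1)) (not_not.1 (not_exists.1 h2 v))
      rw [coeff_pderiv, tsub_add_cancel_of_le (Finsupp.single_le_iff.2 (by omega)), coeff_zero,
        mul_eq_zero, or_iff_right hγ, ← Nat.cast_succ, CharP.cast_eq_zero_iff _ p] at h4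
      simpa [Nat.sub_one_add_one e] using h4
    obtain ⟨y, e, hy⟩ := cart p hd h3
    have p1 := (Fact.out : p.Prime).one_lt
    obtain ⟨k, rfl⟩ : p ∣ m := by
      by_contra h4
      refine h0 (map_injective _ (RatFunc.algebraMap_injective F) ((hp.eq_zero fun γ hγ =>
        lt_of_le_of_ne (Nat.le_of_lt_succ (hb γ (iK_ne.1 hγ))) fun e => h4 ?_).trans
        (map_zero _).symm))
      rw [← e, Finsupp.weight_apply]
      exact dvd_sum fun v _ => by simpa using h3 γ (iK_ne.1 hγ) v
    obtain ⟨i, hi, h4⟩ := exists_ne_zero_of_sum_ne_zero (e ▸ h0)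
    have k0 : 0 < k := Nat.pos_of_mul_pos_left hm
    refine ih k (by nlinarith) (y i) k0 (fun h => h4 (by simp [h, (one_pos.trans p1).ne']))
      (hy i).1 (fun β hβ => ?_) (fun β hβ v hv => hn _ ((hy i).2 β hβ) v ?_) ?_
    · have := hb _ ((hy i).2 β hβ)
      rw [map_nsmul, smul_eq_mul] at this
      exact Nat.lt_succ_of_le (Nat.le_of_mul_le_mul_left (Nat.le_of_lt_succ this) (by omega))
    · rw [Finsupp.mem_support_iff] at *
      simpa [hv] using (one_pos.trans p1).ne'
    · refine Pure.root p (h := fun i => iK (y i)) ?_ (mem_range.1 hi)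
      rw [e] at hp
      simpa only [map_sum, RingHom.map_mul (iK (ι := ι) (F := F)), map_pow, map_C,
        RatFunc.algebraMap_X] using hp

end Cart

lemma stab {φ : RK ι F →+* RK ι F} {τ : RatFunc F → RatFunc F} (hC : ∀ a, φ (C a) = C (τ a))
    {t : Set (RK ι F)} {N : Submodule (RatFunc F) (RK ι F)} (h : ∀ y ∈ t, φ y ∈ N) {y : RK ι F}
    (hy : y ∈ Submodule.span (RatFunc F) t) : φ y ∈ N := by
  induction hy using Submodule.span_induction with
  | mem y hy => exact h y hy
  | zero => simp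
  | add a b _ _ ha hb => rw [map_add]; exact add_mem ha hb
  | smul a y _ hy => rw [smul_eq_C_mul, map_mul, hC, ← smul_eq_C_mul]; exact N.smul_mem _ hy

lemma bl_span {u : ι × Fin 2 → ℕ} {ν : ℕ} {t : Set (RK ι F)} (h : ∀ y ∈ t, Bl u ν y) {y : RK ι F}
    (hy : y ∈ Submodule.span (RatFunc F) t) : Bl u ν y := by
  induction hy using Submodule.span_induction with
  | mem y hy => exact h y hy
  | zero => exact bl_zero
  | add a b _ _ ha hb => exact ha.add hb
  | smul a y _ hy => rw [smul_eq_C_mul]; exact hy.cmul a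

lemma kry [Fintype ι] (D : Dt ι F) {δ r : ℕ} {f : RK ι F} (hr : (δ + 1) ^ (Fintype.card ι * 2) ≤ r)
    (h : ∀ s, Bl (fun _ => 1) (δ + 1) (D.S^[s] f)) :
    D.T f ∈ Submodule.span (RatFunc F) (Set.range fun s : ℕ => D.S^[s] f) ∧
      ∀ s, D.S^[s] f ∈ Submodule.span (RatFunc F) (Set.range fun s : Fin r => D.S^[s] f) := by
  classical
  obtain ⟨a, ha, h0⟩ : ∃ a : ℕ → RatFunc F, ∑ s ∈ range (r + 1), C (a s) * D.S^[s] f = 0 ∧
      ∃ s < r + 1, a s ≠ 0 := by
    have : ¬ LinearIndependent (RatFunc F) fun s : Fin (r + 1) => D.S^[s] f := fun hi => by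
      let π : RK ι F →ₗ[RatFunc F] ((ι × Fin 2 → Fin (δ + 1)) → RatFunc F) := LinearMap.pi fun a =>
        lcoeff _ (Finsupp.equivFunOnFinite.symm fun l => a l)
      have := (hi.map (f := π) (Submodule.disjoint_def.2 fun y hy h0 => MvPolynomial.ext _ _
        fun α => by
          by_contra e
          have h1 := bl_span (by rintro _ ⟨s, rfl⟩; exact h s) hy α e
          have := congrFun h0 fun l => ⟨α l,
            (Finsupp.le_weight (fun _ => 1) one_ne_zero α).trans_lt h1⟩
          exact e (by simpa [π] using this))).fintype_card_le_finrank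
      simp at this
      omega
    obtain ⟨a, ha, i, hi⟩ := Fintype.not_linearIndependent_iff.1 this
    refine ⟨fun s => if h : s < r + 1 then a ⟨s, h⟩ else 0, ?_, i, i.2, by simpa [i.2] using hi⟩
    rw [sum_range, ← ha]
    exact sum_congr rfl fun s _ => by beta_reduce; rw [dif_pos s.2, smul_eq_C_mul]
  have hsol : ∀ (N : Submodule (RatFunc F) (RK ι F)) (x y : RK ι F) (b : RatFunc F), b ≠ 0 →
      x ∈ N → x + C b * y = 0 → y ∈ N := fun N x y b hb hx e => by
    rw [← N.smul_mem_iff hb, smul_eq_C_mul, eq_neg_of_add_eq_zero_right e]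
    exact neg_mem hx
  constructor
  · generalize r + 1 = n at ha h0
    induction n generalizing a with
    | zero => simp at h0
    | succ n ih =>
      have := congrArg D.T ha
      simp only [sum_range_succ', map_add, map_sum, map_mul, T_C, Function.iterate_succ_apply',
        TS, map_zero, Function.iterate_zero_apply] at this
      by_cases e : a 0 = 0
      · obtain ⟨s, hs, h0⟩ := h0
        obtain ⟨s, rfl⟩ := Nat.exists_eq_succ_of_ne_zero (n := s) (by rintro rfl; exact h0 e)
        exact ih _ (by simpa [e] using this) ⟨s, by omega, by simpa using h0⟩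
      · exact hsol _ _ _ _ (by simpa using e) (Submodule.sum_mem _ fun s _ => by
          rw [← smul_eq_C_mul]
          exact Submodule.smul_mem _ _ (Submodule.subset_span ⟨s, rfl⟩)) this
  · obtain ⟨j, hj, h1⟩ : ∃ j < r + 1, D.S^[j] f ∈
        Submodule.span (RatFunc F) ((fun s : ℕ => D.S^[s] f) '' Set.Iio j) := by
      generalize r + 1 = n at ha h0
      induction n with
      | zero => simp at h0
      | succ n ih =>
        rw [sum_range_succ] at ha
        by_cases e : a n = 0
        · obtain ⟨s, hs, h0⟩ := h0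
          obtain ⟨j, hj, h1⟩ := ih (by simpa [e] using ha)
            ⟨s, lt_of_le_of_ne (Nat.le_of_lt_succ hs) (by rintro rfl; exact h0 e), h0⟩
          exact ⟨j, by omega, h1⟩
        · exact ⟨n, by omega, hsol _ _ _ _ e (Submodule.sum_mem _ fun s hs => by
            rw [← smul_eq_C_mul]
            exact Submodule.smul_mem _ _ (Submodule.subset_span ⟨s, mem_range.1 hs, rfl⟩)) ha⟩
    have h2 : ∀ i ≤ j, D.S^[i] f ∈
        Submodule.span (RatFunc F) ((fun s : ℕ => D.S^[s] f) '' Set.Iio j) := fun i hi =>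
      hi.eq_or_lt.elim (fun e => e ▸ h1) fun e => Submodule.subset_span ⟨i, e, rfl⟩
    intro s
    refine Submodule.span_mono (s := (fun s : ℕ => D.S^[s] f) '' Set.Iio j) ?_ ?_
    · rintro _ ⟨i, hi, rfl⟩
      exact ⟨⟨i, by have : i < j := hi; omega⟩, rfl⟩
    induction s with
    | zero => exact h2 0 (Nat.zero_le _)
    | succ s ih =>
      rw [Function.iterate_succ_apply']
      refine stab D.S_C ?_ ih
      rintro _ ⟨i, hi, rfl⟩
      rw [← Function.iterate_succ_apply' D.S]
      exact h2 _ hi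

lemma cr {r E : ℕ} {u : Fin r → MvPolynomial (ι × Fin 2) (Polynomial F)} (hu : ∀ i, Td E (u i))
    {y : RK ι F} (hy : y ∈ Submodule.span (RatFunc F) (Set.range fun i => iK (u i)))
    {α0 : ι × Fin 2 →₀ ℕ} (h0 : coeff α0 y ≠ 0) :
    ∃ w : Fin r → Polynomial F, Td ((r + 1) * E + E) (∑ i, C (w i) * u i) ∧
      coeff α0 (∑ i, C (w i) * u i) ≠ 0 ∧ ∀ α, coeff α y = 0 → coeff α (∑ i, C (w i) * u i) = 0 := by
  obtain ⟨a, rfl⟩ := (Submodule.mem_span_range_iff_exists_fun _).1 hy
  have hU : ∀ n, ∀ x ∈ Polynomial.degreeLE F E ^ n, x.natDegree ≤ n * E := fun n x hx => by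
    induction hx using Submodule.pow_induction_on_left' with
    | algebraMap a => simp
    | add x y i _ _ hx hy => exact Polynomial.natDegree_add_le_of_degree_le hx hy
    | mem_mul m hm i x _ hx =>
      have := Polynomial.natDegree_le_iff_degree_le.2 (Polynomial.mem_degreeLE.1 hm)
      exact Polynomial.natDegree_mul_le.trans (by rw [Nat.succ_mul]; omega)
  have hm : ∀ x : Polynomial F, x.natDegree ≤ E → x ∈ Polynomial.degreeLE F E := fun x h =>
    Polynomial.mem_degreeLE.2 (Polynomial.natDegree_le_iff_degree_le.1 h)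
  have hc : ∀ α, coeff α (∑ i, a i • iK (u i)) =
      ∑ i, algebraMap _ _ (coeff α (u i)) * a i := fun α => by
    simp [coeff_sum, coeff_map, mul_comm]
  obtain ⟨w, h1, h2, -, h3⟩ := Pool.Agent.CSU.SA.cram (algebraMap (Polynomial F) (RatFunc F))
    (Polynomial.degreeLE F E)
    (fun (s : Option {α // coeff α (∑ i, a i • iK (u i)) = 0}) (i : Option (Fin r)) =>
      i.elim (s.elim (-1) fun _ => 0) fun i => coeff (s.elim α0 Subtype.val) (u i))
    (fun i => i.elim (coeff α0 (∑ i, a i • iK (u i))) a) none (hm _ (by simp))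
    (by rintro (_ | s) (_ | i) <;> first | exact hm _ (hu _ _) | exact hm _ (by simp))
    (by
      rintro (_ | s)
      · simp [Fintype.sum_option, hc]
      · simpa [Fintype.sum_option, hc] using (hc _).symm.trans s.2) h0
  have hw : ∀ α, coeff α (∑ i, C (w (some i)) * u i) = ∑ i, coeff α (u i) * w (some i) :=
    fun α => by simp only [coeff_sum, coeff_C_mul]; simp only [mul_comm]
  simp only [map_eq_zero_iff _ (RatFunc.algebraMap_injective F), Fintype.sum_option, ne_eq] at h1 h3
  refine ⟨fun i => w (some i), td_sum fun i _ => (td_C (by simpa using hU _ _ (h2 _))).mul (hu i),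
    ?_, fun α hα => ?_⟩
  · have := h3 none
    simp only [Option.elim, neg_mul, one_mul, neg_add_eq_zero] at this
    rwa [hw, ← this]
  · simpa [hw] using h3 (some ⟨α, hα⟩)

end Pool.Agent.DS.Pst
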