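import Pool.Agent.Lib.MP_0c15f2_nt.DS.St

/-! Twisting of the substitution of rank two. -/

namespace Pool.Agent.CSU.SA.DS

open Polynomial Finset

namespace Tw

variable {κ R R' : Type} [CommRing R] [CommRing R']

lemma tw_LL (φ : R →+* R') (A G c : R) (ξ : κ → R) (p : κ × Fin 2) :
    tw φ (LL A G c ξ p) = LL (φ A) (φ G) (φ c) (fun l => φ (ξ l)) p := by
  unfold LL
  split_ifs <;> simp

lemma tw_aeval {ι : Type} (φ : R →+* R') (L : ι → PP ι R) (f : PP ι R) :
    tw φ (MvPolynomial.aeval L f) = MvPolynomial.aeval (fun l => tw φ (L l)) (tw φ f) := by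
  induction f using MvPolynomial.induction_on with
  | C a => simp
  | add f g hf hg => simp only [map_add, hf, hg]
  | mul_X f l hf => simp only [map_mul, hf, MvPolynomial.aeval_X, tw_X]

lemma SD_apply (σ : R →+* R) (A G c : R) (ξ : κ → R) (f : PP (κ × Fin 2) R) :
    SD σ A G c ξ f = MvPolynomial.aeval (LL A G c ξ) (tw σ f) := rfl

lemma tw_SD (σ : R →+* R) (A G c : R) (ξ : κ → R) (f : PP (κ × Fin 2) R) :
    tw σ (SD σ A G c ξ f) = SD σ (σ A) (σ G) (σ c) (fun l => σ (ξ l)) (tw σ f) := by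
  rw [SD_apply, SD_apply, tw_aeval, funext (tw_LL σ A G c ξ)]

lemma evp_tw {ι : Type} (φ : R →+* R') (x : R) (V : ι → R) (f : PP ι R) :
    evp (φ x) (fun l => φ (V l)) (tw φ f) = φ (evp x V f) := by
  induction f using MvPolynomial.induction_on with
  | C a => simp [eval_map, eval₂_at_apply]
  | add f g hf hg => simp only [map_add, hf, hg]
  | mul_X f l hf => simp only [map_mul, hf, tw_X, evp_X]

lemma den_tw {F : Type} [Field F] {σ : F →+* F} (hσ : Function.Surjective σ) {A G c : F}
    {Pi : PP (κ × Fin 2) F} (h : Den σ A G c Pi) : Den σ (σ A) (σ G) (σ c) (tw σ Pi) := by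
  obtain ⟨⟨γ, j, hγ, e⟩, h2⟩ := h
  have e0 : ∀ f : PP (κ × Fin 2) F,
      tw σ (SD σ A G c 0 f) = SD σ (σ A) (σ G) (σ c) 0 (tw σ f) := fun f => by
    rw [tw_SD]
    simp only [_root_.Pi.zero_apply, map_zero]
    rfl
  refine ⟨⟨σ γ, j, (map_ne_zero σ).2 hγ, ?_⟩, fun x V h3 h4 h5 f hf => ?_⟩
  · rw [← e0, e]
    simp
  · obtain ⟨x, rfl⟩ := hσ x
    choose V' hV using fun p => hσ (V p)
    obtain rfl : V = fun p => σ (V' p) := funext fun p => (hV p).symm
    obtain ⟨f, rfl⟩ := tw_surj hσ f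
    rw [evp_tw, _root_.map_ne_zero] at h5
    obtain ⟨n, hn⟩ := h2 x V' (fun i e => h3 i (by
        rw [← Function.iterate_succ_apply, Function.iterate_succ_apply', e]))
      (fun i hi e => h4 i hi (by
        rw [← Function.iterate_succ_apply, Function.iterate_succ_apply', e])) h5 f
      (fun e => hf (by rw [e, map_zero]))
    refine ⟨n, ?_⟩
    have e1 : ∀ n, (SD σ (σ A) (σ G) (σ c) 0)^[n] (tw σ f) = tw σ ((SD σ A G c 0)^[n] f) :=
      fun n => by
        induction n with
        | zero => rfl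
        | succ n ih => rw [Function.iterate_succ_apply', Function.iterate_succ_apply', ih, e0]
    rwa [e1, evp_tw, _root_.map_ne_zero]

end Tw

open Tw

theorem tws : TwS := by
  intro F κ _ q σ A G c m hσ
  have e : ∀ (y : F) m, σ (y ^ q ^ m) = y ^ q ^ (m + 1) := fun y m => by
    rw [hσ, ← pow_mul, pow_succ]
  have h1 : ∀ (ξ : κ → F) p, (tw σ)^[m] (LL A G c ξ p) =
      LL (A ^ q ^ m) (G ^ q ^ m) (c ^ q ^ m) (fun l => ξ l ^ q ^ m) p := fun ξ p => by
    induction m with
    | zero => simp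
    | succ m ih => simp only [Function.iterate_succ_apply', ih, tw_LL, e]
  refine ⟨h1, fun ξ f => ?_, fun ξ f => ?_, fun hs Pi h => ?_⟩
  · rw [pb, SD_apply, funext (h1 ξ)]
  · clear h1
    induction m with
    | zero => simp
    | succ m ih => simp only [Function.iterate_succ_apply', ih, tw_SD, e]
  · clear h1
    induction m with
    | zero => simpa using h
    | succ m ih => simpa only [Function.iterate_succ_apply', e] using den_tw hs ih

end Pool.Agent.CSU.SA.DS
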