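import Pool.Agent.Lib.MP_0c15f2_nt.DS.Defs
import Pool.Agent.Lib.MP_0370b2_nt.SA.WN3

/-! Reduction of the independence statement for Drinfeld modules to points algebraic over the
completion. -/

namespace Pool.Agent.CSU.SA.DS

open Polynomial Finset WN

section Ring

variable {R S : Type} [CommRing R] [CommRing S]

/-- The additive polynomial with coefficients `ψ`. -/
noncomputable def qp (q : ℕ) (ψ : R[X]) : R[X] := ψ.sum fun j a => monomial (q ^ j) a

/-- The additive polynomial of the action of `t`. -/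
noncomputable def rp (q : ℕ) (c g Δ : R) : R[X] := C c * X + C g * X ^ q + C Δ * X ^ q ^ 2

theorem eval_qp (q : ℕ) (ψ : R[X]) (x : R) : (qp q ψ).eval x = ql q ψ x := by
  simp only [qp, ql, Polynomial.sum_def, eval_finsetSum, eval_monomial]

theorem eval_rp (q : ℕ) (c g Δ x : R) : (rp q c g Δ).eval x = rh q c g Δ x := by
  simp [rp, rh]

theorem map_rp (f : R →+* S) (q : ℕ) (c g Δ : R) :
    (rp q c g Δ).map f = rp q (f c) (f g) (f Δ) := by
  simp [rp]

theorem map_qp (f : R →+* S) (hf : Function.Injective f) (q : ℕ) (ψ : R[X]) :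
    (qp q ψ).map f = qp q (ψ.map f) := by
  simp only [qp, Polynomial.sum_def, Polynomial.map_sum, map_monomial,
    support_map_of_injective _ hf, coeff_map]

theorem coeff_qp {q : ℕ} (hq : 1 < q) (ψ : R[X]) (j : ℕ) : (qp q ψ).coeff (q ^ j) = ψ.coeff j := by
  simp only [qp, Polynomial.sum_def, finsetSum_coeff, coeff_monomial,
    (Nat.pow_right_injective hq).eq_iff, sum_ite_eq']
  split_ifs with h
  · rfl
  · exact (notMem_support_iff.1 h).symm

end Ring

/-- Endomorphisms are defined over every algebraically closed field of definition. -/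
theorem com_lift {T F : Type} [Field T] [IsAlgClosed T] [Field F] [IsAlgClosed F] (τ τ' : T →+* F)
    {q : ℕ} (hq : 1 < q) {c g Δ : T} (hΔ : Δ ≠ 0) {ψ : F[X]}
    (h : ∀ x, ql q ψ (rh q (τ c) (τ g) (τ Δ) x) = rh q (τ c) (τ g) (τ Δ) (ql q ψ x)) :
    ∃ φ : T[X], φ.map τ = ψ ∧ ∀ x, ql q (φ.map τ') (rh q (τ' c) (τ' g) (τ' Δ) x) =
      rh q (τ' c) (τ' g) (τ' Δ) (ql q (φ.map τ') x) := by
  have h1 : q < q ^ 2 := by nlinarith
  have h2 : (qp q ψ).comp ((rp q c g Δ).map τ) = ((rp q c g Δ).map τ).comp (qp q ψ) :=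
    Polynomial.funext fun x => by simp only [eval_comp, map_rp, eval_qp, eval_rp, h]
  obtain ⟨Q, hQ, -⟩ := comm_lift τ (rp q c g Δ) (le_trans (by omega) (le_natDegree_of_ne_zero
    (n := q ^ 2) (by
      rwa [rp, coeff_add, coeff_add, coeff_C_mul, coeff_C_mul, coeff_C_mul, coeff_X_pow,
        coeff_X_pow, coeff_X_of_ne_one (by omega), if_neg h1.ne', if_pos rfl, mul_zero, mul_zero,
        add_zero, zero_add, mul_one])))
    (by rw [eval_rp, rh, zero_pow (by omega), zero_pow (by omega)]; simp) _ h2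
  obtain ⟨φ, hφ⟩ : ψ ∈ lifts τ := (lifts_iff_coeff_lifts ψ).2 fun j =>
    ⟨Q.coeff (q ^ j), by rw [← coeff_map, hQ, coeff_qp hq]⟩
  rw [coe_mapRingHom] at hφ
  refine ⟨φ, hφ, fun x => ?_⟩
  rw [← hφ, ← map_qp τ τ.injective, ← Polynomial.map_comp, ← Polynomial.map_comp] at h2
  have h3 := congrArg (fun p => (p.map τ').eval x) (map_injective τ τ.injective h2)
  simpa only [Polynomial.map_comp, eval_comp, map_rp, map_qp τ' τ'.injective, eval_qp,
    eval_rp] using h3

/-- Algebraic relations pass along the graph of a specialisation. -/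
theorem gr_ind {K F κ : Type} [Field K] [Field F] [Algebra K F] (Γ : Subring (F × F))
    (h0 : ∀ b, (0, b) ∈ Γ → b = 0) (hK : ∀ c : K, (algebraMap K F c, algebraMap K F c) ∈ Γ)
    {x y : κ → F} (h : ∀ j, (x j, y j) ∈ Γ) (hy : AlgebraicIndependent K y) :
    AlgebraicIndependent K x := by
  refine algebraicIndependent_iff.2 fun p hp => algebraicIndependent_iff.1 hy p (h0 _ ?_)
  rw [← hp]
  clear hp
  induction p using MvPolynomial.induction_on with
  | C c => simpa only [MvPolynomial.aeval_C] using hK c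
  | add p q hp hq => simp only [map_add]; exact Γ.add_mem hp hq
  | mul_X p j hp => simp only [map_mul, MvPolynomial.aeval_X]; exact Γ.mul_mem hp (h j)

theorem gr_alg {K F : Type} [Field K] [Field F] [Algebra K F] (Γ : Subring (F × F))
    (h0 : ∀ b, (0, b) ∈ Γ → b = 0) (hK : ∀ c : K, (algebraMap K F c, algebraMap K F c) ∈ Γ)
    {x y : F} (h : (x, y) ∈ Γ) (hx : IsAlgebraic K x) : IsAlgebraic K y := by
  by_contra hy
  exact algebraicIndependent_unique_type_iff.1 (gr_ind Γ h0 hK (x := fun _ : Unit => x)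
    (y := fun _ => y) (fun _ => h) (algebraicIndependent_unique_type_iff.2 hy)) hx

/-- Convergence and functional equations of the exponential and the quasi-periodic function. -/
def DM.Fe {F : Type} [NormedField F] (D : DM F) : Prop :=
  (∀ x, HasSum (fun i => D.al i * x ^ D.q ^ i) (D.ex x)) ∧
    (∀ x, HasSum (fun i => D.al i ^ D.q * x ^ D.q ^ (i + 1) / (D.θ ^ D.q ^ (i + 1) - D.θ))
      (D.qs x)) ∧ (∀ x, D.ex (D.θ * x) = rh D.q D.θ D.g D.Δ (D.ex x)) ∧
    ∀ x, D.qs (D.θ * x) = D.θ * D.qs x + D.ex x ^ D.q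

/-- An algebraically independent family, indexed by `κ`, among the values at the points `u`. -/
def DM.Con {F : Type} [NormedField F] (D : DM F) (k : Type) [Field k] [Algebra k F] (κ : Type)
    {ι : Type} (u : ι → F) : Prop :=
  ∃ s : κ → F, (∀ j, s j ∈ Set.range u ∪ Set.range (fun i => D.ex (u i)) ∪
    Set.range fun i => D.qs (u i)) ∧ AlgebraicIndependent (IntermediateField.adjoin k {D.θ}) s

theorem wn (k F ι κ : Type) [Field k] [Fintype k] [NormedField F] [IsUltrametricDist F]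
    [CompleteSpace F] [IsAlgClosed F] [Algebra k F] [Fintype ι] (D : DM F) (hD : D.Ok k)
    (An : ∀ g Δ : F, ‖g‖ ≤ 1 → ‖Δ‖ ≤ 1 → (DM.mk D.q D.θ g Δ).Fe)
    (H : ∀ (g Δ : F) (u : ι → F), (DM.mk D.q D.θ g Δ).Ok k →
      IsAlgebraic (IntermediateField.adjoin k {D.θ}) g →
      IsAlgebraic (IntermediateField.adjoin k {D.θ}) Δ → (∀ i, IsAlgebraic (Kinf k D.θ) (u i)) →
      (DM.mk D.q D.θ g Δ).Ind u → (DM.mk D.q D.θ g Δ).Con k κ u)
    (hg : IsAlgebraic (IntermediateField.adjoin k {D.θ}) D.g)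
    (hΔ : IsAlgebraic (IntermediateField.adjoin k {D.θ}) D.Δ) (u : ι → F) (hu : D.Ind u) :
    D.Con k κ u := by
  obtain ⟨q, θ, g, Δ⟩ := D
  obtain ⟨hq, hθ, g1, d1, d0⟩ := hD
  dsimp only at *
  have q1 : 1 < q := hq ▸ Fintype.one_lt_card
  have h0 : θ ≠ 0 := norm_pos_iff.1 (one_pos.trans hθ)
  have hw : ‖θ⁻¹‖ < 1 := by rw [norm_inv]; exact inv_lt_one_of_one_lt₀ hθ
  have hk : ∀ c : k, ‖algebraMap k F c‖ ≤ 1 := norm_fin
  obtain ⟨h, hh⟩ := pow_unbounded_of_one_lt (∑ i, ‖u i‖) hθ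
  let z : ι ⊕ Bool → ball hk := Sum.elim (fun i => ⟨u i / θ ^ h, by
    change ‖_‖ ≤ 1
    rw [norm_div, norm_pow, div_le_one (by positivity)]
    exact (single_le_sum (fun i _ => norm_nonneg (u i)) (mem_univ i)).trans hh.le⟩)
    fun b => if b then ⟨g, g1⟩ else ⟨Δ, d1⟩
  have hz : ∀ i, θ ^ h * z (.inl i) = u i := fun i => mul_div_cancel₀ _ (pow_ne_zero _ h0)
  have hθK := IntermediateField.mem_adjoin_simple_self k θ
  obtain ⟨T, y, Γ, τ, hT, θT, zT, hy, hL, hf, hτ⟩ := place2 h0 hw z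
  have hK : ∀ c : IntermediateField.adjoin k {θ}, (algebraMap _ F c, algebraMap _ F c) ∈ Γ :=
    fun c => hL _ (lam_K hw c.2)
  have fn : ∀ (t : T) b, ((t : F), b) ∈ Γ → τ t = b := fun t b hb =>
    sub_eq_zero.1 (hf _ (by simpa using Γ.sub_mem (hτ t) hb))
  have e0 : τ ⟨θ, θT⟩ = θ := fn _ _ (hL _ (lam_K hw hθK))
  have e1 : ∀ i, τ ⟨z i, zT i⟩ = y i := fun i => fn _ _ (hL _ (lam_X hw i))
  have hU : ∀ i, (fun z => θ ^ h * (z i : F)) ∈ Lam hk hw (ι ⊕ Bool) := fun i =>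
    Subring.mul_mem _ (lam_K hw (pow_mem hθK h)) (lam_X hw i)
  have hθW : θ ∈ Kinf k θ := Subfield.le_topologicalClosure _ (Subfield.subset_closure (Or.inr rfl))
  have dT : (⟨z (.inr false), zT _⟩ : T) ≠ 0 := fun e => d0 (congrArg Subtype.val e)
  obtain ⟨a, ha, hi⟩ := H (y (.inr true)) (y (.inr false)) (fun i => θ ^ h * y (.inl i))
    ⟨hq, hθ, (y _).2, (y _).2, fun e => (map_ne_zero τ).2 dT ((e1 _).trans e)⟩
    (gr_alg Γ hf hK (hL _ (lam_X hw (.inr true))) hg)
    (gr_alg Γ hf hK (hL _ (lam_X hw (.inr false))) hΔ)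
    (fun i => ((isAlgebraic_algebraMap (⟨θ, hθW⟩ : Kinf k θ)).pow h).mul (hy _))
    (fun β hβ hs => by
      have : ∀ i, ∃ b : T, τ b = β i ∧ (DM.mk q θ g Δ).End b := fun i => by
        obtain ⟨ψ, c0, hc⟩ := hβ i
        obtain ⟨φ, h1, h2⟩ := com_lift τ T.subtype q1 (c := ⟨θ, θT⟩) (g := ⟨z (.inr true), zT _⟩)
          dT (ψ := ψ) (by rw [e0, e1, e1]; exact hc)
        exact ⟨φ.coeff 0, by rw [← c0, ← h1, coeff_map], φ.map T.subtype, coeff_map _ _, h2⟩
      choose b h1 h2 using this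
      have h3 : ∑ i, b i * (⟨θ, θT⟩ ^ h * ⟨z (.inl i), zT _⟩) = 0 := τ.injective (by
        simpa only [map_sum, map_mul, map_pow, e0, e1, h1, map_zero] using hs)
      have h4 := hu (fun i => b i) h2 (by
        simpa only [map_sum, map_mul, map_pow, Subfield.coe_subtype, hz, map_zero] using
          congrArg T.subtype h3)
      funext i
      rw [← h1, show b i = 0 from Subtype.ext (congrFun h4 i), map_zero, Pi.zero_apply])
  have hE := lam_drin h0 hw q1 0 (.inr true) (.inr false)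
    (fun i (z : ι ⊕ Bool → ball hk) => (DM.mk q θ (z (.inr true) : F) (z (.inr false))).al i)
    (fun z => rfl) (fun z => by simp [DM.al]) (fun i z => by simp [DM.al])
    (fun z => (DM.mk q θ (z (.inr true) : F) (z (.inr false))).ex)
    (fun z => (DM.mk q θ (z (.inr true) : F) (z (.inr false))).qs)
    (fun z => (An _ _ (z _).2 (z _).2).1)
    (fun z x => by simpa only [div_mul_eq_mul_div] using (An _ _ (z _).2 (z _).2).2.1 x)
    (fun z x => by simpa only [pow_zero, one_mul, rh] using (An _ _ (z _).2 (z _).2).2.2.1 x)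
    fun z => (An _ _ (z _).2 (z _).2).2.2.2
  have h3 : ∀ j, ∃ x, (x, a j) ∈ Γ ∧ x ∈ Set.range u ∪
      Set.range (fun i => (DM.mk q θ g Δ).ex (u i)) ∪
      Set.range fun i => (DM.mk q θ g Δ).qs (u i) := fun j => by
    rcases ha j with (⟨i, h4⟩ | ⟨i, h4⟩) | ⟨i, h4⟩
    all_goals rw [← h4]
    · exact ⟨_, hL _ (hU (.inl i)), Or.inl (Or.inl ⟨i, (hz i).symm⟩)⟩
    · exact ⟨_, hL _ (hE (.inl i) h).1, Or.inl (Or.inr ⟨i, by simp only [hz]; rfl⟩)⟩
    · exact ⟨_, hL _ (hE (.inl i) h).2, Or.inr ⟨i, by simp only [hz]; rfl⟩⟩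
  choose x h4 h5 using h3
  exact ⟨x, h5, gr_ind Γ hf hK h4 hi⟩

end Pool.Agent.CSU.SA.DS
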